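import Pool.Agent.Work.MP_327059_nt.AA.Stmts

/-! Bundle of small proof modules (one section per former module). -/

section

set_option autoImplicit false

namespace Pool.Agent.Work.MP_327059_nt.AA

open Polynomial

theorem pr_Cauchy : S_Cauchy := by
  intro F r ε τ ζ hF hb hζ
  have h := Complex.norm_iteratedDeriv_le_of_forall_mem_sphere_norm_le (n := τ) (c := ζ) (R := 1)
    (C := ε) (f := F) one_pos (hF.diffContOnCl) (by
      intro z hz
      apply hb
      have h1 : ‖z - ζ‖ = 1 := by simpa [dist_eq_norm] using hz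
      calc ‖z‖ = ‖(z - ζ) + ζ‖ := by ring_nf
        _ ≤ ‖z - ζ‖ + ‖ζ‖ := norm_add_le _ _
        _ ≤ r + 1 := by linarith)
  simpa using h

end Pool.Agent.Work.MP_327059_nt.AA

end

section

/-!
# Non associated irreducible polynomials are not both small
-/

set_option autoImplicit false

namespace Pool.Agent.Work.MP_327059_nt.AA

open Polynomial

theorem Cop_res (P Q : ℤ[X]) (hP : Irreducible P) (hQ : Irreducible Q) (hdP : 1 ≤ P.natDegree)
    (hdQ : 1 ≤ Q.natDegree) (hna : ¬ Associated P Q) : P.resultant Q ≠ 0 := by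
  have pP : P.IsPrimitive := hP.isPrimitive (by omega)
  have pQ : Q.IsPrimitive := hQ.isPrimitive (by omega)
  have iP := (IsPrimitive.Int.irreducible_iff_irreducible_map_cast pP).1 hP
  have hndvd : ¬ P.map (Int.castRingHom ℚ) ∣ Q.map (Int.castRingHom ℚ) := by
    intro hdvd
    have := (IsPrimitive.Int.dvd_iff_map_cast_dvd_map_cast P Q pP).2 hdvd
    exact hna ((hP.dvd_irreducible_iff_associated hQ).1 this)
  have hco : IsCoprime (P.map (Int.castRingHom ℚ)) (Q.map (Int.castRingHom ℚ)) :=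
    (Irreducible.coprime_iff_not_dvd iP).2 hndvd
  have hinj : Function.Injective (Int.castRingHom ℚ) := Int.cast_injective
  have h1 := resultant_ne_zero _ _ hco
  intro h0
  apply h1
  have h2 := resultant_map_map P Q P.natDegree Q.natDegree (Int.castRingHom ℚ)
  rw [natDegree_map_eq_of_injective hinj, natDegree_map_eq_of_injective hinj, h2]
  have h3 : resultant P Q P.natDegree Q.natDegree = 0 := h0
  rw [h3, map_zero]

theorem pr_Cop (h1 : S_Res) (h2 : S_LenM) : S_Cop := by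
  intro θ
  set M : ℝ := max 1 ‖θ‖ with hM
  have hM1 : 1 ≤ M := le_max_left _ _
  have hM0 : 0 < M := lt_of_lt_of_le one_pos hM1
  have hlM : 0 ≤ Real.log M := Real.log_nonneg hM1
  refine ⟨4 + 2 * Real.log M, by linarith, ?_⟩
  intro P Q hP hQ hdP hdQ hna
  have hres := Cop_res P Q hP hQ hdP hdQ hna
  have key := h1 θ P Q hdP hdQ hres
  rw [← hM] at key
  have hmx : (0 : ℝ) ≤ max ‖aeval θ P‖ ‖aeval θ Q‖ := le_trans (norm_nonneg _) (le_max_left _ _)
  set m := max ‖aeval θ P‖ ‖aeval θ Q‖ with hm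
  have hd1 : (1 : ℝ) ≤ (P.natDegree : ℝ) := by exact_mod_cast hdP
  have hd2 : (1 : ℝ) ≤ (Q.natDegree : ℝ) := by exact_mod_cast hdQ
  have ht : ∀ R : ℤ[X], R ≠ 0 → (R.natDegree : ℝ) ≤ tt R ∧ len R ≤ Real.exp (tt R) ∧
      0 ≤ len R := by
    intro R hR
    obtain ⟨a1, a2, a3⟩ := h2.1 R hR
    have l1 : 0 ≤ Real.log (mm R) := Real.log_nonneg a1
    have p0 : 0 < mm R := lt_of_lt_of_le one_pos a1
    refine ⟨?_, ?_, ?_⟩
    · unfold tt
      linarith
    · refine a3.trans ?_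
      unfold tt
      rw [Real.exp_add, Real.exp_log p0]
      apply mul_le_mul_of_nonneg_right _ p0.le
      have h3 : (2 : ℝ) ≤ Real.exp 1 := by
        have := Real.add_one_le_exp (1 : ℝ)
        linarith
      calc (2 : ℝ) ^ R.natDegree ≤ (Real.exp 1) ^ R.natDegree :=
            pow_le_pow_left₀ (by norm_num) h3 _
        _ = Real.exp (R.natDegree : ℝ) := by rw [← Real.exp_nat_mul, mul_one]
    · linarith
  obtain ⟨tP1, tP2, tP3⟩ := ht P hP.ne_zero
  obtain ⟨tQ1, tQ2, tQ3⟩ := ht Q hQ.ne_zero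
  set d := (P.natDegree : ℝ) with hd
  set e := (Q.natDegree : ℝ) with he
  set t := tt P with htt
  set u := tt Q with huu
  have ht0 : 0 ≤ t := by linarith
  have hu0 : 0 ≤ u := by linarith
  have hde : d * e ≤ t * u := mul_le_mul tP1 tQ1 (by linarith) ht0
  have hsum : d + e ≤ 2 * (d * e) := by nlinarith
  have b1 : ((P.natDegree + Q.natDegree : ℕ) : ℝ) ≤ Real.exp (2 * (t * u)) := by
    push_cast
    have := Real.add_one_le_exp (2 * (t * u))
    linarith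
  have b2 : M ^ (P.natDegree + Q.natDegree) ≤ Real.exp (2 * Real.log M * (t * u)) := by
    have e1 : M ^ (P.natDegree + Q.natDegree) = Real.exp ((d + e) * Real.log M) := by
      rw [← Real.rpow_natCast, Real.rpow_def_of_pos hM0]
      congr 1
      push_cast
      ring
    rw [e1]
    apply Real.exp_le_exp.2
    nlinarith
  have b3 : len P ^ Q.natDegree ≤ Real.exp (t * u) := by
    calc len P ^ Q.natDegree ≤ (Real.exp t) ^ Q.natDegree := pow_le_pow_left₀ tP3 tP2 _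
      _ = Real.exp (e * t) := by rw [← Real.exp_nat_mul]
      _ ≤ Real.exp (t * u) := by
          apply Real.exp_le_exp.2
          nlinarith
  have b4 : len Q ^ P.natDegree ≤ Real.exp (t * u) := by
    calc len Q ^ P.natDegree ≤ (Real.exp u) ^ P.natDegree := pow_le_pow_left₀ tQ3 tQ2 _
      _ = Real.exp (d * u) := by rw [← Real.exp_nat_mul]
      _ ≤ Real.exp (t * u) := by
          apply Real.exp_le_exp.2
          nlinarith
  have e5 : Real.exp ((4 + 2 * Real.log M) * (t * u)) =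
      Real.exp (2 * (t * u)) * Real.exp (2 * Real.log M * (t * u)) * Real.exp (t * u) *
        Real.exp (t * u) := by
    rw [← Real.exp_add, ← Real.exp_add, ← Real.exp_add]
    congr 1
    ring
  rw [e5]
  calc (1 : ℝ) ≤ ((P.natDegree + Q.natDegree : ℕ) : ℝ) * M ^ (P.natDegree + Q.natDegree) * m *
        len P ^ Q.natDegree * len Q ^ P.natDegree := key
    _ ≤ Real.exp (2 * (t * u)) * Real.exp (2 * Real.log M * (t * u)) * m * Real.exp (t * u) *
        Real.exp (t * u) := by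
        have c1 : ((P.natDegree + Q.natDegree : ℕ) : ℝ) * M ^ (P.natDegree + Q.natDegree) ≤
            Real.exp (2 * (t * u)) * Real.exp (2 * Real.log M * (t * u)) :=
          mul_le_mul b1 b2 (by positivity) (Real.exp_pos _).le
        have c2 := mul_le_mul_of_nonneg_right c1 hmx
        have c3 := mul_le_mul c2 b3 (pow_nonneg tP3 _) (by positivity)
        exact mul_le_mul c3 b4 (pow_nonneg tQ3 _) (by positivity)
    _ = _ := by ring

end Pool.Agent.Work.MP_327059_nt.AA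

end

section

/-!
# A small polynomial has a small irreducible factor
-/

set_option autoImplicit false

namespace Pool.Agent.Work.MP_327059_nt.AA

open Polynomial

theorem Fac_main (h : S_LenM) (θ : ℂ) (κ : ℝ) (hκ : 0 < κ) (P : ℤ[X]) (hP : P ≠ 0)
    (hQ : ∀ Q : ℤ[X], Irreducible Q → 1 ≤ Q.natDegree → Q ∣ P →
      Real.exp (-(κ * tt Q)) < ‖aeval θ Q‖) :
    Real.exp (-(κ * tt P)) < ‖aeval θ P‖ ∨
      (P.natDegree = 0 ∧ Real.exp (-(κ * tt P)) ≤ ‖aeval θ P‖) := by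
  obtain ⟨-, hadd, hnn⟩ := h
  have hC : ∀ c : ℤ[X], c ≠ 0 → c.natDegree = 0 → Real.exp (-(κ * tt c)) ≤ ‖aeval θ c‖ := by
    intro c hc hd
    have h1 : Real.exp (-(κ * tt c)) ≤ 1 := by
      rw [Real.exp_le_one_iff]
      have := mul_nonneg hκ.le (hnn c hc)
      linarith
    refine h1.trans ?_
    obtain ⟨a, rfl⟩ := natDegree_eq_zero.1 hd
    have ha : a ≠ 0 := by
      rintro rfl
      exact hc (by simp)
    rw [aeval_C]
    have h2 := Int.one_le_abs ha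
    have h3 : (algebraMap ℤ ℂ) a = (a : ℂ) := by simp
    rw [h3, Complex.norm_intCast]
    exact_mod_cast h2
  induction P using WfDvdMonoid.induction_on_irreducible with
  | zero => exact absurd rfl hP
  | unit u hu =>
    right
    have hd : u.natDegree = 0 := natDegree_eq_zero_of_isUnit hu
    exact ⟨hd, hC u hP hd⟩
  | mul P' q hP' hq ih =>
    have hq0 : q ≠ 0 := hq.ne_zero
    have ih' := ih hP' (fun Q h1 h2 h3 => hQ Q h1 h2 (Dvd.dvd.mul_left h3 q))
    have e1 : Real.exp (-(κ * tt (q * P'))) =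
        Real.exp (-(κ * tt q)) * Real.exp (-(κ * tt P')) := by
      rw [hadd q P' hq0 hP', ← Real.exp_add]
      congr 1
      ring
    have e2 : ‖aeval θ (q * P')‖ = ‖aeval θ q‖ * ‖aeval θ P'‖ := by
      rw [map_mul, norm_mul]
    have ihw : Real.exp (-(κ * tt P')) ≤ ‖aeval θ P'‖ := by
      rcases ih' with h1 | h1
      · exact h1.le
      · exact h1.2
    by_cases hd : q.natDegree = 0
    · have h1 := hC q hq0 hd
      rcases ih' with h2 | h2
      · left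
        rw [e1, e2]
        exact mul_lt_mul' h1 h2 (Real.exp_pos _).le (lt_of_lt_of_le (Real.exp_pos _) h1)
      · right
        refine ⟨?_, ?_⟩
        · rw [natDegree_mul hq0 hP', hd, h2.1]
        · rw [e1, e2]
          exact mul_le_mul h1 h2.2 (Real.exp_pos _).le (norm_nonneg _)
    · left
      have h1 := hQ q hq (by omega) (Dvd.intro _ rfl)
      rw [e1, e2]
      exact mul_lt_mul h1 ihw (Real.exp_pos _) (norm_nonneg _)

theorem pr_Fac (h : S_LenM) : S_Fac := by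
  intro θ κ P hκ hP hne hlt hsm
  by_contra hcon
  push Not at hcon
  have h1 : ∀ Q : ℤ[X], Irreducible Q → 1 ≤ Q.natDegree → Q ∣ P →
      Real.exp (-(κ * tt Q)) < ‖aeval θ Q‖ := by
    intro Q hQ hd hdvd
    apply hcon Q hQ hd
    obtain ⟨R, rfl⟩ := hdvd
    have hR : R ≠ 0 := right_ne_zero_of_mul hP
    rw [h.2.1 Q R hQ.ne_zero hR]
    have := h.2.2 R hR
    linarith
  rcases Fac_main h θ κ hκ P hP h1 with h2 | h2
  · exact absurd hsm (not_le.2 h2)
  · obtain ⟨a, rfl⟩ := natDegree_eq_zero.1 h2.1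
    rw [aeval_C] at hne hlt
    have h3 : (algebraMap ℤ ℂ) a = (a : ℂ) := by simp
    rw [h3] at hne hlt
    rw [Complex.norm_intCast] at hlt
    have ha : a ≠ 0 := by
      rintro rfl
      exact hne (by simp)
    have h4 := Int.one_le_abs ha
    have h5 : (1 : ℝ) ≤ |(a : ℝ)| := by exact_mod_cast h4
    linarith

end Pool.Agent.Work.MP_327059_nt.AA

end

section

/-!
# The small non-zero values
-/

set_option autoImplicit false

namespace Pool.Agent.Work.MP_327059_nt.AA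

open Polynomial

/-- the index type -/
abbrev Fun_I (n : ℕ) : Type := Fin (n ^ 24) × Fin (n ^ 22) × Fin (n ^ 14) × Fin (n ^ 14)

/-- frequencies -/
noncomputable def Fun_om (γ : ℂ) (n : ℕ) (w : Fin (n ^ 14) × Fin (n ^ 14)) : ℂ :=
  ((w.1 : ℕ) : ℂ) + ((w.2 : ℕ) : ℂ) * γ

/-- the functions -/
noncomputable def Fun_f (θ γ : ℂ) (n : ℕ) (a : Fun_I n) (z : ℂ) : ℂ :=
  θ ^ (a.1 : ℕ) * (z ^ (a.2.1 : ℕ) *
    Complex.exp ((((a.2.2.1 : ℕ) : ℂ) + ((a.2.2.2 : ℕ) : ℂ) * γ) * z))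

/-- the polynomials -/
noncomputable def Fun_P (θ : ℂ) (n : ℕ) (p : Fun_I n → ℤ) (w : Fin (n ^ 14) × Fin (n ^ 14)) : ℂ[X] :=
  ∑ k : Fin (n ^ 22), C (∑ i : Fin (n ^ 24), (p (i, k, w) : ℂ) * θ ^ (i : ℕ)) * X ^ (k : ℕ)

theorem Fun_sum3 {α β γ : Type} [Fintype α] [Fintype β] [Fintype γ] (g : α → β → γ → ℂ) :
    ∑ w, ∑ k, ∑ i, g i k w = ∑ a : α × β × γ, g a.1 a.2.1 a.2.2 := by
  rw [Fintype.sum_prod_type]
  simp only [Fintype.sum_prod_type]
  rw [Finset.sum_comm, Finset.sum_congr rfl (fun k _ => Finset.sum_comm), Finset.sum_comm]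

theorem Fun_ep (θ γ : ℂ) (n : ℕ) (p : Fun_I n → ℤ) (z : ℂ) :
    ep (Fun_om γ n) (Fun_P θ n p) z = ∑ a, (p a : ℂ) * Fun_f θ γ n a z := by
  have h := Fun_sum3 (α := Fin (n ^ 24)) (β := Fin (n ^ 22)) (γ := Fin (n ^ 14) × Fin (n ^ 14))
    (fun i k w => (p (i, k, w) : ℂ) * Fun_f θ γ n (i, k, w) z)
  rw [← h]
  unfold ep Fun_P Fun_f Fun_om
  simp only [eval_finsetSum, eval_mul, eval_C, eval_pow, eval_X, Finset.sum_mul]
  refine Finset.sum_congr rfl fun w _ => Finset.sum_congr rfl fun k _ =>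
    Finset.sum_congr rfl fun i _ => ?_
  ring

theorem Fun_inj (γ : ℂ) (hγ : ∀ q : ℚ, γ ≠ q) (n : ℕ) : Function.Injective (Fun_om γ n) := by
  intro w w' h
  unfold Fun_om at h
  have key : (w.2 : ℕ) = (w'.2 : ℕ) := by
    by_contra hne
    have hne' : ((w.2 : ℕ) : ℂ) - ((w'.2 : ℕ) : ℂ) ≠ 0 := by
      rw [sub_ne_zero]; exact_mod_cast hne
    have h2 : γ = (((w'.1 : ℕ) : ℂ) - ((w.1 : ℕ) : ℂ)) / (((w.2 : ℕ) : ℂ) - ((w'.2 : ℕ) : ℂ)) := by
      rw [eq_div_iff hne']; linear_combination h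
    apply hγ ((((w'.1 : ℕ) : ℚ) - ((w.1 : ℕ) : ℚ)) / (((w.2 : ℕ) : ℚ) - ((w'.2 : ℕ) : ℚ)))
    rw [h2]; push_cast; rfl
  have key1 : (w.1 : ℕ) = (w'.1 : ℕ) := by
    rw [key] at h
    have := add_right_cancel h
    exact_mod_cast this
  exact Prod.ext (Fin.ext key1) (Fin.ext key)

theorem Fun_coeff (θ : ℂ) (n : ℕ) (p : Fun_I n → ℤ) (w : Fin (n ^ 14) × Fin (n ^ 14))
    (k : Fin (n ^ 22)) :
    (Fun_P θ n p w).coeff k = ∑ i : Fin (n ^ 24), (p (i, k, w) : ℂ) * θ ^ (i : ℕ) := by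
  unfold Fun_P
  rw [finsetSum_coeff, Finset.sum_eq_single k]
  · simp only [coeff_C_mul, coeff_X_pow, if_true, mul_one]
  · intro b _ hb
    rw [coeff_C_mul, coeff_X_pow, if_neg, mul_zero]
    intro h; exact hb (Fin.ext h.symm)
  · simp

theorem Fun_deg (θ : ℂ) (n : ℕ) (p : Fun_I n → ℤ) (w : Fin (n ^ 14) × Fin (n ^ 14)) :
    (Fun_P θ n p w).degree < ((n ^ 22 : ℕ) : WithBot ℕ) := by
  unfold Fun_P
  refine lt_of_le_of_lt (degree_sum_le _ _) ?_
  rw [Finset.sup_lt_iff (WithBot.bot_lt_coe _)]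
  intro k _
  exact lt_of_le_of_lt (degree_C_mul_X_pow_le _ _) (by exact_mod_cast k.2)

theorem Fun_ne (θ : ℂ) (hθ : Transcendental ℚ θ) (n : ℕ) (p : Fun_I n → ℤ) (hp : p ≠ 0) :
    ∃ w, Fun_P θ n p w ≠ 0 := by
  obtain ⟨⟨i, k, w⟩, ha⟩ := Function.ne_iff.1 hp
  refine ⟨w, fun h0 => ?_⟩
  have h1 := Fun_coeff θ n p w k
  rw [h0, coeff_zero] at h1
  set Q : ℚ[X] := ∑ i : Fin (n ^ 24), C ((p (i, k, w) : ℤ) : ℚ) * X ^ (i : ℕ) with hQ
  have hQ0 : aeval θ Q = 0 := by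
    rw [hQ, map_sum, h1]
    refine Finset.sum_congr rfl fun i _ => ?_
    simp
  have hQne : Q ≠ 0 := by
    intro hz
    have h2 : Q.coeff i = (p (i, k, w) : ℚ) := by
      rw [hQ, finsetSum_coeff, Finset.sum_eq_single i]
      · simp only [coeff_C_mul, coeff_X_pow, if_true, mul_one]
      · intro b _ hb
        rw [coeff_C_mul, coeff_X_pow, if_neg, mul_zero]
        intro h; exact hb (Fin.ext h.symm)
      · simp
    rw [hz, coeff_zero] at h2
    exact ha (by exact_mod_cast h2.symm)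
  exact hθ ⟨Q, hQne, hQ0⟩

theorem Fun_diff (θ γ : ℂ) (n : ℕ) (a : Fun_I n) : Differentiable ℂ (Fun_f θ γ n a) := by
  unfold Fun_f
  fun_prop

theorem Fun_le_exp (x : ℝ) : x ≤ Real.exp x := by
  have := Real.add_one_le_exp x; linarith

theorem Fun_pow_le_exp (n : ℕ) (k : ℕ) : (n : ℝ) ^ k ≤ Real.exp (k * n) := by
  rw [Real.exp_nat_mul]
  exact pow_le_pow_left₀ (Nat.cast_nonneg n) (Fun_le_exp _) k

/-- bound for the functions -/
theorem Fun_bd (θ γ : ℂ) (n : ℕ) (hn : 1 ≤ n) (Y : ℝ) (hY : 1 ≤ Y) (a : Fun_I n) (z : ℂ)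
    (hz : ‖z‖ ≤ 2 * (Y * (n : ℝ) ^ 10 + 1)) :
    ‖Fun_f θ γ n a z‖ ≤ Real.exp ((max 1 ‖θ‖ + (2 * (Y + 1) + 10) +
      2 * (1 + ‖γ‖) * (Y + 1)) * (n : ℝ) ^ 24) := by
  have hn1 : (1 : ℝ) ≤ n := by exact_mod_cast hn
  have hn0 : (0 : ℝ) < n := by linarith
  set M := max 1 ‖θ‖ with hM
  have hM1 : 1 ≤ M := le_max_left _ _
  have hR : Y * (n : ℝ) ^ 10 + 1 ≤ (Y + 1) * (n : ℝ) ^ 10 := by
    have : (1 : ℝ) ≤ (n : ℝ) ^ 10 := one_le_pow₀ hn1
    nlinarith
  have hz' : ‖z‖ ≤ 2 * (Y + 1) * (n : ℝ) ^ 10 := by linarith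
  have hp1 : (1 : ℝ) ≤ 2 * (Y + 1) * (n : ℝ) ^ 10 := by
    have : (1 : ℝ) ≤ (n : ℝ) ^ 10 := one_le_pow₀ hn1
    nlinarith
  unfold Fun_f
  rw [norm_mul, norm_mul, norm_pow, norm_pow]
  -- first factor
  have e1 : ‖θ‖ ^ (a.1 : ℕ) ≤ Real.exp (M * (n : ℝ) ^ 24) := by
    calc ‖θ‖ ^ (a.1 : ℕ) ≤ M ^ (a.1 : ℕ) := pow_le_pow_left₀ (norm_nonneg _) (le_max_right _ _) _
      _ ≤ M ^ (n ^ 24) := pow_le_pow_right₀ hM1 a.1.2.le
      _ ≤ (Real.exp M) ^ (n ^ 24) := pow_le_pow_left₀ (by linarith) (Fun_le_exp M) _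
      _ = Real.exp (M * (n : ℝ) ^ 24) := by
          rw [← Real.exp_nat_mul]; congr 1; push_cast; ring
  -- second factor
  have e2 : ‖z‖ ^ (a.2.1 : ℕ) ≤ Real.exp ((2 * (Y + 1) + 10) * (n : ℝ) ^ 24) := by
    have h1 : 2 * (Y + 1) * (n : ℝ) ^ 10 ≤ Real.exp ((2 * (Y + 1) + 10) * n) := by
      calc 2 * (Y + 1) * (n : ℝ) ^ 10 ≤ Real.exp (2 * (Y + 1)) * Real.exp (10 * n) :=
            mul_le_mul (Fun_le_exp _) (by have := Fun_pow_le_exp n 10; exact_mod_cast this)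
              (by positivity) (Real.exp_pos _).le
        _ = Real.exp (2 * (Y + 1) + 10 * n) := by rw [← Real.exp_add]
        _ ≤ Real.exp ((2 * (Y + 1) + 10) * n) := by
            apply Real.exp_le_exp.2; nlinarith
    calc ‖z‖ ^ (a.2.1 : ℕ) ≤ (2 * (Y + 1) * (n : ℝ) ^ 10) ^ (a.2.1 : ℕ) :=
          pow_le_pow_left₀ (norm_nonneg _) hz' _
      _ ≤ (2 * (Y + 1) * (n : ℝ) ^ 10) ^ (n ^ 22) := pow_le_pow_right₀ hp1 a.2.1.2.le
      _ ≤ (Real.exp ((2 * (Y + 1) + 10) * n)) ^ (n ^ 22) := pow_le_pow_left₀ (by linarith) h1 _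
      _ = Real.exp ((2 * (Y + 1) + 10) * (n : ℝ) ^ 23) := by
          rw [← Real.exp_nat_mul]; congr 1; push_cast; ring
      _ ≤ Real.exp ((2 * (Y + 1) + 10) * (n : ℝ) ^ 24) := by
          apply Real.exp_le_exp.2
          exact mul_le_mul_of_nonneg_left (pow_le_pow_right₀ hn1 (by norm_num)) (by linarith)
  -- third factor
  have e3 : ‖Complex.exp ((((a.2.2.1 : ℕ) : ℂ) + ((a.2.2.2 : ℕ) : ℂ) * γ) * z)‖ ≤
      Real.exp (2 * (1 + ‖γ‖) * (Y + 1) * (n : ℝ) ^ 24) := by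
    refine le_trans (Complex.norm_exp_le_exp_norm _) (Real.exp_le_exp.2 ?_)
    rw [norm_mul]
    have h1 : ‖((a.2.2.1 : ℕ) : ℂ) + ((a.2.2.2 : ℕ) : ℂ) * γ‖ ≤ (n : ℝ) ^ 14 * (1 + ‖γ‖) := by
      have hw1 : ((a.2.2.1 : ℕ) : ℝ) ≤ (n : ℝ) ^ 14 := by exact_mod_cast a.2.2.1.2.le
      have hw2 : ((a.2.2.2 : ℕ) : ℝ) ≤ (n : ℝ) ^ 14 := by exact_mod_cast a.2.2.2.2.le
      calc ‖((a.2.2.1 : ℕ) : ℂ) + ((a.2.2.2 : ℕ) : ℂ) * γ‖
          ≤ ((a.2.2.1 : ℕ) : ℝ) + ((a.2.2.2 : ℕ) : ℝ) * ‖γ‖ := by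
            refine le_trans (norm_add_le _ _) ?_
            rw [norm_mul, Complex.norm_natCast, Complex.norm_natCast]
        _ ≤ (n : ℝ) ^ 14 + (n : ℝ) ^ 14 * ‖γ‖ :=
            add_le_add hw1 (mul_le_mul_of_nonneg_right hw2 (norm_nonneg _))
        _ = (n : ℝ) ^ 14 * (1 + ‖γ‖) := by ring
    calc ‖((a.2.2.1 : ℕ) : ℂ) + ((a.2.2.2 : ℕ) : ℂ) * γ‖ * ‖z‖
        ≤ ((n : ℝ) ^ 14 * (1 + ‖γ‖)) * (2 * (Y + 1) * (n : ℝ) ^ 10) :=
          mul_le_mul h1 hz' (norm_nonneg _) (by positivity)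
      _ = 2 * (1 + ‖γ‖) * (Y + 1) * (n : ℝ) ^ 24 := by ring
  calc ‖θ‖ ^ (a.1 : ℕ) * (‖z‖ ^ (a.2.1 : ℕ) *
        ‖Complex.exp ((((a.2.2.1 : ℕ) : ℂ) + ((a.2.2.2 : ℕ) : ℂ) * γ) * z)‖)
      ≤ Real.exp (M * (n : ℝ) ^ 24) * (Real.exp ((2 * (Y + 1) + 10) * (n : ℝ) ^ 24) *
        Real.exp (2 * (1 + ‖γ‖) * (Y + 1) * (n : ℝ) ^ 24)) := by
        refine mul_le_mul e1 ?_ (by positivity) (Real.exp_pos _).le
        exact mul_le_mul e2 e3 (norm_nonneg _) (Real.exp_pos _).le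
    _ = _ := by rw [← Real.exp_add, ← Real.exp_add]; congr 1; ring

/-- the points -/
noncomputable def Fun_pt (y : Fin 3 → ℂ) (n : ℕ) (s : Fin 3 → Fin (n ^ 10)) : ℂ :=
  ∑ j, ((s j : ℕ) : ℂ) * y j

theorem Fun_pt_inj (y : Fin 3 → ℂ) (hy : LinearIndependent ℚ y) (n : ℕ) :
    Function.Injective (Fun_pt y n) := by
  intro s s' h
  unfold Fun_pt at h
  have h1 : ∑ j, ((((s j : ℕ) : ℚ) - ((s' j : ℕ) : ℚ))) • y j = 0 := by
    have h2 : ∑ j, ((((s j : ℕ) : ℂ)) * y j - (((s' j : ℕ) : ℂ)) * y j) = 0 := by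
      rw [Finset.sum_sub_distrib, h, sub_self]
    rw [← h2]
    refine Finset.sum_congr rfl fun j _ => ?_
    rw [Rat.smul_def]
    push_cast; ring
  have h2 := Fintype.linearIndependent_iff.1 hy _ h1
  funext j
  have h3 := h2 j
  apply Fin.ext
  have h4 : ((s j : ℕ) : ℚ) = ((s' j : ℕ) : ℚ) := by linarith
  exact_mod_cast h4

theorem Fun_pt_norm (y : Fin 3 → ℂ) (n : ℕ) (s : Fin 3 → Fin (n ^ 10)) :
    ‖Fun_pt y n s‖ ≤ (1 + ∑ j, ‖y j‖) * (n : ℝ) ^ 10 := by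
  unfold Fun_pt
  calc ‖∑ j, ((s j : ℕ) : ℂ) * y j‖ ≤ ∑ j, ‖((s j : ℕ) : ℂ) * y j‖ := norm_sum_le _ _
    _ ≤ ∑ j, (n : ℝ) ^ 10 * ‖y j‖ := by
        refine Finset.sum_le_sum fun j _ => ?_
        rw [norm_mul, Complex.norm_natCast]
        exact mul_le_mul_of_nonneg_right (by exact_mod_cast (s j).2.le) (norm_nonneg _)
    _ = (∑ j, ‖y j‖) * (n : ℝ) ^ 10 := by rw [← Finset.mul_sum]; ring
    _ ≤ (1 + ∑ j, ‖y j‖) * (n : ℝ) ^ 10 := by
        have : (0 : ℝ) ≤ (n : ℝ) ^ 10 := by positivity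
        nlinarith

theorem Fun_om_norm (γ : ℂ) (n : ℕ) (w : Fin (n ^ 14) × Fin (n ^ 14)) :
    ‖Fun_om γ n w‖ ≤ (n : ℝ) ^ 14 * (1 + ‖γ‖) := by
  have hw1 : ((w.1 : ℕ) : ℝ) ≤ (n : ℝ) ^ 14 := by exact_mod_cast w.1.2.le
  have hw2 : ((w.2 : ℕ) : ℝ) ≤ (n : ℝ) ^ 14 := by exact_mod_cast w.2.2.le
  unfold Fun_om
  calc ‖((w.1 : ℕ) : ℂ) + ((w.2 : ℕ) : ℂ) * γ‖
      ≤ ((w.1 : ℕ) : ℝ) + ((w.2 : ℕ) : ℝ) * ‖γ‖ := by
        refine le_trans (norm_add_le _ _) ?_
        rw [norm_mul, Complex.norm_natCast, Complex.norm_natCast]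
    _ ≤ (n : ℝ) ^ 14 + (n : ℝ) ^ 14 * ‖γ‖ :=
        add_le_add hw1 (mul_le_mul_of_nonneg_right hw2 (norm_nonneg _))
    _ = (n : ℝ) ^ 14 * (1 + ‖γ‖) := by ring

/-- derivatives of the sum -/
theorem Fun_deriv (θ γ : ℂ) (n : ℕ) (p : Fun_I n → ℤ) (τ : ℕ) (ζ : ℂ) :
    iteratedDeriv τ (fun z => ∑ a, (p a : ℂ) * Fun_f θ γ n a z) ζ =
      ∑ a, (p a : ℂ) * (θ ^ (a.1 : ℕ) * iteratedDeriv τ (fun z : ℂ => z ^ (a.2.1 : ℕ) *
        Complex.exp ((((a.2.2.1 : ℕ) : ℂ) + ((a.2.2.2 : ℕ) : ℂ) * γ) * z)) ζ) := by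
  have hd : ∀ a : Fun_I n, Differentiable ℂ (fun z : ℂ => (p a : ℂ) * Fun_f θ γ n a z) :=
    fun a => (Fun_diff θ γ n a).const_mul _
  rw [iteratedDeriv_fun_sum (fun a _ => ((hd a).contDiff (n := τ)).contDiffAt)]
  refine Finset.sum_congr rfl fun a _ => ?_
  unfold Fun_f
  rw [iteratedDeriv_const_mul_field, iteratedDeriv_const_mul_field]

/-- numerical facts -/
theorem Fun_num (C₁ C₂ C₃ : ℝ) : ∀ᶠ n : ℕ in Filter.atTop, 1 ≤ n ∧
    8 * ((n : ℝ) ^ 28 * (n : ℝ) ^ 22 + C₁ * (n : ℝ) ^ 10 * ((n : ℝ) ^ 14 * C₂)) < (n : ℝ) ^ 52 ∧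
    C₃ * (n : ℝ) ^ 24 ≤ (Real.log 2 - 1 / 2) * (n : ℝ) ^ 49 := by
  have h2 : (0.1 : ℝ) < Real.log 2 - 1 / 2 := by have := Real.log_two_gt_d9; linarith
  filter_upwards [Filter.eventually_ge_atTop (1 + ⌈8 + 8 * |C₁ * C₂|⌉₊ + ⌈10 * C₃⌉₊)] with n hn
  have hn1 : 1 ≤ n := by omega
  have hn1' : (1 : ℝ) ≤ n := by exact_mod_cast hn1
  have ha : 8 + 8 * |C₁ * C₂| < n := by
    have h3 := Nat.le_ceil (8 + 8 * |C₁ * C₂|)
    have h4 : (1 : ℝ) + (⌈8 + 8 * |C₁ * C₂|⌉₊ : ℝ) ≤ n := by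
      have : 1 + ⌈8 + 8 * |C₁ * C₂|⌉₊ ≤ n := by omega
      exact_mod_cast this
    linarith
  have hb : 10 * C₃ ≤ n := by
    have h3 := Nat.le_ceil (10 * C₃)
    have h4 : (⌈10 * C₃⌉₊ : ℝ) ≤ n := by
      have : ⌈10 * C₃⌉₊ ≤ n := by omega
      exact_mod_cast this
    linarith
  refine ⟨hn1, ?_, ?_⟩
  · have e1 : (n : ℝ) ^ 24 ≤ (n : ℝ) ^ 50 := pow_le_pow_right₀ hn1' (by norm_num)
    have e0 : (0 : ℝ) < (n : ℝ) ^ 50 := by positivity
    have e2 : C₁ * C₂ ≤ |C₁ * C₂| := le_abs_self _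
    have e3 : C₁ * (n : ℝ) ^ 10 * ((n : ℝ) ^ 14 * C₂) ≤ |C₁ * C₂| * (n : ℝ) ^ 50 := by
      calc C₁ * (n : ℝ) ^ 10 * ((n : ℝ) ^ 14 * C₂) = (C₁ * C₂) * (n : ℝ) ^ 24 := by ring
        _ ≤ |C₁ * C₂| * (n : ℝ) ^ 24 := mul_le_mul_of_nonneg_right e2 (by positivity)
        _ ≤ |C₁ * C₂| * (n : ℝ) ^ 50 := mul_le_mul_of_nonneg_left e1 (abs_nonneg _)
    have e4 : (n : ℝ) ≤ (n : ℝ) ^ 2 := by nlinarith
    calc 8 * ((n : ℝ) ^ 28 * (n : ℝ) ^ 22 + C₁ * (n : ℝ) ^ 10 * ((n : ℝ) ^ 14 * C₂))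
        ≤ (8 + 8 * |C₁ * C₂|) * (n : ℝ) ^ 50 := by
          have : (n : ℝ) ^ 28 * (n : ℝ) ^ 22 = (n : ℝ) ^ 50 := by ring
          rw [this]; linarith
      _ < (n : ℝ) ^ 2 * (n : ℝ) ^ 50 := mul_lt_mul_of_pos_right (by linarith) e0
      _ = (n : ℝ) ^ 52 := by ring
  · have e1 : (n : ℝ) ^ 25 ≤ (n : ℝ) ^ 49 := pow_le_pow_right₀ hn1' (by norm_num)
    have e0 : (0 : ℝ) ≤ (n : ℝ) ^ 24 := by positivity
    calc C₃ * (n : ℝ) ^ 24 ≤ (0.1 * n) * (n : ℝ) ^ 24 :=
          mul_le_mul_of_nonneg_right (by linarith) e0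
      _ = 0.1 * (n : ℝ) ^ 25 := by ring
      _ ≤ 0.1 * (n : ℝ) ^ 49 := by linarith
      _ ≤ (Real.log 2 - 1 / 2) * (n : ℝ) ^ 49 :=
          mul_le_mul_of_nonneg_right h2.le (by positivity)

theorem Fun_eps (n : ℕ) (hn : 1 ≤ n) (CA : ℝ) :
    (4 * ((n ^ 49 : ℕ) : ℝ) + 2) * ((Fintype.card (Fun_I n) : ℝ) * 2 ^ (2 * n ^ 24) *
      Real.exp (CA * (n : ℝ) ^ 24)) / 2 ^ (n ^ 49) ≤
      Real.exp ((131 + CA) * (n : ℝ) ^ 24 - Real.log 2 * (n : ℝ) ^ 49) := by
  have hn1 : (1 : ℝ) ≤ n := by exact_mod_cast hn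
  have hc : (Fintype.card (Fun_I n) : ℝ) = (n : ℝ) ^ 74 := by
    simp only [Fun_I, Fintype.card_prod, Fintype.card_fin]; push_cast; ring
  have hnn : (n : ℝ) ≤ (n : ℝ) ^ 24 := by
    calc (n : ℝ) = (n : ℝ) ^ 1 := (pow_one _).symm
      _ ≤ (n : ℝ) ^ 24 := pow_le_pow_right₀ hn1 (by norm_num)
  have h24 : (1 : ℝ) ≤ (n : ℝ) ^ 24 := one_le_pow₀ hn1
  have e1 : 4 * ((n ^ 49 : ℕ) : ℝ) + 2 ≤ Real.exp (55 * (n : ℝ) ^ 24) := by
    have h49 := Fun_pow_le_exp n 49
    have h1 : (1 : ℝ) ≤ (n : ℝ) ^ 49 := one_le_pow₀ hn1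
    have h6 : (6 : ℝ) ≤ Real.exp 6 := Fun_le_exp 6
    calc 4 * ((n ^ 49 : ℕ) : ℝ) + 2 ≤ 6 * (n : ℝ) ^ 49 := by push_cast; linarith
      _ ≤ Real.exp 6 * Real.exp (49 * n) :=
          mul_le_mul h6 (by exact_mod_cast h49) (by positivity) (Real.exp_pos _).le
      _ = Real.exp (6 + 49 * n) := by rw [← Real.exp_add]
      _ ≤ Real.exp (55 * (n : ℝ) ^ 24) := by apply Real.exp_le_exp.2; linarith
  have e2 : (n : ℝ) ^ 74 ≤ Real.exp (74 * (n : ℝ) ^ 24) := by
    have h74 := Fun_pow_le_exp n 74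
    refine le_trans h74 (Real.exp_le_exp.2 ?_)
    push_cast; linarith
  have e3 : (2 : ℝ) ^ (2 * n ^ 24) ≤ Real.exp (2 * (n : ℝ) ^ 24) := by
    have h21 : (2 : ℝ) ≤ Real.exp 1 := by have := Real.exp_one_gt_d9; linarith
    calc (2 : ℝ) ^ (2 * n ^ 24) ≤ (Real.exp 1) ^ (2 * n ^ 24) :=
          pow_le_pow_left₀ (by norm_num) h21 _
      _ = Real.exp (2 * (n : ℝ) ^ 24) := by rw [← Real.exp_nat_mul]; congr 1; push_cast; ring
  have e4 : (2 : ℝ) ^ (n ^ 49) = Real.exp (Real.log 2 * (n : ℝ) ^ 49) := by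
    rw [← Real.rpow_natCast, Real.rpow_def_of_pos (by norm_num)]; push_cast; ring_nf
  rw [hc, e4, div_le_iff₀ (Real.exp_pos _), ← Real.exp_add]
  calc (4 * ((n ^ 49 : ℕ) : ℝ) + 2) * ((n : ℝ) ^ 74 * 2 ^ (2 * n ^ 24) *
        Real.exp (CA * (n : ℝ) ^ 24))
      ≤ Real.exp (55 * (n : ℝ) ^ 24) * (Real.exp (74 * (n : ℝ) ^ 24) *
        Real.exp (2 * (n : ℝ) ^ 24) * Real.exp (CA * (n : ℝ) ^ 24)) := by
        refine mul_le_mul e1 ?_ (by positivity) (Real.exp_pos _).le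
        refine mul_le_mul ?_ le_rfl (Real.exp_pos _).le (by positivity)
        exact mul_le_mul e2 e3 (by positivity) (Real.exp_pos _).le
    _ = Real.exp ((131 + CA) * (n : ℝ) ^ 24 - Real.log 2 * (n : ℝ) ^ 49 +
          Real.log 2 * (n : ℝ) ^ 49) := by
        rw [← Real.exp_add, ← Real.exp_add, ← Real.exp_add]; congr 1; ring

/-- height of a term -/
theorem Fun_height (n : ℕ) (hn : 1 ≤ n) (k τ : ℕ) (hk : k ≤ n ^ 22) (hτ : τ ≤ n ^ 22) :
    (3 * ((n ^ 10 : ℕ) : ℝ)) ^ k * ((k : ℝ) + 2 * ((n ^ 14 : ℕ) : ℝ)) ^ τ ≤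
      Real.exp (38 * (n : ℝ) ^ 24) := by
  have hn1 : (1 : ℝ) ≤ n := by exact_mod_cast hn
  have hk' : (k : ℝ) ≤ (n : ℝ) ^ 22 := by exact_mod_cast hk
  have h10 : (1 : ℝ) ≤ (n : ℝ) ^ 10 := one_le_pow₀ hn1
  have e1 : 3 * ((n ^ 10 : ℕ) : ℝ) ≤ Real.exp (13 * n) := by
    calc 3 * ((n ^ 10 : ℕ) : ℝ) ≤ Real.exp 3 * Real.exp (10 * n) := by
          push_cast
          exact mul_le_mul (Fun_le_exp 3) (by exact_mod_cast Fun_pow_le_exp n 10) (by positivity)
            (Real.exp_pos _).le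
      _ = Real.exp (3 + 10 * n) := by rw [← Real.exp_add]
      _ ≤ Real.exp (13 * n) := by apply Real.exp_le_exp.2; linarith
  have e2 : (k : ℝ) + 2 * ((n ^ 14 : ℕ) : ℝ) ≤ Real.exp (25 * n) := by
    have h1422 : (n : ℝ) ^ 14 ≤ (n : ℝ) ^ 22 := pow_le_pow_right₀ hn1 (by norm_num)
    calc (k : ℝ) + 2 * ((n ^ 14 : ℕ) : ℝ) ≤ 3 * (n : ℝ) ^ 22 := by push_cast; linarith
      _ ≤ Real.exp 3 * Real.exp (22 * n) :=
          mul_le_mul (Fun_le_exp 3) (by exact_mod_cast Fun_pow_le_exp n 22) (by positivity)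
            (Real.exp_pos _).le
      _ = Real.exp (3 + 22 * n) := by rw [← Real.exp_add]
      _ ≤ Real.exp (25 * n) := by apply Real.exp_le_exp.2; linarith
  have e3 : (1 : ℝ) ≤ Real.exp (13 * n) := Real.one_le_exp (by positivity)
  have e4 : (1 : ℝ) ≤ Real.exp (25 * n) := Real.one_le_exp (by positivity)
  calc (3 * ((n ^ 10 : ℕ) : ℝ)) ^ k * ((k : ℝ) + 2 * ((n ^ 14 : ℕ) : ℝ)) ^ τ
      ≤ (Real.exp (13 * n)) ^ (n ^ 22) * (Real.exp (25 * n)) ^ (n ^ 22) := by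
        refine mul_le_mul ?_ ?_ (by positivity) (by positivity)
        · exact le_trans (pow_le_pow_left₀ (by positivity) e1 _) (pow_le_pow_right₀ e3 hk)
        · exact le_trans (pow_le_pow_left₀ (by positivity) e2 _) (pow_le_pow_right₀ e4 hτ)
    _ = Real.exp (38 * (n : ℝ) ^ 23) := by
        rw [← Real.exp_nat_mul, ← Real.exp_nat_mul, ← Real.exp_add]; congr 1; push_cast; ring
    _ ≤ Real.exp (38 * (n : ℝ) ^ 24) := by
        apply Real.exp_le_exp.2
        exact mul_le_mul_of_nonneg_left (pow_le_pow_right₀ hn1 (by norm_num)) (by norm_num)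

theorem Fun_fact (n : ℕ) (hn : 1 ≤ n) (τ : ℕ) (hτ : τ ≤ n ^ 22) :
    (τ.factorial : ℝ) ≤ Real.exp (22 * (n : ℝ) ^ 24) := by
  have hn1 : (1 : ℝ) ≤ n := by exact_mod_cast hn
  calc (τ.factorial : ℝ) ≤ (τ : ℝ) ^ τ := by exact_mod_cast Nat.factorial_le_pow τ
    _ ≤ ((n : ℝ) ^ 22) ^ τ := pow_le_pow_left₀ (Nat.cast_nonneg _) (by exact_mod_cast hτ) _
    _ ≤ ((n : ℝ) ^ 22) ^ (n ^ 22) := pow_le_pow_right₀ (one_le_pow₀ hn1) hτ
    _ ≤ (Real.exp (22 * n)) ^ (n ^ 22) :=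
        pow_le_pow_left₀ (by positivity) (by exact_mod_cast Fun_pow_le_exp n 22) _
    _ = Real.exp (22 * (n : ℝ) ^ 23) := by
        rw [← Real.exp_nat_mul]; congr 1; push_cast; ring
    _ ≤ Real.exp (22 * (n : ℝ) ^ 24) := by
        apply Real.exp_le_exp.2
        exact mul_le_mul_of_nonneg_left (pow_le_pow_right₀ hn1 (by norm_num)) (by norm_num)

theorem pr_Fun (h1 : S_PL) (h2 : S_Cauchy) (h3 : S_ZE) (h4 : S_Sum) (h5 : S_Rep) : S_Fun := by
  intro θ γ y hθ hγ hy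
  set Y : ℝ := 1 + ∑ j, ‖y j‖ with hYdef
  have hY1 : 1 ≤ Y := by
    have : 0 ≤ ∑ j, ‖y j‖ := Finset.sum_nonneg fun j _ => norm_nonneg _
    linarith
  set CA : ℝ := max 1 ‖θ‖ + (2 * (Y + 1) + 10) + 2 * (1 + ‖γ‖) * (Y + 1) with hCA
  refine ⟨114, by norm_num, ?_⟩
  filter_upwards [Fun_num Y (1 + ‖γ‖) (22 + (131 + CA))] with n hn
  obtain ⟨hn1, hnum, hexp⟩ := hn
  have hn1' : (1 : ℝ) ≤ n := by exact_mod_cast hn1
  set r : ℝ := Y * (n : ℝ) ^ 10 with hr
  have hr0 : 0 < r := by positivity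
  -- the function
  obtain ⟨p, hp0, hpb, hsmall⟩ := h1 (Fun_I n) (Fun_f θ γ n) (r + 1)
    (Real.exp (CA * (n : ℝ) ^ 24)) (2 * n ^ 24) (n ^ 49) (by linarith) (Real.exp_pos _).le
    (by positivity) (Fun_diff θ γ n) (fun a z hz => Fun_bd θ γ n hn1 Y hY1 a z hz)
    (by simp only [Fun_I, Fintype.card_prod, Fintype.card_fin]; apply le_of_eq; ring)
  set F : ℂ → ℂ := fun z => ∑ a, (p a : ℂ) * Fun_f θ γ n a z with hF
  have hFep : ep (Fun_om γ n) (Fun_P θ n p) = F := by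
    funext z; exact Fun_ep θ γ n p z
  have hFd : Differentiable ℂ F := by
    rw [hF]
    exact Differentiable.fun_sum fun a _ => (Fun_diff θ γ n a).const_mul _
  -- a non-vanishing derivative
  have hex : ∃ s : Fin 3 → Fin (n ^ 10), ∃ τ < n ^ 22, iteratedDeriv τ F (Fun_pt y n s) ≠ 0 := by
    by_contra hcon
    push Not at hcon
    set Z : Finset ℂ := Finset.univ.image (Fun_pt y n) with hZ
    have hcard : Z.card = (n ^ 10) ^ 3 := by
      rw [hZ, Finset.card_image_of_injective _ (Fun_pt_inj y hy n), Finset.card_univ,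
        Fintype.card_fun, Fintype.card_fin, Fintype.card_fin]
    have h := h3 (Fin (n ^ 14) × Fin (n ^ 14)) (n ^ 22) (n ^ 22) (Fun_om γ n) (Fun_P θ n p) Z
      ((n : ℝ) ^ 14 * (1 + ‖γ‖)) r (Fun_inj γ hγ n) (Fun_om_norm γ n) (Fun_deg θ n p)
      (Fun_ne θ hθ n p hp0) hr0
      (by
        intro ζ hζ
        rw [hZ, Finset.mem_image] at hζ
        obtain ⟨s, _, rfl⟩ := hζ
        exact Fun_pt_norm y n s)
      (by
        intro ζ hζ τ hτ
        rw [hZ, Finset.mem_image] at hζ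
        obtain ⟨s, _, rfl⟩ := hζ
        rw [hFep]
        exact hcon s τ hτ)
    rw [hcard] at h
    simp only [Fintype.card_prod, Fintype.card_fin] at h
    push_cast at h
    have h6 : (n : ℝ) ^ 52 ≤ 8 * ((n : ℝ) ^ 28 * (n : ℝ) ^ 22 +
        Y * (n : ℝ) ^ 10 * ((n : ℝ) ^ 14 * (1 + ‖γ‖))) := by
      calc (n : ℝ) ^ 52 = (n : ℝ) ^ 22 * ((n : ℝ) ^ 10) ^ 3 := by ring
        _ ≤ _ := h
        _ = _ := by rw [hr]; ring
    linarith
  obtain ⟨s, τ, hτ, hne⟩ := hex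
  refine ⟨9 * n ^ 24, Real.exp (114 * (n : ℝ) ^ 24), iteratedDeriv τ F (Fun_pt y n s),
    Real.one_le_exp (by positivity), ?_, hne, ?_, ?_, ?_⟩
  · -- representation
    rw [hF, Fun_deriv]
    have hL : 1 ≤ n ^ 14 := Nat.one_le_pow _ _ hn1
    have hS : 1 ≤ n ^ 10 := Nat.one_le_pow _ _ hn1
    have h2224 : n ^ 22 ≤ n ^ 24 := Nat.pow_le_pow_right hn1 (by norm_num)
    have e3 : (2 : ℝ) ^ (2 * n ^ 24) ≤ Real.exp (2 * (n : ℝ) ^ 24) := by
      have h21 : (2 : ℝ) ≤ Real.exp 1 := by have := Real.exp_one_gt_d9; linarith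
      calc (2 : ℝ) ^ (2 * n ^ 24) ≤ (Real.exp 1) ^ (2 * n ^ 24) :=
            pow_le_pow_left₀ (by norm_num) h21 _
        _ = Real.exp (2 * (n : ℝ) ^ 24) := by rw [← Real.exp_nat_mul]; congr 1; push_cast; ring
    have hterm : ∀ a ∈ (Finset.univ : Finset (Fun_I n)), IsVal (xv θ γ y) (9 * n ^ 24)
        (Real.exp (40 * (n : ℝ) ^ 24))
        ((p a : ℂ) * (θ ^ (a.1 : ℕ) * iteratedDeriv τ (fun z : ℂ => z ^ (a.2.1 : ℕ) *
          Complex.exp ((((a.2.2.1 : ℕ) : ℂ) + ((a.2.2.2 : ℕ) : ℂ) * γ) * z))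
          (Fun_pt y n s))) := by
      intro a _
      have hv := h5 θ γ y a.1 a.2.1 a.2.2.1 a.2.2.2 τ (n ^ 14) (n ^ 10) (fun j => (s j : ℕ))
        a.2.2.1.2.le a.2.2.2.2.le (fun j => (s j).2.le) hL hS
      refine IsVal.mono ?_ ?_ (IsVal.mul (IsVal.int (p a)) hv)
      · have e : 6 * n ^ 14 * n ^ 10 = 6 * n ^ 24 := by ring
        have a1 := a.1.2.le
        have a2 := a.2.1.2.le
        rw [e]
        omega
      · have hpa : |((p a : ℤ) : ℝ)| ≤ Real.exp (2 * (n : ℝ) ^ 24) := by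
          refine le_trans ?_ e3
          have := hpb a
          exact_mod_cast this
        calc |((p a : ℤ) : ℝ)| * ((3 * ((n ^ 10 : ℕ) : ℝ)) ^ (a.2.1 : ℕ) *
              (((a.2.1 : ℕ) : ℝ) + 2 * ((n ^ 14 : ℕ) : ℝ)) ^ τ)
            ≤ Real.exp (2 * (n : ℝ) ^ 24) * Real.exp (38 * (n : ℝ) ^ 24) := by
              refine mul_le_mul hpa (Fun_height n hn1 _ _ a.2.1.2.le hτ.le) ?_
                (Real.exp_pos _).le
              positivity
          _ = Real.exp (40 * (n : ℝ) ^ 24) := by rw [← Real.exp_add]; congr 1; ring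
    have hsum := h4 11 (xv θ γ y) (Fun_I n) Finset.univ (9 * n ^ 24)
      (Real.exp (40 * (n : ℝ) ^ 24)) _ (Real.exp_pos _).le hterm
    refine IsVal.mono le_rfl ?_ hsum
    have hc : ((Finset.univ : Finset (Fun_I n)).card : ℝ) = (n : ℝ) ^ 74 := by
      rw [Finset.card_univ]
      simp only [Fun_I, Fintype.card_prod, Fintype.card_fin]; push_cast; ring
    rw [hc]
    have e2 : (n : ℝ) ^ 74 ≤ Real.exp (74 * (n : ℝ) ^ 24) := by
      have h74 := Fun_pow_le_exp n 74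
      refine le_trans h74 (Real.exp_le_exp.2 ?_)
      have hnn : (n : ℝ) ≤ (n : ℝ) ^ 24 := by
        calc (n : ℝ) = (n : ℝ) ^ 1 := (pow_one _).symm
          _ ≤ (n : ℝ) ^ 24 := pow_le_pow_right₀ hn1' (by norm_num)
      push_cast; linarith
    calc (n : ℝ) ^ 74 * Real.exp (40 * (n : ℝ) ^ 24)
        ≤ Real.exp (74 * (n : ℝ) ^ 24) * Real.exp (40 * (n : ℝ) ^ 24) :=
          mul_le_mul_of_nonneg_right e2 (Real.exp_pos _).le
      _ = Real.exp (114 * (n : ℝ) ^ 24) := by rw [← Real.exp_add]; congr 1; ring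
  · push_cast
    have : (0 : ℝ) ≤ (n : ℝ) ^ 24 := by positivity
    linarith
  · rw [Real.log_exp]
  · -- smallness
    have hζ : ‖Fun_pt y n s‖ ≤ r := Fun_pt_norm y n s
    have hc := h2 F r _ τ (Fun_pt y n s) hFd hsmall hζ
    refine le_trans hc ?_
    have hε := Fun_eps n hn1 CA
    calc (τ.factorial : ℝ) * ((4 * ((n ^ 49 : ℕ) : ℝ) + 2) * ((Fintype.card (Fun_I n) : ℝ) *
          2 ^ (2 * n ^ 24) * Real.exp (CA * (n : ℝ) ^ 24)) / 2 ^ (n ^ 49))
        ≤ Real.exp (22 * (n : ℝ) ^ 24) *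
          Real.exp ((131 + CA) * (n : ℝ) ^ 24 - Real.log 2 * (n : ℝ) ^ 49) := by
          refine mul_le_mul (Fun_fact n hn1 τ hτ.le) hε ?_ (Real.exp_pos _).le
          positivity
      _ = Real.exp ((22 + (131 + CA)) * (n : ℝ) ^ 24 - Real.log 2 * (n : ℝ) ^ 49) := by
          rw [← Real.exp_add]; congr 1; ring
      _ ≤ Real.exp (-((n : ℝ) ^ 49 / 114)) := by
          apply Real.exp_le_exp.2
          have h49 : (0 : ℝ) ≤ (n : ℝ) ^ 49 := by positivity
          have : (Real.log 2 - 1 / 2) * (n : ℝ) ^ 49 =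
            Real.log 2 * (n : ℝ) ^ 49 - (n : ℝ) ^ 49 / 2 := by ring
          rw [this] at hexp
          linarith

end Pool.Agent.Work.MP_327059_nt.AA

end

section

set_option autoImplicit false

namespace Pool.Agent.Work.MP_327059_nt.AA

open Polynomial

theorem FunG_inj (β : ℂ) (hβ : ∀ q : ℚ, β ≠ q) (N : ℕ) :
    Function.Injective (fun w : Fin N × Fin N => ((w.1 : ℕ) : ℂ) + ((w.2 : ℕ) : ℂ) * β) := by
  intro w w' h
  have h0 : ((w.1 : ℕ) : ℂ) + ((w.2 : ℕ) : ℂ) * β = ((w'.1 : ℕ) : ℂ) + ((w'.2 : ℕ) : ℂ) * β := h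
  by_cases h2 : (w.2 : ℕ) = w'.2
  · rw [h2] at h0
    have h1 : ((w.1 : ℕ) : ℂ) = ((w'.1 : ℕ) : ℂ) := add_right_cancel h0
    have h3 : (w.1 : ℕ) = w'.1 := by exact_mod_cast h1
    exact Prod.ext (Fin.ext h3) (Fin.ext h2)
  · exfalso
    have h4 : ((w.2 : ℕ) : ℂ) - ((w'.2 : ℕ) : ℂ) ≠ 0 := by
      intro h5
      apply h2
      have : ((w.2 : ℕ) : ℂ) = ((w'.2 : ℕ) : ℂ) := sub_eq_zero.1 h5
      exact_mod_cast this
    apply hβ ((((w'.1 : ℕ) : ℚ) - ((w.1 : ℕ) : ℚ)) / (((w.2 : ℕ) : ℚ) - ((w'.2 : ℕ) : ℚ)))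
    push_cast
    rw [eq_div_iff h4]
    linear_combination h0

theorem FunG_term (w : ℂ) (n : ℕ) (z : ℂ) :
    ContDiffAt ℂ n (fun z : ℂ => Complex.exp (w * z)) z :=
  (contDiffAt_const.mul contDiffAt_id).cexp

theorem FunG_sum {ι : Type} [Fintype ι] (p : ι → ℤ) (ω : ι → ℂ) (τ : ℕ) (ζ : ℂ) :
    iteratedDeriv τ (ep ω (fun i => C (p i : ℂ))) ζ =
      ∑ i, (p i : ℂ) * iteratedDeriv τ (fun z : ℂ => Complex.exp (ω i * z)) ζ := by
  have h1 : ep ω (fun i => C (p i : ℂ)) =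
      fun z => ∑ i, (p i : ℂ) * Complex.exp (ω i * z) := by
    ext z
    unfold ep
    simp only [eval_C]
  rw [h1, iteratedDeriv_fun_sum]
  · refine Finset.sum_congr rfl fun i _ => ?_
    exact iteratedDeriv_const_mul _ (FunG_term (ω i) τ ζ)
  · intro i _
    exact contDiffAt_const.mul (FunG_term (ω i) τ ζ)

theorem FunG_fact (n τ : ℕ) (hn : 1 ≤ n) (hτ : τ < n ^ 13) :
    (τ.factorial : ℝ) ≤ Real.exp (13 * (n : ℝ) ^ 14) := by
  have hn' : (1 : ℝ) ≤ n := by exact_mod_cast hn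
  have h1 : τ.factorial ≤ (n ^ 13) ^ (n ^ 13) := by
    calc τ.factorial ≤ (n ^ 13).factorial := Nat.factorial_le hτ.le
      _ ≤ (n ^ 13) ^ (n ^ 13) := Nat.factorial_le_pow _
  have h2 : (τ.factorial : ℝ) ≤ ((n : ℝ) ^ 13) ^ (n ^ 13) := by exact_mod_cast h1
  refine h2.trans ?_
  have h3 : (n : ℝ) ≤ Real.exp n := by
    have := Real.add_one_le_exp (n : ℝ)
    linarith
  calc ((n : ℝ) ^ 13) ^ (n ^ 13) ≤ ((Real.exp n) ^ 13) ^ (n ^ 13) := by
        apply pow_le_pow_left₀ (by positivity)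
        exact pow_le_pow_left₀ (by positivity) h3 _
    _ = Real.exp (13 * (n : ℝ) ^ 14) := by
        rw [← pow_mul, ← Real.exp_nat_mul]
        congr 1
        push_cast
        ring

theorem FunG_num1 (n a b : ℝ) (ha : 0 ≤ a) (hb : 0 ≤ b) (hn1 : 1 ≤ n)
    (hn : 4 * (48 + 2 * (1 + a) * (b + 2)) ≤ n) :
    8 * (n ^ 16 + (b * n ^ 4 + 1) * (n ^ 8 * (1 + a))) < n ^ 17 := by
  have h4 : (1 : ℝ) ≤ n ^ 4 := one_le_pow₀ hn1
  have h1 : b * n ^ 4 + 1 ≤ (b + 1) * n ^ 4 := by nlinarith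
  have h2 : (b * n ^ 4 + 1) * (n ^ 8 * (1 + a)) ≤ (b + 1) * (1 + a) * n ^ 12 := by
    calc (b * n ^ 4 + 1) * (n ^ 8 * (1 + a)) ≤ ((b + 1) * n ^ 4) * (n ^ 8 * (1 + a)) :=
          mul_le_mul_of_nonneg_right h1 (by positivity)
      _ = (b + 1) * (1 + a) * n ^ 12 := by ring
  have h3 : n ^ 12 ≤ n ^ 16 := pow_le_pow_right₀ hn1 (by norm_num)
  have h5 : (b + 1) * (1 + a) * n ^ 12 ≤ (b + 1) * (1 + a) * n ^ 16 :=
    mul_le_mul_of_nonneg_left h3 (by positivity)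
  have h6 : 0 < n ^ 16 := by positivity
  have h7 : 8 * (1 + (b + 1) * (1 + a)) < n := by nlinarith [mul_nonneg ha hb]
  calc 8 * (n ^ 16 + (b * n ^ 4 + 1) * (n ^ 8 * (1 + a))) ≤
      8 * (1 + (b + 1) * (1 + a)) * n ^ 16 := by linarith
    _ < n * n ^ 16 := by exact mul_lt_mul_of_pos_right h7 h6
    _ = n ^ 17 := by ring

theorem FunG_num2 (n : ℕ) (a b t : ℝ) (ha : 0 ≤ a) (hb : 0 ≤ b) (hn1 : 1 ≤ n)
    (hn : 4 * (48 + 2 * (1 + a) * (b + 2)) ≤ n) (ht0 : 0 ≤ t)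
    (ht : t ≤ Real.exp (13 * (n : ℝ) ^ 14)) :
    t * ((4 * ((n ^ 15 : ℕ) : ℝ) + 2) * (((n ^ 16 : ℕ) : ℝ) * 2 ^ (2 * n ^ 14) *
      Real.exp ((n : ℝ) ^ 8 * (1 + a) * (2 * (b * (n : ℝ) ^ 4 + 1 + 1)))) / 2 ^ (n ^ 15)) ≤
      Real.exp (-((n : ℝ) ^ 15 / 27)) := by
  have hn' : (1 : ℝ) ≤ n := by exact_mod_cast hn1
  have hm : (n : ℝ) ≤ (n : ℝ) ^ 14 := by
    calc (n : ℝ) = (n : ℝ) ^ 1 := (pow_one _).symm
      _ ≤ (n : ℝ) ^ 14 := pow_le_pow_right₀ hn' (by norm_num)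
  have hm1 : (1 : ℝ) ≤ (n : ℝ) ^ 14 := one_le_pow₀ hn'
  have hne : (n : ℝ) ≤ Real.exp n := by
    have := Real.add_one_le_exp (n : ℝ)
    linarith
  have h6 : (6 : ℝ) ≤ Real.exp 2 := by
    have h1 := Real.exp_one_gt_d9
    have h2 : Real.exp 2 = Real.exp 1 * Real.exp 1 := by
      rw [← Real.exp_add]; norm_num
    rw [h2]
    nlinarith
  have e1 : 4 * ((n ^ 15 : ℕ) : ℝ) + 2 ≤ Real.exp (17 * (n : ℝ) ^ 14) := by
    have h15 : (1 : ℝ) ≤ (n : ℝ) ^ 15 := one_le_pow₀ hn'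
    push_cast
    calc 4 * (n : ℝ) ^ 15 + 2 ≤ 6 * (n : ℝ) ^ 15 := by linarith
      _ ≤ Real.exp 2 * (Real.exp n) ^ 15 :=
        mul_le_mul h6 (pow_le_pow_left₀ (by positivity) hne _) (by positivity) (by positivity)
      _ = Real.exp (2 + 15 * n) := by
        rw [← Real.exp_nat_mul, ← Real.exp_add]; norm_num
      _ ≤ Real.exp (17 * (n : ℝ) ^ 14) := Real.exp_le_exp.2 (by linarith)
  have e2 : ((n ^ 16 : ℕ) : ℝ) ≤ Real.exp (16 * (n : ℝ) ^ 14) := by
    push_cast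
    calc (n : ℝ) ^ 16 ≤ (Real.exp n) ^ 16 := pow_le_pow_left₀ (by positivity) hne _
      _ = Real.exp (16 * n) := by
        rw [← Real.exp_nat_mul]; norm_num
      _ ≤ Real.exp (16 * (n : ℝ) ^ 14) := Real.exp_le_exp.2 (by linarith)
  have e3 : (2 : ℝ) ^ (2 * n ^ 14) ≤ Real.exp (2 * (n : ℝ) ^ 14) := by
    have h2 : (2 : ℝ) ≤ Real.exp 1 := by
      have := Real.add_one_le_exp (1 : ℝ)
      linarith
    calc (2 : ℝ) ^ (2 * n ^ 14) ≤ (Real.exp 1) ^ (2 * n ^ 14) :=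
          pow_le_pow_left₀ (by norm_num) h2 _
      _ = Real.exp (2 * (n : ℝ) ^ 14) := by
        rw [← Real.exp_nat_mul]; push_cast; rw [mul_one]
  have e4 : Real.exp ((n : ℝ) ^ 8 * (1 + a) * (2 * (b * (n : ℝ) ^ 4 + 1 + 1))) ≤
      Real.exp ((2 * (1 + a) * (b + 2)) * (n : ℝ) ^ 14) := by
    apply Real.exp_le_exp.2
    have h4 : (1 : ℝ) ≤ (n : ℝ) ^ 4 := one_le_pow₀ hn'
    calc (n : ℝ) ^ 8 * (1 + a) * (2 * (b * (n : ℝ) ^ 4 + 1 + 1)) ≤
        (n : ℝ) ^ 8 * (1 + a) * (2 * ((b + 2) * (n : ℝ) ^ 4)) := by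
          apply mul_le_mul_of_nonneg_left _ (by positivity)
          nlinarith
      _ = (2 * (1 + a) * (b + 2)) * (n : ℝ) ^ 12 := by ring
      _ ≤ (2 * (1 + a) * (b + 2)) * (n : ℝ) ^ 14 := by
          apply mul_le_mul_of_nonneg_left _ (by positivity)
          exact pow_le_pow_right₀ hn' (by norm_num)
  have e5 : Real.exp ((n : ℝ) ^ 15 / 2) ≤ 2 ^ (n ^ 15) := by
    have h1 : Real.exp (1 / 2) ≤ 2 := by
      have h2 : (1 / 2 : ℝ) ≤ Real.log 2 := by
        have := Real.log_two_gt_d9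
        linarith
      calc Real.exp (1 / 2) ≤ Real.exp (Real.log 2) := Real.exp_le_exp.2 h2
        _ = 2 := Real.exp_log (by norm_num)
    calc Real.exp ((n : ℝ) ^ 15 / 2) = (Real.exp (1 / 2)) ^ (n ^ 15) := by
          rw [← Real.exp_nat_mul]; push_cast; congr 1; ring
      _ ≤ 2 ^ (n ^ 15) := pow_le_pow_left₀ (by positivity) h1 _
  have e6 : (4 * ((n ^ 15 : ℕ) : ℝ) + 2) * (((n ^ 16 : ℕ) : ℝ) * 2 ^ (2 * n ^ 14) *
      Real.exp ((n : ℝ) ^ 8 * (1 + a) * (2 * (b * (n : ℝ) ^ 4 + 1 + 1)))) ≤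
      Real.exp (17 * (n : ℝ) ^ 14) * (Real.exp (16 * (n : ℝ) ^ 14) *
        Real.exp (2 * (n : ℝ) ^ 14) * Real.exp ((2 * (1 + a) * (b + 2)) * (n : ℝ) ^ 14)) := by
    apply mul_le_mul e1 _ (by positivity) (by positivity)
    apply mul_le_mul _ e4 (by positivity) (by positivity)
    exact mul_le_mul e2 e3 (by positivity) (by positivity)
  have hc : (48 + 2 * (1 + a) * (b + 2)) * (n : ℝ) ^ 14 ≤ (n : ℝ) ^ 15 / 4 := by
    have h14 : (0 : ℝ) ≤ (n : ℝ) ^ 14 := by positivity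
    have := mul_le_mul_of_nonneg_right hn h14
    have h15 : (n : ℝ) ^ 15 = n * (n : ℝ) ^ 14 := by ring
    rw [h15]
    linarith
  have h15 : (0 : ℝ) ≤ (n : ℝ) ^ 15 := by positivity
  calc t * ((4 * ((n ^ 15 : ℕ) : ℝ) + 2) * (((n ^ 16 : ℕ) : ℝ) * 2 ^ (2 * n ^ 14) *
      Real.exp ((n : ℝ) ^ 8 * (1 + a) * (2 * (b * (n : ℝ) ^ 4 + 1 + 1)))) / 2 ^ (n ^ 15)) ≤
      Real.exp (13 * (n : ℝ) ^ 14) * ((Real.exp (17 * (n : ℝ) ^ 14) *
        (Real.exp (16 * (n : ℝ) ^ 14) *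
        Real.exp (2 * (n : ℝ) ^ 14) * Real.exp ((2 * (1 + a) * (b + 2)) * (n : ℝ) ^ 14))) /
        Real.exp ((n : ℝ) ^ 15 / 2)) := by
        apply mul_le_mul ht _ (by positivity) (by positivity)
        exact div_le_div₀ (by positivity) e6 (by positivity) e5
    _ = Real.exp ((48 + 2 * (1 + a) * (b + 2)) * (n : ℝ) ^ 14 - (n : ℝ) ^ 15 / 2) := by
        rw [← Real.exp_add, ← Real.exp_add, ← Real.exp_add, ← Real.exp_sub, ← Real.exp_add]
        congr 1
        ring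
    _ ≤ Real.exp (-((n : ℝ) ^ 15 / 27)) := by
        apply Real.exp_le_exp.2
        linarith

theorem FunG_num3 (n : ℕ) (hn1 : 1 ≤ n) :
    1 ≤ ((n ^ 16 : ℕ) : ℝ) * (2 ^ (2 * n ^ 14) * (2 * ((n ^ 8 : ℕ) : ℝ)) ^ (n ^ 13)) ∧
    Real.log (((n ^ 16 : ℕ) : ℝ) * (2 ^ (2 * n ^ 14) * (2 * ((n ^ 8 : ℕ) : ℝ)) ^ (n ^ 13))) ≤
      27 * (n : ℝ) ^ 14 := by
  have hn' : (1 : ℝ) ≤ n := by exact_mod_cast hn1
  have hm : (n : ℝ) ≤ (n : ℝ) ^ 14 := by
    calc (n : ℝ) = (n : ℝ) ^ 1 := (pow_one _).symm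
      _ ≤ (n : ℝ) ^ 14 := pow_le_pow_right₀ hn' (by norm_num)
  have hlogn : Real.log n ≤ n := (Real.log_le_sub_one_of_pos (by linarith)).trans (by linarith)
  have hlog2 : Real.log 2 ≤ 1 := by
    have := Real.log_two_lt_d9
    linarith
  push_cast
  have h8 : (1 : ℝ) ≤ 2 * (n : ℝ) ^ 8 := by
    have : (1 : ℝ) ≤ (n : ℝ) ^ 8 := one_le_pow₀ hn'
    linarith
  constructor
  · have h1 : (1 : ℝ) ≤ (n : ℝ) ^ 16 := one_le_pow₀ hn'
    have h2 : (1 : ℝ) ≤ 2 ^ (2 * n ^ 14) := one_le_pow₀ (by norm_num)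
    have h3 : (1 : ℝ) ≤ (2 * (n : ℝ) ^ 8) ^ (n ^ 13) := one_le_pow₀ h8
    exact one_le_mul_of_one_le_of_one_le h1 (one_le_mul_of_one_le_of_one_le h2 h3)
  · rw [Real.log_mul (by positivity) (by positivity), Real.log_mul (by positivity) (by positivity),
      Real.log_pow, Real.log_pow, Real.log_pow, Real.log_mul (by norm_num) (by positivity),
      Real.log_pow]
    push_cast
    have h13 : (0 : ℝ) ≤ (n : ℝ) ^ 13 := by positivity
    have h14 : (0 : ℝ) ≤ (n : ℝ) ^ 14 := by positivity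
    have a1 : 16 * Real.log n ≤ 16 * (n : ℝ) ^ 14 := by linarith
    have a2 : 2 * (n : ℝ) ^ 14 * Real.log 2 ≤ 2 * (n : ℝ) ^ 14 := by nlinarith
    have a3 : (n : ℝ) ^ 13 * (Real.log 2 + 8 * Real.log n) ≤ 9 * (n : ℝ) ^ 14 := by
      calc (n : ℝ) ^ 13 * (Real.log 2 + 8 * Real.log n) ≤ (n : ℝ) ^ 13 * (n + 8 * n) := by
            apply mul_le_mul_of_nonneg_left _ h13
            linarith
        _ = 9 * (n : ℝ) ^ 14 := by ring
    linarith

theorem pr_FunG (h1 : S_PL) (h2 : S_Cauchy) (h3 : S_ZE) (h4 : S_Sum) (h5 : S_RepG) : S_FunG := by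
  intro β l hβ hl
  refine ⟨27, by norm_num, ?_⟩
  have hev : ∀ᶠ n : ℕ in Filter.atTop, 4 * (48 + 2 * (1 + ‖β‖) * (‖l‖ + 2)) ≤ (n : ℝ) :=
    Filter.Tendsto.eventually_ge_atTop tendsto_natCast_atTop_atTop _
  filter_upwards [hev, Filter.eventually_ge_atTop 1] with n hn hn1
  have hn' : (1 : ℝ) ≤ n := by exact_mod_cast hn1
  have ha : 0 ≤ ‖β‖ := norm_nonneg _
  have hb : 0 ≤ ‖l‖ := norm_nonneg _
  let ω : Fin (n ^ 8) × Fin (n ^ 8) → ℂ := fun w => ((w.1 : ℕ) : ℂ) + ((w.2 : ℕ) : ℂ) * β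
  have hωinj : Function.Injective ω := FunG_inj β hβ (n ^ 8)
  have hωle : ∀ w, ‖ω w‖ ≤ (n : ℝ) ^ 8 * (1 + ‖β‖) := by
    intro w
    have w1 : ((w.1 : ℕ) : ℝ) ≤ (n : ℝ) ^ 8 := by exact_mod_cast w.1.2.le
    have w2 : ((w.2 : ℕ) : ℝ) ≤ (n : ℝ) ^ 8 := by exact_mod_cast w.2.2.le
    calc ‖ω w‖ ≤ ‖((w.1 : ℕ) : ℂ)‖ + ‖((w.2 : ℕ) : ℂ) * β‖ := norm_add_le _ _
      _ = ((w.1 : ℕ) : ℝ) + ((w.2 : ℕ) : ℝ) * ‖β‖ := by
          rw [norm_mul, Complex.norm_natCast, Complex.norm_natCast]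
      _ ≤ (n : ℝ) ^ 8 + (n : ℝ) ^ 8 * ‖β‖ :=
          add_le_add w1 (mul_le_mul_of_nonneg_right w2 ha)
      _ = (n : ℝ) ^ 8 * (1 + ‖β‖) := by ring
  set r0 : ℝ := ‖l‖ * (n : ℝ) ^ 4 + 1 with hr0
  have hr0pos : 0 < r0 := by positivity
  set A : ℝ := Real.exp ((n : ℝ) ^ 8 * (1 + ‖β‖) * (2 * (‖l‖ * (n : ℝ) ^ 4 + 1 + 1))) with hA
  have hcard : Fintype.card (Fin (n ^ 8) × Fin (n ^ 8)) = n ^ 16 := by
    rw [Fintype.card_prod, Fintype.card_fin]; ring
  obtain ⟨p, hp0, hple, hpsmall⟩ := h1 (Fin (n ^ 8) × Fin (n ^ 8))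
    (fun w z => Complex.exp (ω w * z)) (r0 + 1) A (2 * n ^ 14) (n ^ 15) (by positivity)
    (by positivity) (by positivity)
    (by
      intro w
      exact (differentiable_id.const_mul (ω w)).cexp)
    (by
      intro w z hz
      rw [hA]
      refine (Complex.norm_exp_le_exp_norm _).trans (Real.exp_le_exp.2 ?_)
      rw [norm_mul]
      exact mul_le_mul (hωle w) hz (norm_nonneg _) (by positivity))
    (by
      rw [hcard]
      apply le_of_eq
      ring)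
  rw [hcard] at hpsmall
  let P : Fin (n ^ 8) × Fin (n ^ 8) → ℂ[X] := fun w => C (p w : ℂ)
  have hPne : ∃ j, P j ≠ 0 := by
    by_contra hcon
    push Not at hcon
    apply hp0
    ext j
    have h6 : C (p j : ℂ) = 0 := hcon j
    rw [C_eq_zero] at h6
    exact_mod_cast h6
  let Z : Finset ℂ := (Finset.range (n ^ 4)).image (fun s : ℕ => (s : ℂ) * l)
  have hZcard : Z.card = n ^ 4 := by
    rw [Finset.card_image_of_injective, Finset.card_range]
    intro s s' hs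
    have hs0 : (s : ℂ) * l = (s' : ℂ) * l := hs
    have := mul_right_cancel₀ hl hs0
    exact_mod_cast this
  have hZle : ∀ ζ ∈ Z, ‖ζ‖ ≤ r0 := by
    intro ζ hζ
    obtain ⟨s, hs, rfl⟩ := Finset.mem_image.1 hζ
    rw [Finset.mem_range] at hs
    have hs' : (s : ℝ) ≤ (n : ℝ) ^ 4 := by exact_mod_cast hs.le
    rw [norm_mul, Complex.norm_natCast, hr0]
    nlinarith [mul_le_mul_of_nonneg_right hs' hb]
  -- a nonzero derivative
  have hex : ∃ ζ ∈ Z, ∃ τ < n ^ 13, iteratedDeriv τ (ep ω P) ζ ≠ 0 := by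
    by_contra hcon
    push Not at hcon
    have h6 := h3 (Fin (n ^ 8) × Fin (n ^ 8)) 1 (n ^ 13) ω P Z ((n : ℝ) ^ 8 * (1 + ‖β‖)) r0
      hωinj hωle (fun j => lt_of_le_of_lt degree_C_le (by norm_num)) hPne hr0pos hZle hcon
    rw [hcard, hZcard] at h6
    push_cast at h6
    have h7 := FunG_num1 (n : ℝ) ‖β‖ ‖l‖ ha hb hn' hn
    rw [← hr0] at h7
    have h8 : (n : ℝ) ^ 13 * (n : ℝ) ^ 4 = (n : ℝ) ^ 17 := by ring
    rw [h8, mul_one] at h6
    linarith
  obtain ⟨ζ, hζ, τ, hτ, hξ⟩ := hex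
  obtain ⟨s, hs, rfl⟩ := Finset.mem_image.1 hζ
  rw [Finset.mem_range] at hs
  obtain ⟨hH1, hHlog⟩ := FunG_num3 n hn1
  refine ⟨n ^ 13 + 2 * n ^ 8 * n ^ 4, _, iteratedDeriv τ (ep ω P) ((s : ℂ) * l), hH1, ?_, hξ, ?_,
    hHlog, ?_⟩
  · -- the value
    rw [FunG_sum]
    have h6 := h4 3 (gv β l) (Fin (n ^ 8) × Fin (n ^ 8)) Finset.univ (n ^ 13 + 2 * n ^ 8 * n ^ 4)
      (2 ^ (2 * n ^ 14) * (2 * ((n ^ 8 : ℕ) : ℝ)) ^ (n ^ 13))
      (fun w => (p w : ℂ) * iteratedDeriv τ (fun z : ℂ => Complex.exp (ω w * z)) ((s : ℂ) * l))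
      (by positivity)
      (by
        intro w _
        have h7 := h5 β l w.1 w.2 τ (n ^ 8) (n ^ 4) s w.1.2.le w.2.2.le hs.le
          (Nat.one_le_pow _ _ hn1)
        have h8 := IsVal.mul (IsVal.int (x := gv β l) (p w)) h7
        refine IsVal.mono ?_ ?_ h8
        · omega
        · apply mul_le_mul
          · have := hple w
            exact_mod_cast this
          · apply pow_le_pow_right₀ _ hτ.le
            have h9 : (1 : ℝ) ≤ ((n ^ 8 : ℕ) : ℝ) := by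
              exact_mod_cast Nat.one_le_pow _ _ hn1
            linarith
          · positivity
          · positivity)
    rw [Finset.card_univ, hcard] at h6
    exact h6
  · push_cast
    have h13 : (n : ℝ) ^ 13 ≤ (n : ℝ) ^ 14 := pow_le_pow_right₀ hn' (by norm_num)
    have h12 : (n : ℝ) ^ 12 ≤ (n : ℝ) ^ 14 := pow_le_pow_right₀ hn' (by norm_num)
    have h8 : 2 * (n : ℝ) ^ 8 * (n : ℝ) ^ 4 = 2 * (n : ℝ) ^ 12 := by ring
    have h14 : (0 : ℝ) ≤ (n : ℝ) ^ 14 := by positivity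
    rw [h8]
    linarith
  · have hdiff : Differentiable ℂ (ep ω P) := by
      unfold ep
      apply Differentiable.fun_sum
      intro j _
      exact (Polynomial.differentiable _).mul ((differentiable_id.const_mul (ω j)).cexp)
    have h6 := h2 (ep ω P) r0 _ τ ((s : ℂ) * l) hdiff (fun z hz => by
      have h7 := hpsmall z hz
      have h8 : ep ω P z = ∑ i, (p i : ℂ) * Complex.exp (ω i * z) := by
        unfold ep
        simp only [P, eval_C]
      rw [h8]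
      exact h7) (hZle _ hζ)
    refine h6.trans ?_
    exact FunG_num2 n ‖β‖ ‖l‖ _ ha hb hn1 hn (by positivity) (FunG_fact n τ hn1 hτ)

end Pool.Agent.Work.MP_327059_nt.AA

end

section

/-!
# Gel'fond's criterion with room
-/

set_option autoImplicit false

namespace Pool.Agent.Work.MP_327059_nt.AA

open Polynomial

lemma GC_aeval_ne {θ : ℂ} (hθ : Transcendental ℚ θ) {P : ℤ[X]} (hP : P ≠ 0) :
    aeval θ P ≠ 0 := by
  intro h
  apply hθ
  have h1 : IsAlgebraic ℤ θ := ⟨P, hP, h⟩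
  exact (IsFractionRing.isAlgebraic_iff ℤ ℚ ℂ).1 h1

lemma GC_norm_assoc (θ : ℂ) {P Q : ℤ[X]} (h : Associated P Q) :
    ‖aeval θ P‖ = ‖aeval θ Q‖ := by
  obtain ⟨u, hu⟩ := h
  have h1 : IsUnit (u : ℤ[X]) := u.isUnit
  rw [Polynomial.isUnit_iff] at h1
  obtain ⟨r, hr, hru⟩ := h1
  rw [← hu, ← hru, map_mul, aeval_C, norm_mul]
  rcases Int.isUnit_iff.1 hr with h2 | h2
  · simp [h2]
  · simp [h2]

lemma GC_tt_le (h1 : S_LenM) {P : ℤ[X]} (hP : P ≠ 0) {x : ℝ} (hd : (P.natDegree : ℝ) ≤ x)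
    (hl : Real.log (len P) ≤ x) : tt P ≤ 2 * x := by
  obtain ⟨a, b, -⟩ := h1.1 P hP
  have h2 : Real.log (mm P) ≤ Real.log (len P) := Real.log_le_log (by linarith) b
  unfold tt
  linarith

lemma GC_tt_ge (h1 : S_LenM) {P : ℤ[X]} (hP : P ≠ 0) (hd : 1 ≤ P.natDegree) : 1 ≤ tt P := by
  obtain ⟨a, b, -⟩ := h1.1 P hP
  have h2 : 0 ≤ Real.log (mm P) := Real.log_nonneg a
  have h3 : (1 : ℝ) ≤ P.natDegree := by exact_mod_cast hd
  unfold tt
  linarith

theorem pr_GC (h1 : S_LenM) (h2 : S_Cop) (h3 : S_Fac) : S_GC := by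
  intro θ a C hθ hC hev
  obtain ⟨n0, hn0⟩ := Filter.eventually_atTop.1 hev
  obtain ⟨C1, hC1, hcop⟩ := h2 θ
  have hCC : 0 < 2 * C ^ 2 := by positivity
  -- the irreducible polynomials
  have key : ∀ n : ℕ, ∃ Q : ℤ[X], (max n0 1 ≤ n → Irreducible Q ∧ 1 ≤ Q.natDegree ∧
      tt Q ≤ 2 * (C * (n : ℝ) ^ a) ∧
      ‖aeval θ Q‖ ≤ Real.exp (-((n : ℝ) ^ (a + 1) / (2 * C ^ 2) * tt Q))) := by
    intro n
    by_cases hn : max n0 1 ≤ n
    · have hn1 : n0 ≤ n := le_trans (le_max_left _ _) hn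
      have hn2 : 1 ≤ n := le_trans (le_max_right _ _) hn
      have hn3 : (1 : ℝ) ≤ n := by exact_mod_cast hn2
      obtain ⟨P, hP0, hPd, hPl, hPv⟩ := hn0 n hn1
      have htt : tt P ≤ 2 * (C * (n : ℝ) ^ a) := GC_tt_le h1 hP0 hPd hPl
      have hne := GC_aeval_ne hθ hP0
      have hpos : 0 < (n : ℝ) ^ (2 * a + 1) / C := by positivity
      have hlt : ‖aeval θ P‖ < 1 := by
        refine lt_of_le_of_lt hPv ?_
        rw [Real.exp_lt_one_iff]
        linarith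
      have hk : 0 < (n : ℝ) ^ (a + 1) / (2 * C ^ 2) := by positivity
      have hle : (n : ℝ) ^ (a + 1) / (2 * C ^ 2) * tt P ≤ (n : ℝ) ^ (2 * a + 1) / C := by
        calc (n : ℝ) ^ (a + 1) / (2 * C ^ 2) * tt P
            ≤ (n : ℝ) ^ (a + 1) / (2 * C ^ 2) * (2 * (C * (n : ℝ) ^ a)) :=
              mul_le_mul_of_nonneg_left htt hk.le
          _ = (n : ℝ) ^ (2 * a + 1) / C := by
              rw [show 2 * a + 1 = (a + 1) + a by ring, pow_add (n : ℝ) (a + 1) a]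
              field_simp
      obtain ⟨Q, hQi, hQd, hQt, hQv⟩ := h3 θ _ P hk hP0 hne hlt
        (le_trans hPv (Real.exp_le_exp.2 (by linarith)))
      exact ⟨Q, fun _ => ⟨hQi, hQd, le_trans hQt htt, hQv⟩⟩
    · exact ⟨0, fun h => absurd h hn⟩
  choose Q hQ using key
  -- consecutive ones are associated
  obtain ⟨N2, hN2⟩ := exists_nat_gt (4 * C ^ 3 * C1 * 2 ^ a)
  set N := max (max n0 1) N2 with hN
  have hassoc : ∀ n, N ≤ n → Associated (Q n) (Q (n + 1)) := by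
    intro n hn
    have hn1 : max n0 1 ≤ n := le_trans (le_max_left _ _) hn
    have hn2 : N2 ≤ n := le_trans (le_max_right _ _) hn
    have hn3 : (1 : ℝ) ≤ n := by exact_mod_cast le_trans (le_max_right n0 1) hn1
    obtain ⟨i1, d1, t1, v1⟩ := hQ n hn1
    obtain ⟨i2, d2, t2, v2⟩ := hQ (n + 1) (by omega)
    by_contra hna
    have hc := hcop (Q n) (Q (n + 1)) i1 i2 d1 d2 hna
    have g1 := GC_tt_ge h1 i1.ne_zero d1
    have g2 := GC_tt_ge h1 i2.ne_zero d2
    set t := tt (Q n) with ht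
    set t' := tt (Q (n + 1)) with ht'
    set κ := (n : ℝ) ^ (a + 1) / (2 * C ^ 2) with hκ
    have hκ0 : 0 < κ := by positivity
    have hκ' : κ ≤ ((n + 1 : ℕ) : ℝ) ^ (a + 1) / (2 * C ^ 2) := by
      rw [hκ]
      apply div_le_div_of_nonneg_right _ hCC.le
      apply pow_le_pow_left₀ (by linarith)
      push_cast; linarith
    have hmax : max ‖aeval θ (Q n)‖ ‖aeval θ (Q (n + 1))‖ ≤ Real.exp (-(κ * min t t')) := by
      apply max_le
      · refine le_trans v1 (Real.exp_le_exp.2 ?_)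
        have : κ * min t t' ≤ κ * t := mul_le_mul_of_nonneg_left (min_le_left _ _) hκ0.le
        linarith
      · refine le_trans v2 (Real.exp_le_exp.2 ?_)
        have e1 : κ * min t t' ≤ κ * t' := mul_le_mul_of_nonneg_left (min_le_right _ _) hκ0.le
        have e2 : κ * t' ≤ ((n + 1 : ℕ) : ℝ) ^ (a + 1) / (2 * C ^ 2) * t' :=
          mul_le_mul_of_nonneg_right hκ' (by linarith)
        linarith
    have hle : 1 ≤ Real.exp (-(κ * min t t')) * Real.exp (C1 * (t * t')) :=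
      le_trans hc (mul_le_mul_of_nonneg_right hmax (Real.exp_pos _).le)
    rw [← Real.exp_add] at hle
    have hle2 : 0 ≤ -(κ * min t t') + C1 * (t * t') := by
      by_contra hneg
      push Not at hneg
      have := Real.exp_lt_one_iff.2 hneg
      linarith
    have hmm : t * t' = min t t' * max t t' := (min_mul_max t t').symm
    have hm1 : 1 ≤ min t t' := le_min g1 g2
    have hle3 : κ ≤ C1 * max t t' := by
      rw [hmm] at hle2
      have : κ * min t t' ≤ (C1 * max t t') * min t t' := by nlinarith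
      exact le_of_mul_le_mul_right this (by linarith)
    have hM : max t t' ≤ 2 * (C * (((n : ℝ) + 1) ^ a)) := by
      apply max_le
      · refine le_trans t1 ?_
        have : (n : ℝ) ^ a ≤ ((n : ℝ) + 1) ^ a := pow_le_pow_left₀ (by linarith) (by linarith) a
        have := mul_le_mul_of_nonneg_left this hC.le
        linarith
      · have := t2
        push_cast at this
        exact this
    have hM2 : ((n : ℝ) + 1) ^ a ≤ 2 ^ a * (n : ℝ) ^ a := by
      rw [← mul_pow]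
      exact pow_le_pow_left₀ (by linarith) (by linarith) a
    have hfin : κ ≤ C1 * (2 * (C * (2 ^ a * (n : ℝ) ^ a))) := by
      refine le_trans hle3 (mul_le_mul_of_nonneg_left (le_trans hM ?_) hC1.le)
      have := mul_le_mul_of_nonneg_left hM2 hC.le
      linarith
    have hna : 0 < (n : ℝ) ^ a := by positivity
    have h5 : (n : ℝ) * (n : ℝ) ^ a ≤ (4 * C ^ 3 * C1 * 2 ^ a) * (n : ℝ) ^ a := by
      have : (n : ℝ) ^ (a + 1) ≤ C1 * (2 * (C * (2 ^ a * (n : ℝ) ^ a))) * (2 * C ^ 2) := by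
        rw [hκ, div_le_iff₀ hCC] at hfin
        exact hfin
      calc (n : ℝ) * (n : ℝ) ^ a = (n : ℝ) ^ (a + 1) := by ring
        _ ≤ _ := this
        _ = _ := by ring
    have h6 : (n : ℝ) ≤ 4 * C ^ 3 * C1 * 2 ^ a := le_of_mul_le_mul_right h5 hna
    have h7 : (N2 : ℝ) ≤ n := by exact_mod_cast hn2
    linarith
  have hassoc2 : ∀ k, Associated (Q N) (Q (N + k)) := by
    intro k
    induction k with
    | zero => exact Associated.refl _
    | succ k ih => exact ih.trans (hassoc (N + k) (by omega))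
  -- the value tends to zero
  have hN1 : max n0 1 ≤ N := le_max_left _ _
  obtain ⟨i0, d0, -, -⟩ := hQ N hN1
  have hval : ∀ k : ℕ, ‖aeval θ (Q N)‖ ≤ Real.exp (-((k : ℝ) / (2 * C ^ 2))) := by
    intro k
    rw [GC_norm_assoc θ (hassoc2 k)]
    obtain ⟨i1, d1, t1, v1⟩ := hQ (N + k) (by omega)
    refine le_trans v1 (Real.exp_le_exp.2 ?_)
    have g1 := GC_tt_ge h1 i1.ne_zero d1
    have hn1 : 1 ≤ N + k := le_trans (le_trans (le_max_right n0 1) hN1) (by omega)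
    have hk1 : (1 : ℝ) ≤ ((N + k : ℕ) : ℝ) := by exact_mod_cast hn1
    have hk2 : (k : ℝ) ≤ ((N + k : ℕ) : ℝ) ^ (a + 1) := by
      calc (k : ℝ) ≤ ((N + k : ℕ) : ℝ) := by push_cast; linarith [Nat.cast_nonneg (α := ℝ) N]
        _ = ((N + k : ℕ) : ℝ) ^ 1 := (pow_one _).symm
        _ ≤ ((N + k : ℕ) : ℝ) ^ (a + 1) := pow_le_pow_right₀ hk1 (by omega)
    have hk3 : (k : ℝ) / (2 * C ^ 2) ≤ ((N + k : ℕ) : ℝ) ^ (a + 1) / (2 * C ^ 2) :=
      div_le_div_of_nonneg_right hk2 hCC.le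
    have hk4 : 0 ≤ ((N + k : ℕ) : ℝ) ^ (a + 1) / (2 * C ^ 2) := by positivity
    nlinarith
  have hzero : aeval θ (Q N) = 0 := by
    rw [← norm_eq_zero]
    apply le_antisymm _ (norm_nonneg _)
    have hlim : Filter.Tendsto (fun k : ℕ => Real.exp (-((k : ℝ) / (2 * C ^ 2))))
        Filter.atTop (nhds 0) := by
      apply Real.tendsto_exp_neg_atTop_nhds_zero.comp
      exact tendsto_natCast_atTop_atTop.atTop_div_const hCC
    exact ge_of_tendsto' hlim hval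
  exact GC_aeval_ne hθ i0.ne_zero hzero

end Pool.Agent.Work.MP_327059_nt.AA

end

section

set_option autoImplicit false

namespace Pool.Agent.Work.MP_327059_nt.AA

open Polynomial

theorem pr_GS (h1 : S_FunG) (h2 : S_Liou) : S_GS := by
  intro β l hβ hβq hl hel hc
  obtain ⟨C1, hC1, hF⟩ := h1 β l hβq hl
  have halg : ∀ i, IsAlgebraic ℚ (gv β l i) := by
    intro i
    fin_cases i
    · exact hβ
    · exact hel
    · exact hc
  obtain ⟨C2, hC2, hL⟩ := h2 3 (gv β l) halg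
  -- eventually n is large
  have hlarge : ∀ᶠ n : ℕ in Filter.atTop, (C1 * C2 * (2 * C1 + 1) : ℝ) + 1 ≤ (n : ℝ) := by
    exact (tendsto_natCast_atTop_atTop (R := ℝ)).eventually_ge_atTop _
  obtain ⟨n, ⟨D, H, ξ, hH, hval, hne, hD, hlogH, hsmall⟩, hn⟩ := (hF.and hlarge).exists
  have hL1 := hL D H ξ hH hval hne
  have hn1 : (1 : ℝ) ≤ n := by
    have : (0 : ℝ) ≤ C1 * C2 * (2 * C1 + 1) := by positivity
    linarith
  have hn14 : (1 : ℝ) ≤ (n : ℝ) ^ 14 := one_le_pow₀ hn1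
  have hexp : ‖ξ‖ * Real.exp (C2 * (D + 1 + Real.log H)) ≤
      Real.exp (-((n : ℝ) ^ 15 / C1) + C2 * ((2 * C1 + 1) * (n : ℝ) ^ 14)) := by
    rw [Real.exp_add]
    apply mul_le_mul hsmall _ (Real.exp_pos _).le (Real.exp_pos _).le
    apply Real.exp_le_exp.mpr
    apply mul_le_mul_of_nonneg_left _ (by linarith)
    nlinarith
  have hneg : -((n : ℝ) ^ 15 / C1) + C2 * ((2 * C1 + 1) * (n : ℝ) ^ 14) < 0 := by
    have hC1p : (0 : ℝ) < C1 := by linarith
    have h3 : C2 * ((2 * C1 + 1) * (n : ℝ) ^ 14) < (n : ℝ) ^ 15 / C1 := by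
      rw [lt_div_iff₀ hC1p]
      have h4 : C2 * ((2 * C1 + 1) * (n : ℝ) ^ 14) * C1 =
          (C1 * C2 * (2 * C1 + 1)) * (n : ℝ) ^ 14 := by ring
      rw [h4]
      have h5 : (n : ℝ) ^ 15 = n * (n : ℝ) ^ 14 := by ring
      rw [h5]
      apply mul_lt_mul_of_pos_right _ (by linarith)
      linarith
    linarith
  have h6 : Real.exp (-((n : ℝ) ^ 15 / C1) + C2 * ((2 * C1 + 1) * (n : ℝ) ^ 14)) < 1 := by
    rw [Real.exp_lt_one_iff]
    exact hneg
  linarith

end Pool.Agent.Work.MP_327059_nt.AA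

end

section

/-!
# Item `LenM`: lengths and Mahler measures
-/

set_option autoImplicit false

namespace Pool.Agent.Work.MP_327059_nt.AA

open Polynomial

theorem LenM_map_inj : Function.Injective (Int.castRingHom ℂ) := Int.cast_injective

theorem LenM_sum (P : ℤ[X]) :
    ((P.map (Int.castRingHom ℂ)).sum fun _ a => ‖a‖) = len P := by
  unfold len
  rw [Polynomial.sum_def, Polynomial.support_map_of_injective P LenM_map_inj]
  refine Finset.sum_congr rfl fun i _ => ?_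
  rw [Polynomial.coeff_map, eq_intCast, Complex.norm_intCast]

theorem LenM_one (P : ℤ[X]) (hP : P ≠ 0) : 1 ≤ mm P := by
  unfold mm
  refine le_trans ?_ (Polynomial.leadingCoeff_le_mahlerMeasure _)
  rw [Polynomial.leadingCoeff_map_of_injective LenM_map_inj, eq_intCast, Complex.norm_intCast]
  have h : P.leadingCoeff ≠ 0 := Polynomial.leadingCoeff_ne_zero.2 hP
  have h1 : 1 ≤ |P.leadingCoeff| := Int.one_le_abs h
  exact_mod_cast h1

theorem LenM_len (P : ℤ[X]) : mm P ≤ len P := by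
  rw [← LenM_sum]
  exact Polynomial.mahlerMeasure_le_sum_norm_coeff _

theorem LenM_up (P : ℤ[X]) : len P ≤ 2 ^ P.natDegree * mm P := by
  have hdeg : (P.map (Int.castRingHom ℂ)).natDegree = P.natDegree :=
    Polynomial.natDegree_map_eq_of_injective LenM_map_inj P
  have h1 : len P ≤ ∑ i ∈ Finset.range (P.natDegree + 1), |(P.coeff i : ℝ)| := by
    unfold len
    apply Finset.sum_le_sum_of_subset_of_nonneg
    · exact Polynomial.supp_subset_range_natDegree_succ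
    · intro i _ _
      exact abs_nonneg _
  have h2 : ∀ i, |(P.coeff i : ℝ)| ≤ (P.natDegree.choose i : ℝ) * mm P := by
    intro i
    have := Polynomial.norm_coeff_le_choose_mul_mahlerMeasure i (P.map (Int.castRingHom ℂ))
    rw [Polynomial.coeff_map, eq_intCast, Complex.norm_intCast, hdeg] at this
    exact this
  refine le_trans h1 (le_trans (Finset.sum_le_sum fun i _ => h2 i) ?_)
  rw [← Finset.sum_mul]
  have h3 : (∑ i ∈ Finset.range (P.natDegree + 1), (P.natDegree.choose i : ℝ)) =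
      2 ^ P.natDegree := by
    have := Nat.sum_range_choose P.natDegree
    exact_mod_cast this
  rw [h3]

theorem LenM_mul (P Q : ℤ[X]) (hP : P ≠ 0) (hQ : Q ≠ 0) : tt (P * Q) = tt P + tt Q := by
  unfold tt
  have h1 : mm (P * Q) = mm P * mm Q := by
    unfold mm
    rw [Polynomial.map_mul, Polynomial.mahlerMeasure_mul]
  rw [h1, Polynomial.natDegree_mul hP hQ, Real.log_mul, Nat.cast_add]
  · ring
  · linarith [LenM_one P hP]
  · linarith [LenM_one Q hQ]

theorem pr_LenM : S_LenM :=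
  ⟨fun P hP => ⟨LenM_one P hP, LenM_len P, LenM_up P⟩, LenM_mul, fun P hP => by
    unfold tt
    have := Real.log_nonneg (LenM_one P hP)
    positivity⟩

end Pool.Agent.Work.MP_327059_nt.AA

end

section

set_option autoImplicit false

namespace Pool.Agent.Work.MP_327059_nt.AA

/-- boxes -/
theorem PL_box (B : ℝ) (hB : 0 ≤ B) (M : ℕ) (hM : 0 < M) : ∃ g : ℝ → Fin M,
    ∀ x x' : ℝ, |x| ≤ B → |x'| ≤ B → g x = g x' → |x - x'| ≤ 2 * B / M := by
  rcases hB.eq_or_lt with h0 | h0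
  · refine ⟨fun _ => ⟨0, hM⟩, fun x x' hx hx' _ => ?_⟩
    rw [← h0] at hx hx' ⊢
    have h1 : x = 0 := abs_eq_zero.1 (le_antisymm hx (abs_nonneg _))
    have h2 : x' = 0 := abs_eq_zero.1 (le_antisymm hx' (abs_nonneg _))
    rw [h1, h2]
    simp
  · have hMr : (0 : ℝ) < M := by exact_mod_cast hM
    refine ⟨fun x => ⟨min ⌊(x + B) * M / (2 * B)⌋₊ (M - 1), by omega⟩, fun x x' hx hx' h => ?_⟩
    rw [Fin.mk.injEq] at h
    rw [abs_le] at hx hx'
    set u := (x + B) * M / (2 * B) with hu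
    set u' := (x' + B) * M / (2 * B) with hu'
    have hu0 : 0 ≤ u := div_nonneg (mul_nonneg (by linarith [hx.1]) hMr.le) (by linarith)
    have hu0' : 0 ≤ u' := div_nonneg (mul_nonneg (by linarith [hx'.1]) hMr.le) (by linarith)
    have hu1 : u ≤ M := by
      rw [hu, div_le_iff₀ (by linarith)]
      nlinarith [hx.2]
    have hu1' : u' ≤ M := by
      rw [hu', div_le_iff₀ (by linarith)]
      nlinarith [hx'.2]
    have e1 : ((M - 1 : ℕ) : ℝ) = M - 1 := by
      rw [Nat.cast_sub hM, Nat.cast_one]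
    have hd : |u - u'| ≤ 1 := by
      rcases Nat.lt_or_ge ⌊u⌋₊ (M - 1) with h1 | h1
      · have h2 : ⌊u'⌋₊ = ⌊u⌋₊ := by omega
        have h3 := Nat.floor_le hu0
        have h4 := Nat.lt_floor_add_one u
        have h5 := Nat.floor_le hu0'
        have h6 := Nat.lt_floor_add_one u'
        rw [h2] at h5 h6
        rw [abs_le]
        constructor <;> linarith
      · have h2 : M - 1 ≤ ⌊u'⌋₊ := by omega
        have h3 : ((M - 1 : ℕ) : ℝ) ≤ u := le_trans (by exact_mod_cast h1) (Nat.floor_le hu0)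
        have h4 : ((M - 1 : ℕ) : ℝ) ≤ u' := le_trans (by exact_mod_cast h2) (Nat.floor_le hu0')
        rw [e1] at h3 h4
        rw [abs_le]
        constructor <;> linarith
    have e2 : x - x' = (u - u') * (2 * B / M) := by
      rw [hu, hu']
      field_simp
      ring
    rw [e2, abs_mul, abs_of_nonneg (div_nonneg (by linarith) hMr.le : 0 ≤ 2 * B / (M : ℝ))]
    exact mul_le_of_le_one_left (div_nonneg (by linarith) hMr.le) hd

/-- the sum of the bounds -/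
theorem PL_sum (B : ℝ) (K : ℕ) : HasSum (fun k : ℕ => if k < K then 4 * B / 2 ^ K else B / 2 ^ k)
    ((4 * K + 2) * B / 2 ^ K) := by
  have h1 : HasSum (fun n : ℕ => if n + K < K then 4 * B / 2 ^ K else B / 2 ^ (n + K))
      (B / 2 ^ K * 2) := by
    have h2 := hasSum_geometric_two.mul_left (B / 2 ^ K)
    refine h2.congr_fun fun n => ?_
    rw [if_neg (by omega), pow_add, one_div, inv_pow]
    field_simp
  have h3 := (hasSum_nat_add_iff (f := fun k : ℕ => if k < K then 4 * B / 2 ^ K else B / 2 ^ k)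
    K).1 h1
  have e : (4 * K + 2) * B / 2 ^ K = B / 2 ^ K * 2 +
      ∑ i ∈ Finset.range K, (if i < K then 4 * B / 2 ^ K else B / 2 ^ i) := by
    rw [Finset.sum_congr rfl (fun k hk => if_pos (Finset.mem_range.1 hk)), Finset.sum_const,
      Finset.card_range, nsmul_eq_mul]
    ring
  rw [e]
  exact h3

theorem pr_PL : S_PL := by
  intro ι _ f r A h K hr hA hK hf hfb hc
  classical
  set N := Fintype.card ι with hN
  have hK2 : 0 < 2 * K ^ 2 := by positivity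
  have hN0 : N ≠ 0 := by
    intro h0
    rw [h0, mul_zero] at hc
    omega
  set B : ℝ := N * 2 ^ h * A with hB
  have hB0 : 0 ≤ B := by positivity
  set a : ι → ℕ → ℂ := fun i k => ((k.factorial : ℂ)⁻¹ * iteratedDeriv k (f i) 0) * (r : ℂ) ^ k
    with ha
  have hab : ∀ i k, ‖a i k‖ ≤ A / 2 ^ k := by
    intro i k
    have h1 : ‖iteratedDeriv k (f i) 0‖ ≤ k.factorial * A / (2 * r) ^ k := by
      refine Complex.norm_iteratedDeriv_le_of_forall_mem_sphere_norm_le k (by linarith)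
        (hf i).diffContOnCl fun z hz => hfb i z ?_
      rw [mem_sphere_zero_iff_norm] at hz
      exact hz.le
    have hk : (0 : ℝ) < k.factorial := by exact_mod_cast k.factorial_pos
    rw [ha]
    simp only [norm_mul, norm_inv, norm_pow, Complex.norm_natCast, Complex.norm_real,
      Real.norm_eq_abs, abs_of_pos hr]
    calc (k.factorial : ℝ)⁻¹ * ‖iteratedDeriv k (f i) 0‖ * r ^ k
        ≤ (k.factorial : ℝ)⁻¹ * (k.factorial * A / (2 * r) ^ k) * r ^ k := by gcongr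
      _ = A / 2 ^ k := by
        rw [mul_pow]
        field_simp
  have hab' : ∀ i k, ‖a i k‖ ≤ A := by
    intro i k
    refine (hab i k).trans ?_
    exact div_le_self hA (one_le_pow₀ (by norm_num))
  obtain ⟨g, hg⟩ := PL_box B hB0 (2 ^ K) (by positivity)
  set S : (ι → Fin (2 ^ h + 1)) → ℕ → ℂ := fun p k => ∑ i, ((p i : ℕ) : ℂ) * a i k with hS
  have hSb : ∀ p k, ‖S p k‖ ≤ B := by
    intro p k
    refine (norm_sum_le _ _).trans ?_
    have h1 : ∀ i ∈ (Finset.univ : Finset ι), ‖((p i : ℕ) : ℂ) * a i k‖ ≤ 2 ^ h * A := by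
      intro i _
      rw [norm_mul, Complex.norm_natCast]
      have h2 : ((p i : ℕ) : ℝ) ≤ 2 ^ h := by
        have := (p i).2
        exact_mod_cast Nat.lt_succ_iff.1 this
      exact mul_le_mul h2 (hab' i k) (norm_nonneg _) (by positivity)
    refine (Finset.sum_le_sum h1).trans ?_
    rw [Finset.sum_const, Finset.card_univ, nsmul_eq_mul, hB, ← mul_assoc]
  have hcard : Fintype.card (Fin K → Fin (2 ^ K) × Fin (2 ^ K)) <
      Fintype.card (ι → Fin (2 ^ h + 1)) := by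
    rw [Fintype.card_fun, Fintype.card_prod, Fintype.card_fin, Fintype.card_fin, Fintype.card_fun,
      Fintype.card_fin, ← hN]
    calc (2 ^ K * 2 ^ K) ^ K = 2 ^ (2 * K ^ 2) := by
          rw [← pow_add, ← pow_mul]
          congr 1
          ring
      _ ≤ 2 ^ (h * N) := Nat.pow_le_pow_right (by norm_num) hc
      _ = (2 ^ h) ^ N := by rw [pow_mul]
      _ < (2 ^ h + 1) ^ N := Nat.pow_lt_pow_left (Nat.lt_succ_self _) hN0
  obtain ⟨p, p', hne, heq⟩ := Fintype.exists_ne_map_eq_of_card_lt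
    (fun (p : ι → Fin (2 ^ h + 1)) (k : Fin K) => (g (S p k).re, g (S p k).im)) hcard
  refine ⟨fun i => ((p i : ℕ) : ℤ) - ((p' i : ℕ) : ℤ), ?_, ?_, ?_⟩
  · intro h0
    apply hne
    funext i
    have h1 := congrFun h0 i
    simp only [Pi.zero_apply] at h1
    exact Fin.ext (by omega)
  · intro i
    have h1 := (p i).2
    have h2 := (p' i).2
    have h3 : ((2 : ℤ) ^ h) = ((2 ^ h : ℕ) : ℤ) := by push_cast; rfl
    show |((p i : ℕ) : ℤ) - ((p' i : ℕ) : ℤ)| ≤ _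
    rw [h3, abs_le]
    constructor <;> omega
  · intro z hz
    set q : ι → ℤ := fun i => ((p i : ℕ) : ℤ) - ((p' i : ℕ) : ℤ) with hq
    have hqS : ∀ k, ∑ i, (q i : ℂ) * a i k = S p k - S p' k := by
      intro k
      rw [hS, hq]
      simp only
      rw [← Finset.sum_sub_distrib]
      refine Finset.sum_congr rfl fun i _ => ?_
      push_cast
      ring
    have hsum : HasSum (fun k : ℕ => (z / r) ^ k * ∑ i, (q i : ℂ) * a i k)
        (∑ i, (q i : ℂ) * f i z) := by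
      have h1 : ∀ i ∈ (Finset.univ : Finset ι), HasSum (fun k : ℕ => (q i : ℂ) *
          ((k.factorial : ℂ)⁻¹ • (z - 0) ^ k • iteratedDeriv k (f i) 0)) ((q i : ℂ) * f i z) :=
        fun i _ => (Complex.hasSum_taylorSeries_of_entire (hf i) 0 z).mul_left _
      refine (hasSum_sum h1).congr_fun fun k => ?_
      rw [Finset.mul_sum]
      refine Finset.sum_congr rfl fun i _ => ?_
      rw [ha, sub_zero, smul_eq_mul, smul_eq_mul, div_pow]
      have hrc : (r : ℂ) ≠ 0 := by exact_mod_cast hr.ne'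
      field_simp
    have hbd : ∀ k : ℕ, ‖(z / r) ^ k * ∑ i, (q i : ℂ) * a i k‖ ≤
        if k < K then 4 * B / 2 ^ K else B / 2 ^ k := by
      intro k
      have h1 : ‖(z / r) ^ k‖ ≤ 1 := by
        rw [norm_pow, norm_div, Complex.norm_real, Real.norm_eq_abs, abs_of_pos hr]
        exact pow_le_one₀ (by positivity) ((div_le_one hr).2 hz)
      rw [norm_mul]
      refine (mul_le_of_le_one_left (norm_nonneg _) h1).trans ?_
      split_ifs with hk
      · have h2 := congrFun heq ⟨k, hk⟩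
        simp only [Prod.mk.injEq] at h2
        have hre := hg _ _ ((Complex.abs_re_le_norm _).trans (hSb p k))
          ((Complex.abs_re_le_norm _).trans (hSb p' k)) h2.1
        have him := hg _ _ ((Complex.abs_im_le_norm _).trans (hSb p k))
          ((Complex.abs_im_le_norm _).trans (hSb p' k)) h2.2
        rw [hqS]
        refine (Complex.norm_le_abs_re_add_abs_im _).trans ?_
        rw [Complex.sub_re, Complex.sub_im]
        push_cast at hre him
        have e : 4 * B / 2 ^ K = 2 * B / 2 ^ K + 2 * B / 2 ^ K := by ring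
        rw [e]
        exact add_le_add hre him
      · refine (norm_sum_le _ _).trans ?_
        have h2 : ∀ i ∈ (Finset.univ : Finset ι), ‖(q i : ℂ) * a i k‖ ≤ 2 ^ h * (A / 2 ^ k) := by
          intro i _
          rw [norm_mul]
          have h3 : ‖(q i : ℂ)‖ ≤ 2 ^ h := by
            rw [Complex.norm_intCast]
            have h4 := (p i).2
            have h5 := (p' i).2
            have h6 : |q i| ≤ ((2 ^ h : ℕ) : ℤ) := by
              rw [hq, abs_le]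
              constructor <;> simp only <;> omega
            exact_mod_cast h6
          exact mul_le_mul h3 (hab i k) (norm_nonneg _) (by positivity)
        refine (Finset.sum_le_sum h2).trans ?_
        rw [Finset.sum_const, Finset.card_univ, nsmul_eq_mul, hB]
        apply le_of_eq
        ring
    exact hsum.norm_le_of_bounded (PL_sum B K) hbd

end Pool.Agent.Work.MP_327059_nt.AA

end

section

set_option autoImplicit false

namespace Pool.Agent.Work.MP_327059_nt.AA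

open Polynomial

open IntermediateField.algebraAdjoinAdjoin in
lemma Pair_alg (θ x : ℂ) :
    Transcendental (Algebra.adjoin ℚ {θ}) x ↔ ¬ Alg θ x := by
  unfold Alg Transcendental
  rw [IsFractionRing.isAlgebraic_iff (Algebra.adjoin ℚ {θ}) (IntermediateField.adjoin ℚ {θ}) ℂ]

theorem pr_Pair : S_Pair := by
  intro θ x hθ
  rw [AlgebraicIndependent.iff_transcendental_adjoin_image (1 : Fin 2)]
  have himg : (![θ, x] : Fin 2 → ℂ) '' ({1}ᶜ : Set (Fin 2)) = {θ} := by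
    ext y
    simp only [Set.mem_image, Set.mem_compl_iff, Set.mem_singleton_iff]
    constructor
    · rintro ⟨i, hi, rfl⟩
      fin_cases i
      · rfl
      · exact absurd rfl hi
    · rintro rfl
      exact ⟨0, by decide, rfl⟩
  have h1 : AlgebraicIndependent ℚ (fun j : {j : Fin 2 // j ≠ 1} => (![θ, x] : Fin 2 → ℂ) j) := by
    have : Subsingleton {j : Fin 2 // j ≠ 1} := by
      constructor
      rintro ⟨a, ha⟩ ⟨b, hb⟩
      apply Subtype.ext
      change a = b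
      omega
    rw [algebraicIndependent_singleton_iff (⟨0, by decide⟩ : {j : Fin 2 // j ≠ 1})]
    exact hθ
  rw [himg]
  rw [← Pair_alg θ x]
  constructor
  · intro h
    exact h.2
  · intro h
    exact ⟨h1, h⟩

end Pool.Agent.Work.MP_327059_nt.AA

end

section

set_option autoImplicit false

namespace Pool.Agent.Work.MP_327059_nt.AA

open Polynomial

theorem Rep_pow {r : ℕ} {x : Fin r → ℂ} {D : ℕ} {H : ℝ} {ξ : ℂ} (h : IsVal x D H ξ) (n : ℕ) :
    IsVal x (n * D) (H ^ n) (ξ ^ n) := by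
  induction n with
  | zero =>
    have h1 := IsVal.int (x := x) 1
    simp only [Int.cast_one, abs_one] at h1
    simpa using h1
  | succ n ih =>
    have h2 := IsVal.mul ih h
    rw [pow_succ, pow_succ]
    exact IsVal.mono (by rw [Nat.succ_mul]) le_rfl h2

theorem Rep_one {r : ℕ} {x : Fin r → ℂ} {D : ℕ} {ξ : ℂ} (h : IsVal x D 1 ξ) (n : ℕ) :
    IsVal x (n * D) 1 (ξ ^ n) := by
  have := Rep_pow h n
  rwa [one_pow] at this

theorem Rep_nat {r : ℕ} {x : Fin r → ℂ} {D : ℕ} {H : ℝ} {ξ : ℂ} (h : IsVal x D H ξ) (n : ℕ) :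
    IsVal x D (n * H) (n * ξ) := by
  have h1 := IsVal.mul (IsVal.int (x := x) (n : ℤ)) h
  simp only [Int.cast_natCast, Nat.abs_cast, Nat.zero_add] at h1
  exact h1

theorem Rep_deriv (w : ℂ) (k : ℕ) :
    deriv (fun z : ℂ => z ^ k * Complex.exp (w * z)) =
      (fun z : ℂ => (k : ℂ) * (z ^ (k - 1) * Complex.exp (w * z)) +
        w * (z ^ k * Complex.exp (w * z))) := by
  ext z
  have h1 : HasDerivAt (fun z : ℂ => z ^ k) ((k : ℂ) * z ^ (k - 1)) z := hasDerivAt_pow k z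
  have h2 : HasDerivAt (fun z : ℂ => Complex.exp (w * z)) (Complex.exp (w * z) * (w * 1)) z :=
    ((hasDerivAt_id z).const_mul w).cexp
  have h3 := (h1.mul h2).deriv
  have h4 : deriv (fun z : ℂ => z ^ k * Complex.exp (w * z)) z =
      (k : ℂ) * z ^ (k - 1) * Complex.exp (w * z) + z ^ k * (Complex.exp (w * z) * (w * 1)) := h3
  rw [h4]
  ring

theorem Rep_cd (w : ℂ) (k : ℕ) (n : ℕ) (z : ℂ) :
    ContDiffAt ℂ n (fun z : ℂ => z ^ k * Complex.exp (w * z)) z := by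
  apply ContDiffAt.mul
  · exact contDiffAt_id.pow k
  · exact (contDiffAt_const.mul contDiffAt_id).cexp

theorem Rep_succ (w : ℂ) (k τ : ℕ) (ζ : ℂ) :
    iteratedDeriv (τ + 1) (fun z : ℂ => z ^ k * Complex.exp (w * z)) ζ =
      (k : ℂ) * iteratedDeriv τ (fun z : ℂ => z ^ (k - 1) * Complex.exp (w * z)) ζ +
      w * iteratedDeriv τ (fun z : ℂ => z ^ k * Complex.exp (w * z)) ζ := by
  rw [iteratedDeriv_succ', Rep_deriv]
  rw [iteratedDeriv_fun_add, iteratedDeriv_const_mul, iteratedDeriv_const_mul]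
  · exact Rep_cd w k τ ζ
  · exact Rep_cd w (k - 1) τ ζ
  · exact contDiffAt_const.mul (Rep_cd w (k - 1) τ ζ)
  · exact contDiffAt_const.mul (Rep_cd w k τ ζ)

theorem pr_Rep : S_Rep := by
  intro θ γ y i k w₁ w₂ τ L S s hw₁ hw₂ hs hL hS
  set x := xv θ γ y with hx
  have hθ : IsVal x 1 1 θ := by simpa [hx, xv] using IsVal.var (x := x) 0
  have hγ : IsVal x 1 1 γ := by simpa [hx, xv] using IsVal.var (x := x) 1
  have hy : ∀ j, IsVal x 1 1 (y j) := by
    intro j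
    fin_cases j
    · simpa [hx, xv] using IsVal.var (x := x) 2
    · simpa [hx, xv] using IsVal.var (x := x) 3
    · simpa [hx, xv] using IsVal.var (x := x) 4
  have hey : ∀ j, IsVal x 1 1 (Complex.exp (y j)) := by
    intro j
    fin_cases j
    · simpa [hx, xv] using IsVal.var (x := x) 5
    · simpa [hx, xv] using IsVal.var (x := x) 6
    · simpa [hx, xv] using IsVal.var (x := x) 7
  have hgy : ∀ j, IsVal x 1 1 (Complex.exp (γ * y j)) := by
    intro j
    fin_cases j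
    · simpa [hx, xv] using IsVal.var (x := x) 8
    · simpa [hx, xv] using IsVal.var (x := x) 9
    · simpa [hx, xv] using IsVal.var (x := x) 10
  have hLr : (1 : ℝ) ≤ L := by exact_mod_cast hL
  have hSr : (1 : ℝ) ≤ S := by exact_mod_cast hS
  set ζ := ∑ j, (s j : ℂ) * y j with hζ
  set w := (w₁ : ℂ) + w₂ * γ with hw
  have hζv : IsVal x 1 (3 * S) ζ := by
    have h1 : ∀ j, IsVal x 1 (S : ℝ) ((s j : ℂ) * y j) := fun j =>
      IsVal.mono le_rfl (by rw [mul_one]; exact_mod_cast hs j) (Rep_nat (hy j) (s j))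
    have h2 := IsVal.add (IsVal.add (h1 0) (h1 1)) (h1 2)
    rw [hζ, Fin.sum_univ_three]
    exact IsVal.mono le_rfl (by linarith) h2
  have hwv : IsVal x 1 (2 * L) w := by
    have h1 : IsVal x 1 (L : ℝ) (w₁ : ℂ) := by
      have h0 := IsVal.int (x := x) (w₁ : ℤ)
      simp only [Int.cast_natCast, Nat.abs_cast] at h0
      exact IsVal.mono (by omega) (by exact_mod_cast hw₁) h0
    have h2 : IsVal x 1 (L : ℝ) (w₂ * γ) :=
      IsVal.mono le_rfl (by rw [mul_one]; exact_mod_cast hw₂) (Rep_nat hγ w₂)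
    exact IsVal.mono le_rfl (by linarith) (IsVal.add h1 h2)
  have hexp : IsVal x (6 * L * S) 1 (Complex.exp (w * ζ)) := by
    have h1 : ∀ j, IsVal x (2 * (L * S)) 1 (Complex.exp (w * ((s j : ℂ) * y j))) := by
      intro j
      have h2 : Complex.exp (w * ((s j : ℂ) * y j)) =
          Complex.exp (y j) ^ (w₁ * s j) * Complex.exp (γ * y j) ^ (w₂ * s j) := by
        rw [← Complex.exp_nat_mul, ← Complex.exp_nat_mul, ← Complex.exp_add]
        congr 1
        rw [hw]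
        push_cast
        ring
      rw [h2]
      have h3 : IsVal x (L * S) 1 (Complex.exp (y j) ^ (w₁ * s j)) :=
        IsVal.mono (by rw [mul_one]; exact Nat.mul_le_mul hw₁ (hs j)) le_rfl
          (Rep_one (hey j) (w₁ * s j))
      have h4 : IsVal x (L * S) 1 (Complex.exp (γ * y j) ^ (w₂ * s j)) :=
        IsVal.mono (by rw [mul_one]; exact Nat.mul_le_mul hw₂ (hs j)) le_rfl
          (Rep_one (hgy j) (w₂ * s j))
      exact IsVal.mono (by omega) (by norm_num) (IsVal.mul h3 h4)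
    have h5 : Complex.exp (w * ζ) = Complex.exp (w * ((s 0 : ℂ) * y 0)) *
        Complex.exp (w * ((s 1 : ℂ) * y 1)) * Complex.exp (w * ((s 2 : ℂ) * y 2)) := by
      rw [← Complex.exp_add, ← Complex.exp_add, hζ, Fin.sum_univ_three]
      congr 1
      ring
    rw [h5]
    refine IsVal.mono ?_ (by norm_num) (IsVal.mul (IsVal.mul (h1 0) (h1 1)) (h1 2))
    have : 6 * L * S = 6 * (L * S) := by ring
    omega
  have key : ∀ τ k : ℕ, IsVal x (k + τ + 6 * L * S) ((3 * S : ℝ) ^ k * (k + 2 * L : ℝ) ^ τ)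
      (iteratedDeriv τ (fun z : ℂ => z ^ k * Complex.exp (w * z)) ζ) := by
    intro τ
    induction τ with
    | zero =>
      intro k
      rw [iteratedDeriv_zero]
      refine IsVal.mono ?_ ?_ (IsVal.mul (Rep_pow hζv k) hexp)
      · omega
      · rw [pow_zero]
    | succ τ ih =>
      intro k
      rw [Rep_succ]
      have h2 : IsVal x (k + (τ + 1) + 6 * L * S)
          ((2 * L : ℝ) * ((3 * S : ℝ) ^ k * (k + 2 * L : ℝ) ^ τ))
          (w * iteratedDeriv τ (fun z : ℂ => z ^ k * Complex.exp (w * z)) ζ) :=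
        IsVal.mono (by omega) le_rfl (IsVal.mul hwv (ih k))
      have h1 : IsVal x (k + (τ + 1) + 6 * L * S)
          ((k : ℝ) * ((3 * S : ℝ) ^ k * (k + 2 * L : ℝ) ^ τ))
          ((k : ℂ) * iteratedDeriv τ (fun z : ℂ => z ^ (k - 1) * Complex.exp (w * z)) ζ) := by
        refine IsVal.mono ?_ ?_ (Rep_nat (ih (k - 1)) k)
        · omega
        · rcases Nat.eq_zero_or_pos k with hk | hk
          · subst hk
            simp
          · apply mul_le_mul_of_nonneg_left _ (Nat.cast_nonneg k)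
            apply mul_le_mul
            · apply pow_le_pow_right₀ (by linarith) (by omega)
            · apply pow_le_pow_left₀ (by positivity)
              have : ((k - 1 : ℕ) : ℝ) ≤ k := by exact_mod_cast Nat.sub_le k 1
              linarith
            · positivity
            · positivity
      refine IsVal.mono le_rfl ?_ (IsVal.add h1 h2)
      rw [pow_succ]
      apply le_of_eq
      ring
  have hfin := IsVal.mul (Rep_one hθ i) (key τ k)
  refine IsVal.mono ?_ ?_ hfin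
  · omega
  · rw [one_mul]

end Pool.Agent.Work.MP_327059_nt.AA

end

section

set_option autoImplicit false

namespace Pool.Agent.Work.MP_327059_nt.AA

open Polynomial

theorem RepG_pow {r : ℕ} (x : Fin r → ℂ) {D : ℕ} {H : ℝ} {ξ : ℂ} (h : IsVal x D H ξ) (n : ℕ) :
    IsVal x (n * D) (H ^ n) (ξ ^ n) := by
  induction n with
  | zero =>
    have h0 : IsVal x 0 |((1 : ℤ) : ℝ)| ((1 : ℤ) : ℂ) := IsVal.int 1
    refine IsVal.mono (by simp) (by simp) ?_ (H := 1) (D := 0)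
    simpa using h0
  | succ n ih =>
    have h1 := IsVal.mul ih h
    rw [pow_succ, pow_succ]
    refine IsVal.mono (le_of_eq ?_) le_rfl h1
    ring

theorem RepG_iter (w : ℂ) (τ : ℕ) (z : ℂ) :
    iteratedDeriv τ (fun z : ℂ => Complex.exp (w * z)) z = w ^ τ * Complex.exp (w * z) := by
  have h := iteratedDeriv_cexp_const_mul τ w
  rw [h]

theorem pr_RepG : S_RepG := by
  intro β l w₁ w₂ τ L S s h1 h2 hs hL
  rw [RepG_iter]
  have h1' : (w₁ : ℝ) ≤ L := by exact_mod_cast h1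
  have h2' : (w₂ : ℝ) ≤ L := by exact_mod_cast h2
  -- the coefficient
  have hw : IsVal (gv β l) 1 (2 * L : ℝ) (w₁ + w₂ * β) := by
    have ha : IsVal (gv β l) 1 (L : ℝ) (((w₁ : ℤ)) : ℂ) :=
      IsVal.mono (Nat.zero_le 1) (by simpa using h1') (IsVal.int (w₁ : ℤ))
    have hb : IsVal (gv β l) (0 + 1) (|((w₂ : ℤ) : ℝ)| * 1) (((w₂ : ℤ) : ℂ) * gv β l 0) :=
      IsVal.mul (IsVal.int (w₂ : ℤ)) (IsVal.var 0)
    have hc : IsVal (gv β l) 1 (L : ℝ) (((w₂ : ℤ) : ℂ) * β) := by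
      refine IsVal.mono (by simp) ?_ hb
      simpa using h2'
    have hd := IsVal.add ha hc
    refine IsVal.mono le_rfl (by linarith) ?_ (H := (L : ℝ) + L)
    simpa using hd
  have hwp := RepG_pow _ hw τ
  -- the exponentials
  have he1 := RepG_pow _ (IsVal.var (x := gv β l) 1) (w₁ * s)
  have he2 := RepG_pow _ (IsVal.var (x := gv β l) 2) (w₂ * s)
  have he := IsVal.mul he1 he2
  have hexp : gv β l 1 ^ (w₁ * s) * gv β l 2 ^ (w₂ * s) =
      Complex.exp ((w₁ + w₂ * β) * (s * l)) := by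
    simp only [gv, Matrix.cons_val_one, Matrix.cons_val]
    rw [← Complex.exp_nat_mul, ← Complex.exp_nat_mul, ← Complex.exp_add]
    congr 1
    push_cast
    ring
  rw [hexp] at he
  have hf := IsVal.mul hwp he
  refine IsVal.mono ?_ ?_ hf
  · have ha : w₁ * s ≤ L * S := Nat.mul_le_mul h1 hs
    have hb : w₂ * s ≤ L * S := Nat.mul_le_mul h2 hs
    nlinarith
  · simp

end Pool.Agent.Work.MP_327059_nt.AA

end

section

/-!
# Two polynomials without common factor are not both small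
-/

set_option autoImplicit false

namespace Pool.Agent.Work.MP_327059_nt.AA

open Polynomial

theorem Res_sum {M : Type} [AddCommMonoid M] (N j g : ℕ) (F : ℕ → M) (h : j + g < N) :
    (∑ i : Fin N, if (i : ℕ) ∈ Set.Icc j (j + g) then F i else 0) =
      ∑ t ∈ Finset.range (g + 1), F (j + t) := by
  rw [Finset.sum_range (fun i => F (j + i))] 
  rw [Fin.sum_univ_eq_sum_range (fun i => if i ∈ Set.Icc j (j + g) then F i else 0) N]
  rw [Fin.sum_univ_eq_sum_range (fun i => F (j + i)) (g + 1)]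
  have h1 : ∑ i ∈ Finset.range N, (if i ∈ Set.Icc j (j + g) then F i else 0) =
      ∑ i ∈ Finset.Ico j (j + g + 1), F i := by
    rw [← Finset.sum_filter]
    apply Finset.sum_congr _ fun _ _ => rfl
    ext i
    simp only [Finset.mem_filter, Finset.mem_range, Set.mem_Icc, Finset.mem_Ico]
    omega
  rw [h1, Finset.sum_Ico_eq_sum_range]
  have h2 : j + g + 1 - j = g + 1 := by omega
  rw [h2]

theorem Res_len (G : ℤ[X]) : len G = ∑ t ∈ Finset.range (G.natDegree + 1), |(G.coeff t : ℝ)| := by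
  unfold len
  apply Finset.sum_subset (supp_subset_range_natDegree_succ)
  intro i _ hi
  rw [notMem_support_iff.1 hi]
  simp

theorem Res_aeval (G : ℤ[X]) (θ : ℂ) :
    aeval θ G = ∑ t ∈ Finset.range (G.natDegree + 1), (G.coeff t : ℂ) * θ ^ t := by
  rw [aeval_eq_sum_range]
  refine Finset.sum_congr rfl fun t _ => ?_
  rw [zsmul_eq_mul]

theorem Res_one_le_len (G : ℤ[X]) (h : 1 ≤ G.natDegree) : 1 ≤ len G := by
  have hG : G ≠ 0 := by
    rintro rfl
    simp at h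
  unfold len
  have h1 : |((G.coeff G.natDegree : ℤ) : ℝ)| ≤ ∑ i ∈ G.support, |(G.coeff i : ℝ)| :=
    Finset.single_le_sum (f := fun i => |(G.coeff i : ℝ)|) (fun _ _ => abs_nonneg _)
      (natDegree_mem_support_of_nonzero hG)
  refine le_trans ?_ h1
  have h2 : G.coeff G.natDegree ≠ 0 := by
    rw [coeff_natDegree]
    exact leadingCoeff_ne_zero.2 hG
  have h3 := Int.one_le_abs h2
  exact_mod_cast h3

theorem pr_Res (h : S_Cramer) : S_Res := by
  intro θ P Q hP hQ hres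
  set m := P.natDegree with hm
  set n := Q.natDegree with hn
  let A : Matrix (Fin (m + n)) (Fin (m + n)) ℂ :=
    ((Int.castRingHom ℂ).mapMatrix (sylvester P Q m n)).transpose
  have hdet : A.det = ((P.resultant Q : ℤ) : ℂ) := by
    change (((Int.castRingHom ℂ).mapMatrix (sylvester P Q m n)).transpose).det = _
    rw [Matrix.det_transpose, ← RingHom.map_det]
    rfl
  have hA1 : ∀ (j : Fin m) (i : Fin (m + n)), A (Fin.castAdd n j) i =
      if (i : ℕ) ∈ Set.Icc (j : ℕ) (j + n) then ((Q.coeff (i - j) : ℤ) : ℂ) else 0 := by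
    intro j i
    change ((Int.castRingHom ℂ) (sylvester P Q m n i (Fin.castAdd n j))) = _
    rw [sylvester, Matrix.of_apply, Fin.addCases_left, apply_ite (Int.castRingHom ℂ)]
    simp
  have hA2 : ∀ (j : Fin n) (i : Fin (m + n)), A (Fin.natAdd m j) i =
      if (i : ℕ) ∈ Set.Icc (j : ℕ) (j + m) then ((P.coeff (i - j) : ℤ) : ℂ) else 0 := by
    intro j i
    change ((Int.castRingHom ℂ) (sylvester P Q m n i (Fin.natAdd m j))) = _
    rw [sylvester, Matrix.of_apply, Fin.addCases_right, apply_ite (Int.castRingHom ℂ)]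
    simp
  let v : Fin (m + n) → ℂ := fun i => θ ^ (i : ℕ)
  have hw1 : ∀ j : Fin m, A.mulVec v (Fin.castAdd n j) = θ ^ (j : ℕ) * aeval θ Q := by
    intro j
    have e : A.mulVec v (Fin.castAdd n j) = ∑ i : Fin (m + n),
        if (i : ℕ) ∈ Set.Icc (j : ℕ) (j + n) then
          ((Q.coeff ((i : ℕ) - j) : ℤ) : ℂ) * θ ^ (i : ℕ) else 0 := by
      change ∑ i, A (Fin.castAdd n j) i * v i = _
      refine Finset.sum_congr rfl fun i _ => ?_
      rw [hA1]
      split_ifs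
      · rfl
      · rw [zero_mul]
    rw [e, Res_sum (m + n) j n (fun i => ((Q.coeff (i - j) : ℤ) : ℂ) * θ ^ i) (by omega),
      Res_aeval, Finset.mul_sum]
    refine Finset.sum_congr rfl fun t _ => ?_
    rw [Nat.add_sub_cancel_left, pow_add]
    ring
  have hw2 : ∀ j : Fin n, A.mulVec v (Fin.natAdd m j) = θ ^ (j : ℕ) * aeval θ P := by
    intro j
    have e : A.mulVec v (Fin.natAdd m j) = ∑ i : Fin (m + n),
        if (i : ℕ) ∈ Set.Icc (j : ℕ) (j + m) then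
          ((P.coeff ((i : ℕ) - j) : ℤ) : ℂ) * θ ^ (i : ℕ) else 0 := by
      change ∑ i, A (Fin.natAdd m j) i * v i = _
      refine Finset.sum_congr rfl fun i _ => ?_
      rw [hA2]
      split_ifs
      · rfl
      · rw [zero_mul]
    rw [e, Res_sum (m + n) j m (fun i => ((P.coeff (i - j) : ℤ) : ℂ) * θ ^ i) (by omega),
      Res_aeval, Finset.mul_sum]
    refine Finset.sum_congr rfl fun t _ => ?_
    rw [Nat.add_sub_cancel_left, pow_add]
    ring
  let R : Fin (m + n) → ℝ := fun j => j.addCases (fun _ => len Q) (fun _ => len P)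
  have hR1 : ∀ j : Fin m, R (Fin.castAdd n j) = len Q := fun j => Fin.addCases_left _
  have hR2 : ∀ j : Fin n, R (Fin.natAdd m j) = len P := fun j => Fin.addCases_right _
  have hprod : ∏ k, R k = len Q ^ m * len P ^ n := by
    rw [Fin.prod_univ_add]
    simp only [hR1, hR2, Finset.prod_const, Finset.card_univ, Fintype.card_fin]
  have hsum : ∀ k, ∑ j, ‖A k j‖ ≤ R k := by
    intro k
    induction k using Fin.addCases with
    | left j =>
      rw [hR1]
      have e : ∑ i, ‖A (Fin.castAdd n j) i‖ = ∑ i : Fin (m + n),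
          if (i : ℕ) ∈ Set.Icc (j : ℕ) (j + n) then |((Q.coeff ((i : ℕ) - j) : ℤ) : ℝ)| else 0 := by
        refine Finset.sum_congr rfl fun i _ => ?_
        rw [hA1]
        split_ifs
        · rw [Complex.norm_intCast]
        · rw [norm_zero]
      rw [e, Res_sum (m + n) j n (fun i => |((Q.coeff (i - j) : ℤ) : ℝ)|) (by omega), Res_len]
      refine le_of_eq (Finset.sum_congr rfl fun t _ => ?_)
      rw [Nat.add_sub_cancel_left]
    | right j =>
      rw [hR2]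
      have e : ∑ i, ‖A (Fin.natAdd m j) i‖ = ∑ i : Fin (m + n),
          if (i : ℕ) ∈ Set.Icc (j : ℕ) (j + m) then |((P.coeff ((i : ℕ) - j) : ℤ) : ℝ)| else 0 := by
        refine Finset.sum_congr rfl fun i _ => ?_
        rw [hA2]
        split_ifs
        · rw [Complex.norm_intCast]
        · rw [norm_zero]
      rw [e, Res_sum (m + n) j m (fun i => |((P.coeff (i - j) : ℤ) : ℝ)|) (by omega), Res_len]
      refine le_of_eq (Finset.sum_congr rfl fun t _ => ?_)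
      rw [Nat.add_sub_cancel_left]
  have hone : ∀ k, 1 ≤ R k := by
    intro k
    induction k using Fin.addCases with
    | left j => rw [hR1]; exact Res_one_le_len Q hQ
    | right j => rw [hR2]; exact Res_one_le_len P hP
  have key := h (m + n) A v (A.mulVec v) R ⟨0, by omega⟩ rfl hsum hone
  have hv0 : v ⟨0, by omega⟩ = 1 := by
    change θ ^ 0 = 1
    rw [pow_zero]
  rw [hv0, norm_one, mul_one, hprod, hdet, Complex.norm_intCast] at key
  have hge : (1 : ℝ) ≤ |((P.resultant Q : ℤ) : ℝ)| := by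
    have := Int.one_le_abs hres
    exact_mod_cast this
  have hM : (1 : ℝ) ≤ max 1 ‖θ‖ := le_max_left _ _
  have hmx : (0 : ℝ) ≤ max ‖aeval θ P‖ ‖aeval θ Q‖ := le_trans (norm_nonneg _) (le_max_left _ _)
  have hpow : ∀ j : ℕ, j ≤ m + n → ‖θ‖ ^ j ≤ (max 1 ‖θ‖) ^ (m + n) := by
    intro j hj
    calc ‖θ‖ ^ j ≤ (max 1 ‖θ‖) ^ j := pow_le_pow_left₀ (norm_nonneg _) (le_max_right _ _) _
      _ ≤ (max 1 ‖θ‖) ^ (m + n) := pow_le_pow_right₀ hM hj
  have hwn : ∀ k, ‖A.mulVec v k‖ ≤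
      (max 1 ‖θ‖) ^ (m + n) * max ‖aeval θ P‖ ‖aeval θ Q‖ := by
    intro k
    induction k using Fin.addCases with
    | left j =>
      rw [hw1, norm_mul, norm_pow]
      exact mul_le_mul (hpow _ (by omega)) (le_max_right _ _) (norm_nonneg _) (by positivity)
    | right j =>
      rw [hw2, norm_mul, norm_pow]
      exact mul_le_mul (hpow _ (by omega)) (le_max_left _ _) (norm_nonneg _) (by positivity)
  have hws : ∑ k, ‖A.mulVec v k‖ ≤
      ((m + n : ℕ) : ℝ) * ((max 1 ‖θ‖) ^ (m + n) * max ‖aeval θ P‖ ‖aeval θ Q‖) := by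
    refine (Finset.sum_le_sum fun k _ => hwn k).trans ?_
    rw [Finset.sum_const, Finset.card_univ, Fintype.card_fin, nsmul_eq_mul]
  have hlP : 0 ≤ len P := le_trans zero_le_one (Res_one_le_len P hP)
  have hlQ : 0 ≤ len Q := le_trans zero_le_one (Res_one_le_len Q hQ)
  calc (1 : ℝ) ≤ |((P.resultant Q : ℤ) : ℝ)| := hge
    _ ≤ (∑ k, ‖A.mulVec v k‖) * (len Q ^ m * len P ^ n) := key
    _ ≤ (((m + n : ℕ) : ℝ) * ((max 1 ‖θ‖) ^ (m + n) * max ‖aeval θ P‖ ‖aeval θ Q‖)) *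
        (len Q ^ m * len P ^ n) := mul_le_mul_of_nonneg_right hws (by positivity)
    _ = _ := by ring

end Pool.Agent.Work.MP_327059_nt.AA

end

section

/-!
# Schwarz' lemma with several zeros
-/

set_option autoImplicit false

namespace Pool.Agent.Work.MP_327059_nt.AA

open Filter Topology

theorem Schw_one (F : ℂ → ℂ) (hF : Differentiable ℂ F) (a : ℂ) (T : ℕ)
    (h : (T : ℕ∞) ≤ analyticOrderAt F a) :
    ∃ G : ℂ → ℂ, Differentiable ℂ G ∧ ∀ z, F z = (z - a) ^ T * G z := by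
  induction T generalizing F with
  | zero => exact ⟨F, hF, fun z => by simp⟩
  | succ T ih =>
    have h0 : F a = 0 := by
      apply apply_eq_zero_of_analyticOrderAt_ne_zero (𝕜 := ℂ)
      intro h0
      rw [h0] at h
      simp at h
    have hd : Differentiable ℂ (dslope F a) := by
      rw [← differentiableOn_univ]
      exact (Complex.differentiableOn_dslope univ_mem).2 hF.differentiableOn
    have hFG : F = (fun z => z - a) * dslope F a := by
      funext z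
      have := sub_smul_dslope F a z
      simp only [smul_eq_mul, h0, sub_zero] at this
      simp [← this]
    have hord : (T : ℕ∞) ≤ analyticOrderAt (dslope F a) a := by
      have h1 : analyticOrderAt F a = 1 + analyticOrderAt (dslope F a) a := by
        conv_lhs => rw [hFG]
        rw [analyticOrderAt_mul (by fun_prop) (hd.analyticAt a)]
        simp
      rw [h1, Nat.cast_add, Nat.cast_one, add_comm] at h
      exact (ENat.add_le_add_iff_left (by simp)).1 h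
    obtain ⟨G, hG, hG'⟩ := ih (dslope F a) hd hord
    refine ⟨G, hG, fun z => ?_⟩
    have := congrFun hFG z
    simp only [Pi.mul_apply] at this
    rw [this, hG' z]
    ring

theorem Schw_fac (F : ℂ → ℂ) (hF : Differentiable ℂ F) (T : ℕ) (Z : Finset ℂ)
    (h : ∀ ζ ∈ Z, (T : ℕ∞) ≤ analyticOrderAt F ζ) :
    ∃ G : ℂ → ℂ, Differentiable ℂ G ∧ ∀ z, F z = (∏ ζ ∈ Z, (z - ζ) ^ T) * G z := by
  classical
  induction Z using Finset.induction_on with
  | empty => exact ⟨F, hF, fun z => by simp⟩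
  | insert a Z ha ih =>
    obtain ⟨G, hG, hG'⟩ := ih (fun ζ hζ => h ζ (Finset.mem_insert_of_mem hζ))
    have hFG : F = (fun z => ∏ ζ ∈ Z, (z - ζ) ^ T) * G := by
      funext z
      simp [hG' z]
    have hP : AnalyticAt ℂ (fun z : ℂ => ∏ ζ ∈ Z, (z - ζ) ^ T) a := by
      apply Differentiable.analyticAt
      fun_prop
    have hord : (T : ℕ∞) ≤ analyticOrderAt G a := by
      have h1 : analyticOrderAt F a = analyticOrderAt G a := by
        conv_lhs => rw [hFG]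
        rw [analyticOrderAt_mul hP (hG.analyticAt a)]
        have : analyticOrderAt (fun z : ℂ => ∏ ζ ∈ Z, (z - ζ) ^ T) a = 0 := by
          rw [hP.analyticOrderAt_eq_zero]
          rw [Finset.prod_ne_zero_iff]
          intro ζ hζ
          apply pow_ne_zero
          rw [sub_ne_zero]
          rintro rfl
          exact ha hζ
        rw [this, zero_add]
      rw [← h1]
      exact h a (Finset.mem_insert_self a Z)
    obtain ⟨H, hH, hH'⟩ := Schw_one G hG a T hord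
    refine ⟨H, hH, fun z => ?_⟩
    rw [hG' z, hH' z, Finset.prod_insert ha]
    ring

theorem pr_Schw : S_Schw := by
  intro F Z T r R M hF hr hR hZ h hM z hz
  have hord : ∀ ζ ∈ Z, (T : ℕ∞) ≤ analyticOrderAt F ζ := by
    intro ζ hζ
    rw [natCast_le_analyticOrderAt_iff_iteratedDeriv_eq_zero (hF.analyticAt ζ)]
    exact h ζ hζ
  obtain ⟨G, hG, hG'⟩ := Schw_fac F hF T Z hord
  have hRr : 0 < R - r := by linarith
  have hM0 : 0 ≤ M := le_trans (norm_nonneg _) (hM 0 (by simp; linarith))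
  -- bound of `G` on the circle
  have hfr : ∀ w ∈ frontier (Metric.ball (0 : ℂ) R), ‖G w‖ ≤ M / (R - r) ^ (T * Z.card) := by
    intro w hw
    rw [frontier_ball _ (by linarith : R ≠ 0)] at hw
    have hw' : ‖w‖ = R := by simpa using hw
    rw [le_div_iff₀ (pow_pos hRr _)]
    have h1 : (R - r) ^ (T * Z.card) ≤ ‖∏ ζ ∈ Z, (w - ζ) ^ T‖ := by
      rw [norm_prod, pow_mul, ← Finset.prod_const]
      apply Finset.prod_le_prod
      · intro ζ _
        positivity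
      · intro ζ hζ
        rw [norm_pow]
        apply pow_le_pow_left₀ hRr.le
        have := norm_sub_norm_le w ζ
        have := hZ ζ hζ
        linarith
    calc ‖G w‖ * (R - r) ^ (T * Z.card) ≤ ‖G w‖ * ‖∏ ζ ∈ Z, (w - ζ) ^ T‖ := by gcongr
      _ = ‖F w‖ := by rw [hG' w, norm_mul, mul_comm]
      _ ≤ M := hM w hw'.le
  have hGz : ‖G z‖ ≤ M / (R - r) ^ (T * Z.card) := by
    apply Complex.norm_le_of_forall_mem_frontier_norm_le Metric.isBounded_ball
      (hG.diffContOnCl) hfr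
    rw [closure_ball _ (by linarith : R ≠ 0)]
    simp
    linarith
  have hPz : ‖∏ ζ ∈ Z, (z - ζ) ^ T‖ ≤ (2 * r) ^ (T * Z.card) := by
    rw [norm_prod, pow_mul, ← Finset.prod_const]
    apply Finset.prod_le_prod
    · intro ζ _
      positivity
    · intro ζ hζ
      rw [norm_pow]
      apply pow_le_pow_left₀ (norm_nonneg _)
      have := norm_sub_le z ζ
      have := hZ ζ hζ
      linarith
  rw [hG' z, norm_mul, div_pow]
  calc ‖∏ ζ ∈ Z, (z - ζ) ^ T‖ * ‖G z‖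
      ≤ (2 * r) ^ (T * Z.card) * (M / (R - r) ^ (T * Z.card)) := by gcongr
    _ = M * ((2 * r) ^ (T * Z.card) / (R - r) ^ (T * Z.card)) := by ring

end Pool.Agent.Work.MP_327059_nt.AA

end

section

set_option autoImplicit false

namespace Pool.Agent.Work.MP_327059_nt.AA

open Polynomial

theorem pr_Sum : S_Sum := by
  intro r x ι s D H ξ hH hs
  classical
  induction s using Finset.induction_on with
  | empty =>
    have h0 : IsVal x 0 |((0 : ℤ) : ℝ)| ((0 : ℤ) : ℂ) := IsVal.int 0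
    have h1 := IsVal.mono (Nat.zero_le D) (le_of_eq (show |((0 : ℤ) : ℝ)| = ((∅ : Finset ι).card : ℝ) * H by simp)) h0
    simpa using h1
  | insert a s ha ih =>
    rw [Finset.sum_insert ha, Finset.card_insert_of_notMem ha]
    have h1 := ih (fun i hi => hs i (Finset.mem_insert_of_mem hi))
    have h2 := hs a (Finset.mem_insert_self a s)
    refine IsVal.mono le_rfl (le_of_eq ?_) (IsVal.add h2 h1)
    push_cast
    ring

end Pool.Agent.Work.MP_327059_nt.AA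

end

section

set_option autoImplicit false

namespace Pool.Agent.Work.MP_327059_nt.AA

open Polynomial

theorem T23_alg (θ γ : ℂ) (y : Fin 3 → ℂ) (hγ : Alg θ γ) (hy : ∀ j, Alg θ (y j))
    (he : ∀ j, Alg θ (Complex.exp (y j))) (hge : ∀ j, Alg θ (Complex.exp (γ * y j))) :
    ∀ i, Alg θ (xv θ γ y i) := by
  have hθ : Alg θ θ := by
    have hm : θ ∈ IntermediateField.adjoin ℚ {θ} :=
      IntermediateField.mem_adjoin_simple_self ℚ θ
    exact isAlgebraic_algebraMap (⟨θ, hm⟩ : IntermediateField.adjoin ℚ {θ})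
  intro i
  fin_cases i
  · exact hθ
  · exact hγ
  · exact hy 0
  · exact hy 1
  · exact hy 2
  · exact he 0
  · exact he 1
  · exact he 2
  · exact hge 0
  · exact hge 1
  · exact hge 2

theorem pr_T23 (h1 : S_Fun) (h2 : S_NL) (h3 : S_GC) : S_T23 := by
  intro θ γ y hθ hγ hy hAγ hAy hAe hAge
  obtain ⟨C1, hC1, hN⟩ := h2 11 θ (xv θ γ y) (T23_alg θ γ y hAγ hAy hAe hAge)
  obtain ⟨C2, hC2, hF⟩ := h1 θ γ y hθ hγ hy
  set C : ℝ := 2 * C1 * (2 * C2 + 1) with hC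
  have hCpos : 0 < C := by positivity
  refine h3 θ 24 C hθ hCpos ?_
  obtain ⟨N0, hN0⟩ := exists_nat_ge (2 * C2 * C1 * (2 * C2 + 1))
  filter_upwards [hF, Filter.eventually_ge_atTop (max N0 1)] with n hn hn0
  obtain ⟨D, H, ξ, hH, hv, hξ, hD, hlH, hsm⟩ := hn
  obtain ⟨P, hP0, hPd, hPl, hPs⟩ := hN D H ξ hH hv hξ
  have hn1 : (1 : ℝ) ≤ n := by
    have : 1 ≤ n := le_trans (le_max_right _ _) hn0
    exact_mod_cast this
  have hnN : 2 * C2 * C1 * (2 * C2 + 1) ≤ (n : ℝ) := by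
    refine le_trans hN0 ?_
    exact_mod_cast le_trans (le_max_left _ _) hn0
  have hp : (1 : ℝ) ≤ (n : ℝ) ^ 24 := one_le_pow₀ hn1
  have hp25 : (n : ℝ) ≤ (n : ℝ) ^ 25 := by
    calc (n : ℝ) = (n : ℝ) ^ 1 := (pow_one _).symm
      _ ≤ (n : ℝ) ^ 25 := pow_le_pow_right₀ hn1 (by norm_num)
  have hlH0 : 0 ≤ Real.log H := Real.log_nonneg hH
  have hq : C1 * (D + 1 + Real.log H) ≤ C1 * (2 * C2 + 1) * (n : ℝ) ^ 24 := by
    have : (D : ℝ) + 1 + Real.log H ≤ (2 * C2 + 1) * (n : ℝ) ^ 24 := by nlinarith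
    calc C1 * (D + 1 + Real.log H) ≤ C1 * ((2 * C2 + 1) * (n : ℝ) ^ 24) :=
          mul_le_mul_of_nonneg_left this (by linarith)
      _ = _ := by ring
  have hCle : C1 * (2 * C2 + 1) * (n : ℝ) ^ 24 ≤ C * (n : ℝ) ^ 24 := by
    apply mul_le_mul_of_nonneg_right _ (by linarith)
    rw [hC]
    have : 0 ≤ C1 * (2 * C2 + 1) := by positivity
    linarith
  refine ⟨P, ?_, ?_, ?_, ?_⟩
  · rintro rfl
    simp at hP0
  · refine le_trans hPd (le_trans ?_ (le_trans hq hCle))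
    exact mul_le_mul_of_nonneg_left (by linarith) (by linarith)
  · exact le_trans hPl (le_trans hq hCle)
  · refine le_trans hPs ?_
    calc ‖ξ‖ * Real.exp (C1 * (D + 1 + Real.log H))
        ≤ Real.exp (-((n : ℝ) ^ 49 / C2)) * Real.exp (C1 * (D + 1 + Real.log H)) :=
          mul_le_mul_of_nonneg_right hsm (Real.exp_pos _).le
      _ = Real.exp (-((n : ℝ) ^ 49 / C2) + C1 * (D + 1 + Real.log H)) := (Real.exp_add _ _).symm
      _ ≤ Real.exp (-((n : ℝ) ^ (2 * 24 + 1) / C)) := by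
        apply Real.exp_le_exp.mpr
        have hC2C : 2 * C2 ≤ C := by
          rw [hC]
          nlinarith
        have ha : (n : ℝ) ^ (2 * 24 + 1) / C ≤ (n : ℝ) ^ 49 / (2 * C2) := by
          norm_num
          exact div_le_div_of_nonneg_left (by positivity) (by positivity) hC2C
        have hb : C1 * (2 * C2 + 1) * (n : ℝ) ^ 24 ≤ (n : ℝ) ^ 49 / (2 * C2) := by
          rw [le_div_iff₀ (by positivity)]
          calc C1 * (2 * C2 + 1) * (n : ℝ) ^ 24 * (2 * C2)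
              = (2 * C2 * C1 * (2 * C2 + 1)) * (n : ℝ) ^ 24 := by ring
            _ ≤ (n : ℝ) ^ 25 * (n : ℝ) ^ 24 :=
              mul_le_mul_of_nonneg_right (hnN.trans hp25) (by linarith)
            _ = (n : ℝ) ^ 49 := by ring
        have hc : (n : ℝ) ^ 49 / C2 = (n : ℝ) ^ 49 / (2 * C2) + (n : ℝ) ^ 49 / (2 * C2) := by
          field_simp
          ring
        linarith

end Pool.Agent.Work.MP_327059_nt.AA

end
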