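import Mathlib
import Pool.Agent.Work.MP_327059_nt.AA.Stmts

/-! Bundle of small proof modules (one section per former module). -/

section

/-!
# Growth of exponential polynomials
-/

set_option autoImplicit false

namespace Pool.Agent.Work.MP_327059_nt.AA

open Polynomial Finset

/-- One step: `F ↦ F' - x F`. -/
noncomputable def Grow_step (F : ℂ → ℂ) (x : ℂ) : ℂ → ℂ := fun z => deriv F z - x * F z

lemma Grow_diff_deriv {F : ℂ → ℂ} (hF : Differentiable ℂ F) : Differentiable ℂ (deriv F) := by
  have h : AnalyticOnNhd ℂ F Set.univ := Complex.analyticOnNhd_univ_iff_differentiable.mpr hF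
  exact Complex.analyticOnNhd_univ_iff_differentiable.mp h.deriv

lemma Grow_diff_step {F : ℂ → ℂ} (hF : Differentiable ℂ F) (x : ℂ) :
    Differentiable ℂ (Grow_step F x) := by
  unfold Grow_step
  exact (Grow_diff_deriv hF).sub (hF.const_mul x)

lemma Grow_diff_fold {F : ℂ → ℂ} (hF : Differentiable ℂ F) (xs : List ℂ) :
    Differentiable ℂ (xs.foldl Grow_step F) := by
  induction xs generalizing F with
  | nil => simpa using hF
  | cons x xs ih => simpa using ih (Grow_diff_step hF x)

/-- Growth from the values at zero. -/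
lemma Grow_one (Ω : ℝ) (xs : List ℂ) (hx : ∀ x ∈ xs, ‖x‖ ≤ Ω) (F : ℂ → ℂ)
    (hF : Differentiable ℂ F) (h0 : ∀ z, xs.foldl Grow_step F z = 0) (z : ℂ) :
    ‖F z‖ ≤ Real.exp (Ω * ‖z‖) *
      ∑ k ∈ range xs.length, ‖(xs.take k).foldl Grow_step F 0‖ * ‖z‖ ^ k / (k.factorial : ℝ) := by
  induction xs generalizing F z with
  | nil => simpa using h0 z
  | cons x xs ih =>
    have hxx : ‖x‖ ≤ Ω := hx x (by simp)
    set G := Grow_step F x with hG
    have hGd : Differentiable ℂ G := Grow_diff_step hF x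
    have ihG := fun w => ih (fun y hy => hx y (by simp [hy])) G hGd (fun w => by simpa using h0 w) w
    set a : ℕ → ℝ := fun k => ‖(xs.take k).foldl Grow_step G 0‖ with ha
    -- the comparison function
    set f : ℝ → ℂ := fun t => Complex.exp (x * z * (1 - (t : ℂ))) * F ((t : ℂ) * z) with hf
    set f' : ℝ → ℂ := fun t => z * Complex.exp (x * z * (1 - (t : ℂ))) * G ((t : ℂ) * z) with hf'
    set B : ℝ → ℝ := fun t => Real.exp (Ω * ‖z‖) *
      (‖F 0‖ + ∑ k ∈ range xs.length, a k * ‖z‖ ^ (k + 1) * t ^ (k + 1) / ((k + 1).factorial : ℝ))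
      with hB
    set B' : ℝ → ℝ := fun t => Real.exp (Ω * ‖z‖) *
      (∑ k ∈ range xs.length, a k * ‖z‖ ^ (k + 1) * t ^ k / (k.factorial : ℝ)) with hB'
    have hfd : ∀ t : ℝ, HasDerivAt f (f' t) t := by
      intro t
      have h1 : HasDerivAt (fun w : ℂ => Complex.exp (x * z * (1 - w)) * F (w * z))
          (z * Complex.exp (x * z * (1 - (t : ℂ))) * G ((t : ℂ) * z)) (t : ℂ) := by
        have e1 : HasDerivAt (fun w : ℂ => x * z * (1 - w)) (x * z * (0 - 1)) (t : ℂ) :=
          ((hasDerivAt_const _ _).sub (hasDerivAt_id _)).const_mul _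
        have e2 := e1.cexp
        have e3 : HasDerivAt (fun w : ℂ => w * z) (1 * z) (t : ℂ) :=
          (hasDerivAt_id _).mul_const _
        have e4 : HasDerivAt (fun w : ℂ => F (w * z)) (deriv F ((t : ℂ) * z) * (1 * z)) (t : ℂ) :=
          HasDerivAt.comp (t : ℂ) (hF _).hasDerivAt e3
        refine (e2.mul e4).congr_deriv ?_
        simp only [hG, Grow_step]
        ring
      exact h1.comp_ofReal
    have hBd : ∀ t : ℝ, HasDerivAt B (B' t) t := by
      intro t
      simp only [hB, hB']
      refine HasDerivAt.const_mul _ ?_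
      refine HasDerivAt.const_add _ ?_
      refine HasDerivAt.fun_sum ?_
      intro k _
      have e1 : HasDerivAt (fun t : ℝ => t ^ (k + 1)) (((k + 1 : ℕ) : ℝ) * t ^ k) t := by
        simpa using hasDerivAt_pow (k + 1) t
      have e2 := (e1.const_mul (a k * ‖z‖ ^ (k + 1))).div_const ((k + 1).factorial : ℝ)
      refine e2.congr_deriv ?_
      have hk : ((k + 1).factorial : ℝ) = ((k + 1 : ℕ) : ℝ) * (k.factorial : ℝ) := by
        rw [Nat.factorial_succ]; push_cast; ring
      have hk1 : ((k + 1 : ℕ) : ℝ) ≠ 0 := by positivity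
      have hk2 : (k.factorial : ℝ) ≠ 0 := by positivity
      rw [hk]
      field_simp
    have hΩz : ‖x * z‖ ≤ Ω * ‖z‖ := by
      rw [norm_mul]; exact mul_le_mul_of_nonneg_right hxx (norm_nonneg _)
    have hexp : ∀ t : ℝ, t ≤ 1 → ‖Complex.exp (x * z * (1 - (t : ℂ)))‖
        ≤ Real.exp (Ω * ‖z‖ * (1 - t)) := by
      intro t ht
      refine (Complex.norm_exp_le_exp_norm _).trans ?_
      apply Real.exp_le_exp.mpr
      rw [norm_mul]
      have : ‖(1 : ℂ) - (t : ℂ)‖ = 1 - t := by
        rw [← Complex.ofReal_one, ← Complex.ofReal_sub, Complex.norm_real, Real.norm_eq_abs,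
          abs_of_nonneg (by linarith)]
      rw [this]
      exact mul_le_mul_of_nonneg_right hΩz (by linarith)
    have hcont : ContinuousOn f (Set.Icc 0 1) :=
      fun t _ => (hfd t).continuousAt.continuousWithinAt
    have hmain := image_norm_le_of_norm_deriv_right_le_deriv_boundary (a := 0) (b := 1) hcont
      (f' := f') (fun t _ => (hfd t).hasDerivWithinAt) (B := B) (B' := B') ?_ hBd ?_
    · have h1 := hmain (x := 1) (by simp)
      have h2 : f 1 = F z := by simp [hf]
      rw [h2] at h1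
      refine h1.trans (le_of_eq ?_)
      simp only [hB]
      congr 1
      rw [List.length_cons, Finset.sum_range_succ']
      simp only [List.take_succ_cons, List.foldl_cons, one_pow, mul_one, List.take_zero,
        List.foldl_nil, pow_zero, Nat.factorial_zero, Nat.cast_one, div_one, ha, hG]
      ring
    · -- at zero
      have h0 := hexp 0 (by norm_num)
      simp only [hf, hB]
      rw [norm_mul]
      simp only [Complex.ofReal_zero, zero_mul, sub_zero, mul_one] at h0 ⊢
      have : (∑ k ∈ range xs.length,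
          a k * ‖z‖ ^ (k + 1) * (0 : ℝ) ^ (k + 1) / ((k + 1).factorial : ℝ)) = 0 := by
        apply Finset.sum_eq_zero
        intro k _
        simp
      rw [this, add_zero]
      exact mul_le_mul_of_nonneg_right h0 (norm_nonneg _)
    · intro t ht
      have ht0 : 0 ≤ t := ht.1
      have ht1 : t ≤ 1 := ht.2.le
      simp only [hf', hB']
      rw [norm_mul, norm_mul]
      have h1 := hexp t ht1
      have h2 := ihG ((t : ℂ) * z)
      have h3 : ‖(t : ℂ) * z‖ = t * ‖z‖ := by
        rw [norm_mul, Complex.norm_real, Real.norm_eq_abs, abs_of_nonneg ht0]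
      rw [h3] at h2
      have h4 : ‖z‖ * ‖Complex.exp (x * z * (1 - (t : ℂ)))‖ * ‖G ((t : ℂ) * z)‖ ≤
          ‖z‖ * Real.exp (Ω * ‖z‖ * (1 - t)) * (Real.exp (Ω * (t * ‖z‖)) *
          ∑ k ∈ range xs.length, ‖(xs.take k).foldl Grow_step G 0‖ * (t * ‖z‖) ^ k /
            (k.factorial : ℝ)) := by
        refine mul_le_mul (mul_le_mul_of_nonneg_left h1 (norm_nonneg _)) h2 (norm_nonneg _) ?_
        positivity
      refine h4.trans (le_of_eq ?_)
      have h5 : Real.exp (Ω * ‖z‖) = Real.exp (Ω * ‖z‖ * (1 - t)) * Real.exp (Ω * (t * ‖z‖)) := by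
        rw [← Real.exp_add]; congr 1; ring
      rw [h5]
      have h6 : (∑ k ∈ range xs.length, a k * ‖z‖ ^ (k + 1) * t ^ k / (k.factorial : ℝ)) =
          ‖z‖ * ∑ k ∈ range xs.length, ‖(xs.take k).foldl Grow_step G 0‖ * (t * ‖z‖) ^ k /
            (k.factorial : ℝ) := by
        rw [Finset.mul_sum]
        refine Finset.sum_congr rfl (fun k _ => ?_)
        simp only [ha]
        rw [mul_pow]
        ring
      rw [h6]
      ring

/-- The operator on the bounds of the derivatives. -/
noncomputable def Grow_T (Ω : ℝ) (c : ℕ → ℝ) : ℕ → ℝ := fun m => c (m + 1) + Ω * c m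

lemma Grow_T_mono (Ω : ℝ) (hΩ : 0 ≤ Ω) {c c' : ℕ → ℝ} (h : ∀ m, c m ≤ c' m) (m : ℕ) :
    Grow_T Ω c m ≤ Grow_T Ω c' m := by
  unfold Grow_T
  exact add_le_add (h _) (mul_le_mul_of_nonneg_left (h _) hΩ)

lemma Grow_iter_deriv (Ω : ℝ) (hΩ : 0 ≤ Ω) (xs : List ℂ) (hx : ∀ x ∈ xs, ‖x‖ ≤ Ω) (F : ℂ → ℂ)
    (hF : Differentiable ℂ F) (c : ℕ → ℝ) (hc : ∀ m, ‖iteratedDeriv m F 0‖ ≤ c m) (m : ℕ) :
    ‖iteratedDeriv m (xs.foldl Grow_step F) 0‖ ≤ ((Grow_T Ω)^[xs.length] c) m := by
  induction xs generalizing F c m with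
  | nil => simpa using hc m
  | cons x xs ih =>
    have hxx : ‖x‖ ≤ Ω := hx x (by simp)
    rw [List.length_cons, Function.iterate_succ_apply, List.foldl_cons]
    refine ih (fun y hy => hx y (by simp [hy])) (Grow_step F x) (Grow_diff_step hF x) _ ?_ m
    intro m
    have hcd : ∀ n : ℕ, ContDiffAt ℂ n F 0 := fun n => hF.contDiff.contDiffAt
    have e1 : iteratedDeriv m (Grow_step F x) 0
        = iteratedDeriv (m + 1) F 0 - x * iteratedDeriv m F 0 := by
      have : Grow_step F x = (deriv F) - (fun z => x * F z) := rfl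
      rw [this, iteratedDeriv_sub, iteratedDeriv_succ', iteratedDeriv_const_mul_field]
      · exact (Grow_diff_deriv hF).contDiff.contDiffAt
      · exact (hF.const_mul x).contDiff.contDiffAt
    rw [e1]
    unfold Grow_T
    refine (norm_sub_le _ _).trans ?_
    refine add_le_add (hc _) ?_
    rw [norm_mul]
    exact mul_le_mul hxx (hc _) (norm_nonneg _) hΩ

lemma Grow_T_iter (Ω : ℝ) (c : ℕ → ℝ) (k m : ℕ) :
    ((Grow_T Ω)^[k] c) m = ∑ ij ∈ (antidiagonal k : Finset (ℕ × ℕ)),
      (k.choose ij.1 : ℝ) * (Ω ^ ij.1 * c (m + ij.2)) := by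
  induction k generalizing m with
  | zero => simp
  | succ k ih =>
    rw [Function.iterate_succ_apply']
    have h := Finset.sum_antidiagonal_choose_succ_mul (fun i j => Ω ^ i * c (m + j)) k
    rw [h]
    unfold Grow_T at ih ⊢
    rw [ih, ih, Finset.mul_sum]
    congr 1
    · refine Finset.sum_congr rfl (fun ij _ => ?_)
      rw [show m + 1 + ij.2 = m + (ij.2 + 1) by ring]
    · refine Finset.sum_congr rfl (fun ij hij => ?_)
      rw [Finset.HasAntidiagonal.mem_antidiagonal] at hij
      rw [Nat.choose_symm_of_eq_add (n := k) (a := ij.1) (b := ij.2) hij.symm]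
      ring

/-- The bound for the values at zero. -/
lemma Grow_zero (Ω r M : ℝ) (hΩ : 0 ≤ Ω) (hr : 0 < r) (hM : 0 ≤ M) (xs : List ℂ)
    (hx : ∀ x ∈ xs, ‖x‖ ≤ Ω) (F : ℂ → ℂ) (hF : Differentiable ℂ F)
    (hb : ∀ z, ‖z‖ ≤ r → ‖F z‖ ≤ M) :
    ‖xs.foldl Grow_step F 0‖ ≤ M * (xs.length.factorial : ℝ) / r ^ xs.length
      * Real.exp (r * Ω) := by
  have hc : ∀ m, ‖iteratedDeriv m F 0‖ ≤ (m.factorial : ℝ) * M / r ^ m := by
    intro m
    refine Complex.norm_iteratedDeriv_le_of_forall_mem_sphere_norm_le m hr hF.diffContOnCl ?_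
    intro z hz
    exact hb z (by simpa using hz.le)
  have h := Grow_iter_deriv Ω hΩ xs hx F hF _ hc 0
  rw [iteratedDeriv_zero, Grow_T_iter] at h
  refine h.trans ?_
  set k := xs.length with hk
  have h1 : ∀ ij ∈ (antidiagonal k : Finset (ℕ × ℕ)),
      (k.choose ij.1 : ℝ) * (Ω ^ ij.1 * (((0 + ij.2).factorial : ℝ) * M / r ^ (0 + ij.2))) =
      M * (k.factorial : ℝ) / r ^ k * ((r * Ω) ^ ij.1 / (ij.1.factorial : ℝ)) := by
    intro ij hij
    rw [Finset.HasAntidiagonal.mem_antidiagonal] at hij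
    have h2 : (k.choose ij.1 : ℝ) * (ij.1.factorial : ℝ) * (ij.2.factorial : ℝ)
        = (k.factorial : ℝ) := by
      rw [← hij, Nat.choose_symm_add]
      exact_mod_cast Nat.add_choose_mul_factorial_mul_factorial ij.1 ij.2
    have h3 : (ij.1.factorial : ℝ) ≠ 0 := by positivity
    have h4 : r ^ k = r ^ ij.1 * r ^ ij.2 := by rw [← hij, pow_add]
    rw [zero_add, h4, ← h2, mul_pow]
    field_simp
  rw [Finset.sum_congr rfl h1, ← Finset.mul_sum]
  refine mul_le_mul_of_nonneg_left ?_ (by positivity)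
  rw [Finset.Nat.sum_antidiagonal_eq_sum_range_succ_mk]
  exact Real.sum_le_exp_of_nonneg (by positivity) _

/-- The list of the frequencies. -/
noncomputable def Grow_list {ι : Type} [Fintype ι] (d : ℕ) (ω : ι → ℂ) : List ℂ :=
  (Finset.univ : Finset ι).toList.flatMap (fun j => List.replicate d (ω j))

lemma Grow_list_length {ι : Type} [Fintype ι] (d : ℕ) (ω : ι → ℂ) :
    (Grow_list d ω).length = Fintype.card ι * d := by
  unfold Grow_list
  rw [List.length_flatMap]
  simp

lemma Grow_list_mem {ι : Type} [Fintype ι] (d : ℕ) (ω : ι → ℂ) (x : ℂ)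
    (hx : x ∈ Grow_list d ω) : ∃ j, x = ω j := by
  unfold Grow_list at hx
  rw [List.mem_flatMap] at hx
  obtain ⟨j, _, hj⟩ := hx
  exact ⟨j, (List.mem_replicate.mp hj).2⟩

/-- The step on polynomials. -/
noncomputable def Grow_pstep (w : ℂ) (Q : ℂ[X]) (x : ℂ) : ℂ[X] := derivative Q + C (w - x) * Q

lemma Grow_ep_hasDeriv {ι : Type} [Fintype ι] (ω : ι → ℂ) (P : ι → ℂ[X]) (z : ℂ) :
    HasDerivAt (ep ω P) (∑ j, ((P j).derivative.eval z * Complex.exp (ω j * z) +
      (P j).eval z * (Complex.exp (ω j * z) * ω j))) z := by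
  unfold ep
  refine HasDerivAt.fun_sum (fun j _ => ?_)
  have e1 : HasDerivAt (fun z : ℂ => ω j * z) (ω j) z := by
    simpa using (hasDerivAt_id z).const_mul (ω j)
  exact ((P j).hasDerivAt z).mul e1.cexp

lemma Grow_ep_diff {ι : Type} [Fintype ι] (ω : ι → ℂ) (P : ι → ℂ[X]) :
    Differentiable ℂ (ep ω P) := fun z => (Grow_ep_hasDeriv ω P z).differentiableAt

lemma Grow_step_ep {ι : Type} [Fintype ι] (ω : ι → ℂ) (P : ι → ℂ[X]) (x : ℂ) :
    Grow_step (ep ω P) x = ep ω (fun j => Grow_pstep (ω j) (P j) x) := by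
  funext z
  unfold Grow_step
  rw [(Grow_ep_hasDeriv ω P z).deriv]
  unfold ep Grow_pstep
  rw [Finset.mul_sum, ← Finset.sum_sub_distrib]
  refine Finset.sum_congr rfl (fun j _ => ?_)
  simp only [eval_add, eval_mul, eval_C]
  ring

lemma Grow_fold_ep {ι : Type} [Fintype ι] (ω : ι → ℂ) (xs : List ℂ) (P : ι → ℂ[X]) :
    xs.foldl Grow_step (ep ω P) = ep ω (fun j => xs.foldl (Grow_pstep (ω j)) (P j)) := by
  induction xs generalizing P with
  | nil => rfl
  | cons x xs ih => rw [List.foldl_cons, Grow_step_ep, ih]; rfl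

lemma Grow_pfold (w : ℂ) (xs : List ℂ) (Q : ℂ[X]) :
    xs.foldl (Grow_pstep w) Q =
      (aeval (derivative : ℂ[X] →ₗ[ℂ] ℂ[X]) ((xs.map (fun x => X + C (w - x))).prod : ℂ[X])) Q := by
  induction xs generalizing Q with
  | nil => simp
  | cons x xs ih =>
    rw [List.foldl_cons, ih, List.map_cons, List.prod_cons, mul_comm, map_mul]
    simp only [Module.End.mul_apply, map_add, aeval_X, aeval_C, LinearMap.add_apply,
      Module.algebraMap_end_apply, Grow_pstep, smul_eq_C_mul]

lemma Grow_dvd {ι : Type} (d : ℕ) (ω : ι → ℂ) (j : ι) (l : List ι) (hj : j ∈ l) :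
    (X ^ d : ℂ[X]) ∣ ((l.flatMap (fun i => List.replicate d (ω i))).map
      (fun x => X + C (ω j - x))).prod := by
  induction l with
  | nil => simp at hj
  | cons a l ih =>
    rw [List.flatMap_cons, List.map_append, List.prod_append]
    rcases List.mem_cons.mp hj with h | h
    · subst h
      refine Dvd.dvd.mul_right ?_ _
      simp
    · exact Dvd.dvd.mul_left (ih h) _

lemma Grow_pfold_zero {ι : Type} [Fintype ι] (d : ℕ) (ω : ι → ℂ) (j : ι) (Q : ℂ[X])
    (hQ : Q.degree < d) : (Grow_list d ω).foldl (Grow_pstep (ω j)) Q = 0 := by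
  rw [Grow_pfold]
  have hdvd : (X ^ d : ℂ[X]) ∣ ((Grow_list d ω).map (fun x => X + C (ω j - x))).prod := by
    unfold Grow_list
    exact Grow_dvd d ω j _ (by simp)
  obtain ⟨q, hq⟩ := hdvd
  rw [hq, mul_comm, map_mul, Module.End.mul_apply, map_pow, aeval_X]
  have : ((derivative : ℂ[X] →ₗ[ℂ] ℂ[X]) ^ d) Q = 0 := by
    rw [Module.End.pow_apply]
    by_cases hQ0 : Q = 0
    · rw [hQ0]; exact iterate_derivative_zero
    · exact iterate_derivative_eq_zero (by rwa [← natDegree_lt_iff_degree_lt hQ0] at hQ)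
  rw [this, map_zero]

theorem pr_Grow : S_Grow := by
  intro ι _ d ω P Ω r R M hω hdeg hr hrR hM z hz
  have hM0 : 0 ≤ M := (norm_nonneg _).trans (hM 0 (by simpa using hr.le))
  rcases isEmpty_or_nonempty ι with hι | hι
  · simp [ep]
  · obtain ⟨j0⟩ := hι
    have hΩ : 0 ≤ Ω := (norm_nonneg _).trans (hω j0)
    set xs := Grow_list d ω with hxs
    have hlen : xs.length = Fintype.card ι * d := Grow_list_length d ω
    have hx : ∀ x ∈ xs, ‖x‖ ≤ Ω := by
      intro x hx
      obtain ⟨j, rfl⟩ := Grow_list_mem d ω x hx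
      exact hω j
    have hdiff := Grow_ep_diff ω P
    have h0 : ∀ w, xs.foldl Grow_step (ep ω P) w = 0 := by
      intro w
      rw [Grow_fold_ep]
      unfold ep
      refine Finset.sum_eq_zero (fun j _ => ?_)
      show eval w (List.foldl (Grow_pstep (ω j)) (P j) (Grow_list d ω)) * _ = 0
      rw [Grow_pfold_zero d ω j (P j) (hdeg j)]
      simp
    have h1 := Grow_one Ω xs hx (ep ω P) hdiff h0 z
    refine h1.trans ?_
    have hRr : 1 ≤ R / r := (one_le_div hr).mpr hrR
    have h2 : ∀ k ∈ range xs.length, ‖(xs.take k).foldl Grow_step (ep ω P) 0‖ * ‖z‖ ^ k /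
        (k.factorial : ℝ) ≤ M * Real.exp (r * Ω) * (R / r) ^ xs.length := by
      intro k hk
      have hkl : k ≤ xs.length := (Finset.mem_range.mp hk).le
      have h3 := Grow_zero Ω r M hΩ hr hM0 (xs.take k)
        (fun x hx' => hx x (List.mem_of_mem_take hx')) (ep ω P) hdiff hM
      rw [List.length_take, min_eq_left hkl] at h3
      have hfac : (0 : ℝ) < (k.factorial : ℝ) := by positivity
      rw [div_le_iff₀ hfac]
      have h4 : ‖z‖ ^ k ≤ R ^ k := pow_le_pow_left₀ (norm_nonneg _) hz k
      have h5 : (R / r) ^ k ≤ (R / r) ^ xs.length := pow_le_pow_right₀ hRr hkl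
      have hR0 : 0 ≤ R := hr.le.trans hrR
      calc ‖(xs.take k).foldl Grow_step (ep ω P) 0‖ * ‖z‖ ^ k
          ≤ (M * (k.factorial : ℝ) / r ^ k * Real.exp (r * Ω)) * R ^ k :=
            mul_le_mul h3 h4 (by positivity) (by positivity)
        _ = M * Real.exp (r * Ω) * (R / r) ^ k * (k.factorial : ℝ) := by
            rw [div_pow]; field_simp
        _ ≤ M * Real.exp (r * Ω) * (R / r) ^ xs.length * (k.factorial : ℝ) := by
            refine mul_le_mul_of_nonneg_right ?_ hfac.le
            exact mul_le_mul_of_nonneg_left h5 (by positivity)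
    have h6 := Finset.sum_le_sum h2
    rw [Finset.sum_const, Finset.card_range, nsmul_eq_mul] at h6
    have h7 : Real.exp (Ω * ‖z‖) ≤ Real.exp (Ω * R) :=
      Real.exp_le_exp.mpr (mul_le_mul_of_nonneg_left hz hΩ)
    have h8 : (0 : ℝ) ≤ (R / r) ^ xs.length := by positivity
    refine (mul_le_mul h7 h6 (Finset.sum_nonneg (fun k _ => by positivity))
      (Real.exp_pos _).le).trans (le_of_eq ?_)
    rw [hlen]
    have h9 : Real.exp ((R + r) * Ω) = Real.exp (Ω * R) * Real.exp (r * Ω) := by
      rw [← Real.exp_add]; congr 1; ring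
    rw [h9]
    ring

end Pool.Agent.Work.MP_327059_nt.AA

end

section

set_option autoImplicit false

namespace Pool.Agent.Work.MP_327059_nt.AA

open Polynomial

theorem Indep_D (c : ℂ) (hc : c ≠ 0) (P : ℂ[X]) (h : derivative P + C c * P = 0) : P = 0 := by
  by_contra hP
  have h1 : derivative P = -(C c * P) := eq_neg_of_add_eq_zero_left h
  have h2 := degree_derivative_lt hP
  rw [h1, degree_neg, degree_C_mul hc] at h2
  exact lt_irrefl _ h2

theorem Indep_step {ι : Type} (s : Finset ι) (c : ι → ℂ) (hc : ∀ j ∈ s, c j ≠ 0)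
    (ih : ∀ P : ι → ℂ[X], (∀ z, ∑ j ∈ s, (P j).eval z * Complex.exp (c j * z) = 0) →
      ∀ j ∈ s, P j = 0) :
    ∀ (N : ℕ) (Q : ℂ[X]) (P : ι → ℂ[X]), Q.degree < N →
      (∀ z, Q.eval z + ∑ j ∈ s, (P j).eval z * Complex.exp (c j * z) = 0) →
      ∀ j ∈ s, P j = 0 := by
  intro N
  induction N with
  | zero =>
    intro Q P hQ h
    have hQ0 : Q = 0 := by
      rw [← degree_eq_bot]
      exact Nat.WithBot.lt_zero_iff.1 (by simpa using hQ)
    apply ih
    intro z
    have := h z
    rw [hQ0, eval_zero, zero_add] at this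
    exact this
  | succ N IH =>
    intro Q P hQ h j hj
    have hQ' : (derivative Q).degree < N := by
      by_cases hQ0 : Q = 0
      · rw [hQ0, derivative_zero, degree_zero]
        exact WithBot.bot_lt_coe N
      · have h1 := degree_derivative_lt hQ0
        by_cases hQ1 : derivative Q = 0
        · rw [hQ1, degree_zero]
          exact WithBot.bot_lt_coe N
        · rw [degree_eq_natDegree hQ1] at h1 ⊢
          rw [degree_eq_natDegree hQ0] at h1 hQ
          have h2 : (derivative Q).natDegree < Q.natDegree := by exact_mod_cast h1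
          have h3 : Q.natDegree < N + 1 := by exact_mod_cast hQ
          exact_mod_cast (show (derivative Q).natDegree < N by omega)
    have hder : ∀ z, (derivative Q).eval z +
        ∑ j ∈ s, (derivative (P j) + C (c j) * P j).eval z * Complex.exp (c j * z) = 0 := by
      intro z
      have hd : HasDerivAt (fun z => Q.eval z + ∑ j ∈ s, (P j).eval z * Complex.exp (c j * z))
          ((derivative Q).eval z + ∑ j ∈ s, ((derivative (P j)).eval z * Complex.exp (c j * z) +
            (P j).eval z * (Complex.exp (c j * z) * (c j * 1)))) z := by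
        apply HasDerivAt.add (Q.hasDerivAt z)
        apply HasDerivAt.fun_sum
        intro j _
        apply HasDerivAt.mul ((P j).hasDerivAt z)
        exact ((hasDerivAt_id z).const_mul (c j)).cexp
      have h0 : (fun z => Q.eval z + ∑ j ∈ s, (P j).eval z * Complex.exp (c j * z)) =
          fun _ => (0 : ℂ) := funext h
      rw [h0] at hd
      have := hd.unique (hasDerivAt_const z (0 : ℂ))
      rw [← this]
      congr 1
      apply Finset.sum_congr rfl
      intro j _
      rw [eval_add, eval_mul, eval_C]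
      ring
    have h1 := IH (derivative Q) (fun j => derivative (P j) + C (c j) * P j) hQ' hder j hj
    exact Indep_D (c j) (hc j hj) (P j) h1

theorem Indep_fin {ι : Type} (s : Finset ι) : ∀ (ω : ι → ℂ) (P : ι → ℂ[X]), Set.InjOn ω s →
    (∀ z, ∑ j ∈ s, (P j).eval z * Complex.exp (ω j * z) = 0) → ∀ j ∈ s, P j = 0 := by
  classical
  induction s using Finset.induction_on with
  | empty => simp
  | insert a s ha ih =>
    intro ω P hω h
    have hinj : Set.InjOn ω s := hω.mono (by simp)
    have hne : ∀ j ∈ s, ω j - ω a ≠ 0 := by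
      intro j hj h0
      have h1 : ω j = ω a := sub_eq_zero.1 h0
      have h2 := hω (by simp [hj]) (by simp) h1
      rw [h2] at hj
      exact ha hj
    have hmul : ∀ z, (P a).eval z + ∑ j ∈ s, (P j).eval z * Complex.exp ((ω j - ω a) * z) = 0 := by
      intro z
      have h1 := h z
      rw [Finset.sum_insert ha] at h1
      have h2 : ((P a).eval z + ∑ j ∈ s, (P j).eval z * Complex.exp ((ω j - ω a) * z)) *
          Complex.exp (ω a * z) = 0 := by
        rw [← h1, add_mul, Finset.sum_mul]
        congr 1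
        apply Finset.sum_congr rfl
        intro j _
        rw [mul_assoc, ← Complex.exp_add]
        ring_nf
      exact (mul_eq_zero.1 h2).resolve_right (Complex.exp_ne_zero _)
    have hs : ∀ j ∈ s, P j = 0 := by
      apply Indep_step s (fun j => ω j - ω a) hne ?_ ((P a).natDegree + 1) (P a) P ?_ hmul
      · intro P' hP'
        apply ih (fun j => ω j - ω a) P' ?_ hP'
        intro x hx y hy hxy
        apply hinj hx hy
        have : ω x - ω a = ω y - ω a := hxy
        linear_combination this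
      · refine lt_of_le_of_lt degree_le_natDegree ?_
        exact_mod_cast Nat.lt_succ_self _
    intro j hj
    rw [Finset.mem_insert] at hj
    rcases hj with rfl | hj
    · apply Polynomial.funext
      intro z
      have h1 := hmul z
      rw [Finset.sum_eq_zero, add_zero] at h1
      · rw [h1, eval_zero]
      · intro i hi
        rw [hs i hi, eval_zero, zero_mul]
    · exact hs j hj

theorem pr_Indep : S_Indep := by
  intro ι _ ω P hω h j
  exact Indep_fin Finset.univ ω P (fun x _ y _ hxy => hω hxy) h j (Finset.mem_univ j)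

end Pool.Agent.Work.MP_327059_nt.AA

end
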