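import Pool.Agent.Work.MP_327059_nt.Stmts

/-! Bundle of small proof modules (one section per former module). -/

section

/-!
# The data from the hypothesis
-/

open Polynomial Filter Topology

namespace GSL

theorem Alg.natCast_mul_mem (β : ℂ) (m : ℕ) {x : ℂ} (hx : x ∈ Ob β) : (m : ℂ) * x ∈ Ob β := by
  obtain ⟨a, b, rfl⟩ := hx
  exact ⟨m * a, m * b, by push_cast; ring⟩

theorem Alg.clear (h : StmtField) (β : ℂ) (hβ : IQ β) (P : (Fb β)[X]) :
    ∃ m : ℕ, 0 < m ∧ PolyO β (C (m : ℂ) * P.map (algebraMap (Fb β) ℂ)) := by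
  obtain ⟨h1, h2, h3, h4, h5, h6⟩ := h β hβ
  induction P using Polynomial.induction_on' with
  | add p q hp hq =>
    obtain ⟨m, hm, hP⟩ := hp
    obtain ⟨k, hk, hQ⟩ := hq
    refine ⟨m * k, Nat.mul_pos hm hk, fun i => ?_⟩
    have e : (C ((m * k : ℕ) : ℂ) * (p + q).map (algebraMap (Fb β) ℂ)).coeff i =
        (k : ℂ) * (C (m : ℂ) * p.map (algebraMap (Fb β) ℂ)).coeff i +
          (m : ℂ) * (C (k : ℂ) * q.map (algebraMap (Fb β) ℂ)).coeff i := by
      simp only [coeff_C_mul, Polynomial.map_add, coeff_add, Nat.cast_mul]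
      ring
    rw [e]
    exact (h3 _ (Alg.natCast_mul_mem β k (hP i)) _ (Alg.natCast_mul_mem β m (hQ i))).1
  | monomial n a =>
    obtain ⟨m, hm, ha⟩ := h6 (a : ℂ) ((h1 _).1 a.2)
    refine ⟨m, hm, fun i => ?_⟩
    rw [coeff_C_mul, map_monomial, coeff_monomial]
    split_ifs
    · exact ha
    · rw [mul_zero]
      exact ⟨0, 0, by simp⟩

theorem alg (h : StmtField) : StmtAlg := by
  intro β l hβ hl hexp hmem
  obtain ⟨t, n, hq⟩ := hβ.quad
  obtain ⟨h1, h2, h3, h4, h5, h6⟩ := h β hβ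
  obtain ⟨m, hm, ha⟩ := h6 _ ((h1 _).1 hexp)
  have hm0 : (m : ℂ) ≠ 0 := by exact_mod_cast hm.ne'
  have hmem2 : l ∈ IntermediateField.adjoin (Fb β) {Complex.exp (β * l)} := by
    have e : (IntermediateField.adjoin (Fb β) {Complex.exp (β * l)}).restrictScalars ℚ =
        IntermediateField.adjoin ℚ ({β} ∪ {Complex.exp (β * l)}) :=
      IntermediateField.adjoin_adjoin_left ℚ {β} {Complex.exp (β * l)}
    have e2 : ({β, Complex.exp (β * l)} : Set ℂ) = {β} ∪ {Complex.exp (β * l)} := rfl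
    rw [e2, ← e] at hmem
    exact hmem
  rw [IntermediateField.mem_adjoin_simple_iff] at hmem2
  obtain ⟨r, s, hrs⟩ := hmem2
  set Y := Complex.exp (β * l) with hY
  have hs0 : aeval Y s ≠ 0 := by
    intro h0
    rw [h0, div_zero] at hrs
    exact hl hrs
  obtain ⟨k₁, hk₁, hK₁⟩ := Alg.clear h β hβ r
  obtain ⟨k₂, hk₂, hK₂⟩ := Alg.clear h β hβ s
  have hk₁0 : (k₁ : ℂ) ≠ 0 := by exact_mod_cast hk₁.ne'
  have hk₂0 : (k₂ : ℂ) ≠ 0 := by exact_mod_cast hk₂.ne'
  have hev : ∀ (k : ℂ) (P : (Fb β)[X]), (C k * P.map (algebraMap (Fb β) ℂ)).eval Y =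
      k * aeval Y P := by
    intro k P
    rw [eval_mul, eval_C, eval_map_algebraMap]
  refine ⟨{ β := β, l := l, t := t, n := n, a₁ := m * Complex.exp l, a₂ := m,
            A₀ := C ((k₁ : ℂ) * k₂) * s.map (algebraMap (Fb β) ℂ),
            B₀ := C ((k₁ : ℂ) * k₂) * r.map (algebraMap (Fb β) ℂ),
            quad := hq, im := hβ.im, l_ne := hl, a₁_mem := ha,
            a₂_mem := ⟨m, 0, by simp⟩,
            a₁_ne := mul_ne_zero hm0 (Complex.exp_ne_zero _),
            a₂_ne := hm0,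
            exp_l := by field_simp,
            A₀_mem := ?_, B₀_mem := ?_, A₀_ne := ?_, l_eq := ?_ }, rfl, rfl⟩
  · intro i
    have := Alg.natCast_mul_mem β k₁ (hK₂ i)
    rw [coeff_C_mul] at this ⊢
    rwa [mul_assoc]
  · intro i
    have := Alg.natCast_mul_mem β k₂ (hK₁ i)
    rw [coeff_C_mul] at this ⊢
    rwa [mul_comm (k₁ : ℂ) k₂, mul_assoc]
  · rw [hev]
    exact mul_ne_zero (mul_ne_zero hk₁0 hk₂0) hs0
  · rw [hev, hev, mul_div_mul_left _ _ (mul_ne_zero hk₁0 hk₂0)]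
    exact hrs

end GSL

end

section

/-!
# MP_327059_nt : the closeness of a conjugacy class
-/

open Polynomial

namespace GSL

namespace Close

theorem cl_nonneg (Y x : ℂ) : 0 ≤ cl Y x := le_max_left _ _

theorem norm_of_cl_pos {Y x : ℂ} (h : 0 < cl Y x) : ‖x - Y‖ = Real.exp (-cl Y x) := by
  unfold cl at h ⊢
  have h1 : 0 < -Real.log ‖x - Y‖ := by
    by_contra hcon
    push Not at hcon
    rw [max_eq_left hcon] at h
    exact lt_irrefl _ h
  rw [max_eq_right h1.le, neg_neg, Real.exp_log]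
  rcases (norm_nonneg (x - Y)).eq_or_lt with h2 | h2
  · rw [← h2] at h1
    simp at h1
  · exact h2

theorem log_max_one (t : ℝ) (ht : 0 ≤ t) : Real.log (max 1 t) = Real.posLog t := by
  show Real.log (max 1 t) = max 0 (Real.log t)
  rcases le_total 1 t with h | h
  · rw [max_eq_right h, max_eq_right (Real.log_nonneg h)]
  · rw [max_eq_left h, Real.log_one, max_eq_left (Real.log_nonpos ht h)]

/-- The elementary inequality for the clamp. -/
theorem clamp {q η ρm ρp ρ : ℝ} (hq : 0 < q) (hη : 0 ≤ η) (hm : 0 < ρm) (hp : ρm ≤ ρp)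
    (hρ : ρ = max ρm (min (η / q) ρp)) :
    q ^ 2 * ρ + 2 * (q * η) + η ^ 2 / ρ ≤ 4 * (q * η + η ^ 2 / ρp + q ^ 2 * ρm) := by
  have hρp : 0 < ρp := hm.trans_le hp
  have h0 : 0 ≤ η ^ 2 / ρp := by positivity
  have h0' : 0 ≤ q ^ 2 * ρm := by positivity
  have h0'' : 0 ≤ q * η := by positivity
  rcases le_total (η / q) ρm with h1 | h1
  · have h2 : ρ = ρm := by rw [hρ, min_eq_left (h1.trans hp), max_eq_left h1]
    rw [div_le_iff₀ hq] at h1
    have h3 : η ^ 2 / ρ ≤ q * η := by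
      rw [h2, div_le_iff₀ hm]
      nlinarith
    rw [h2] at h3 ⊢
    linarith
  · rcases le_total (η / q) ρp with h4 | h4
    · have h2 : ρ = η / q := by rw [hρ, min_eq_left h4, max_eq_right h1]
      have hη' : 0 < η := by
        rw [le_div_iff₀ hq] at h1
        have : 0 < ρm * q := by positivity
        linarith
      have h3 : q ^ 2 * ρ = q * η := by rw [h2]; field_simp
      have h5 : η ^ 2 / ρ = q * η := by rw [h2]; field_simp
      rw [h3, h5]
      linarith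
    · have h2 : ρ = ρp := by rw [hρ, min_eq_right h4, max_eq_right hp]
      rw [le_div_iff₀ hq] at h4
      have h3 : q ^ 2 * ρ ≤ q * η := by
        rw [h2]
        nlinarith
      rw [h2] at h3 ⊢
      linarith

theorem numeric {e : ℝ} (h0 : 0 < e) (h1 : e ≤ 1 / 100) :
    (1 + e) ^ 4 ≤ (1 + 100 * e) * ((1 - 2 * e) * (1 - e)) ^ 2 := by
  have h2 : 1 - 6 * e ≤ ((1 - 2 * e) * (1 - e)) ^ 2 := by nlinarith [sq_nonneg e, mul_pos h0 h0]
  have h3 : (1 + e) ^ 4 ≤ 1 + 5 * e := by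
    have h4 : (1 + e) ^ 2 ≤ 1 + 21 / 10 * e := by nlinarith
    have h5 : (1 + e) ^ 4 = ((1 + e) ^ 2) ^ 2 := by ring
    rw [h5]
    have h6 : ((1 + e) ^ 2) ^ 2 ≤ (1 + 21 / 10 * e) ^ 2 := by gcongr
    nlinarith
  have h4 : (1 + 100 * e) * (1 - 6 * e) ≤ (1 + 100 * e) * ((1 - 2 * e) * (1 - e)) ^ 2 := by
    gcongr
  nlinarith

/-- The bound for one root. -/
theorem one_root {β Y : ℂ} {e δ σ V L : ℝ} {D : Set ℂ[X]} (hL1 : StmtL1)
    (hF : FamG β Y e δ σ V L D) (he : 0 < e) (he1 : e < 1) (hV : 0 < V) (hL : 1 ≤ L)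
    {P : ℂ[X]} (hP : P ∈ D) {x : ℂ} (hx : P.eval x ≠ 0) (hδ : 0 ≤ δ) :
    Real.log ‖P.eval x‖ ≤ (1 + e) * L * σ + (1 + e) * L * δ * Real.posLog ‖x‖ -
      (1 / 2 - e) * L * min (cl Y x) ((1 - e) * V) := by
  have hpos : 0 < ‖P.eval x‖ := norm_pos_iff.2 hx
  have hpl : 0 ≤ (1 + e) * L * δ * Real.posLog ‖x‖ := by
    have := Real.posLog_nonneg (x := ‖x‖)
    positivity
  rcases (cl_nonneg Y x).eq_or_lt with h | h
  · rw [← h, min_eq_left (by nlinarith), mul_zero, sub_zero]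
    obtain ⟨-, -, -, -, -, -, -, -, -, h2, -⟩ := hL1
    have h3 := h2 P x
    have hl : 0 < l1 P := by
      by_contra hcon
      push Not at hcon
      have : ‖P.eval x‖ ≤ 0 := h3.trans (mul_nonpos_of_nonpos_of_nonneg hcon (by positivity))
      linarith
    have h4 : Real.log ‖P.eval x‖ ≤ Real.log (l1 P) + P.natDegree * Real.posLog ‖x‖ := by
      rw [← log_max_one _ (norm_nonneg x), ← Real.log_pow, ← Real.log_mul hl.ne' (by positivity)]
      exact Real.log_le_log hpos h3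
    have h5 : Real.log (l1 P) ≤ (1 + e) * L * σ := by
      rw [Real.log_le_iff_le_exp hl]
      exact hF.height P hP
    have h6 : P.natDegree * Real.posLog ‖x‖ ≤ (1 + e) * L * δ * Real.posLog ‖x‖ :=
      mul_le_mul_of_nonneg_right (hF.deg P hP) Real.posLog_nonneg
    linarith
  · have h1 := norm_of_cl_pos h
    have hs0 : 0 ≤ min (cl Y x) ((1 - e) * V) := le_min h.le (by nlinarith)
    have h2 := hF.E1 P hP (min (cl Y x) ((1 - e) * V)) hs0 (min_le_right _ _) x
      (by rw [h1]; apply Real.exp_le_exp.2; linarith [min_le_left (cl Y x) ((1 - e) * V)])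
    have h3 := (Real.log_le_iff_le_exp hpos).2 h2
    nlinarith

end Close

open Close in
theorem close (hLiou : StmtLiou) (hL1 : StmtL1) : StmtClose := by
  intro β Y hβ hI ε hε hε1
  obtain ⟨e, he⟩ : ∃ e : ℝ, e = ε / 100 := ⟨_, rfl⟩
  have he0 : 0 < e := by rw [he]; positivity
  have he1 : e ≤ 1 / 100 := by rw [he]; linarith
  obtain ⟨C, c, V₀, hC, hc, hV₀, hfam⟩ := hI e he0 (by linarith)
  refine ⟨C, c / 2, max (2 * V₀) 4, hC, by positivity, by
    have := le_max_right (2 * V₀) 4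
    linarith, ?_⟩
  intro Q hQm hQi g hg x₁ hx₁ hmax hU ρp hρ1 hρ2
  obtain ⟨U, hUdef⟩ : ∃ U : ℝ, U = cl Y x₁ := ⟨_, rfl⟩
  rw [← hUdef] at hU hρ2 hmax
  have hU4 : 4 ≤ U := (le_max_right _ _).trans hU
  have hUV : 2 * V₀ ≤ U := (le_max_left _ _).trans hU
  obtain ⟨V, hV⟩ : ∃ V : ℝ, V = U / (1 + e) := ⟨_, rfl⟩
  have hUeV : U = (1 + e) * V := by rw [hV]; field_simp
  have hV2 : U ≤ 2 * V := by nlinarith
  have hVU : V ≤ U := by nlinarith
  have hVV₀ : V₀ ≤ V := by linarith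
  have hVpos : 0 < V := by linarith
  -- the number ρ
  obtain ⟨q, hq⟩ : ∃ q : ℝ, q = (Q.natDegree : ℝ) := ⟨_, rfl⟩
  obtain ⟨η, hη⟩ : ∃ η : ℝ, η = ht Q g := ⟨_, rfl⟩
  have hcard : (toC Q).roots.card = Q.natDegree := by
    have h1 : (toC Q).Splits := IsAlgClosed.splits _
    rw [← h1.natDegree_eq_card_roots]
    exact Polynomial.natDegree_map _
  have hq1 : 1 ≤ q := by
    rw [hq, ← hcard]
    have : 0 < (toC Q).roots.card := Multiset.card_pos_iff_exists_mem.2 ⟨x₁, hx₁⟩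
    exact_mod_cast this
  have hlc : 0 ≤ Real.log (g.leadingCoeff : ℝ) := by
    apply Real.log_nonneg
    exact_mod_cast hg.pos
  have hps : 0 ≤ ((toC Q).roots.map fun x => Real.posLog ‖x‖).sum := by
    apply Multiset.sum_nonneg
    intro a ha
    obtain ⟨x, -, rfl⟩ := Multiset.mem_map.1 ha
    exact Real.posLog_nonneg
  have hη0 : 0 ≤ η := by rw [hη]; unfold ht; positivity
  obtain ⟨ρ, hρ⟩ : ∃ ρ : ℝ, ρ = max C (min (η / q) ρp) := ⟨_, rfl⟩
  have hρC : C ≤ ρ := by rw [hρ]; exact le_max_left _ _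
  have hρρp : ρ ≤ ρp := by rw [hρ]; exact max_le hρ1 (min_le_right _ _)
  have hρpos : 0 < ρ := hC.trans_le hρC
  have hlogV : Real.log U ≤ 2 * Real.log V := by
    have h1 : U ≤ V ^ 2 := by nlinarith
    calc Real.log U ≤ Real.log (V ^ 2) := Real.log_le_log (by linarith) h1
      _ = 2 * Real.log V := by rw [Real.log_pow]; norm_num
  have hρV : ρ ≤ c * Real.log V := by
    have : c / 2 * Real.log U ≤ c / 2 * (2 * Real.log V) := by gcongr
    linarith
  obtain ⟨L, D, hL, hF⟩ := hfam V ρ hVV₀ hρC hρV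
  obtain ⟨δ, hδ⟩ : ∃ δ : ℝ, δ = Real.sqrt (V / (2 * Real.pi * ρ)) := ⟨_, rfl⟩
  obtain ⟨σ, hσ⟩ : ∃ σ : ℝ, σ = Real.sqrt (V * ρ / (2 * Real.pi)) := ⟨_, rfl⟩
  rw [← hδ, ← hσ] at hF
  have hδ0 : 0 ≤ δ := by rw [hδ]; positivity
  have hσ0 : 0 ≤ σ := by rw [hσ]; positivity
  have hx1n : ‖x₁ - Y‖ ≤ Real.exp (-((1 + e) * V)) := by
    rw [norm_of_cl_pos (by rw [← hUdef]; linarith), ← hUdef, hUeV]
  obtain ⟨P, hP, hPx⟩ := hF.NV x₁ hx1n
  obtain ⟨hne, hliou⟩ := hLiou β hβ Q hQm hQi g hg P (hF.coeff P hP) ⟨x₁, hx₁, hPx⟩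
  -- the sum over the roots
  have hsum : ((toC Q).roots.map fun x => Real.log ‖P.eval x‖).sum ≤
      ((toC Q).roots.map fun x => (1 + e) * L * σ + (1 + e) * L * δ * Real.posLog ‖x‖ -
      (1 / 2 - e) * L * ((1 - e) / (1 + e) * cl Y x)).sum := by
    apply Multiset.sum_map_le_sum_map
    intro x hx
    have h1 := one_root hL1 hF he0 (by linarith) hVpos hL hP (hne x hx) hδ0
    have h2 : (1 - e) / (1 + e) * cl Y x ≤ min (cl Y x) ((1 - e) * V) := by
      apply le_min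
      · have h3 : (1 - e) / (1 + e) ≤ 1 := by rw [div_le_one (by linarith)]; linarith
        have := cl_nonneg Y x
        nlinarith
      · have h3 := hmax x hx
        have h4 : 0 ≤ (1 - e) / (1 + e) := by
          apply div_nonneg <;> linarith
        calc (1 - e) / (1 + e) * cl Y x ≤ (1 - e) / (1 + e) * U := by gcongr
          _ = (1 - e) * V := by rw [hV]; ring
    have h3 : (1 / 2 - e) * L * ((1 - e) / (1 + e) * cl Y x) ≤
        (1 / 2 - e) * L * min (cl Y x) ((1 - e) * V) := by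
      have : 0 ≤ (1 / 2 - e) * L := by
        apply mul_nonneg <;> linarith
      gcongr
    linarith
  have hsum2 : ((toC Q).roots.map fun x => (1 + e) * L * σ + (1 + e) * L * δ * Real.posLog ‖x‖ -
      (1 / 2 - e) * L * ((1 - e) / (1 + e) * cl Y x)).sum =
      q * ((1 + e) * L * σ) + (1 + e) * L * δ * ((toC Q).roots.map fun x => Real.posLog ‖x‖).sum -
        (1 / 2 - e) * L * ((1 - e) / (1 + e) * wQ Y Q) := by
    unfold wQ
    rw [Multiset.sum_map_sub, Multiset.sum_map_add, Multiset.sum_map_mul_left,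
      Multiset.sum_map_mul_left, Multiset.sum_map_mul_left]
    simp only [Multiset.map_const', Multiset.sum_replicate, nsmul_eq_mul, hcard, hq]
    have h : (Multiset.map (fun x => (1 - e) / (1 + e) * cl Y x) (toC Q).roots).sum =
        (1 - e) / (1 + e) * (Multiset.map (cl Y) (toC Q).roots).sum :=
      Multiset.sum_map_mul_left
    rw [h]
    ring
  have hdeg : (P.natDegree : ℝ) * (1 / 2 * Real.log g.leadingCoeff) ≤
      (1 + e) * L * δ * (1 / 2 * Real.log g.leadingCoeff) :=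
    mul_le_mul_of_nonneg_right (hF.deg P hP) (by positivity)
  have hmain : (1 / 2 - e) * ((1 - e) / (1 + e) * wQ Y Q) ≤ (1 + e) * (q * σ + η * δ) := by
    have h1 : L * ((1 / 2 - e) * ((1 - e) / (1 + e) * wQ Y Q)) ≤
        L * ((1 + e) * (q * σ + η * δ)) := by
      rw [hη]
      unfold ht
      rw [hsum2] at hsum
      nlinarith
    exact le_of_mul_le_mul_left h1 (by linarith)
  -- conclusion
  obtain ⟨w, hw⟩ : ∃ w : ℝ, w = wQ Y Q := ⟨_, rfl⟩
  rw [← hw] at hmain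
  rw [← hw, ← hq, ← hη]
  have hUw : U ≤ w := by
    rw [hUdef, hw]
    unfold wQ
    apply Multiset.single_le_sum _ _ (Multiset.mem_map_of_mem _ hx₁)
    intro a ha
    obtain ⟨x, -, rfl⟩ := Multiset.mem_map.1 ha
    exact cl_nonneg _ _
  have hwpos : 0 < w := by linarith
  have h1 : (1 - 2 * e) * (1 - e) * w ≤ 2 * (1 + e) ^ 2 * (q * σ + η * δ) := by
    have h2 : (1 / 2 - e) * ((1 - e) / (1 + e) * w) * (2 * (1 + e)) ≤
        (1 + e) * (q * σ + η * δ) * (2 * (1 + e)) := by gcongr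
    have h3 : (1 / 2 - e) * ((1 - e) / (1 + e) * w) * (2 * (1 + e)) =
        (1 - 2 * e) * (1 - e) * w := by
      have : (1 + e) ≠ 0 := by positivity
      field_simp
    linarith
  have hpi := Real.pi_pos
  have hσ2 : σ ^ 2 = V * ρ / (2 * Real.pi) := by rw [hσ, Real.sq_sqrt (by positivity)]
  have hδ2 : δ ^ 2 = V / (2 * Real.pi * ρ) := by rw [hδ, Real.sq_sqrt (by positivity)]
  have hσδ : σ * δ = V / (2 * Real.pi) := by
    rw [hσ, hδ, ← Real.sqrt_mul (by positivity)]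
    have : V * ρ / (2 * Real.pi) * (V / (2 * Real.pi * ρ)) = (V / (2 * Real.pi)) ^ 2 := by
      field_simp
    rw [this, Real.sqrt_sq (by positivity)]
  have h2 : (q * σ + η * δ) ^ 2 = V / (2 * Real.pi) * (q ^ 2 * ρ + 2 * (q * η) + η ^ 2 / ρ) := by
    have : (q * σ + η * δ) ^ 2 = q ^ 2 * σ ^ 2 + 2 * (q * η) * (σ * δ) + η ^ 2 * δ ^ 2 := by ring
    rw [this, hσ2, hδ2, hσδ]
    field_simp
  have h3 := clamp (by linarith : 0 < q) hη0 hC hρ1 hρ
  obtain ⟨E, hE⟩ : ∃ E : ℝ, E = q * η + η ^ 2 / ρp + q ^ 2 * C := ⟨_, rfl⟩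
  have hρp0 : 0 < ρp := hC.trans_le hρ1
  have hE0 : 0 ≤ E := by rw [hE]; positivity
  rw [← hE] at h3 ⊢
  have h4 : (q * σ + η * δ) ^ 2 ≤ V / (2 * Real.pi) * (4 * E) := by
    rw [h2]; gcongr
  have h5 : ((1 - 2 * e) * (1 - e) * w) ^ 2 ≤ (2 * (1 + e) ^ 2 * (q * σ + η * δ)) ^ 2 := by
    apply pow_le_pow_left₀ _ h1
    have : 0 < 1 - 2 * e := by linarith
    have : 0 < 1 - e := by linarith
    positivity
  have h6 : ((1 - 2 * e) * (1 - e)) ^ 2 * w ^ 2 ≤
      (1 + e) ^ 4 * (8 / Real.pi * E) * w := by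
    calc ((1 - 2 * e) * (1 - e)) ^ 2 * w ^ 2 = ((1 - 2 * e) * (1 - e) * w) ^ 2 := by ring
      _ ≤ (2 * (1 + e) ^ 2 * (q * σ + η * δ)) ^ 2 := h5
      _ = 4 * (1 + e) ^ 4 * (q * σ + η * δ) ^ 2 := by ring
      _ ≤ 4 * (1 + e) ^ 4 * (V / (2 * Real.pi) * (4 * E)) := by gcongr
      _ = (1 + e) ^ 4 * (8 / Real.pi * E) * V := by field_simp; ring
      _ ≤ (1 + e) ^ 4 * (8 / Real.pi * E) * w := by gcongr; linarith
  have h7 : ((1 - 2 * e) * (1 - e)) ^ 2 * w ≤ (1 + e) ^ 4 * (8 / Real.pi * E) := by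
    have : ((1 - 2 * e) * (1 - e)) ^ 2 * w * w ≤ (1 + e) ^ 4 * (8 / Real.pi * E) * w := by
      calc _ = ((1 - 2 * e) * (1 - e)) ^ 2 * w ^ 2 := by ring
        _ ≤ _ := h6
    exact le_of_mul_le_mul_right this hwpos
  have h8 := numeric he0 he1
  have h9 : ((1 - 2 * e) * (1 - e)) ^ 2 * w ≤
      ((1 - 2 * e) * (1 - e)) ^ 2 * ((1 + ε) * (8 / Real.pi) * E) := by
    calc _ ≤ (1 + e) ^ 4 * (8 / Real.pi * E) := h7
      _ ≤ (1 + 100 * e) * ((1 - 2 * e) * (1 - e)) ^ 2 * (8 / Real.pi * E) := by gcongr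
      _ = _ := by
        have : 100 * e = ε := by rw [he]; ring
        rw [this]; ring
  refine le_of_mul_le_mul_left h9 ?_
  have : 0 < 1 - 2 * e := by linarith
  have : 0 < 1 - e := by linarith
  positivity

end GSL

end

section

/-!
# MP_327059_nt : estimate of the coefficients of an exponential polynomial
-/

open Polynomial Filter Topology Set

namespace GSL

namespace Coef

lemma iteratedDeriv_eval (P : ℂ[X]) (k : ℕ) :
    iteratedDeriv k (fun z => P.eval z) = fun z => (derivative^[k] P).eval z := by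
  induction k with
  | zero => simp
  | succ n ih =>
    rw [iteratedDeriv_succ, ih]
    funext z
    rw [Function.iterate_succ_apply']
    exact Polynomial.deriv _

lemma deriv_monexp (j k : ℕ) (x : ℂ) :
    iteratedDeriv j (fun z : ℂ => z ^ k * Complex.exp (x * z)) 0 =
      (j.descFactorial k : ℂ) * x ^ (j - k) := by
  rw [iteratedDeriv_fun_mul (by fun_prop) (by fun_prop)]
  simp only [iteratedDeriv_fun_pow_zero, iteratedDeriv_cexp_const_mul, mul_zero, Complex.exp_zero,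
    mul_one]
  by_cases hjk : k ≤ j
  · rw [Finset.sum_eq_single k]
    · rw [if_pos rfl, Nat.descFactorial_eq_factorial_mul_choose]
      push_cast
      ring
    · intro i _ hi
      rw [if_neg hi, Nat.cast_zero, mul_zero, zero_mul]
    · intro hk
      exact absurd (Finset.mem_range.2 (by omega)) hk
  · rw [Nat.descFactorial_eq_zero_iff_lt.2 (by omega), Nat.cast_zero, zero_mul]
    refine Finset.sum_eq_zero fun i hi => ?_
    have := Finset.mem_range.1 hi
    rw [if_neg (by omega), Nat.cast_zero, mul_zero, zero_mul]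

lemma eval_deriv (g : ℂ[X]) (N : ℕ) (hg : g.natDegree < N) (k : ℕ) (x : ℂ) :
    (derivative^[k] g).eval x =
      ∑ j ∈ Finset.range N, g.coeff j * ((j.descFactorial k : ℂ) * x ^ (j - k)) := by
  conv_lhs => rw [g.as_sum_range_C_mul_X_pow' hg]
  rw [Polynomial.iterate_derivative_sum, Polynomial.eval_finsetSum]
  refine Finset.sum_congr rfl fun j _ => ?_
  rw [Polynomial.iterate_derivative_C_mul, Polynomial.iterate_derivative_X_pow_eq_C_mul]
  simp

lemma coeff_bound (g : ℂ[X]) {r H : ℝ} (hr : 0 < r) (hg : ∀ z : ℂ, ‖z‖ ≤ r → ‖g.eval z‖ ≤ H)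
    (j : ℕ) : ‖g.coeff j‖ ≤ H / r ^ j := by
  have h1 := Complex.norm_iteratedDeriv_le_of_forall_mem_sphere_norm_le (c := 0) (R := r) (C := H)
    (f := fun z => g.eval z) j hr g.differentiable.diffContOnCl (fun z hz => hg z (by
      rw [mem_sphere_zero_iff_norm] at hz
      exact hz.le))
  rw [iteratedDeriv_eval] at h1
  simp only [← Polynomial.coeff_zero_eq_eval_zero, Polynomial.coeff_iterate_derivative,
    zero_add, Nat.descFactorial_self, nsmul_eq_mul, norm_mul, Complex.norm_natCast] at h1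
  have hf : (0 : ℝ) < j.factorial := by exact_mod_cast j.factorial_pos
  rw [mul_div_assoc] at h1
  exact le_of_mul_le_mul_left h1 hf

end Coef

open Coef

theorem coef : StmtCoef := by
  intro ι _ _ x T h r₁ S₁ B H hT hS hr hN hdeg hh hH hB p hp i k
  set N := T * Fintype.card ι with hNdef
  set F : ℂ → ℂ := fun z => ∑ i, ∑ k : Fin T, p i k * z ^ (k : ℕ) * Complex.exp (x i * z) with hF
  set g := h i k with hg
  have hgdeg : g.natDegree < N := hdeg i k k.2
  have hFd : ∀ j : ℕ, iteratedDeriv j F 0 =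
      ∑ i', ∑ k' : Fin T, p i' k' * ((j.descFactorial k' : ℂ) * x i' ^ (j - (k' : ℕ))) := by
    intro j
    rw [hF, iteratedDeriv_fun_sum (fun _ _ => by fun_prop)]
    refine Finset.sum_congr rfl fun i' _ => ?_
    rw [iteratedDeriv_fun_sum (fun _ _ => by fun_prop)]
    refine Finset.sum_congr rfl fun k' _ => ?_
    rw [← deriv_monexp, ← iteratedDeriv_const_mul_field]
    congr 1
    funext z
    ring
  have key : p i k = ∑ j ∈ Finset.range N, g.coeff j * iteratedDeriv j F 0 := by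
    have e1 : ∑ i', ∑ k' : Fin T, p i' k' * (derivative^[(k' : ℕ)] g).eval (x i') = p i k := by
      rw [Finset.sum_eq_single i]
      · rw [Finset.sum_eq_single k]
        · rw [hg, hh i k k.2 i k k.2, if_pos ⟨rfl, rfl⟩, mul_one]
        · intro k' _ hk'
          rw [hg, hh i k k.2 i k' k'.2, if_neg, mul_zero]
          rintro ⟨-, h2⟩
          exact hk' (Fin.ext h2)
        · intro hk
          exact absurd (Finset.mem_univ k) hk
      · intro i' _ hi'
        refine Finset.sum_eq_zero fun k' _ => ?_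
        rw [hg, hh i k k.2 i' k' k'.2, if_neg, mul_zero]
        rintro ⟨h1, -⟩
        exact hi' h1
      · intro hi
        exact absurd (Finset.mem_univ i) hi
    rw [← e1]
    simp only [hFd, eval_deriv g N hgdeg, Finset.mul_sum]
    have : ∀ i' : ι, ∑ k' : Fin T, ∑ j ∈ Finset.range N,
        p i' k' * (g.coeff j * ((j.descFactorial k' : ℂ) * x i' ^ (j - (k' : ℕ)))) =
        ∑ j ∈ Finset.range N, ∑ k' : Fin T,
        g.coeff j * (p i' k' * ((j.descFactorial k' : ℂ) * x i' ^ (j - (k' : ℕ)))) := by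
      intro i'
      rw [Finset.sum_comm]
      refine Finset.sum_congr rfl fun j _ => Finset.sum_congr rfl fun k' _ => ?_
      ring
    rw [Finset.sum_congr rfl fun i' _ => this i']
    exact Finset.sum_comm
  have hH0 : 0 ≤ H := (norm_nonneg _).trans (hH i k k.2 0 (by simpa using hr.le))
  have hFb : ∀ j : ℕ, ‖iteratedDeriv j F 0‖ ≤ j.factorial * B / S₁ ^ j := by
    intro j
    have hFdiff : Differentiable ℂ F := by
      rw [hF]
      fun_prop
    refine Complex.norm_iteratedDeriv_le_of_forall_mem_sphere_norm_le j hS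
      hFdiff.diffContOnCl fun z hz => ?_
    rw [mem_sphere_zero_iff_norm] at hz
    exact hp z hz.le
  rw [key]
  calc ‖∑ j ∈ Finset.range N, g.coeff j * iteratedDeriv j F 0‖
      ≤ ∑ j ∈ Finset.range N, B * H := by
        refine norm_sum_le_of_le _ fun j hj => ?_
        rw [norm_mul]
        have h1 := coeff_bound g hr (fun z hz => hH i k k.2 z hz) j
        have h2 := hFb j
        have h3 : (j.factorial : ℝ) ≤ (r₁ * S₁) ^ j := by
          have hjN : (j : ℝ) ≤ r₁ * S₁ := by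
            refine le_trans ?_ hN
            have := Finset.mem_range.1 hj
            exact_mod_cast this.le
          calc (j.factorial : ℝ) ≤ (j : ℝ) ^ j := by exact_mod_cast Nat.factorial_le_pow j
            _ ≤ _ := pow_le_pow_left₀ (by positivity) hjN j
        calc ‖g.coeff j‖ * ‖iteratedDeriv j F 0‖ ≤ (H / r₁ ^ j) * (j.factorial * B / S₁ ^ j) :=
              mul_le_mul h1 h2 (norm_nonneg _) (by positivity)
          _ = B * H * (j.factorial / (r₁ * S₁) ^ j) := by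
              rw [mul_pow]
              field_simp
          _ ≤ B * H * 1 := by
              refine mul_le_mul_of_nonneg_left ?_ (by positivity)
              rw [div_le_one (by positivity)]
              exact h3
          _ = B * H := mul_one _
    _ = T * Fintype.card ι * B * H := by
        rw [Finset.sum_const, Finset.card_range, nsmul_eq_mul, hNdef]
        push_cast
        ring

end GSL

end

section

/-!
# MP_327059_nt : products of roots times the leading coefficient are integral (Dedekind)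
-/

open Polynomial

namespace GSL

namespace Ded

/-- leading coefficient times a root is integral -/
theorem lead_mul (f : ℂ[X]) (hf : ∀ i, IsIntegral ℤ (f.coeff i)) (y : ℂ) (hy : f.eval y = 0) :
    IsIntegral ℤ (f.leadingCoeff * y) := by
  have h1 : f ∈ Polynomial.lifts (algebraMap (integralClosure ℤ ℂ) ℂ) := by
    rw [Polynomial.lifts_iff_coeff_lifts]
    intro n
    exact ⟨⟨f.coeff n, hf n⟩, rfl⟩
  obtain ⟨F, hF⟩ := (Polynomial.mem_lifts f).1 h1
  have h2 : aeval y F = 0 := by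
    rw [aeval_def, ← eval_map, hF, hy]
  have h3 := isIntegral_leadingCoeff_smul (R := integralClosure ℤ ℂ) F y h2
  have h4 : F.leadingCoeff • y = f.leadingCoeff * y := by
    rw [← hF, leadingCoeff_map_of_injective (FaithfulSMul.algebraMap_injective _ _)]
    rfl
  rw [h4] at h3
  exact isIntegral_trans (R := ℤ) _ h3

theorem coeff_aux (a y : ℂ) (n i : ℕ) :
    (C a * X ^ n * (X - C y)).coeff i =
      (if i = n + 1 then a else 0) - (if i = n then a * y else 0) := by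
  have e : C a * X ^ n * (X - C y) = C a * X ^ (n + 1) - C (a * y) * X ^ n := by
    rw [C_mul]; ring
  rw [e, coeff_sub, coeff_C_mul_X_pow, coeff_C_mul_X_pow]

/-- Dedekind's lemma -/
theorem ded1 : ∀ (n : ℕ) (f : ℂ[X]), f.natDegree ≤ n → (∀ i, IsIntegral ℤ (f.coeff i)) →
    ∀ y : ℂ, f.eval y = 0 → ∃ g : ℂ[X], (∀ i, IsIntegral ℤ (g.coeff i)) ∧ f = (X - C y) * g := by
  intro n
  induction n with
  | zero =>
    intro f hn _ y hy
    obtain ⟨c, hc⟩ := natDegree_eq_zero.1 (Nat.le_zero.1 hn)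
    rw [← hc, eval_C] at hy
    refine ⟨0, fun i => by simpa using isIntegral_zero, ?_⟩
    rw [← hc, hy]
    simp
  | succ n ih =>
    intro f hn hf y hy
    by_cases hlt : f.natDegree ≤ n
    · exact ih f hlt hf y hy
    have hd : f.natDegree = n + 1 := by omega
    have hay := lead_mul f hf y hy
    set a := f.leadingCoeff with ha
    have hac : f.coeff (n + 1) = a := by rw [ha, leadingCoeff, hd]
    set f1 := f - C a * X ^ n * (X - C y) with hf1
    have h1 : f1.natDegree ≤ n := by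
      rw [natDegree_le_iff_coeff_eq_zero]
      intro k hk
      rw [hf1, coeff_sub, coeff_aux]
      rcases Nat.lt_or_ge (n + 1) k with h | h
      · rw [coeff_eq_zero_of_natDegree_lt (by omega), if_neg (by omega), if_neg (by omega)]
        simp
      · have hk' : k = n + 1 := by omega
        subst hk'
        rw [if_pos rfl, if_neg (by omega), hac]
        simp
    have h2 : ∀ i, IsIntegral ℤ (f1.coeff i) := by
      intro i
      rw [hf1, coeff_sub, coeff_aux]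
      refine (hf i).sub (IsIntegral.sub ?_ ?_)
      · split_ifs
        · rw [← hac]; exact hf _
        · exact isIntegral_zero
      · split_ifs
        · exact hay
        · exact isIntegral_zero
    have h3 : f1.eval y = 0 := by
      rw [hf1]
      simp [hy]
    obtain ⟨g1, hg1, hfg⟩ := ih f1 h1 h2 y h3
    refine ⟨g1 + C a * X ^ n, fun i => ?_, ?_⟩
    · rw [coeff_add, coeff_C_mul_X_pow]
      refine (hg1 i).add ?_
      split_ifs
      · rw [← hac]; exact hf _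
      · exact isIntegral_zero
    · rw [mul_add, ← hfg, hf1]
      ring

theorem sub_prod {ι : Type} [Fintype ι] [DecidableEq ι] (a : ℂ) (x : ι → ℂ)
    (h : ∀ i, IsIntegral ℤ ((C a * ∏ r, (X - C (x r))).coeff i)) (B : Finset ι) :
    ∀ i, IsIntegral ℤ ((C a * ∏ r ∈ Bᶜ, (X - C (x r))).coeff i) := by
  induction B using Finset.induction_on with
  | empty => simpa using h
  | insert b B hb ih =>
    have hbc : b ∈ Bᶜ := by simpa using hb
    have e : (insert b B)ᶜ = Bᶜ.erase b := by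
      ext r
      simp [not_or]
    have e2 : C a * ∏ r ∈ Bᶜ, (X - C (x r)) =
        (X - C (x b)) * (C a * ∏ r ∈ (insert b B)ᶜ, (X - C (x r))) := by
      rw [e, ← Finset.mul_prod_erase _ _ hbc]
      ring
    have h0 : (C a * ∏ r ∈ Bᶜ, (X - C (x r))).eval (x b) = 0 := by
      rw [e2]
      simp
    obtain ⟨g, hg, hfg⟩ := ded1 _ _ le_rfl ih (x b) h0
    rw [e2] at hfg
    have h1 := mul_left_cancel₀ (X_sub_C_ne_zero (x b)) hfg
    rw [h1]
    exact hg

theorem lead_prod {ι : Type} [Fintype ι] [DecidableEq ι] (a : ℂ) (x : ι → ℂ)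
    (h : ∀ i, IsIntegral ℤ ((C a * ∏ r, (X - C (x r))).coeff i)) (A : Finset ι) :
    IsIntegral ℤ (a * ∏ r ∈ A, x r) := by
  have h1 := sub_prod a x h Aᶜ 0
  rw [compl_compl, coeff_zero_eq_eval_zero, eval_mul, eval_C, eval_prod] at h1
  simp only [eval_sub, eval_X, eval_C, zero_sub] at h1
  rw [Finset.prod_neg] at h1
  have h2 : IsIntegral ℤ (((-1 : ℂ)) ^ A.card) := (isIntegral_one.neg).pow _
  have h3 := h2.mul h1
  have e : (-1 : ℂ) ^ A.card * (a * ((-1) ^ A.card * ∏ r ∈ A, x r)) = a * ∏ r ∈ A, x r := by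
    have : (-1 : ℂ) ^ A.card * (-1) ^ A.card = 1 := by
      rw [← mul_pow]; norm_num
    calc (-1 : ℂ) ^ A.card * (a * ((-1) ^ A.card * ∏ r ∈ A, x r))
        = ((-1 : ℂ) ^ A.card * (-1) ^ A.card) * (a * ∏ r ∈ A, x r) := by ring
      _ = _ := by rw [this, one_mul]
  rw [e] at h3
  exact h3

theorem monom {ι : Type} [Fintype ι] [DecidableEq ι] (a : ℂ) (x : ι → ℂ)
    (h : ∀ i, IsIntegral ℤ ((C a * ∏ r, (X - C (x r))).coeff i)) (m : ℕ) (e : ι → ℕ)
    (he : ∀ r, e r ≤ m) : IsIntegral ℤ (a ^ m * ∏ r, x r ^ e r) := by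
  have e1 : a ^ m * ∏ r, x r ^ e r =
      ∏ j ∈ Finset.range m, (a * ∏ r ∈ Finset.univ.filter (fun r => j < e r), x r) := by
    rw [Finset.prod_mul_distrib, Finset.prod_const, Finset.card_range]
    congr 1
    have h1 : ∀ j, ∏ r ∈ Finset.univ.filter (fun r => j < e r), x r =
        ∏ r, (if j < e r then x r else 1) := fun j => by rw [Finset.prod_filter]
    simp only [h1]
    rw [Finset.prod_comm]
    refine Finset.prod_congr rfl fun r _ => ?_
    rw [← Finset.prod_filter, Finset.prod_const]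
    congr 1
    have h2 : (Finset.range m).filter (fun j => j < e r) = Finset.range (e r) := by
      ext j
      simp only [Finset.mem_filter, Finset.mem_range]
      have := he r
      omega
    rw [h2, Finset.card_range]
  rw [e1]
  exact IsIntegral.prod _ fun j _ => lead_prod a x h _

end Ded

theorem ded : StmtDed := by
  classical
  intro P hP _ ι _ x hx m G hG hd
  have h : ∀ i, IsIntegral ℤ ((C P.leadingCoeff * ∏ r, (X - C (x r))).coeff i) := by
    rw [← hx]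
    exact hP
  rw [MvPolynomial.eval_eq', Finset.mul_sum]
  refine IsIntegral.sum _ fun e he => ?_
  have e1 : P.leadingCoeff ^ m * (G.coeff e * ∏ r, x r ^ e r) =
      G.coeff e * (P.leadingCoeff ^ m * ∏ r, x r ^ e r) := by ring
  rw [e1]
  refine (hG e).mul (Ded.monom _ x h m (fun r => e r) fun r => ?_)
  exact (MvPolynomial.degreeOf_le_iff.1 (hd r)) e he

end GSL

end

section

/-!
# MP_327059_nt : item Diff
-/

open Polynomial

namespace GSL

namespace Diff

lemma circ_bound {S : ℕ} {p : ℤ × ℤ} (hp : p ∈ circ S) :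
    |(p.1 : ℝ)| ≤ S ∧ |(p.2 : ℝ)| ≤ S := by
  simp only [circ, Finset.mem_filter, Finset.mem_product, Finset.mem_Icc] at hp
  obtain ⟨⟨⟨h1, h2⟩, h3, h4⟩, -⟩ := hp
  constructor
  · rw [abs_le]
    constructor
    · exact_mod_cast h1
    · exact_mod_cast h2
  · rw [abs_le]
    constructor
    · exact_mod_cast h3
    · exact_mod_cast h4

lemma wv_bound (t : ℤ) (β : ℂ) {S : ℕ} {p : ℤ × ℤ} (hp : p ∈ circ S) :
    ‖wv β p‖ ≤ (1 + |(t : ℝ)| + ‖β‖) * S := by
  obtain ⟨h1, h2⟩ := circ_bound hp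
  have h3 : ‖wv β p‖ ≤ |(p.1 : ℝ)| + |(p.2 : ℝ)| * ‖β‖ := by
    unfold wv
    refine (norm_add_le _ _).trans ?_
    rw [norm_mul, Complex.norm_intCast, Complex.norm_intCast]
  have hb : 0 ≤ ‖β‖ := norm_nonneg _
  have ht : 0 ≤ |(t : ℝ)| := abs_nonneg _
  have hS : (0 : ℝ) ≤ S := Nat.cast_nonneg _
  have h4 : |(p.2 : ℝ)| * ‖β‖ ≤ S * ‖β‖ := mul_le_mul_of_nonneg_right h2 hb
  nlinarith [mul_nonneg ht hS]

lemma zv_bound (t : ℤ) (β : ℂ) {S : ℕ} {p : ℤ × ℤ} (hp : p ∈ circ S) :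
    ‖zv t β p‖ ≤ (1 + |(t : ℝ)| + ‖β‖) * S := by
  obtain ⟨h1, h2⟩ := circ_bound hp
  have h3 : ‖zv t β p‖ ≤ |(p.2 : ℝ)| + |(t : ℝ)| * |(p.1 : ℝ)| + |(p.1 : ℝ)| * ‖β‖ := by
    unfold zv
    refine (norm_add_le _ _).trans ?_
    refine add_le_add ((norm_sub_le _ _).trans ?_) ?_
    · rw [norm_mul, Complex.norm_intCast, Complex.norm_intCast, Complex.norm_intCast]
    · rw [norm_mul, Complex.norm_intCast]
  have hb : 0 ≤ ‖β‖ := norm_nonneg _
  have ht : 0 ≤ |(t : ℝ)| := abs_nonneg _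
  have h4 : |(p.1 : ℝ)| * ‖β‖ ≤ S * ‖β‖ := mul_le_mul_of_nonneg_right h1 hb
  have h5 : |(t : ℝ)| * |(p.1 : ℝ)| ≤ |(t : ℝ)| * S := mul_le_mul_of_nonneg_left h1 ht
  nlinarith

lemma pow_sub_bound (a b : ℂ) (M : ℝ) (hM : 1 ≤ M) (ha : ‖a‖ ≤ M) (hb : ‖b‖ ≤ M) (j : ℕ) :
    ‖a ^ j - b ^ j‖ ≤ j * M ^ j * ‖a - b‖ := by
  induction j with
  | zero => simp
  | succ j ih =>
    have h1 : a ^ (j + 1) - b ^ (j + 1) = a * (a ^ j - b ^ j) + (a - b) * b ^ j := by ring
    rw [h1]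
    refine (norm_add_le _ _).trans ?_
    rw [norm_mul, norm_mul, norm_pow]
    have h0 : 0 ≤ ‖a - b‖ := norm_nonneg _
    have hM0 : 0 ≤ M := by linarith
    have h2 : ‖a‖ * ‖a ^ j - b ^ j‖ ≤ M * (j * M ^ j * ‖a - b‖) :=
      mul_le_mul ha ih (norm_nonneg _) hM0
    have h3 : ‖a - b‖ * ‖b‖ ^ j ≤ ‖a - b‖ * M ^ (j + 1) := by
      refine mul_le_mul_of_nonneg_left ?_ h0
      exact (pow_le_pow_left₀ (norm_nonneg _) hb j).trans (pow_le_pow_right₀ hM (Nat.le_succ j))
    push_cast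
    calc _ ≤ M * (j * M ^ j * ‖a - b‖) + ‖a - b‖ * M ^ (j + 1) := add_le_add h2 h3
      _ = _ := by ring

lemma coef_bound (ζ : ℂ) (lam tau k : ℕ) (R : ℝ) (hR : 1 ≤ R) (hz : ‖ζ‖ ≤ R)
    (hl : (lam : ℝ) ≤ R ^ 2) (hk : k ≤ tau) :
    ‖(tau.choose k : ℂ) * (lam.descFactorial k : ℂ) * ζ ^ (lam - k)‖ ≤
      (tau.choose k : ℝ) * ((R ^ 2) ^ tau * R ^ lam) := by
  rw [norm_mul, norm_mul, norm_pow, Complex.norm_natCast, Complex.norm_natCast, mul_assoc]
  refine mul_le_mul_of_nonneg_left ?_ (Nat.cast_nonneg _)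
  have hR2 : 1 ≤ R ^ 2 := one_le_pow₀ hR
  refine mul_le_mul ?_ ?_ (by positivity) (by positivity)
  · calc ((lam.descFactorial k : ℕ) : ℝ) ≤ ((lam ^ k : ℕ) : ℝ) := by
          exact_mod_cast Nat.descFactorial_le_pow lam k
      _ = (lam : ℝ) ^ k := by push_cast; ring
      _ ≤ (R ^ 2) ^ k := pow_le_pow_left₀ (Nat.cast_nonneg _) hl k
      _ ≤ (R ^ 2) ^ tau := pow_le_pow_right₀ hR2 hk
  · exact (pow_le_pow_left₀ (norm_nonneg _) hz _).trans
      (pow_le_pow_right₀ hR (Nat.sub_le _ _))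

lemma ent0_bound (X w ζ : ℂ) (lam tau : ℕ) (R M : ℝ) (hR : 1 ≤ R) (hM : 1 ≤ M)
    (hw : ‖w‖ ≤ R) (hz : ‖ζ‖ ≤ R) (hX : ‖X‖ ≤ M) (hl : (lam : ℝ) ≤ R ^ 2) :
    ‖ent0 X w ζ lam tau‖ ≤ (2 * M * R ^ 3) ^ tau * R ^ lam := by
  unfold ent0
  have hRM : 1 ≤ R * M := one_le_mul_of_one_le_of_one_le hR hM
  calc ‖∑ k ∈ Finset.range (tau + 1), (tau.choose k : ℂ) * (lam.descFactorial k : ℂ) *
        ζ ^ (lam - k) * (w * X) ^ (tau - k)‖
      ≤ ∑ k ∈ Finset.range (tau + 1), (tau.choose k : ℝ) *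
          ((R ^ 2) ^ tau * R ^ lam * (R * M) ^ tau) := by
        refine norm_sum_le_of_le _ fun k hk => ?_
        have hk' : k ≤ tau := Nat.lt_succ_iff.mp (Finset.mem_range.mp hk)
        rw [norm_mul, ← mul_assoc]
        refine mul_le_mul (coef_bound ζ lam tau k R hR hz hl hk') ?_ (norm_nonneg _)
          (by positivity)
        rw [norm_pow]
        refine (pow_le_pow_left₀ (norm_nonneg _) ?_ _).trans
          (pow_le_pow_right₀ hRM (Nat.sub_le _ _))
        rw [norm_mul]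
        exact mul_le_mul hw hX (norm_nonneg _) (by linarith)
    _ = 2 ^ tau * ((R ^ 2) ^ tau * R ^ lam * (R * M) ^ tau) := by
        rw [← Finset.sum_mul]
        congr 1
        exact_mod_cast Nat.sum_range_choose tau
    _ = (2 * M * R ^ 3) ^ tau * R ^ lam := by
        rw [show 2 * M * R ^ 3 = 2 * (R ^ 2 * (R * M)) by ring, mul_pow, mul_pow]
        ring

lemma ent0_sub_bound (X X' w ζ : ℂ) (lam tau : ℕ) (R M : ℝ) (hR : 1 ≤ R) (hM : 1 ≤ M)
    (hw : ‖w‖ ≤ R) (hz : ‖ζ‖ ≤ R) (hX : ‖X‖ ≤ M) (hX' : ‖X'‖ ≤ M) (hl : (lam : ℝ) ≤ R ^ 2) :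
    ‖ent0 X w ζ lam tau - ent0 X' w ζ lam tau‖ ≤
      ‖X - X'‖ * tau * ((2 * M * R ^ 3) ^ tau * R ^ lam) := by
  unfold ent0
  rw [← Finset.sum_sub_distrib]
  have hR0 : 0 ≤ R := by linarith
  have hM0 : 0 ≤ M := by linarith
  have h0 : 0 ≤ ‖X - X'‖ := norm_nonneg _
  calc ‖∑ k ∈ Finset.range (tau + 1), ((tau.choose k : ℂ) * (lam.descFactorial k : ℂ) *
        ζ ^ (lam - k) * (w * X) ^ (tau - k) - (tau.choose k : ℂ) * (lam.descFactorial k : ℂ) *
        ζ ^ (lam - k) * (w * X') ^ (tau - k))‖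
      ≤ ∑ k ∈ Finset.range (tau + 1), (tau.choose k : ℝ) *
          ((R ^ 2) ^ tau * R ^ lam * (R ^ tau * (tau * M ^ tau * ‖X - X'‖))) := by
        refine norm_sum_le_of_le _ fun k hk => ?_
        have hk' : k ≤ tau := Nat.lt_succ_iff.mp (Finset.mem_range.mp hk)
        rw [← mul_sub, norm_mul, ← mul_assoc]
        refine mul_le_mul (coef_bound ζ lam tau k R hR hz hl hk') ?_ (norm_nonneg _)
          (by positivity)
        rw [mul_pow, mul_pow, ← mul_sub, norm_mul, norm_pow]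
        refine mul_le_mul ?_ ?_ (norm_nonneg _) (by positivity)
        · exact (pow_le_pow_left₀ (norm_nonneg _) hw _).trans
            (pow_le_pow_right₀ hR (Nat.sub_le _ _))
        · refine (pow_sub_bound X X' M hM hX hX' (tau - k)).trans ?_
          refine mul_le_mul_of_nonneg_right ?_ h0
          refine mul_le_mul ?_ (pow_le_pow_right₀ hM (Nat.sub_le _ _)) (by positivity)
            (Nat.cast_nonneg _)
          exact_mod_cast Nat.sub_le _ _
    _ = 2 ^ tau * ((R ^ 2) ^ tau * R ^ lam * (R ^ tau * (tau * M ^ tau * ‖X - X'‖))) := by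
        rw [← Finset.sum_mul]
        congr 1
        exact_mod_cast Nat.sum_range_choose tau
    _ = ‖X - X'‖ * tau * ((2 * M * R ^ 3) ^ tau * R ^ lam) := by
        rw [show 2 * M * R ^ 3 = 2 * (R ^ 2 * (R * M)) by ring, mul_pow, mul_pow, mul_pow]
        ring

/-- The estimate of the difference for one entry. -/
lemma entry_bound (l l' e' X w ζ : ℂ) (lam tau : ℕ) (R M C δ : ℝ) (hR : 1 ≤ R) (hM : 1 ≤ M)
    (hC : 0 < C) (hδ : 0 ≤ δ) (hw : ‖w‖ ≤ R) (hz : ‖ζ‖ ≤ R) (hX : ‖X‖ ≤ M) (hl0 : ‖l‖ ≤ M)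
    (hl : (lam : ℝ) ≤ R ^ 2) (ht : (tau : ℝ) ≤ 2 * R ^ 2) (hXl : ‖l - X‖ ≤ C * (C + 1) * δ)
    (hll : ‖l' - l‖ ≤ C * δ) (he : ‖e'‖ ≤ C * δ) (hsm : R ^ 2 * (2 * C * δ) ≤ 1) :
    ‖ent0 l w ζ lam tau * Complex.exp (w * ζ * l) - ent0 X w ζ lam tau *
      Complex.exp (w * ζ * l' + starRingEnd ℂ w * starRingEnd ℂ ζ * e')‖ ≤
      δ * (((2 * M * R ^ 3) ^ tau * R ^ lam) * Real.exp (R ^ 2 * ‖l‖) *
        (2 * C * (C + 3) * R ^ 2)) := by
  set Bd := (2 * M * R ^ 3) ^ tau * R ^ lam with hBd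
  have hR0 : 0 ≤ R := by linarith
  have hM0 : 0 ≤ M := by linarith
  have hBd0 : 0 ≤ Bd := by positivity
  set u : ℂ := w * ζ * (l' - l) + starRingEnd ℂ w * starRingEnd ℂ ζ * e' with hu
  have hwz : ‖w * ζ‖ ≤ R ^ 2 := by
    rw [norm_mul, sq]
    exact mul_le_mul hw hz (norm_nonneg _) hR0
  have hwz' : ‖starRingEnd ℂ w * starRingEnd ℂ ζ‖ ≤ R ^ 2 := by
    rw [norm_mul, RCLike.norm_conj, RCLike.norm_conj, ← norm_mul]
    exact hwz
  have hun : ‖u‖ ≤ R ^ 2 * (2 * C * δ) := by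
    rw [hu]
    refine (norm_add_le _ _).trans ?_
    rw [norm_mul (w * ζ), norm_mul (starRingEnd ℂ w * starRingEnd ℂ ζ)]
    have h1 : ‖w * ζ‖ * ‖l' - l‖ ≤ R ^ 2 * (C * δ) :=
      mul_le_mul hwz hll (norm_nonneg _) (by positivity)
    have h2 : ‖starRingEnd ℂ w * starRingEnd ℂ ζ‖ * ‖e'‖ ≤ R ^ 2 * (C * δ) :=
      mul_le_mul hwz' he (norm_nonneg _) (by positivity)
    linarith
  have hE : ‖Complex.exp (w * ζ * l)‖ ≤ Real.exp (R ^ 2 * ‖l‖) := by
    refine (Complex.norm_exp_le_exp_norm _).trans (Real.exp_le_exp.mpr ?_)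
    rw [norm_mul]
    exact mul_le_mul_of_nonneg_right hwz (norm_nonneg _)
  have hexp : Complex.exp (w * ζ * l' + starRingEnd ℂ w * starRingEnd ℂ ζ * e') =
      Complex.exp (w * ζ * l) * Complex.exp u := by
    rw [← Complex.exp_add]
    congr 1
    rw [hu]
    ring
  have hu1 : ‖Complex.exp u - 1‖ ≤ 2 * ‖u‖ := Complex.norm_exp_sub_one_le (hun.trans hsm)
  rw [hexp]
  have hsplit : ent0 l w ζ lam tau * Complex.exp (w * ζ * l) - ent0 X w ζ lam tau *
      (Complex.exp (w * ζ * l) * Complex.exp u) =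
      Complex.exp (w * ζ * l) * ((ent0 l w ζ lam tau - ent0 X w ζ lam tau) -
        ent0 X w ζ lam tau * (Complex.exp u - 1)) := by ring
  rw [hsplit, norm_mul]
  have h1 : ‖ent0 l w ζ lam tau - ent0 X w ζ lam tau‖ ≤ ‖l - X‖ * tau * Bd :=
    ent0_sub_bound l X w ζ lam tau R M hR hM hw hz hl0 hX hl
  have h2 : ‖ent0 X w ζ lam tau‖ ≤ Bd := ent0_bound X w ζ lam tau R M hR hM hw hz hX hl
  have h3 : ‖l - X‖ * tau * Bd ≤ (C * (C + 1) * δ) * (2 * R ^ 2) * Bd := by
    refine mul_le_mul_of_nonneg_right ?_ hBd0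
    exact mul_le_mul hXl ht (Nat.cast_nonneg _) (by positivity)
  have h4 : ‖ent0 X w ζ lam tau * (Complex.exp u - 1)‖ ≤ Bd * (2 * (R ^ 2 * (2 * C * δ))) := by
    rw [norm_mul]
    refine mul_le_mul h2 (hu1.trans ?_) (norm_nonneg _) hBd0
    linarith
  have h5 : ‖(ent0 l w ζ lam tau - ent0 X w ζ lam tau) -
        ent0 X w ζ lam tau * (Complex.exp u - 1)‖ ≤
      (C * (C + 1) * δ) * (2 * R ^ 2) * Bd + Bd * (2 * (R ^ 2 * (2 * C * δ))) :=
    (norm_sub_le _ _).trans (add_le_add (h1.trans h3) h4)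
  calc _ ≤ Real.exp (R ^ 2 * ‖l‖) *
        ((C * (C + 1) * δ) * (2 * R ^ 2) * Bd + Bd * (2 * (R ^ 2 * (2 * C * δ)))) :=
        mul_le_mul hE h5 (norm_nonneg _) (Real.exp_pos _).le
    _ = _ := by ring

end Diff

open Diff in
/-- Item Diff. -/
theorem diff (hN : StmtNear) : StmtDiff := by
  intro D θ hθ hθ1
  obtain ⟨r₀, C, hr0, hr1, hC, hnear⟩ := hN D
  set K : ℝ := 1 + |(D.t : ℝ)| + ‖D.β‖ with hK
  have hK1 : 1 ≤ K := by
    have h1 := abs_nonneg (D.t : ℝ)
    have h2 := norm_nonneg D.β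
    rw [hK]
    linarith
  set M : ℝ := 1 + ‖D.l‖ + 2 * C with hM
  have hl0 : 0 ≤ ‖D.l‖ := norm_nonneg _
  have hM1 : 1 ≤ M := by rw [hM]; linarith
  obtain ⟨S₁, hS₁⟩ := exists_nat_gt (3 + K + 2 * M + 2 * C * (C + 3) + 1 / r₀ + 2 * C * K ^ 2 +
    (21 + K ^ 2 * ‖D.l‖) / (2 * Real.pi * θ))
  have hpi := Real.pi_gt_three
  have hp1 : 0 ≤ 2 * C * (C + 3) := by positivity
  have hp2 : 0 ≤ 1 / r₀ := by positivity
  have hp3 : 0 ≤ 2 * C * K ^ 2 := by positivity
  have hp4 : 0 ≤ (21 + K ^ 2 * ‖D.l‖) / (2 * Real.pi * θ) := by positivity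
  refine ⟨S₁, ?_, ?_⟩
  · have : (1 : ℝ) < S₁ := by linarith
    exact_mod_cast this
  intro S L₀ T hS hL1 hL2 hT V' hV' γ hγ
  have hS' : (S₁ : ℝ) ≤ S := by exact_mod_cast hS
  set s : ℝ := (S : ℝ) with hs
  have hs3 : 3 ≤ s := by linarith
  have hsK : K ≤ s := by linarith
  have hsM : 2 * M ≤ s := by linarith
  have hsC : 2 * C * (C + 3) ≤ s := by linarith
  have hsr : 1 / r₀ ≤ s := by linarith
  have hsk : 2 * C * K ^ 2 ≤ s := by linarith
  have hst : (21 + K ^ 2 * ‖D.l‖) / (2 * Real.pi * θ) ≤ s := by linarith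
  have hs0 : 0 < s := by linarith
  set x : ℝ := Real.log s with hx
  have hx1 : 1 ≤ x := by
    rw [hx, Real.le_log_iff_exp_le hs0]
    exact (Real.exp_one_lt_d9.le.trans (by norm_num)).trans hs3
  have hL0 : (1 : ℝ) ≤ L₀ := by
    rcases Nat.eq_zero_or_pos L₀ with h | h
    · exfalso
      rw [h] at hL1
      simp only [Nat.cast_zero, zero_mul] at hL1
      have h0 : 0 < s ^ 2 := pow_pos hs0 2
      exact absurd hL1 (not_le.mpr h0)
    · exact_mod_cast h
  set L : ℝ := (L₀ : ℝ) with hL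
  have hVf : Vf S L₀ = 2 * Real.pi * s ^ 2 * L * x := rfl
  have hV4 : s ^ 4 ≤ V' := by
    refine le_trans ?_ hV'
    rw [hVf]
    have h1 : s ^ 2 * s ^ 2 ≤ s ^ 2 * (L * x) := mul_le_mul_of_nonneg_left hL1 (by positivity)
    have h2 : 0 ≤ s ^ 2 * (L * x) := by positivity
    have h3 : 1 * (s ^ 2 * (L * x)) ≤ (2 * Real.pi) * (s ^ 2 * (L * x)) :=
      mul_le_mul_of_nonneg_right (by linarith only [hpi]) h2
    calc s ^ 4 = s ^ 2 * s ^ 2 := by ring
      _ ≤ s ^ 2 * (L * x) := h1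
      _ = 1 * (s ^ 2 * (L * x)) := by ring
      _ ≤ (2 * Real.pi) * (s ^ 2 * (L * x)) := h3
      _ = _ := by ring
  have hexpV : Real.exp (-V') ≤ 1 / s ^ 4 := by
    rw [Real.exp_neg, inv_eq_one_div]
    refine one_div_le_one_div_of_le (by positivity) ?_
    have := Real.add_one_le_exp V'
    linarith
  have hV0 : Real.exp (-V') ≤ r₀ := by
    refine hexpV.trans ?_
    rw [div_le_iff₀ (by positivity)]
    have h1 : 1 ≤ s * r₀ := by
      rwa [div_le_iff₀ hr0] at hsr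
    have h2 : s ≤ s ^ 4 := by
      calc s = s ^ 1 := (pow_one s).symm
        _ ≤ s ^ 4 := pow_le_pow_right₀ (by linarith only [hs3]) (by norm_num)
    calc 1 ≤ s * r₀ := h1
      _ ≤ s ^ 4 * r₀ := mul_le_mul_of_nonneg_right h2 hr0.le
      _ = _ := by ring
  obtain ⟨hg0, hA0, -, -, l', e', sc, hXe, he, h1s, hs2, hl'C, hll, hform⟩ :=
    hnear γ (hγ.trans hV0)
  refine ⟨hg0, hA0, ?_⟩
  intro r c
  set δ : ℝ := Real.exp (-V') with hδ
  have hδ0 : 0 < δ := Real.exp_pos _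
  set R : ℝ := K * s with hR
  have hR1 : 1 ≤ R := one_le_mul_of_one_le_of_one_le hK1 (by linarith only [hs3])
  have hXl : ‖D.l - D.B₀.eval γ / D.A₀.eval γ‖ ≤ C * (C + 1) * δ := by
    rw [hXe]
    have h1 : D.l - sc * l' = (D.l - l') + (1 - sc) * l' := by ring
    rw [h1]
    refine (norm_add_le _ _).trans ?_
    rw [norm_sub_rev, norm_mul]
    have h2 : ‖l' - D.l‖ ≤ C * δ := hll.trans (mul_le_mul_of_nonneg_left hγ hC.le)
    have h3 : ‖1 - sc‖ ≤ C * δ := h1s.trans (mul_le_mul_of_nonneg_left hγ hC.le)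
    have h4 : ‖1 - sc‖ * ‖l'‖ ≤ C * δ * C :=
      mul_le_mul h3 hl'C (norm_nonneg _) (by positivity)
    calc _ ≤ C * δ + C * δ * C := add_le_add h2 h4
      _ = _ := by ring
  have hXM : ‖D.B₀.eval γ / D.A₀.eval γ‖ ≤ M := by
    rw [hXe, norm_mul]
    calc ‖sc‖ * ‖l'‖ ≤ 2 * C := mul_le_mul hs2 hl'C (norm_nonneg _) (by norm_num)
      _ ≤ M := by rw [hM]; linarith
  have hlam : ((r.1 : ℕ) : ℝ) ≤ L := by
    have := r.1.2
    rw [hL]
    exact_mod_cast this.le
  have htau : ((c.1 : ℕ) : ℝ) ≤ 2 * L := by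
    have := c.1.2
    refine le_trans ?_ hT
    exact_mod_cast this.le
  have hsR : s ^ 2 ≤ R ^ 2 := by
    rw [hR, mul_pow]
    exact le_mul_of_one_le_left (sq_nonneg s) (one_le_pow₀ hK1)
  have key := entry_bound D.l l' e' (D.B₀.eval γ / D.A₀.eval γ) (wv D.β r.2.1)
    (zv D.t D.β c.2.1) r.1 c.1 R M C δ hR1 hM1 hC hδ0.le (wv_bound D.t D.β r.2.2)
    (zv_bound D.t D.β c.2.2) hXM (by rw [hM]; linarith) ((hlam.trans hL2).trans hsR)
    (htau.trans (by linarith)) hXl (hll.trans (mul_le_mul_of_nonneg_left hγ hC.le))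
    (he.trans (mul_le_mul_of_nonneg_left hγ hC.le)) ?_
  · have hent : D.ent (D.B₀.eval γ / D.A₀.eval γ) γ r c =
        ent0 (D.B₀.eval γ / D.A₀.eval γ) (wv D.β r.2.1) (zv D.t D.β c.2.1) r.1 c.1 *
          Complex.exp (wv D.β r.2.1 * zv D.t D.β c.2.1 * l' +
          starRingEnd ℂ (wv D.β r.2.1) * starRingEnd ℂ (zv D.t D.β c.2.1) * e') := by
      unfold Dat.ent
      rw [hform]
    rw [hent]
    refine key.trans ?_
    rw [Real.exp_add]
    refine mul_le_mul_of_nonneg_left ?_ hδ0.le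
    have hR0 : 0 < R := by linarith
    have hlogR : Real.log R ≤ 2 * x := by
      rw [hR, Real.log_mul (by linarith) hs0.ne']
      have : Real.log K ≤ x := Real.log_le_log (by linarith) hsK
      linarith
    have hlogR0 : 0 ≤ Real.log R := Real.log_nonneg hR1
    have hpos : 0 < (2 * M * R ^ 3) ^ (c.1 : ℕ) * R ^ (r.1 : ℕ) * Real.exp (R ^ 2 * ‖D.l‖) *
        (2 * C * (C + 3) * R ^ 2) := by positivity
    rw [← Real.log_le_iff_le_exp hpos]
    have hM0 : 0 < M := by linarith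
    rw [Real.log_mul (by positivity) (by positivity), Real.log_mul (by positivity) (by positivity),
      Real.log_mul (by positivity) (by positivity), Real.log_exp, Real.log_pow, Real.log_pow,
      Real.log_mul (x := 2 * M) (by positivity) (by positivity), Real.log_pow,
      Real.log_mul (x := 2 * C * (C + 3)) (by positivity) (by positivity), Real.log_pow]
    have hlM : Real.log (2 * M) ≤ x := Real.log_le_log (by positivity) hsM
    have hlC : Real.log (2 * C * (C + 3)) ≤ x := Real.log_le_log (by positivity) hsC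
    have hLx : 0 ≤ L * x := by positivity
    have a1 : ((c.1 : ℕ) : ℝ) * (Real.log (2 * M) + ((3 : ℕ) : ℝ) * Real.log R) ≤
        2 * L * (x + 3 * (2 * x)) := by
      refine mul_le_mul htau ?_ ?_ (by positivity)
      · push_cast
        linarith
      · have : 0 ≤ Real.log (2 * M) := Real.log_nonneg (by linarith)
        push_cast
        positivity
    have a2 : ((r.1 : ℕ) : ℝ) * Real.log R ≤ L * (2 * x) :=
      mul_le_mul hlam hlogR hlogR0 (by positivity)
    have a3 : R ^ 2 * ‖D.l‖ ≤ K ^ 2 * ‖D.l‖ * (L * x) := by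
      rw [hR, mul_pow]
      have : K ^ 2 * s ^ 2 * ‖D.l‖ = K ^ 2 * ‖D.l‖ * s ^ 2 := by ring
      rw [this]
      exact mul_le_mul_of_nonneg_left hL1 (by positivity)
    have a4 : x ≤ L * x := le_mul_of_one_le_left (by linarith only [hx1]) hL0
    have a5 : (21 + K ^ 2 * ‖D.l‖) * (L * x) ≤ θ * Vf S L₀ := by
      rw [hVf]
      have h1 : 21 + K ^ 2 * ‖D.l‖ ≤ s * (2 * Real.pi * θ) := by
        rwa [div_le_iff₀ (by positivity)] at hst
      have h2 : s ≤ s ^ 2 := le_self_pow₀ (by linarith only [hs3]) (by norm_num)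
      calc (21 + K ^ 2 * ‖D.l‖) * (L * x) ≤ (s * (2 * Real.pi * θ)) * (L * x) :=
            mul_le_mul_of_nonneg_right h1 hLx
        _ ≤ (s ^ 2 * (2 * Real.pi * θ)) * (L * x) := by
            refine mul_le_mul_of_nonneg_right ?_ hLx
            exact mul_le_mul_of_nonneg_right h2 (by positivity)
        _ = _ := by ring
    push_cast at a1 ⊢
    have a6 : 0 ≤ L * x := hLx
    linarith only [a1, a2, a3, a4, a5, hlC, hlogR]
  · have h1 : R ^ 2 * (2 * C * δ) ≤ R ^ 2 * (2 * C * (1 / s ^ 4)) := by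
      refine mul_le_mul_of_nonneg_left ?_ (by positivity)
      exact mul_le_mul_of_nonneg_left hexpV (by positivity)
    refine h1.trans ?_
    have h2 : R ^ 2 * (2 * C * (1 / s ^ 4)) = 2 * C * K ^ 2 / s ^ 2 := by
      rw [hR]
      field_simp
    rw [h2, div_le_one (by positivity)]
    exact hsk.trans (le_self_pow₀ (by linarith only [hs3]) (by norm_num))

end GSL

end

section

/-!
# MP_327059_nt : the discriminant inequality
-/

open Polynomial

namespace GSL

namespace Disc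

/-! ### Galois theory -/

section Gal

variable {K : Type*} [Field K] [Algebra K ℂ]

/-- The splitting field inside `ℂ`. -/
noncomputable abbrev EE (p : K[X]) : IntermediateField K ℂ :=
  IntermediateField.adjoin K (p.rootSet ℂ)

theorem gal_mem [CharZero K] (p : K[X]) (θ : EE p) (h : ∀ σ : EE p ≃ₐ[K] EE p, σ θ = θ) :
    (θ : ℂ) ∈ Set.range (algebraMap K ℂ) := by
  have hs : p.IsSplittingField K (EE p) :=
    IntermediateField.adjoin_rootSet_isSplittingField (IsAlgClosed.splits _)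
  have hn : Normal K (EE p) := Normal.of_isSplittingField p
  have hg : IsGalois K (EE p) := ⟨⟩
  have hx : θ ∈ Set.range (algebraMap K (EE p)) :=
    (InfiniteGalois.mem_range_algebraMap_iff_fixed θ).mpr h
  obtain ⟨k, hk⟩ := hx
  refine ⟨k, ?_⟩
  rw [← hk]
  rfl

theorem roots_E (p : K[X]) : ((p.map (algebraMap K (EE p))).roots).map (algebraMap (EE p) ℂ) =
    (p.map (algebraMap K ℂ)).roots := by
  have hs : p.IsSplittingField K (EE p) :=
    IntermediateField.adjoin_rootSet_isSplittingField (IsAlgClosed.splits _)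
  rw [← hs.splits.roots_map (algebraMap (EE p) ℂ), Polynomial.map_map,
    ← IsScalarTower.algebraMap_eq]

theorem roots_perm (p : K[X]) (σ : EE p ≃ₐ[K] EE p) :
    ((p.map (algebraMap K (EE p))).roots).map σ = (p.map (algebraMap K (EE p))).roots := by
  have hs : p.IsSplittingField K (EE p) :=
    IntermediateField.adjoin_rootSet_isSplittingField (IsAlgClosed.splits _)
  have h1 := hs.splits.roots_map (σ : EE p →+* EE p)
  have h2 : (p.map (algebraMap K (EE p))).map (σ : EE p →+* EE p) =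
      p.map (algebraMap K (EE p)) := by
    rw [Polynomial.map_map]
    congr 1
    ext x
    simp
  rw [h2] at h1
  exact h1.symm

end Gal

/-! ### Polynomials with coefficients in `ℤ[β]` -/

theorem lift_K {β : ℂ} (hField : StmtField) (h : IQ β) {P : ℂ[X]} (hP : PolyO β P) :
    ∃ P' : (Fb β)[X], P'.map (algebraMap (Fb β) ℂ) = P := by
  obtain ⟨h1, h2, -, -, -, -⟩ := hField β h
  have : P ∈ lifts (algebraMap (Fb β) ℂ) := by
    rw [lifts_iff_coeff_lifts]
    intro i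
    exact ⟨⟨P.coeff i, (h1 _).mpr (h2 _ (hP i)).2⟩, rfl⟩
  exact (mem_lifts P).mp this

/-! ### The product of the differences -/

/-- difference, `1` if equal -/
noncomputable def df {F : Type*} [Field F] [DecidableEq F] (a b : F) : F := if a = b then 1 else a - b

theorem df_map {F F' : Type*} [Field F] [Field F'] [DecidableEq F] [DecidableEq F'] (σ : F →+* F')
    (a b : F) : σ (df a b) = df (σ a) (σ b) := by
  unfold df
  by_cases h : a = b
  · rw [if_pos h, if_pos (by rw [h]), map_one]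
  · rw [if_neg h, if_neg (fun h' => h (σ.injective h')), map_sub]

/-- product of the differences -/
noncomputable def pd {F : Type*} [Field F] [DecidableEq F] (M : Multiset F) : F :=
  (M.map fun a => (M.map fun b => df a b).prod).prod

theorem pd_map {F F' : Type*} [Field F] [Field F'] [DecidableEq F] [DecidableEq F'] (σ : F →+* F')
    (M : Multiset F) : σ (pd M) = pd (M.map σ) := by
  unfold pd
  rw [map_multiset_prod, Multiset.map_map, Multiset.map_map]
  congr 1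
  refine Multiset.map_congr rfl fun a _ => ?_
  simp only [Function.comp_apply]
  rw [map_multiset_prod, Multiset.map_map, Multiset.map_map]
  congr 1
  refine Multiset.map_congr rfl fun b _ => ?_
  simp only [Function.comp_apply]
  exact df_map σ a b

theorem pd_mem {K : Type*} [Field K] [CharZero K] [Algebra K ℂ] [DecidableEq ℂ] (p : K[X]) :
    pd (p.map (algebraMap K ℂ)).roots ∈ Set.range (algebraMap K ℂ) := by
  classical
  have h1 : ((pd (p.map (algebraMap K (EE p))).roots : EE p) : ℂ) =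
      pd (p.map (algebraMap K ℂ)).roots := by
    rw [← roots_E p]
    exact pd_map (algebraMap (EE p) ℂ) _
  rw [← h1]
  refine gal_mem p _ fun σ => ?_
  have h2 := pd_map (σ : EE p →+* EE p) (p.map (algebraMap K (EE p))).roots
  have h3 := roots_perm p σ
  calc σ (pd (p.map (algebraMap K (EE p))).roots) =
        pd (Multiset.map (σ : EE p →+* EE p) (p.map (algebraMap K (EE p))).roots) := h2
    _ = pd (p.map (algebraMap K (EE p))).roots := by
        congr 1

theorem pd_fin [DecidableEq ℂ] {N : ℕ} (x : Fin N → ℂ) :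
    pd (Finset.univ.val.map x) = ∏ r, ∏ s, (if x r = x s then 1 else x r - x s) := by
  unfold pd df
  rw [Multiset.map_map]
  simp only [Finset.prod]
  congr 1
  refine Multiset.map_congr rfl fun a _ => ?_
  simp only [Function.comp_apply]
  rw [Multiset.map_map]
  rfl

theorem roots_fin {N : ℕ} (x : Fin N → ℂ) {P : ℂ[X]} (hP0 : P ≠ 0)
    (hP : P = C P.leadingCoeff * ∏ r, (X - C (x r))) : P.roots = Finset.univ.val.map x := by
  have h0 : P.leadingCoeff ≠ 0 := leadingCoeff_ne_zero.mpr hP0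
  have h1 : P.roots = (∏ r, (X - C (x r))).roots := by
    conv_lhs => rw [hP]
    exact roots_C_mul _ h0
  rw [h1, ← roots_multiset_prod_X_sub_C (Finset.univ.val.map x), Multiset.map_map]
  rfl

/-! ### Integrality -/

theorem degreeOf_factor {ι : Type} [DecidableEq ι] (c : Prop) [Decidable c] (i j k : ι) :
    MvPolynomial.degreeOf k (if c then (1 : MvPolynomial ι ℂ) else
      MvPolynomial.X i - MvPolynomial.X j) ≤ (if k = i then 1 else 0) + (if k = j then 1 else 0) := by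
  by_cases h1 : c
  · rw [if_pos h1, MvPolynomial.degreeOf_one]
    exact Nat.zero_le _
  · rw [if_neg h1]
    refine (MvPolynomial.degreeOf_sub_le _ _ _).trans ?_
    rw [MvPolynomial.degreeOf_X, MvPolynomial.degreeOf_X]
    exact max_le (Nat.le_add_right _ _) (Nat.le_add_left _ _)

/-- the polynomial of the differences -/
noncomputable def GG {N : ℕ} (R : Type) [CommRing R] (x : Fin N → ℂ) [DecidableEq ℂ] :
    MvPolynomial (Fin N) R :=
  ∏ r, ∏ s, (if x r = x s then 1 else MvPolynomial.X r - MvPolynomial.X s)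

theorem GG_map {N : ℕ} (x : Fin N → ℂ) [DecidableEq ℂ] :
    MvPolynomial.map (Int.castRingHom ℂ) (GG ℤ x) = GG ℂ x := by
  unfold GG
  rw [map_prod]
  refine Finset.prod_congr rfl fun r _ => ?_
  rw [map_prod]
  refine Finset.prod_congr rfl fun s _ => ?_
  by_cases h : x r = x s
  · rw [if_pos h, if_pos h, map_one]
  · rw [if_neg h, if_neg h, map_sub, MvPolynomial.map_X, MvPolynomial.map_X]

theorem GG_integral {N : ℕ} (x : Fin N → ℂ) [DecidableEq ℂ] (e : Fin N →₀ ℕ) :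
    IsIntegral ℤ ((GG ℂ x).coeff e) := by
  rw [← GG_map, MvPolynomial.coeff_map]
  exact isIntegral_algebraMap (R := ℤ) (A := ℂ)

theorem GG_degreeOf {N : ℕ} (x : Fin N → ℂ) [DecidableEq ℂ] (k : Fin N) :
    (GG ℂ x).degreeOf k ≤ 2 * N := by
  unfold GG
  refine (MvPolynomial.degreeOf_prod_le _ _ _).trans ?_
  have h1 : ∀ r ∈ (Finset.univ : Finset (Fin N)), MvPolynomial.degreeOf k
      (∏ s, (if x r = x s then (1 : MvPolynomial (Fin N) ℂ) else
        MvPolynomial.X r - MvPolynomial.X s)) ≤ ∑ s, ((if k = r then 1 else 0) +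
          (if k = s then 1 else 0)) := by
    intro r _
    refine (MvPolynomial.degreeOf_prod_le _ _ _).trans ?_
    exact Finset.sum_le_sum fun s _ => degreeOf_factor _ r s k
  refine (Finset.sum_le_sum h1).trans ?_
  simp only [Finset.sum_add_distrib, Finset.sum_const, Finset.card_univ, Fintype.card_fin,
    smul_eq_mul, Finset.sum_ite_eq, Finset.mem_univ, if_true]
  rw [← Finset.mul_sum]
  simp only [Finset.sum_ite_eq, Finset.mem_univ, if_true]
  omega

theorem GG_eval {N : ℕ} (x : Fin N → ℂ) [DecidableEq ℂ] :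
    MvPolynomial.eval x (GG ℂ x) = ∏ r, ∏ s, (if x r = x s then 1 else x r - x s) := by
  unfold GG
  rw [map_prod]
  refine Finset.prod_congr rfl fun r _ => ?_
  rw [map_prod]
  refine Finset.prod_congr rfl fun s _ => ?_
  by_cases h : x r = x s
  · rw [if_pos h, if_pos h, map_one]
  · rw [if_neg h, if_neg h, map_sub, MvPolynomial.eval_X, MvPolynomial.eval_X]

end Disc

theorem disc (hDed : StmtDed) (hField : StmtField) : StmtDisc := by
  classical
  intro β h P hP hP0 N x hPx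
  obtain ⟨h1, h2, -, -, h5, -⟩ := hField β h
  obtain ⟨P', hP'⟩ := Disc.lift_K hField h hP
  set pp : ℂ := ∏ r, ∏ s, (if x r = x s then 1 else x r - x s) with hpp
  have hpd : pp ∈ Kb β := by
    have h3 := Disc.pd_mem P'
    rw [hP', Disc.roots_fin x hP0 hPx, Disc.pd_fin, ← hpp] at h3
    obtain ⟨k, hk⟩ := h3
    rw [← h1, ← hk]
    exact k.2
  have hlead : P.leadingCoeff ∈ Kb β := (h2 _ (hP _)).2
  have hθK : P.leadingCoeff ^ (2 * N) * pp ∈ Kb β := by
    rw [← h1] at hlead hpd ⊢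
    exact (Fb β).mul_mem (_root_.pow_mem hlead (2 * N)) hpd
  have hθI : IsIntegral ℤ (P.leadingCoeff ^ (2 * N) * pp) := by
    have h6 := hDed P (fun i => (h2 _ (hP i)).1) hP0 (Fin N) x hPx (2 * N) (Disc.GG ℂ x)
      (Disc.GG_integral x) (Disc.GG_degreeOf x)
    rwa [Disc.GG_eval] at h6
  have hpp0 : ∀ r s, (if x r = x s then (1 : ℂ) else x r - x s) ≠ 0 := by
    intro r s
    by_cases h : x r = x s
    · rw [if_pos h]
      exact one_ne_zero
    · rw [if_neg h]
      exact sub_ne_zero.mpr h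
  have hl0 : P.leadingCoeff ≠ 0 := leadingCoeff_ne_zero.mpr hP0
  have hpne : pp ≠ 0 := Finset.prod_ne_zero_iff.mpr fun r _ =>
    Finset.prod_ne_zero_iff.mpr fun s _ => hpp0 r s
  have hθ0 : P.leadingCoeff ^ (2 * N) * pp ≠ 0 := mul_ne_zero (pow_ne_zero _ hl0) hpne
  have h7 := Real.log_nonneg (h5 _ hθK hθI hθ0)
  rw [norm_mul, norm_pow, Real.log_mul (by positivity) (by positivity), Real.log_pow, hpp,
    norm_prod, Real.log_prod] at h7
  · have h8 : ∀ r, Real.log ‖∏ s, (if x r = x s then (1 : ℂ) else x r - x s)‖ =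
        ∑ s, (if x r = x s then 0 else Real.log ‖x r - x s‖) := by
      intro r
      rw [norm_prod, Real.log_prod]
      · refine Finset.sum_congr rfl fun s _ => ?_
        by_cases h : x r = x s
        · rw [if_pos h, if_pos h, norm_one, Real.log_one]
        · rw [if_neg h, if_neg h]
      · intro s _
        exact norm_ne_zero_iff.mpr (hpp0 r s)
    simp_rw [h8] at h7
    push_cast at h7
    exact h7
  · intro r _
    exact norm_ne_zero_iff.mpr (Finset.prod_ne_zero_iff.mpr fun s _ => hpp0 r s)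

end GSL

end

section

/-!
# MP_327059_nt : the estimate of the determinant polynomial, general form
-/

open Polynomial Filter Topology

namespace GSL

namespace E0

lemma mem_circ {S : ℕ} {p : ℤ × ℤ} (hp : p ∈ circ S) : |(p.1 : ℝ)| ≤ S ∧ |(p.2 : ℝ)| ≤ S := by
  unfold circ at hp
  simp only [Finset.mem_filter, Finset.mem_product, Finset.mem_Icc] at hp
  obtain ⟨⟨⟨h1, h2⟩, h3, h4⟩, -⟩ := hp
  constructor
  · rw [abs_le]
    exact ⟨by exact_mod_cast h1, by exact_mod_cast h2⟩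
  · rw [abs_le]
    exact ⟨by exact_mod_cast h3, by exact_mod_cast h4⟩

lemma norm_int (a : ℤ) : ‖(a : ℂ)‖ = |(a : ℝ)| := Complex.norm_intCast a

lemma norm_wv (β : ℂ) {S : ℕ} {p : ℤ × ℤ} (hp : p ∈ circ S) :
    ‖wv β p‖ ≤ (1 + ‖β‖) * S := by
  obtain ⟨h1, h2⟩ := mem_circ hp
  unfold wv
  refine (norm_add_le _ _).trans ?_
  rw [norm_mul, norm_int, norm_int]
  have h3 : |(p.2 : ℝ)| * ‖β‖ ≤ S * ‖β‖ := mul_le_mul_of_nonneg_right h2 (norm_nonneg _)
  linarith

lemma norm_zv (t : ℤ) (β : ℂ) {S : ℕ} {p : ℤ × ℤ} (hp : p ∈ circ S) :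
    ‖zv t β p‖ ≤ (1 + |(t : ℝ)| + ‖β‖) * S := by
  obtain ⟨h1, h2⟩ := mem_circ hp
  unfold zv
  refine (norm_add_le _ _).trans ?_
  have h0 : ‖((p.2 : ℂ) - t * p.1)‖ ≤ |(p.2 : ℝ)| + |(t : ℝ)| * |(p.1 : ℝ)| := by
    refine (norm_sub_le _ _).trans ?_
    rw [norm_mul, norm_int, norm_int, norm_int]
  rw [norm_mul, norm_int]
  have h3 : |(p.1 : ℝ)| * ‖β‖ ≤ S * ‖β‖ := mul_le_mul_of_nonneg_right h1 (norm_nonneg _)
  have h4 : |(t : ℝ)| * |(p.1 : ℝ)| ≤ |(t : ℝ)| * S := mul_le_mul_of_nonneg_left h1 (abs_nonneg _)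
  linarith

lemma card_circ (S : ℕ) : (circ S).card ≤ (2 * S + 1) ^ 2 := by
  unfold circ
  refine (Finset.card_filter_le _ _).trans ?_
  rw [Finset.card_product, Int.card_Icc]
  have : ((S : ℤ) + 1 - -(S : ℤ)).toNat = 2 * S + 1 := by omega
  rw [this, sq]

lemma card_Ix (S T : ℕ) : Fintype.card (Ix S T) = T * (circ S).card := by
  simp [Ix]

lemma sum_fin (T : ℕ) : ∑ i : Fin T, ((i : ℕ) : ℝ) ≤ (T : ℝ) ^ 2 / 2 := by
  rw [Fin.sum_univ_eq_sum_range (fun i => (i : ℝ)) T]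
  induction T with
  | zero => simp
  | succ n ih =>
    rw [Finset.sum_range_succ]
    push_cast
    nlinarith

lemma sum_tau (S T : ℕ) : ∑ r : Ix S T, ((r.1 : ℕ) : ℝ) ≤ (circ S).card * ((T : ℝ) ^ 2 / 2) := by
  rw [Fintype.sum_prod_type]
  simp only [Finset.sum_const, Finset.card_univ, Fintype.card_coe, nsmul_eq_mul]
  rw [← Finset.mul_sum]
  exact mul_le_mul_of_nonneg_left (sum_fin T) (by positivity)

lemma sum_tau_inj {S L₀ T : ℕ} (e : Ix S L₀ → Ix S T) (he : Function.Injective e) :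
    ∑ r, (((e r).1 : ℕ) : ℝ) ≤ (circ S).card * ((T : ℝ) ^ 2 / 2) := by
  refine le_trans ?_ (sum_tau S T)
  have h1 : ∑ r, (((e r).1 : ℕ) : ℝ) = ∑ c ∈ Finset.univ.map ⟨e, he⟩, ((c.1 : ℕ) : ℝ) := by
    rw [Finset.sum_map]
    rfl
  rw [h1]
  exact Finset.sum_le_sum_of_subset_of_nonneg (Finset.subset_univ _) fun _ _ _ => by positivity

lemma one_sub_exp_inv {u : ℝ} (hu : 0 < u) :
    0 ≤ (1 - Real.exp (-u))⁻¹ ∧ (1 - Real.exp (-u))⁻¹ ≤ 1 + 1 / u := by
  have h1 : 1 + u ≤ Real.exp u := by linarith [Real.add_one_le_exp u]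
  have h2 : Real.exp (-u) ≤ (1 + u)⁻¹ := by
    rw [Real.exp_neg]
    exact inv_anti₀ (by linarith) h1
  have h3 : u / (1 + u) ≤ 1 - Real.exp (-u) := by
    have : u / (1 + u) = 1 - (1 + u)⁻¹ := by
      field_simp
      ring
    linarith
  have h4 : 0 < u / (1 + u) := by positivity
  refine ⟨inv_nonneg.2 (h4.le.trans h3), ?_⟩
  calc (1 - Real.exp (-u))⁻¹ ≤ (u / (1 + u))⁻¹ := inv_anti₀ h4 h3
    _ = 1 + 1 / u := by
      rw [inv_div]
      field_simp
      ring

lemma pow_le_exp {a κ : ℝ} (ha : 0 ≤ a) (hκ : 1 ≤ κ) (haκ : a ≤ κ) {k : ℕ} {x : ℝ}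
    (hk : (k : ℝ) ≤ x) : a ^ k ≤ Real.exp (x * Real.log κ) := by
  have hκ0 : 0 < κ := by linarith
  calc a ^ k ≤ κ ^ k := pow_le_pow_left₀ ha haκ k
    _ = Real.exp (k * Real.log κ) := by rw [Real.exp_nat_mul, Real.exp_log hκ0]
    _ ≤ Real.exp (x * Real.log κ) :=
      Real.exp_le_exp.2 (mul_le_mul_of_nonneg_right hk (Real.log_nonneg hκ))

lemma prod_pow_le_exp {ι : Type} [Fintype ι] (k : ι → ℕ) {a κ x : ℝ} (ha : 0 ≤ a) (hκ : 1 ≤ κ)
    (haκ : a ≤ κ) (hx : ∑ i, (k i : ℝ) ≤ x) : ∏ i, a ^ k i ≤ Real.exp (x * Real.log κ) := by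
  rw [Finset.prod_pow_eq_pow_sum]
  exact pow_le_exp ha hκ haκ (by push_cast; exact hx)

lemma factorial_le {n S : ℕ} (hS : 2 ≤ S) (hn : n ≤ S ^ 8) :
    (n.factorial : ℝ) ≤ Real.exp (n * (8 * Real.log S)) := by
  have h1 : (n.factorial : ℝ) ≤ (n : ℝ) ^ n := by exact_mod_cast Nat.factorial_le_pow n
  refine h1.trans ?_
  have hS0 : (0 : ℝ) < S := by positivity
  calc (n : ℝ) ^ n ≤ ((S : ℝ) ^ 8) ^ n :=
        pow_le_pow_left₀ (by positivity) (by exact_mod_cast hn) n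
    _ = Real.exp (n * (8 * Real.log S)) := by
      rw [Real.exp_nat_mul]
      congr 1
      have : (8 : ℝ) * Real.log S = ((8 : ℕ) : ℝ) * Real.log S := by norm_num
      rw [this, Real.exp_nat_mul, Real.exp_log hS0]

end E0

open E0

theorem ezero (hEval : StmtEval) (hNear : StmtNear) (hDet : StmtDet) (hCost : StmtCost)
    (hExp : StmtExp) (hExpBd : StmtExpBd) : StmtE0 := by
  intro D CA
  obtain ⟨r₀, C₁, hr₀, -, hC₁, hnear⟩ := hNear D
  set κ : ℝ := max 1 C₁ with hκd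
  have hκ1 : 1 ≤ κ := le_max_left _ _
  have hκC : C₁ ≤ κ := le_max_right _ _
  set α : ℝ := max 1 ‖D.a₁ * D.a₂‖ with hαd
  have hα1 : 1 ≤ α := le_max_left _ _
  have hαa : ‖D.a₁ * D.a₂‖ ≤ α := le_max_right _ _
  set c : ℝ := 2 + |(D.t : ℝ)| + ‖D.β‖ with hcd
  have hc2 : 2 ≤ c := by
    have := abs_nonneg (D.t : ℝ)
    have := norm_nonneg D.β
    linarith
  have hlκ : 0 ≤ Real.log κ := Real.log_nonneg hκ1
  have hlα : 0 ≤ Real.log α := Real.log_nonneg hα1
  have hlc : 0 ≤ Real.log (2 * c) := Real.log_nonneg (by linarith)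
  have hCA : (0 : ℝ) ≤ CA := by positivity
  set C₂ : ℝ := 8 + Real.log (2 * c) + Real.log κ + 2 * c ^ 2 * κ + CA * Real.log α with hC₂
  have hcκ : 0 ≤ 2 * c ^ 2 * κ := by positivity
  have hCAα : 0 ≤ CA * Real.log α := mul_nonneg hCA hlα
  obtain ⟨S₁, hS₁⟩ := exists_nat_ge (2 + 1 / r₀ + c ^ 2 * κ + 2 * κ)
  have hS₁2 : (2 : ℝ) ≤ S₁ := by
    have : 0 ≤ 1 / r₀ := by positivity
    have : 0 ≤ c ^ 2 * κ := by positivity
    linarith
  refine ⟨C₂, S₁, by linarith, ?_, ?_⟩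
  · have : (1 : ℝ) < S₁ := by linarith
    exact_mod_cast this
  intro S L₀ T hS hL1 hLS hT e he OT AT hOT hAT hgood y₁ hy₁ y hy E hE θ hθ hθ1 m
  have hSr : (S₁ : ℝ) ≤ S := by exact_mod_cast hS
  have hS2 : (2 : ℝ) ≤ S := hS₁2.trans hSr
  have hS2n : 2 ≤ S := by exact_mod_cast hS2
  have hS0 : (0 : ℝ) < S := by linarith
  have hlS : 0 < Real.log S := Real.log_pos (by linarith)
  have hr₀i : 0 ≤ 1 / r₀ := by positivity
  have hc2κ : 0 ≤ c ^ 2 * κ := by positivity
  have hSr₀ : 1 / r₀ ≤ S := by linarith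
  have hScκ : c ^ 2 * κ ≤ S := by linarith
  have hS2κ : 2 * κ ≤ S := by linarith
  -- closeness
  have hclose : ‖y - D.Y‖ ≤ Real.exp (-y₁) / S ^ 5 := by
    refine hy.trans ?_
    have h1 : Real.exp (-(y₁ + C₂ * Real.log S)) ≤ Real.exp (-(y₁ + 5 * Real.log S)) := by
      apply Real.exp_le_exp.2
      have : 5 * Real.log S ≤ C₂ * Real.log S := mul_le_mul_of_nonneg_right (by linarith) hlS.le
      linarith
    refine h1.trans (le_of_eq ?_)
    have h2 : Real.exp (5 * Real.log S) = (S : ℝ) ^ 5 := by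
      have : (5 : ℝ) * Real.log S = ((5 : ℕ) : ℝ) * Real.log S := by norm_num
      rw [this, Real.exp_nat_mul, Real.exp_log hS0]
    rw [neg_add, Real.exp_add, Real.exp_neg (5 * Real.log S), h2, div_eq_mul_inv]
  have hey₁ : Real.exp (-y₁) ≤ 1 := Real.exp_le_one_iff.2 (by linarith)
  have hey₁0 : 0 < Real.exp (-y₁) := Real.exp_pos _
  have hS1 : (1 : ℝ) ≤ S := by linarith
  have hrr : ‖y - D.Y‖ ≤ r₀ := by
    refine hclose.trans ?_
    have h1 : Real.exp (-y₁) / (S : ℝ) ^ 5 ≤ 1 / S := by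
      rw [div_le_div_iff₀ (by positivity) hS0]
      have h2 : (S : ℝ) ≤ S ^ 5 := le_self_pow₀ hS1 (by norm_num)
      exact mul_le_mul hey₁ h2 hS0.le zero_le_one
    refine h1.trans ?_
    rw [div_le_iff₀ hS0]
    rw [div_le_iff₀ hr₀] at hSr₀
    linarith
  obtain ⟨hy0, hA0, hyC, hAC, l', ε', s, hX, hε', hs1, hs2, hl', -, hexp⟩ := hnear y hrr
  -- the bounds of the frequencies and points
  set R₁ : ℝ := c * S with hR₁
  have hR₁1 : 1 ≤ R₁ := by
    calc (1 : ℝ) ≤ 2 * 2 := by norm_num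
      _ ≤ c * S := mul_le_mul hc2 hS2 (by norm_num) (by linarith)
  have hw : ∀ p : {p : ℤ × ℤ // p ∈ circ S}, ‖wv D.β p‖ ≤ R₁ := fun p =>
    (norm_wv D.β p.2).trans (mul_le_mul_of_nonneg_right
      (by have := abs_nonneg (D.t : ℝ); linarith) hS0.le)
  have hz : ∀ p : {p : ℤ × ℤ // p ∈ circ S}, ‖zv D.t D.β p‖ ≤ R₁ := fun p =>
    (norm_zv D.t D.β p.2).trans (mul_le_mul_of_nonneg_right (by linarith) hS0.le)
  -- small quantities
  have hδ0 : 0 ≤ ‖y - D.Y‖ := norm_nonneg _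
  have hS5 : (0 : ℝ) < S ^ 5 := by positivity
  have hδS : ‖y - D.Y‖ * S ^ 5 ≤ Real.exp (-y₁) := by
    rwa [le_div_iff₀ hS5] at hclose
  have hlt : ∀ (lam : ℕ) (tau : ℕ), (lam : ℝ) ≤ S ^ 2 → (tau : ℝ) ≤ 2 * S ^ 2 →
      (lam : ℝ) * tau * ‖1 - s‖ ≤ Real.exp (-y₁) := by
    intro lam tau h1 h2
    have h3 : (lam : ℝ) * tau ≤ S ^ 2 * (2 * S ^ 2) :=
      mul_le_mul h1 h2 (by positivity) (by positivity)
    calc (lam : ℝ) * tau * ‖1 - s‖ ≤ (S ^ 2 * (2 * S ^ 2)) * (κ * ‖y - D.Y‖) := by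
          refine mul_le_mul h3 (hs1.trans (mul_le_mul_of_nonneg_right hκC hδ0)) (norm_nonneg _)
            (by positivity)
      _ = (2 * κ) * S ^ 4 * ‖y - D.Y‖ := by ring
      _ ≤ S * S ^ 4 * ‖y - D.Y‖ := by gcongr
      _ = ‖y - D.Y‖ * S ^ 5 := by ring
      _ ≤ _ := hδS
  have hRε : R₁ ^ 2 * ‖ε'‖ ≤ Real.exp (-y₁) := by
    calc R₁ ^ 2 * ‖ε'‖ ≤ R₁ ^ 2 * (κ * ‖y - D.Y‖) := by
          gcongr
          exact hε'.trans (mul_le_mul_of_nonneg_right hκC hδ0)
      _ = (c ^ 2 * κ) * S ^ 2 * ‖y - D.Y‖ := by rw [hR₁]; ring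
      _ ≤ S * S ^ 2 * ‖y - D.Y‖ := by gcongr
      _ ≤ S * S ^ 4 * ‖y - D.Y‖ := by
          have h1 : (S : ℝ) ^ 2 ≤ S ^ 4 := pow_le_pow_right₀ hS1 (by norm_num)
          exact mul_le_mul_of_nonneg_right (mul_le_mul_of_nonneg_left h1 hS0.le) hδ0
      _ = ‖y - D.Y‖ * S ^ 5 := by ring
      _ ≤ _ := hδS
  have hx : 0 < Real.log E := Real.log_pos hE
  -- the determinant
  set N : ℝ := ((circ S).card : ℝ) with hN
  have hN0 : 0 ≤ N := by positivity
  have hcard : (Fintype.card (Ix S L₀) : ℝ) = L₀ * N := by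
    rw [card_Ix]
    push_cast
    rfl
  have hlam : ∀ r : Ix S L₀, ((r.1 : ℕ) : ℝ) ≤ S ^ 2 := fun r => by
    have : ((r.1 : ℕ) : ℝ) ≤ L₀ := by exact_mod_cast r.1.2.le
    exact this.trans hLS
  have htau : ∀ r : Ix S T, ((r.1 : ℕ) : ℝ) ≤ 2 * S ^ 2 := fun r => by
    have : ((r.1 : ℕ) : ℝ) ≤ T := by exact_mod_cast r.1.2.le
    linarith
  have htauR : ∀ r : Ix S T, ((r.1 : ℕ) : ℝ) ≤ R₁ ^ 2 := fun r => by
    refine (htau r).trans ?_
    have : R₁ ^ 2 = c ^ 2 * S ^ 2 := by rw [hR₁]; ring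
    rw [this]
    have h4 : (2 : ℝ) ≤ c ^ 2 := by
      calc (2 : ℝ) ≤ 2 ^ 2 := by norm_num
        _ ≤ c ^ 2 := pow_le_pow_left₀ (by norm_num) hc2 2
    exact mul_le_mul_of_nonneg_right h4 (by positivity)
  have hdet := hDet (Ix S L₀)
    (Matrix.of fun s' r : Ix S L₀ => D.ent (D.B₀.eval y / D.A₀.eval y) y r (e s'))
    (fun r m => Pc l' ε' (wv D.β r.2.1) r.1 m)
    (fun s' m => Qc s (zv D.t D.β (e s').2.1) (e s').1 m)
    (by
      intro s' r
      have h1 := hExp l' ε' s (wv D.β r.2.1) (zv D.t D.β (e s').2.1) r.1 (e s').1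
      have h2 : (Matrix.of fun s' r : Ix S L₀ => D.ent (D.B₀.eval y / D.A₀.eval y) y r (e s')) s' r
          = ent0 (s * l') (wv D.β r.2.1) (zv D.t D.β (e s').2.1) r.1 (e s').1 *
            Complex.exp (wv D.β r.2.1 * zv D.t D.β (e s').2.1 * l' +
              starRingEnd ℂ (wv D.β r.2.1) * starRingEnd ℂ (zv D.t D.β (e s').2.1) * ε') := by
        rw [Matrix.of_apply, Dat.ent, hX, hexp]
      rw [h2]
      exact h1)
    (fun r => Real.exp (2 * R₁ ^ 2 * E * ‖l'‖) * (2 * R₁ * E) ^ ((r.1 : ℕ)))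
    (fun s' => (max 1 ‖s‖ * R₁) ^ (((e s').1 : ℕ)))
    (Real.log E) y₁ hx hy₁ (fun r => by positivity) (fun s' => by positivity)
    (by
      intro r s' m'
      exact hExpBd l' ε' s (wv D.β r.2.1) (zv D.t D.β (e s').2.1) r.1 (e s').1 R₁ E y₁ hR₁1
        (hw r.2) (hz (e s').2) (htauR (e s')) hE.le (hlt _ _ (hlam r) (htau (e s'))) hRε m')
    θ (Kc (L₀ * N) (Real.log E) y₁ m) hθ hθ1
    (by
      intro f hf
      have h1 := hCost (Ix S L₀) f hf (Real.log E) y₁ hx hy₁ m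
      rw [hcard] at h1
      exact h1)
  -- the sizes of the factors
  set n : ℝ := L₀ * N with hn
  have hn0 : 0 ≤ n := by positivity
  have hL0 : (0 : ℝ) < L₀ := by exact_mod_cast hL1
  have hsumT : ∑ r, (((e r).1 : ℕ) : ℝ) ≤ n * (T ^ 2 / (2 * L₀)) := by
    refine (sum_tau_inj e he).trans (le_of_eq ?_)
    show N * ((T : ℝ) ^ 2 / 2) = L₀ * N * (T ^ 2 / (2 * L₀))
    field_simp
  have hsumL : ∑ r : Ix S L₀, ((r.1 : ℕ) : ℝ) ≤ n * (L₀ / 2) := by
    refine (sum_tau S L₀).trans (le_of_eq ?_)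
    rw [hn]
    ring
  have b1 : ‖y‖ ^ OT ≤ Real.exp (n * S ^ 2 * Real.log κ) := by
    refine pow_le_exp (norm_nonneg _) hκ1 (hyC.trans hκC) ?_
    have : (OT : ℝ) ≤ S ^ 2 * (L₀ * (circ S).card) := by exact_mod_cast hOT
    rw [hn]
    linarith
  have b2 : ‖D.a₁ * D.a₂‖ ^ AT ≤ Real.exp (n * S ^ 2 * CA * Real.log α) := by
    refine pow_le_exp (norm_nonneg _) hα1 hαa ?_
    have : (AT : ℝ) ≤ CA * S ^ 2 * (L₀ * (circ S).card) := by exact_mod_cast hAT
    rw [hn]
    linarith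
  have b3 : ∏ r, ‖D.A₀.eval y‖ ^ (((e r).1 : ℕ)) ≤
      Real.exp (n * (T ^ 2 / (2 * L₀)) * Real.log κ) :=
    prod_pow_le_exp _ (norm_nonneg _) hκ1 (hAC.trans hκC) hsumT
  have b4 : ((Fintype.card (Ix S L₀)).factorial : ℝ) ≤ Real.exp (n * (8 * Real.log S)) := by
    have h1 : Fintype.card (Ix S L₀) ≤ S ^ 8 := by
      rw [card_Ix]
      have h2 : L₀ ≤ S ^ 2 := by exact_mod_cast hLS
      have h3 : (circ S).card ≤ (2 * S + 1) ^ 2 := card_circ S
      have h4 : (2 * S + 1) ^ 2 ≤ S ^ 6 := by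
        have h5 : 2 * S + 1 ≤ S ^ 3 := by
          have h6 : 4 ≤ S ^ 2 := Nat.pow_le_pow_left hS2n 2
          calc 2 * S + 1 ≤ 4 * S := by omega
            _ ≤ S ^ 2 * S := Nat.mul_le_mul_right _ h6
            _ = S ^ 3 := by ring
        calc (2 * S + 1) ^ 2 ≤ (S ^ 3) ^ 2 := Nat.pow_le_pow_left h5 2
          _ = S ^ 6 := by ring
      calc L₀ * (circ S).card ≤ S ^ 2 * S ^ 6 := Nat.mul_le_mul h2 (h3.trans h4)
        _ = S ^ 8 := by ring
    have h2 := factorial_le hS2n h1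
    rwa [hcard] at h2
  have hlogR : Real.log (2 * R₁) = Real.log (2 * c) + Real.log S := by
    rw [hR₁, ← mul_assoc, Real.log_mul (by positivity) hS0.ne']
  have hlogRE : Real.log (2 * R₁ * E) = Real.log (2 * c) + Real.log S + Real.log E := by
    rw [Real.log_mul (by positivity) (by positivity), hlogR]
  have h2R : 1 ≤ 2 * R₁ := by linarith
  have h2RE : 1 ≤ 2 * R₁ * E := by
    calc (1 : ℝ) = 1 * 1 := by norm_num
      _ ≤ 2 * R₁ * E := mul_le_mul h2R hE.le zero_le_one (by linarith)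
  have b5 : ∏ r : Ix S L₀, (Real.exp (2 * R₁ ^ 2 * E * ‖l'‖) * (2 * R₁ * E) ^ ((r.1 : ℕ))) ≤
      Real.exp (n * (2 * R₁ ^ 2 * E * κ)) * Real.exp (n * (L₀ / 2) * Real.log (2 * R₁ * E)) := by
    rw [Finset.prod_mul_distrib]
    refine mul_le_mul ?_ (prod_pow_le_exp _ (by positivity) h2RE le_rfl hsumL) (by positivity)
      (Real.exp_pos _).le
    rw [Finset.prod_const, Finset.card_univ, ← Real.exp_nat_mul, hcard]
    apply Real.exp_le_exp.2
    gcongr
    exact hl'.trans hκC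
  have b6 : ∏ s' : Ix S L₀, (max 1 ‖s‖ * R₁) ^ (((e s').1 : ℕ)) ≤
      Real.exp (n * (T ^ 2 / (2 * L₀)) * Real.log (2 * R₁)) := by
    refine prod_pow_le_exp _ (by positivity) h2R ?_ hsumT
    have : max 1 ‖s‖ ≤ 2 := max_le (by norm_num) hs2
    gcongr
  have b7 : ((1 - Real.exp (-(θ * Real.log E)))⁻¹ * ((1 - Real.exp (-(θ * y₁)))⁻¹) ^ 2) ^
      Fintype.card (Ix S L₀) ≤ Real.exp (n * (Real.log (1 + 1 / (θ * Real.log E)) +
        2 * Real.log (1 + 1 / (θ * y₁)))) := by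
    obtain ⟨u1, u2⟩ := one_sub_exp_inv (mul_pos hθ hx)
    obtain ⟨v1, v2⟩ := one_sub_exp_inv (mul_pos hθ hy₁)
    have hp1 : 0 < 1 + 1 / (θ * Real.log E) := by positivity
    have hp2 : 0 < 1 + 1 / (θ * y₁) := by positivity
    have h3 : (1 - Real.exp (-(θ * Real.log E)))⁻¹ * ((1 - Real.exp (-(θ * y₁)))⁻¹) ^ 2 ≤
        Real.exp (Real.log (1 + 1 / (θ * Real.log E)) + 2 * Real.log (1 + 1 / (θ * y₁))) := by
      have h4 : (2 : ℝ) * Real.log (1 + 1 / (θ * y₁)) = ((2 : ℕ) : ℝ) *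
        Real.log (1 + 1 / (θ * y₁)) := by norm_num
      rw [Real.exp_add, Real.exp_log hp1, h4, Real.exp_nat_mul, Real.exp_log hp2]
      gcongr
    rw [← hcard, Real.exp_nat_mul]
    exact pow_le_pow_left₀ (by positivity) h3 _
  -- the value
  rw [hEval D S L₀ T e OT AT hgood y hy0 hA0, norm_mul, norm_mul, norm_mul, norm_pow, norm_pow,
    norm_prod]
  simp only [norm_pow]
  have hd2 : ‖(Matrix.of fun s' r : Ix S L₀ =>
      D.ent (D.B₀.eval y / D.A₀.eval y) y r (e s')).det‖ ≤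
      Real.exp (n * (8 * Real.log S)) *
      (Real.exp (n * (2 * R₁ ^ 2 * E * κ)) * Real.exp (n * (L₀ / 2) * Real.log (2 * R₁ * E))) *
      Real.exp (n * (T ^ 2 / (2 * L₀)) * Real.log (2 * R₁)) *
      Real.exp (-((1 - θ) * Kc n (Real.log E) y₁ m)) *
      Real.exp (n * (Real.log (1 + 1 / (θ * Real.log E)) + 2 * Real.log (1 + 1 / (θ * y₁)))) := by
    refine hdet.trans ?_
    have hpp : 0 ≤ (1 - Real.exp (-(θ * Real.log E)))⁻¹ * ((1 - Real.exp (-(θ * y₁)))⁻¹) ^ 2 :=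
      mul_nonneg (one_sub_exp_inv (mul_pos hθ hx)).1 (by positivity)
    gcongr
  calc ‖y‖ ^ OT * ‖D.a₁ * D.a₂‖ ^ AT * (∏ r, ‖D.A₀.eval y‖ ^ (((e r).1 : ℕ))) *
        ‖(Matrix.of fun s' r : Ix S L₀ =>
          D.ent (D.B₀.eval y / D.A₀.eval y) y r (e s')).det‖
      ≤ Real.exp (n * S ^ 2 * Real.log κ) * Real.exp (n * S ^ 2 * CA * Real.log α) *
        Real.exp (n * (T ^ 2 / (2 * L₀)) * Real.log κ) *
        (Real.exp (n * (8 * Real.log S)) *
      (Real.exp (n * (2 * R₁ ^ 2 * E * κ)) * Real.exp (n * (L₀ / 2) * Real.log (2 * R₁ * E))) *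
      Real.exp (n * (T ^ 2 / (2 * L₀)) * Real.log (2 * R₁)) *
      Real.exp (-((1 - θ) * Kc n (Real.log E) y₁ m)) *
      Real.exp (n * (Real.log (1 + 1 / (θ * Real.log E)) +
        2 * Real.log (1 + 1 / (θ * y₁))))) := by
        gcongr
    _ = Real.exp (n * S ^ 2 * Real.log κ + n * S ^ 2 * CA * Real.log α +
        n * (T ^ 2 / (2 * L₀)) * Real.log κ + (n * (8 * Real.log S) +
        (n * (2 * R₁ ^ 2 * E * κ) + n * (L₀ / 2) * Real.log (2 * R₁ * E)) +
        n * (T ^ 2 / (2 * L₀)) * Real.log (2 * R₁) + -((1 - θ) * Kc n (Real.log E) y₁ m) +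
        n * (Real.log (1 + 1 / (θ * Real.log E)) + 2 * Real.log (1 + 1 / (θ * y₁))))) := by
        simp only [Real.exp_add]
    _ ≤ _ := by
        apply Real.exp_le_exp.2
        rw [hlogRE, hlogR]
        have hR2 : R₁ ^ 2 = c ^ 2 * S ^ 2 := by rw [hR₁]; ring
        rw [hR2]
        have hS2p : (0 : ℝ) ≤ S ^ 2 := by positivity
        -- coefficient of `S² E`
        have k1 : n * S ^ 2 * Real.log κ + n * S ^ 2 * CA * Real.log α +
            n * (2 * (c ^ 2 * S ^ 2) * E * κ) ≤ n * ((Real.log κ + CA * Real.log α +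
              2 * c ^ 2 * κ) * S ^ 2 * E) := by
          have h1 : n * S ^ 2 * Real.log κ ≤ n * S ^ 2 * Real.log κ * E :=
            le_mul_of_one_le_right (by positivity) hE.le
          have h2 : n * S ^ 2 * CA * Real.log α ≤ n * S ^ 2 * CA * Real.log α * E :=
            le_mul_of_one_le_right (by positivity) hE.le
          have h3 : n * ((Real.log κ + CA * Real.log α + 2 * c ^ 2 * κ) * S ^ 2 * E) =
            n * S ^ 2 * Real.log κ * E + n * S ^ 2 * CA * Real.log α * E +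
            n * (2 * (c ^ 2 * S ^ 2) * E * κ) := by ring
          linarith
        have k1' : n * ((Real.log κ + CA * Real.log α + 2 * c ^ 2 * κ) * S ^ 2 * E) ≤
            n * (C₂ * S ^ 2 * E) :=
          mul_le_mul_of_nonneg_left (mul_le_mul_of_nonneg_right
            (mul_le_mul_of_nonneg_right (by linarith) hS2p) (by linarith)) hn0
        have k2 : n * (L₀ / 2) * (Real.log (2 * c) + Real.log S + Real.log E) ≤
            n * (L₀ / 2 * (Real.log S + Real.log E + C₂)) := by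
          rw [mul_assoc]
          exact mul_le_mul_of_nonneg_left
            (mul_le_mul_of_nonneg_left (by linarith) (by positivity)) hn0
        have k3 : n * (T ^ 2 / (2 * L₀)) * Real.log κ +
            n * (T ^ 2 / (2 * L₀)) * (Real.log (2 * c) + Real.log S) ≤
            n * ((T : ℝ) ^ 2 / (2 * L₀) * (Real.log S + C₂)) := by
          have h1 : n * (T ^ 2 / (2 * L₀)) * Real.log κ +
            n * (T ^ 2 / (2 * L₀)) * (Real.log (2 * c) + Real.log S) =
            n * ((T : ℝ) ^ 2 / (2 * L₀) * (Real.log S + (Real.log κ + Real.log (2 * c)))) := by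
            ring
          rw [h1]
          exact mul_le_mul_of_nonneg_left
            (mul_le_mul_of_nonneg_left (by linarith) (by positivity)) hn0
        have k4 : n * (8 * Real.log S) ≤ n * (C₂ * Real.log S) :=
          mul_le_mul_of_nonneg_left (mul_le_mul_of_nonneg_right (by linarith) hlS.le) hn0
        have k6 : n * (C₂ * S ^ 2 * E + L₀ / 2 * (Real.log S + Real.log E + C₂) +
                (T : ℝ) ^ 2 / (2 * L₀) * (Real.log S + C₂) + C₂ * Real.log S +
                Real.log (1 + 1 / (θ * Real.log E)) + 2 * Real.log (1 + 1 / (θ * y₁))) =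
            n * (C₂ * S ^ 2 * E) + n * (L₀ / 2 * (Real.log S + Real.log E + C₂)) +
            n * ((T : ℝ) ^ 2 / (2 * L₀) * (Real.log S + C₂)) + n * (C₂ * Real.log S) +
            n * (Real.log (1 + 1 / (θ * Real.log E)) + 2 * Real.log (1 + 1 / (θ * y₁))) := by
          ring
        rw [k6]
        linarith

end GSL

end

section

/-!
# MP_327059_nt : the estimate of the determinant polynomial, second form
-/

open Polynomial Filter Topology

namespace GSL.E2

/-- Lower bound for `(1 - θ) Kc`. -/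
theorem core (L V x c z q θ : ℝ) (m : ℕ) (hL : 0 < L) (hV : 0 < V) (hx : 0 < x) (hc : 0 ≤ c)
    (hz0 : 0 ≤ z) (hz1 : z ≤ 1) (hy : 0 ≤ z * V - c) (hq : 0 ≤ q) (hθ : 0 ≤ θ)
    (hm : m ≤ 30) (hxL : V / (2 * x * L) ≤ 1 / 2 + q) :
    (Fj m z - (30 * θ + 30 * c / V + 76880 * q + 4960 / L)) * (L * V) ≤
      (1 - θ) * Kc L x (z * V - c) m := by
  set y : ℝ := z * V - c with hyd
  set M : ℝ := (m : ℝ) with hM
  have hM0 : 0 ≤ M := Nat.cast_nonneg m
  have hM1 : M ≤ 30 := by rw [hM]; exact_mod_cast hm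
  set A : ℝ := M * (M + 1) ^ 2 * (M + 2) / 12 with hA
  set B : ℝ := M * (M + 1) * (M + 2) / 6 with hB
  have hA0 : 0 ≤ A := by positivity
  have hB0 : 0 ≤ B := by positivity
  have h31 : (M + 1) ^ 2 ≤ 961 := by nlinarith
  have hA1 : A ≤ 76880 := by
    have h1 : M * (M + 1) ^ 2 ≤ 30 * 961 := mul_le_mul hM1 h31 (by positivity) (by norm_num)
    have h2 : M * (M + 1) ^ 2 * (M + 2) ≤ 30 * 961 * 32 :=
      mul_le_mul h1 (by linarith) (by positivity) (by norm_num)
    rw [hA]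
    linarith
  have hB1 : B ≤ 4960 := by
    have h1 : M * (M + 1) ≤ 30 * 31 := mul_le_mul hM1 (by linarith) (by positivity) (by norm_num)
    have h2 : M * (M + 1) * (M + 2) ≤ 30 * 31 * 32 :=
      mul_le_mul h1 (by linarith) (by positivity) (by norm_num)
    rw [hB]
    linarith
  have hKc : Kc L x y m = L * (M * y) - (y ^ 2 / (2 * x) * A + y * B) := rfl
  have hF : Fj m z = M * z - z ^ 2 * A / 2 := by
    unfold Fj
    rw [hA]
    ring
  have hyV : y ≤ z * V := by rw [hyd]; linarith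
  have hyV' : y ≤ V := hyV.trans (by nlinarith)
  have hy2 : y ^ 2 / (2 * x) ≤ z ^ 2 * V * (L * (1 / 2 + q)) := by
    have h1 : y ^ 2 ≤ (z * V) ^ 2 := pow_le_pow_left₀ hy hyV 2
    have h2 : V / (2 * x) ≤ L * (1 / 2 + q) := by
      have := mul_le_mul_of_nonneg_left hxL hL.le
      have h3 : L * (V / (2 * x * L)) = V / (2 * x) := by field_simp
      rwa [h3] at this
    calc y ^ 2 / (2 * x) ≤ (z * V) ^ 2 / (2 * x) := div_le_div_of_nonneg_right h1 (by positivity)
      _ = z ^ 2 * V * (V / (2 * x)) := by ring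
      _ ≤ z ^ 2 * V * (L * (1 / 2 + q)) := mul_le_mul_of_nonneg_left h2 (by positivity)
  have hz2 : z ^ 2 ≤ 1 := by nlinarith
  have hy3 : y ^ 2 / (2 * x) * A ≤ z ^ 2 * V * L * A / 2 + 76880 * q * (L * V) := by
    have h1 : y ^ 2 / (2 * x) * A ≤ z ^ 2 * V * (L * (1 / 2 + q)) * A :=
      mul_le_mul_of_nonneg_right hy2 hA0
    have h2 : z ^ 2 * V * (L * (1 / 2 + q)) * A =
        z ^ 2 * V * L * A / 2 + (z ^ 2 * A) * (q * (L * V)) := by ring
    have h3 : z ^ 2 * A ≤ 1 * 76880 := mul_le_mul hz2 hA1 hA0 (by norm_num)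
    have h4 : (z ^ 2 * A) * (q * (L * V)) ≤ (1 * 76880) * (q * (L * V)) :=
      mul_le_mul_of_nonneg_right h3 (by positivity)
    linarith
  have hy4 : y * B ≤ 4960 * V := by
    have h1 : y * B ≤ V * 4960 := mul_le_mul hyV' hB1 hB0 hV.le
    linarith
  have hy5 : L * (M * y) ≥ L * V * (M * z) - 30 * c * L := by
    have h1 : L * (M * y) = L * V * (M * z) - M * c * L := by rw [hyd]; ring
    have h2 : M * c * L ≤ 30 * c * L :=
      mul_le_mul_of_nonneg_right (mul_le_mul_of_nonneg_right hM1 hc) hL.le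
    linarith
  have hK1 : (Fj m z - (30 * c / V + 76880 * q + 4960 / L)) * (L * V) ≤ Kc L x y m := by
    rw [hKc, hF]
    have e1 : (M * z - z ^ 2 * A / 2 - (30 * c / V + 76880 * q + 4960 / L)) * (L * V) =
        L * V * (M * z) - z ^ 2 * V * L * A / 2 - 30 * c * L - 76880 * q * (L * V) -
          4960 * V := by
      field_simp
      ring
    rw [e1]
    linarith
  have hK2 : Kc L x y m ≤ 30 * (L * V) := by
    rw [hKc]
    have h1 : L * (M * y) ≤ L * (30 * V) :=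
      mul_le_mul_of_nonneg_left (mul_le_mul hM1 hyV' hy (by norm_num)) hL.le
    have h2 : 0 ≤ y ^ 2 / (2 * x) * A + y * B := by positivity
    linarith
  have hK3 : θ * Kc L x y m ≤ 30 * θ * (L * V) := by
    have := mul_le_mul_of_nonneg_left hK2 hθ
    linarith
  have e2 : (Fj m z - (30 * θ + 30 * c / V + 76880 * q + 4960 / L)) * (L * V) =
      (Fj m z - (30 * c / V + 76880 * q + 4960 / L)) * (L * V) - 30 * θ * (L * V) := by ring
  rw [e2]
  linarith

theorem aux_q {q : ℝ} (h0 : 0 ≤ q) (h1 : q ≤ 1 / 4) : 2 * (1 + q) ≤ (1 / 2 + q) * (2 * (2 - q)) := by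
  nlinarith [mul_nonneg h0 (sub_nonneg.2 h1)]

theorem ev_log (C : ℝ) : ∀ᶠ S : ℕ in atTop, C ≤ Real.log S :=
  (Real.tendsto_log_atTop.comp tendsto_natCast_atTop_atTop).eventually_ge_atTop C

theorem ev_pow (C : ℝ) {a : ℝ} (ha : 0 < a) : ∀ᶠ S : ℕ in atTop, C ≤ (S : ℝ) ^ a :=
  ((tendsto_rpow_atTop ha).comp tendsto_natCast_atTop_atTop).eventually_ge_atTop C

theorem ev_sq (C : ℝ) : ∀ᶠ S : ℕ in atTop, C ≤ (S : ℝ) ^ 2 := by
  filter_upwards [ev_pow C (a := 2) (by norm_num)] with S hS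
  have : (S : ℝ) ^ (2 : ℝ) = (S : ℝ) ^ 2 := by
    rw [← Real.rpow_natCast]; norm_num
  rwa [this] at hS

theorem ev_log_pow (C : ℝ) {a : ℝ} (ha : 0 < a) :
    ∀ᶠ S : ℕ in atTop, C * Real.log S ≤ (S : ℝ) ^ a := by
  have h1 := (isLittleO_log_rpow_atTop ha).comp_tendsto tendsto_natCast_atTop_atTop
  have h2 := h1.def (c := (|C| + 1)⁻¹) (by positivity)
  filter_upwards [h2, eventually_ge_atTop 1] with S hS hS1
  have hS1' : (1 : ℝ) ≤ S := by exact_mod_cast hS1
  simp only [Function.comp_apply] at hS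
  rw [Real.norm_of_nonneg (Real.log_nonneg hS1'), Real.norm_of_nonneg (by positivity),
    inv_mul_eq_div, le_div_iff₀ (by positivity)] at hS
  have h3 : C * Real.log S ≤ (|C| + 1) * Real.log S :=
    mul_le_mul_of_nonneg_right (by have := le_abs_self C; linarith) (Real.log_nonneg hS1')
  linarith

theorem ev_log_sq (C : ℝ) : ∀ᶠ S : ℕ in atTop, C * Real.log S ≤ (S : ℝ) ^ 2 := by
  filter_upwards [ev_log_pow C (a := 2) (by norm_num)] with S hS
  have : (S : ℝ) ^ (2 : ℝ) = (S : ℝ) ^ 2 := by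
    rw [← Real.rpow_natCast]; norm_num
  rwa [this] at hS

/-- `π S² ≤ (1 + δ) card` eventually. -/
theorem ev_card (h : StmtCount) {δ : ℝ} (hδ : 0 < δ) :
    ∀ᶠ S : ℕ in atTop, Real.pi * (S : ℝ) ^ 2 ≤ (1 + δ) * ((circ S).card : ℝ) ∧
      ((circ S).card : ℝ) ≤ (1 + δ) * (Real.pi * (S : ℝ) ^ 2) := by
  have h1 := h.1
  have hpi := Real.pi_pos
  have h2 : ∀ᶠ S : ℕ in atTop, Real.pi / (1 + δ) < ((circ S).card : ℝ) / (S : ℝ) ^ 2 :=
    h1.eventually_const_lt (by rw [div_lt_iff₀ (by positivity)]; nlinarith)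
  have h3 : ∀ᶠ S : ℕ in atTop, ((circ S).card : ℝ) / (S : ℝ) ^ 2 < (1 + δ) * Real.pi :=
    h1.eventually_lt_const (by nlinarith)
  filter_upwards [h2, h3, eventually_ge_atTop 1] with S h4 h5 hS
  have hS' : (0 : ℝ) < S := by exact_mod_cast hS
  have hS2 : (0 : ℝ) < (S : ℝ) ^ 2 := by positivity
  constructor
  · rw [lt_div_iff₀ hS2, div_mul_eq_mul_div, div_lt_iff₀ (by positivity)] at h4
    linarith
  · rw [div_lt_iff₀ hS2] at h5
    linarith

end GSL.E2

namespace GSL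

open E2 in
theorem etwo (h0 : StmtE0) (hcount : StmtCount) : StmtE2 := by
  intro D CA ε hε hε1
  obtain ⟨C₂, S₀, hC₂, hS₀, hE0⟩ := h0 D CA
  have hpi := Real.pi_pos
  have hpi3 := Real.pi_gt_three
  set e' : ℝ := ε / 10 ^ 6 with he'
  have he'0 : 0 < e' := by positivity
  have he'1 : e' ≤ 1 := by rw [he']; linarith
  set θ : ℝ := ε / 240 with hθd
  have hθ0 : 0 < θ := by positivity
  have hθ1 : θ < 1 := by rw [hθd]; linarith
  set q : ℝ := ε / 10 ^ 6 with hqd
  have hq0 : 0 < q := by positivity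
  -- eventual facts
  have ev : ∀ᶠ S : ℕ in atTop, S₀ ≤ S ∧ C₂ ≤ Real.log S ∧ 1 ≤ Real.log S ∧
      (Real.pi * (S : ℝ) ^ 2 ≤ (1 + q) * ((circ S).card : ℝ) ∧
        ((circ S).card : ℝ) ≤ (1 + q) * (Real.pi * (S : ℝ) ^ 2)) ∧
      100000 * C₂ / ε ≤ (S : ℝ) ^ 2 ∧ 100000 / ε ≤ (S : ℝ) ^ 2 ∧ 24 / (θ * ε) ≤ (S : ℝ) ^ 2 ∧
      C₂ * (8 / ε) ≤ (S : ℝ) ^ e' := by
    filter_upwards [eventually_ge_atTop S₀, ev_log C₂, ev_log 1, ev_card hcount hq0,
      ev_sq (100000 * C₂ / ε), ev_sq (100000 / ε), ev_sq (24 / (θ * ε)),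
      ev_pow (C₂ * (8 / ε)) he'0] with S a1 a2 a3 a4 a5 a6 a7 a8
    exact ⟨a1, a2, a3, a4, a5, a6, a7, a8⟩
  obtain ⟨S₁, hS₁⟩ := eventually_atTop.1 ev
  refine ⟨1, 1, S₁, one_pos, one_pos, fun S L₀ T hS hL1 hL2 hT e he OT AT hOT hAT hgood z hz0 hz1
    m hm1 hm30 y hy => ?_⟩
  obtain ⟨g0, gC, g1, ⟨gc1, gc2⟩, gs1, gs2, gs3, gE⟩ := hS₁ S hS
  set s : ℝ := (S : ℝ) with hs
  set l : ℝ := (L₀ : ℝ) with hl
  set lg : ℝ := Real.log s with hlg
  set n : ℝ := ((circ S).card : ℝ) with hn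
  have hs2 : 1 ≤ s ^ 2 := le_trans (by rw [le_div_iff₀ hε]; linarith) gs2
  have hs0 : 0 < s := by
    rcases (Nat.cast_nonneg S : (0 : ℝ) ≤ S).eq_or_lt with h | h
    · exfalso
      rw [hs, ← h] at hs2
      norm_num at hs2
    · exact h
  have hs1 : 1 ≤ s := by
    have : (1 : ℕ) ≤ S := by
      have : (0 : ℝ) < (S : ℝ) := hs0
      exact_mod_cast this
    rw [hs]
    exact_mod_cast this
  have hl0 : 0 < l := by
    have h1 : (0 : ℝ) < l * lg := lt_of_lt_of_le (by positivity) hL1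
    exact pos_of_mul_pos_left h1 (by linarith)
  have hL₀ : 1 ≤ L₀ := by
    have : (0 : ℝ) < (L₀ : ℝ) := hl0
    exact_mod_cast this
  have hl1 : 1 ≤ l := by
    rw [hl]
    exact_mod_cast hL₀
  have hn0 : 3 / 2 * s ^ 2 ≤ n := by
    have h1 : (1 + q) * n ≤ 2 * n := by
      refine mul_le_mul_of_nonneg_right ?_ (Nat.cast_nonneg _)
      rw [hqd]; linarith
    have h2 := mul_le_mul_of_nonneg_right hpi3.le (sq_nonneg s)
    linarith
  have hn1 : 1 ≤ n := by linarith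
  set L : ℝ := l * n with hL
  have hLpos : 0 < L := by positivity
  have hLn : n ≤ L := by rw [hL]; exact le_mul_of_one_le_left (by linarith) hl1
  set V : ℝ := Vf S L₀ with hV
  have hVe : V = 2 * Real.pi * s ^ 2 * l * lg := rfl
  have hVlg : s ^ 2 * (l * lg) ≤ V := by
    rw [hVe]
    have h1 : 0 ≤ s ^ 2 * (l * lg) := by positivity
    have h2 := mul_le_mul_of_nonneg_right (by linarith : (1 : ℝ) ≤ 2 * Real.pi) h1
    linarith
  have hlglg : lg ≤ l * lg := le_mul_of_one_le_left (by linarith) hl1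
  have hVs : s ^ 2 * lg ≤ V := le_trans (mul_le_mul_of_nonneg_left hlglg (by positivity)) hVlg
  have hVs1 : s ^ 2 ≤ V := le_trans (le_mul_of_one_le_right (by positivity) g1) hVs
  have hV0 : 0 < V := by linarith
  have hV4 : s ^ 2 * s ^ 2 ≤ V := by
    refine le_trans ?_ hVlg
    refine mul_le_mul_of_nonneg_left ?_ (by positivity)
    linarith
  -- the parameters
  set x : ℝ := (2 - e') * lg with hx
  have hx1 : lg ≤ x := by
    rw [hx]
    exact le_mul_of_one_le_left (by linarith) (by linarith)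
  have hx2 : x ≤ 2 * lg := by
    rw [hx]
    exact mul_le_mul_of_nonneg_right (by linarith) (by linarith)
  have hx0 : 0 < x := by linarith
  set c : ℝ := C₂ * lg with hc
  have hc0 : 0 ≤ c := by positivity
  have hcV : c / V ≤ ε / 100000 := by
    rw [div_le_iff₀ hV0]
    have h1 : 100000 * C₂ ≤ ε * s ^ 2 := by
      rw [div_le_iff₀ hε] at gs1
      linarith
    have h2 : 100000 * C₂ * lg ≤ ε * s ^ 2 * lg := mul_le_mul_of_nonneg_right h1 (by linarith)
    have h3 : ε * (s ^ 2 * lg) ≤ ε * V := mul_le_mul_of_nonneg_left hVs hε.le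
    rw [hc]
    linarith
  have hy1 : 1 ≤ z * V - c := by
    have h1 : c ≤ ε / 100000 * V := by rwa [div_le_iff₀ hV0] at hcV
    have h2 : 1 / 6000 * V ≤ z * V := mul_le_mul_of_nonneg_right hz0 hV0.le
    have h3 : 100000 ≤ s ^ 2 := le_trans (by rw [le_div_iff₀ hε]; linarith) gs2
    have h4 : ε / 100000 * V ≤ 1 / 100000 * V :=
      mul_le_mul_of_nonneg_right (by linarith) hV0.le
    linarith
  have hxL : V / (2 * x * L) ≤ 1 / 2 + q := by
    rw [div_le_iff₀ (by positivity), hVe, hx, hL]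
    have h1 : Real.pi * s ^ 2 ≤ (1 + q) * n := gc1
    have h2 : 2 * Real.pi * s ^ 2 * l * lg ≤ 2 * ((1 + q) * n) * l * lg := by
      have : 2 * (Real.pi * s ^ 2) ≤ 2 * ((1 + q) * n) := by linarith
      have h3 := mul_le_mul_of_nonneg_right (mul_le_mul_of_nonneg_right this hl0.le)
        (by linarith : (0 : ℝ) ≤ lg)
      linarith
    refine h2.trans ?_
    have h3 : 0 ≤ n * l * lg := by positivity
    have h4 : 2 * (1 + q) ≤ (1 / 2 + q) * (2 * (2 - e')) :=
      aux_q hq0.le (by rw [hqd]; linarith)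
    have h5 := mul_le_mul_of_nonneg_right h4 h3
    calc 2 * ((1 + q) * n) * l * lg = 2 * (1 + q) * (n * l * lg) := by ring
      _ ≤ (1 / 2 + q) * (2 * (2 - e')) * (n * l * lg) := h5
      _ = (1 / 2 + q) * (2 * ((2 - e') * lg) * (l * n)) := by ring
  have hcore := core L V x c z q θ m hLpos hV0 hx0 hc0 (by linarith) hz1 (by linarith) hq0.le
    hθ0.le hm30 hxL
  -- the estimate of E0
  have hOT' : OT ≤ S ^ 2 * (L₀ * (circ S).card) := by
    have h1 : (OT : ℝ) ≤ s ^ 2 * (l * n) := by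
      refine hOT.trans ?_
      have : (1 + ε) / 2 ≤ 1 := by linarith
      have h2 : 0 ≤ s ^ 2 * (l * n) := by positivity
      calc (1 + ε) / 2 * s ^ 2 * (l * n) = (1 + ε) / 2 * (s ^ 2 * (l * n)) := by ring
        _ ≤ 1 * (s ^ 2 * (l * n)) := mul_le_mul_of_nonneg_right this h2
        _ = _ := one_mul _
    have h2 : ((OT : ℕ) : ℝ) ≤ ((S ^ 2 * (L₀ * (circ S).card) : ℕ) : ℝ) := by
      push_cast
      exact h1
    exact_mod_cast h2
  have hT2 : (T : ℝ) ≤ 2 * l := hT.trans (mul_le_mul_of_nonneg_right (by linarith) hl0.le)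
  have hE := hE0 S L₀ T g0 hL₀ (by linarith) hT2 e he OT AT hOT' hAT hgood
    (z * V - c) (by linarith) y (by
      have : z * V - c + C₂ * Real.log S = z * V := by rw [hc, hlg]; ring
      rw [this]
      exact hy) (Real.exp x) (Real.one_lt_exp_iff.2 hx0) θ hθ0 hθ1 m
  rw [Real.log_exp] at hE
  refine hE.trans (Real.exp_le_exp.2 ?_)
  change L * (C₂ * s ^ 2 * Real.exp x + l / 2 * (lg + x + C₂) + (T : ℝ) ^ 2 / (2 * l) * (lg + C₂) +
    C₂ * lg + Real.log (1 + 1 / (θ * x)) + 2 * Real.log (1 + 1 / (θ * (z * V - c)))) -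
    (1 - θ) * Kc L x (z * V - c) m ≤ -((Fj m z - ε) * (L * V))
  -- the errors
  have r1 : C₂ * s ^ 2 * Real.exp x ≤ ε / 8 * V := by
    have h1 : Real.exp x = s ^ 2 / s ^ e' := by
      rw [hx, sub_mul, Real.exp_sub]
      congr 1
      · rw [two_mul, Real.exp_add, hlg, Real.exp_log hs0, sq]
      · rw [mul_comm, hlg, ← Real.rpow_def_of_pos hs0]
    have h2 : 0 < s ^ e' := Real.rpow_pos_of_pos hs0 _
    rw [h1, ← mul_div_assoc, div_le_iff₀ h2]
    have h3 : C₂ ≤ ε / 8 * s ^ e' := by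
      have : C₂ * (8 / ε) * (ε / 8) = C₂ := by field_simp
      rw [← this]
      have := mul_le_mul_of_nonneg_right gE (by positivity : (0 : ℝ) ≤ ε / 8)
      linarith
    calc C₂ * s ^ 2 * s ^ 2 = C₂ * (s ^ 2 * s ^ 2) := by ring
      _ ≤ C₂ * V := mul_le_mul_of_nonneg_left hV4 (by linarith)
      _ ≤ (ε / 8 * s ^ e') * V := mul_le_mul_of_nonneg_right h3 hV0.le
      _ = _ := by ring
  have hlV : l * lg ≤ ε / 100000 * V := by
    have h1 : 100000 ≤ ε * s ^ 2 := by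
      rw [div_le_iff₀ hε] at gs2
      linarith
    have h2 : 0 ≤ l * lg := by positivity
    have h3 : 100000 * (l * lg) ≤ ε * s ^ 2 * (l * lg) := mul_le_mul_of_nonneg_right h1 h2
    have h4 : ε * (s ^ 2 * (l * lg)) ≤ ε * V := mul_le_mul_of_nonneg_left hVlg hε.le
    linarith
  have r2 : l / 2 * (lg + x + C₂) ≤ 2 * (l * lg) := by
    have h1 : lg + x + C₂ ≤ 4 * lg := by linarith
    have h2 := mul_le_mul_of_nonneg_left h1 (by positivity : (0 : ℝ) ≤ l / 2)
    linarith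
  have r3 : (T : ℝ) ^ 2 / (2 * l) * (lg + C₂) ≤ 4 * (l * lg) := by
    have h1 : (T : ℝ) ^ 2 / (2 * l) ≤ 2 * l := by
      rw [div_le_iff₀ (by positivity)]
      have := pow_le_pow_left₀ (Nat.cast_nonneg T) hT2 2
      linarith
    have h2 : lg + C₂ ≤ 2 * lg := by linarith
    calc (T : ℝ) ^ 2 / (2 * l) * (lg + C₂) ≤ 2 * l * (2 * lg) :=
          mul_le_mul h1 h2 (by linarith) (by positivity)
      _ = _ := by ring
  have r4 : C₂ * lg ≤ ε / 100000 * V := by rwa [div_le_iff₀ hV0] at hcV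
  have hθV : 3 / θ ≤ ε / 8 * V := by
    have h1 : 24 / (θ * ε) ≤ V := gs3.trans hVs1
    rw [div_le_iff₀ (by positivity)] at h1
    rw [div_le_iff₀ hθ0]
    linarith
  have hlogle : ∀ w : ℝ, 1 ≤ w → Real.log (1 + 1 / (θ * w)) ≤ 1 / θ := by
    intro w hw
    have h1 : 0 < θ * w := by positivity
    have h2 := Real.log_le_sub_one_of_pos (x := 1 + 1 / (θ * w)) (by positivity)
    have h3 : 1 / (θ * w) ≤ 1 / θ := by
      refine one_div_le_one_div_of_le hθ0 ?_
      exact le_mul_of_one_le_right hθ0.le hw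
    linarith
  have r5 := hlogle x (by linarith)
  have r6 := hlogle (z * V - c) hy1
  have e7 : 3 / θ = 1 / θ + 2 * (1 / θ) := by ring
  have r7 : C₂ * s ^ 2 * Real.exp x + l / 2 * (lg + x + C₂) +
      (T : ℝ) ^ 2 / (2 * l) * (lg + C₂) + C₂ * lg + Real.log (1 + 1 / (θ * x)) +
      2 * Real.log (1 + 1 / (θ * (z * V - c))) ≤ (ε / 2) * V := by
    have h1 : 0 ≤ ε * V := by positivity
    linarith
  have r8 := mul_le_mul_of_nonneg_left r7 hLpos.le
  have r9 : 30 * θ + 30 * c / V + 76880 * q + 4960 / L ≤ ε / 2 := by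
    have h1 : 4960 / L ≤ ε / 8 := by
      rw [div_le_iff₀ hLpos]
      have h2 : 100000 ≤ ε * s ^ 2 := by
        rw [div_le_iff₀ hε] at gs2
        linarith
      have h3 : ε * s ^ 2 ≤ ε * L := mul_le_mul_of_nonneg_left (by linarith) hε.le
      linarith
    have h2 : 30 * c / V ≤ 30 * (ε / 100000) := by
      rw [mul_div_assoc]
      exact mul_le_mul_of_nonneg_left hcV (by norm_num)
    have h3 : 30 * θ = ε / 8 := by rw [hθd]; ring
    have h4 : 76880 * q ≤ ε / 8 := by rw [hqd]; linarith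
    linarith
  have r10 := mul_le_mul_of_nonneg_right r9 (by positivity : (0 : ℝ) ≤ L * V)
  linarith

end GSL

end
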