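import Pool.Agent.Work.MP_327059_nt.Stmts

/-! Bundle of small proof modules (one section per former module). -/

section

/-!
# MP_327059_nt : the families at the scale `(S, L₀)`
-/

open Polynomial Filter Topology

namespace GSL

namespace FamS

theorem card_pos (S : ℕ) : 1 ≤ (circ S).card := by
  rw [Nat.succ_le_iff, Finset.card_pos]
  refine ⟨(0, 0), ?_⟩
  unfold circ
  rw [Finset.mem_filter, Finset.mem_product, Finset.mem_Icc]
  have h : (0 : ℤ) ≤ S := Int.natCast_nonneg S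
  refine ⟨⟨⟨by simp, h⟩, ⟨by simp, h⟩⟩, ?_⟩
  simp only
  positivity

end FamS

theorem fams (hOT : StmtOT) (hH : StmtHeight) (hInt : StmtInt) (hE1 : StmtE1) (hE2 : StmtE2)
    (hNV : StmtNV) : StmtFamS := by
  intro D ε hε hε1
  set e₁ : ℝ := ε / 10 with he
  have he0 : 0 < e₁ := by positivity
  have he1 : e₁ < 1 := by
    rw [he]
    linarith
  obtain ⟨Sa, CA, hA⟩ := hOT D e₁ he0 he1
  obtain ⟨Cb, cb, Sb, hCb, hcb, hB⟩ := hH D CA e₁ he0 he1
  obtain ⟨Cc, cc, Sc, hCc, hcc, hC⟩ := hE1 D CA e₁ he0 he1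
  obtain ⟨Cd, cd, Sd, hCd, hcd, hD⟩ := hE2 D CA e₁ he0 he1
  obtain ⟨Ce, ce, Se, hCe, hce, hE⟩ := hNV D e₁ he0 he1
  refine ⟨max 1 (max (max Cb Cc) (max Cd Ce)), min (min cb cc) (min cd ce),
    Sa + Sb + Sc + Sd + Se + ⌈2 / e₁⌉₊ + 2, by positivity,
    lt_min (lt_min hcb hcc) (lt_min hcd hce), ?_⟩
  intro S L₀ hS hL hL'
  have hSa : Sa ≤ S := by omega
  have hSb : Sb ≤ S := by omega
  have hSc : Sc ≤ S := by omega
  have hSd : Sd ≤ S := by omega
  have hSe : Se ≤ S := by omega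
  have hS2 : 2 ≤ S := by omega
  have hSe1 : 2 / e₁ ≤ (S : ℝ) := by
    have h1 : ⌈2 / e₁⌉₊ ≤ S := by omega
    exact (Nat.le_ceil _).trans (by exact_mod_cast h1)
  have hSpos : (0 : ℝ) < S := by
    have : (2 : ℝ) ≤ S := by exact_mod_cast hS2
    linarith
  have hlog : 0 < Real.log S := Real.log_pos (by
    have : (2 : ℝ) ≤ S := by exact_mod_cast hS2
    linarith)
  have hlogle : Real.log S ≤ S := Real.log_le_self hSpos.le
  have hS2pos : (0 : ℝ) ≤ (S : ℝ) ^ 2 := by positivity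
  have hLb : Cb * (S : ℝ) ^ 2 ≤ L₀ * Real.log S := le_trans (mul_le_mul_of_nonneg_right
    ((le_max_left _ _).trans ((le_max_left _ _).trans (le_max_right _ _))) hS2pos) hL
  have hLc : Cc * (S : ℝ) ^ 2 ≤ L₀ * Real.log S := le_trans (mul_le_mul_of_nonneg_right
    ((le_max_right _ _).trans ((le_max_left _ _).trans (le_max_right _ _))) hS2pos) hL
  have hLd : Cd * (S : ℝ) ^ 2 ≤ L₀ * Real.log S := le_trans (mul_le_mul_of_nonneg_right
    ((le_max_left _ _).trans ((le_max_right _ _).trans (le_max_right _ _))) hS2pos) hL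
  have hLe : Ce * (S : ℝ) ^ 2 ≤ L₀ * Real.log S := le_trans (mul_le_mul_of_nonneg_right
    ((le_max_right _ _).trans ((le_max_right _ _).trans (le_max_right _ _))) hS2pos) hL
  have hL1 : (1 : ℝ) * (S : ℝ) ^ 2 ≤ L₀ * Real.log S := le_trans (mul_le_mul_of_nonneg_right
    (le_max_left _ _) hS2pos) hL
  have hUb : (L₀ : ℝ) ≤ cb * (S : ℝ) ^ 2 := hL'.trans (mul_le_mul_of_nonneg_right
    ((min_le_left _ _).trans (min_le_left _ _)) hS2pos)
  have hUc : (L₀ : ℝ) ≤ cc * (S : ℝ) ^ 2 := hL'.trans (mul_le_mul_of_nonneg_right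
    ((min_le_left _ _).trans (min_le_right _ _)) hS2pos)
  have hUd : (L₀ : ℝ) ≤ cd * (S : ℝ) ^ 2 := hL'.trans (mul_le_mul_of_nonneg_right
    ((min_le_right _ _).trans (min_le_left _ _)) hS2pos)
  have hUe : (L₀ : ℝ) ≤ ce * (S : ℝ) ^ 2 := hL'.trans (mul_le_mul_of_nonneg_right
    ((min_le_right _ _).trans (min_le_right _ _)) hS2pos)
  have hSL : (S : ℝ) ≤ L₀ := by
    have h1 : (S : ℝ) ^ 2 ≤ L₀ * S := by
      calc (S : ℝ) ^ 2 = 1 * (S : ℝ) ^ 2 := (one_mul _).symm
        _ ≤ L₀ * Real.log S := hL1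
        _ ≤ L₀ * S := mul_le_mul_of_nonneg_left hlogle (Nat.cast_nonneg _)
    have h2 : (S : ℝ) * S ≤ L₀ * S := by
      rw [← sq]
      exact h1
    exact le_of_mul_le_mul_right h2 hSpos
  have hL2 : 2 ≤ e₁ * L₀ := by
    have h1 : 2 / e₁ ≤ L₀ := hSe1.trans hSL
    rwa [div_le_iff₀ he0, mul_comm] at h1
  have hL₀1 : (1 : ℝ) ≤ L₀ := by
    have : (2 : ℝ) ≤ S := by exact_mod_cast hS2
    linarith
  set T : ℕ := L₀ + ⌊e₁ * L₀⌋₊ with hT
  have hTle : (T : ℝ) ≤ (1 + e₁) * L₀ := by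
    have h1 : ((⌊e₁ * L₀⌋₊ : ℕ) : ℝ) ≤ e₁ * L₀ := Nat.floor_le (by positivity)
    rw [hT]
    push_cast
    linarith
  have hTge : (1 + e₁ / 2) * L₀ ≤ (T : ℝ) := by
    have h1 : e₁ * L₀ < ((⌊e₁ * L₀⌋₊ : ℕ) : ℝ) + 1 := Nat.lt_floor_add_one _
    rw [hT]
    push_cast
    linarith
  have hcard : (1 : ℝ) ≤ (circ S).card := by exact_mod_cast FamS.card_pos S
  set L : ℝ := L₀ * (circ S).card with hLdef
  have hL1' : 1 ≤ L := by
    rw [hLdef]
    exact one_le_mul_of_one_le_of_one_le hL₀1 hcard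
  have hL0 : 0 ≤ L := by linarith
  have hσ : 0 ≤ L₀ * Real.log S := by positivity
  have hV : 0 ≤ Vf S L₀ := by
    unfold Vf
    have := Real.pi_pos
    positivity
  set OT : ℕ := ⌊(1 + e₁) / 2 * S ^ 2 * (L₀ * (circ S).card)⌋₊ with hOTd
  set AT : ℕ := CA * S ^ 2 * (L₀ * (circ S).card) with hATd
  have hOTle : (OT : ℝ) ≤ (1 + e₁) / 2 * S ^ 2 * (L₀ * (circ S).card) :=
    Nat.floor_le (by positivity)
  have hgood : ∀ e : Ix S L₀ → Ix S T, Function.Injective e → D.Good e OT AT :=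
    fun e hinj => hA S hSa L₀ T hTle e hinj
  refine ⟨L, {P | ∃ e : Ix S L₀ → Ix S T, Function.Injective e ∧ P = D.DP e OT AT}, hL1', ?_⟩
  refine ⟨?_, ?_, ?_, ?_, ?_, ?_⟩
  · rintro P ⟨e, -, rfl⟩
    exact hInt D S L₀ T e OT AT
  · rintro P ⟨e, hinj, rfl⟩
    have h1 := (hB S L₀ T hSb hLb hUb hTle e hinj OT AT hOTle le_rfl (hgood e hinj)).1
    refine h1.trans ?_
    have h2 : (1 + 2 * e₁) ≤ 1 + ε := by
      rw [he]
      linarith
    exact mul_le_mul_of_nonneg_right (mul_le_mul_of_nonneg_right h2 hL0) hS2pos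
  · rintro P ⟨e, hinj, rfl⟩
    have h1 := (hB S L₀ T hSb hLb hUb hTle e hinj OT AT hOTle le_rfl (hgood e hinj)).2
    refine h1.trans (Real.exp_le_exp.2 ?_)
    have h2 : (1 + 4 * e₁) ≤ 1 + ε := by
      rw [he]
      linarith
    exact mul_le_mul_of_nonneg_right (mul_le_mul_of_nonneg_right h2 hL0) hσ
  · rintro P ⟨e, hinj, rfl⟩ s hs0 hs1 y hy
    have h0 : s ≤ (1 - e₁) * Vf S L₀ := by
      refine hs1.trans (mul_le_mul_of_nonneg_right ?_ hV)
      rw [he]
      linarith
    have h1 := hC S L₀ T hSc hLc hUc hTle e hinj OT AT hOTle le_rfl (hgood e hinj) s hs0 h0 y hy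
    refine h1.trans (Real.exp_le_exp.2 ?_)
    have h2 : (1 + 5 * e₁) * (L₀ * Real.log S) + 5 * e₁ * s ≤
        (1 + ε) * (L₀ * Real.log S) + ε * s := by
      have h3 : 5 * e₁ = ε / 2 := by
        rw [he]
        ring
      rw [h3]
      have a1 : 0 ≤ ε / 2 * (L₀ * Real.log S) := by positivity
      have a2 : 0 ≤ ε / 2 * s := by positivity
      have a3 : (1 + ε) * (L₀ * Real.log S) + ε * s -
          ((1 + ε / 2) * (L₀ * Real.log S) + ε / 2 * s) =
          ε / 2 * (L₀ * Real.log S) + ε / 2 * s := by ring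
      linarith only [a1, a2, a3]
    have h4 := mul_le_mul_of_nonneg_left h2 hL0
    linarith only [h4]
  · rintro P ⟨e, hinj, rfl⟩ z hz0 hz1 m hm1 hm2 y hy
    have h1 := hD S L₀ T hSd hLd hUd hTle e hinj OT AT hOTle le_rfl (hgood e hinj) z
      (by linarith) hz1 m hm1 hm2 y hy
    refine h1.trans (Real.exp_le_exp.2 ?_)
    have h2 : 0 ≤ L * Vf S L₀ := mul_nonneg hL0 hV
    have h3 : Fj m z - ε ≤ Fj m z - e₁ := by
      rw [he]
      linarith
    have h4 := mul_le_mul_of_nonneg_right h3 h2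
    linarith only [h4]
  · intro γ hγ
    have h0 : ‖γ - D.Y‖ ≤ Real.exp (-((1 + e₁) * Vf S L₀)) := by
      refine hγ.trans (Real.exp_le_exp.2 ?_)
      have h3 : 1 + e₁ ≤ 1 + ε := by
        rw [he]
        linarith
      have h4 := mul_le_mul_of_nonneg_right h3 hV
      linarith only [h4]
    obtain ⟨e, hinj, hne⟩ := hE S L₀ T hSe hLe hUe hTge hTle OT AT hgood γ h0
    exact ⟨_, ⟨e, hinj, rfl⟩, hne⟩

end GSL

end

section

open Polynomial

namespace GSL

namespace Field

theorem conj_eq {β : ℂ} (h : IQ β) {t n : ℤ} (hq : β ^ 2 = t * β - n) :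
    starRingEnd ℂ β = t - β ∧ β * starRingEnd ℂ β = n := by
  have h1 : starRingEnd ℂ β ^ 2 = t * starRingEnd ℂ β - n := by
    have := congrArg (starRingEnd ℂ) hq
    simpa using this
  have hne : β - starRingEnd ℂ β ≠ 0 := by
    intro h0
    apply h.im
    have := congrArg Complex.im h0
    simp at this
    linarith
  have h2 : (β - starRingEnd ℂ β) * (β + starRingEnd ℂ β - t) = 0 := by
    linear_combination hq - h1
  have h3 : β + starRingEnd ℂ β - t = 0 := (mul_eq_zero.mp h2).resolve_left hne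
  have h4 : starRingEnd ℂ β = t - β := by linear_combination h3
  refine ⟨h4, ?_⟩
  rw [h4]
  linear_combination -hq

theorem mul_mem {β : ℂ} {t n : ℤ} (hq : β ^ 2 = t * β - n) {x y : ℂ} (hx : x ∈ Kb β)
    (hy : y ∈ Kb β) : x * y ∈ Kb β := by
  obtain ⟨u, v, rfl⟩ := hx
  obtain ⟨u', v', rfl⟩ := hy
  refine ⟨u * u' - n * v * v', u * v' + v * u' + t * v * v', ?_⟩
  push_cast
  linear_combination (v : ℂ) * v' * hq

theorem conj_mem {β : ℂ} (h : IQ β) {x : ℂ} (hx : x ∈ Kb β) : starRingEnd ℂ x ∈ Kb β := by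
  obtain ⟨t, n, hq⟩ := h.quad
  obtain ⟨u, v, rfl⟩ := hx
  refine ⟨u + v * t, -v, ?_⟩
  have h1 := (conj_eq h hq).1
  simp only [map_add, map_mul, h1]
  have h2 : starRingEnd ℂ (u : ℂ) = u := by simp
  have h3 : starRingEnd ℂ (v : ℂ) = v := by simp
  rw [h2, h3]
  push_cast
  ring

/-- `x * conj x` is rational. -/
theorem norm_rat {β : ℂ} (h : IQ β) {x : ℂ} (hx : x ∈ Kb β) :
    ∃ q : ℚ, x * starRingEnd ℂ x = (q : ℂ) := by
  obtain ⟨t, n, hq⟩ := h.quad
  obtain ⟨u, v, rfl⟩ := hx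
  have h1 := (conj_eq h hq).1
  refine ⟨u ^ 2 + u * v * t + v ^ 2 * n, ?_⟩
  simp only [map_add, map_mul, h1]
  have h2 : starRingEnd ℂ (u : ℂ) = u := by simp
  have h3 : starRingEnd ℂ (v : ℂ) = v := by simp
  rw [h2, h3]
  push_cast
  linear_combination -(v : ℂ) ^ 2 * hq

theorem inv_mem {β : ℂ} (h : IQ β) {x : ℂ} (hx : x ∈ Kb β) : x⁻¹ ∈ Kb β := by
  obtain ⟨t, n, hq⟩ := h.quad
  obtain ⟨q, hqq⟩ := norm_rat h hx
  by_cases hx0 : x = 0
  · subst hx0
    exact ⟨0, 0, by simp⟩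
  have hc : starRingEnd ℂ x ≠ 0 := by
    intro h0
    exact hx0 ((map_eq_zero _).mp h0)
  have hq0 : (q : ℂ) ≠ 0 := by
    rw [← hqq]
    exact mul_ne_zero hx0 hc
  have h1 : x⁻¹ = starRingEnd ℂ x * ((q⁻¹ : ℚ) : ℂ) := by
    push_cast
    rw [eq_mul_inv_iff_mul_eq₀ hq0, ← hqq]
    field_simp
  rw [h1]
  exact mul_mem hq (conj_mem h hx) ⟨q⁻¹, 0, by simp⟩

/-- `ℚ(β)` as an intermediate field with carrier `Kb β`. -/
def KF {β : ℂ} (h : IQ β) : IntermediateField ℚ ℂ where
  carrier := Kb β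
  mul_mem' := fun hx hy => by
    obtain ⟨t, n, hq⟩ := h.quad
    exact mul_mem hq hx hy
  one_mem' := ⟨1, 0, by simp⟩
  add_mem' := fun {x y} hx hy => by
    obtain ⟨u, v, rfl⟩ := hx
    obtain ⟨u', v', rfl⟩ := hy
    exact ⟨u + u', v + v', by push_cast; ring⟩
  zero_mem' := ⟨0, 0, by simp⟩
  algebraMap_mem' := fun r => ⟨r, 0, by simp⟩
  inv_mem' := fun x hx => inv_mem h hx

theorem mem_KF {β : ℂ} (h : IQ β) (x : ℂ) : x ∈ KF h ↔ x ∈ Kb β := Iff.rfl

theorem mem_Fb_iff {β : ℂ} (h : IQ β) (x : ℂ) : x ∈ Fb β ↔ x ∈ Kb β := by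
  constructor
  · intro hx
    have h1 : Fb β ≤ KF h := by
      rw [IntermediateField.adjoin_le_iff]
      rintro y hy
      rw [Set.mem_singleton_iff] at hy
      subst hy
      exact ⟨0, 1, by simp⟩
    exact h1 hx
  · rintro ⟨u, v, rfl⟩
    have hβ : β ∈ Fb β := IntermediateField.mem_adjoin_simple_self ℚ β
    have hu : (u : ℂ) ∈ Fb β := (Fb β).algebraMap_mem u
    have hv : (v : ℂ) ∈ Fb β := (Fb β).algebraMap_mem v
    exact (Fb β).add_mem hu ((Fb β).mul_mem hv hβ)

theorem int_of_rat {q : ℚ} (hq : IsIntegral ℤ (q : ℂ)) : ∃ k : ℤ, (q : ℚ) = k := by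
  have h1 : IsIntegral ℤ q := by
    have h2 : IsIntegral ℤ (algebraMap ℚ ℂ q) := by simpa using hq
    exact (isIntegral_algebraMap_iff (algebraMap ℚ ℂ).injective).mp h2
  obtain ⟨k, hk⟩ := IsIntegrallyClosed.isIntegral_iff.mp h1
  exact ⟨k, by rw [← hk]; simp⟩

theorem isIntegral_conj {x : ℂ} (hx : IsIntegral ℤ x) : IsIntegral ℤ (starRingEnd ℂ x) := by
  have := hx.map ((starRingEnd ℂ).toIntAlgHom)
  simpa using this

theorem one_le {β : ℂ} (h : IQ β) {x : ℂ} (hx : x ∈ Kb β) (hi : IsIntegral ℤ x) (h0 : x ≠ 0) :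
    1 ≤ ‖x‖ := by
  obtain ⟨q, hq⟩ := norm_rat h hx
  have h1 : IsIntegral ℤ (q : ℂ) := by
    rw [← hq]
    exact hi.mul (isIntegral_conj hi)
  obtain ⟨k, hk⟩ := int_of_rat h1
  have h2 : ((‖x‖ ^ 2 : ℝ) : ℂ) = ((k : ℝ) : ℂ) := by
    rw [← Complex.normSq_eq_norm_sq, ← Complex.mul_conj, hq, hk]
    push_cast
    rfl
  have h3 : ‖x‖ ^ 2 = (k : ℝ) := by exact_mod_cast h2
  have h4 : 0 < ‖x‖ := norm_pos_iff.mpr h0
  have h5 : (0 : ℝ) < k := by
    rw [← h3]
    positivity
  have h6 : (1 : ℝ) ≤ k := by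
    have : 0 < k := by exact_mod_cast h5
    exact_mod_cast this
  nlinarith

theorem ob_integral {β : ℂ} (h : IQ β) {x : ℂ} (hx : x ∈ Ob β) : IsIntegral ℤ x := by
  obtain ⟨t, n, hq⟩ := h.quad
  obtain ⟨a, b, rfl⟩ := hx
  have hβ : IsIntegral ℤ β := by
    refine ⟨X ^ 2 - C t * X + C n, ?_, ?_⟩
    · monicity!
    · simp only [eval₂_add, eval₂_sub, eval₂_pow, eval₂_X, eval₂_mul, eval₂_C]
      simp only [eq_intCast]
      linear_combination hq
  have ha : IsIntegral ℤ (a : ℂ) := isIntegral_algebraMap (R := ℤ) (A := ℂ) (x := a)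
  have hb : IsIntegral ℤ (b : ℂ) := isIntegral_algebraMap (R := ℤ) (A := ℂ) (x := b)
  exact ha.add (hb.mul hβ)

end Field

theorem field : StmtField := by
  intro β h
  obtain ⟨t, n, hq⟩ := h.quad
  refine ⟨fun x => Field.mem_Fb_iff h x, fun x hx => ⟨Field.ob_integral h hx, ?_⟩, ?_, ?_, ?_, ?_⟩
  · obtain ⟨a, b, rfl⟩ := hx
    exact ⟨a, b, by push_cast; ring⟩
  · rintro x ⟨a, b, rfl⟩ y ⟨a', b', rfl⟩
    refine ⟨⟨a + a', b + b', by push_cast; ring⟩,
      ⟨a * a' - n * b * b', a * b' + b * a' + t * b * b', ?_⟩,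
      ⟨a - a', b - b', by push_cast; ring⟩⟩
    push_cast
    linear_combination (b : ℂ) * b' * hq
  · intro x hx
    exact Field.conj_mem h hx
  · intro x hx hi h0
    exact Field.one_le h hx hi h0
  · rintro x ⟨u, v, rfl⟩
    refine ⟨u.den * v.den, Nat.mul_pos u.den_pos v.den_pos, u.num * v.den, v.num * u.den, ?_⟩
    have h1 : ((u.den : ℂ)) * (u : ℂ) = u.num := by
      have := Rat.mul_den_eq_num u
      have h2 : ((u * u.den : ℚ) : ℂ) = ((u.num : ℚ) : ℂ) := by rw [this]
      push_cast at h2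
      rw [mul_comm]
      exact h2
    have h1' : ((v.den : ℂ)) * (v : ℂ) = v.num := by
      have := Rat.mul_den_eq_num v
      have h2 : ((v * v.den : ℚ) : ℂ) = ((v.num : ℚ) : ℂ) := by rw [this]
      push_cast at h2
      rw [mul_comm]
      exact h2
    push_cast
    linear_combination (v.den : ℂ) * h1 + (u.den : ℂ) * β * h1'

end GSL

end

section

open Polynomial

namespace GSL

namespace Final

theorem exists_fin_roots (P : ℂ[X]) : ∃ (N : ℕ) (x : Fin N → ℂ), N = P.natDegree ∧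
    P = C P.leadingCoeff * ∏ r, (X - C (x r)) := by
  refine ⟨P.roots.toList.length, fun r => P.roots.toList.get r, ?_, ?_⟩
  · rw [Multiset.length_toList]
    exact (IsAlgClosed.splits P).natDegree_eq_card_roots.symm
  · have h := (IsAlgClosed.splits P).eq_prod_roots
    conv_lhs => rw [h]
    congr 1
    have h2 : (P.roots.map fun a => X - C a).prod =
        ((P.roots.toList.map fun a => X - C a)).prod := by
      conv_lhs => rw [← Multiset.coe_toList P.roots]
      rw [Multiset.map_coe, Multiset.prod_coe]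
    rw [h2]
    rw [← List.prod_ofFn]
    congr 1
    apply List.ext_getElem <;> simp

theorem aux1 {c u : ℝ} (hc : 0 < c) (hu : 0 < u) (h : 1 / c ≤ u) : u ≤ c * u ^ 2 := by
  have : 1 ≤ c * u := by
    have := (div_le_iff₀ hc).1 h
    linarith
  nlinarith

theorem aux2 {u V : ℝ} (hu : 1 ≤ u) (hV : V = Real.exp (u ^ 2)) : u ≤ V := by
  have := Real.add_one_le_exp (u ^ 2)
  rw [← hV] at this
  nlinarith

theorem aux3 {u t : ℝ} (hu : 2 ≤ u) (hV : t = Real.exp (u ^ 2 / 2)) : u ≤ t := by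
  have := Real.add_one_le_exp (u ^ 2 / 2)
  rw [← hV] at this
  nlinarith

theorem aux4 {cp u ρm : ℝ} (hcp : 0 < cp) (hu : 1 ≤ u) (h1 : 20000 / cp ≤ u)
    (h2 : 10000 * ρm ≤ u) (h3 : 0 < ρm) : ρm ≤ cp * (u ^ 2 / 2) := by
  have h4 : 20000 ≤ cp * u := by
    have := (div_le_iff₀ hcp).1 h1
    linarith
  nlinarith

theorem aux5 {δ t V u : ℝ} (ht : t * t = V) (hδ : δ ^ 2 = V / (2 * Real.pi * u)) (hδ0 : 0 < δ)
    (ht0 : 0 < t) (hu : (10 : ℝ) ^ 9 ≤ u) : (1 + 1 / 10000) * δ * t ≤ 1 / 10000 * V := by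
  have hpi := Real.pi_gt_three
  have hV0 : 0 < V := by rw [← ht]; positivity
  have h1 : δ * 10001 ≤ t := by
    have h2 : (δ * 10001) ^ 2 ≤ t ^ 2 := by
      have h3 : t ^ 2 = V := by rw [sq]; exact ht
      rw [h3, mul_pow, hδ, div_mul_eq_mul_div, div_le_iff₀ (by positivity)]
      have : (10001 : ℝ) ^ 2 ≤ 2 * Real.pi * u := by nlinarith
      exact mul_le_mul_of_nonneg_left this hV0.le
    exact (pow_le_pow_iff_left₀ (by positivity) ht0.le (by norm_num)).1 h2
  nlinarith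

theorem aux6 {cp u : ℝ} (hcp : 0 < cp) (hu : 0 < u) (h1 : 20000 / cp ≤ u) :
    u ≤ 1 / 10000 * (cp * (u ^ 2 / 2)) := by
  have h4 : 20000 ≤ cp * u := by
    have := (div_le_iff₀ hcp).1 h1
    linarith
  nlinarith

theorem aux7 {W A : ℝ} (hW : 0 < W) (hA : A = (1 + 1 / 10000) ^ 2 * W) : ¬
    ((7486 / 10000 - 100 * (1 / 10000)) * (2 * Real.pi * W) ≤
      2 * A + A * (1 / 10000) + (1 + 1 / 10000) * 2.5466 * (A * (1 + 2 / 10000))) := by
  have hpi1 : 3.1415 < Real.pi := Real.pi_gt_d4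
  intro h
  rw [hA] at h
  nlinarith

end Final

open Final in
theorem final (hF : StmtField) (hL1 : StmtL1) (hJ : StmtJen) (hU : StmtUpper)
    (hLo : StmtLower) : StmtFinal := by
  intro β Y hβ hI
  obtain ⟨ρm, cp, U₀, hρm, hcp, hU₀, H1⟩ := hU β Y hβ hI (1 / 10000) (by norm_num) (by norm_num)
  obtain ⟨Cc, c, V₀, hC, hc, hV₀, H2⟩ := hI (1 / 10000) (by norm_num) (by norm_num)
  set u : ℝ := 10 ^ 9 + Cc + 1 / c + U₀ + V₀ + 20000 / cp + 10000 * ρm with hu
  have e1 : 0 < 1 / c := by positivity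
  have e2 : 0 < 20000 / cp := by positivity
  have e3 : (0 : ℝ) < 10 ^ 9 := by norm_num
  have hu9 : (10 : ℝ) ^ 9 ≤ u := by rw [hu]; linarith
  have huC : Cc ≤ u := by rw [hu]; linarith
  have huc : 1 / c ≤ u := by rw [hu]; linarith
  have huU : U₀ ≤ u := by rw [hu]; linarith
  have huV : V₀ ≤ u := by rw [hu]; linarith
  have hucp : 20000 / cp ≤ u := by rw [hu]; linarith
  have hum : 10000 * ρm ≤ u := by rw [hu]; linarith
  have hu0 : 0 < u := by linarith [show (0 : ℝ) < 10 ^ 9 by norm_num]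
  set V : ℝ := Real.exp (u ^ 2) with hV
  have hV0 : 0 < V := Real.exp_pos _
  have hlogV : Real.log V = u ^ 2 := Real.log_exp _
  have hrho : Real.sqrt (Real.log V) = u := by rw [hlogV]; exact Real.sqrt_sq hu0.le
  have hu2 : 2 ≤ u := le_trans (by norm_num) hu9
  have hu1 : 1 ≤ u := le_trans (by norm_num) hu2
  have hVu : u ≤ V := aux2 hu1 hV
  have hc1 : u ≤ c * Real.log V := by
    rw [hlogV]
    exact aux1 hc hu0 huc
  obtain ⟨L, D, hL, hD⟩ := H2 V u (huV.trans hVu) huC hc1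
  set δ : ℝ := Real.sqrt (V / (2 * Real.pi * u)) with hδ
  set σ : ℝ := Real.sqrt (V * u / (2 * Real.pi)) with hσ
  have hpi := Real.pi_pos
  have hδ2 : δ ^ 2 = V / (2 * Real.pi * u) := Real.sq_sqrt (by positivity)
  have hσ2 : σ ^ 2 = V * u / (2 * Real.pi) := Real.sq_sqrt (by positivity)
  have hδ0 : 0 < δ := Real.sqrt_pos.2 (by positivity)
  have hσ0 : 0 < σ := Real.sqrt_pos.2 (by positivity)
  have hσδ : σ = u * δ := by
    have : σ ^ 2 = (u * δ) ^ 2 := by
      rw [mul_pow, hσ2, hδ2]; field_simp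
    exact (pow_left_inj₀ hσ0.le (by positivity) (by norm_num)).1 this
  obtain ⟨P, hP, hPY⟩ := hD.NV Y (by rw [sub_self, norm_zero]; positivity)
  have hP0 : P ≠ 0 := by
    rintro rfl
    simp at hPY
  obtain ⟨N, x, hN, hx⟩ := Final.exists_fin_roots P
  have hxY : ∀ r, x r ≠ Y := by
    intro r hr
    apply hPY
    rw [hx, eval_mul, eval_prod]
    rw [Finset.prod_eq_zero (Finset.mem_univ r) (by simp [hr])]
    simp
  have hlead : 1 ≤ ‖P.leadingCoeff‖ := by
    obtain ⟨f1, f2, f3, f4, f5, f6⟩ := hF β hβ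
    have := f2 _ (hD.coeff P hP P.natDegree)
    exact f5 _ this.2 this.1 (by simpa using hP0)
  obtain ⟨l1a, -, -, -, -, -, -, -, -, -, l1m⟩ := hL1
  have hH := l1m P hP0 N x hx
  have hl1 := hD.height P hP
  have hH2 : Real.log ‖P.leadingCoeff‖ + ∑ r, Real.posLog ‖x r‖ ≤
      (1 + 1 / 10000) * L * σ := by
    refine hH.trans ?_
    rcases (l1a P).eq_or_lt with h | h
    · rw [← h, Real.log_zero]; positivity
    · calc Real.log (l1 P) ≤ Real.log (Real.exp ((1 + 1 / 10000) * L * σ)) :=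
            Real.log_le_log h hl1
        _ = _ := Real.log_exp _
  have hNd : (N : ℝ) ≤ (1 + 1 / 10000) * L * δ := by
    rw [hN]; exact hD.deg P hP
  -- t₀
  set t₀ : ℝ := Real.exp (u ^ 2 / 2) with ht₀
  have ht₀0 : 0 < t₀ := Real.exp_pos _
  have ht₀V : t₀ * t₀ = V := by
    rw [ht₀, hV, ← Real.exp_add]; ring_nf
  have ht₀l : Real.log t₀ = u ^ 2 / 2 := Real.log_exp _
  have ht₀u : u ≤ t₀ := aux3 hu2 ht₀
  have hup := H1 P (hD.coeff P hP) hP0 N x hx hxY t₀ (huU.trans ht₀u) (cp * Real.log t₀)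
    (by
      rw [ht₀l]
      exact aux4 hcp hu1 hucp hum hρm) le_rfl ((1 + 1 / 10000) * L * σ) hH2
  have hδt : (1 + 1 / 10000) * δ * t₀ ≤ 1 / 10000 * V := aux5 ht₀V hδ2 hδ0 ht₀0 hu9
  have hlow := hLo N (fun r => cl Y (x r)) L V t₀ (1 / 10000) (fun r => le_max_left _ _)
    (by linarith) hV0 ht₀0.le
    (by
      have : (4096 : ℝ) ≤ t₀ := le_trans (le_trans (by norm_num) hu9) ht₀u
      rw [← ht₀V, le_div_iff₀ (by norm_num)]
      exact mul_le_mul_of_nonneg_left this ht₀0.le)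
    (by
      calc (N : ℝ) * t₀ ≤ (1 + 1 / 10000) * L * δ * t₀ := by
            exact mul_le_mul_of_nonneg_right hNd ht₀0.le
        _ = L * ((1 + 1 / 10000) * δ * t₀) := by ring
        _ ≤ L * (1 / 10000 * V) := by
            exact mul_le_mul_of_nonneg_left hδt (by linarith)
        _ = _ := by ring)
    (by norm_num)
    (by
      intro z hz1 hz2 m hm1 hm2
      have hz0 : 0 ≤ z := by linarith [show (0:ℝ) < 1/5000 by norm_num]
      have := hJ Y P.leadingCoeff N x (z * V) ((Fj m z - 1 / 10000) * (L * V)) hlead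
        (by positivity) hxY (by
          intro y hy
          rw [← hx]
          exact hD.E2 P hP z hz1 hz2 m hm1 hm2 y hy)
      exact this)
  have key := hlow.trans hup
  have hLpos : 0 < L := by linarith
  set M : ℝ := (1 + 1 / 10000) * L * δ with hM
  set H : ℝ := (1 + 1 / 10000) * L * σ with hHdef
  have hM0 : 0 < M := by positivity
  have hH0 : 0 < H := by positivity
  have hN0 : (0 : ℝ) ≤ N := Nat.cast_nonneg N
  have hNH : N * H ≤ M * H := mul_le_mul_of_nonneg_right hNd hH0.le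
  have hNN : (N : ℝ) ^ 2 ≤ M ^ 2 := pow_le_pow_left₀ hN0 hNd 2
  set W : ℝ := L ^ 2 * V / (2 * Real.pi) with hW
  have hW0 : 0 < W := by positivity
  have hMH : M * H = (1 + 1 / 10000) ^ 2 * W := by
    rw [hM, hHdef, hW, hσδ]
    have : (1 + 1 / 10000) * L * δ * ((1 + 1 / 10000) * L * (u * δ)) =
      (1 + 1 / 10000) ^ 2 * L ^ 2 * u * δ ^ 2 := by ring
    rw [this, hδ2]
    field_simp
  have hMM : M ^ 2 * u = (1 + 1 / 10000) ^ 2 * W := by
    rw [← hMH, hHdef, hσδ, hM]; ring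
  have hHH : H ^ 2 = (1 + 1 / 10000) ^ 2 * W * u := by
    rw [← hMH, hHdef, hσδ, hM]; ring
  have hHp : H ^ 2 / (cp * Real.log t₀) ≤ (1 + 1 / 10000) ^ 2 * W * (1 / 10000) := by
    rw [hHH, ht₀l, div_le_iff₀ (by positivity)]
    have h2 : u ≤ 1 / 10000 * (cp * (u ^ 2 / 2)) := aux6 hcp hu0 hucp
    calc (1 + 1 / 10000) ^ 2 * W * u ≤
        (1 + 1 / 10000) ^ 2 * W * (1 / 10000 * (cp * (u ^ 2 / 2))) :=
          mul_le_mul_of_nonneg_left h2 (by positivity)
      _ = _ := by ring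
  have hMρ : M ^ 2 * ρm ≤ (1 + 1 / 10000) ^ 2 * W * (1 / 10000) := by
    rw [← hMM]
    have : ρm ≤ u * (1 / 10000) := by linarith
    calc M ^ 2 * ρm ≤ M ^ 2 * (u * (1 / 10000)) := mul_le_mul_of_nonneg_left this (by positivity)
      _ = _ := by ring
  have hM2 : M ^ 2 * Real.log 2 ≤ (1 + 1 / 10000) ^ 2 * W * (1 / 10000) := by
    rw [← hMM]
    have h1 : Real.log 2 ≤ 1 := by
      have := Real.log_two_lt_d9
      linarith
    have : Real.log 2 ≤ u * (1 / 10000) := by linarith [le_trans (show (10000:ℝ) ≤ 10 ^ 9 by norm_num) hu9]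
    calc M ^ 2 * Real.log 2 ≤ M ^ 2 * (u * (1 / 10000)) :=
          mul_le_mul_of_nonneg_left this (by positivity)
      _ = _ := by ring
  have hpi1 : 3.1415 < Real.pi := Real.pi_gt_d4
  have h8 : 8 / Real.pi ≤ 2.5466 := by
    rw [div_le_iff₀ hpi]
    linarith
  have h80 : 0 < 8 / Real.pi := by positivity
  have hLV : L ^ 2 * V = 2 * Real.pi * W := by
    rw [hW]; field_simp
  rw [hLV] at key
  have hlog2 : 0 ≤ Real.log 2 := Real.log_nonneg (by norm_num)
  have hNN2 : (N : ℝ) ^ 2 * Real.log 2 ≤ (1 + 1 / 10000) ^ 2 * W * (1 / 10000) :=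
    (mul_le_mul_of_nonneg_right hNN hlog2).trans hM2
  have hNN3 : (N : ℝ) ^ 2 * ρm ≤ (1 + 1 / 10000) ^ 2 * W * (1 / 10000) :=
    (mul_le_mul_of_nonneg_right hNN hρm.le).trans hMρ
  rw [hMH] at hNH
  set A : ℝ := (1 + 1 / 10000) ^ 2 * W with hA
  have hA0 : 0 < A := by positivity
  have hS : (N : ℝ) * H + H ^ 2 / (cp * Real.log t₀) + (N : ℝ) ^ 2 * ρm ≤ A * (1 + 2 / 10000) := by
    linarith
  have hS2 : (1 + 1 / 10000) * (8 / Real.pi) *
      ((N : ℝ) * H + H ^ 2 / (cp * Real.log t₀) + (N : ℝ) ^ 2 * ρm) ≤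
      (1 + 1 / 10000) * 2.5466 * (A * (1 + 2 / 10000)) := by
    apply mul_le_mul _ hS _ (by norm_num)
    · apply mul_le_mul_of_nonneg_left h8 (by norm_num)
    · have : 0 ≤ H ^ 2 / (cp * Real.log t₀) := by
        rw [ht₀l]; positivity
      positivity
  have hfin : (7486 / 10000 - 100 * (1 / 10000)) * (2 * Real.pi * W) ≤
      2 * A + A * (1 / 10000) + (1 + 1 / 10000) * 2.5466 * (A * (1 + 2 / 10000)) := by
    have : 2 * (N : ℝ) * H ≤ 2 * A := by linarith
    linarith
  exact aux7 hW0 hA hfin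

end GSL

end

section

/-!
# MP_327059_nt : Hermite basis polynomials with bounds
-/

open Polynomial Filter Topology Set

namespace GSL

namespace Herm

lemma iteratedDeriv_eval (P : ℂ[X]) (k : ℕ) :
    iteratedDeriv k (fun z => P.eval z) = fun z => (derivative^[k] P).eval z := by
  induction k with
  | zero => simp
  | succ n ih =>
    rw [iteratedDeriv_succ, ih]
    funext z
    rw [Function.iterate_succ_apply']
    exact Polynomial.deriv _

/-- the derivatives of `(X - c)^n` at `c` -/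
lemma eval_deriv_pow (c : ℂ) (n k : ℕ) :
    (derivative^[k] ((X - C c) ^ n)).eval c = if k = n then (n.factorial : ℂ) else 0 := by
  rw [Polynomial.iterate_derivative_X_sub_pow]
  split_ifs with h
  · subst h
    simp [Nat.descFactorial_self]
  · rcases Nat.lt_or_gt_of_ne h with h | h
    · have : n - k ≠ 0 := by omega
      simp [this]
    · rw [Nat.descFactorial_eq_zero_iff_lt.2 h]
      simp

end Herm

open Herm

theorem herm : StmtHerm := by
  intro ι _ _ x T ρ μ r hT hρ hμ hsep hlow hr hρr hxr i tau htau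
  set Pi : ℂ[X] := ∏ j ∈ Finset.univ.erase i, (X - C (x j)) ^ T with hPi
  have hPie : ∀ z, Pi.eval z = ∏ j ∈ Finset.univ.erase i, (z - x j) ^ T := by
    intro z
    rw [hPi, Polynomial.eval_prod]
    simp
  have hPi0 : ∀ z ∈ Metric.closedBall (x i) ρ, Pi.eval z ≠ 0 := by
    intro z hz
    rw [hPie, Finset.prod_ne_zero_iff]
    intro j hj
    refine pow_ne_zero _ (sub_ne_zero.2 ?_)
    rintro rfl
    have h1 := hsep j i (Finset.ne_of_mem_erase hj)
    rw [Metric.mem_closedBall, dist_eq_norm] at hz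
    linarith
  set φ : ℂ → ℂ := fun z => (Pi.eval z)⁻¹ with hφ
  have hφd : DifferentiableOn ℂ φ (Metric.closedBall (x i) ρ) :=
    Pi.differentiable.differentiableOn.inv hPi0
  have hφdc : DiffContOnCl ℂ φ (Metric.ball (x i) ρ) := hφd.diffContOnCl_ball le_rfl
  have hφa : AnalyticAt ℂ φ (x i) := by
    refine (Pi.differentiable.analyticAt _).inv (hPi0 _ ?_)
    simp [hρ.le]
  set a : ℕ → ℂ := fun k => iteratedDeriv k φ (x i) / (k.factorial : ℂ) with ha
  have hab : ∀ k, ‖a k‖ ≤ (ρ⁻¹) ^ k / μ := by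
    intro k
    have h1 := Complex.norm_iteratedDeriv_le_of_forall_mem_sphere_norm_le (C := μ⁻¹) k hρ hφdc
      (fun z hz => by
        rw [hφ]
        simp only [norm_inv]
        rw [hPie]
        refine inv_anti₀ hμ (hlow i z ?_)
        rwa [mem_sphere_iff_norm] at hz)
    have hk : (0 : ℝ) < k.factorial := by exact_mod_cast k.factorial_pos
    rw [ha]
    simp only [norm_div, Complex.norm_natCast]
    rw [div_le_iff₀ hk]
    refine h1.trans (le_of_eq ?_)
    rw [inv_pow]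
    field_simp
  -- the polynomial
  set T' := T - tau with hT'
  set q : ℂ[X] := ∑ k ∈ Finset.range T', C (a k) * (X - C (x i)) ^ k with hq
  set h0 : ℂ[X] := C (1 / (tau.factorial : ℂ)) * (X - C (x i)) ^ tau with hh0
  have hqd : ∀ k < T', (derivative^[k] q).eval (x i) = iteratedDeriv k φ (x i) := by
    intro k hk
    rw [hq, Polynomial.iterate_derivative_sum, Polynomial.eval_finsetSum, Finset.sum_eq_single k]
    · rw [Polynomial.iterate_derivative_C_mul, eval_mul, eval_C, eval_deriv_pow, if_pos rfl, ha]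
      have : (k.factorial : ℂ) ≠ 0 := by exact_mod_cast k.factorial_ne_zero
      field_simp
    · intro j _ hj
      rw [Polynomial.iterate_derivative_C_mul, eval_mul, eval_C, eval_deriv_pow,
        if_neg (Ne.symm hj), mul_zero]
    · intro hk'
      exact absurd (Finset.mem_range.2 hk) hk'
  have hord : (T' : ℕ∞) ≤ analyticOrderAt (fun z => q.eval z - φ z) (x i) := by
    rw [natCast_le_analyticOrderAt_iff_iteratedDeriv_eq_zero
      ((q.differentiable.analyticAt _).fun_sub hφa)]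
    intro k hk
    rw [iteratedDeriv_fun_sub q.differentiable.contDiff.contDiffAt hφa.contDiffAt,
      iteratedDeriv_eval]
    change (derivative^[k] q).eval (x i) - iteratedDeriv k φ (x i) = 0
    rw [hqd k hk, sub_self]
  have hord2 : (T : ℕ∞) ≤ analyticOrderAt (fun z => (h0 * q * Pi - h0).eval z) (x i) := by
    rw [natCast_le_analyticOrderAt ((q.differentiable.analyticAt _).fun_sub hφa)] at hord
    obtain ⟨g, hg, hgq⟩ := hord
    rw [natCast_le_analyticOrderAt ((h0 * q * Pi - h0).differentiable.analyticAt _)]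
    refine ⟨fun z => (1 / (tau.factorial : ℂ)) * Pi.eval z * g z, ?_, ?_⟩
    · exact (analyticAt_const.mul (Pi.differentiable.analyticAt _)).mul hg
    · filter_upwards [hgq, Metric.closedBall_mem_nhds (x i) hρ] with z hz hzb
      have hne := hPi0 z hzb
      have e1 : q.eval z = (Pi.eval z)⁻¹ + (z - x i) ^ T' * g z := by
        rw [smul_eq_mul] at hz
        rw [← hz, hφ]
        ring
      have e2 : (z - x i) ^ T = (z - x i) ^ tau * (z - x i) ^ T' := by
        rw [← pow_add]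
        congr 1
        omega
      simp only [eval_sub, eval_mul, smul_eq_mul]
      rw [e1, e2, hh0]
      simp only [eval_mul, eval_C, eval_pow, eval_sub, eval_X]
      field_simp
      ring
  refine ⟨h0 * q * Pi, ?_, ?_, ?_⟩
  · -- degree
    have hcard : 0 < Fintype.card ι := Fintype.card_pos_iff.2 ⟨i⟩
    have d1 : (h0 * q).natDegree ≤ T - 1 := by
      rw [hq, Finset.mul_sum]
      refine Polynomial.natDegree_sum_le_of_forall_le _ _ fun k hk => ?_
      have hk' := Finset.mem_range.1 hk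
      rw [hh0]
      have e : C (1 / (tau.factorial : ℂ)) * (X - C (x i)) ^ tau * (C (a k) * (X - C (x i)) ^ k) =
          C (1 / (tau.factorial : ℂ) * a k) * (X - C (x i)) ^ (tau + k) := by
        rw [C_mul, pow_add]
        ring
      rw [e]
      refine (natDegree_C_mul_le _ _).trans ?_
      rw [natDegree_pow, natDegree_X_sub_C]
      omega
    have d2 : Pi.natDegree ≤ T * (Fintype.card ι - 1) := by
      rw [hPi]
      refine (natDegree_prod_le _ _).trans ?_
      simp only [natDegree_pow, natDegree_X_sub_C, mul_one, Finset.sum_const, smul_eq_mul,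
        Finset.card_erase_of_mem (Finset.mem_univ i), Finset.card_univ]
      rw [mul_comm]
    have d3 := natDegree_mul_le (p := h0 * q) (q := Pi)
    have e4 : T * Fintype.card ι = T * (Fintype.card ι - 1) + T := by
      obtain ⟨n, hn⟩ := Nat.exists_eq_succ_of_ne_zero hcard.ne'
      rw [hn]
      simp [Nat.mul_succ]
    omega
  · -- derivatives
    intro j k hk
    by_cases hj : j = i
    · subst hj
      rw [natCast_le_analyticOrderAt_iff_iteratedDeriv_eq_zero
        ((h0 * q * Pi - h0).differentiable.analyticAt _)] at hord2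
      have h1 := hord2 k hk
      rw [iteratedDeriv_eval] at h1
      simp only [Polynomial.iterate_derivative_sub, eval_sub] at h1
      rw [sub_eq_zero] at h1
      rw [h1, hh0, Polynomial.iterate_derivative_C_mul, eval_mul, eval_C, eval_deriv_pow]
      by_cases hkt : k = tau
      · rw [if_pos hkt, if_pos ⟨rfl, hkt⟩]
        have : (tau.factorial : ℂ) ≠ 0 := by exact_mod_cast tau.factorial_ne_zero
        field_simp
      · rw [if_neg hkt, if_neg (by tauto), mul_zero]
    · rw [if_neg (by tauto)]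
      have hdvd : (X - C (x j)) ^ T ∣ h0 * q * Pi := by
        refine Dvd.dvd.mul_left ?_ _
        rw [hPi]
        exact Finset.dvd_prod_of_mem (fun j => (X - C (x j)) ^ T)
          (Finset.mem_erase.2 ⟨hj, Finset.mem_univ j⟩)
      have h2 := Polynomial.pow_sub_dvd_iterate_derivative_of_pow_dvd k hdvd
      have h3 : (X - C (x j)) ∣ derivative^[k] (h0 * q * Pi) :=
        (dvd_pow_self _ (by omega)).trans h2
      exact Polynomial.dvd_iff_isRoot.1 h3
  · -- bound
    intro r' hr' z hz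
    have hr'1 : 1 ≤ r' := hr.trans hr'
    have h2r : 1 ≤ 2 * r' := by linarith
    have hzx : ∀ j, ‖z - x j‖ ≤ 2 * r' := by
      intro j
      have := norm_sub_le z (x j)
      have := hxr j
      linarith
    set m := max 1 ρ⁻¹ with hm
    have hm1 : 1 ≤ m := le_max_left _ _
    have b1 : ‖Pi.eval z‖ ≤ (2 * r') ^ (T * (Fintype.card ι - 1)) := by
      rw [hPie, norm_prod]
      calc ∏ j ∈ Finset.univ.erase i, ‖(z - x j) ^ T‖
          ≤ ∏ j ∈ Finset.univ.erase i, (2 * r') ^ T := by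
            refine Finset.prod_le_prod (fun _ _ => norm_nonneg _) fun j _ => ?_
            rw [norm_pow]
            exact pow_le_pow_left₀ (norm_nonneg _) (hzx j) _
        _ = (2 * r') ^ (T * (Fintype.card ι - 1)) := by
            rw [Finset.prod_const, Finset.card_erase_of_mem (Finset.mem_univ i),
              Finset.card_univ, ← pow_mul]
    have b2 : ‖(h0 * q).eval z‖ ≤ T * ((2 * r') ^ T * (m ^ T / μ)) := by
      rw [hq, Finset.mul_sum, Polynomial.eval_finsetSum]
      calc ‖∑ k ∈ Finset.range T', (h0 * (C (a k) * (X - C (x i)) ^ k)).eval z‖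
          ≤ ∑ k ∈ Finset.range T', (2 * r') ^ T * (m ^ T / μ) := by
            refine norm_sum_le_of_le _ fun k hk => ?_
            have hk' := Finset.mem_range.1 hk
            rw [hh0]
            simp only [eval_mul, eval_C, eval_pow, eval_sub, eval_X, norm_mul, norm_pow, norm_div,
              norm_one, Complex.norm_natCast]
            have c1 : 1 / (tau.factorial : ℝ) ≤ 1 := by
              rw [div_le_one (by exact_mod_cast tau.factorial_pos)]
              exact_mod_cast tau.factorial_pos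
            have c2 : ‖a k‖ ≤ m ^ T / μ := by
              refine (hab k).trans (div_le_div_of_nonneg_right ?_ hμ.le)
              calc (ρ⁻¹) ^ k ≤ m ^ k := pow_le_pow_left₀ (by positivity) (le_max_right _ _) k
                _ ≤ m ^ T := pow_le_pow_right₀ hm1 (by omega)
            have c3 : ‖z - x i‖ ^ tau * ‖z - x i‖ ^ k ≤ (2 * r') ^ T := by
              rw [← pow_add]
              calc ‖z - x i‖ ^ (tau + k) ≤ (2 * r') ^ (tau + k) :=
                    pow_le_pow_left₀ (norm_nonneg _) (hzx i) _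
                _ ≤ (2 * r') ^ T := pow_le_pow_right₀ h2r (by omega)
            calc 1 / (tau.factorial : ℝ) * ‖z - x i‖ ^ tau * (‖a k‖ * ‖z - x i‖ ^ k)
                = (1 / (tau.factorial : ℝ)) * ((‖z - x i‖ ^ tau * ‖z - x i‖ ^ k) * ‖a k‖) := by
                  ring
              _ ≤ 1 * ((2 * r') ^ T * (m ^ T / μ)) := by
                  refine mul_le_mul c1 ?_ (by positivity) zero_le_one
                  exact mul_le_mul c3 c2 (norm_nonneg _) (by positivity)
              _ = _ := one_mul _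
        _ = T' * ((2 * r') ^ T * (m ^ T / μ)) := by
            rw [Finset.sum_const, Finset.card_range, nsmul_eq_mul]
        _ ≤ T * ((2 * r') ^ T * (m ^ T / μ)) := by
            refine mul_le_mul_of_nonneg_right ?_ (by positivity)
            exact_mod_cast Nat.sub_le T tau
    have hcard : 0 < Fintype.card ι := Fintype.card_pos_iff.2 ⟨i⟩
    rw [eval_mul, norm_mul]
    calc ‖(h0 * q).eval z‖ * ‖Pi.eval z‖
        ≤ (T * ((2 * r') ^ T * (m ^ T / μ))) * (2 * r') ^ (T * (Fintype.card ι - 1)) :=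
          mul_le_mul b2 b1 (norm_nonneg _) (by positivity)
      _ = T * ((2 * r') ^ (T * (Fintype.card ι - 1)) * (2 * r') ^ T) * m ^ T / μ := by ring
      _ = T * (2 * r') ^ (T * Fintype.card ι) * m ^ T / μ := by
          rw [← pow_add]
          congr 4
          obtain ⟨n, hn⟩ := Nat.exists_eq_succ_of_ne_zero hcard.ne'
          rw [hn]
          simp [Nat.mul_succ]

end GSL

end

section

/-!
# Hermite basis polynomials for the lattice points of a disc
-/

open Polynomial Filter Topology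

namespace GSL

theorem HermLat.lower (u₁ u₂ : ℂ) (a b : ℤ) (hab : a ≠ 0 ∨ b ≠ 0) :
    |(u₁ * starRingEnd ℂ u₂).im| ≤ ‖(a * u₁ + b * u₂ : ℂ)‖ * (‖u₁‖ + ‖u₂‖) := by
  have h1 : |((a * u₁ + b * u₂ : ℂ) * starRingEnd ℂ u₂).im| ≤
      ‖(a * u₁ + b * u₂ : ℂ)‖ * ‖u₂‖ := by
    refine (Complex.abs_im_le_norm _).trans ?_
    rw [norm_mul, Complex.norm_conj]
  have h2 : |((a * u₁ + b * u₂ : ℂ) * starRingEnd ℂ u₁).im| ≤
      ‖(a * u₁ + b * u₂ : ℂ)‖ * ‖u₁‖ := by
    refine (Complex.abs_im_le_norm _).trans ?_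
    rw [norm_mul, Complex.norm_conj]
  have e1 : ((a * u₁ + b * u₂ : ℂ) * starRingEnd ℂ u₂).im =
      a * (u₁ * starRingEnd ℂ u₂).im := by
    simp [Complex.mul_im, Complex.add_im, Complex.add_re, Complex.mul_re]
    ring
  have e2 : ((a * u₁ + b * u₂ : ℂ) * starRingEnd ℂ u₁).im =
      -(b * (u₁ * starRingEnd ℂ u₂).im) := by
    simp [Complex.mul_im, Complex.add_im, Complex.add_re, Complex.mul_re]
    ring
  rw [e1, abs_mul] at h1
  rw [e2, abs_neg, abs_mul] at h2
  have hn1 : 0 ≤ ‖(a * u₁ + b * u₂ : ℂ)‖ * ‖u₁‖ := by positivity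
  have hn2 : 0 ≤ ‖(a * u₁ + b * u₂ : ℂ)‖ * ‖u₂‖ := by positivity
  have hge : ∀ c : ℤ, c ≠ 0 → (1 : ℝ) ≤ |(c : ℝ)| := by
    intro c hc
    have := Int.one_le_abs hc
    exact_mod_cast this
  have hD := abs_nonneg (u₁ * starRingEnd ℂ u₂).im
  rw [mul_add]
  rcases hab with h | h
  · have := mul_le_mul_of_nonneg_right (hge a h) hD
    linarith
  · have := mul_le_mul_of_nonneg_right (hge b h) hD
    linarith

theorem HermLat.abs_le {S : ℕ} {p : ℤ × ℤ} (hp : p ∈ circ S) :
    |(p.1 : ℝ)| ≤ S ∧ |(p.2 : ℝ)| ≤ S := by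
  unfold circ at hp
  rw [Finset.mem_filter, Finset.mem_product, Finset.mem_Icc, Finset.mem_Icc] at hp
  obtain ⟨⟨⟨h1, h2⟩, h3, h4⟩, _⟩ := hp
  constructor
  · rw [_root_.abs_le]
    exact ⟨by exact_mod_cast h1, by exact_mod_cast h2⟩
  · rw [_root_.abs_le]
    exact ⟨by exact_mod_cast h3, by exact_mod_cast h4⟩

theorem hermlat (hh : StmtHerm) (hl : StmtLat) : StmtHermLat := by
  intro u₁ u₂ hD θ hθ0 hθ1
  obtain ⟨S₀, hS₀⟩ := hl u₁ u₂ hD (θ / 2) (by linarith) (by linarith)
  have hDpos : 0 < |(u₁ * starRingEnd ℂ u₂).im| := abs_pos.2 hD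
  have hu1 : u₁ ≠ 0 := by
    rintro rfl
    simp at hD
  have hU : 0 < ‖u₁‖ + ‖u₂‖ := by
    have := norm_pos_iff.2 hu1
    have := norm_nonneg u₂
    linarith
  set U := ‖u₁‖ + ‖u₂‖ with hUdef
  set c₀ := |(u₁ * starRingEnd ℂ u₂).im| / U with hc₀
  have hc0 : 0 < c₀ := div_pos hDpos hU
  have hc : ∀ a b : ℤ, (a ≠ 0 ∨ b ≠ 0) → c₀ ≤ ‖(a * u₁ + b * u₂ : ℂ)‖ := by
    intro a b hab
    rw [hc₀, div_le_iff₀ hU]
    exact HermLat.lower u₁ u₂ a b hab
  set ρ := min (c₀ / 2) 1 with hρ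
  have hρ0 : 0 < ρ := lt_min (by linarith) one_pos
  set M := max 1 ρ⁻¹ with hM
  have hM1 : 1 ≤ M := le_max_left _ _
  have hlogM : 0 ≤ Real.log M := Real.log_nonneg hM1
  obtain ⟨S₁, hS₁⟩ := Filter.eventually_atTop.1
    ((Real.tendsto_log_atTop.comp tendsto_natCast_atTop_atTop).eventually_ge_atTop
      ((1 + 2 * Real.log 2 + Real.log M) / (θ / 2)))
  refine ⟨max (max S₀ S₁) 1, fun S hS T hT => ?_⟩
  have hSS₀ : S₀ ≤ S := (le_max_left _ _).trans ((le_max_left _ _).trans hS)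
  have hSS₁ : S₁ ≤ S := (le_max_right _ _).trans ((le_max_left _ _).trans hS)
  have hS1 : 1 ≤ S := (le_max_right _ _).trans hS
  have hS1r : (1 : ℝ) ≤ S := by exact_mod_cast hS1
  have hlogS : 1 + 2 * Real.log 2 + Real.log M ≤ θ / 2 * Real.log S := by
    have := hS₁ S hSS₁
    rw [Function.comp_apply, div_le_iff₀ (by linarith)] at this
    linarith
  set x : {p : ℤ × ℤ // p ∈ circ S} → ℂ := fun j => (j.1.1 * u₁ + j.1.2 * u₂ : ℂ) with hx
  set A := (circ S).card with hA
  have hcard : Fintype.card {p : ℤ × ℤ // p ∈ circ S} = A := Fintype.card_coe _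
  have hdist : ∀ i j : {p : ℤ × ℤ // p ∈ circ S}, i ≠ j → c₀ ≤ ‖x i - x j‖ := by
    intro i j hij
    have e : x i - x j = ((i.1.1 - j.1.1 : ℤ) : ℂ) * u₁ + ((i.1.2 - j.1.2 : ℤ) : ℂ) * u₂ := by
      simp only [hx]
      push_cast
      ring
    rw [e]
    apply hc
    by_contra hn
    push Not at hn
    exact hij (Subtype.ext (Prod.ext (sub_eq_zero.1 hn.1) (sub_eq_zero.1 hn.2)))
  set μ₀ := Real.exp ((1 - θ / 2) * A * Real.log S) / 2 ^ A with hμ₀
  have hμ₀0 : 0 < μ₀ := by positivity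
  have hnorm : ∀ i, ‖x i‖ ≤ U * S := by
    intro i
    obtain ⟨h1, h2⟩ := HermLat.abs_le i.2
    have h3 : ‖x i‖ ≤ |(i.1.1 : ℝ)| * ‖u₁‖ + |(i.1.2 : ℝ)| * ‖u₂‖ := by
      refine (norm_add_le _ _).trans (le_of_eq ?_)
      rw [norm_mul, norm_mul, Complex.norm_intCast, Complex.norm_intCast]
    have h4 := mul_le_mul_of_nonneg_right h1 (norm_nonneg u₁)
    have h5 := mul_le_mul_of_nonneg_right h2 (norm_nonneg u₂)
    rw [hUdef, add_mul]
    linarith [mul_comm ‖u₁‖ (S : ℝ), mul_comm ‖u₂‖ (S : ℝ)]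
  have hμ : ∀ i, ∀ z : ℂ, ‖z - x i‖ = ρ →
      μ₀ ^ T ≤ ‖∏ j ∈ Finset.univ.erase i, (z - x j) ^ T‖ := by
    intro i z hz
    rw [norm_prod]
    simp only [norm_pow]
    rw [Finset.prod_pow]
    refine pow_le_pow_left₀ hμ₀0.le ?_ T
    have h1 : ∀ j ∈ Finset.univ.erase i, ‖x i - x j‖ / 2 ≤ ‖z - x j‖ := by
      intro j hj
      have hij : i ≠ j := (Finset.ne_of_mem_erase hj).symm
      have h2 : ‖x i - x j‖ ≤ ‖x i - z‖ + ‖z - x j‖ := by
        have : x i - x j = (x i - z) + (z - x j) := by ring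
        rw [this]
        exact norm_add_le _ _
      rw [norm_sub_rev (x i) z, hz] at h2
      have h3 := hdist i j hij
      have h4 : ρ ≤ c₀ / 2 := min_le_left _ _
      linarith
    have h2 : ∏ j ∈ Finset.univ.erase i, (‖x i - x j‖ / 2) ≤
        ∏ j ∈ Finset.univ.erase i, ‖z - x j‖ :=
      Finset.prod_le_prod (fun j _ => by positivity) h1
    refine le_trans ?_ h2
    rw [Finset.prod_div_distrib, Finset.prod_const, Finset.card_erase_of_mem (Finset.mem_univ i),
      Finset.card_univ, hcard, hμ₀]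
    have h3 : ∏ j ∈ Finset.univ.erase i, ‖x i - x j‖ = ∏ p' ∈ (circ S).erase i.1,
        ‖(i.1.1 * u₁ + i.1.2 * u₂ : ℂ) - (p'.1 * u₁ + p'.2 * u₂)‖ := by
      refine Finset.prod_nbij Subtype.val ?_ ?_ ?_ ?_
      · intro j hj
        rw [Finset.mem_erase] at hj ⊢
        exact ⟨fun h => hj.1 (Subtype.ext h), j.2⟩
      · intro a _ b _ hab
        exact Subtype.ext hab
      · intro p hp
        rw [Finset.mem_coe, Finset.mem_erase] at hp
        refine ⟨⟨p, hp.2⟩, ?_, rfl⟩
        rw [Finset.mem_coe, Finset.mem_erase]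
        exact ⟨fun h => hp.1 (congrArg Subtype.val h), Finset.mem_univ _⟩
      · intro j _
        rfl
    rw [h3]
    have h4 := hS₀ S hSS₀ i.1 i.2
    have h5 : (2 : ℝ) ^ (A - 1) ≤ 2 ^ A := pow_le_pow_right₀ (by norm_num) (by omega)
    exact div_le_div₀ (by positivity) h4 (by positivity) h5
  set r := max (S : ℝ) (U * S) with hr
  have key : ∀ (i : {p : ℤ × ℤ // p ∈ circ S}) (tau : ℕ), ∃ h : ℂ[X], tau < T →
      h.natDegree < T * Fintype.card {p : ℤ × ℤ // p ∈ circ S} ∧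
      (∀ j, ∀ tau' < T, (derivative^[tau'] h).eval (x j) = if j = i ∧ tau' = tau then 1 else 0) ∧
      ∀ r' : ℝ, r ≤ r' → ∀ z : ℂ, ‖z‖ ≤ r' →
        ‖h.eval z‖ ≤ T * (2 * r') ^ (T * Fintype.card {p : ℤ × ℤ // p ∈ circ S}) *
          (max 1 ρ⁻¹) ^ T / μ₀ ^ T := by
    intro i tau
    by_cases htau : tau < T
    · obtain ⟨h, h1⟩ := hh {p : ℤ × ℤ // p ∈ circ S} x T ρ (μ₀ ^ T) r hT hρ0 (by positivity)
        (fun i j hij => lt_of_lt_of_le (lt_of_le_of_lt (min_le_left _ _) (by linarith))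
          (hdist i j hij)) hμ (hS1r.trans (le_max_left _ _))
        ((min_le_right _ _).trans (hS1r.trans (le_max_left _ _)))
        (fun i => (hnorm i).trans (le_max_right _ _)) i tau htau
      exact ⟨h, fun _ => h1⟩
    · exact ⟨0, fun h => absurd h htau⟩
  choose h hh' using key
  refine ⟨h, fun i tau ht => (hh' i tau ht).1, fun i tau ht j tau' ht' =>
    (hh' i tau ht).2.1 j tau' ht', ?_⟩
  intro r' hr1 hr2 i tau ht z hz
  have hrr : r ≤ r' := max_le hr1 hr2
  have hr'0 : 0 < r' := lt_of_lt_of_le one_pos (hS1r.trans hr1)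
  refine ((hh' i tau ht).2.2 r' hrr z hz).trans ?_
  rw [hcard]
  have hA1 : 1 ≤ A := by
    rw [hA, Nat.one_le_iff_ne_zero, Finset.card_ne_zero]
    exact ⟨i.1, i.2⟩
  have hA1r : (1 : ℝ) ≤ A := by exact_mod_cast hA1
  have hT1r : (1 : ℝ) ≤ T := by exact_mod_cast hT
  have hT0 : (0 : ℝ) < T := by linarith
  have hpos : 0 < (T : ℝ) * (2 * r') ^ (T * A) * M ^ T / μ₀ ^ T := by positivity
  rw [← Real.log_le_iff_le_exp hpos]
  have hM0 : 0 < M := lt_of_lt_of_le one_pos hM1
  have hlogμ : Real.log μ₀ = (1 - θ / 2) * A * Real.log S - A * Real.log 2 := by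
    rw [hμ₀, Real.log_div (Real.exp_pos _).ne' (by positivity), Real.log_exp, Real.log_pow]
  have hlog : Real.log ((T : ℝ) * (2 * r') ^ (T * A) * M ^ T / μ₀ ^ T) =
      Real.log T + (T * A : ℕ) * (Real.log 2 + Real.log r') + T * Real.log M -
        T * ((1 - θ / 2) * A * Real.log S - A * Real.log 2) := by
    rw [Real.log_div (by positivity) (by positivity), Real.log_mul (by positivity) (by positivity),
      Real.log_mul (by positivity) (by positivity), Real.log_pow, Real.log_pow, Real.log_pow,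
      Real.log_mul (by norm_num) hr'0.ne', hlogμ]
  rw [hlog]
  have hlogT : Real.log T ≤ T := (Real.log_le_sub_one_of_pos hT0).trans (by linarith)
  have hTA : (T : ℝ) ≤ T * A := by nlinarith
  have h6 : (T : ℝ) * Real.log M ≤ T * A * Real.log M :=
    mul_le_mul_of_nonneg_right hTA hlogM
  have h7 : (T : ℝ) * A * (1 + 2 * Real.log 2 + Real.log M) ≤
      T * A * (θ / 2 * Real.log S) := mul_le_mul_of_nonneg_left hlogS (by positivity)
  push_cast
  nlinarith [h6, h7, hlogT, hTA]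

end GSL

end

section

/-!
# The analytic part: assembly
-/

open Polynomial Filter Topology

namespace GSL

namespace Iface

lemma Fj_le {m : ℕ} (hm : m ≤ 30) {z : ℝ} (hz0 : 0 ≤ z) (hz : z ≤ 1) : Fj m z ≤ 30 := by
  have h1 : (m : ℝ) ≤ 30 := by exact_mod_cast hm
  have h0 : (0 : ℝ) ≤ m := Nat.cast_nonneg m
  have h2 : 0 ≤ z ^ 2 * ((m : ℝ) * (m + 1) ^ 2 * (m + 2)) / 24 := by positivity
  have h3 : (m : ℝ) * z ≤ 30 := by nlinarith
  unfold Fj
  linarith

/-- Transfer of a family to slightly different parameters. -/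
lemma transfer {β Y : ℂ} {ε e δ σ W δ' σ' V L : ℝ} {D : Set ℂ[X]} (hε : 0 < ε) (hε1 : ε < 1)
    (he : e = ε / 100) (h : FamG β Y e δ σ W L D) (hL : 1 ≤ L) (hV : 0 < V)
    (h1 : (1 - e) * V ≤ W) (h2 : W ≤ V) (hδ : δ ≤ (1 + e) * δ') (hσ : σ ≤ (1 + e) * σ')
    (hδ' : 0 ≤ δ') (hσ' : 0 ≤ σ') : FamG β Y ε δ' σ' V L D := by
  have he0 : 0 < e := by rw [he]; linarith
  have hsq : (1 + e) * (1 + e) ≤ 1 + ε := by rw [he]; nlinarith
  have hd : (1 + e) * L * δ ≤ (1 + ε) * L * δ' := by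
    calc (1 + e) * L * δ ≤ (1 + e) * L * ((1 + e) * δ') :=
          mul_le_mul_of_nonneg_left hδ (by positivity)
      _ = ((1 + e) * (1 + e)) * (L * δ') := by ring
      _ ≤ (1 + ε) * (L * δ') := mul_le_mul_of_nonneg_right hsq (by positivity)
      _ = (1 + ε) * L * δ' := by ring
  have hs : (1 + e) * L * σ ≤ (1 + ε) * L * σ' := by
    calc (1 + e) * L * σ ≤ (1 + e) * L * ((1 + e) * σ') :=
          mul_le_mul_of_nonneg_left hσ (by positivity)
      _ = ((1 + e) * (1 + e)) * (L * σ') := by ring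
      _ ≤ (1 + ε) * (L * σ') := mul_le_mul_of_nonneg_right hsq (by positivity)
      _ = (1 + ε) * L * σ' := by ring
  refine ⟨h.coeff, fun P hP => (h.deg P hP).trans hd,
    fun P hP => (h.height P hP).trans (Real.exp_le_exp.2 hs), ?_, ?_, ?_⟩
  · intro P hP s hs0 hsV y hy
    refine (h.E1 P hP s hs0 ?_ y hy).trans (Real.exp_le_exp.2 ?_)
    · refine hsV.trans ?_
      have h3 : (1 - e) * ((1 - e) * V) ≤ (1 - e) * W :=
        mul_le_mul_of_nonneg_left h1 (by rw [he]; linarith)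
      have h4 : (1 - ε) * V ≤ (1 - e) * ((1 - e) * V) := by
        have : (1 - ε) ≤ (1 - e) * (1 - e) := by rw [he]; nlinarith
        calc (1 - ε) * V ≤ (1 - e) * (1 - e) * V := mul_le_mul_of_nonneg_right this hV.le
          _ = _ := by ring
      exact h4.trans h3
    · have h5 : e * s ≤ ε * s := mul_le_mul_of_nonneg_right (by rw [he]; linarith) hs0
      have h6 : L * (e * s) ≤ L * (ε * s) := mul_le_mul_of_nonneg_left h5 (by linarith)
      nlinarith [hs, h6]
  · intro P hP z hz0 hz1 m hm1 hm2 y hy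
    have hz0' : 0 ≤ z := le_trans (by norm_num) hz0
    refine (h.E2 P hP z hz0 hz1 m hm1 hm2 y (hy.trans (Real.exp_le_exp.2 ?_))).trans
      (Real.exp_le_exp.2 ?_)
    · exact neg_le_neg (mul_le_mul_of_nonneg_left h2 hz0')
    · have hF := Fj_le hm2 hz0' hz1
      have key : (Fj m z - ε) * V ≤ (Fj m z - e) * W := by
        by_cases hc : 0 ≤ Fj m z - e
        · have h7 : (Fj m z - e) * ((1 - e) * V) ≤ (Fj m z - e) * W :=
            mul_le_mul_of_nonneg_left h1 hc
          have h8 : (Fj m z - ε) ≤ (Fj m z - e) * (1 - e) := by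
            rw [he]
            nlinarith
          calc (Fj m z - ε) * V ≤ (Fj m z - e) * (1 - e) * V :=
                mul_le_mul_of_nonneg_right h8 hV.le
            _ = (Fj m z - e) * ((1 - e) * V) := by ring
            _ ≤ _ := h7
        · push Not at hc
          calc (Fj m z - ε) * V ≤ (Fj m z - e) * V :=
                mul_le_mul_of_nonneg_right (by rw [he]; linarith) hV.le
            _ ≤ (Fj m z - e) * W := mul_le_mul_of_nonpos_left h2 hc.le
      have h9 := mul_le_mul_of_nonneg_left key (by linarith : (0 : ℝ) ≤ L)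
      nlinarith [h9]
  · intro γ hγ
    refine h.NV γ (hγ.trans (Real.exp_le_exp.2 (neg_le_neg ?_)))
    calc (1 + e) * W ≤ (1 + e) * V := mul_le_mul_of_nonneg_left h2 (by linarith)
      _ ≤ (1 + ε) * V := mul_le_mul_of_nonneg_right (by rw [he]; linarith) hV.le

end Iface

theorem iface (hF : StmtFamS) (hS : StmtSel) : StmtIface := by
  intro D ε hε hε1
  obtain ⟨C₁, c₁, S₁, hC₁, hc₁, hfam⟩ := hF D (ε / 100) (by linarith) (by linarith)
  obtain ⟨C, c, V₀, hC, hc, hV₀, hsel⟩ := hS C₁ c₁ (ε / 100) S₁ hC₁ hc₁ (by linarith) (by linarith)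
  refine ⟨C, c, V₀, hC, hc, hV₀, ?_⟩
  intro V ρ hV hCρ hρ
  obtain ⟨S, L₀, h1, h2, h3, h4, h5, h6, h7⟩ := hsel V ρ hV hCρ hρ
  obtain ⟨L, Fm, hL, hfm⟩ := hfam S L₀ h1 h2 h3
  exact ⟨L, Fm, hL, Iface.transfer hε hε1 rfl hfm hL (by linarith) h4 h5 h6 h7
    (Real.sqrt_nonneg _) (Real.sqrt_nonneg _)⟩

end GSL

end

section

/-!
# Integrality of the determinant polynomials
-/

open Polynomial Filter Topology

namespace GSL

/-- `ℤ[β]` as a subring. -/
def Int.Os (D : Dat) : Subring ℂ where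
  carrier := Ob D.β
  mul_mem' := by
    rintro x y ⟨a, b, rfl⟩ ⟨c, d, rfl⟩
    refine ⟨a * c - b * d * D.n, a * d + b * c + b * d * D.t, ?_⟩
    push_cast
    linear_combination (b * d : ℂ) * D.quad
  one_mem' := ⟨1, 0, by simp⟩
  add_mem' := by
    rintro x y ⟨a, b, rfl⟩ ⟨c, d, rfl⟩
    exact ⟨a + c, b + d, by push_cast; ring⟩
  zero_mem' := ⟨0, 0, by simp⟩
  neg_mem' := by
    rintro x ⟨a, b, rfl⟩
    exact ⟨-a, -b, by push_cast; ring⟩

/-- Polynomials with coefficients in `ℤ[β]` as a subring. -/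
def Int.Ps (D : Dat) : Subring ℂ[X] where
  carrier := {P | ∀ i, P.coeff i ∈ Int.Os D}
  mul_mem' := by
    intro P Q hP hQ i
    rw [coeff_mul]
    exact sum_mem fun j _ => mul_mem (hP _) (hQ _)
  one_mem' := by
    intro i
    rw [coeff_one]
    split_ifs
    · exact one_mem _
    · exact zero_mem _
  add_mem' := by
    intro P Q hP hQ i
    rw [coeff_add]
    exact add_mem (hP _) (hQ _)
  zero_mem' := by
    intro i
    rw [coeff_zero]
    exact zero_mem _
  neg_mem' := by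
    intro P hP i
    rw [coeff_neg]
    exact neg_mem (hP _)

theorem Int.C_mem (D : Dat) {a : ℂ} (ha : a ∈ Int.Os D) : C a ∈ Int.Ps D := by
  intro i
  rw [coeff_C]
  split_ifs
  · exact ha
  · exact zero_mem _

theorem Int.X_mem (D : Dat) : (X : ℂ[X]) ∈ Int.Ps D := by
  intro i
  rw [coeff_X]
  split_ifs
  · exact one_mem _
  · exact zero_mem _

theorem Int.beta_mem (D : Dat) : D.β ∈ Int.Os D := ⟨0, 1, by simp⟩

theorem int : StmtInt := by
  intro D S L₀ T e OT AT
  have key : D.DP e OT AT ∈ Int.Ps D := by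
    have hw : ∀ p, wv D.β p ∈ Int.Os D := fun p =>
      add_mem (intCast_mem _ _) (mul_mem (intCast_mem _ _) (Int.beta_mem D))
    have hz : ∀ q, zv D.t D.β q ∈ Int.Os D := fun q =>
      add_mem (sub_mem (intCast_mem _ _) (mul_mem (intCast_mem _ _) (intCast_mem _ _)))
        (mul_mem (intCast_mem _ _) (Int.beta_mem D))
    have hcp : ∀ (r : Ix S L₀) (s : Ix S T), D.cp r s ∈ Int.Ps D := by
      intro r s
      unfold Dat.cp
      refine sum_mem fun k _ => mul_mem (mul_mem (Int.C_mem D ?_) (pow_mem D.B₀_mem _))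
        (pow_mem D.A₀_mem _)
      exact mul_mem (mul_mem (mul_mem (natCast_mem _ _) (natCast_mem _ _)) (pow_mem (hz _) _))
        (pow_mem (hw _) _)
    unfold Dat.DP
    refine sum_mem fun π _ => mul_mem (mul_mem (mul_mem (Int.C_mem D (intCast_mem _ _))
      (prod_mem fun r _ => hcp _ _)) (pow_mem (Int.X_mem D) _)) (Int.C_mem D ?_)
    exact mul_mem (pow_mem D.a₁_mem _) (pow_mem D.a₂_mem _)
  exact key

end GSL

end

section

/-!
# MP_327059_nt : the interpolation estimate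
-/

open Polynomial Filter Topology Set

namespace GSL

namespace Interp

lemma iteratedDeriv_eval (P : ℂ[X]) (k : ℕ) :
    iteratedDeriv k (fun z => P.eval z) = fun z => (derivative^[k] P).eval z := by
  induction k with
  | zero => simp
  | succ n ih =>
    rw [iteratedDeriv_succ, ih]
    funext z
    rw [Function.iterate_succ_apply']
    exact Polynomial.deriv _

lemma div_one {f : ℂ → ℂ} (hf : Differentiable ℂ f) {c : ℂ} (h0 : f c = 0) :
    ∃ G : ℂ → ℂ, Differentiable ℂ G ∧ ∀ z, f z = (z - c) * G z := by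
  refine ⟨dslope f c, ?_, fun z => ?_⟩
  · have := (Complex.differentiableOn_dslope (s := univ) (c := c) (f := f) univ_mem).2
      hf.differentiableOn
    exact differentiableOn_univ.1 this
  · have := sub_smul_dslope f c z
    rw [smul_eq_mul, h0, sub_zero] at this
    exact this.symm

lemma div_pow (T : ℕ) : ∀ {f : ℂ → ℂ}, Differentiable ℂ f → ∀ {c : ℂ},
    (T : ℕ∞) ≤ analyticOrderAt f c →
      ∃ G : ℂ → ℂ, Differentiable ℂ G ∧ ∀ z, f z = (z - c) ^ T * G z := by
  induction T with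
  | zero => intro f hf c _; exact ⟨f, hf, by simp⟩
  | succ n ih =>
    intro f hf c h
    have hne : analyticOrderAt f c ≠ 0 := by
      intro h0
      rw [h0] at h
      simp at h
    obtain ⟨G, hG, hfG⟩ := div_one hf (apply_eq_zero_of_analyticOrderAt_ne_zero hne)
    have e : f = (fun z => z - c) * G := by
      funext z
      exact hfG z
    have h1 : analyticOrderAt (fun z : ℂ => z - c) c = 1 := by
      refine AnalyticAt.analyticOrderAt_eq_one_of_zero_deriv_ne_zero (by fun_prop) (by simp) ?_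
      simp
    have h2 : analyticOrderAt f c = 1 + analyticOrderAt G c := by
      rw [e, analyticOrderAt_mul (by fun_prop) (hG.analyticAt c), h1]
    rw [h2] at h
    have h3 : (n : ℕ∞) ≤ analyticOrderAt G c := by
      rw [Nat.cast_add, Nat.cast_one, add_comm] at h
      exact (ENat.add_le_add_iff_left (by simp)).1 h
    obtain ⟨G', hG', hGG'⟩ := ih hG h3
    refine ⟨G', hG', fun z => ?_⟩
    rw [hfG, hGG', pow_succ]
    ring

lemma div_prod {ι : Type} [DecidableEq ι] (x : ι → ℂ) (hx : Function.Injective x) (T : ℕ)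
    (s : Finset ι) {f : ℂ → ℂ} (hf : Differentiable ℂ f)
    (h : ∀ i ∈ s, (T : ℕ∞) ≤ analyticOrderAt f (x i)) :
    ∃ G : ℂ → ℂ, Differentiable ℂ G ∧ ∀ z, f z = (∏ i ∈ s, (z - x i) ^ T) * G z := by
  induction s using Finset.induction_on with
  | empty => exact ⟨f, hf, by simp⟩
  | insert a s ha ih =>
    obtain ⟨G, hG, hfG⟩ := ih fun i hi => h i (Finset.mem_insert_of_mem hi)
    have e : f = (fun z => ∏ i ∈ s, (z - x i) ^ T) * G := by
      funext z
      exact hfG z
    have hP : Differentiable ℂ (fun z : ℂ => ∏ i ∈ s, (z - x i) ^ T) := by fun_prop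
    have h0 : analyticOrderAt (fun z : ℂ => ∏ i ∈ s, (z - x i) ^ T) (x a) = 0 := by
      rw [(hP.analyticAt _).analyticOrderAt_eq_zero]
      rw [Finset.prod_ne_zero_iff]
      intro i hi
      refine pow_ne_zero _ (sub_ne_zero.2 fun hxx => ?_)
      rw [hx hxx] at ha
      exact ha hi
    have h1 : (T : ℕ∞) ≤ analyticOrderAt G (x a) := by
      have := h a (Finset.mem_insert_self a s)
      rw [e, analyticOrderAt_mul (hP.analyticAt _) (hG.analyticAt _), h0, zero_add] at this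
      exact this
    obtain ⟨G', hG', hGG'⟩ := div_pow T hG h1
    refine ⟨G', hG', fun z => ?_⟩
    rw [hfG, hGG', Finset.prod_insert ha]
    ring

end Interp

open Interp

theorem interp : StmtInterp := by
  intro ι _ _ x T h r R η B H₁ H₂ hT hx hr hrR hxr hh hH₁ hH₂ hη hB f hf hfB hfη z hz
  -- the interpolation polynomial
  set P : ℂ[X] := ∑ i, ∑ tau ∈ Finset.range T, C (iteratedDeriv tau f (x i)) * h i tau with hP
  have hPd : ∀ k, derivative^[k] P =
      ∑ i, ∑ tau ∈ Finset.range T, C (iteratedDeriv tau f (x i)) * derivative^[k] (h i tau) := by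
    intro k
    rw [hP, Polynomial.iterate_derivative_sum]
    refine Finset.sum_congr rfl fun i _ => ?_
    rw [Polynomial.iterate_derivative_sum]
    refine Finset.sum_congr rfl fun tau _ => ?_
    rw [Polynomial.iterate_derivative_C_mul]
  have hPx : ∀ j, ∀ k < T, (derivative^[k] P).eval (x j) = iteratedDeriv k f (x j) := by
    intro j k hk
    rw [hPd, Polynomial.eval_finsetSum, Finset.sum_eq_single j]
    · rw [Polynomial.eval_finsetSum, Finset.sum_eq_single k]
      · rw [eval_mul, eval_C, hh j k hk j k hk, if_pos ⟨rfl, rfl⟩, mul_one]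
      · intro tau ht hne
        rw [eval_mul, hh j tau (Finset.mem_range.1 ht) j k hk, if_neg, mul_zero]
        rintro ⟨-, h2⟩
        exact hne h2.symm
      · intro hk'
        exact absurd (Finset.mem_range.2 hk) hk'
    · intro i _ hne
      rw [Polynomial.eval_finsetSum]
      refine Finset.sum_eq_zero fun tau ht => ?_
      rw [eval_mul, hh i tau (Finset.mem_range.1 ht) j k hk, if_neg, mul_zero]
      rintro ⟨h1, -⟩
      exact hne h1.symm
    · intro hj
      exact absurd (Finset.mem_univ j) hj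
  have hbound : ∀ (w : ℂ) (H : ℝ), (∀ i, ∀ tau < T, ‖(h i tau).eval w‖ ≤ H) →
      ‖P.eval w‖ ≤ T * Fintype.card ι * η * H := by
    intro w H hH
    rw [hP, Polynomial.eval_finsetSum]
    calc ‖∑ i, (∑ tau ∈ Finset.range T, C (iteratedDeriv tau f (x i)) * h i tau).eval w‖
        ≤ ∑ i : ι, ((T : ℝ) * (η * H)) := by
          refine norm_sum_le_of_le _ fun i _ => ?_
          rw [Polynomial.eval_finsetSum]
          calc ‖∑ tau ∈ Finset.range T, (C (iteratedDeriv tau f (x i)) * h i tau).eval w‖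
              ≤ ∑ tau ∈ Finset.range T, η * H := by
                refine norm_sum_le_of_le _ fun tau ht => ?_
                rw [eval_mul, eval_C, norm_mul]
                exact mul_le_mul (hfη i tau (Finset.mem_range.1 ht))
                  (hH i tau (Finset.mem_range.1 ht)) (norm_nonneg _) hη
            _ = (T : ℝ) * (η * H) := by
                rw [Finset.sum_const, Finset.card_range, nsmul_eq_mul]
      _ = T * Fintype.card ι * η * H := by
          rw [Finset.sum_const, Finset.card_univ, nsmul_eq_mul]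
          ring
  set g : ℂ → ℂ := fun w => f w - P.eval w with hg
  have hgd : Differentiable ℂ g := hf.sub P.differentiable
  have hord : ∀ i ∈ (Finset.univ : Finset ι), (T : ℕ∞) ≤ analyticOrderAt g (x i) := by
    intro i _
    rw [natCast_le_analyticOrderAt_iff_iteratedDeriv_eq_zero (hgd.analyticAt _)]
    intro k hk
    rw [hg, iteratedDeriv_fun_sub hf.contDiff.contDiffAt P.differentiable.contDiff.contDiffAt,
      iteratedDeriv_eval]
    change iteratedDeriv k f (x i) - eval (x i) (derivative^[k] P) = 0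
    rw [hPx i k hk, sub_self]
  obtain ⟨G, hG, hgG⟩ := div_prod x hx T Finset.univ hgd hord
  set N := T * Fintype.card ι with hN
  have hRr : 0 < R - r := by linarith
  have hup : ∀ w : ℂ, ‖w‖ ≤ r → ‖∏ i, (w - x i) ^ T‖ ≤ (2 * r) ^ N := by
    intro w hw
    rw [norm_prod]
    calc ∏ i : ι, ‖(w - x i) ^ T‖ ≤ ∏ i : ι, (2 * r) ^ T := by
          refine Finset.prod_le_prod (fun i _ => norm_nonneg _) fun i _ => ?_
          rw [norm_pow]
          refine pow_le_pow_left₀ (norm_nonneg _) ?_ _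
          have := norm_sub_le w (x i)
          have := hxr i
          linarith
      _ = (2 * r) ^ N := by
          rw [Finset.prod_const, Finset.card_univ, ← pow_mul]
  have hlow : ∀ w : ℂ, ‖w‖ = R → (R - r) ^ N ≤ ‖∏ i, (w - x i) ^ T‖ := by
    intro w hw
    rw [norm_prod]
    calc (R - r) ^ N = ∏ i : ι, (R - r) ^ T := by
          rw [Finset.prod_const, Finset.card_univ, ← pow_mul]
      _ ≤ ∏ i : ι, ‖(w - x i) ^ T‖ := by
          refine Finset.prod_le_prod (fun i _ => by positivity) fun i _ => ?_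
          rw [norm_pow]
          refine pow_le_pow_left₀ hRr.le ?_ _
          have := norm_sub_norm_le w (x i)
          have := hxr i
          linarith
  have hGb : ∀ w : ℂ, ‖w‖ ≤ R → ‖G w‖ ≤ (B + T * Fintype.card ι * η * H₂) / (R - r) ^ N := by
    intro w hw
    refine Complex.norm_le_of_forall_mem_frontier_norm_le (U := Metric.ball (0 : ℂ) R)
      Metric.isBounded_ball hG.diffContOnCl (fun v hv => ?_) ?_
    · have hv' : ‖v‖ = R := by
        rw [frontier_ball (0 : ℂ) (by linarith)] at hv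
        simpa using hv
      have h1 : ‖g v‖ ≤ B + T * Fintype.card ι * η * H₂ := by
        refine (norm_sub_le _ _).trans (add_le_add (hfB v hv'.le) ?_)
        exact hbound v H₂ fun i tau ht => hH₂ i tau ht v hv'.le
      rw [hgG v, norm_mul] at h1
      rw [le_div_iff₀ (by positivity)]
      calc ‖G v‖ * (R - r) ^ N ≤ ‖G v‖ * ‖∏ i, (v - x i) ^ T‖ :=
            mul_le_mul_of_nonneg_left (hlow v hv') (norm_nonneg _)
        _ = ‖∏ i, (v - x i) ^ T‖ * ‖G v‖ := mul_comm _ _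
        _ ≤ _ := h1
    · rw [closure_ball (0 : ℂ) (by linarith)]
      simpa using hw
  have hfz : f z = P.eval z + g z := by
    rw [hg]
    ring
  rw [hfz]
  refine (norm_add_le _ _).trans (add_le_add (hbound z H₁ fun i tau ht => hH₁ i tau ht z hz) ?_)
  rw [hgG z, norm_mul, mul_div_assoc]
  exact mul_le_mul (hup z hz) (hGb z (hz.trans hrR.le)) (norm_nonneg _) (by positivity)

end GSL

end

section

/-!
# MP_327059_nt : the Jensen inequality
-/

open Polynomial

namespace GSL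

namespace Jen

open Filter MeasureTheory Set Real in
/-- The Mahler measure is at most the maximum on the unit circle. -/
theorem mahler_le (p : ℂ[X]) {K : ℝ} (hK : 0 < K) (h : ∀ z : ℂ, ‖z‖ = 1 → ‖p.eval z‖ ≤ K) :
    p.mahlerMeasure ≤ K := by
  by_cases hp : p = 0
  · simp [hp, hK.le]
  rw [show K = rexp (circleAverage (fun _ ↦ Real.log K) 0 1)
    by simp [circleAverage_def, mul_assoc, exp_log hK], mahlerMeasure_def_of_ne_zero hp,
    circleAverage_def, smul_eq_mul]
  gcongr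
  apply intervalIntegral.integral_mono_ae_restrict (by positivity)
    p.intervalIntegrable_mahlerMeasure (by simp)
  rw [EventuallyLE, eventually_iff_exists_mem]
  use {x : ℝ | eval (circleMap 0 1 x) p ≠ 0}
  constructor
  · rw [mem_ae_iff, compl_def, Measure.restrict_apply' (by simp)]
    apply (Finite.of_sdiff _ <| finite_singleton (2 * π)).measure_zero
    simp only [ne_eq, mem_ofPred_eq, Decidable.not_not, inter_sdiff_assoc, Icc_sdiff_right]
    rw [ofPred_inter_eq_sep]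
    apply Finite.of_finite_image (f := circleMap 0 1) ((Multiset.finite_toSet p.roots).subset _)
      <| fun _ h _ k l ↦ injOn_circleMap_of_abs_sub_le' one_ne_zero (by linarith) h.1 k.1 l
    simp [hp]
  · intro x hx
    exact Real.log_le_log (norm_pos_iff.2 hx) (h _ (by simp))

theorem mahler_prod {N : ℕ} (f : Fin N → ℂ[X]) :
    (∏ r, f r).mahlerMeasure = ∏ r, (f r).mahlerMeasure := by
  classical
  induction (Finset.univ : Finset (Fin N)) using Finset.induction_on with
  | empty => simp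
  | insert a s ha ih => rw [Finset.prod_insert ha, Finset.prod_insert ha, mahlerMeasure_mul, ih]

theorem log_bound {d ρ t : ℝ} (hd : 0 < d) (hρ : ρ = Real.exp (-t)) :
    -min t (max 0 (-Real.log d)) ≤ Real.log (ρ * max 1 (d / ρ)) := by
  have hρ0 : 0 < ρ := by rw [hρ]; exact Real.exp_pos _
  have h1 : ρ * max 1 (d / ρ) = max ρ d := by
    rw [mul_max_of_nonneg _ _ hρ0.le, mul_one, mul_div_cancel₀ _ hρ0.ne']
  rw [h1, neg_le]
  have h2 : Real.log ρ ≤ Real.log (max ρ d) := Real.log_le_log hρ0 (le_max_left _ _)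
  have h3 : Real.log d ≤ Real.log (max ρ d) := Real.log_le_log hd (le_max_right _ _)
  have h4 : Real.log ρ = -t := by rw [hρ, Real.log_exp]
  rw [le_min_iff]
  exact ⟨by linarith, le_max_of_le_right (by linarith)⟩

end Jen

theorem jen : StmtJen := by
  intro Y c N x t B hc ht hx h
  set ρ : ℝ := Real.exp (-t) with hρ
  have hρ0 : 0 < ρ := Real.exp_pos _
  have hρC : (ρ : ℂ) ≠ 0 := by exact_mod_cast hρ0.ne'
  have hq : ∀ z : ℂ, ‖z‖ = 1 →
      ‖(C c * ∏ r, (C (ρ : ℂ) * (X - C ((x r - Y) / ρ)))).eval z‖ ≤ Real.exp (-B) := by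
    intro z hz
    have h1 := h (Y + ρ * z) (by
      rw [add_sub_cancel_left, norm_mul, hz, mul_one, Complex.norm_real, Real.norm_eq_abs,
        abs_of_pos hρ0])
    convert h1 using 2
    simp only [eval_mul, eval_C, eval_prod, eval_sub, eval_X]
    congr 1
    refine Finset.prod_congr rfl fun r _ => ?_
    field_simp
    ring
  have hM := Jen.mahler_le _ (Real.exp_pos _) hq
  rw [mahlerMeasure_mul, mahlerMeasure_const, Jen.mahler_prod] at hM
  simp only [mahlerMeasure_mul, mahlerMeasure_const, mahlerMeasure_X_sub_C] at hM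
  have hpos : ∀ r, 0 < ‖(ρ : ℂ)‖ * max 1 ‖(x r - Y) / (ρ : ℂ)‖ := fun r =>
    mul_pos (norm_pos_iff.2 hρC) (lt_max_of_lt_left one_pos)
  have hP : 0 < ∏ r, (‖(ρ : ℂ)‖ * max 1 ‖(x r - Y) / (ρ : ℂ)‖) :=
    Finset.prod_pos fun r _ => hpos r
  have h2 := Real.log_le_log (mul_pos (by linarith) hP) hM
  rw [Real.log_exp, Real.log_mul (by linarith) hP.ne', Real.log_prod fun r _ => (hpos r).ne'] at h2
  have h3 : 0 ≤ Real.log ‖c‖ := Real.log_nonneg hc
  have h4 : ∑ r, -min t (cl Y (x r)) ≤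
      ∑ r, Real.log (‖(ρ : ℂ)‖ * max 1 ‖(x r - Y) / (ρ : ℂ)‖) := by
    refine Finset.sum_le_sum fun r _ => ?_
    rw [norm_div, Complex.norm_real, Real.norm_eq_abs, abs_of_pos hρ0]
    exact Jen.log_bound (norm_pos_iff.2 (sub_ne_zero.2 (hx r))) hρ
  rw [Finset.sum_neg_distrib] at h4
  linarith

end GSL

end

section

/-!
# MP_327059_nt : facts on the sum of the absolute values of the coefficients
-/

open Polynomial

namespace GSL

namespace L1

theorem l1_eq (P : ℂ[X]) : l1 P = ∑ i ∈ P.support, ‖P.coeff i‖ := rfl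

theorem l1_eq_of_subset (P : ℂ[X]) {s : Finset ℕ} (hs : P.support ⊆ s) :
    l1 P = ∑ i ∈ s, ‖P.coeff i‖ := by
  rw [l1_eq]
  refine Finset.sum_subset hs fun i _ hi => ?_
  rw [notMem_support_iff.1 hi, norm_zero]

theorem nonneg (P : ℂ[X]) : 0 ≤ l1 P := by
  rw [l1_eq]
  exact Finset.sum_nonneg fun _ _ => norm_nonneg _

theorem add (P Q : ℂ[X]) : l1 (P + Q) ≤ l1 P + l1 Q := by
  classical
  rw [l1_eq_of_subset P (s := P.support ∪ Q.support) Finset.subset_union_left,
    l1_eq_of_subset Q (s := P.support ∪ Q.support) Finset.subset_union_right,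
    l1_eq_of_subset (P + Q) (s := P.support ∪ Q.support) support_add, ← Finset.sum_add_distrib]
  refine Finset.sum_le_sum fun i _ => ?_
  rw [coeff_add]
  exact norm_add_le _ _

theorem zero : l1 (0 : ℂ[X]) = 0 := by simp [l1_eq]

theorem sum {ι : Type} (s : Finset ι) (f : ι → ℂ[X]) : l1 (∑ i ∈ s, f i) ≤ ∑ i ∈ s, l1 (f i) := by
  classical
  induction s using Finset.induction_on with
  | empty => simp [zero]
  | insert a s ha ih =>
    rw [Finset.sum_insert ha, Finset.sum_insert ha]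
    exact (add _ _).trans (add_le_add le_rfl ih)

theorem monomial_mul (n : ℕ) (a : ℂ) (Q : ℂ[X]) : l1 (monomial n a * Q) ≤ ‖a‖ * l1 Q := by
  classical
  have h1 : (monomial n a * Q).support ⊆ Q.support.map (addLeftEmbedding n) := by
    intro i hi
    rw [mem_support_iff] at hi
    rw [Finset.mem_map]
    have h2 : n ≤ i := by
      by_contra h
      rw [not_le] at h
      apply hi
      rw [← C_mul_X_pow_eq_monomial, mul_assoc, coeff_C_mul, coeff_X_pow_mul',
        if_neg (not_le.2 h), mul_zero]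
    obtain ⟨j, rfl⟩ := Nat.exists_eq_add_of_le h2
    refine ⟨j, ?_, rfl⟩
    rw [mem_support_iff]
    intro h
    apply hi
    rw [add_comm, coeff_monomial_mul, h, mul_zero]
  rw [l1_eq_of_subset _ h1, Finset.sum_map, l1_eq, Finset.mul_sum]
  refine Finset.sum_le_sum fun i _ => ?_
  rw [addLeftEmbedding_apply, add_comm, coeff_monomial_mul, norm_mul]

theorem mul (P Q : ℂ[X]) : l1 (P * Q) ≤ l1 P * l1 Q := by
  have h1 : P * Q = ∑ i ∈ P.support, monomial i (P.coeff i) * Q := by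
    rw [← Finset.sum_mul]
    congr 1
    exact P.as_sum_support
  rw [h1]
  refine (sum _ _).trans ?_
  rw [l1_eq P, Finset.sum_mul]
  exact Finset.sum_le_sum fun i _ => monomial_mul _ _ _

theorem l1_C (c : ℂ) : l1 (C c) = ‖c‖ := by
  unfold l1
  rw [sum_C_index]
  exact norm_zero

theorem l1_X_pow (n : ℕ) : l1 (X ^ n : ℂ[X]) = 1 := by
  unfold l1
  rw [X_pow_eq_monomial, sum_monomial_index]
  · exact norm_one
  · exact norm_zero

theorem prod {ι : Type} (s : Finset ι) (f : ι → ℂ[X]) : l1 (∏ i ∈ s, f i) ≤ ∏ i ∈ s, l1 (f i) := by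
  classical
  induction s using Finset.induction_on with
  | empty =>
    have := l1_X_pow 0
    rw [pow_zero] at this
    simp [this]
  | insert a s ha ih =>
    rw [Finset.prod_insert ha, Finset.prod_insert ha]
    exact (mul _ _).trans (mul_le_mul_of_nonneg_left ih (nonneg _))

theorem pow (P : ℂ[X]) (n : ℕ) : l1 (P ^ n) ≤ l1 P ^ n := by
  have := prod (Finset.univ : Finset (Fin n)) fun _ => P
  simpa using this

theorem eval (P : ℂ[X]) (y : ℂ) : ‖P.eval y‖ ≤ l1 P * (max 1 ‖y‖) ^ P.natDegree := by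
  rw [eval_eq_sum, l1_eq, Finset.sum_mul]
  refine (norm_sum_le _ _).trans (Finset.sum_le_sum fun i hi => ?_)
  rw [norm_mul, norm_pow]
  refine mul_le_mul_of_nonneg_left ?_ (norm_nonneg _)
  calc ‖y‖ ^ i ≤ (max 1 ‖y‖) ^ i := by gcongr; exact le_max_right _ _
    _ ≤ (max 1 ‖y‖) ^ P.natDegree := pow_le_pow_right₀ (le_max_left _ _) (le_natDegree_of_mem_supp _ hi)

theorem mahler_prod {N : ℕ} (f : Fin N → ℂ[X]) :
    (∏ r, f r).mahlerMeasure = ∏ r, (f r).mahlerMeasure := by
  classical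
  induction (Finset.univ : Finset (Fin N)) using Finset.induction_on with
  | empty => simp
  | insert a s ha ih => rw [Finset.prod_insert ha, Finset.prod_insert ha, mahlerMeasure_mul, ih]

theorem mahler (P : ℂ[X]) (hP : P ≠ 0) (N : ℕ) (x : Fin N → ℂ)
    (h : P = C P.leadingCoeff * ∏ r, (X - C (x r))) :
    Real.log ‖P.leadingCoeff‖ + ∑ r, Real.posLog ‖x r‖ ≤ Real.log (l1 P) := by
  have h1 : P.mahlerMeasure = ‖P.leadingCoeff‖ * ∏ r, max 1 ‖x r‖ := by
    conv_lhs => rw [h]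
    rw [mahlerMeasure_mul, mahlerMeasure_const, mahler_prod]
    simp only [mahlerMeasure_X_sub_C]
  have hlc : 0 < ‖P.leadingCoeff‖ := norm_pos_iff.2 (leadingCoeff_ne_zero.2 hP)
  have hm : ∀ r, 0 < max 1 ‖x r‖ := fun r => lt_max_of_lt_left one_pos
  have h2 : Real.log ‖P.leadingCoeff‖ + ∑ r, Real.posLog ‖x r‖ = Real.log P.mahlerMeasure := by
    rw [h1, Real.log_mul hlc.ne' (Finset.prod_pos fun r _ => hm r).ne',
      Real.log_prod fun r _ => (hm r).ne']
    congr 1
    refine Finset.sum_congr rfl fun r _ => ?_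
    rw [Real.posLog_eq_log_max_one (norm_nonneg _)]
  rw [h2]
  exact Real.log_le_log (mahlerMeasure_pos_of_ne_zero hP) (mahlerMeasure_le_sum_norm_coeff P)

end L1

theorem lone : StmtL1 :=
  ⟨L1.nonneg, L1.add, L1.mul, L1.l1_C, by simpa using L1.l1_X_pow 1, L1.pow, L1.l1_X_pow,
    fun _ s f => L1.sum s f, fun _ s f => L1.prod s f, L1.eval, L1.mahler⟩

end GSL

end

section

/-!
# MP_327059_nt : product of distances of lattice points in a disc
-/

open Filter Topology

namespace GSL.Lat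

theorem low {u₁ u₂ : ℂ} (hu : (u₁ * starRingEnd ℂ u₂).im ≠ 0) :
    ∃ c0 : ℝ, 0 < c0 ∧ c0 ≤ 1 ∧ ∀ a b : ℝ, c0 * max |a| |b| ≤ ‖(a * u₁ + b * u₂ : ℂ)‖ := by
  set δ := |(u₁ * starRingEnd ℂ u₂).im| with hδ
  have hδ0 : 0 < δ := abs_pos.2 hu
  have hu2 : u₂ ≠ 0 := by
    rintro rfl
    simp at hu
  set M := max ‖u₁‖ ‖u₂‖ with hM
  have hM0 : 0 < M := lt_of_lt_of_le (norm_pos_iff.2 hu2) (le_max_right _ _)
  refine ⟨min 1 (δ / M), lt_min one_pos (by positivity), min_le_left _ _, fun a b => ?_⟩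
  have hx : |a| * δ ≤ ‖(a * u₁ + b * u₂ : ℂ)‖ * M := by
    have h1 : ((a * u₁ + b * u₂ : ℂ) * starRingEnd ℂ u₂).im = a * (u₁ * starRingEnd ℂ u₂).im := by
      simp only [Complex.mul_im, Complex.add_im, Complex.add_re, Complex.mul_re,
        Complex.ofReal_re, Complex.ofReal_im, Complex.conj_re, Complex.conj_im]
      ring
    have h2 := Complex.abs_im_le_norm ((a * u₁ + b * u₂ : ℂ) * starRingEnd ℂ u₂)
    rw [h1, abs_mul, norm_mul, RCLike.norm_conj] at h2
    exact h2.trans (by gcongr; exact le_max_right _ _)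
  have hy : |b| * δ ≤ ‖(a * u₁ + b * u₂ : ℂ)‖ * M := by
    have h1 : ((a * u₁ + b * u₂ : ℂ) * starRingEnd ℂ u₁).im =
        -(b * (u₁ * starRingEnd ℂ u₂).im) := by
      simp only [Complex.mul_im, Complex.add_im, Complex.add_re, Complex.mul_re,
        Complex.ofReal_re, Complex.ofReal_im, Complex.conj_re, Complex.conj_im]
      ring
    have h2 := Complex.abs_im_le_norm ((a * u₁ + b * u₂ : ℂ) * starRingEnd ℂ u₁)
    rw [h1, abs_neg, abs_mul, norm_mul, RCLike.norm_conj] at h2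
    exact h2.trans (by gcongr; exact le_max_left _ _)
  have hz : max |a| |b| * δ ≤ ‖(a * u₁ + b * u₂ : ℂ)‖ * M := by
    rcases le_total |a| |b| with h | h
    · rw [max_eq_right h]; exact hy
    · rw [max_eq_left h]; exact hx
  calc min 1 (δ / M) * max |a| |b| ≤ (δ / M) * max |a| |b| := by
        gcongr
        exact min_le_right _ _
    _ = max |a| |b| * δ / M := by ring
    _ ≤ ‖(a * u₁ + b * u₂ : ℂ)‖ := by
        rw [div_le_iff₀ hM0]
        exact hz

theorem near_card (S : ℕ) (p : ℤ × ℤ) {R : ℝ} (hR : 1 ≤ R) :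
    ((((circ S).erase p).filter fun p' =>
      max |((p.1 : ℝ) - p'.1)| |((p.2 : ℝ) - p'.2)| ≤ R).card : ℝ) ≤ 9 * R ^ 2 := by
  have hsub : (((circ S).erase p).filter fun p' =>
      max |((p.1 : ℝ) - p'.1)| |((p.2 : ℝ) - p'.2)| ≤ R) ⊆
      (Finset.Icc (p.1 - ⌊R⌋₊) (p.1 + ⌊R⌋₊)) ×ˢ (Finset.Icc (p.2 - ⌊R⌋₊) (p.2 + ⌊R⌋₊)) := by
    intro q hq
    rw [Finset.mem_filter, max_le_iff] at hq
    obtain ⟨-, h1, h2⟩ := hq
    have key : ∀ x y : ℤ, |((x : ℝ) - y)| ≤ R → x - ⌊R⌋₊ ≤ y ∧ y ≤ x + ⌊R⌋₊ := by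
      intro x y h
      have h3 : ((|x - y|.toNat : ℕ) : ℝ) ≤ R := by
        have : ((|x - y|.toNat : ℕ) : ℤ) = |x - y| := Int.toNat_of_nonneg (abs_nonneg _)
        have h4 : ((|x - y|.toNat : ℕ) : ℝ) = ((|x - y| : ℤ) : ℝ) := by
          rw [← this]; norm_cast
        rw [h4]
        push_cast
        exact h
      have h5 : |x - y|.toNat ≤ ⌊R⌋₊ := Nat.le_floor h3
      have h6 : |x - y| ≤ (⌊R⌋₊ : ℤ) := by
        have : ((|x - y|.toNat : ℕ) : ℤ) = |x - y| := Int.toNat_of_nonneg (abs_nonneg _)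
        rw [← this]
        exact_mod_cast h5
      rw [abs_le] at h6
      constructor <;> linarith [h6.1, h6.2]
    rw [Finset.mem_product, Finset.mem_Icc, Finset.mem_Icc]
    exact ⟨key _ _ h1, key _ _ h2⟩
  have hc := Finset.card_le_card hsub
  rw [Finset.card_product, Int.card_Icc, Int.card_Icc] at hc
  have e1 : (p.1 + (⌊R⌋₊ : ℤ) + 1 - (p.1 - ⌊R⌋₊)).toNat = 2 * ⌊R⌋₊ + 1 := by omega
  have e2 : (p.2 + (⌊R⌋₊ : ℤ) + 1 - (p.2 - ⌊R⌋₊)).toNat = 2 * ⌊R⌋₊ + 1 := by omega
  rw [e1, e2] at hc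
  have hc' : ((((circ S).erase p).filter fun p' =>
      max |((p.1 : ℝ) - p'.1)| |((p.2 : ℝ) - p'.2)| ≤ R).card : ℝ) ≤
      (2 * (⌊R⌋₊ : ℝ) + 1) * (2 * (⌊R⌋₊ : ℝ) + 1) := by exact_mod_cast hc
  have hfl : (⌊R⌋₊ : ℝ) ≤ R := Nat.floor_le (by linarith)
  have h0 : (0 : ℝ) ≤ ⌊R⌋₊ := Nat.cast_nonneg _
  nlinarith

end GSL.Lat

namespace GSL

theorem lat (hC : StmtCount) : StmtLat := by
  intro u₁ u₂ hu ε hε hε1
  obtain ⟨c0, hc0, hc01, hlow⟩ := Lat.low hu
  have ev1 : ∀ᶠ S : ℕ in atTop, (3 : ℝ) * (S : ℝ) ^ 2 ≤ ((circ S).card : ℝ) := by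
    have h1 := hC.1.eventually (eventually_ge_nhds (show (3 : ℝ) < Real.pi from Real.pi_gt_three))
    filter_upwards [h1, eventually_ge_atTop 1] with S hS hS1
    have : (0 : ℝ) < (S : ℝ) ^ 2 := by
      have : (0 : ℝ) < S := by exact_mod_cast hS1
      positivity
    rw [le_div_iff₀ this] at hS
    exact hS
  have ev2 : ∀ᶠ S : ℕ in atTop, -Real.log c0 / (ε / 4) ≤ Real.log (S : ℝ) :=
    (Real.tendsto_log_atTop.comp tendsto_natCast_atTop_atTop).eventually_ge_atTop _
  have ev3 : ∀ᶠ S : ℕ in atTop, (S : ℝ) ^ (-ε) ≤ 3 * ε / 40 := by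
    have h1 : Tendsto (fun S : ℕ => (S : ℝ) ^ (-ε)) atTop (𝓝 0) :=
      (tendsto_rpow_neg_atTop hε).comp tendsto_natCast_atTop_atTop
    exact h1.eventually (eventually_le_nhds (show (0 : ℝ) < 3 * ε / 40 by positivity))
  obtain ⟨S₁, hS₁⟩ := eventually_atTop.1 (ev1.and (ev2.and (ev3.and (eventually_ge_atTop 1))))
  refine ⟨S₁, fun S hS p hp => ?_⟩
  obtain ⟨g1, g2, g3, g4⟩ := hS₁ S hS
  have hS0 : (0 : ℝ) < S := by exact_mod_cast g4
  have hS1 : (1 : ℝ) ≤ S := by exact_mod_cast g4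
  have hlog : 0 ≤ Real.log (S : ℝ) := Real.log_nonneg hS1
  set A : ℝ := ((circ S).card : ℝ) with hA
  set R : ℝ := (S : ℝ) ^ (1 - ε / 2) with hR
  have hR1 : 1 ≤ R := Real.one_le_rpow hS1 (by linarith)
  have hR0 : 0 < R := by linarith
  classical
  set near : ℤ × ℤ → Prop := fun p' => max |((p.1 : ℝ) - p'.1)| |((p.2 : ℝ) - p'.2)| ≤ R with hnear
  have hNc := Lat.near_card S p hR1
  -- lower bound for the factors
  have hfac : ∀ p' ∈ (circ S).erase p, c0 * (if near p' then 1 else R) ≤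
      ‖(p.1 * u₁ + p.2 * u₂ : ℂ) - (p'.1 * u₁ + p'.2 * u₂)‖ := by
    intro p' hp'
    have hne : p' ≠ p := (Finset.mem_erase.1 hp').1
    have e : (p.1 * u₁ + p.2 * u₂ : ℂ) - (p'.1 * u₁ + p'.2 * u₂) =
        (((p.1 : ℝ) - p'.1 : ℝ) : ℂ) * u₁ + (((p.2 : ℝ) - p'.2 : ℝ) : ℂ) * u₂ := by
      push_cast
      ring
    rw [e]
    refine le_trans ?_ (hlow _ _)
    refine mul_le_mul_of_nonneg_left ?_ hc0.le
    split_ifs with h
    · -- integer difference
      have h1 : 1 ≤ |p.1 - p'.1| ∨ 1 ≤ |p.2 - p'.2| := by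
        by_contra hcon
        push Not at hcon
        obtain ⟨h2, h3⟩ := hcon
        apply hne
        have h4 : p.1 - p'.1 = 0 := Int.abs_lt_one_iff.1 h2
        have h5 : p.2 - p'.2 = 0 := Int.abs_lt_one_iff.1 h3
        exact Prod.ext (by omega) (by omega)
      rcases h1 with h1 | h1
      · have h2 : (1 : ℝ) ≤ |((p.1 : ℝ) - p'.1)| := by exact_mod_cast h1
        exact h2.trans (le_max_left _ _)
      · have h2 : (1 : ℝ) ≤ |((p.2 : ℝ) - p'.2)| := by exact_mod_cast h1
        exact h2.trans (le_max_right _ _)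
    · exact (not_le.1 h).le
  have hprod : ∏ p' ∈ (circ S).erase p, (c0 * (if near p' then 1 else R)) ≤
      ∏ p' ∈ (circ S).erase p, ‖(p.1 * u₁ + p.2 * u₂ : ℂ) - (p'.1 * u₁ + p'.2 * u₂)‖ := by
    refine Finset.prod_le_prod (fun p' _ => ?_) hfac
    split_ifs <;> positivity
  refine le_trans ?_ hprod
  rw [Finset.prod_mul_distrib, Finset.prod_const, Finset.prod_ite, Finset.prod_const_one, one_mul,
    Finset.prod_const]
  have hcardA : (((circ S).erase p).card : ℝ) = A - 1 := by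
    rw [Finset.card_erase_of_mem hp, Nat.cast_sub (Finset.card_pos.2 ⟨p, hp⟩)]
    simp [hA]
  have hfar : ((((circ S).erase p).filter fun p' => ¬ near p').card : ℝ) ≥
      A - 1 - 9 * R ^ 2 := by
    have h1 := Finset.card_filter_add_card_filter_not (s := (circ S).erase p) near
    have h2 : ((((circ S).erase p).filter near).card : ℝ) +
        ((((circ S).erase p).filter fun p' => ¬ near p').card : ℝ) = A - 1 := by
      rw [← hcardA]
      exact_mod_cast h1
    linarith
  set n1 := ((circ S).erase p).card with hn1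
  set n2 := (((circ S).erase p).filter fun p' => ¬ near p').card with hn2
  have e1 : c0 ^ n1 * R ^ n2 = Real.exp ((n1 : ℝ) * Real.log c0 +
      n2 * ((1 - ε / 2) * Real.log S)) := by
    rw [Real.exp_add, Real.exp_nat_mul, Real.exp_log hc0, Real.exp_nat_mul]
    congr 2
    rw [hR, Real.rpow_def_of_pos hS0, mul_comm]
  rw [e1]
  apply Real.exp_le_exp.2
  have hlc : Real.log c0 ≤ 0 := Real.log_nonpos hc0.le hc01
  have hcl : -Real.log c0 ≤ ε / 4 * Real.log S := by
    have h4 : (0 : ℝ) < ε / 4 := by positivity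
    rw [div_le_iff₀ h4] at g2
    linarith
  have hA3 : 3 * (S : ℝ) ^ 2 ≤ A := g1
  have hA0 : 0 ≤ A := Nat.cast_nonneg _
  have hRR : R ^ 2 = (S : ℝ) ^ 2 * (S : ℝ) ^ (-ε) := by
    rw [hR, ← Real.rpow_natCast, ← Real.rpow_mul hS0.le, ← Real.rpow_natCast (S : ℝ) 2,
      ← Real.rpow_add hS0]
    congr 1
    push_cast
    ring
  have hRR1 : 1 + 9 * R ^ 2 ≤ ε / 4 * A := by
    have h5 : 1 ≤ R ^ 2 := one_le_pow₀ hR1
    have h6 : R ^ 2 ≤ (S : ℝ) ^ 2 * (3 * ε / 40) := by
      rw [hRR]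
      gcongr
    nlinarith
  have hn1A : (n1 : ℝ) = A - 1 := hcardA
  have hn1' : (n1 : ℝ) * Real.log c0 ≥ -(A * (ε / 4 * Real.log S)) := by
    rw [hn1A]
    nlinarith [mul_nonneg hA0 hlog, mul_nonneg hA0 (neg_nonneg.2 hlc)]
  have hn2' : (n2 : ℝ) * ((1 - ε / 2) * Real.log S) ≥
      (A - ε / 4 * A) * ((1 - ε / 2) * Real.log S) := by
    have h7 : 0 ≤ (1 - ε / 2) * Real.log S := mul_nonneg (by linarith) hlog
    refine mul_le_mul_of_nonneg_right ?_ h7
    linarith
  have h8 : (A - ε / 4 * A) * ((1 - ε / 2) * Real.log S) ≥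
      A * ((1 - 3 * ε / 4) * Real.log S) := by
    have : (1 - ε / 4) * (1 - ε / 2) ≥ 1 - 3 * ε / 4 := by nlinarith
    have h9 : 0 ≤ A * Real.log S := mul_nonneg hA0 hlog
    nlinarith
  have h10 : (1 - ε) * A * Real.log S = A * ((1 - 3 * ε / 4) * Real.log S) -
      A * (ε / 4 * Real.log S) := by ring
  linarith

end GSL

end

section

open Polynomial

namespace GSL

namespace NG

/-- An element of `ℚ(β)` fixed by the conjugation is rational. -/
theorem rat_of_conj {β : ℂ} (h : IQ β) {x : ℂ} (hx : x ∈ Kb β) (hc : starRingEnd ℂ x = x) :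
    ∃ q : ℚ, x = (q : ℂ) := by
  obtain ⟨u, v, rfl⟩ := hx
  have h1 : ((u : ℂ) + v * β).im = 0 := Complex.conj_eq_iff_im.mp hc
  have h2 : (v : ℝ) * β.im = 0 := by
    have h3 : ((u : ℂ) + v * β).im = (v : ℝ) * β.im := by
      have e1 : ((u : ℚ) : ℂ) = ((u : ℝ) : ℂ) := by simp
      have e2 : ((v : ℚ) : ℂ) = ((v : ℝ) : ℂ) := by simp
      rw [e1, e2]
      simp
    rw [← h3]
    exact h1
  have h3 : (v : ℝ) = 0 := (mul_eq_zero.mp h2).resolve_right h.im
  have h4 : v = 0 := by exact_mod_cast h3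
  refine ⟨u, ?_⟩
  rw [h4]
  simp

theorem exists_int_poly {f : ℚ[X]} (hf : f.Monic) : ∃ g : ℤ[X], g.IsPrimitive ∧
    0 < g.leadingCoeff ∧ g.map (Int.castRingHom ℚ) = C (g.leadingCoeff : ℚ) * f := by
  obtain ⟨b, hbM, hb⟩ := IsLocalization.integerNormalization_spec (nonZeroDivisors ℤ) f
  set G := IsLocalization.integerNormalization (nonZeroDivisors ℤ) f with hG
  have hb0 : ((b : ℤ) : ℚ) ≠ 0 := by
    have := nonZeroDivisors.ne_zero hbM
    exact_mod_cast this
  have hmap : G.map (Int.castRingHom ℚ) = C ((b : ℤ) : ℚ) * f := by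
    have h1 : (algebraMap ℤ ℚ) = Int.castRingHom ℚ := rfl
    rw [← h1, hb, Algebra.smul_def, Polynomial.algebraMap_apply]
    rfl
  have hG0 : G ≠ 0 := by
    intro h0
    rw [h0, Polynomial.map_zero] at hmap
    have := congrArg Polynomial.leadingCoeff hmap
    rw [leadingCoeff_mul, leadingCoeff_C, hf.leadingCoeff, leadingCoeff_zero, mul_one] at this
    exact hb0 this.symm
  have hcont : G.content ≠ 0 := by
    rw [Ne, content_eq_zero_iff]
    exact hG0
  have hdec := G.eq_C_content_mul_primPart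
  set g0 := G.primPart with hg0
  have hprim : g0.IsPrimitive := G.isPrimitive_primPart
  have hg00 : g0 ≠ 0 := hprim.ne_zero
  have hk : ((G.content : ℤ) : ℚ) ≠ 0 := by exact_mod_cast hcont
  have h2 : C ((G.content : ℤ) : ℚ) * g0.map (Int.castRingHom ℚ) = C ((b : ℤ) : ℚ) * f := by
    rw [← hmap]
    conv_rhs => rw [hdec]
    rw [Polynomial.map_mul, Polynomial.map_C]
    rfl
  have hinj : Function.Injective (Int.castRingHom ℚ) := Int.cast_injective
  have h3 : ((G.content : ℤ) : ℚ) * (g0.leadingCoeff : ℚ) = ((b : ℤ) : ℚ) := by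
    have := congrArg Polynomial.leadingCoeff h2
    rw [leadingCoeff_mul, leadingCoeff_mul, leadingCoeff_C, leadingCoeff_C, hf.leadingCoeff,
      mul_one, leadingCoeff_map_of_injective hinj] at this
    exact this
  have h4 : g0.map (Int.castRingHom ℚ) = C (g0.leadingCoeff : ℚ) * f := by
    have h5 : (C ((G.content : ℤ) : ℚ)) ≠ (0 : ℚ[X]) := by
      rw [Ne, C_eq_zero]
      exact hk
    apply mul_left_cancel₀ h5
    rw [h2, ← h3, C_mul, mul_assoc]
  rcases lt_or_gt_of_ne (leadingCoeff_ne_zero.mpr hg00) with hneg | hpos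
  · refine ⟨-g0, ?_, ?_, ?_⟩
    · intro r hr
      exact hprim r ((dvd_neg).mp hr)
    · rw [leadingCoeff_neg]
      linarith
    · rw [leadingCoeff_neg, Polynomial.map_neg, h4]
      push_cast
      rw [C_neg]
      ring
  · exact ⟨g0, hprim, hpos, h4⟩

end NG

theorem ng (hField : StmtField) : StmtNG := by
  intro β h Q hQ
  obtain ⟨h1, -, -, h4, -, -⟩ := hField β h
  set F : ℂ[X] := toC Q * (toC Q).map (starRingEnd ℂ) with hF
  have hconj : F.map (starRingEnd ℂ) = F := by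
    rw [hF, Polynomial.map_mul, Polynomial.map_map]
    have : (starRingEnd ℂ).comp (starRingEnd ℂ) = RingHom.id ℂ := by
      ext x
      simp
    rw [this, Polynomial.map_id, mul_comm]
  have hmonicC : (toC Q).Monic := hQ.map _
  have hmonic : F.Monic := hmonicC.mul (hmonicC.map _)
  have hcoeff : ∀ i, F.coeff i ∈ Kb β := by
    intro i
    rw [← h1, hF, coeff_mul]
    refine (Fb β).sum_mem fun p _ => (Fb β).mul_mem ?_ ?_
    · rw [toC, coeff_map]
      exact (Q.coeff p.1).2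
    · rw [coeff_map, h1]
      apply h4
      rw [← h1, toC, coeff_map]
      exact (Q.coeff p.2).2
  have hrat : ∀ i, F.coeff i ∈ Set.range (algebraMap ℚ ℂ) := by
    intro i
    have h5 : starRingEnd ℂ (F.coeff i) = F.coeff i := by
      conv_rhs => rw [← hconj]
      rw [coeff_map]
    obtain ⟨q, hq⟩ := NG.rat_of_conj h (hcoeff i) h5
    exact ⟨q, by rw [hq]; simp⟩
  have hlift : F ∈ lifts (algebraMap ℚ ℂ) := (lifts_iff_coeff_lifts _).mpr hrat
  obtain ⟨f, hf1, -, hf3⟩ := lifts_and_natDegree_eq_and_monic hlift hmonic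
  obtain ⟨g, hg1, hg2, hg3⟩ := NG.exists_int_poly hf3
  refine ⟨g, hg1, hg2, ?_⟩
  have h6 : (Int.castRingHom ℂ) = (algebraMap ℚ ℂ).comp (Int.castRingHom ℚ) := by
    ext
    simp
  rw [h6, ← Polynomial.map_map, hg3, Polynomial.map_mul, hf1, map_C, ← hF]
  simp

end GSL

end

section

/-!
# MP_327059_nt : `min` is a positive semidefinite kernel
-/

namespace GSL

namespace PSD

/-- The inductive statement: subtract a lower bound `m` of the values. -/
theorem aux {ι : Type} [DecidableEq ι] (w u : ι → ℝ) (s : Finset ι) :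
    ∀ m : ℝ, (∀ i ∈ s, m ≤ u i) →
      0 ≤ ∑ i ∈ s, ∑ j ∈ s, w i * w j * (min (u i) (u j) - m) := by
  refine Finset.induction_on_min_value u s ?_ ?_
  · intro m _
    simp
  · intro a s ha hmin ih m hm
    have h1 : ∀ i ∈ insert a s, ∀ j ∈ insert a s, w i * w j * (min (u i) (u j) - m) =
        w i * w j * (min (u i) (u j) - u a) + (u a - m) * (w i * w j) := by
      intro i _ j _
      ring
    have h2 : ∑ i ∈ insert a s, ∑ j ∈ insert a s, w i * w j * (min (u i) (u j) - m) =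
        (∑ i ∈ insert a s, ∑ j ∈ insert a s, w i * w j * (min (u i) (u j) - u a)) +
          (u a - m) * ((∑ i ∈ insert a s, w i) * (∑ j ∈ insert a s, w j)) := by
      rw [Finset.sum_mul_sum, Finset.mul_sum, ← Finset.sum_add_distrib]
      refine Finset.sum_congr rfl fun i hi => ?_
      rw [Finset.mul_sum, ← Finset.sum_add_distrib]
      exact Finset.sum_congr rfl fun j hj => h1 i hi j hj
    have h3 : ∑ i ∈ insert a s, ∑ j ∈ insert a s, w i * w j * (min (u i) (u j) - u a) =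
        ∑ i ∈ s, ∑ j ∈ s, w i * w j * (min (u i) (u j) - u a) := by
      rw [Finset.sum_insert ha]
      have hz : ∑ j ∈ insert a s, w a * w j * (min (u a) (u j) - u a) = 0 := by
        refine Finset.sum_eq_zero fun j hj => ?_
        have : u a ≤ u j := by
          rcases Finset.mem_insert.1 hj with h | h
          · rw [h]
          · exact hmin j h
        rw [min_eq_left this, sub_self, mul_zero]
      rw [hz, zero_add]
      refine Finset.sum_congr rfl fun i hi => ?_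
      rw [Finset.sum_insert ha, min_eq_right (hmin i hi), sub_self, mul_zero, zero_add]
    rw [h2, h3]
    have h4 := ih (u a) hmin
    have h5 : 0 ≤ (u a - m) * ((∑ i ∈ insert a s, w i) * (∑ j ∈ insert a s, w j)) :=
      mul_nonneg (sub_nonneg.2 (hm a (Finset.mem_insert_self a s))) (mul_self_nonneg _)
    linarith

end PSD

theorem psd : StmtPSD := by
  classical
  intro ι _ w u hu
  have h := PSD.aux w u Finset.univ 0 (fun i _ => hu i)
  simpa using h

end GSL

end
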