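import Pool.Agent.Work.MP_327059_nt.Stmts
import Pool.Agent.Work.MP_327059_nt.Bd.B05
import Pool.Agent.Work.MP_327059_nt.Bd.B14
import Pool.Agent.Work.MP_327059_nt.NVa

/-! Bundle of small proof modules (one section per former module). -/

section

/-!
# MP_327059_nt : local parameters near `Y`
-/

open Polynomial Filter Topology

namespace GSL

namespace Near

lemma mul_wz (D : Dat) (p q : ℤ × ℤ) :
    wv D.β p * zv D.t D.β q = (Af D.t D.n p q : ℂ) + (Bf p q : ℂ) * D.β := by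
  have h := D.quad
  simp only [wv, zv, Af, Bf]
  push_cast
  linear_combination (p.2 : ℂ) * (q.1 : ℂ) * h

lemma mul_wz_conj (D : Dat) (p q : ℤ × ℤ) :
    starRingEnd ℂ (wv D.β p) * starRingEnd ℂ (zv D.t D.β q) =
      (Af D.t D.n p q : ℂ) + (Bf p q : ℂ) * starRingEnd ℂ D.β := by
  rw [← map_mul, mul_wz]
  simp

lemma conj_sub_ne (D : Dat) : starRingEnd ℂ D.β - D.β ≠ 0 := by
  intro h
  have h1 := congrArg Complex.im h
  simp only [Complex.sub_im, Complex.conj_im, Complex.zero_im] at h1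
  exact D.im (by linarith)

lemma exp_eq (D : Dat) (y e1 : ℂ) (he : Complex.exp e1 = y / D.Y) (p q : ℤ × ℤ) :
    (D.a₁ / D.a₂) ^ (Af D.t D.n p q) * y ^ (Bf p q) =
      Complex.exp (wv D.β p * zv D.t D.β q * (D.l - e1 / (starRingEnd ℂ D.β - D.β)) +
        starRingEnd ℂ (wv D.β p) * starRingEnd ℂ (zv D.t D.β q) *
          (e1 / (starRingEnd ℂ D.β - D.β))) := by
  have hne := conj_sub_ne D
  rw [mul_wz, mul_wz_conj]
  have h1 : ((Af D.t D.n p q : ℂ) + (Bf p q : ℂ) * D.β) *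
      (D.l - e1 / (starRingEnd ℂ D.β - D.β)) +
      ((Af D.t D.n p q : ℂ) + (Bf p q : ℂ) * starRingEnd ℂ D.β) *
        (e1 / (starRingEnd ℂ D.β - D.β)) =
      (Af D.t D.n p q : ℂ) * D.l + (Bf p q : ℂ) * (D.β * D.l + e1) := by
    have h2 : (starRingEnd ℂ D.β - D.β) * (e1 / (starRingEnd ℂ D.β - D.β)) = e1 :=
      mul_div_cancel₀ e1 hne
    linear_combination (Bf p q : ℂ) * h2
  rw [h1, Complex.exp_add, Complex.exp_int_mul, Complex.exp_int_mul, Complex.exp_add, he, D.exp_l]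
  have hY : D.Y ≠ 0 := Complex.exp_ne_zero _
  have h3 : Complex.exp (D.β * D.l) * (y / D.Y) = y := by
    change D.Y * (y / D.Y) = y
    exact mul_div_cancel₀ y hY
  rw [h3]

end Near

open Near in
theorem near : StmtNear := by
  intro D
  have hY : D.Y ≠ 0 := Complex.exp_ne_zero _
  have hYn : 0 < ‖D.Y‖ := norm_pos_iff.2 hY
  have hne := conj_sub_ne D
  have hnn : 0 < ‖starRingEnd ℂ D.β - D.β‖ := norm_pos_iff.2 hne
  have hln : 0 < ‖D.l‖ := norm_pos_iff.2 D.l_ne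
  have hA : D.A₀.eval D.Y ≠ 0 := D.A₀_ne
  set R : ℂ → ℂ := fun y => D.B₀.eval y / D.A₀.eval y with hR
  have hRY : R D.Y = D.l := D.l_eq.symm
  have hRd : DifferentiableAt ℂ R D.Y :=
    (D.B₀.differentiable D.Y).div (D.A₀.differentiable D.Y) hA
  obtain ⟨K, hK0, hK⟩ : ∃ K : ℝ, 0 < K ∧ ∀ᶠ y in 𝓝 D.Y, ‖R y - D.l‖ ≤ K * ‖y - D.Y‖ := by
    obtain ⟨K, hK0, hK⟩ := (hRd.hasFDerivAt.isBigO_sub).exists_pos
    refine ⟨K, hK0, ?_⟩
    have h1 := hK.bound
    rw [hRY] at h1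
    exact h1
  have hAc : ∀ᶠ y in 𝓝 D.Y, D.A₀.eval y ≠ 0 :=
    (D.A₀.continuous.continuousAt).eventually_ne hA
  have hAb : ∀ᶠ y in 𝓝 D.Y, ‖D.A₀.eval y‖ < ‖D.A₀.eval D.Y‖ + 1 := by
    have hc : ContinuousAt (fun y => ‖D.A₀.eval y‖) D.Y := D.A₀.continuous.norm.continuousAt
    exact hc.eventually_lt_const (by linarith)
  obtain ⟨ρ, hρ0, hρ⟩ := Metric.eventually_nhds_iff.1 (hK.and (hAc.and hAb))
  set Ce : ℝ := 3 / 2 / (‖D.Y‖ * ‖starRingEnd ℂ D.β - D.β‖) with hCe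
  have hCe0 : 0 < Ce := by positivity
  set Cs : ℝ := 2 * (Ce + K) / ‖D.l‖ with hCs
  have hCs0 : 0 < Cs := by positivity
  set r₀ : ℝ := min (min (ρ / 2) (1 / 2)) (min (‖D.Y‖ / 2) (min (‖D.l‖ / (2 * Ce)) (1 / Cs)))
    with hr0
  have hr0pos : 0 < r₀ := by
    rw [hr0]
    refine lt_min (lt_min (by positivity) (by norm_num)) (lt_min (by positivity)
      (lt_min (by positivity) (by positivity)))
  have hr0a : r₀ ≤ ρ / 2 := (min_le_left _ _).trans (min_le_left _ _)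
  have hr0b : r₀ ≤ 1 / 2 := (min_le_left _ _).trans (min_le_right _ _)
  have hr0c : r₀ ≤ ‖D.Y‖ / 2 := (min_le_right _ _).trans (min_le_left _ _)
  have hr0d : r₀ ≤ ‖D.l‖ / (2 * Ce) :=
    (min_le_right _ _).trans ((min_le_right _ _).trans (min_le_left _ _))
  have hr0e : r₀ ≤ 1 / Cs :=
    (min_le_right _ _).trans ((min_le_right _ _).trans (min_le_right _ _))
  set C₁ : ℝ := (‖D.Y‖ + 1) + (‖D.A₀.eval D.Y‖ + 1) + Ce + Cs + (‖D.l‖ + Ce) with hC1
  have hA0 : 0 ≤ ‖D.A₀.eval D.Y‖ := norm_nonneg _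
  refine ⟨r₀, C₁, hr0pos, by linarith, by positivity, ?_⟩
  intro y hy
  have hδ0 : 0 ≤ ‖y - D.Y‖ := norm_nonneg _
  have hdist : dist y D.Y < ρ := by
    rw [dist_eq_norm]; linarith
  obtain ⟨h1, h2, h3⟩ := hρ hdist
  have hyn : ‖y‖ ≤ ‖D.Y‖ + 1 := by
    have : ‖y‖ ≤ ‖D.Y‖ + ‖y - D.Y‖ := by
      calc ‖y‖ = ‖D.Y + (y - D.Y)‖ := by congr 1; ring
        _ ≤ _ := norm_add_le _ _
    linarith
  have hy0 : y ≠ 0 := by
    intro h0
    rw [h0, zero_sub, norm_neg] at hy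
    linarith
  set z : ℂ := (y - D.Y) / D.Y with hz
  have hzn : ‖z‖ ≤ 1 / 2 := by
    rw [hz, norm_div, div_le_iff₀ hYn]
    linarith
  have hyz : y / D.Y = 1 + z := by
    rw [hz]; field_simp; ring
  set e1 : ℂ := Complex.log (1 + z) with he1
  have he1n : ‖e1‖ ≤ 3 / 2 * ‖z‖ := Complex.norm_log_one_add_half_le_self hzn
  have hexp : Complex.exp e1 = y / D.Y := by
    rw [he1, hyz, Complex.exp_log]
    rw [← hyz]
    exact div_ne_zero hy0 hY
  set ε' : ℂ := e1 / (starRingEnd ℂ D.β - D.β) with hε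
  have hεn : ‖ε'‖ ≤ Ce * ‖y - D.Y‖ := by
    rw [hε, norm_div, div_le_iff₀ hnn]
    refine he1n.trans (le_of_eq ?_)
    rw [hz, norm_div, hCe]
    field_simp
  have hεl : ‖ε'‖ ≤ ‖D.l‖ / 2 := by
    refine hεn.trans ?_
    calc Ce * ‖y - D.Y‖ ≤ Ce * (‖D.l‖ / (2 * Ce)) :=
          mul_le_mul_of_nonneg_left (hy.trans hr0d) hCe0.le
      _ = ‖D.l‖ / 2 := by field_simp
  have hl'n : ‖D.l‖ / 2 ≤ ‖D.l - ε'‖ := by
    have := norm_sub_norm_le D.l ε'
    linarith
  have hl'0 : D.l - ε' ≠ 0 := by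
    intro h0
    rw [h0, norm_zero] at hl'n
    linarith
  have hl'p : 0 < ‖D.l - ε'‖ := norm_pos_iff.2 hl'0
  have h1s : ‖1 - R y / (D.l - ε')‖ ≤ Cs * ‖y - D.Y‖ := by
    have h4 : 1 - R y / (D.l - ε') = ((D.l - R y) - ε') / (D.l - ε') := by
      rw [eq_div_iff hl'0, sub_mul, div_mul_cancel₀ _ hl'0]
      ring
    have h5 : ‖(D.l - R y) - ε'‖ ≤ (Ce + K) * ‖y - D.Y‖ := by
      calc ‖(D.l - R y) - ε'‖ ≤ ‖D.l - R y‖ + ‖ε'‖ := norm_sub_le _ _
        _ ≤ K * ‖y - D.Y‖ + Ce * ‖y - D.Y‖ := by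
            rw [norm_sub_rev D.l (R y)]
            exact add_le_add h1 hεn
        _ = _ := by ring
    rw [h4, norm_div, div_le_iff₀ hl'p]
    calc ‖(D.l - R y) - ε'‖ ≤ (Ce + K) * ‖y - D.Y‖ := h5
      _ = Cs * ‖y - D.Y‖ * (‖D.l‖ / 2) := by rw [hCs]; field_simp
      _ ≤ Cs * ‖y - D.Y‖ * ‖D.l - ε'‖ :=
          mul_le_mul_of_nonneg_left hl'n (by positivity)
  have h1s1 : ‖1 - R y / (D.l - ε')‖ ≤ 1 := by
    refine h1s.trans ?_
    calc Cs * ‖y - D.Y‖ ≤ Cs * (1 / Cs) := mul_le_mul_of_nonneg_left (hy.trans hr0e) hCs0.le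
      _ = 1 := by field_simp
  have hCeC : Ce ≤ C₁ := by rw [hC1]; linarith
  have hCsC : Cs ≤ C₁ := by rw [hC1]; linarith
  refine ⟨hy0, h2, by rw [hC1]; linarith, by rw [hC1]; linarith, D.l - ε', ε',
    R y / (D.l - ε'), ?_, ?_, ?_, ?_, ?_, ?_, ?_⟩
  · rw [div_mul_cancel₀ _ hl'0]
  · exact hεn.trans (mul_le_mul_of_nonneg_right hCeC hδ0)
  · exact h1s.trans (mul_le_mul_of_nonneg_right hCsC hδ0)
  · calc ‖R y / (D.l - ε')‖ = ‖1 - (1 - R y / (D.l - ε'))‖ := by congr 1; ring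
      _ ≤ ‖(1 : ℂ)‖ + ‖1 - R y / (D.l - ε')‖ := norm_sub_le _ _
      _ ≤ 2 := by rw [norm_one]; linarith
  · calc ‖D.l - ε'‖ ≤ ‖D.l‖ + ‖ε'‖ := norm_sub_le _ _
      _ ≤ C₁ := by
          have h6 : Ce * ‖y - D.Y‖ ≤ Ce * 1 := mul_le_mul_of_nonneg_left (by linarith) hCe0.le
          rw [hC1]; linarith
  · have h7 : D.l - ε' - D.l = -ε' := by ring
    rw [h7, norm_neg]
    exact hεn.trans (mul_le_mul_of_nonneg_right hCeC hδ0)
  · intro p q
    exact exp_eq D y e1 hexp p q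

end GSL

end

section

/-!
# MP_327059_nt : the exponents of `Y` and `α`
-/

open Filter Topology

namespace GSL.OT

theorem mem_circ {S : ℕ} {p : ℤ × ℤ} (hp : p ∈ circ S) : |p.1| ≤ S ∧ |p.2| ≤ S := by
  unfold circ at hp
  rw [Finset.mem_filter, Finset.mem_product, Finset.mem_Icc, Finset.mem_Icc] at hp
  exact ⟨abs_le.2 hp.1.1, abs_le.2 hp.1.2⟩

theorem af_le (t n : ℤ) {S : ℕ} {p q : ℤ × ℤ} (hp : p ∈ circ S) (hq : q ∈ circ S) :
    |Af t n p q| ≤ ((1 + t.natAbs + n.natAbs : ℕ) : ℤ) * (S : ℤ) ^ 2 := by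
  obtain ⟨p1, p2⟩ := mem_circ hp
  obtain ⟨q1, q2⟩ := mem_circ hq
  have hS : (0 : ℤ) ≤ S := Int.natCast_nonneg S
  unfold Af
  have h1 : |p.1 * (q.2 - t * q.1)| ≤ S * (S + |t| * S) := by
    rw [abs_mul]
    have h2 : |q.2 - t * q.1| ≤ S + |t| * S := by
      calc |q.2 - t * q.1| ≤ |q.2| + |t * q.1| := abs_sub _ _
        _ = |q.2| + |t| * |q.1| := by rw [abs_mul]
        _ ≤ S + |t| * S := by gcongr
    gcongr
  have h3 : |n * p.2 * q.1| ≤ |n| * S * S := by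
    rw [abs_mul, abs_mul]
    gcongr
  have h4 : |p.1 * (q.2 - t * q.1) - n * p.2 * q.1| ≤ S * (S + |t| * S) + |n| * S * S :=
    (abs_sub _ _).trans (add_le_add h1 h3)
  refine h4.trans (le_of_eq ?_)
  push_cast
  ring

/-- Sum of the squares of the norms of the points of the disc. -/
noncomputable def M2 (S : ℕ) : ℝ := ∑ p ∈ circ S, ((p.1 : ℝ) ^ 2 + (p.2 : ℝ) ^ 2)

theorem M2_nonneg (S : ℕ) : 0 ≤ M2 S := Finset.sum_nonneg fun _ _ => by positivity

theorem sum_Ix (S L : ℕ) :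
    ∑ r : Ix S L, ((r.2.1.1 : ℝ) ^ 2 + (r.2.1.2 : ℝ) ^ 2) = L * M2 S := by
  rw [Fintype.sum_prod_type]
  have h1 : ∑ y : {p : ℤ × ℤ // p ∈ circ S},
      ((y.1.1 : ℝ) ^ 2 + (y.1.2 : ℝ) ^ 2) = M2 S := by
    unfold M2
    exact Finset.sum_coe_sort (circ S) (fun p : ℤ × ℤ => (p.1 : ℝ) ^ 2 + (p.2 : ℝ) ^ 2)
  dsimp only
  rw [← h1, Finset.sum_const, Finset.card_univ, Fintype.card_fin, nsmul_eq_mul]

theorem card_Ix (S L : ℕ) : Fintype.card (Ix S L) = L * (circ S).card := by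
  rw [Fintype.card_prod, Fintype.card_fin, Fintype.card_coe]

end GSL.OT

namespace GSL

theorem ot (hC : StmtCount) : StmtOT := by
  intro D ε hε hε1
  set κ := Real.sqrt (1 + ε) with hκ
  have hκ1 : 1 < κ := by
    rw [hκ]
    exact Real.lt_sqrt_of_sq_lt (by linarith)
  have hκ2 : κ * κ = 1 + ε := Real.mul_self_sqrt (by linarith)
  have hκ0 : 0 < κ := by linarith
  have ev : ∀ᶠ S : ℕ in atTop, OT.M2 S ≤ κ / 2 * ((S : ℝ) ^ 2 * (circ S).card) := by
    have h1 := hC.2.div hC.1 Real.pi_pos.ne'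
    have h2 : Real.pi / 2 / Real.pi < κ / 2 := by
      have : Real.pi / 2 / Real.pi = 1 / 2 := by
        have := Real.pi_pos.ne'
        field_simp
      rw [this]
      linarith
    have h3 := hC.1.eventually (eventually_gt_nhds (show (0 : ℝ) < Real.pi from Real.pi_pos))
    filter_upwards [h1.eventually (eventually_le_nhds h2), h3, eventually_ge_atTop 1]
      with S g1 g2 g3
    have hS0 : (0 : ℝ) < S := by exact_mod_cast g3
    have hS2 : (0 : ℝ) < (S : ℝ) ^ 2 := by positivity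
    have hS4 : (0 : ℝ) < (S : ℝ) ^ 4 := by positivity
    rw [Pi.div_apply, div_le_iff₀ g2, div_le_iff₀ hS4] at g1
    have e : κ / 2 * (((circ S).card : ℝ) / (S : ℝ) ^ 2) * (S : ℝ) ^ 4 =
        κ / 2 * ((S : ℝ) ^ 2 * (circ S).card) := by
      field_simp
    rw [e] at g1
    exact g1
  obtain ⟨S₁, hS₁⟩ := eventually_atTop.1 ev
  refine ⟨S₁, 1 + D.t.natAbs + D.n.natAbs, fun S hS L₀ T hT e he π => ⟨?_, ?_⟩⟩
  · have hM := hS₁ S hS
    have hM0 := OT.M2_nonneg S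
    -- real bound
    have hinj : Function.Injective fun r => e (π r) := he.comp π.injective
    have hq : ∑ r : Ix S L₀, (((e (π r)).2.1.1 : ℝ) ^ 2 + ((e (π r)).2.1.2 : ℝ) ^ 2) ≤
        T * OT.M2 S := by
      rw [← OT.sum_Ix S T]
      have h1 : ∑ r : Ix S L₀, (((e (π r)).2.1.1 : ℝ) ^ 2 + ((e (π r)).2.1.2 : ℝ) ^ 2) =
          ∑ s ∈ Finset.univ.map ⟨fun r => e (π r), hinj⟩,
            ((s.2.1.1 : ℝ) ^ 2 + (s.2.1.2 : ℝ) ^ 2) := by
        rw [Finset.sum_map]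
        rfl
      rw [h1]
      exact Finset.sum_le_sum_of_subset_of_nonneg (Finset.subset_univ _)
        fun _ _ _ => by positivity
    have hpt : ∀ r : Ix S L₀, |((Bf r.2.1 (e (π r)).2.1 : ℤ) : ℝ)| ≤
        κ / 2 * ((r.2.1.1 : ℝ) ^ 2 + (r.2.1.2 : ℝ) ^ 2) +
        1 / (2 * κ) * (((e (π r)).2.1.1 : ℝ) ^ 2 + ((e (π r)).2.1.2 : ℝ) ^ 2) := by
      intro r
      unfold Bf
      push_cast
      have key : ∀ a b : ℝ, |a * b| ≤ κ / 2 * a ^ 2 + 1 / (2 * κ) * b ^ 2 := by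
        intro a b
        have h2 : κ / 2 * a ^ 2 + 1 / (2 * κ) * b ^ 2 =
            (κ * |a| - |b|) ^ 2 / (2 * κ) + |a * b| := by
          rw [abs_mul, ← sq_abs a, ← sq_abs b]
          field_simp
          ring
        rw [h2]
        have : 0 ≤ (κ * |a| - |b|) ^ 2 / (2 * κ) := by positivity
        linarith
      refine (abs_add_le _ _).trans ?_
      have k1 := key r.2.1.1 (e (π r)).2.1.1
      have k2 := key r.2.1.2 (e (π r)).2.1.2
      linarith
    have hsum : |((∑ r : Ix S L₀, Bf r.2.1 (e (π r)).2.1 : ℤ) : ℝ)| ≤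
        (1 + ε) / 2 * S ^ 2 * (L₀ * (circ S).card) := by
      push_cast
      calc |∑ r : Ix S L₀, ((Bf r.2.1 (e (π r)).2.1 : ℤ) : ℝ)|
          ≤ ∑ r : Ix S L₀, |((Bf r.2.1 (e (π r)).2.1 : ℤ) : ℝ)| :=
            Finset.abs_sum_le_sum_abs _ _
        _ ≤ ∑ r : Ix S L₀, (κ / 2 * ((r.2.1.1 : ℝ) ^ 2 + (r.2.1.2 : ℝ) ^ 2) +
            1 / (2 * κ) * (((e (π r)).2.1.1 : ℝ) ^ 2 + ((e (π r)).2.1.2 : ℝ) ^ 2)) :=
            Finset.sum_le_sum fun r _ => hpt r
        _ = κ / 2 * (L₀ * OT.M2 S) + 1 / (2 * κ) *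
            ∑ r : Ix S L₀, (((e (π r)).2.1.1 : ℝ) ^ 2 + ((e (π r)).2.1.2 : ℝ) ^ 2) := by
            rw [Finset.sum_add_distrib, ← Finset.mul_sum, ← Finset.mul_sum, OT.sum_Ix]
        _ ≤ κ / 2 * (L₀ * OT.M2 S) + 1 / (2 * κ) * (T * OT.M2 S) := by gcongr
        _ ≤ κ / 2 * (L₀ * OT.M2 S) + 1 / (2 * κ) * ((κ * κ * L₀) * OT.M2 S) := by
            rw [hκ2]
            gcongr
        _ = κ * L₀ * OT.M2 S := by
            field_simp
            ring
        _ ≤ κ * L₀ * (κ / 2 * ((S : ℝ) ^ 2 * (circ S).card)) := by gcongr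
        _ = (κ * κ) / 2 * S ^ 2 * (L₀ * (circ S).card) := by ring
        _ = _ := by rw [hκ2]
    set Z : ℤ := ∑ r : Ix S L₀, Bf r.2.1 (e (π r)).2.1 with hZ
    have h5 : ((|Z|.toNat : ℕ) : ℝ) ≤ (1 + ε) / 2 * S ^ 2 * (L₀ * (circ S).card) := by
      have h6 : ((|Z|.toNat : ℕ) : ℤ) = |Z| := Int.toNat_of_nonneg (abs_nonneg _)
      have h7 : ((|Z|.toNat : ℕ) : ℝ) = ((|Z| : ℤ) : ℝ) := by rw [← h6]; norm_cast
      rw [h7]
      push_cast
      exact hsum
    have h8 := Nat.le_floor h5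
    have h9 : ((|Z|.toNat : ℕ) : ℤ) = |Z| := Int.toNat_of_nonneg (abs_nonneg _)
    rw [← h9]
    exact_mod_cast h8
  · calc |∑ r : Ix S L₀, Af D.t D.n r.2.1 (e (π r)).2.1|
        ≤ ∑ r : Ix S L₀, |Af D.t D.n r.2.1 (e (π r)).2.1| := Finset.abs_sum_le_sum_abs _ _
      _ ≤ ∑ _r : Ix S L₀, ((1 + D.t.natAbs + D.n.natAbs : ℕ) : ℤ) * (S : ℤ) ^ 2 :=
          Finset.sum_le_sum fun r _ => OT.af_le _ _ r.2.2 (e (π r)).2.2
      _ = ((L₀ * (circ S).card : ℕ) : ℤ) *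
          (((1 + D.t.natAbs + D.n.natAbs : ℕ) : ℤ) * (S : ℤ) ^ 2) := by
          rw [Finset.sum_const, Finset.card_univ, OT.card_Ix, nsmul_eq_mul]
      _ = _ := by
          push_cast
          ring
      _ ≤ _ := le_refl _

end GSL

end

section

/-!
# Rank and minors
-/

open Polynomial Filter Topology

namespace GSL

theorem rank : StmtRank := by
  intro R K _ _ _ M h
  by_contra hn
  push Not at hn
  have hli : LinearIndependent ℂ (fun r => M r) := by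
    rw [Fintype.linearIndependent_iff]
    intro g hg
    by_contra hne
    push Not at hne
    obtain ⟨i, hi⟩ := hne
    obtain ⟨c, hc⟩ := hn g (fun h0 => hi (by rw [h0]; rfl))
    apply hc
    have := congrFun hg c
    simpa [Finset.sum_apply] using this
  have hrank : (Matrix.of M).rank = Fintype.card R :=
    LinearIndependent.rank_matrix (M := Matrix.of M) hli
  rw [Matrix.rank_eq_finrank_span_cols] at hrank
  have htop : Submodule.span ℂ (Set.range (Matrix.of M).col) = ⊤ := by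
    apply Submodule.eq_top_of_finrank_eq
    rw [hrank, Module.finrank_fintype_fun_eq_card]
  obtain ⟨b, hb, hspan, hbli⟩ := exists_linearIndependent ℂ (Set.range (Matrix.of M).col)
  rw [htop] at hspan
  let B : Module.Basis b ℂ (R → ℂ) := Module.Basis.mk hbli (by
    rw [Subtype.range_coe, hspan])
  let eq : R ≃ b := (Pi.basisFun ℂ R).indexEquiv B
  have hk : ∀ s : R, ∃ k : K, (Matrix.of M).col k = (eq s).1 := fun s => hb (eq s).2
  choose e he using hk
  have hinj : Function.Injective e := by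
    intro s s' hss
    have : (eq s).1 = (eq s').1 := by rw [← he s, ← he s', hss]
    exact eq.injective (Subtype.ext this)
  have hdet := h e hinj
  have hrows : LinearIndependent ℂ (fun s => (Matrix.of fun s r => M r (e s)) s) := by
    have h1 : LinearIndependent ℂ (fun s : R => (eq s).1) := hbli.comp eq eq.injective
    have h2 : (fun s : R => (eq s).1) = fun s => (Matrix.of fun s r => M r (e s)) s := by
      funext s
      rw [← he s]
      rfl
    rwa [h2] at h1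
  have hu : IsUnit (Matrix.of fun s r => M r (e s)) :=
    Matrix.linearIndependent_rows_iff_isUnit.1 hrows
  rw [Matrix.isUnit_iff_isUnit_det, hdet] at hu
  exact not_isUnit_zero hu

end GSL

end

section

/-!
# MP_327059_nt : choice of the scale
-/

namespace GSL

namespace Sel

theorem exV (K W₀ : ℝ) (hK : 0 < K) : ∃ V₀ : ℝ, 1 < V₀ ∧ ∀ V : ℝ, V₀ ≤ V →
    K * Real.log V ^ 5 ≤ V ∧ W₀ ≤ Real.log V := by
  have h1 := (Real.isLittleO_pow_log_id_atTop (n := 5)).bound (c := 1 / K) (by positivity)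
  have h2 := Real.tendsto_log_atTop.eventually_ge_atTop W₀
  obtain ⟨a, ha⟩ := Filter.eventually_atTop.1 (h1.and h2)
  refine ⟨max a 2, lt_of_lt_of_le one_lt_two (le_max_right _ _), fun V hV => ?_⟩
  have hV2 : 2 ≤ V := (le_max_right _ _).trans hV
  obtain ⟨h3, h4⟩ := ha V ((le_max_left _ _).trans hV)
  refine ⟨?_, h4⟩
  have h5 : (Real.log V) ^ 5 ≤ 1 / K * V := by
    have h6 := (le_abs_self _).trans h3
    have h7 : ‖(id V : ℝ)‖ = V := by
      rw [id, Real.norm_of_nonneg (by linarith)]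
    rwa [h7] at h6
  calc K * Real.log V ^ 5 ≤ K * (1 / K * V) := mul_le_mul_of_nonneg_left h5 hK.le
    _ = V := by field_simp

theorem core (C₁ c₁ ε V ρ W u : ℝ) (hC₁ : 0 < C₁) (hc₁ : 0 < c₁) (hε : 0 < ε) (hε1 : ε < 1)
    (hW : W = Real.log V) (hV : 0 < V) (hW1 : 1 ≤ W) (hWε : 4 / ε ≤ W)
    (hK : 2 * Real.pi * (64 * Real.pi) ^ 4 * W ^ 5 ≤ V) (hρ1 : C₁ + 1 ≤ ρ) (hρW : ρ ≤ W)
    (hρc : ρ ≤ c₁ / 20 * W) (hu : 0 < u) (hu4 : u ^ 4 * (2 * Real.pi * ρ) = V) :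
    ∃ S L₀ : ℕ, W ≤ S ∧ C₁ * S ^ 2 ≤ L₀ * Real.log S ∧ (L₀ : ℝ) ≤ c₁ * S ^ 2 ∧
      (1 - ε) * V ≤ Vf S L₀ ∧ Vf S L₀ ≤ V ∧ (S : ℝ) ^ 2 ≤ u ^ 2 ∧
      L₀ * Real.log S ≤ ρ * u ^ 2 := by
  have hπ := Real.pi_pos
  have hπ3 := Real.pi_gt_three
  have hρ0 : 0 < ρ := by linarith
  have hW0 : 0 < W := by linarith
  -- `u` is large
  have hu1 : 64 * Real.pi * W ≤ u := by
    by_contra hn
    push Not at hn
    have h1 : u ^ 4 < (64 * Real.pi * W) ^ 4 := pow_lt_pow_left₀ hn hu.le (by norm_num)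
    have h2 : u ^ 4 * (2 * Real.pi * ρ) < (64 * Real.pi * W) ^ 4 * (2 * Real.pi * W) := by
      calc u ^ 4 * (2 * Real.pi * ρ) < (64 * Real.pi * W) ^ 4 * (2 * Real.pi * ρ) :=
            mul_lt_mul_of_pos_right h1 (by positivity)
        _ ≤ (64 * Real.pi * W) ^ 4 * (2 * Real.pi * W) := by gcongr
    have h3 : (64 * Real.pi * W) ^ 4 * (2 * Real.pi * W) =
        2 * Real.pi * (64 * Real.pi) ^ 4 * W ^ 5 := by ring
    rw [hu4, h3] at h2
    linarith
  have h3W : 3 * W ≤ Real.pi * W := mul_le_mul_of_nonneg_right hπ3.le hW0.le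
  have huW : 192 * W ≤ u := by linarith
  have hu2 : 192 ≤ u := by linarith
  set S : ℕ := ⌊u⌋₊ with hS
  have hSu : (S : ℝ) ≤ u := Nat.floor_le hu.le
  have hS1 : u - 1 < S := by
    have := Nat.lt_floor_add_one u
    rw [← hS] at this
    linarith
  have hS2 : u / 2 ≤ S := by linarith
  have hS3 : 32 * Real.pi * W ≤ S := by linarith
  have hS0 : 96 ≤ (S : ℝ) := by linarith
  have hSpos : 0 < (S : ℝ) := by linarith
  have hlog : 0 < Real.log S := Real.log_pos (by linarith)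
  have hlogu : Real.log S ≤ u := (Real.log_le_self hSpos.le).trans hSu
  set L₀ : ℕ := ⌊ρ * u ^ 2 / Real.log S⌋₊ with hL
  have hq : 0 ≤ ρ * u ^ 2 / Real.log S := by positivity
  have hL1 : (L₀ : ℝ) * Real.log S ≤ ρ * u ^ 2 := by
    have := Nat.floor_le hq
    rw [← hL] at this
    rwa [le_div_iff₀ hlog] at this
  have hL2 : ρ * u ^ 2 - Real.log S ≤ L₀ * Real.log S := by
    have := (Nat.lt_floor_add_one (ρ * u ^ 2 / Real.log S)).le
    rw [← hL, div_le_iff₀ hlog] at this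
    linarith
  have huu : u ≤ u ^ 2 := by
    rw [sq]
    exact le_mul_of_one_le_right hu.le (by linarith)
  have hSsq : (S : ℝ) ^ 2 ≤ u ^ 2 := by gcongr
  -- the lower bound of `log S`
  have hS5 : V ≤ (S : ℝ) ^ 5 := by
    have h1 : (u / 2) ^ 4 ≤ (S : ℝ) ^ 4 := by gcongr
    have h2 : V ≤ (S : ℝ) ^ 4 * (32 * Real.pi * W) := by
      calc V = (u / 2) ^ 4 * (32 * Real.pi * ρ) := by rw [← hu4]; ring
        _ ≤ (S : ℝ) ^ 4 * (32 * Real.pi * W) := by gcongr
    calc V ≤ (S : ℝ) ^ 4 * (32 * Real.pi * W) := h2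
      _ ≤ (S : ℝ) ^ 4 * S := by gcongr
      _ = (S : ℝ) ^ 5 := by ring
  have hlog5 : W ≤ 5 * Real.log S := by
    have := Real.log_le_log hV hS5
    rw [Real.log_pow] at this
    rw [hW]
    exact_mod_cast this
  refine ⟨S, L₀, by linarith, ?_, ?_, ?_, ?_, hSsq, hL1⟩
  · calc C₁ * (S : ℝ) ^ 2 ≤ C₁ * u ^ 2 := by gcongr
      _ ≤ ρ * u ^ 2 - Real.log S := by
        have h1 := mul_le_mul_of_nonneg_right hρ1 (sq_nonneg u)
        linarith
      _ ≤ L₀ * Real.log S := hL2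
  · have h1 : (L₀ : ℝ) * W ≤ 5 * (ρ * u ^ 2) := by
      calc (L₀ : ℝ) * W ≤ L₀ * (5 * Real.log S) := by gcongr
        _ = 5 * (L₀ * Real.log S) := by ring
        _ ≤ 5 * (ρ * u ^ 2) := by linarith
    have h2 : 5 * (ρ * u ^ 2) ≤ (c₁ * (u / 2) ^ 2) * W := by
      calc 5 * (ρ * u ^ 2) ≤ 5 * ((c₁ / 20 * W) * u ^ 2) := by gcongr
        _ = (c₁ * (u / 2) ^ 2) * W := by ring
    have h3 : (L₀ : ℝ) ≤ c₁ * (u / 2) ^ 2 := le_of_mul_le_mul_right (h1.trans h2) hW0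
    refine h3.trans ?_
    gcongr
  · -- lower bound for `Vf`
    have hVf : Vf S L₀ = 2 * Real.pi * ((S : ℝ) ^ 2 * (L₀ * Real.log S)) := by
      unfold Vf
      ring
    have hεu : 4 ≤ ε * u := by
      have h1 : 4 ≤ W * ε := by rwa [div_le_iff₀ hε] at hWε
      calc 4 ≤ W * ε := h1
        _ ≤ u * ε := mul_le_mul_of_nonneg_right (by linarith) hε.le
        _ = ε * u := mul_comm _ _
    have hεu2 : 4 * u ≤ ε * u * u := mul_le_mul_of_nonneg_right hεu hu.le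
    have h1 : (1 - ε / 2) * u ^ 2 ≤ (S : ℝ) ^ 2 := by
      have h2 : (u - 1) ^ 2 ≤ (S : ℝ) ^ 2 := by
        apply pow_le_pow_left₀ (by linarith) hS1.le
      linarith
    have h3 : (1 - ε / 2) * (ρ * u ^ 2) ≤ L₀ * Real.log S := by
      refine le_trans ?_ hL2
      have h4 : Real.log S ≤ ε / 2 * (ρ * u ^ 2) := by
        have h5 : u ≤ ε / 2 * u ^ 2 := by linarith
        have h6 : ε / 2 * u ^ 2 ≤ ε / 2 * (ρ * u ^ 2) := by
          have h9 : u ^ 2 ≤ ρ * u ^ 2 := le_mul_of_one_le_left (sq_nonneg u) (by linarith)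
          exact mul_le_mul_of_nonneg_left h9 (by linarith)
        linarith
      linarith
    have h7 : 0 ≤ 1 - ε / 2 := by linarith
    have h8 : ((1 - ε / 2) * u ^ 2) * ((1 - ε / 2) * (ρ * u ^ 2)) ≤
        (S : ℝ) ^ 2 * (L₀ * Real.log S) :=
      mul_le_mul h1 h3 (by positivity) (by positivity)
    rw [hVf, ← hu4]
    calc (1 - ε) * (u ^ 4 * (2 * Real.pi * ρ)) ≤
          (1 - ε / 2) ^ 2 * (u ^ 4 * (2 * Real.pi * ρ)) := by
            apply mul_le_mul_of_nonneg_right _ (by positivity)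
            linarith [sq_nonneg ε]
      _ = 2 * Real.pi * (((1 - ε / 2) * u ^ 2) * ((1 - ε / 2) * (ρ * u ^ 2))) := by ring
      _ ≤ 2 * Real.pi * ((S : ℝ) ^ 2 * (L₀ * Real.log S)) := by gcongr
  · have hVf : Vf S L₀ = 2 * Real.pi * ((S : ℝ) ^ 2 * (L₀ * Real.log S)) := by
      unfold Vf
      ring
    rw [hVf, ← hu4]
    calc 2 * Real.pi * ((S : ℝ) ^ 2 * (L₀ * Real.log S)) ≤
        2 * Real.pi * (u ^ 2 * (ρ * u ^ 2)) := by gcongr
      _ = u ^ 4 * (2 * Real.pi * ρ) := by ring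

end Sel

theorem sel : StmtSel := by
  intro C₁ c₁ ε S₁ hC₁ hc₁ hε hε1
  have hπ := Real.pi_pos
  obtain ⟨V₀, hV₀, hV⟩ := Sel.exV (2 * Real.pi * (64 * Real.pi) ^ 4)
    (max (max 1 (4 / ε)) S₁) (by positivity)
  refine ⟨C₁ + 1, min 1 (c₁ / 20), V₀, by linarith, lt_min one_pos (by positivity), hV₀, ?_⟩
  intro V ρ hVV hρ hρ2
  obtain ⟨h1, h2⟩ := hV V hVV
  have hVpos : 0 < V := by linarith
  have hρ0 : 0 < ρ := by linarith
  have hW1 : 1 ≤ Real.log V := ((le_max_left _ _).trans (le_max_left _ _)).trans h2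
  have hW2 : 4 / ε ≤ Real.log V := ((le_max_right _ _).trans (le_max_left _ _)).trans h2
  have hW3 : (S₁ : ℝ) ≤ Real.log V := (le_max_right _ _).trans h2
  have hW0 : 0 ≤ Real.log V := by linarith
  have hρW : ρ ≤ Real.log V := hρ2.trans (by
    have := mul_le_mul_of_nonneg_right (min_le_left 1 (c₁ / 20)) hW0
    linarith)
  have hρc : ρ ≤ c₁ / 20 * Real.log V := hρ2.trans
    (mul_le_mul_of_nonneg_right (min_le_right 1 (c₁ / 20)) hW0)
  set δ : ℝ := Real.sqrt (V / (2 * Real.pi * ρ)) with hδ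
  have hδ0 : 0 < δ := Real.sqrt_pos.2 (by positivity)
  have hδ2 : δ ^ 2 = V / (2 * Real.pi * ρ) := Real.sq_sqrt (by positivity)
  have hu0 : 0 < Real.sqrt δ := Real.sqrt_pos.2 hδ0
  have hu2 : Real.sqrt δ ^ 2 = δ := Real.sq_sqrt hδ0.le
  have hu4 : Real.sqrt δ ^ 4 * (2 * Real.pi * ρ) = V := by
    have : Real.sqrt δ ^ 4 = (Real.sqrt δ ^ 2) ^ 2 := by ring
    rw [this, hu2, hδ2]
    field_simp
  have hσ : ρ * δ = Real.sqrt (V * ρ / (2 * Real.pi)) := by
    have h3 : V * ρ / (2 * Real.pi) = ρ ^ 2 * (V / (2 * Real.pi * ρ)) := by field_simp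
    rw [h3, Real.sqrt_mul (by positivity), Real.sqrt_sq hρ0.le]
  obtain ⟨S, L₀, a1, a2, a3, a4, a5, a6, a7⟩ := Sel.core C₁ c₁ ε V ρ (Real.log V) (Real.sqrt δ)
    hC₁ hc₁ hε hε1 rfl hVpos hW1 hW2 h1 hρ hρW hρc hu0 hu4
  rw [hu2] at a6 a7
  rw [hσ] at a7
  refine ⟨S, L₀, ?_, a2, a3, a4, a5, ?_, ?_⟩
  · exact_mod_cast hW3.trans a1
  · linarith [mul_nonneg hε.le hδ0.le]
  · linarith [mul_nonneg hε.le (Real.sqrt_nonneg (V * ρ / (2 * Real.pi)))]

end GSL

end

section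

/-!
# MP_327059_nt : Gauss' lemma for the sizes of the factors
-/

open Polynomial

namespace GSL.Super

theorem conj_beta {β : ℂ} (hβ : IQ β) : ∃ t : ℤ, starRingEnd ℂ β = t - β := by
  obtain ⟨t, n, h⟩ := hβ.quad
  refine ⟨t, ?_⟩
  have h1 := congrArg Complex.im h
  simp only [pow_two, Complex.mul_im, Complex.sub_im, Complex.intCast_im, Complex.intCast_re,
    zero_mul, add_zero, sub_zero] at h1
  have h2 : 2 * β.re = t := by
    have h3 : (2 * β.re - t) * β.im = 0 := by linarith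
    rcases mul_eq_zero.1 h3 with h4 | h4
    · linarith
    · exact absurd h4 hβ.im
  apply Complex.ext
  · simp only [Complex.conj_re, Complex.sub_re, Complex.intCast_re]
    linarith
  · simp only [Complex.conj_im, Complex.sub_im, Complex.intCast_im]
    ring

theorem conj_mem {β : ℂ} (hβ : IQ β) {x : ℂ} (hx : x ∈ Ob β) : starRingEnd ℂ x ∈ Ob β := by
  obtain ⟨a, b, rfl⟩ := hx
  obtain ⟨t, ht⟩ := conj_beta hβ
  refine ⟨a + b * t, -b, ?_⟩
  rw [map_add, map_mul, ht]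
  simp only [map_intCast]
  push_cast
  ring

theorem real_int {β : ℂ} (hβ : IQ β) {x : ℂ} (hx : x ∈ Ob β) (hr : starRingEnd ℂ x = x) :
    ∃ a : ℤ, (a : ℂ) = x := by
  obtain ⟨a, b, rfl⟩ := hx
  have h1 : ((a : ℂ) + b * β).im = 0 := Complex.conj_eq_iff_im.1 hr
  simp only [Complex.add_im, Complex.intCast_im, Complex.mul_im, Complex.intCast_re, zero_mul,
    add_zero, zero_add] at h1
  rcases mul_eq_zero.1 h1 with h2 | h2
  · have h3 : b = 0 := by exact_mod_cast h2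
    exact ⟨a, by rw [h3]; simp⟩
  · exact absurd h2 hβ.im

theorem sum_mem {β : ℂ} (hadd : ∀ x ∈ Ob β, ∀ y ∈ Ob β, x + y ∈ Ob β) {ι : Type} (s : Finset ι)
    (f : ι → ℂ) (hf : ∀ i ∈ s, f i ∈ Ob β) : ∑ i ∈ s, f i ∈ Ob β := by
  classical
  induction s using Finset.induction_on with
  | empty => exact ⟨0, 0, by simp⟩
  | insert a s ha ih =>
    rw [Finset.sum_insert ha]
    exact hadd _ (hf a (Finset.mem_insert_self _ _)) _
      (ih fun i hi => hf i (Finset.mem_insert_of_mem hi))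

theorem prim_pow {p : ℤ[X]} (hp : p.IsPrimitive) (n : ℕ) : (p ^ n).IsPrimitive := by
  induction n with
  | zero => rw [pow_zero]; exact isPrimitive_one
  | succ n ih => rw [pow_succ]; exact ih.mul hp

end GSL.Super

namespace GSL

theorem super (hfield : StmtField) : StmtSuper := by
  intro β hβ P hP hP0 s k g hs hfac
  obtain ⟨-, -, hring, -, -, -⟩ := hfield β hβ
  set Pb : ℂ[X] := P.map (starRingEnd ℂ) with hPb
  -- integer polynomial
  have hconj2 : (starRingEnd ℂ).comp (starRingEnd ℂ) = RingHom.id ℂ := by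
    ext x
    simp
  have hmapmap : (P * Pb).map (starRingEnd ℂ) = P * Pb := by
    rw [Polynomial.map_mul, hPb, Polynomial.map_map, hconj2, Polynomial.map_id, mul_comm]
  have hlift : (P * Pb) ∈ Polynomial.lifts (Int.castRingHom ℂ) := by
    rw [Polynomial.lifts_iff_coeff_lifts]
    intro n
    have h1 : (P * Pb).coeff n ∈ Ob β := by
      rw [Polynomial.coeff_mul]
      refine Super.sum_mem (fun x hx y hy => (hring x hx y hy).1) _ _ fun i _ => ?_
      rw [hPb, Polynomial.coeff_map]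
      exact (hring _ (hP _) _ (Super.conj_mem hβ (hP _))).2.1
    have h2 : starRingEnd ℂ ((P * Pb).coeff n) = (P * Pb).coeff n := by
      rw [← Polynomial.coeff_map, hmapmap]
    obtain ⟨a, ha⟩ := Super.real_int hβ h1 h2
    exact ⟨a, by simpa using ha⟩
  obtain ⟨F, hF⟩ := (Polynomial.mem_lifts _).1 hlift
  -- products
  set b : ℤ := ∏ Q ∈ s, (g Q).leadingCoeff ^ k Q with hb
  set G : ℤ[X] := ∏ Q ∈ s, g Q ^ k Q with hG
  set R : ℂ[X] := ∏ Q ∈ s, (toC Q * (toC Q).map (starRingEnd ℂ)) ^ k Q with hR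
  have hGmap : G.map (Int.castRingHom ℂ) = C (b : ℂ) * R := by
    rw [hG, hR, hb, Polynomial.map_prod]
    have h1 : ∀ Q ∈ s, (g Q ^ k Q).map (Int.castRingHom ℂ) =
        C (((g Q).leadingCoeff : ℂ) ^ k Q) * (toC Q * (toC Q).map (starRingEnd ℂ)) ^ k Q := by
      intro Q hQ
      rw [Polynomial.map_pow, (hs Q hQ).2.eq, mul_pow, ← C_pow]
    rw [Finset.prod_congr rfl h1, Finset.prod_mul_distrib]
    congr 1
    push_cast
    rw [map_prod]
  have hPP : P * Pb = C (P.leadingCoeff * starRingEnd ℂ P.leadingCoeff) * R := by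
    have h1 : Pb = C (starRingEnd ℂ P.leadingCoeff) *
        ∏ Q ∈ s, ((toC Q).map (starRingEnd ℂ)) ^ k Q := by
      rw [hPb]
      conv_lhs => rw [hfac]
      rw [Polynomial.map_mul, Polynomial.map_C, Polynomial.map_prod]
      congr 1
      refine Finset.prod_congr rfl fun Q _ => ?_
      rw [Polynomial.map_pow]
    have h2 : P * Pb = (C P.leadingCoeff * ∏ Q ∈ s, toC Q ^ k Q) *
        (C (starRingEnd ℂ P.leadingCoeff) * ∏ Q ∈ s, ((toC Q).map (starRingEnd ℂ)) ^ k Q) := by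
      rw [← hfac, ← h1]
    rw [h2, hR, C_mul]
    simp only [mul_pow, Finset.prod_mul_distrib]
    ring
  set f : ℤ := F.leadingCoeff with hf
  have hinj : Function.Injective (Int.castRingHom ℂ) := Int.cast_injective
  have hPb0 : Pb ≠ 0 := by
    rw [hPb, Ne, Polynomial.map_eq_zero]
    exact hP0
  have hF0 : F ≠ 0 := by
    rintro rfl
    rw [Polynomial.map_zero] at hF
    exact mul_ne_zero hP0 hPb0 hF.symm
  have hfval : (f : ℂ) = P.leadingCoeff * starRingEnd ℂ P.leadingCoeff := by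
    have h1 : (F.map (Int.castRingHom ℂ)).leadingCoeff = (f : ℂ) := by
      rw [Polynomial.leadingCoeff_map_of_injective hinj]
      rfl
    rw [← h1, hF, Polynomial.leadingCoeff_mul, hPb,
      Polynomial.leadingCoeff_map_of_injective (starRingEnd ℂ).injective]
  have hfR : (f : ℝ) = ‖P.leadingCoeff‖ ^ 2 := by
    have h1 : (f : ℂ) = ((‖P.leadingCoeff‖ ^ 2 : ℝ) : ℂ) := by
      rw [hfval, Complex.mul_conj, Complex.normSq_eq_norm_sq]
    have h2 : (((f : ℝ)) : ℂ) = ((‖P.leadingCoeff‖ ^ 2 : ℝ) : ℂ) := by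
      rw [← h1]
      norm_cast
    exact Complex.ofReal_injective h2
  have hlc0 : 0 < ‖P.leadingCoeff‖ := norm_pos_iff.2 (Polynomial.leadingCoeff_ne_zero.2 hP0)
  have hfpos : 0 < f := by
    have : (0 : ℝ) < f := by rw [hfR]; positivity
    exact_mod_cast this
  have hbpos : 0 < b := Finset.prod_pos fun Q hQ => pow_pos (hs Q hQ).2.pos _
  have hkey : C b * F = C f * G := by
    apply Polynomial.map_injective (Int.castRingHom ℂ) hinj
    rw [Polynomial.map_mul, Polynomial.map_mul, Polynomial.map_C, Polynomial.map_C, hF, hGmap,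
      hPP, ← hfval]
    have e1 : (Int.castRingHom ℂ) b = (b : ℂ) := rfl
    have e2 : (Int.castRingHom ℂ) f = (f : ℂ) := rfl
    rw [e1, e2]
    ring
  have hGprim : G.IsPrimitive := by
    rw [hG]
    refine Finset.prod_induction _ (fun p : ℤ[X] => p.IsPrimitive) (fun a c ha hc => ha.mul hc)
      isPrimitive_one fun Q hQ => Super.prim_pow (hs Q hQ).2.prim _
  have hcont : b * F.content = f := by
    have h1 := congrArg Polynomial.content hkey
    rw [Polynomial.content_C_mul, Polynomial.content_C_mul, hGprim.content_eq_one, mul_one,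
      Int.normalize_of_nonneg hbpos.le, Int.normalize_of_nonneg hfpos.le] at h1
    exact h1
  have hble : b ≤ f := by
    have h1 : 0 < F.content := by
      by_contra hcon
      have h2 : b * F.content ≤ 0 := mul_nonpos_of_nonneg_of_nonpos hbpos.le (not_lt.1 hcon)
      rw [hcont] at h2
      exact absurd hfpos (not_lt.2 h2)
    nlinarith
  have hlogb : ∑ Q ∈ s, (k Q : ℝ) * Real.log (g Q).leadingCoeff = Real.log (b : ℝ) := by
    rw [hb]
    push_cast
    rw [Real.log_prod]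
    · refine Finset.sum_congr rfl fun Q _ => ?_
      rw [Real.log_pow]
    · intro Q hQ
      have : (0 : ℝ) < ((g Q).leadingCoeff : ℝ) := by exact_mod_cast (hs Q hQ).2.pos
      positivity
  rw [hlogb]
  have hb0 : (0 : ℝ) < b := by exact_mod_cast hbpos
  calc Real.log (b : ℝ) ≤ Real.log (f : ℝ) := Real.log_le_log hb0 (by exact_mod_cast hble)
    _ = 2 * Real.log ‖P.leadingCoeff‖ := by
        rw [hfR, Real.log_pow]
        norm_num

end GSL

end

section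

/-!
# The upper bound for the energy
-/

open Polynomial Filter Topology

namespace GSL

theorem Up.pair (Y a b : ℂ) (ha : a ≠ Y) (hb : b ≠ Y) (t₀ : ℝ) (ht : 0 ≤ t₀) :
    min (max 0 (cl Y a - t₀)) (max 0 (cl Y b - t₀)) + (if a = b then 0 else Real.log ‖a - b‖) ≤
      (if a = b then max 0 (cl Y a - t₀) else 0) + Real.log 2 + Real.posLog ‖a‖ +
        Real.posLog ‖b‖ := by
  have hl2 : 0 ≤ Real.log 2 := Real.log_nonneg (by norm_num)
  have hpa : 0 ≤ Real.posLog ‖a‖ := Real.posLog_nonneg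
  have hpb : 0 ≤ Real.posLog ‖b‖ := Real.posLog_nonneg
  by_cases hab : a = b
  · subst hab
    rw [if_pos rfl, if_pos rfl, min_self]
    linarith
  · rw [if_neg hab, if_neg hab]
    have hpos : 0 < ‖a - b‖ := norm_pos_iff.2 (sub_ne_zero.2 hab)
    by_cases hm : 0 < min (max 0 (cl Y a - t₀)) (max 0 (cl Y b - t₀))
    · set m := min (max 0 (cl Y a - t₀)) (max 0 (cl Y b - t₀)) with hmdef
      have key : ∀ x : ℂ, x ≠ Y → m ≤ max 0 (cl Y x - t₀) → ‖x - Y‖ ≤ Real.exp (-m) := by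
        intro x hx hmx
        have h1 : m ≤ cl Y x - t₀ := by
          rcases le_max_iff.1 hmx with h | h
          · linarith
          · exact h
        have h2 : 0 < cl Y x := by linarith
        have h3 : cl Y x = -Real.log ‖x - Y‖ := by
          unfold cl at h2 ⊢
          rcases le_total 0 (-Real.log ‖x - Y‖) with h | h
          · exact max_eq_right h
          · rw [max_eq_left h] at h2
            exact absurd h2 (lt_irrefl 0)
        have h4 : Real.log ‖x - Y‖ ≤ -m := by linarith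
        exact (Real.log_le_iff_le_exp (norm_pos_iff.2 (sub_ne_zero.2 hx))).1 h4
      have h1 := key a ha (min_le_left _ _)
      have h2 := key b hb (min_le_right _ _)
      have h3 : ‖a - b‖ ≤ 2 * Real.exp (-m) := by
        have h4 : a - b = (a - Y) - (b - Y) := by ring
        rw [h4]
        refine (norm_sub_le _ _).trans ?_
        linarith
      have h5 : Real.log ‖a - b‖ ≤ Real.log 2 + -m := by
        have h6 := Real.log_le_log hpos h3
        rwa [Real.log_mul (by norm_num) (Real.exp_pos _).ne', Real.log_exp] at h6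
      linarith
    · push Not at hm
      have h1 : ‖a - b‖ ≤ 2 * (max 1 ‖a‖ * max 1 ‖b‖) := by
        have ha1 : (1 : ℝ) ≤ max 1 ‖a‖ := le_max_left _ _
        have hb1 : (1 : ℝ) ≤ max 1 ‖b‖ := le_max_left _ _
        have ha2 : ‖a‖ ≤ max 1 ‖a‖ := le_max_right _ _
        have hb2 : ‖b‖ ≤ max 1 ‖b‖ := le_max_right _ _
        have h2 : ‖a - b‖ ≤ ‖a‖ + ‖b‖ := norm_sub_le _ _
        nlinarith
      have h2 := Real.log_le_log hpos h1
      have hma : (0 : ℝ) < max 1 ‖a‖ := lt_of_lt_of_le one_pos (le_max_left _ _)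
      have hmb : (0 : ℝ) < max 1 ‖b‖ := lt_of_lt_of_le one_pos (le_max_left _ _)
      rw [Real.log_mul (by norm_num) (mul_pos hma hmb).ne', Real.log_mul hma.ne' hmb.ne',
        ← Real.posLog_eq_log_max_one (norm_nonneg a),
        ← Real.posLog_eq_log_max_one (norm_nonneg b)] at h2
      linarith

theorem up (h : StmtDisc) : StmtUp := by
  intro β hβ Y P hP hP0 N x hx hY t₀ ht
  have h1 := h β hβ P hP hP0 N x hx
  have h2 : ∑ r, ∑ s, (min (max 0 (cl Y (x r) - t₀)) (max 0 (cl Y (x s) - t₀)) +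
      (if x r = x s then 0 else Real.log ‖x r - x s‖)) ≤
      ∑ r, ∑ s, ((if x r = x s then max 0 (cl Y (x r) - t₀) else 0) + Real.log 2 +
        Real.posLog ‖x r‖ + Real.posLog ‖x s‖) :=
    Finset.sum_le_sum fun r _ => Finset.sum_le_sum fun s _ =>
      Up.pair Y (x r) (x s) (hY r) (hY s) t₀ ht
  simp only [Finset.sum_add_distrib, Finset.sum_const, Finset.card_univ, Fintype.card_fin,
    nsmul_eq_mul, ← Finset.mul_sum] at h2
  nlinarith [h1, h2]

end GSL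

end

section

/-!
# MP_327059_nt, item Upper: the upper bound for the energy
-/

open Polynomial

namespace GSL

namespace Upper

lemma ht_nonneg {β : ℂ} (Q : (Fb β)[X]) (g : ℤ[X]) (hg : 0 < g.leadingCoeff) : 0 ≤ ht Q g := by
  unfold ht
  have h1 : (1 : ℝ) ≤ (g.leadingCoeff : ℝ) := by exact_mod_cast hg
  have h2 := Real.log_nonneg h1
  have h3 : 0 ≤ ((toC Q).roots.map fun x => Real.posLog ‖x‖).sum := by
    refine Multiset.sum_nonneg fun y hy => ?_
    obtain ⟨x, _, rfl⟩ := Multiset.mem_map.1 hy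
    exact Real.posLog_nonneg
  linarith

lemma exists_max (m : Multiset ℂ) (hm : m ≠ 0) (f : ℂ → ℝ) : ∃ x ∈ m, ∀ y ∈ m, f y ≤ f x := by
  classical
  obtain ⟨x, hx, hmax⟩ := Finset.exists_max_image m.toFinset f (by
    obtain ⟨a, ha⟩ := Multiset.exists_mem_of_ne_zero hm
    exact ⟨a, Multiset.mem_toFinset.2 ha⟩)
  exact ⟨x, Multiset.mem_toFinset.1 hx, fun y hy => hmax y (Multiset.mem_toFinset.2 hy)⟩

lemma sum_mul_le {ι : Type*} (s : Finset ι) (a b : ι → ℝ) (ha : ∀ i ∈ s, 0 ≤ a i)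
    (hb : ∀ i ∈ s, 0 ≤ b i) : ∑ i ∈ s, a i * b i ≤ (∑ i ∈ s, a i) * ∑ i ∈ s, b i := by
  rw [Finset.sum_mul]
  refine Finset.sum_le_sum fun i hi => ?_
  exact mul_le_mul_of_nonneg_left (Finset.single_le_sum (f := b) hb hi) (ha i hi)

end Upper

open Upper in
/-- Item Upper. -/
theorem upper (hNG : StmtNG) (hFac : StmtFactor) (hSup : StmtSuper) (hUp : StmtUp)
    (hCl : StmtClose) : StmtUpper := by
  intro β Y hβ hI ε hε hε1
  obtain ⟨ρm, cp, U₀, hρm, hcp, hU₀, hclose⟩ := hCl β Y hβ hI ε hε hε1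
  refine ⟨ρm, cp, U₀, hρm, hcp, hU₀, ?_⟩
  intro P hPO hP0 N x hPx hxY t₀ ht₀ ρp hρ1 hρ2 H hH
  have ht0 : 0 ≤ t₀ := by linarith
  have hρp : 0 < ρp := lt_of_lt_of_le hρm hρ1
  have hpi := Real.pi_pos
  obtain ⟨s, k, hs1, hs2, hs3, -, -, hs6⟩ := hFac β hβ P hPO hP0 N x hPx
  classical
  have hg : ∀ Q : (Fb β)[X], ∃ g : ℤ[X], Q.Monic → IsNG Q g := by
    intro Q
    by_cases h : Q.Monic
    · obtain ⟨g, hg⟩ := hNG β hβ Q h
      exact ⟨g, fun _ => hg⟩
    · exact ⟨0, fun h' => absurd h' h⟩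
  choose g hg using hg
  have hgs : ∀ Q ∈ s, IsNG Q (g Q) := fun Q hQ => hg Q (hs1 Q hQ).1
  set h : (Fb β)[X] → ℝ := fun Q => ht Q (g Q) with hh
  have hh0 : ∀ Q ∈ s, 0 ≤ h Q := fun Q hQ => ht_nonneg Q (g Q) (hgs Q hQ).pos
  set C₀ : ℝ := (1 + ε) * (8 / Real.pi) with hC₀
  have hC₀0 : 0 < C₀ := by positivity
  set u : ℂ → ℝ := fun y => max 0 (cl Y y - t₀) with hu
  have hcl0 : ∀ y, 0 ≤ cl Y y := fun y => le_max_left _ _
  have hucl : ∀ y, u y ≤ cl Y y := fun y => max_le (hcl0 y) (by linarith)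
  -- one factor
  have key : ∀ Q ∈ s, ((toC Q).roots.map u).sum ≤
      C₀ * ((Q.natDegree : ℝ) * h Q + h Q ^ 2 / ρp + (Q.natDegree : ℝ) ^ 2 * ρm) := by
    intro Q hQ
    have hR : 0 ≤ C₀ * ((Q.natDegree : ℝ) * h Q + h Q ^ 2 / ρp +
        (Q.natDegree : ℝ) ^ 2 * ρm) := by
      have := hh0 Q hQ
      positivity
    have hne : (toC Q).roots ≠ 0 := by
      intro h0
      have := hs3 Q hQ
      rw [h0] at this
      simp only [Multiset.card_zero] at this
      omega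
    obtain ⟨x₁, hx₁, hmax⟩ := exists_max _ hne (cl Y)
    rcases lt_or_ge (cl Y x₁) t₀ with hlt | hge
    · have : ((toC Q).roots.map u).sum = 0 := by
        refine Multiset.sum_eq_zero fun y hy => ?_
        obtain ⟨z, hz, rfl⟩ := Multiset.mem_map.1 hy
        have := hmax z hz
        exact max_eq_left (by linarith)
      rw [this]; exact hR
    · have h1 := hclose Q (hs1 Q hQ).1 (hs1 Q hQ).2.1 (g Q) (hgs Q hQ) x₁ hx₁ hmax
        (ht₀.trans hge) ρp hρ1 (hρ2.trans (mul_le_mul_of_nonneg_left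
          (Real.log_le_log (by linarith) hge) hcp.le))
      refine le_trans ?_ h1
      unfold wQ
      exact Multiset.sum_map_le_sum_map u (cl Y) fun y _ => hucl y
  -- the diagonal terms
  have hdiag : ∑ r, ∑ s', (if x r = x s' then max 0 (cl Y (x r) - t₀) else 0) ≤
      C₀ * (N * H + H ^ 2 / ρp + (N : ℝ) ^ 2 * ρm) := by
    have e1 := (hs6 u).2
    have e2 : ∑ r, ∑ s', (if x r = x s' then max 0 (cl Y (x r) - t₀) else 0) =
        ∑ Q ∈ s, (k Q : ℝ) ^ 2 * ((toC Q).roots.map u).sum := e1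
    rw [e2]
    set a : (Fb β)[X] → ℝ := fun Q => (k Q : ℝ) * (Q.natDegree : ℝ) with ha
    set b : (Fb β)[X] → ℝ := fun Q => (k Q : ℝ) * h Q with hb
    have ha0 : ∀ Q ∈ s, 0 ≤ a Q := fun Q _ => by rw [ha]; positivity
    have hb0 : ∀ Q ∈ s, 0 ≤ b Q := fun Q hQ => mul_nonneg (Nat.cast_nonneg _) (hh0 Q hQ)
    have e3 : ∑ Q ∈ s, (k Q : ℝ) ^ 2 * ((toC Q).roots.map u).sum ≤
        C₀ * (∑ Q ∈ s, a Q * b Q + (∑ Q ∈ s, b Q * b Q) / ρp + (∑ Q ∈ s, a Q * a Q) * ρm) := by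
      rw [mul_add, mul_add, Finset.mul_sum, Finset.sum_div, Finset.mul_sum, Finset.sum_mul,
        Finset.mul_sum, ← Finset.sum_add_distrib, ← Finset.sum_add_distrib]
      refine Finset.sum_le_sum fun Q hQ => ?_
      refine (mul_le_mul_of_nonneg_left (key Q hQ) (sq_nonneg _)).trans (le_of_eq ?_)
      rw [ha, hb]
      ring
    have hsa : ∑ Q ∈ s, a Q = N := by
      have := (hs6 (fun _ => 1)).1
      simp only [Finset.sum_const, Finset.card_univ, Fintype.card_fin, nsmul_eq_mul, mul_one,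
        Multiset.map_const', Multiset.sum_replicate] at this
      rw [this]
      refine Finset.sum_congr rfl fun Q hQ => ?_
      rw [ha, (hs3 Q hQ).1]
    have hsb : ∑ Q ∈ s, b Q ≤ H := by
      have e4 := (hs6 (fun y => Real.posLog ‖y‖)).1
      have e5 := hSup β hβ P hPO hP0 s k g (fun Q hQ => ⟨(hs1 Q hQ).1, hgs Q hQ⟩) hs2
      have e6 : ∑ Q ∈ s, b Q = 1 / 2 * ∑ Q ∈ s, (k Q : ℝ) * Real.log (g Q).leadingCoeff +
          ∑ Q ∈ s, (k Q : ℝ) * ((toC Q).roots.map (fun y => Real.posLog ‖y‖)).sum := by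
        rw [Finset.mul_sum, ← Finset.sum_add_distrib]
        refine Finset.sum_congr rfl fun Q _ => ?_
        rw [hb, hh]
        simp only [ht]
        ring
      rw [e6, ← e4]
      linarith
    have hsb0 : 0 ≤ ∑ Q ∈ s, b Q := Finset.sum_nonneg hb0
    refine e3.trans (mul_le_mul_of_nonneg_left ?_ hC₀0.le)
    have f1 : ∑ Q ∈ s, a Q * b Q ≤ N * H := by
      refine (sum_mul_le s a b ha0 hb0).trans ?_
      rw [hsa]
      exact mul_le_mul_of_nonneg_left hsb (Nat.cast_nonneg _)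
    have f2 : ∑ Q ∈ s, b Q * b Q ≤ H ^ 2 := by
      refine (sum_mul_le s b b hb0 hb0).trans ?_
      rw [← sq]
      exact pow_le_pow_left₀ hsb0 hsb 2
    have f3 : ∑ Q ∈ s, a Q * a Q ≤ (N : ℝ) ^ 2 := by
      refine (sum_mul_le s a a ha0 ha0).trans ?_
      rw [hsa, ← sq]
    have f4 : (∑ Q ∈ s, b Q * b Q) / ρp ≤ H ^ 2 / ρp := div_le_div_of_nonneg_right f2 hρp.le
    have f5 := mul_le_mul_of_nonneg_right f3 hρm.le
    linarith
  have hmain := hUp β hβ Y P hPO hP0 N x hPx hxY t₀ ht0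
  have h2 : 2 * N * (Real.log ‖P.leadingCoeff‖ + ∑ r, Real.posLog ‖x r‖) ≤ 2 * N * H :=
    mul_le_mul_of_nonneg_left hH (by positivity)
  linarith

end GSL

end

section

/-!
# MP_327059_nt : the Liouville inequality for a conjugacy class over `ℚ(β)`
-/

open Polynomial

namespace GSL

namespace Liou

theorem isIntegral_conj' {x : ℂ} (hx : IsIntegral ℤ x) : IsIntegral ℤ (starRingEnd ℂ x) := by
  have := hx.map ((starRingEnd ℂ).toIntAlgHom)
  simpa using this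

/-- Lift to the ring of algebraic integers. -/
theorem lift_int {D : ℂ[X]} (hD : ∀ i, IsIntegral ℤ (D.coeff i)) :
    ∃ D0 : (integralClosure ℤ ℂ)[X], D0.map (algebraMap (integralClosure ℤ ℂ) ℂ) = D := by
  have h1 : D ∈ Polynomial.lifts (algebraMap (integralClosure ℤ ℂ) ℂ) := by
    rw [Polynomial.lifts_iff_coeff_lifts]
    intro n
    exact ⟨⟨D.coeff n, hD n⟩, rfl⟩
  exact (Polynomial.mem_lifts D).1 h1

/-- `D (X_i)` -/
noncomputable def sub {R ι : Type} [CommRing R] (D : R[X]) (i : ι) : MvPolynomial ι R :=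
  aeval (MvPolynomial.X i) D

theorem sub_map {R S ι : Type} [CommRing R] [CommRing S] (f : R →+* S) (D : R[X]) (i : ι) :
    MvPolynomial.map f (sub D i) = sub (D.map f) i := by
  unfold sub
  rw [aeval_def, aeval_def, eval₂_map, hom_eval₂, MvPolynomial.map_X]
  congr 1
  ext x
  simp

theorem sub_eval {ι : Type} (D : ℂ[X]) (i : ι) (x : ι → ℂ) :
    MvPolynomial.eval x (sub D i) = D.eval (x i) := by
  unfold sub
  rw [aeval_def, hom_eval₂, MvPolynomial.eval_X, ← eval₂_id]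
  congr 1
  ext z
  simp

theorem sub_degreeOf {ι : Type} [DecidableEq ι] (D : ℂ[X]) (i k : ι) :
    (sub D i).degreeOf k ≤ if k = i then D.natDegree else 0 := by
  unfold sub
  rw [aeval_eq_sum_range]
  refine (MvPolynomial.degreeOf_sum_le _ _ _).trans ?_
  refine Finset.sup_le fun j hj => ?_
  have hj' : j ≤ D.natDegree := Nat.lt_succ_iff.mp (Finset.mem_range.mp hj)
  rw [MvPolynomial.smul_eq_C_mul]
  refine (MvPolynomial.degreeOf_C_mul_le _ _ _).trans ?_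
  refine (MvPolynomial.degreeOf_pow_le _ _ _).trans ?_
  rw [MvPolynomial.degreeOf_X]
  by_cases h : k = i
  · rw [if_pos h, if_pos h]
    omega
  · rw [if_neg h, if_neg h]
    omega

/-- the auxiliary polynomial -/
noncomputable def auxG {R : Type} [CommRing R] (n : ℕ) (D D' : R[X]) : MvPolynomial (Fin n ⊕ Fin n) R :=
  (∏ i, sub D (Sum.inl i)) * ∏ i, sub D' (Sum.inr i)

theorem auxG_integral (n : ℕ) {D D' : ℂ[X]} (hD : ∀ i, IsIntegral ℤ (D.coeff i))
    (hD' : ∀ i, IsIntegral ℤ (D'.coeff i)) (e : (Fin n ⊕ Fin n) →₀ ℕ) :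
    IsIntegral ℤ ((auxG n D D').coeff e) := by
  obtain ⟨A, hA⟩ := lift_int hD
  obtain ⟨B, hB⟩ := lift_int hD'
  have h1 : MvPolynomial.map (algebraMap (integralClosure ℤ ℂ) ℂ) (auxG n A B) = auxG n D D' := by
    unfold auxG
    rw [map_mul, map_prod, map_prod]
    simp_rw [sub_map, hA, hB]
  rw [← h1, MvPolynomial.coeff_map]
  exact ((auxG n A B).coeff e).2

theorem auxG_degreeOf (n : ℕ) {D D' : ℂ[X]} (hn : D'.natDegree = D.natDegree)
    (k : Fin n ⊕ Fin n) : (auxG n D D').degreeOf k ≤ D.natDegree := by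
  classical
  unfold auxG
  refine (MvPolynomial.degreeOf_mul_le _ _ _).trans ?_
  have h1 : MvPolynomial.degreeOf k (∏ i : Fin n, sub D (Sum.inl i : Fin n ⊕ Fin n)) ≤
      ∑ i : Fin n, (if k = Sum.inl i then D.natDegree else 0) :=
    (MvPolynomial.degreeOf_prod_le _ _ _).trans (Finset.sum_le_sum fun i _ => sub_degreeOf D _ k)
  have h2 : MvPolynomial.degreeOf k (∏ i : Fin n, sub D' (Sum.inr i : Fin n ⊕ Fin n)) ≤
      ∑ i : Fin n, (if k = Sum.inr i then D.natDegree else 0) :=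
    (MvPolynomial.degreeOf_prod_le _ _ _).trans (Finset.sum_le_sum fun i _ => by
      rw [← hn]; exact sub_degreeOf D' _ k)
  refine (Nat.add_le_add h1 h2).trans ?_
  rcases k with k | k
  · simp
  · simp

theorem auxG_eval (n : ℕ) (D D' : ℂ[X]) (z : Fin n ⊕ Fin n → ℂ) :
    MvPolynomial.eval z (auxG n D D') = (∏ i, D.eval (z (Sum.inl i))) *
      ∏ i, D'.eval (z (Sum.inr i)) := by
  unfold auxG
  rw [map_mul, map_prod, map_prod]
  simp_rw [sub_eval]

/-- The product of the values at the roots lies in the base field. -/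
theorem prod_mem {K : Type*} [Field K] [CharZero K] [Algebra K ℂ] (Q D : K[X]) :
    ((Q.map (algebraMap K ℂ)).roots.map fun y => aeval y D).prod ∈
      Set.range (algebraMap K ℂ) := by
  set θ : Disc.EE Q := ((Q.map (algebraMap K (Disc.EE Q))).roots.map fun y => aeval y D).prod
    with hθ
  have h1 : ((θ : Disc.EE Q) : ℂ) =
      ((Q.map (algebraMap K ℂ)).roots.map fun y => aeval y D).prod := by
    rw [← Disc.roots_E Q, Multiset.map_map]
    have h2 : ((θ : Disc.EE Q) : ℂ) = (Disc.EE Q).val θ := rfl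
    rw [h2, hθ, map_multiset_prod, Multiset.map_map]
    congr 1
    refine Multiset.map_congr rfl fun y _ => ?_
    simp only [Function.comp_apply]
    exact (aeval_algHom_apply (Disc.EE Q).val y D).symm
  rw [← h1]
  refine Disc.gal_mem Q _ fun σ => ?_
  conv_rhs => rw [hθ, ← Disc.roots_perm Q σ]
  rw [hθ, map_multiset_prod, Multiset.map_map, Multiset.map_map]
  congr 1
  refine Multiset.map_congr rfl fun y _ => ?_
  simp only [Function.comp_apply]
  exact (aeval_algHom_apply (σ : Disc.EE Q →ₐ[K] Disc.EE Q) y D).symm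

theorem conj_eval (D : ℂ[X]) (x : ℂ) :
    (D.map (starRingEnd ℂ)).eval (starRingEnd ℂ x) = starRingEnd ℂ (D.eval x) := by
  rw [eval_map, eval₂_at_apply]

/-- Enumeration of a multiset. -/
theorem exists_enum (M : Multiset ℂ) : ∃ (n : ℕ) (x : Fin n → ℂ), M = Finset.univ.val.map x := by
  refine ⟨M.toList.length, M.toList.get, ?_⟩
  rw [Fin.univ_val_map, List.ofFn_get, Multiset.coe_toList]

end Liou

theorem liou (hDed : StmtDed) (hField : StmtField) : StmtLiou := by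
  intro β h Q hQm hQi g hg D hD hex
  obtain ⟨h1, h2, -, h4, h5, -⟩ := hField β h
  obtain ⟨D', hD'⟩ := Disc.lift_K hField h hD
  have hDev : ∀ y : ℂ, D.eval y = aeval y D' := by
    intro y
    rw [← hD', eval_map, aeval_def]
  have hmem : ∀ y, y ∈ (toC Q).roots ↔ aeval y Q = 0 := by
    intro y
    have hQ0 : toC Q ≠ 0 := (hQm.map (algebraMap (Fb β) ℂ)).ne_zero
    rw [mem_roots hQ0, IsRoot, toC, eval_map, aeval_def]
  have hall : ∀ x ∈ (toC Q).roots, D.eval x ≠ 0 := by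
    intro x hx h0
    obtain ⟨x1, hx1, hne⟩ := hex
    apply hne
    have hmin : Q = minpoly (Fb β) x :=
      minpoly.eq_of_irreducible_of_monic hQi ((hmem x).mp hx) hQm
    have hdvd : Q ∣ D' := by
      rw [hmin]
      apply minpoly.dvd
      rw [← hDev]
      exact h0
    obtain ⟨R, hR⟩ := hdvd
    rw [hDev, hR, map_mul, (hmem x1).mp hx1, zero_mul]
  refine ⟨hall, ?_⟩
  obtain ⟨n, x, hx⟩ := Liou.exists_enum (toC Q).roots
  have hQC : toC Q = ∏ i, (X - C (x i)) := by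
    have := (IsAlgClosed.splits (toC Q)).eq_prod_roots_of_monic (hQm.map _)
    rw [this, hx, Multiset.map_map]
    rfl
  have hQCc : (toC Q).map (starRingEnd ℂ) = ∏ i, (X - C (starRingEnd ℂ (x i))) := by
    rw [hQC, Polynomial.map_prod]
    refine Finset.prod_congr rfl fun i _ => ?_
    rw [Polynomial.map_sub, Polynomial.map_X, Polynomial.map_C]
  set P : ℂ[X] := g.map (Int.castRingHom ℂ) with hP
  have hinj : Function.Injective (Int.castRingHom ℂ) := Int.cast_injective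
  have hPl : P.leadingCoeff = (g.leadingCoeff : ℂ) := by
    rw [hP, leadingCoeff_map_of_injective hinj]
    rfl
  have hb : (0 : ℝ) < g.leadingCoeff := by exact_mod_cast hg.pos
  have hbC : (g.leadingCoeff : ℂ) ≠ 0 := by exact_mod_cast hg.pos.ne'
  have hP0 : P ≠ 0 := by
    rw [← leadingCoeff_ne_zero, hPl]
    exact hbC
  set z : Fin n ⊕ Fin n → ℂ := Sum.elim x (fun i => starRingEnd ℂ (x i)) with hz
  have hPz : P = C P.leadingCoeff * ∏ r, (X - C (z r)) := by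
    rw [hPl, hP, hg.eq, hQCc, hQC, Fintype.prod_sum_type]
    rfl
  have hPint : ∀ i, IsIntegral ℤ (P.coeff i) := by
    intro i
    rw [hP, coeff_map]
    exact isIntegral_algebraMap (R := ℤ) (A := ℂ)
  have hDint : ∀ i, IsIntegral ℤ (D.coeff i) := fun i => (h2 _ (hD i)).1
  have hDint' : ∀ i, IsIntegral ℤ ((D.map (starRingEnd ℂ)).coeff i) := by
    intro i
    rw [coeff_map]
    exact Liou.isIntegral_conj' (hDint i)
  have hnd : (D.map (starRingEnd ℂ)).natDegree = D.natDegree := natDegree_map _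
  have hI := hDed P hPint hP0 (Fin n ⊕ Fin n) z hPz D.natDegree
    (Liou.auxG n D (D.map (starRingEnd ℂ))) (Liou.auxG_integral n hDint hDint')
    (Liou.auxG_degreeOf n hnd)
  set θ : ℂ := ∏ i, D.eval (x i) with hθ
  have hev : MvPolynomial.eval z (Liou.auxG n D (D.map (starRingEnd ℂ))) = θ * starRingEnd ℂ θ := by
    rw [Liou.auxG_eval, hθ, map_prod]
    congr 1
    refine Finset.prod_congr rfl fun i _ => ?_
    exact Liou.conj_eval D (x i)
  rw [hev, hPl] at hI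
  have hθK : θ ∈ Kb β := by
    have h6 := Liou.prod_mem Q D'
    have h7 : ((Q.map (algebraMap (Fb β) ℂ)).roots.map fun y => aeval y D').prod = θ := by
      have h8 : (Q.map (algebraMap (Fb β) ℂ)).roots = Finset.univ.val.map x := hx
      rw [h8, Multiset.map_map, hθ]
      simp only [Finset.prod]
      congr 1
      refine Multiset.map_congr rfl fun i _ => ?_
      simp only [Function.comp_apply]
      exact (hDev (x i)).symm
    rw [h7] at h6
    obtain ⟨k, hk⟩ := h6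
    rw [← h1, ← hk]
    exact k.2
  have hθ0 : θ ≠ 0 := by
    refine Finset.prod_ne_zero_iff.mpr fun i _ => ?_
    apply hall
    rw [hx]
    exact Multiset.mem_map_of_mem _ (Finset.mem_univ i)
  have hcθ0 : starRingEnd ℂ θ ≠ 0 := fun h0 => hθ0 ((map_eq_zero _).mp h0)
  have hyK : (g.leadingCoeff : ℂ) ^ D.natDegree * (θ * starRingEnd ℂ θ) ∈ Kb β := by
    have hb' : (g.leadingCoeff : ℂ) ∈ Kb β := ⟨g.leadingCoeff, 0, by simp⟩
    have hc' := h4 θ hθK
    rw [← h1] at hb' hθK hc' ⊢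
    exact (Fb β).mul_mem (_root_.pow_mem hb' _) ((Fb β).mul_mem hθK hc')
  have hy0 : (g.leadingCoeff : ℂ) ^ D.natDegree * (θ * starRingEnd ℂ θ) ≠ 0 :=
    mul_ne_zero (pow_ne_zero _ hbC) (mul_ne_zero hθ0 hcθ0)
  have h9 := Real.log_nonneg (h5 _ hyK hI hy0)
  have hnb : ‖(g.leadingCoeff : ℂ)‖ = (g.leadingCoeff : ℝ) := by
    rw [Complex.norm_intCast, abs_of_pos hb]
  have hθn : 0 < ‖θ‖ := norm_pos_iff.mpr hθ0
  rw [norm_mul, norm_pow, norm_mul, Complex.norm_conj, hnb, Real.log_mul (by positivity)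
    (by positivity), Real.log_pow, Real.log_mul hθn.ne' hθn.ne'] at h9
  have h10 : Real.log ‖θ‖ = ((toC Q).roots.map fun x => Real.log ‖D.eval x‖).sum := by
    rw [hx, Multiset.map_map, hθ, norm_prod, Real.log_prod]
    · rfl
    · intro i _
      apply norm_ne_zero_iff.mpr
      apply hall
      rw [hx]
      exact Multiset.mem_map_of_mem _ (Finset.mem_univ i)
  rw [← h10]
  linarith

end GSL

end

section

open Polynomial

namespace GSL

theorem main_of (hAlg : StmtAlg) (hI : StmtIface) (hFin : StmtFinal) : StmtMain := by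
  intro β l hβ hl hexp hmem
  obtain ⟨D, hD1, hD2⟩ := hAlg β l hβ hl hexp hmem
  have := hI D
  rw [hD1] at this
  exact hFin β D.Y hβ this

end GSL

end

section

/-!
# MP_327059_nt : asymptotics for the non vanishing statement (`StmtNV`)
-/

open Polynomial Filter Topology

namespace GSL

namespace NV

/-! ### Asymptotics -/

theorem ev_card (hC : StmtCount) {θ : ℝ} (hθ : 0 < θ) : ∀ᶠ S : ℕ in atTop,
    (1 - θ) * Real.pi * S ^ 2 ≤ ((circ S).card : ℝ) ∧
      ((circ S).card : ℝ) ≤ (1 + θ) * Real.pi * S ^ 2 := by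
  have hpi := Real.pi_pos
  have h1 : Set.Ioo ((1 - θ) * Real.pi) ((1 + θ) * Real.pi) ∈ 𝓝 Real.pi := by
    apply Ioo_mem_nhds <;> nlinarith
  filter_upwards [hC.1 h1, eventually_ge_atTop 1] with S hS hS1
  have hS0 : (0 : ℝ) < (S : ℝ) ^ 2 := by
    have : (1 : ℝ) ≤ S := by exact_mod_cast hS1
    positivity
  constructor
  · exact ((lt_div_iff₀ hS0).1 hS.1).le
  · exact ((div_lt_iff₀ hS0).1 hS.2).le

/-- All numerical facts which hold for large `S`. -/
structure Big (θ C K : ℝ) (S : ℕ) : Prop where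
  lo : (1 - θ) * Real.pi * S ^ 2 ≤ ((circ S).card : ℝ)
  hi : ((circ S).card : ℝ) ≤ (1 + θ) * Real.pi * S ^ 2
  one : 1 ≤ S
  hS : 2 * C ^ 2 ≤ S
  hS3 : 3 / θ ≤ S
  hlog : 2 * K / θ ≤ Real.log S
  hpow : C / θ ≤ (S : ℝ) ^ θ

theorem ev_big (hC : StmtCount) {θ : ℝ} (hθ : 0 < θ) (C K : ℝ) :
    ∃ S₁ : ℕ, ∀ S, S₁ ≤ S → Big θ C K S := by
  rw [← eventually_atTop (p := fun S => Big θ C K S)]
  have hn : Tendsto (fun S : ℕ => (S : ℝ)) atTop atTop := tendsto_natCast_atTop_atTop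
  filter_upwards [ev_card hC hθ, eventually_ge_atTop 1, hn.eventually_ge_atTop (2 * C ^ 2),
    hn.eventually_ge_atTop (3 / θ),
    (Real.tendsto_log_atTop.comp hn).eventually_ge_atTop (2 * K / θ),
    ((tendsto_rpow_atTop hθ).comp hn).eventually_ge_atTop (C / θ)] with S h1 h2 h3 h4 h5 h6
  exact ⟨h1.1, h1.2, h2, h3, h4, h5, h6⟩

/-- Elementary consequences, first group. -/
structure Facts (θ C K : ℝ) (S L₀ T : ℕ) (Λ V A L : ℝ) : Prop where
  S1 : (1 : ℝ) ≤ S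
  Λ1 : 1 ≤ Λ
  LS : (S : ℝ) ≤ L₀
  V0 : 0 < V
  V4 : (S : ℝ) ^ 4 ≤ V
  V3 : 3 * (L₀ * Λ) ≤ θ * V
  AS : (S : ℝ) ^ 2 ≤ A
  A2 : A ≤ 2 * Real.pi * S ^ 2
  L1 : 1 ≤ L
  L3 : (S : ℝ) ^ 3 ≤ L
  LV1 : 2 * L * Λ ≤ (1 + θ) * V
  LV2 : (1 - θ) * V ≤ 2 * L * Λ
  KL : 2 * K * L ≤ θ * V
  V2 : 2 ≤ θ * V
  e2 : 2 ≤ Real.exp (θ * V)
  Le : L ≤ Real.exp (θ * V)
  T1 : 1 ≤ T

theorem facts {θ ε C K : ℝ} {S L₀ T : ℕ} {Λ V A L : ℝ} (hθ : 0 < θ) (hθ1 : θ ≤ 1 / 100)
    (hε : 0 < ε) (hB : Big θ C K S) (hK1 : 1 ≤ K) (hΛdef : Λ = Real.log S)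
    (hVdef : V = Vf S L₀) (hAdef : A = ((circ S).card : ℝ)) (hLdef : L = L₀ * A)
    (hLo : (S : ℝ) ^ 2 ≤ L₀ * Λ) (hT1 : (1 + ε / 2) * L₀ ≤ (T : ℝ)) :
    Facts θ C K S L₀ T Λ V A L := by
  obtain ⟨hlo, hhi, hone, hS2, hS3, hlog, hpow⟩ := hB
  have hpi := Real.pi_gt_three
  have hpi4 := Real.pi_le_four
  have hS1 : (1 : ℝ) ≤ S := by exact_mod_cast hone
  have hS0 : (0 : ℝ) < S := by linarith
  rw [← hΛdef] at hlog
  have hΛK : 2 * K ≤ θ * Λ := by
    rw [div_le_iff₀ hθ] at hlog; linarith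
  have hΛ1 : 1 ≤ Λ := by
    by_contra h
    have h1 : θ * Λ ≤ θ * 1 := mul_le_mul_of_nonneg_left (not_le.1 h).le hθ.le
    linarith
  have hΛ0 : 0 < Λ := by linarith
  have hΛS : Λ ≤ S := by rw [hΛdef]; exact Real.log_le_self hS0.le
  have hLS : (S : ℝ) ≤ L₀ := by
    have h1 : (L₀ : ℝ) * Λ ≤ L₀ * S := mul_le_mul_of_nonneg_left hΛS (Nat.cast_nonneg _)
    have h2 : (S : ℝ) * S ≤ L₀ * S := by rw [← sq]; linarith
    exact le_of_mul_le_mul_right h2 hS0
  have hL0 : (0 : ℝ) < L₀ := by linarith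
  have hVeq : V = 2 * Real.pi * S ^ 2 * L₀ * Λ := by rw [hVdef, hΛdef]; rfl
  have hV0 : 0 < V := by rw [hVeq]; positivity
  have hVge : (S : ℝ) ^ 2 * (L₀ * Λ) ≤ V := by
    have h1 : V = 2 * Real.pi * (S ^ 2 * (L₀ * Λ)) := by rw [hVeq]; ring
    have h2 : 1 * ((S : ℝ) ^ 2 * (L₀ * Λ)) ≤ 2 * Real.pi * (S ^ 2 * (L₀ * Λ)) :=
      mul_le_mul_of_nonneg_right (by linarith) (by positivity)
    linarith
  rw [← hAdef] at hlo hhi
  have hS2pos : (0 : ℝ) < (S : ℝ) ^ 2 := by positivity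
  have hAS : (S : ℝ) ^ 2 ≤ A := by
    have h1 : 1 * 3 ≤ (1 - θ) * Real.pi + 3 / 100 + 3 := by nlinarith
    have h2 : 1 ≤ (1 - θ) * Real.pi := by nlinarith
    have : 1 * (S : ℝ) ^ 2 ≤ (1 - θ) * Real.pi * S ^ 2 :=
      mul_le_mul_of_nonneg_right h2 hS2pos.le
    linarith
  have hA2 : A ≤ 2 * Real.pi * S ^ 2 := by
    have h1 : (1 + θ) * Real.pi * (S : ℝ) ^ 2 ≤ 2 * Real.pi * S ^ 2 :=
      mul_le_mul_of_nonneg_right (mul_le_mul_of_nonneg_right (by linarith) Real.pi_pos.le)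
        hS2pos.le
    linarith
  have hA0 : 0 < A := by linarith
  have hLS3 : (S : ℝ) ^ 3 ≤ L := by
    rw [hLdef]
    calc (S : ℝ) ^ 3 = S * S ^ 2 := by ring
      _ ≤ L₀ * A := mul_le_mul hLS hAS hS2pos.le hL0.le
  have hS3pos : (1 : ℝ) ≤ (S : ℝ) ^ 3 := one_le_pow₀ hS1
  have hL1' : 1 ≤ L := by linarith
  have hLpos : 0 < L := by linarith
  have hLV1 : 2 * L * Λ ≤ (1 + θ) * V := by
    have h1 : 2 * L * Λ = 2 * L₀ * Λ * A := by rw [hLdef]; ring
    have h2 : (1 + θ) * V = 2 * L₀ * Λ * ((1 + θ) * Real.pi * S ^ 2) := by rw [hVeq]; ring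
    rw [h1, h2]
    exact mul_le_mul_of_nonneg_left hhi (by positivity)
  have hLV2 : (1 - θ) * V ≤ 2 * L * Λ := by
    have h1 : 2 * L * Λ = 2 * L₀ * Λ * A := by rw [hLdef]; ring
    have h2 : (1 - θ) * V = 2 * L₀ * Λ * ((1 - θ) * Real.pi * S ^ 2) := by rw [hVeq]; ring
    rw [h1, h2]
    exact mul_le_mul_of_nonneg_left hlo (by positivity)
  have hθV0 : 0 < θ * V := mul_pos hθ hV0
  have hKL : 2 * K * L ≤ θ * V := by
    have h1 : 2 * K * L ≤ θ * Λ * L := mul_le_mul_of_nonneg_right hΛK hLpos.le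
    have h2 : θ * (2 * L * Λ) ≤ θ * ((1 + θ) * V) := mul_le_mul_of_nonneg_left hLV1 hθ.le
    have h3 : θ * (θ * V) ≤ 1 * (θ * V) := mul_le_mul_of_nonneg_right (by linarith) hθV0.le
    have h4 : θ * ((1 + θ) * V) = θ * V + θ * (θ * V) := by ring
    have h5 : θ * (2 * L * Λ) = 2 * (θ * Λ * L) := by ring
    linarith
  have hKL1 : 1 ≤ K * L := one_le_mul_of_one_le_of_one_le hK1 hL1'
  have hθV2 : 2 ≤ θ * V := by
    have : 2 * K * L = 2 * (K * L) := by ring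
    linarith
  have hexp := Real.add_one_le_exp (θ * V)
  have hLK : L ≤ K * L := le_mul_of_one_le_left hLpos.le hK1
  refine ⟨hS1, hΛ1, hLS, hV0, ?_, ?_, hAS, hA2, hL1', hLS3, hLV1, hLV2, hKL, hθV2, ?_, ?_, ?_⟩
  · have h1 : (S : ℝ) ^ 2 * S ^ 2 ≤ S ^ 2 * (L₀ * Λ) := mul_le_mul_of_nonneg_left hLo hS2pos.le
    have h2 : (S : ℝ) ^ 4 = S ^ 2 * S ^ 2 := by ring
    linarith
  · have h1 : 3 ≤ θ * (S : ℝ) ^ 2 := by
      rw [div_le_iff₀ hθ] at hS3
      have h2 : θ * (S : ℝ) * 1 ≤ θ * S * S := mul_le_mul_of_nonneg_left hS1 (by positivity)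
      have h3 : θ * (S : ℝ) ^ 2 = θ * S * S := by ring
      linarith
    have h4 : 3 * (L₀ * Λ) ≤ θ * (S : ℝ) ^ 2 * (L₀ * Λ) :=
      mul_le_mul_of_nonneg_right h1 (by positivity)
    have h5 : θ * ((S : ℝ) ^ 2 * (L₀ * Λ)) ≤ θ * V := mul_le_mul_of_nonneg_left hVge hθ.le
    have h6 : θ * (S : ℝ) ^ 2 * (L₀ * Λ) = θ * ((S : ℝ) ^ 2 * (L₀ * Λ)) := by ring
    linarith
  · linarith
  · have : 2 * K * L = 2 * (K * L) := by ring
    linarith
  · have h1 : (L₀ : ℝ) ≤ (1 + ε / 2) * L₀ := le_mul_of_one_le_left hL0.le (by linarith)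
    have : (1 : ℝ) ≤ T := by linarith
    exact_mod_cast this

/-- The radius `R = S^(3 - θ)`. -/
theorem factsR {θ C K : ℝ} {S L₀ T : ℕ} {Λ V A L : ℝ} (hθ : 0 < θ) (hθ1 : θ ≤ 1 / 100)
    (hB : Big θ C K S) (hC1 : 1 ≤ C) (hΛdef : Λ = Real.log S)
    (hF : Facts θ C K S L₀ T Λ V A L) :
    ∃ R : ℝ, 1 ≤ R ∧ Real.log R = (3 - θ) * Λ ∧ 2 * (C * S) ≤ R ∧
      L * (R ^ L₀ * Real.exp (C * S * R)) ≤ Real.exp (3 * (θ * V)) := by
  have hS1 := hF.S1
  have hS0 : (0 : ℝ) < S := by linarith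
  refine ⟨(S : ℝ) ^ (3 - θ), ?_, ?_, ?_, ?_⟩
  · exact Real.one_le_rpow hS1 (by linarith)
  · rw [Real.log_rpow hS0, hΛdef]
  · have h1 : (S : ℝ) ^ (2 : ℝ) ≤ (S : ℝ) ^ (3 - θ) :=
      Real.rpow_le_rpow_of_exponent_le hS1 (by linarith)
    have h2 : (S : ℝ) ^ (2 : ℝ) = (S : ℝ) ^ 2 := by norm_cast
    rw [h2] at h1
    have h3 : 2 * C ≤ S := by
      have : 2 * C ≤ 2 * C ^ 2 := by nlinarith
      linarith [hB.hS]
    have h4 : 2 * C * S ≤ S * S := mul_le_mul_of_nonneg_right h3 hS0.le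
    nlinarith
  · have hRpos : (0 : ℝ) < (S : ℝ) ^ (3 - θ) := Real.rpow_pos_of_pos hS0 _
    have h1 : ((S : ℝ) ^ (3 - θ)) ^ L₀ ≤ Real.exp (θ * V) := by
      rw [pow_exp hRpos, Real.log_rpow hS0, ← hΛdef]
      apply Real.exp_le_exp.2
      have h2 : (L₀ : ℝ) * ((3 - θ) * Λ) = 3 * (L₀ * Λ) - θ * (L₀ * Λ) := by ring
      have h3 : 0 ≤ θ * (L₀ * Λ) := by
        have := hF.Λ1
        positivity
      linarith [hF.V3]
    have h4 : Real.exp (C * S * (S : ℝ) ^ (3 - θ)) ≤ Real.exp (θ * V) := by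
      apply Real.exp_le_exp.2
      have hpow := hB.hpow
      rw [div_le_iff₀ hθ] at hpow
      have h5 : (S : ℝ) ^ (3 - θ) * (S : ℝ) ^ θ = S ^ 3 := by
        rw [← Real.rpow_add hS0]
        have : 3 - θ + θ = ((3 : ℕ) : ℝ) := by push_cast; ring
        rw [this, Real.rpow_natCast]
      have h6 : C * (S * (S : ℝ) ^ (3 - θ)) ≤ (S : ℝ) ^ θ * θ * (S * (S : ℝ) ^ (3 - θ)) :=
        mul_le_mul_of_nonneg_right hpow (by positivity)
      have h7 : (S : ℝ) ^ θ * θ * (S * (S : ℝ) ^ (3 - θ)) = θ * S ^ 4 := by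
        calc _ = θ * S * ((S : ℝ) ^ (3 - θ) * (S : ℝ) ^ θ) := by ring
          _ = _ := by rw [h5]; ring
      have h8 : θ * (S : ℝ) ^ 4 ≤ θ * V := mul_le_mul_of_nonneg_left hF.V4 hθ.le
      calc C * S * (S : ℝ) ^ (3 - θ) = C * (S * (S : ℝ) ^ (3 - θ)) := by ring
        _ ≤ _ := by linarith
    calc _ ≤ Real.exp (θ * V) * (Real.exp (θ * V) * Real.exp (θ * V)) := by
          refine mul_le_mul hF.Le (mul_le_mul h1 h4 (Real.exp_pos _).le (Real.exp_pos _).le)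
            (by positivity) (Real.exp_pos _).le
      _ = _ := by rw [← Real.exp_add, ← Real.exp_add]; congr 1; ring

/-- The radius `r₁ = L / (C S)`. -/
theorem factsr {θ C K CV : ℝ} {S L₀ T : ℕ} {Λ V A L : ℝ}
    (hB : Big θ C K S) (hC1 : 1 ≤ C) (hCV : CV ≤ C) (hK : Real.log (2 * Real.pi) ≤ K)
    (hΛdef : Λ = Real.log S) (hLdef : L = L₀ * A) (hL2 : (L₀ : ℝ) ≤ S ^ 2)
    (hF : Facts θ C K S L₀ T Λ V A L) :
    S ≤ L / (C * S) ∧ CV * S ≤ L / (C * S) ∧ Real.log (L / (C * S)) ≤ 3 * Λ + K := by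
  have hS1 := hF.S1
  have hS0 : (0 : ℝ) < S := by linarith
  have hCS : 0 < C * S := by positivity
  have hC2 : C * C ≤ S := by
    have h1 := hB.hS
    have h2 : 2 * C ^ 2 = 2 * (C * C) := by ring
    have h3 : 0 ≤ C * C := by positivity
    linarith
  have hCS2 : C * C * (S * S) ≤ L := by
    have h1 : C * C * ((S : ℝ) * S) ≤ S * (S * S) := mul_le_mul_of_nonneg_right hC2 (by positivity)
    have h2 : (S : ℝ) ^ 3 = S * (S * S) := by ring
    linarith [hF.L3]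
  refine ⟨?_, ?_, ?_⟩
  · rw [le_div_iff₀ hCS]
    have h1 : (S : ℝ) * (C * S) = 1 * (C * (S * S)) := by ring
    have h2 : 1 * (C * ((S : ℝ) * S)) ≤ C * (C * (S * S)) :=
      mul_le_mul_of_nonneg_right hC1 (by positivity)
    have h3 : C * (C * ((S : ℝ) * S)) = C * C * (S * S) := by ring
    linarith
  · rw [le_div_iff₀ hCS]
    have h1 : CV * (S : ℝ) * (C * S) = CV * (C * (S * S)) := by ring
    have h2 : CV * (C * ((S : ℝ) * S)) ≤ C * (C * (S * S)) :=
      mul_le_mul_of_nonneg_right hCV (by positivity)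
    have h3 : C * (C * ((S : ℝ) * S)) = C * C * (S * S) := by ring
    linarith
  · have hLpos : 0 < L := by linarith [hF.L1]
    have hA0 : 0 ≤ A := by
      have := hF.AS
      have h2 : (0 : ℝ) ≤ (S : ℝ) ^ 2 := by positivity
      linarith
    have h1 : L ≤ 2 * Real.pi * S ^ 4 := by
      rw [hLdef]
      calc (L₀ : ℝ) * A ≤ S ^ 2 * (2 * Real.pi * S ^ 2) :=
            mul_le_mul hL2 hF.A2 hA0 (by positivity)
        _ = _ := by ring
    have h2 : L / (C * S) ≤ 2 * Real.pi * S ^ 3 := by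
      rw [div_le_iff₀ hCS]
      have h3 : 2 * Real.pi * (S : ℝ) ^ 3 * (C * S) = C * (2 * Real.pi * S ^ 4) := by ring
      have h4 : 1 * (2 * Real.pi * (S : ℝ) ^ 4) ≤ C * (2 * Real.pi * S ^ 4) :=
        mul_le_mul_of_nonneg_right hC1 (by positivity)
      linarith
    have h5 : Real.log (L / (C * S)) ≤ Real.log (2 * Real.pi * S ^ 3) :=
      Real.log_le_log (by positivity) h2
    rw [Real.log_mul (by positivity) (by positivity), Real.log_pow, ← hΛdef] at h5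
    push_cast at h5
    linarith

end NV

end GSL

end

section

/-!
# MP_327059_nt : non vanishing (`StmtNV`)
-/

open Polynomial Filter Topology

namespace GSL

namespace NV

/-- A normalised linear relation between the rows. -/
theorem exists_rel (hRk : StmtRank) {R K : Type} [Fintype R] [DecidableEq R] [Fintype K]
    (M : R → K → ℂ)
    (hM : ∀ e : R → K, Function.Injective e →
      Matrix.det (Matrix.of fun s r => M r (e s)) = 0) :
    ∃ (p : R → ℂ) (r0 : R), p r0 = 1 ∧ (∀ r, ‖p r‖ ≤ 1) ∧ ∀ c, ∑ r, p r * M r c = 0 := by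
  obtain ⟨p0, hp0, hp0s⟩ := hRk R K M hM
  obtain ⟨r1, hr1⟩ : ∃ r, p0 r ≠ 0 := by
    by_contra h
    push Not at h
    exact hp0 (funext h)
  have : Nonempty R := ⟨r1⟩
  obtain ⟨r0, hr0⟩ := Finite.exists_max (fun r : R => ‖p0 r‖)
  have hr0' : p0 r0 ≠ 0 := by
    intro h
    have := hr0 r1
    rw [h, norm_zero] at this
    exact hr1 (norm_le_zero_iff.1 this)
  refine ⟨fun r => p0 r / p0 r0, r0, div_self hr0', fun r => ?_, fun c => ?_⟩
  · rw [norm_div]
    exact (div_le_one (norm_pos_iff.2 hr0')).2 (hr0 r)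
  · have h1 : ∑ r, p0 r / p0 r0 * M r c = (∑ r, p0 r * M r c) / p0 r0 := by
      rw [Finset.sum_div]
      exact Finset.sum_congr rfl fun r _ => by ring
    rw [h1, hp0s c, zero_div]

/-- Derivatives at the nodes. -/
theorem der_bound {β l : ℂ} {t : ℤ} {S L₀ T : ℕ} (p : Ix S L₀ → ℂ) (hp : ∀ r, ‖p r‖ ≤ 1)
    (M : Ix S L₀ → Ix S T → ℂ) (hM : ∀ c, ∑ r, p r * M r c = 0) (η : ℝ)
    (hd : ∀ (r : Ix S L₀) (c : Ix S T), ‖ent0 l (wv β r.2.1) (zv t β c.2.1) r.1 c.1 *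
      Complex.exp (wv β r.2.1 * zv t β c.2.1 * l) - M r c‖ ≤ η) (c : Ix S T) :
    ‖iteratedDeriv c.1 (F β l p) (zv t β c.2.1)‖ ≤ (L₀ * (circ S).card : ℝ) * η := by
  rw [F_iter]
  have h1 : ∑ r, p r * (ent0 l (wv β r.2.1) (zv t β c.2.1) r.1 c.1 *
      Complex.exp (wv β r.2.1 * zv t β c.2.1 * l)) =
      ∑ r, p r * (ent0 l (wv β r.2.1) (zv t β c.2.1) r.1 c.1 *
      Complex.exp (wv β r.2.1 * zv t β c.2.1 * l) - M r c) := by
    simp only [mul_sub]
    rw [Finset.sum_sub_distrib, hM c, sub_zero]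
  rw [h1]
  have hcard : (Fintype.card (Ix S L₀) : ℝ) = (L₀ * (circ S).card : ℝ) := by
    rw [Fintype.card_prod, Fintype.card_fin, Fintype.card_coe, Nat.cast_mul]
  calc _ ≤ ∑ r : Ix S L₀, η := by
        refine (norm_sum_le _ _).trans (Finset.sum_le_sum fun r _ => ?_)
        rw [norm_mul]
        calc _ ≤ 1 * η := mul_le_mul (hp r) (hd r c) (norm_nonneg _) zero_le_one
          _ = _ := one_mul _
    _ = _ := by rw [Finset.sum_const, Finset.card_univ, nsmul_eq_mul, hcard]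

/-- The exponential polynomial as a double sum. -/
theorem F_double (β l : ℂ) {S L₀ : ℕ} (p : Ix S L₀ → ℂ) (z : ℂ) :
    F β l p z = ∑ i : {q : ℤ × ℤ // q ∈ circ S}, ∑ k : Fin L₀,
      p (k, i) * z ^ (k : ℕ) * Complex.exp ((i.1.1 * l + i.1.2 * (β * l) : ℂ) * z) := by
  unfold F
  rw [Fintype.sum_prod_type, Finset.sum_comm]
  refine Finset.sum_congr rfl fun i _ => Finset.sum_congr rfl fun k _ => ?_
  rw [← wv_eq]
  dsimp only
  ring

end NV

open NV

theorem nv (hC : StmtCount) (hE : StmtEval) (hRk : StmtRank) (hD : StmtDiff) (hH : StmtHermLat)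
    (hI : StmtInterp) (hK : StmtCoef) : StmtNV := by
  intro D ε hε hε1
  obtain ⟨θ, hθdef⟩ : ∃ θ, θ = ε / 100 := ⟨_, rfl⟩
  have hθ : 0 < θ := by rw [hθdef]; positivity
  have hθ1 : θ ≤ 1 / 100 := by rw [hθdef]; linarith
  have hθ1' : θ < 1 := by linarith
  obtain ⟨Sd, hSd1, hDiff⟩ := hD D θ hθ hθ1'
  have him1 : ((D.β - D.t) * starRingEnd ℂ 1).im ≠ 0 := by
    have : ((D.β - D.t) * starRingEnd ℂ 1).im = D.β.im := by simp
    rw [this]; exact D.im
  have him2 : (D.l * starRingEnd ℂ (D.β * D.l)).im ≠ 0 := by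
    have h1 : D.l * starRingEnd ℂ (D.β * D.l) = (Complex.normSq D.l : ℂ) * starRingEnd ℂ D.β := by
      rw [map_mul, Complex.normSq_eq_conj_mul_self]; ring
    rw [h1, Complex.im_ofReal_mul, Complex.conj_im]
    exact mul_ne_zero (by rw [Ne, Complex.normSq_eq_zero]; exact D.l_ne) (neg_ne_zero.2 D.im)
  obtain ⟨Sh, hHerm⟩ := hH (D.β - D.t) 1 him1 θ hθ hθ1'
  obtain ⟨Sk, hHerm'⟩ := hH D.l (D.β * D.l) him2 θ hθ hθ1'
  -- constants
  obtain ⟨CU, hCU⟩ : ∃ x, x = ‖D.β - D.t‖ + ‖(1 : ℂ)‖ := ⟨_, rfl⟩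
  obtain ⟨CV, hCV⟩ : ∃ x, x = ‖D.l‖ + ‖D.β * D.l‖ := ⟨_, rfl⟩
  obtain ⟨C, hCdef⟩ : ∃ x, x = CU + CV + 1 := ⟨_, rfl⟩
  have hCU0 : 0 ≤ CU := by rw [hCU]; positivity
  have hCV0 : 0 ≤ CV := by rw [hCV]; positivity
  have hC1 : 1 ≤ C := by rw [hCdef]; linarith
  have hCUC : CU ≤ C := by rw [hCdef]; linarith
  have hCVC : CV ≤ C := by rw [hCdef]; linarith
  obtain ⟨K, hKdef⟩ : ∃ x, x = |Real.log (4 * C)| + |Real.log (2 * Real.pi)| + 1 := ⟨_, rfl⟩
  have hab1 := abs_nonneg (Real.log (4 * C))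
  have hab2 := abs_nonneg (Real.log (2 * Real.pi))
  have hK1 : 1 ≤ K := by rw [hKdef]; linarith
  have hK4C : Real.log (4 * C) ≤ K := by
    rw [hKdef]; have := le_abs_self (Real.log (4 * C)); linarith
  have hKpi : Real.log (2 * Real.pi) ≤ K := by
    rw [hKdef]; have := le_abs_self (Real.log (2 * Real.pi)); linarith
  obtain ⟨Sa, hbig⟩ := ev_big hC hθ C K
  refine ⟨1, 1, max (max Sd Sh) (max Sk Sa), one_pos, one_pos, ?_⟩
  intro S L₀ T hS hLo hL2 hT1 hT2 OT AT hgood γ hγ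
  by_contra hcon
  push Not at hcon
  have hSd : Sd ≤ S := (le_max_left _ _).trans ((le_max_left _ _).trans hS)
  have hSh : Sh ≤ S := (le_max_right _ _).trans ((le_max_left _ _).trans hS)
  have hSk : Sk ≤ S := (le_max_left _ _).trans ((le_max_right _ _).trans hS)
  have hSa : Sa ≤ S := (le_max_right _ _).trans ((le_max_right _ _).trans hS)
  have hB := hbig S hSa
  obtain ⟨Λ, hΛdef⟩ : ∃ x, x = Real.log S := ⟨_, rfl⟩
  obtain ⟨V, hVdef⟩ : ∃ x, x = Vf S L₀ := ⟨_, rfl⟩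
  obtain ⟨A, hAdef⟩ : ∃ x : ℝ, x = ((circ S).card : ℝ) := ⟨_, rfl⟩
  obtain ⟨L, hLdef⟩ : ∃ x : ℝ, x = L₀ * A := ⟨_, rfl⟩
  rw [one_mul, ← hΛdef] at hLo
  rw [one_mul] at hL2
  have hF : Facts θ C K S L₀ T Λ V A L :=
    facts hθ hθ1 hε hB hK1 hΛdef hVdef hAdef hLdef hLo hT1
  have hS1 := hF.S1
  have hS0 : (0 : ℝ) < S := by linarith
  have hV0 := hF.V0
  have hLpos : 0 < L := by linarith [hF.L1]
  have hA0 : 0 < A := by
    have h2 : (0 : ℝ) < (S : ℝ) ^ 2 := by positivity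
    linarith [hF.AS]
  have hL0 : (0 : ℝ) < L₀ := by linarith [hF.LS]
  obtain ⟨R, hR1, hRlog, hR2, hRB⟩ := factsR hθ hθ1 hB hC1 hΛdef hF
  obtain ⟨hr1, hr2, hr3⟩ := factsr hB hC1 hCVC hKpi hΛdef hLdef hL2 hF
  -- comparison with the entries at `γ`
  have hT2' : (T : ℝ) ≤ 2 * L₀ := by
    have : (1 + ε) * (L₀ : ℝ) ≤ 2 * L₀ := mul_le_mul_of_nonneg_right (by linarith) hL0.le
    linarith
  obtain ⟨hγ0, hAγ, hdiff⟩ := hDiff S L₀ T hSd (by rw [← hΛdef]; exact hLo) hL2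
    hT2' ((1 + ε) * V) (by
      rw [← hVdef]; have := mul_pos hε hV0
      have : (1 + ε) * V = V + ε * V := by ring
      linarith) γ (by rw [hVdef]; exact hγ)
  obtain ⟨X, hX⟩ : ∃ X, X = D.B₀.eval γ / D.A₀.eval γ := ⟨_, rfl⟩
  rw [← hX, ← hVdef] at hdiff
  -- rank
  obtain ⟨p, r0, hpr0, hp1, hps⟩ := exists_rel hRk (fun (r : Ix S L₀) (c : Ix S T) => D.ent X γ r c)
    (by
      intro e he
      have h1 := hE D S L₀ T e OT AT (hgood e he) γ hγ0 hAγ
      rw [hcon e he, ← hX] at h1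
      have h2 : γ ^ OT * (D.a₁ * D.a₂) ^ AT * (∏ r, D.A₀.eval γ ^ ((e r).1 : ℕ)) ≠ 0 := by
        refine mul_ne_zero (mul_ne_zero (pow_ne_zero _ hγ0)
          (pow_ne_zero _ (mul_ne_zero D.a₁_ne D.a₂_ne))) ?_
        exact Finset.prod_ne_zero_iff.2 fun r _ => pow_ne_zero _ hAγ
      rcases mul_eq_zero.1 h1.symm with h3 | h3
      · exact absurd h3 h2
      · exact h3)
  -- derivatives at the nodes
  have hder := der_bound (t := D.t) p hp1 (fun (r : Ix S L₀) (c : Ix S T) => D.ent X γ r c) hps _ hdiff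
  rw [← hAdef, ← hLdef] at hder
  -- interpolation
  obtain ⟨h, hdeg, hint, hbd⟩ := hHerm S hSh T hF.T1
  have hCS0 : 0 < C * S := by positivity
  have hcardA : ((Fintype.card {q : ℤ × ℤ // q ∈ circ S} : ℕ) : ℝ) = A := by
    rw [Fintype.card_coe, hAdef]
  have hN : (((T * Fintype.card {q : ℤ × ℤ // q ∈ circ S} : ℕ)) : ℝ) = T * A := by
    rw [Nat.cast_mul, hcardA]
  have hFb : ∀ z : ℂ, ‖z‖ ≤ C * S → ‖F D.β D.l p z‖ ≤
      Real.exp (-((1 + ε / 2) * V) + 11 * (θ * V)) := by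
    intro z hz
    have h1 := hI {q : ℤ × ℤ // q ∈ circ S}
      (fun j => (j.1.1 * (D.β - D.t) + j.1.2 * 1 : ℂ)) T h (C * S) R
      (L * Real.exp (-((1 + ε) * V) + θ * V)) (Real.exp (3 * (θ * V)))
      (Real.exp (T * (circ S).card * (Real.log (C * S) - (1 - θ) * Real.log S)))
      (Real.exp (T * (circ S).card * (Real.log R - (1 - θ) * Real.log S))) hF.T1
      ?_ hCS0 (by linarith) ?_ hint ?_ ?_ (by positivity) (by positivity)
      (F D.β D.l p) (F_diff _ _ _) ?_ ?_ z hz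
    · refine h1.trans ?_
      have h2 := num1 (N := T * Fintype.card {q : ℤ × ℤ // q ∈ circ S}) (R := R) (r := C * S) hθ hθ1 hε hε1 hV0
        (by linarith [hF.Λ1] : 0 < Λ) hLpos hC1 ?_ ?_ hF.LV1 hF.LV2 hK1 hK4C hF.KL hF.e2 hCS0
        ?_ (by linarith) hRlog hR2
      · rw [hN] at h2
        rw [hcardA, ← hAdef, ← hΛdef]
        exact h2
      · rw [hN, hLdef, ← mul_assoc]
        exact mul_le_mul_of_nonneg_right hT1 hA0.le
      · rw [hN, hLdef, ← mul_assoc]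
        exact mul_le_mul_of_nonneg_right hT2 hA0.le
      · rw [Real.log_mul (by positivity) hS0.ne', hΛdef]
    · -- injectivity
      intro i j hij
      have h2 := hint i 0 hF.T1 i 0 hF.T1
      have h3 := hint i 0 hF.T1 j 0 hF.T1
      simp only [Function.iterate_zero, id_eq, and_self, and_true, if_true] at h2 h3
      have h4 : (i.1.1 * (D.β - D.t) + i.1.2 * 1 : ℂ) = j.1.1 * (D.β - D.t) + j.1.2 * 1 := hij
      rw [h4, h3] at h2
      by_contra hne
      rw [if_neg (Ne.symm hne)] at h2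
      exact zero_ne_one h2
    · intro i
      have h2 := lin_bound (D.β - D.t) 1 i.2
      rw [← hCU] at h2
      exact h2.trans (mul_le_mul_of_nonneg_right hCUC hS0.le)
    · intro i tau htau w hw
      refine hbd (C * S) ?_ ?_ i tau htau w hw
      · exact le_mul_of_one_le_left hS0.le hC1
      · rw [← hCU]; exact mul_le_mul_of_nonneg_right hCUC hS0.le
    · intro i tau htau w hw
      refine hbd R ?_ ?_ i tau htau w hw
      · have : (S : ℝ) ≤ C * S := le_mul_of_one_le_left hS0.le hC1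
        linarith
      · rw [← hCU]
        have : CU * (S : ℝ) ≤ C * S := mul_le_mul_of_nonneg_right hCUC hS0.le
        linarith
    · intro w hw
      refine (F_bound D.β D.l p hp1 R hR1 w hw).trans ?_
      rw [← hAdef, ← hLdef, ← hCV]
      refine le_trans ?_ hRB
      refine mul_le_mul_of_nonneg_left (mul_le_mul_of_nonneg_left (Real.exp_le_exp.2 ?_)
        (by positivity)) hLpos.le
      exact mul_le_mul_of_nonneg_right (mul_le_mul_of_nonneg_right hCVC hS0.le) (by linarith)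
    · intro i tau htau
      have h2 := hder (⟨tau, htau⟩, i)
      rw [zv_eq] at h2
      exact h2
  -- coefficients
  obtain ⟨h', hdeg', hint', hbd'⟩ := hHerm' S hSk L₀ (by
    have : (1 : ℝ) ≤ L₀ := by linarith [hF.LS]
    exact_mod_cast this)
  have hfin := hK {q : ℤ × ℤ // q ∈ circ S}
    (fun j => (j.1.1 * D.l + j.1.2 * (D.β * D.l) : ℂ)) L₀ h' (L / (C * S)) (C * S)
    (Real.exp (-((1 + ε / 2) * V) + 11 * (θ * V)))
    (Real.exp (L₀ * (circ S).card * (Real.log (L / (C * S)) - (1 - θ) * Real.log S)))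
    (by
      have : (1 : ℝ) ≤ L₀ := by linarith [hF.LS]
      exact_mod_cast this) hCS0 (by positivity)
    (by rw [hcardA, ← hLdef, div_mul_cancel₀ _ hCS0.ne'])
    hdeg' hint' (fun i tau htau z hz => hbd' _ hr1 (by rw [← hCV]; exact hr2) i tau htau z hz)
    (Real.exp_pos _).le (fun i k => p (k, i))
    (fun z hz => by rw [← F_double]; exact hFb z hz) r0.2 r0.1
  have hr0 : p (r0.1, r0.2) = 1 := hpr0
  rw [hr0, norm_one, hcardA, ← hAdef, ← hLdef, ← hΛdef] at hfin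
  have hlt := num2 (r₁ := L / (C * S)) hθ hθ1 hθdef hε hV0 hLpos hF.LV1 hK1 hF.KL hr3
  linarith

end GSL

end
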