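import Mathlib
import Pool.Agent.Work.MP_327059_nt.GL.Defs
import Pool.Agent.Work.MP_327059_nt.GL.DefsC

/-! Bundle of small proof modules (one section per former module). -/

section

/-!
# PART G: definitions (derivations of `ℂ`)
-/

set_option autoImplicit false

namespace Pool.Agent.Work.MP_327059_nt.GL

/-- Laurent monomial. -/
noncomputable def mon {n m : ℕ} (y : Fin n → Fin m → ℂ) (ξ : Fin n → Fin m → ℤ) : ℂ :=
  ∏ i, ∏ j, y i j ^ ξ i j

/-- The forms `ω_0 = ∑ v_i dx_i` and `ω_j = ∑ v_i dlog y_ij` on derivations of `ℂ`. -/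
noncomputable def om {n m : ℕ} (x : Fin n → ℂ) (y : Fin n → Fin m → ℂ) (v : Fin n → ℂ) :
    Derivation ℚ ℂ ℂ →ₗ[ℂ] (Option (Fin m) → ℂ) where
  toFun δ := fun o => o.elim (∑ i, v i * δ (x i)) (fun j => ∑ i, v i * (δ (y i j) / y i j))
  map_add' a b := by
    funext o
    cases o with
    | none =>
      simp only [Option.elim, Pi.add_apply, Derivation.add_apply]
      rw [← Finset.sum_add_distrib]
      exact Finset.sum_congr rfl fun i _ => by ring
    | some j =>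
      simp only [Option.elim, Pi.add_apply, Derivation.add_apply]
      rw [← Finset.sum_add_distrib]
      exact Finset.sum_congr rfl fun i _ => by ring
  map_smul' c a := by
    funext o
    cases o with
    | none =>
      simp only [Option.elim, Pi.smul_apply, Derivation.smul_apply, smul_eq_mul, RingHom.id_apply]
      rw [Finset.mul_sum]
      exact Finset.sum_congr rfl fun i _ => by ring
    | some j =>
      simp only [Option.elim, Pi.smul_apply, Derivation.smul_apply, smul_eq_mul, RingHom.id_apply]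
      rw [Finset.mul_sum]
      exact Finset.sum_congr rfl fun i _ => by ring

/-- Derivations killing all `v_i`. -/
def TT {n : ℕ} (v : Fin n → ℂ) : Submodule ℂ (Derivation ℚ ℂ ℂ) where
  carrier := {δ | ∀ i, δ (v i) = 0}
  add_mem' {a b} ha hb i := by
    rw [Derivation.add_apply, ha i, hb i, add_zero]
  zero_mem' i := by simp
  smul_mem' c a ha i := by
    rw [Derivation.smul_apply, ha i, smul_zero]

/-- Complex annihilator of a group of exponents. -/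
def annC {n m : ℕ} (G : AddSubgroup (Fin n → Fin m → ℤ)) : Submodule ℂ (Fin n → Fin m → ℂ) where
  carrier := {b | ∀ ξ ∈ G, ∑ i, ∑ j, (ξ i j : ℂ) * b i j = 0}
  add_mem' {a b} ha hb ξ hξ := by
    have h1 := ha ξ hξ
    have h2 := hb ξ hξ
    simp only [Pi.add_apply, mul_add, Finset.sum_add_distrib, h1, h2, add_zero]
  zero_mem' ξ _ := by simp
  smul_mem' c a ha ξ hξ := by
    have h1 := ha ξ hξ
    have h2 : ∑ i, ∑ j, (ξ i j : ℂ) * (c • a) i j = c * ∑ i, ∑ j, (ξ i j : ℂ) * a i j := by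
      rw [Finset.mul_sum]
      refine Finset.sum_congr rfl fun i _ => ?_
      rw [Finset.mul_sum]
      refine Finset.sum_congr rfl fun j _ => ?_
      simp only [Pi.smul_apply, smul_eq_mul]
      ring
    rw [h2, h1, mul_zero]

/-- `b ↦ b v`. -/
def mv {K : Type} [Field K] {n m : ℕ} (v : Fin n → K) : (Fin n → Fin m → K) →ₗ[K] (Fin m → K) where
  toFun b := fun j => ∑ i, v i * b i j
  map_add' a b := by
    funext j
    simp only [Pi.add_apply, mul_add, Finset.sum_add_distrib]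
  map_smul' c a := by
    funext j
    simp only [Pi.smul_apply, smul_eq_mul, RingHom.id_apply]
    rw [Finset.mul_sum]
    exact Finset.sum_congr rfl fun i _ => by ring

/-- Rank of the forms on derivations killing `v`. -/
noncomputable def rk {n m : ℕ} (x : Fin n → ℂ) (y : Fin n → Fin m → ℂ) (v : Fin n → ℂ) : ℕ :=
  Module.finrank ℂ ((TT v).map (om x y v))

/-- Dimension of `𝔟 v`. -/
noncomputable def ug {n m : ℕ} (G : AddSubgroup (Fin n → Fin m → ℤ)) (v : Fin n → ℂ) : ℕ :=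
  Module.finrank ℂ ((annC G).map (mv v))

/-- Rational annihilator. -/
def annQ {n m : ℕ} (G : AddSubgroup (Fin n → Fin m → ℤ)) : Submodule ℚ (Fin n → Fin m → ℚ) where
  carrier := {b | ∀ ξ ∈ G, ∑ i, ∑ j, (ξ i j : ℚ) * b i j = 0}
  add_mem' {a b} ha hb ξ hξ := by
    have h1 := ha ξ hξ
    have h2 := hb ξ hξ
    simp only [Pi.add_apply, mul_add, Finset.sum_add_distrib, h1, h2, add_zero]
  zero_mem' ξ _ := by simp
  smul_mem' c a ha ξ hξ := by
    have h1 := ha ξ hξ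
    have h2 : ∑ i, ∑ j, (ξ i j : ℚ) * (c • a) i j = c * ∑ i, ∑ j, (ξ i j : ℚ) * a i j := by
      rw [Finset.mul_sum]
      refine Finset.sum_congr rfl fun i _ => ?_
      rw [Finset.mul_sum]
      refine Finset.sum_congr rfl fun j _ => ?_
      simp only [Pi.smul_apply, smul_eq_mul]
      ring
    rw [h2, h1, mul_zero]

end Pool.Agent.Work.MP_327059_nt.GL

end

section

/-!
# PART C: statements of the items
-/

set_option autoImplicit false

namespace Pool.Agent.Work.MP_327059_nt.GL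

open MvPolynomial

/-! ## Algebra -/

/-- C01 -/
def S_AIZ : Prop := ∀ (n : Type) (y : n → ℂ),
  AlgebraicIndependent ℚ y ↔ ∀ G : MvPolynomial n ℤ, aeval y G = 0 → G = 0

/-- C02 -/
def S_TrCount : Prop := ∀ (α β : Type) [Fintype α] [Fintype β] (x : α → ℂ) (y : β → ℂ),
  AlgebraicIndependent ℚ x → (∀ i, AlgOver y (x i)) → Fintype.card α ≤ Fintype.card β

/-- C03 -/
def S_TrBasis : Prop := ∀ (α : Type) [Fintype α] (x : α → ℂ),
  ∃ (r : ℕ) (s : Fin r → α), AlgebraicIndependent ℚ (fun i => x (s i)) ∧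
    ∀ j, AlgOver (fun i => x (s i)) (x j)

/-- C04 -/
def S_AI : Prop := ∀ (ι : Type) [Fintype ι] (k : ℕ) (F : MvPolynomial (Fin (k + 1) × ι) ℤ)
  (u : Fin (k + 1) → ι → ℂ) (ζ : ι → ℂ), Dat F u ζ → Inv0 F →
    AlgebraicIndependent ℚ (fun p : Fin k × ι => u p.1.succ p.2)

/-- C05 -/
def S_CountAlg : Prop := ∀ (ι : Type) [Fintype ι] (k : ℕ) (F : MvPolynomial (Fin (k + 1) × ι) ℤ)
  (u : Fin (k + 1) → ι → ℂ) (ζ : ι → ℂ), Dat F u ζ → Inv0 F →
    ∀ j0, ζ j0 ≠ 0 → ∀ j, AlgOver (fun p : Fin k × ι => u p.1.succ p.2) (ζ j / ζ j0)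

/-- C06 -/
def S_Orb : Prop := ∀ (ι n : Type) [Fintype ι] [Fintype n] (y : n → ℂ) (ζ : ι → ℂ),
  (∀ j, AlgOver y (ζ j)) →
    ∃ O : Finset (ι → ℂ), ζ ∈ O ∧ (∀ ξ ∈ O, Cj y ζ ξ) ∧ (∀ ξ ∈ O, ∀ j, AlgOver y (ξ j)) ∧
      ∃ (N : MvPolynomial (ι ⊕ n) ℤ) (c : MvPolynomial n ℤ), aeval y c ≠ 0 ∧
        ∀ U : ι → ℂ, aeval (Sum.elim U y) N = aeval y c * ∏ ξ ∈ O, ∑ j, U j * ξ j

/-- C07 -/
def S_FacN : Prop := ∀ (ι n : Type) [Fintype ι] [Fintype n] (F : MvPolynomial (ι ⊕ n) ℤ)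
  (u0 ζ : ι → ℂ) (y : n → ℂ),
  (∀ G : MvPolynomial (ι ⊕ n) ℤ, aeval (Sum.elim u0 y) G = 0 → F ∣ G) →
  (∑ j, u0 j * ζ j = 0) → (∃ j0, ζ j0 = 1) → (∀ j, AlgOver y (ζ j)) →
    ∃ (d : ℕ) (a : ℂ) (ξ : Fin d → ι → ℂ), a ≠ 0 ∧ (∀ t, Cj y ζ (ξ t)) ∧
      (∀ t j, AlgOver y (ξ t j)) ∧
      ∀ U : ι → ℂ, aeval (Sum.elim U y) F = a * ∏ t, ∑ j, U j * ξ t j

/-- C08 -/
def S_ResWD : Prop := ∀ (ι : Type) [Fintype ι] (d : ℕ) (a b : ℂ) (ξ η : Fin d → ι → ℂ),
  (∀ t, ξ t ≠ 0) → (∀ t, η t ≠ 0) →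
  (∀ U : ι → ℂ, a * ∏ t, ∑ j, U j * ξ t j = b * ∏ t, ∑ j, U j * η t j) →
    ∀ (δ : ℕ) (P : MvPolynomial ι ℤ), P.IsHomogeneous δ →
      a ^ δ * ∏ t, aeval (ξ t) P = b ^ δ * ∏ t, aeval (η t) P

/-- C09 -/
def S_ValG : Prop := ∀ (ι : Type) [Fintype ι] (V : ValuationSubring ℂ) (d : ℕ) (a : ℂ)
  (ξ : Fin d → ι → ℂ), (∀ t, ξ t ≠ 0) →
  (∀ m, (C a * ∏ t, ∑ j, C (ξ t j) * X j : MvPolynomial ι ℂ).coeff m ∈ V) →
    ∀ (δ : ℕ) (P : MvPolynomial ι ℤ), P.IsHomogeneous δ → a ^ δ * ∏ t, aeval (ξ t) P ∈ V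

/-- C10 -/
def S_NormInt : Prop := ∀ (ι n : Type) [Fintype ι] [Fintype n] (F : MvPolynomial (ι ⊕ n) ℤ)
  (y : n → ℂ) (d : ℕ) (a : ℂ) (ξ : Fin d → ι → ℂ), (∀ t, ξ t ≠ 0) →
  (∀ U : ι → ℂ, aeval (Sum.elim U y) F = a * ∏ t, ∑ j, U j * ξ t j) →
    ∀ (δ : ℕ) (P : MvPolynomial ι ℤ), P.IsHomogeneous δ →
      IsIntegral (Algebra.adjoin ℤ (Set.range y)) (a ^ δ * ∏ t, aeval (ξ t) P)

/-- C11 -/
def S_NormGal : Prop := ∀ (ι n : Type) [Fintype ι] [Fintype n] (F : MvPolynomial (ι ⊕ n) ℤ)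
  (y : n → ℂ) (d : ℕ) (a : ℂ) (ξ : Fin d → ι → ℂ), a ≠ 0 → (∀ t, ξ t ≠ 0) →
  (∀ t j, AlgOver y (ξ t j)) →
  (∀ U : ι → ℂ, aeval (Sum.elim U y) F = a * ∏ t, ∑ j, U j * ξ t j) →
    ∀ (δ : ℕ) (P : MvPolynomial ι ℤ), P.IsHomogeneous δ →
      a ^ δ * ∏ t, aeval (ξ t) P ∈ IntermediateField.adjoin ℚ (Set.range y)

/-- C12 -/
def S_NormN : Prop := ∀ (ι n : Type) [Fintype ι] [Fintype n] (F : MvPolynomial (ι ⊕ n) ℤ)
  (y : n → ℂ), AlgebraicIndependent ℚ y → ∀ (d : ℕ) (a : ℂ) (ξ : Fin d → ι → ℂ), a ≠ 0 →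
  (∀ t, ξ t ≠ 0) → (∀ t j, AlgOver y (ξ t j)) →
  (∀ U : ι → ℂ, aeval (Sum.elim U y) F = a * ∏ t, ∑ j, U j * ξ t j) →
    ∀ (δ : ℕ) (P : MvPolynomial ι ℤ), P.IsHomogeneous δ →
      ∃ H : MvPolynomial n ℤ, aeval y H = a ^ δ * ∏ t, aeval (ξ t) P

/-- C13 -/
def S_Trans : Prop := ∀ (n m : Type) [Fintype n] [Fintype m] (y w : n → ℂ),
  AlgebraicIndependent ℚ y → AlgebraicIndependent ℚ w →
    ∀ x : m → ℂ, (∀ i, AlgOver y (x i)) →
      ∃ x' : m → ℂ, ∀ f : MvPolynomial (m ⊕ n) ℤ,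
        aeval (Sum.elim x y) f = 0 ↔ aeval (Sum.elim x' w) f = 0

/-- C14 -/
def S_DenseK : Prop := ∀ (n : Type) [Fintype n] (S : Set ℂ), S.Countable →
  ∀ (w : n → ℂ) (ε : ℝ), 0 < ε →
    ∃ w' : n → ℂ, AlgebraicIndependent (IntermediateField.adjoin ℚ S) w' ∧
      ∀ i, ‖w' i - w i‖ < ε

/-- C15 -/
def S_Clos : Prop := ∀ (ι n : Type) [Fintype ι] [Fintype n] (F : MvPolynomial (ι ⊕ n) ℤ)
  (H : MvPolynomial n ℤ) (P : MvPolynomial ι ℤ) (δ d : ℕ) (GG : Set (MvPolynomial (ι ⊕ n) ℤ)),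
  P.IsHomogeneous δ → (∀ g ∈ GG, ∃ m, HomL m g) →
  (∀ w : n → ℂ, AlgebraicIndependent ℚ w → ∃ (a : ℂ) (ξ : Fin d → ι → ℂ),
    (∀ t, ξ t ≠ 0 ∧ ∀ g ∈ GG, aeval (Sum.elim (ξ t) w) g = 0) ∧
    (∀ U : ι → ℂ, aeval (Sum.elim U w) F = a * ∏ t, ∑ j, U j * ξ t j) ∧
    aeval w H = a ^ δ * ∏ t, aeval (ξ t) P) →
  ∀ w : n → ℂ, ∃ (a : ℂ) (ξ : Fin d → ι → ℂ),
    (∀ t, ξ t ≠ 0 ∧ ∀ g ∈ GG, aeval (Sum.elim (ξ t) w) g = 0) ∧
    (∀ U : ι → ℂ, aeval (Sum.elim U w) F = a * ∏ t, ∑ j, U j * ξ t j) ∧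
    aeval w H = a ^ δ * ∏ t, aeval (ξ t) P

/-- C16 -/
def S_SpecN : Prop := ∀ (ι n : Type) [Fintype ι] [Fintype n] (F : MvPolynomial (ι ⊕ n) ℤ)
  (u0 ζ : ι → ℂ) (y : n → ℂ),
  (∀ G : MvPolynomial (ι ⊕ n) ℤ, aeval (Sum.elim u0 y) G = 0 ↔ F ∣ G) →
  AlgebraicIndependent ℚ y → (∑ j, u0 j * ζ j = 0) → (∃ j0, ζ j0 = 1) →
  (∀ j, AlgOver y (ζ j)) →
    ∃ d : ℕ, d ≤ F.totalDegree ∧ ((∃ j, F.degreeOf (Sum.inl j) ≠ 0) → 1 ≤ d) ∧
      ∀ (δ : ℕ) (P : MvPolynomial ι ℤ), P.IsHomogeneous δ →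
        ∃ H : MvPolynomial n ℤ, (aeval ζ P ≠ 0 → H ≠ 0) ∧
          ∀ w : n → ℂ, ∃ (a : ℂ) (ξ : Fin d → ι → ℂ),
            (∀ t, ξ t ≠ 0 ∧ ∀ (m : ℕ) (g : MvPolynomial (ι ⊕ n) ℤ), HomL m g →
              aeval (Sum.elim ζ y) g = 0 → aeval (Sum.elim (ξ t) w) g = 0) ∧
            (∀ U : ι → ℂ, aeval (Sum.elim U w) F = a * ∏ t, ∑ j, U j * ξ t j) ∧
            aeval w H = a ^ δ * ∏ t, aeval (ξ t) P

/-- C17 -/
def S_Re : Prop := ∀ (ι : Type) (k : ℕ) (F : MvPolynomial (Fin (k + 1) × ι) ℤ),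
  (∀ (U : ι → ℂ) (w : Fin k → ι → ℂ), ev (Fin.cons U w : Fin (k + 1) → ι → ℂ) F =
    aeval (Sum.elim U (fun p : Fin k × ι => w p.1 p.2)) (rename (re k) F)) ∧
  Function.Bijective (re k : Fin (k + 1) × ι → ι ⊕ (Fin k × ι)) ∧
  (rename (re k) F).totalDegree = F.totalDegree ∧
  (∀ j, (rename (re k) F).degreeOf (Sum.inl j) = F.degreeOf (0, j)) ∧
  (∀ G, rename (re k) F ∣ rename (re k) G ↔ F ∣ G)

/-- C18 -/
def S_Spec0 : Prop := ∀ (ι : Type) [Fintype ι] (k : ℕ) (F : MvPolynomial (Fin (k + 1) × ι) ℤ)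
  (u : Fin (k + 1) → ι → ℂ) (ζ : ι → ℂ), Dat F u ζ →
    ∃ d : ℕ, d ≤ F.totalDegree ∧ (Inv0 F → 1 ≤ d) ∧
      ∀ (δ : ℕ) (P : MvPolynomial ι ℤ), P.IsHomogeneous δ →
        ∃ H : MvPolynomial (Fin k × ι) ℤ, (aeval ζ P ≠ 0 → H ≠ 0) ∧
          ∀ w : Fin k → ι → ℂ, ∃ (a : ℂ) (ξ : Fin d → ι → ℂ),
            (∀ t, ξ t ≠ 0 ∧ On ζ (ξ t) ∧ ∀ i, ∑ j, w i j * ξ t j = 0) ∧
            (∀ U : ι → ℂ, ev (Fin.cons U w : Fin (k + 1) → ι → ℂ) F = a * ∏ t, ∑ j, U j * ξ t j) ∧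
            ev w H = a ^ δ * ∏ t, aeval (ξ t) P

/-- C19 -/
def S_PermD : Prop := ∀ (ι : Type) [Fintype ι] (k : ℕ) (F : MvPolynomial (Fin k × ι) ℤ)
  (u : Fin k → ι → ℂ) (ζ : ι → ℂ) (e : Equiv.Perm (Fin k)), Dat F u ζ →
    Dat (rename (fun p : Fin k × ι => (e p.1, p.2)) F) (fun i => u (e.symm i)) ζ

/-- C20 -/
def S_PermM : Prop := ∀ (σ : Type) [Fintype σ] (k : ℕ) (F : MvPolynomial (Fin k × Option σ) ℤ)
  (e : Equiv.Perm (Fin k)) (θ : σ → ℂ),
    len (rename (fun p : Fin k × Option σ => (e p.1, p.2)) F) = len F ∧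
    (rename (fun p : Fin k × Option σ => (e p.1, p.2)) F).totalDegree = F.totalDegree ∧
    lenC (th θ (rename (fun p : Fin k × Option σ => (e p.1, p.2)) F)) = lenC (th θ F) ∧
    ∀ i j, (rename (fun p : Fin k × Option σ => (e p.1, p.2)) F).degreeOf (e i, j) =
      F.degreeOf (i, j)

/-- C21 -/
def S_SpecI : Prop := ∀ (ι : Type) [Fintype ι] (k : ℕ) (F : MvPolynomial (Fin k × ι) ℤ)
  (u : Fin k → ι → ℂ) (ζ : ι → ℂ), Dat F u ζ → ∀ i0 : Fin k,
    ∃ d : ℕ, d ≤ F.totalDegree ∧ ∀ w : Fin k → ι → ℂ, ∃ (a : ℂ) (ξ : Fin d → ι → ℂ),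
      (∀ t, ξ t ≠ 0 ∧ On ζ (ξ t)) ∧
      ∀ U : ι → ℂ, ev (Function.update w i0 U) F = a * ∏ t, ∑ j, U j * ξ t j

/-- C22 -/
def S_GenZero : Prop := ∀ (n : Type) [Fintype n] (G : MvPolynomial n ℤ), Irreducible G →
  G.totalDegree ≠ 0 → ∃ w : n → ℂ, ∀ Q : MvPolynomial n ℤ, aeval w Q = 0 ↔ G ∣ Q

/-- C23 -/
def S_DimDrop : Prop := ∀ (ι : Type) [Fintype ι] (k : ℕ) (ζ ζ' : ι → ℂ) (δ : ℕ)
  (P : MvPolynomial ι ℤ), PTr (k + 1) ζ → On ζ ζ' → P.IsHomogeneous δ →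
    aeval ζ P ≠ 0 → aeval ζ' P = 0 → PTr k ζ'

/-- C24 -/
def S_StepAlg : Prop := ∀ (ι : Type) [Fintype ι] (k : ℕ) (F : MvPolynomial (Fin (k + 1) × ι) ℤ)
  (u : Fin (k + 1) → ι → ℂ) (ζ : ι → ℂ), Dat F u ζ → Inv0 F →
    ∀ (d δ : ℕ) (P : MvPolynomial ι ℤ) (H : MvPolynomial (Fin k × ι) ℤ), P.IsHomogeneous δ →
    aeval ζ P ≠ 0 →
    (∀ w : Fin k → ι → ℂ, ∃ (a : ℂ) (ξ : Fin d → ι → ℂ),
      (∀ t, ξ t ≠ 0 ∧ On ζ (ξ t) ∧ ∀ i, ∑ j, w i j * ξ t j = 0) ∧
      (∀ U : ι → ℂ, ev (Fin.cons U w : Fin (k + 1) → ι → ℂ) F = a * ∏ t, ∑ j, U j * ξ t j) ∧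
      ev w H = a ^ δ * ∏ t, aeval (ξ t) P) →
    ∀ G : MvPolynomial (Fin k × ι) ℤ, Irreducible G → G ∣ H → G.totalDegree ≠ 0 →
      ∃ (w : Fin k → ι → ℂ) (ζ' : ι → ℂ), Dat G w ζ'

/-- C25 -/
def S_Princ : Prop := ∀ (n : Type) [Fintype n] (u : n → ℂ) (x0 : n),
  AlgebraicIndependent ℚ (fun i : {i // i ≠ x0} => u i) → ¬ AlgebraicIndependent ℚ u →
    ∃ F : MvPolynomial n ℤ, Irreducible F ∧ ∀ G : MvPolynomial n ℤ, aeval u G = 0 ↔ F ∣ G

/-- C26 -/
def S_InitDer : Prop := ∀ (σ : Type) [Fintype σ] (θ : σ → ℂ) (r : ℕ) (s : Fin r → σ),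
  AlgebraicIndependent ℚ (fun i => θ (s i)) → (∀ j, AlgOver (fun i => θ (s i)) (θ j)) →
    ∀ W : Fin r × σ → ℂ, AlgebraicIndependent (IntermediateField.adjoin ℚ (Set.range θ)) W →
      ∀ j, AlgOver (fun p : Fin r × Option σ => perp θ (fun j => W (p.1, j)) p.2) (θ j)

/-- C27 -/
def S_Init : Prop := ∀ (σ : Type) [Fintype σ] (τ : ℕ) (θ : σ → ℂ), TrLe τ θ →
  ∃ k : ℕ, k ≤ τ ∧ ∃ (F : MvPolynomial (Fin (k + 1) × Option σ) ℤ)
    (u : Fin (k + 1) → Option σ → ℂ), Dat F u (hat θ) ∧ th θ F = 0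

/-! ## Metric estimates -/

/-- C28 -/
def S_Sup : Prop := ∀ (σ : Type) [Fintype σ] (f : MvPolynomial σ ℂ),
  ∃ z : σ → ℂ, (∀ i, ‖z i‖ ≤ 1) ∧
    lenC f ≤ 2 ^ (Fintype.card σ * f.totalDegree) * ‖eval z f‖

/-- C29 -/
def S_Gelf1 : Prop := ∀ (r : ℕ) (p : Fin r → Polynomial ℂ) (z : Fin r → ℂ),
  (∀ t, ‖z t‖ ≤ 1) → ∃ x : ℂ, ‖x‖ ≤ 1 ∧
    ∏ t, ‖(p t).eval (z t)‖ ≤ 4 ^ (∑ t, (p t).natDegree) * ∏ t, ‖(p t).eval x‖

/-- C30 -/
def S_GelfPt : Prop := ∀ (σ : Type) [Fintype σ] (r : ℕ) (f : Fin r → MvPolynomial σ ℂ)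
  (z : Fin r → σ → ℂ), (∀ t i, ‖z t i‖ ≤ 1) → ∃ x : σ → ℂ, (∀ i, ‖x i‖ ≤ 1) ∧
    ∏ t, ‖eval (z t) (f t)‖ ≤
      4 ^ (Fintype.card σ * ∑ t, (f t).totalDegree) * ∏ t, ‖eval x (f t)‖

/-- C31 -/
def S_Gelf : Prop := ∀ (σ : Type) [Fintype σ] (r : ℕ) (f : Fin r → MvPolynomial σ ℂ),
  ∏ t, lenC (f t) ≤ 8 ^ (Fintype.card σ * ∑ t, (f t).totalDegree) * lenC (∏ t, f t)

/-- C32 -/
def S_LIN : Prop := ∀ (ι : Type) [Fintype ι] (d : ℕ) (a : ℂ) (ξ : Fin d → ι → ℂ),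
  ∃ U : ι → ℂ, (∀ j, ‖U j‖ ≤ 1) ∧
    ‖a‖ * ∏ t, ∑ j, ‖ξ t j‖ ≤ 4 ^ (Fintype.card ι * d) * ‖a * ∏ t, ∑ j, U j * ξ t j‖

/-- C33 -/
def S_LenEv : Prop :=
  (∀ (σ : Type) (f : MvPolynomial σ ℂ) (z : σ → ℂ) (R : ℝ), 1 ≤ R → (∀ i, ‖z i‖ ≤ R) →
    ‖eval z f‖ ≤ lenC f * R ^ f.totalDegree) ∧
  (∀ (σ : Type) (P : MvPolynomial σ ℤ) (z : σ → ℂ) (R : ℝ), 1 ≤ R → (∀ i, ‖z i‖ ≤ R) →
    ‖aeval z P‖ ≤ len P * R ^ P.totalDegree) ∧
  (∀ (σ : Type) (P : MvPolynomial σ ℤ), P ≠ 0 → 1 ≤ len P) ∧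
  (∀ (σ : Type) (P : MvPolynomial σ ℤ), lenC (map (Int.castRingHom ℂ) P) = len P)

/-- C34 -/
def S_ThEv : Prop := ∀ (σ : Type) [Fintype σ] (k : ℕ) (θ : σ → ℂ)
  (F : MvPolynomial (Fin k × Option σ) ℤ),
    (∀ W : Fin k → σ → ℂ, eval (fun p : Fin k × σ => W p.1 p.2) (th θ F) =
      ev (fun i => perp θ (W i)) F) ∧
    (th θ F).totalDegree ≤ F.totalDegree ∧
    (F.totalDegree = 0 → F ≠ 0 → 1 ≤ lenC (th θ F))

/-- C35 -/
def S_DegGrow : Prop := ∀ (σ : Type) [Fintype σ] (f : MvPolynomial σ ℂ) (E : ℕ) (B : ℝ),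
  (∀ (R : ℝ) (z : σ → ℂ), 1 ≤ R → (∀ i, ‖z i‖ ≤ R) → ‖eval z f‖ ≤ B * R ^ E) →
    f.totalDegree ≤ E

/-- C36 -/
def S_MetPt : Prop := ∀ (ι : Type) [Fintype ι] (k : ℕ) (F : MvPolynomial (Fin (k + 1) × ι) ℤ)
  (H : MvPolynomial (Fin k × ι) ℤ) (P : MvPolynomial ι ℤ) (δ d : ℕ), Rel F H P δ d →
    P.IsHomogeneous δ → d ≤ F.totalDegree →
      ∀ (R : ℝ) (w : Fin k → ι → ℂ), 1 ≤ R → (∀ i j, ‖w i j‖ ≤ R) →
        ‖ev w H‖ ≤ 4 ^ (Fintype.card ι * δ * F.totalDegree) * len F ^ δ * len P ^ d *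
          R ^ (δ * F.totalDegree)

/-- C37 -/
def S_MetH : Prop := ∀ (ι : Type) [Fintype ι] (k : ℕ), ∃ B : ℝ, 1 ≤ B ∧
  ∀ (F : MvPolynomial (Fin (k + 1) × ι) ℤ) (H : MvPolynomial (Fin k × ι) ℤ)
    (P : MvPolynomial ι ℤ) (δ d : ℕ), Rel F H P δ d → P.IsHomogeneous δ → d ≤ F.totalDegree →
      H.totalDegree ≤ δ * F.totalDegree ∧
      len H ≤ B ^ (δ * F.totalDegree) * len F ^ δ * len P ^ d

/-- C38 -/
def S_PEst : Prop := ∀ (σ : Type) [Fintype σ] (θ : σ → ℂ), ∃ B : ℝ, 1 ≤ B ∧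
  ∀ (δ : ℕ) (P : MvPolynomial (Option σ) ℤ) (V : ℝ) (ξ : Option σ → ℂ), 1 ≤ δ →
    P.IsHomogeneous δ → ‖aeval (hat θ) P‖ ≤ Real.exp (-V) →
      ‖aeval ξ P‖ ≤ B ^ δ * len P * max (Real.exp (-V) * (∑ o, ‖ξ o‖) ^ δ)
        ((∑ o, ‖ξ o‖) ^ (δ - 1) * ∑ j, ‖ξ (some j) - θ j * ξ none‖)

/-- C39 -/
def S_MetTh : Prop := ∀ (σ : Type) [Fintype σ] (k : ℕ) (θ : σ → ℂ), ∃ B : ℝ, 1 ≤ B ∧
  ∀ (F : MvPolynomial (Fin (k + 1) × Option σ) ℤ) (H : MvPolynomial (Fin k × Option σ) ℤ)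
    (P : MvPolynomial (Option σ) ℤ) (δ d : ℕ) (V : ℝ), Rel F H P δ d → P.IsHomogeneous δ →
      d ≤ F.totalDegree → 1 ≤ δ → 1 ≤ d → F ≠ 0 → P ≠ 0 → 0 ≤ V →
      ‖aeval (hat θ) P‖ ≤ Real.exp (-V) →
        lenC (th θ H) ≤ B ^ (δ * F.totalDegree) * len F ^ δ * len P ^ d *
          max (Real.exp (-V)) (lenC (th θ F))

/-- C40 -/
def S_Pick : Prop := ∀ (σ : Type) [Fintype σ] (k : ℕ), ∃ B : ℝ, 1 ≤ B ∧
  ∀ (θ : σ → ℂ) (H : MvPolynomial (Fin k × Option σ) ℤ) (c ρ : ℝ), H ≠ 0 → 0 ≤ c → 0 ≤ ρ →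
    lenC (th θ H) < 1 →
    lenC (th θ H) ≤ Real.exp (-(ρ * (Real.log (len H) + (c + B) * H.totalDegree) +
      B * H.totalDegree)) →
    ∃ G : MvPolynomial (Fin k × Option σ) ℤ, Irreducible G ∧ G ∣ H ∧ G.totalDegree ≠ 0 ∧
      lenC (th θ G) ≤ Real.exp (-(ρ * (Real.log (len G) + c * G.totalDegree))) ∧
      Real.log (len G) + c * G.totalDegree ≤ Real.log (len H) + (c + B) * H.totalDegree

/-- C41 -/
def S_CStep0 : Prop := ∀ (σ : Type) [Fintype σ] (k : ℕ) (θ : σ → ℂ) (c : ℝ), 1 ≤ c →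
  ∃ c' : ℝ, 1 ≤ c' ∧ ∀ (F : MvPolynomial (Fin (k + 1) × Option σ) ℤ)
    (u : Fin (k + 1) → Option σ → ℂ) (ζ : Option σ → ℂ), Dat F u ζ → Inv0 F →
    ∀ (X : ℕ) (V ρ : ℝ), 1 ≤ X → 3 ≤ ρ →
      ρ * (X : ℝ) ^ (k + 1) * (Real.log (len F) + c' * F.totalDegree) ≤ V →
      lenC (th θ F) ≤
        Real.exp (-(ρ * (X : ℝ) ^ (k + 1) * (Real.log (len F) + c' * F.totalDegree))) →
      ∀ P : MvPolynomial (Option σ) ℤ, P.IsHomogeneous X → len P ≤ Real.exp X →
        ‖aeval (hat θ) P‖ ≤ Real.exp (-V) → aeval ζ P ≠ 0 →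
        1 ≤ k ∧ ∃ (G : MvPolynomial (Fin k × Option σ) ℤ) (w : Fin k → Option σ → ℂ)
          (ζ' : Option σ → ℂ), Dat G w ζ' ∧
          (X : ℝ) ^ k * (Real.log (len G) + c * G.totalDegree) ≤
            (X : ℝ) ^ (k + 1) * (Real.log (len F) + c' * F.totalDegree) ∧
          lenC (th θ G) ≤
            Real.exp (-((ρ - 2) * (X : ℝ) ^ k * (Real.log (len G) + c * G.totalDegree)))

/-- C42 -/
def S_CStep : Prop := ∀ (σ : Type) [Fintype σ] (k : ℕ) (θ : σ → ℂ) (c : ℝ), 1 ≤ c →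
  ∃ c' : ℝ, 1 ≤ c' ∧ ∀ (F : MvPolynomial (Fin (k + 1) × Option σ) ℤ)
    (u : Fin (k + 1) → Option σ → ℂ) (ζ : Option σ → ℂ), Dat F u ζ →
    ∀ (X : ℕ) (V ρ : ℝ), 1 ≤ X → 3 ≤ ρ →
      ρ * (X : ℝ) ^ (k + 1) * (Real.log (len F) + c' * F.totalDegree) ≤ V →
      lenC (th θ F) ≤
        Real.exp (-(ρ * (X : ℝ) ^ (k + 1) * (Real.log (len F) + c' * F.totalDegree))) →
      ∀ P : MvPolynomial (Option σ) ℤ, P.IsHomogeneous X → len P ≤ Real.exp X →
        ‖aeval (hat θ) P‖ ≤ Real.exp (-V) → aeval ζ P ≠ 0 →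
        1 ≤ k ∧ ∃ (G : MvPolynomial (Fin k × Option σ) ℤ) (w : Fin k → Option σ → ℂ)
          (ζ' : Option σ → ℂ), Dat G w ζ' ∧
          (X : ℝ) ^ k * (Real.log (len G) + c * G.totalDegree) ≤
            (X : ℝ) ^ (k + 1) * (Real.log (len F) + c' * F.totalDegree) ∧
          lenC (th θ G) ≤
            Real.exp (-((ρ - 2) * (X : ℝ) ^ k * (Real.log (len G) + c * G.totalDegree)))

/-- C43 -/
def S_Desc : Prop := ∀ (σ : Type) [Fintype σ] (k : ℕ) (θ : σ → ℂ),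
  ∃ c : ℝ, 1 ≤ c ∧ ∀ (F : MvPolynomial (Fin (k + 1) × Option σ) ℤ)
    (u : Fin (k + 1) → Option σ → ℂ) (ζ : Option σ → ℂ), Dat F u ζ →
    ∀ (X : ℕ) (V ρ : ℝ), 1 ≤ X → 2 * (k : ℝ) + 3 ≤ ρ →
      ρ * (X : ℝ) ^ (k + 1) * (Real.log (len F) + c * F.totalDegree) ≤ V →
      lenC (th θ F) ≤
        Real.exp (-(ρ * (X : ℝ) ^ (k + 1) * (Real.log (len F) + c * F.totalDegree))) →
      ∀ PP : Set (MvPolynomial (Option σ) ℤ),
        (∀ P ∈ PP, P.IsHomogeneous X ∧ len P ≤ Real.exp X ∧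
          ‖aeval (hat θ) P‖ ≤ Real.exp (-V)) →
        ∃ (k' : ℕ) (G : MvPolynomial (Fin (k' + 1) × Option σ) ℤ)
          (w : Fin (k' + 1) → Option σ → ℂ) (ζ' : Option σ → ℂ), Dat G w ζ' ∧ k' ≤ k ∧
          (∀ P ∈ PP, aeval ζ' P = 0) ∧
          lenC (th θ G) ≤
            Real.exp (-((ρ - 2 * k) * (X : ℝ) ^ (k' + 1) * G.totalDegree))

/-- C44 -/
def S_FarMove : Prop := ∀ (σ : Type) [Fintype σ] (k : ℕ) (θ : σ → ℂ), ∃ B : ℝ, 1 ≤ B ∧
  ∀ (F : MvPolynomial (Fin k × Option σ) ℤ) (u : Fin k → Option σ → ℂ) (ζ : Option σ → ℂ),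
    Dat F u ζ → ∀ R : ℝ, 0 < R → R ≤ 1 →
    (∀ ξ : Option σ → ℂ, ξ ≠ 0 → On ζ ξ →
      R * ∑ o, ‖ξ o‖ ≤ ∑ j, ‖ξ (some j) - θ j * ξ none‖) →
    ∀ (i0 : Fin k) (w : Fin k → Option σ → ℂ), (∀ o, ‖w i0 o‖ ≤ 1) →
      ∃ W : σ → ℂ, (∀ j, ‖W j‖ ≤ 1) ∧
        ‖ev w F‖ ≤ (B / R) ^ F.totalDegree * ‖ev (Function.update w i0 (perp θ W)) F‖

/-- C45 -/
def S_Far : Prop := ∀ (σ : Type) [Fintype σ] (k : ℕ) (θ : σ → ℂ), ∃ B : ℝ, 1 ≤ B ∧
  ∀ (F : MvPolynomial (Fin k × Option σ) ℤ) (u : Fin k → Option σ → ℂ) (ζ : Option σ → ℂ),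
    Dat F u ζ → ∀ R : ℝ, 0 < R → R ≤ 1 →
    (∀ ξ : Option σ → ℂ, ξ ≠ 0 → On ζ ξ →
      R * ∑ o, ‖ξ o‖ ≤ ∑ j, ‖ξ (some j) - θ j * ξ none‖) →
      (R / B) ^ (k * F.totalDegree) ≤ lenC (th θ F)

/-- C46 -/
def S_Hom : Prop := ∀ (σ : Type) [Fintype σ] (X : ℕ) (P : MvPolynomial σ ℤ), P.totalDegree ≤ X →
  (hom X P).IsHomogeneous X ∧ len (hom X P) ≤ len P ∧
    (∀ θ : σ → ℂ, aeval (hat θ) (hom X P) = aeval θ P) ∧
    (∀ ξ : Option σ → ℂ, ξ none ≠ 0 → aeval ξ (hom X P) = 0 →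
      aeval (fun j => ξ (some j) / ξ none) P = 0)

end Pool.Agent.Work.MP_327059_nt.GL

end

section

/-!
# PART G: statements of the items
-/

set_option autoImplicit false

namespace Pool.Agent.Work.MP_327059_nt.GL

/-- G01: spaces stable under a set of derivations are spanned by constant vectors -/
def S_Stab : Prop := ∀ (m : ℕ) (W : Submodule ℂ (Fin m → ℂ)) (DS : Set (Derivation ℚ ℂ ℂ)),
  (∀ D ∈ DS, ∀ a ∈ W, (fun j => D (a j)) ∈ W) →
    ∀ a ∈ W, a ∈ Submodule.span ℂ {e : Fin m → ℂ | e ∈ W ∧ ∀ j, ∀ D ∈ DS, D (e j) = 0}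

/-- G02: residue lemma -/
def S_AxKey : Prop := ∀ (n m : ℕ) (y : Fin n → Fin m → ℂ) (v : Fin n → ℂ)
  (E : IntermediateField ℚ ℂ), IsAlgClosed E → (∀ i, v i ∈ E) → (∀ i j, y i j ≠ 0) →
  ∀ a : Fin m → ℂ, (∀ j, a j ∈ E) →
    (∀ δ : Derivation ℚ ℂ ℂ, (∀ e ∈ E, δ e = 0) →
      ∑ j, a j * ∑ i, v i * (δ (y i j) / y i j) = 0) →
    ∀ b : Fin n → Fin m → ℂ, (∀ ξ, mon y ξ ∈ E → ∑ i, ∑ j, (ξ i j : ℂ) * b i j = 0) →
      ∑ j, a j * ∑ i, v i * b i j = 0

/-- G03: image of the derivations killing `E` -/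
def S_AxImg : Prop := ∀ (n m : ℕ) (x : Fin n → ℂ) (y : Fin n → Fin m → ℂ) (v : Fin n → ℂ)
  (E : IntermediateField ℚ ℂ), (∀ i j, y i j ≠ 0) →
  (∀ c : ℂ, c ∈ E ↔ ∀ δ ∈ TT v, om x y v δ = 0 → δ c = 0) →
    ∀ b : Fin n → Fin m → ℂ, (∀ ξ, mon y ξ ∈ E → ∑ i, ∑ j, (ξ i j : ℂ) * b i j = 0) →
      ∃ δ : Derivation ℚ ℂ ℂ, (∀ e ∈ E, δ e = 0) ∧
        om x y v δ = fun o => o.elim 0 (mv v b)

/-- G04: the output of the Ax type argument -/
def S_AxOut : Prop := ∀ (n m : ℕ) (x : Fin n → ℂ) (y : Fin n → Fin m → ℂ) (v : Fin n → ℂ),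
  (∀ i j, y i j ≠ 0) → ∃ G : AddSubgroup (Fin n → Fin m → ℤ),
    ∀ (k : ℕ) (f : Fin k → ℂ),
      (∀ t, f t = ∑ i, v i * x i ∨ ∃ ξ ∈ G, f t = mon y ξ) →
      AlgebraicIndependent (IntermediateField.adjoin ℚ (Set.range v)) f →
        k + ug G v ≤ rk x y v

/-- G05: derivations preserving an algebraically closed subfield -/
def S_DerPres : Prop := ∀ (S : Set ℂ) (F : IntermediateField ℚ ℂ), IsAlgClosed F → S ⊆ F →
  ∀ δ : Derivation ℚ ℂ ℂ, (∀ s ∈ S, δ s ∈ F) →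
    ∀ f : ℂ, IsAlgebraic (IntermediateField.adjoin ℚ S) f → δ f ∈ F

/-- G06: a generic combination of the `x_i` algebraic over `ℚ(v, B)` -/
def S_GenComb : Prop := ∀ (n : ℕ) (x : Fin n → ℂ) (Y : Set ℂ) (v : Fin n → ℂ),
  AlgebraicIndependent (IntermediateField.adjoin ℚ (Set.range x ∪ Y)) v →
    IsAlgebraic (IntermediateField.adjoin ℚ (Set.range v ∪ Y)) (∑ i, v i * x i) →
      ∀ i, IsAlgebraic (IntermediateField.adjoin ℚ Y) (x i)

/-- G07: the two cases -/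
def S_Cases : Prop := ∀ (n : ℕ) (x : Fin n → ℂ) (Y : Set ℂ) (v : Fin n → ℂ) (N : ℕ),
  AlgebraicIndependent (IntermediateField.adjoin ℚ (Set.range x ∪ Y)) v →
  (∀ (k : ℕ) (f : Fin k → ℂ), (∀ t, f t = ∑ i, v i * x i ∨ f t ∈ Y) →
    AlgebraicIndependent (IntermediateField.adjoin ℚ (Set.range v)) f → k ≤ N) →
  (∀ (k : ℕ) (f : Fin k → ℂ), (∀ t, IsAlgebraic (IntermediateField.adjoin ℚ Y) (f t)) →
    AlgebraicIndependent ℚ f → k + 1 ≤ N) ∨
  (∀ (k : ℕ) (f : Fin k → ℂ),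
    (∀ t, IsAlgebraic (IntermediateField.adjoin ℚ (Set.range x ∪ Y)) (f t)) →
    AlgebraicIndependent ℚ f → k ≤ N)

/-- G08: the generic rank is attained at rational points -/
def S_GenRank : Prop := ∀ (n m : ℕ) (B : Submodule ℚ (Fin n → Fin m → ℚ)) (v : Fin n → ℂ),
  AlgebraicIndependent ℚ v → ∀ u : ℕ,
  Module.finrank ℂ ((Submodule.span ℂ
    {b : Fin n → Fin m → ℂ | ∃ b0 ∈ B, b = fun i j => (b0 i j : ℂ)}).map (mv v)) = u →
    (∃ v0 : Fin n → ℚ, Module.finrank ℚ (B.map (mv v0)) = u) ∧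
    ∀ w : Fin n → ℚ, Module.finrank ℚ (B.map (mv w)) ≤ u

/-- G09: elements killing a point of maximal rank -/
def S_RankInc : Prop := ∀ (n m : ℕ) (B : Submodule ℚ (Fin n → Fin m → ℚ)) (v0 : Fin n → ℚ),
  (∀ w : Fin n → ℚ, Module.finrank ℚ (B.map (mv w)) ≤ Module.finrank ℚ (B.map (mv v0))) →
    ∀ b ∈ B, mv v0 b = 0 → ∀ w : Fin n → ℚ, mv w b ∈ B.map (mv v0)

/-- G10: the complex annihilator is defined over `ℚ` -/
def S_AnnExt : Prop := ∀ (n m : ℕ) (G : AddSubgroup (Fin n → Fin m → ℤ)),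
  annC G = Submodule.span ℂ
    {b : Fin n → Fin m → ℂ | ∃ b0 ∈ annQ G, b = fun i j => (b0 i j : ℂ)}

/-- G11: double annihilator -/
def S_DoubleAnn : Prop := ∀ (n m : ℕ) (G : AddSubgroup (Fin n → Fin m → ℤ))
  (z : Fin n → Fin m → ℚ), (∀ b ∈ annQ G, ∑ i, ∑ j, z i j * b i j = 0) →
    ∃ N : ℕ, N ≠ 0 ∧ ∃ ξ ∈ G, ∀ i j, (ξ i j : ℚ) = N * z i j

/-- G12: linear algebra -/
def S_LinAlg : Prop := ∀ (n m : ℕ) (G : AddSubgroup (Fin n → Fin m → ℤ)) (v : Fin n → ℂ),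
  AlgebraicIndependent ℚ v →
    ∃ (Cs : Submodule ℚ (Fin m → ℚ)) (Vs : Submodule ℚ (Fin n → ℚ)),
      m ≤ Module.finrank ℚ Cs + ug G v ∧ n ≤ Module.finrank ℚ Vs + m * m ∧
      ∀ c ∈ Cs, ∀ w ∈ Vs, ∃ N : ℕ, N ≠ 0 ∧ ∃ ξ ∈ G, ∀ i j, (ξ i j : ℚ) = N * (w i * c j)

/-- G13: maximal rank for logarithms -/
def S_GCore : Prop := ∀ d : ℕ, 2 ≤ d → ∃ n₀ : ℕ, ∀ β : ℂ, IsAlgebraic ℚ β →
  (minpoly ℚ β).natDegree = d → ∀ n : ℕ, n₀ ≤ n → ∀ l : Fin n → ℂ, LinearIndependent ℚ l →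
    (∀ i, IsAlgebraic ℚ (Complex.exp (l i))) →
      ∃ v : Fin n → ℂ,
        rk l (fun i (j : Fin (d - 1)) => Complex.exp (β ^ ((j : ℕ) + 1) * l i)) v = d

/-- G14: from maximal rank to algebraic independence at rational points -/
def S_GP : Prop := ∀ (n m : ℕ) (x : Fin n → ℂ) (b : Fin m → ℂ) (v : Fin n → ℂ),
  rk x (fun i j => Complex.exp (b j * x i)) v = m + 1 →
    ∃ P : MvPolynomial (Fin n) ℂ, P ≠ 0 ∧ P.IsHomogeneous (m + 1) ∧
      ∀ w : Fin n → ℚ, MvPolynomial.eval (fun i => (w i : ℂ)) P ≠ 0 →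
        AlgebraicIndependent ℚ (fun o : Option (Fin m) =>
          o.elim (∑ i, (w i : ℂ) * x i) (fun j => Complex.exp (b j * ∑ i, (w i : ℂ) * x i)))

end Pool.Agent.Work.MP_327059_nt.GL

end

section

/-!
# The groups `>= 1` of a datum are algebraically independent
-/

set_option autoImplicit false

namespace Pool.Agent.Work.MP_327059_nt.GL

open MvPolynomial

theorem pr_AI (h1 : S_AIZ) : S_AI := by
  classical
  intro ι _ k F u ζ hD hI
  rw [h1]
  intro G hG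
  have hinj : Function.Injective (fun p : Fin k × ι => ((p.1.succ, p.2) : Fin (k + 1) × ι)) := by
    rintro ⟨a, b⟩ ⟨c, d⟩ h
    simp only [Prod.mk.injEq, Fin.succ_inj] at h
    exact Prod.ext h.1 h.2
  by_contra hG0
  have hR0 : rename (fun p : Fin k × ι => ((p.1.succ, p.2) : Fin (k + 1) × ι)) G ≠ 0 := by
    intro h
    apply hG0
    exact rename_injective _ hinj (by rw [h, map_zero])
  have hev : ev u (rename (fun p : Fin k × ι => ((p.1.succ, p.2) : Fin (k + 1) × ι)) G) = 0 := by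
    rw [ev, aeval_rename]
    exact hG
  obtain ⟨Q, hQ⟩ := (hD.2.2.2.1 _).1 hev
  obtain ⟨j, hj⟩ := hI
  have hdeg : (rename (fun p : Fin k × ι => ((p.1.succ, p.2) : Fin (k + 1) × ι)) G).degreeOf (0, j)
      = 0 := by
    by_contra hne
    have hmem := mem_vars_iff_degreeOf_ne_zero.2 hne
    have hmem2 := vars_rename _ _ hmem
    rw [Finset.mem_image] at hmem2
    obtain ⟨p, -, hp⟩ := hmem2
    have := congrArg Prod.fst hp
    exact Fin.succ_ne_zero _ this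
  have hF0 : F ≠ 0 := hD.1.ne_zero
  have hQ0 : Q ≠ 0 := by
    rintro rfl
    exact hR0 (by rw [hQ, mul_zero])
  rw [hQ, degreeOf_mul_eq hF0 hQ0] at hdeg
  exact hj (by omega)

end Pool.Agent.Work.MP_327059_nt.GL

end

section

/-!
# Item AIZ: algebraic independence over `ℚ` tested with integer polynomials
-/

set_option autoImplicit false

namespace Pool.Agent.Work.MP_327059_nt.GL

open MvPolynomial

theorem pr_AIZ : S_AIZ := by
  intro n y
  have : Algebra.IsAlgebraic ℤ ℚ := IsLocalization.isAlgebraic ℚ (nonZeroDivisors ℤ)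
  rw [← Algebra.IsAlgebraic.algebraicIndependent_iff ℤ ℚ, algebraicIndependent_iff]

end Pool.Agent.Work.MP_327059_nt.GL

end

section

/-!
# C42: one step of the descent, any group
-/

set_option autoImplicit false

namespace Pool.Agent.Work.MP_327059_nt.GL

open MvPolynomial

/-- A polynomial which vanishes at `u` and generates its relations involves some variable. -/
theorem cStep_exists_var {ι : Type} [Fintype ι] {k : ℕ} (F : MvPolynomial (Fin k × ι) ℤ)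
    (u : Fin k → ι → ℂ) (ζ : ι → ℂ) (h : Dat F u ζ) : ∃ i j, F.degreeOf (i, j) ≠ 0 := by
  classical
  by_contra hc
  push Not at hc
  have h0 : F.totalDegree = 0 := by
    apply Nat.eq_zero_of_le_zero
    rw [MvPolynomial.totalDegree]
    refine Finset.sup_le fun m hm => ?_
    have : ∀ p, m p = 0 := by
      rintro ⟨i, j⟩
      have h1 := monomial_le_degreeOf (i, j) hm
      rw [hc i j] at h1
      exact Nat.eq_zero_of_le_zero h1
    rw [Finsupp.sum]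
    rw [Finset.sum_eq_zero fun p _ => this p]
  rw [totalDegree_eq_zero_iff_eq_C] at h0
  obtain ⟨hirr, _, _, hrel, _⟩ := h
  have h1 : ev u F = 0 := (hrel F).2 dvd_rfl
  rw [h0, ev, aeval_C] at h1
  have h2 : F.coeff 0 = 0 := by
    have h3 : ((F.coeff 0 : ℤ) : ℂ) = 0 := by simpa using h1
    exact_mod_cast h3
  rw [h2, C_0] at h0
  exact hirr.ne_zero h0

/-- C42 -/
theorem pr_CStep (h1 : S_CStep0) (h2 : S_PermD) (h3 : S_PermM) : S_CStep := by
  classical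
  intro σ _ k θ c hc
  obtain ⟨c', hc', H⟩ := h1 σ k θ c hc
  refine ⟨c', hc', ?_⟩
  intro F u ζ hD X V ρ hX hρ hV hth P hP hlen hval hne
  obtain ⟨i0, j, hij⟩ := cStep_exists_var F u ζ hD
  have hD' := h2 (Option σ) (k + 1) F u ζ (Equiv.swap i0 0) hD
  obtain ⟨e1, e2, e3, e4⟩ := h3 σ (k + 1) F (Equiv.swap i0 0) θ
  have hI : Inv0 (rename (fun p : Fin (k + 1) × Option σ => ((Equiv.swap i0 0) p.1, p.2)) F) := by
    refine ⟨j, ?_⟩
    have := e4 i0 j
    rw [Equiv.swap_apply_left] at this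
    rw [this]
    exact hij
  have H' := H _ _ ζ hD' hI X V ρ hX hρ
  rw [e1, e2, e3] at H'
  exact H' hV hth P hP hlen hval hne

end Pool.Agent.Work.MP_327059_nt.GL

end

section

/-!
# PART C, item C41 (CStep0): one step of the descent
-/

set_option autoImplicit false

namespace Pool.Agent.Work.MP_327059_nt.GL

open MvPolynomial

theorem pr_CStep0 (h1 : S_Spec0) (h2 : S_StepAlg) (h3 : S_MetH) (h4 : S_MetTh) (h5 : S_Pick)
    (h6 : S_LenEv) (h7 : S_ThEv) : S_CStep0 := by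
  classical
  obtain ⟨-, -, hLE3, -⟩ := h6
  intro σ _ k θ c hc
  obtain ⟨B3, hB3, h3⟩ := h3 (Option σ) k
  obtain ⟨B4, hB4, h4⟩ := h4 σ k θ
  obtain ⟨B2, hB2, h5⟩ := h5 σ k
  set B1 : ℝ := max B3 B4 with hB1def
  have hB1 : 1 ≤ B1 := hB3.trans (le_max_left _ _)
  have hb0 : 0 ≤ Real.log B1 := Real.log_nonneg hB1
  set b : ℝ := Real.log B1 with hb
  refine ⟨1 + b + c + B2, by linarith, ?_⟩
  set c' : ℝ := 1 + b + c + B2 with hc'
  intro F u ζ hDat hInv X V ρ hX hρ hV hF P hP hlenP hPV hζP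
  set D : ℕ := F.totalDegree with hD
  have hD1 : 1 ≤ D := by
    obtain ⟨j, hj⟩ := hInv
    have : F.degreeOf (0, j) ≤ F.totalDegree := degreeOf_le_totalDegree F (0, j)
    omega
  have hF0 : F ≠ 0 := hDat.1.ne_zero
  have hlenF : 1 ≤ len F := hLE3 _ F hF0
  set lam : ℝ := Real.log (len F) with hlam
  have hlam0 : 0 ≤ lam := Real.log_nonneg hlenF
  have hP0 : P ≠ 0 := by
    rintro rfl; simp at hζP
  have hlenP1 : 1 ≤ len P := hLE3 _ P hP0
  obtain ⟨d, hdD, hd1, hS⟩ := h1 (Option σ) k F u ζ hDat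
  have hd1 := hd1 hInv
  obtain ⟨H, hH0, hH⟩ := hS X P hP
  have hH0 := hH0 hζP
  have hRel : Rel F H P X d := by
    intro w
    obtain ⟨a, ξ, -, h2, h3⟩ := hH w
    exact ⟨a, ξ, h2, h3⟩
  have hlenH1 : 1 ≤ len H := hLE3 _ H hH0
  obtain ⟨hdegH, hlenH⟩ := h3 F H P X d hRel hP hdD
  have hXr : (1 : ℝ) ≤ X := by exact_mod_cast hX
  have hDr : (1 : ℝ) ≤ D := by exact_mod_cast hD1
  have hdDr : (d : ℝ) ≤ D := by exact_mod_cast hdD
  have hXk : (1 : ℝ) ≤ (X : ℝ) ^ k := one_le_pow₀ hXr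
  -- the common bound
  have hexp : ∀ B : ℝ, 1 ≤ B → B ≤ B1 →
      B ^ (X * D) * len F ^ X * len P ^ d ≤ Real.exp (X * (lam + (1 + b) * D)) := by
    intro B hB hBB
    have e1 : B ^ (X * D) ≤ Real.exp (b * (X * D)) := by
      have : Real.exp (b * (X * D)) = B1 ^ (X * D) := by
        rw [hb, mul_comm, ← Nat.cast_mul, Real.exp_nat_mul, Real.exp_log (by linarith)]
      rw [this]
      exact pow_le_pow_left₀ (by linarith) hBB _
    have e2 : len F ^ X = Real.exp (lam * X) := by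
      rw [hlam, mul_comm, Real.exp_nat_mul, Real.exp_log (by linarith)]
    have e3 : len P ^ d ≤ Real.exp (X * d) := by
      rw [mul_comm, Real.exp_nat_mul]
      exact pow_le_pow_left₀ (by linarith) hlenP _
    calc B ^ (X * D) * len F ^ X * len P ^ d
        ≤ Real.exp (b * (X * D)) * Real.exp (lam * X) * Real.exp (X * d) := by
          rw [e2]; gcongr
      _ = Real.exp (b * (X * D) + lam * X + X * d) := by rw [Real.exp_add, Real.exp_add]
      _ ≤ _ := by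
          apply Real.exp_le_exp.mpr
          nlinarith [mul_le_mul_of_nonneg_left hdDr (by linarith : (0 : ℝ) ≤ X)]
  have hlogH : Real.log (len H) ≤ X * (lam + (1 + b) * D) := by
    rw [Real.log_le_iff_le_exp (by linarith)]
    exact hlenH.trans (hexp B3 hB3 (le_max_left _ _))
  set A : ℝ := (X : ℝ) ^ (k + 1) * (lam + c' * D) with hA
  have hc'0 : 1 ≤ c' := by rw [hc']; linarith
  have hcD : 1 ≤ c' * D := one_le_mul_of_one_le_of_one_le hc'0 hDr
  have hXk1 : (X : ℝ) ^ (k + 1) = X ^ k * X := pow_succ _ _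
  have hXX : (X : ℝ) ≤ (X : ℝ) ^ (k + 1) := by
    rw [hXk1]; exact le_mul_of_one_le_left (by linarith) hXk
  have hA1 : 1 ≤ A := by
    rw [hA]
    exact one_le_mul_of_one_le_of_one_le (one_le_pow₀ hXr) (by linarith)
  have hA2 : X * (lam + (1 + b) * D) ≤ A := by
    rw [hA]
    refine mul_le_mul hXX ?_ (by positivity) (by positivity)
    rw [hc']
    have : (0 : ℝ) ≤ D := by linarith
    nlinarith [mul_nonneg (by linarith : (0 : ℝ) ≤ c + B2) this]
  have hVA : ρ * A ≤ V := by rw [hA, ← mul_assoc]; exact hV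
  have hV0 : 0 ≤ V := le_trans (by nlinarith) hVA
  have hmax : max (Real.exp (-V)) (lenC (th θ F)) ≤ Real.exp (-(ρ * A)) := by
    refine max_le (Real.exp_le_exp.mpr (by linarith)) ?_
    rw [hA, ← mul_assoc]; exact hF
  have hT := h4 F H P X d V hRel hP hdD hX hd1 hF0 hP0 hV0 hPV
  have hTH : lenC (th θ H) ≤ Real.exp (-((ρ - 1) * A)) := by
    refine hT.trans ?_
    have hm0 : 0 ≤ max (Real.exp (-V)) (lenC (th θ F)) := le_max_of_le_left (Real.exp_pos _).le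
    calc B4 ^ (X * D) * len F ^ X * len P ^ d * max (Real.exp (-V)) (lenC (th θ F))
        ≤ Real.exp (X * (lam + (1 + b) * D)) * Real.exp (-(ρ * A)) :=
          mul_le_mul (hexp B4 hB4 (le_max_right _ _)) hmax hm0 (Real.exp_pos _).le
      _ = Real.exp (X * (lam + (1 + b) * D) + -(ρ * A)) := by rw [Real.exp_add]
      _ ≤ _ := Real.exp_le_exp.mpr (by linarith)
  have hTH1 : lenC (th θ H) < 1 := by
    refine hTH.trans_lt ?_
    rw [Real.exp_lt_one_iff]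
    nlinarith
  have hk : 1 ≤ k := by
    by_contra hk
    have hk0 : k = 0 := by omega
    subst hk0
    have hdeg0 : H.totalDegree = 0 := by
      rw [totalDegree_eq_zero_iff]
      intro m _ x
      exact x.1.elim0
    have := (h7 σ 0 θ H).2.2 hdeg0 hH0
    linarith
  refine ⟨hk, ?_⟩
  set DH : ℕ := H.totalDegree with hDH
  have hDHr : (DH : ℝ) ≤ X * D := by exact_mod_cast hdegH
  have hDH0 : (0 : ℝ) ≤ DH := Nat.cast_nonneg _
  have hsum : Real.log (len H) + (c + B2) * DH ≤ X * (lam + c' * D) := by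
    have : (c + B2) * (DH : ℝ) ≤ (c + B2) * (X * D) :=
      mul_le_mul_of_nonneg_left hDHr (by linarith)
    rw [hc']
    nlinarith
  have hρP : 0 ≤ (ρ - 2) * (X : ℝ) ^ k := mul_nonneg (by linarith) (by linarith)
  obtain ⟨G, hGirr, hGH, hGdeg, hGT, hGl⟩ := h5 θ H c ((ρ - 2) * (X : ℝ) ^ k) hH0 (by linarith)
    hρP hTH1 (by
      refine hTH.trans (Real.exp_le_exp.mpr (neg_le_neg ?_))
      have e1 : (ρ - 2) * (X : ℝ) ^ k * (Real.log (len H) + (c + B2) * DH) ≤ (ρ - 2) * A := by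
        calc (ρ - 2) * (X : ℝ) ^ k * (Real.log (len H) + (c + B2) * DH)
            ≤ (ρ - 2) * (X : ℝ) ^ k * (X * (lam + c' * D)) :=
              mul_le_mul_of_nonneg_left hsum hρP
          _ = (ρ - 2) * A := by rw [hA, hXk1]; ring
      have e2 : B2 * (DH : ℝ) ≤ A := by
        calc B2 * (DH : ℝ) ≤ B2 * (X * D) := mul_le_mul_of_nonneg_left hDHr (by linarith)
          _ = X * (B2 * D) := by ring
          _ ≤ (X : ℝ) ^ (k + 1) * (lam + c' * D) := by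
              refine mul_le_mul hXX ?_ (by positivity) (by positivity)
              rw [hc']
              have : (0 : ℝ) ≤ D := by linarith
              nlinarith [mul_nonneg (by linarith : (0 : ℝ) ≤ 1 + b + c) this]
      linarith)
  obtain ⟨w, ζ', hDG⟩ := h2 (Option σ) k F u ζ hDat hInv d X P H hP hζP hH G hGirr hGH hGdeg
  refine ⟨G, w, ζ', hDG, ?_, ?_⟩
  · calc (X : ℝ) ^ k * (Real.log (len G) + c * G.totalDegree)
        ≤ (X : ℝ) ^ k * (X * (lam + c' * D)) :=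
          mul_le_mul_of_nonneg_left (hGl.trans hsum) (by positivity)
      _ = (X : ℝ) ^ (k + 1) * (lam + c' * D) := by rw [hXk1]; ring
  · exact hGT

end Pool.Agent.Work.MP_327059_nt.GL

end

section

/-!
# Item Clos
-/

set_option autoImplicit false

namespace Pool.Agent.Work.MP_327059_nt.GL

open MvPolynomial Filter Topology

lemma Clos_cont {σ X : Type} [TopologicalSpace X] (p : MvPolynomial σ ℤ) (f : X → σ → ℂ)
    (hf : Continuous f) : Continuous fun x => aeval (f x) p := by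
  have h : ∀ x, aeval (f x) p = eval (f x) (map (algebraMap ℤ ℂ) p) := by
    intro x
    rw [aeval_def, eval_map]
  simp_rw [h]
  exact (MvPolynomial.continuous_eval _).comp hf

lemma Clos_hom {ι : Type} (P : MvPolynomial ι ℤ) (δ : ℕ) (hP : P.IsHomogeneous δ) (c : ℂ)
    (ξ : ι → ℂ) : aeval (c • ξ) P = c ^ δ * aeval ξ P := by
  rw [aeval_def, aeval_def, eval₂_eq, eval₂_eq, Finset.mul_sum]
  refine Finset.sum_congr rfl fun m hm => ?_
  have hd : m.sum (fun _ e => e) = δ := by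
    have := hP (mem_support_iff.1 hm)
    rw [← this]
    simp [Finsupp.weight_apply]
  have : ∏ i ∈ m.support, (c • ξ) i ^ m i = c ^ δ * ∏ i ∈ m.support, ξ i ^ m i := by
    simp only [Pi.smul_apply, smul_eq_mul, mul_pow, Finset.prod_mul_distrib]
    rw [Finset.prod_pow_eq_pow_sum]
    congr 2
  rw [this]
  ring

/-- the normalised data at an algebraically independent point -/
lemma Clos_norm {ι n : Type} [Fintype ι] (F : MvPolynomial (ι ⊕ n) ℤ)
    (H : MvPolynomial n ℤ) (P : MvPolynomial ι ℤ) (δ d : ℕ) (GG : Set (MvPolynomial (ι ⊕ n) ℤ))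
    (hP : P.IsHomogeneous δ) (hG : ∀ g ∈ GG, ∃ m, HomL m g) (w : n → ℂ)
    (h : ∃ (a : ℂ) (ξ : Fin d → ι → ℂ),
      (∀ t, ξ t ≠ 0 ∧ ∀ g ∈ GG, aeval (Sum.elim (ξ t) w) g = 0) ∧
      (∀ U : ι → ℂ, aeval (Sum.elim U w) F = a * ∏ t, ∑ j, U j * ξ t j) ∧
      aeval w H = a ^ δ * ∏ t, aeval (ξ t) P) :
    ∃ (a : ℂ) (ξ : Fin d → ι → ℂ),
      (∀ t, ∑ j, ‖ξ t j‖ = 1) ∧ (∀ t, ∀ g ∈ GG, aeval (Sum.elim (ξ t) w) g = 0) ∧
      (∀ U : ι → ℂ, aeval (Sum.elim U w) F = a * ∏ t, ∑ j, U j * ξ t j) ∧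
      aeval w H = a ^ δ * ∏ t, aeval (ξ t) P := by
  obtain ⟨a, ξ, h1, h2, h3⟩ := h
  have hc : ∀ t, 0 < ∑ j, ‖ξ t j‖ := by
    intro t
    have hne := (h1 t).1
    obtain ⟨j, hj⟩ := Function.ne_iff.1 hne
    have : 0 < ‖ξ t j‖ := norm_pos_iff.2 hj
    exact this.trans_le (Finset.single_le_sum (f := fun j => ‖ξ t j‖)
      (fun _ _ => norm_nonneg _) (Finset.mem_univ j))
  have hc0 : ∀ t, ((∑ j, ‖ξ t j‖ : ℝ) : ℂ) ≠ 0 := fun t => by
    exact_mod_cast (hc t).ne'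
  refine ⟨a * ∏ t, ((∑ j, ‖ξ t j‖ : ℝ) : ℂ),
    fun t => ((∑ j, ‖ξ t j‖ : ℝ) : ℂ)⁻¹ • ξ t, ?_, ?_, ?_, ?_⟩
  · intro t
    simp only [Pi.smul_apply, smul_eq_mul, norm_mul, norm_inv, Complex.norm_real, Real.norm_eq_abs,
      abs_of_pos (hc t)]
    rw [← Finset.mul_sum, inv_mul_cancel₀ (hc t).ne']
  · intro t g hg
    obtain ⟨m, hm⟩ := hG g hg
    rw [hm, (h1 t).2 g hg, mul_zero]
  · intro U
    rw [h2 U, mul_assoc, ← Finset.prod_mul_distrib]
    congr 1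
    refine Finset.prod_congr rfl fun t _ => ?_
    rw [Finset.mul_sum]
    refine Finset.sum_congr rfl fun j _ => ?_
    simp only [Pi.smul_apply, smul_eq_mul]
    have := hc0 t
    field_simp
  · rw [h3, mul_pow, mul_assoc, ← Finset.prod_pow, ← Finset.prod_mul_distrib]
    congr 1
    refine Finset.prod_congr rfl fun t _ => ?_
    rw [Clos_hom P δ hP, ← mul_assoc, ← mul_pow, mul_inv_cancel₀ (hc0 t), one_pow, one_mul]

theorem pr_Clos (h1 : S_LIN) (h2 : S_DenseK) (h3 : S_LenEv) : S_Clos := by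
  intro ι n _ _ F H P δ d GG hP hG hgen w
  -- approximating points
  have hap : ∀ N : ℕ, ∃ w' : n → ℂ, AlgebraicIndependent ℚ w' ∧
      ∀ i, ‖w' i - w i‖ < 1 / ((N : ℝ) + 1) := by
    intro N
    obtain ⟨w', h4, h5⟩ := h2 n ∅ Set.countable_empty w (1 / ((N : ℝ) + 1)) (by positivity)
    refine ⟨w', ?_, h5⟩
    exact h4.restrictScalars (algebraMap ℚ (IntermediateField.adjoin ℚ (∅ : Set ℂ))).injective
  choose W hW1 hW2 using hap
  have hn : ∀ N : ℕ, ∃ (a : ℂ) (ξ : Fin d → ι → ℂ),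
      (∀ t, ∑ j, ‖ξ t j‖ = 1) ∧ (∀ t, ∀ g ∈ GG, aeval (Sum.elim (ξ t) (W N)) g = 0) ∧
      (∀ U : ι → ℂ, aeval (Sum.elim U (W N)) F = a * ∏ t, ∑ j, U j * ξ t j) ∧
      aeval (W N) H = a ^ δ * ∏ t, aeval (ξ t) P := fun N =>
    Clos_norm F H P δ d GG hP hG (W N) (hgen (W N) (hW1 N))
  choose a ξ k1 k2 k3 k4 using hn
  -- the points converge
  have hWt : Tendsto W atTop (𝓝 w) := by
    rw [tendsto_pi_nhds]
    intro i
    rw [tendsto_iff_norm_sub_tendsto_zero]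
    refine squeeze_zero (fun _ => norm_nonneg _) (fun N => (hW2 N i).le) ?_
    exact tendsto_one_div_add_atTop_nhds_zero_nat
  -- bound
  obtain ⟨R, hR1, hR⟩ : ∃ R : ℝ, 1 ≤ R ∧ ∀ N i, ‖W N i‖ ≤ R := by
    refine ⟨1 + ∑ i, ‖w i‖, ?_, ?_⟩
    · have : 0 ≤ ∑ i, ‖w i‖ := Finset.sum_nonneg fun _ _ => norm_nonneg _
      linarith
    · intro N i
      have e1 : ‖W N i‖ ≤ ‖W N i - w i‖ + ‖w i‖ := by
        simpa using norm_add_le (W N i - w i) (w i)
      have e2 : ‖w i‖ ≤ ∑ i, ‖w i‖ := Finset.single_le_sum (f := fun i => ‖w i‖)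
        (fun _ _ => norm_nonneg _) (Finset.mem_univ i)
      have e3 : (1 : ℝ) / ((N : ℝ) + 1) ≤ 1 := by
        rw [div_le_one (by positivity)]
        have : (0 : ℝ) ≤ N := Nat.cast_nonneg N
        linarith
      have e4 := (hW2 N i).le
      linarith
  obtain ⟨B, hB⟩ : ∃ B : ℝ, ∀ N, ‖a N‖ ≤ B := by
    refine ⟨4 ^ (Fintype.card ι * d) * (len F * R ^ F.totalDegree), fun N => ?_⟩
    obtain ⟨U, hU1, hU2⟩ := h1 ι d (a N) (ξ N)
    have e1 : ∏ t, ∑ j, ‖ξ N t j‖ = 1 := by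
      simp only [k1 N, Finset.prod_const_one]
    rw [e1, mul_one, ← k3 N U] at hU2
    refine hU2.trans ?_
    refine mul_le_mul_of_nonneg_left ?_ (by positivity)
    refine h3.2.1 (ι ⊕ n) F (Sum.elim U (W N)) R hR1 ?_
    rintro (j | i)
    · exact (hU1 j).trans hR1
    · exact hR N i
  -- compactness
  let K : Set (ℂ × (Fin d → ι → ℂ)) := {y | ‖y.1‖ ≤ B ∧ ∀ t, ∑ j, ‖y.2 t j‖ = 1}
  have hKc : IsClosed K := by
    have e1 : IsClosed {y : ℂ × (Fin d → ι → ℂ) | ‖y.1‖ ≤ B} :=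
      isClosed_le (by fun_prop) continuous_const
    have e2 : IsClosed {y : ℂ × (Fin d → ι → ℂ) | ∀ t, ∑ j, ‖y.2 t j‖ = 1} := by
      rw [Set.ofPred_forall]
      exact isClosed_iInter fun t => isClosed_eq (by fun_prop) continuous_const
    exact e1.inter e2
  have hKb : Bornology.IsBounded K := by
    refine (Metric.isBounded_closedBall (x := (0 : ℂ × (Fin d → ι → ℂ)))
      (r := max B 1)).subset ?_
    rintro ⟨b, η⟩ ⟨hb, hη⟩
    rw [mem_closedBall_zero_iff, Prod.norm_def]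
    refine max_le_max hb ?_
    refine (pi_norm_le_iff_of_nonneg zero_le_one).2 fun t => ?_
    refine (pi_norm_le_iff_of_nonneg zero_le_one).2 fun j => ?_
    rw [← hη t]
    exact Finset.single_le_sum (f := fun j => ‖η t j‖) (fun _ _ => norm_nonneg _)
      (Finset.mem_univ j)
  have hK : IsCompact K := Metric.isCompact_of_isClosed_isBounded hKc hKb
  obtain ⟨⟨b, η⟩, hmem, φ, hφ, hlim⟩ := hK.tendsto_subseq (x := fun N => (a N, ξ N))
    (fun N => ⟨hB N, k1 N⟩)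
  have hWφ : Tendsto (W ∘ φ) atTop (𝓝 w) := hWt.comp hφ.tendsto_atTop
  have hy : Tendsto (fun N => (((fun N => (a N, ξ N)) ∘ φ) N, (W ∘ φ) N)) atTop
      (𝓝 ((b, η), w)) := hlim.prodMk_nhds hWφ
  have key : ∀ f g : (ℂ × (Fin d → ι → ℂ)) × (n → ℂ) → ℂ, Continuous f → Continuous g →
      (∀ N, f ((a N, ξ N), W N) = g ((a N, ξ N), W N)) → f ((b, η), w) = g ((b, η), w) := by
    intro f g hf hg hfg
    have hcl : IsClosed {y | f y = g y} := isClosed_eq hf hg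
    exact hcl.mem_of_tendsto hy (Eventually.of_forall fun N => hfg (φ N))
  refine ⟨b, η, ?_, ?_, ?_⟩
  · intro t
    refine ⟨?_, ?_⟩
    · intro h0
      have := hmem.2 t
      simp only [h0, Pi.zero_apply, norm_zero, Finset.sum_const_zero] at this
      exact zero_ne_one this
    · intro g hg
      refine key (fun y => aeval (Sum.elim (y.1.2 t) y.2) g) (fun _ => 0) ?_ continuous_const
        (fun N => k2 N t g hg)
      refine Clos_cont g _ (continuous_pi ?_)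
      rintro (j | i)
      · simp only [Sum.elim_inl]
        fun_prop
      · simp only [Sum.elim_inr]
        fun_prop
  · intro U
    refine key (fun y => aeval (Sum.elim U y.2) F) (fun y => y.1.1 * ∏ t, ∑ j, U j * y.1.2 t j)
      ?_ (by fun_prop) (fun N => k3 N U)
    refine Clos_cont F _ (continuous_pi ?_)
    rintro (j | i)
    · simp only [Sum.elim_inl]
      fun_prop
    · simp only [Sum.elim_inr]
      fun_prop
  · refine key (fun y => aeval y.2 H) (fun y => y.1.1 ^ δ * ∏ t, aeval (y.1.2 t) P) ?_ ?_ k4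
    · exact Clos_cont H _ (by fun_prop)
    · refine Continuous.mul (by fun_prop) (continuous_finsetProd _ fun t _ => ?_)
      exact Clos_cont P _ (by fun_prop)

end Pool.Agent.Work.MP_327059_nt.GL

end

section

/-! Item C05: the generic point is algebraic over the field of the other groups. -/

set_option autoImplicit false

namespace Pool.Agent.Work.MP_327059_nt.GL

theorem CountAlg_mono {n m : Type} (y : n → ℂ) (z : m → ℂ) (x : ℂ)
    (hyz : Set.range y ⊆ Set.range z) (h : AlgOver y x) : AlgOver z x := by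
  unfold AlgOver at h ⊢
  rw [IntermediateField.isAlgebraic_adjoin_iff] at h ⊢
  obtain ⟨p, hp, hpx⟩ := h
  have hle : Algebra.adjoin ℚ (Set.range y) ≤ Algebra.adjoin ℚ (Set.range z) :=
    Algebra.adjoin_mono hyz
  refine ⟨p.map (Subalgebra.inclusion hle).toRingHom, ?_, ?_⟩
  · rw [Ne, Polynomial.map_eq_zero_iff]
    · exact hp
    · exact Subalgebra.inclusion_injective hle
  · rw [Polynomial.aeval_def, Polynomial.eval₂_map]
    rw [Polynomial.aeval_def] at hpx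
    exact hpx

theorem CountAlg_self {n : Type} (y : n → ℂ) (i : n) : AlgOver y (y i) := by
  unfold AlgOver
  have hmem : y i ∈ IntermediateField.adjoin ℚ (Set.range y) :=
    IntermediateField.subset_adjoin ℚ _ ⟨i, rfl⟩
  exact isAlgebraic_algebraMap (⟨y i, hmem⟩ : IntermediateField.adjoin ℚ (Set.range y))

theorem pr_CountAlg (h1 : S_AI) (h2 : S_TrCount) (h3 : S_TrBasis) : S_CountAlg := by
  classical
  intro ι _ k F u ζ hD hI j0 hj0 j1
  by_contra hn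
  set y : Fin k × ι → ℂ := fun p => u p.1.succ p.2 with hy
  have hAI : AlgebraicIndependent ℚ y := h1 ι k F u ζ hD hI
  set x : ι → ℂ := fun j => ζ j / ζ j0 with hx
  have hopt : AlgebraicIndependent ℚ (fun o : Option (Fin k × ι) => o.elim (x j1) y) := by
    rw [hAI.option_iff_transcendental]
    intro halg
    exact hn (IntermediateField.isAlgebraic_adjoin_iff.mpr halg)
  obtain ⟨r, s, hs, hsalg⟩ := h3 ι x
  have hr : r ≤ k := by
    by_contra hrk
    push Not at hrk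
    exact hD.2.2.2.2 j0 hj0 (fun i : Fin (k + 1) => s (Fin.castLE hrk i))
      (hs.comp (Fin.castLE hrk) (Fin.castLE_injective hrk))
  let β := {p : Fin k × ι // p.2 ≠ j0}
  let b : Fin r ⊕ β → ℂ := Sum.elim (fun i => x (s i)) (fun p => y p.1)
  have hbx : ∀ j, AlgOver b (x j) := by
    intro j
    refine CountAlg_mono _ b _ ?_ (hsalg j)
    rintro _ ⟨i, rfl⟩
    exact ⟨Sum.inl i, rfl⟩
  have hby : ∀ p : Fin k × ι, p.2 ≠ j0 → AlgOver b (y p) := by
    intro p hp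
    exact CountAlg_self b (Sum.inr ⟨p, hp⟩)
  have hby0 : ∀ i : Fin k, AlgOver b (y (i, j0)) := by
    intro i
    have hsum : ∑ j, u i.succ j * ζ j = 0 := hD.2.2.1 i.succ
    have heq : y (i, j0) = - ∑ j ∈ Finset.univ.erase j0, y (i, j) * x j := by
      have h0 : ∑ j, y (i, j) * x j = 0 := by
        have : ∑ j, y (i, j) * x j = (∑ j, u i.succ j * ζ j) / ζ j0 := by
          rw [Finset.sum_div]
          refine Finset.sum_congr rfl fun j _ => ?_
          simp only [hy, hx]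
          ring
        rw [this, hsum, zero_div]
      rw [← Finset.add_sum_erase _ _ (Finset.mem_univ j0)] at h0
      have hx0 : x j0 = 1 := by simp only [hx]; exact div_self hj0
      rw [hx0, mul_one] at h0
      linear_combination h0
    rw [heq]
    unfold AlgOver at *
    rw [← mem_algebraicClosure_iff]
    refine neg_mem (sum_mem fun j hj => mul_mem ?_ ?_)
    · rw [mem_algebraicClosure_iff]
      exact hby (i, j) (Finset.ne_of_mem_erase hj)
    · rw [mem_algebraicClosure_iff]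
      exact hbx j
  have hcount := h2 (Option (Fin k × ι)) (Fin r ⊕ β) (fun o => o.elim (x j1) y) b hopt (by
    rintro (_ | ⟨i, j⟩)
    · exact hbx j1
    · by_cases hj : j = j0
      · subst hj
        exact hby0 i
      · exact hby (i, j) hj)
  have hβ : Fintype.card β = k * (Fintype.card ι - 1) := by
    have e : β ≃ Fin k × {j : ι // j ≠ j0} :=
      { toFun := fun p => (p.1.1, ⟨p.1.2, p.2⟩)
        invFun := fun p => ⟨(p.1, p.2.1), p.2.2⟩
        left_inv := fun p => rfl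
        right_inv := fun p => rfl }
    rw [Fintype.card_congr e, Fintype.card_prod, Fintype.card_fin]
    congr 1
    rw [Fintype.card_subtype_compl, Fintype.card_subtype_eq]
  rw [Fintype.card_option, Fintype.card_prod, Fintype.card_fin, Fintype.card_sum,
    Fintype.card_fin, hβ] at hcount
  have hpos : 1 ≤ Fintype.card ι := Fintype.card_pos_iff.mpr ⟨j0⟩
  obtain ⟨m, hm⟩ : ∃ m, Fintype.card ι = m + 1 := ⟨Fintype.card ι - 1, by omega⟩
  rw [hm] at hcount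
  simp only [Nat.add_sub_cancel] at hcount
  nlinarith

end Pool.Agent.Work.MP_327059_nt.GL

end

section

/-!
# PART C: the criterion
-/

set_option autoImplicit false

namespace Pool.Agent.Work.MP_327059_nt.GL

open MvPolynomial

/-- Far points: if no common zero is near `θ` then the variety of `ζ` is far from `(1, θ)`. -/
theorem crit_far {σ : Type} [Fintype σ] (h4 : S_Hom) (θ : σ → ℂ) (X : ℕ)
    (PP : Set (MvPolynomial σ ℤ)) (hdeg : ∀ P ∈ PP, P.totalDegree ≤ X) (R1 : ℝ) (hR1 : 0 < R1)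
    (hR1' : R1 ≤ 1)
    (hno : ∀ θ' : σ → ℂ, (∀ P ∈ PP, aeval θ' P = 0) → ∃ i, R1 < ‖θ' i - θ i‖)
    (ζ : Option σ → ℂ) (hζ : ∀ P ∈ PP, aeval ζ (hom X P) = 0)
    (ξ : Option σ → ℂ) (hξ : On ζ ξ) :
    R1 / (2 + ∑ j, ‖θ j‖) * ∑ o, ‖ξ o‖ ≤ ∑ j, ‖ξ (some j) - θ j * ξ none‖ := by
  have hS : 0 ≤ ∑ j, ‖θ j‖ := Finset.sum_nonneg fun j _ => norm_nonneg _
  set T : ℝ := 2 + ∑ j, ‖θ j‖ with hT
  have hT0 : 0 < T := by linarith
  set e : ℝ := ∑ j, ‖ξ (some j) - θ j * ξ none‖ with he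
  have he0 : 0 ≤ e := Finset.sum_nonneg fun j _ => norm_nonneg _
  have hsum : ∑ o, ‖ξ o‖ ≤ ‖ξ none‖ * (T - 1) + e := by
    rw [Fintype.sum_option]
    have h1 : ∀ j : σ, ‖ξ (some j)‖ ≤ ‖ξ (some j) - θ j * ξ none‖ + ‖θ j‖ * ‖ξ none‖ := by
      intro j
      calc ‖ξ (some j)‖ = ‖(ξ (some j) - θ j * ξ none) + θ j * ξ none‖ := by ring_nf
        _ ≤ ‖ξ (some j) - θ j * ξ none‖ + ‖θ j * ξ none‖ := norm_add_le _ _
        _ = _ := by rw [norm_mul]
    have h2 := Finset.sum_le_sum fun j (_ : j ∈ Finset.univ) => h1 j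
    rw [Finset.sum_add_distrib, ← Finset.sum_mul] at h2
    rw [hT]
    nlinarith
  by_cases h0 : ξ none = 0
  · have h1 : ∑ o, ‖ξ o‖ = e := by
      rw [Fintype.sum_option, he]
      simp [h0]
    rw [h1]
    have : R1 / T ≤ 1 := by
      rw [div_le_one hT0]
      linarith
    nlinarith
  · obtain ⟨i, hi⟩ := hno (fun j => ξ (some j) / ξ none) (fun P hP => by
      obtain ⟨hh, -, -, h3⟩ := h4 σ X P (hdeg P hP)
      exact h3 ξ h0 (hξ X (hom X P) hh (hζ P hP)))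
    have hpos : 0 < ‖ξ none‖ := norm_pos_iff.mpr h0
    have h1 : R1 * ‖ξ none‖ ≤ e := by
      have h2 : ‖ξ (some i) - θ i * ξ none‖ = ‖ξ (some i) / ξ none - θ i‖ * ‖ξ none‖ := by
        rw [← norm_mul]
        congr 1
        field_simp
      have h3 : ‖ξ (some i) - θ i * ξ none‖ ≤ e :=
        Finset.single_le_sum (f := fun j => ‖ξ (some j) - θ j * ξ none‖)
          (fun j _ => norm_nonneg _) (Finset.mem_univ i)
      have h4 : R1 * ‖ξ none‖ ≤ ‖ξ (some i) / ξ none - θ i‖ * ‖ξ none‖ :=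
        mul_le_mul_of_nonneg_right hi.le hpos.le
      linarith
    rw [div_mul_eq_mul_div, div_le_iff₀ hT0]
    have h2 : R1 * ∑ o, ‖ξ o‖ ≤ R1 * (‖ξ none‖ * (T - 1) + e) :=
      mul_le_mul_of_nonneg_left hsum hR1.le
    have h3 : (T - 1) * (R1 * ‖ξ none‖) ≤ (T - 1) * e :=
      mul_le_mul_of_nonneg_left h1 (by linarith)
    have h4 : R1 * e ≤ e := by nlinarith
    nlinarith

/-- The final numerical contradiction. -/
theorem crit_num {k τ X : ℕ} (hk : k ≤ τ) (hX : 1 ≤ X) {k' : ℕ} (hk' : k' ≤ k) {A L V C : ℝ}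
    (hA : 1 ≤ A) (hL : 0 ≤ L)
    (hC : C = 2 * (2 * ((k : ℝ) + 1) * A) * (L + 1) + (4 * (k : ℝ) + 3) * A)
    (hV : C * (X : ℝ) ^ (τ + 1) ≤ V)
    (hmain : (V / (X ^ (k + 1) * A) - 2 * k) * (X : ℝ) ^ (k' + 1) ≤
      ((k' : ℝ) + 1) * (V / (C * (X : ℝ) ^ τ) + L)) : False := by
  have hX1 : (1 : ℝ) ≤ X := by exact_mod_cast hX
  have hX0 : (0 : ℝ) < X := by linarith
  have hk0 : (0 : ℝ) ≤ k := Nat.cast_nonneg k
  set M : ℝ := 2 * ((k : ℝ) + 1) * A with hM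
  have hM0 : 0 < M := by positivity
  have hC0 : 0 < C := by rw [hC]; positivity
  have hCM : 2 * M ≤ C := by
    rw [hC]
    have : 0 ≤ (4 * (k : ℝ) + 3) * A := by positivity
    nlinarith [mul_nonneg hM0.le hL]
  have hCL : 2 * M * L < C := by
    rw [hC]
    have : 0 ≤ (4 * (k : ℝ) + 3) * A := by positivity
    nlinarith [mul_nonneg hM0.le hL]
  set ρ : ℝ := V / (X ^ (k + 1) * A) with hρ
  have hXk : (0 : ℝ) < X ^ (k + 1) := by positivity
  have hpow : (X : ℝ) ^ (k + 1) ≤ (X : ℝ) ^ (τ + 1) := pow_le_pow_right₀ hX1 (by omega)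
  have hρ1 : 4 * (k : ℝ) + 3 ≤ ρ := by
    rw [hρ, le_div_iff₀ (by positivity)]
    calc (4 * (k : ℝ) + 3) * (X ^ (k + 1) * A) = ((4 * (k : ℝ) + 3) * A) * X ^ (k + 1) := by ring
      _ ≤ C * X ^ (k + 1) := by
          apply mul_le_mul_of_nonneg_right _ hXk.le
          rw [hC]
          nlinarith [mul_nonneg hM0.le hL]
      _ ≤ C * X ^ (τ + 1) := mul_le_mul_of_nonneg_left hpow hC0.le
      _ ≤ V := hV
  have h1 : ρ / 2 * X ≤ (ρ - 2 * k) * (X : ℝ) ^ (k' + 1) := by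
    have e1 : (X : ℝ) ≤ (X : ℝ) ^ (k' + 1) := by
      calc (X : ℝ) = (X : ℝ) ^ 1 := (pow_one _).symm
        _ ≤ _ := pow_le_pow_right₀ hX1 (by omega)
    have e2 : ρ / 2 ≤ ρ - 2 * k := by linarith
    exact mul_le_mul e2 e1 hX0.le (by linarith)
  have hk'1 : ((k' : ℝ) + 1) ≤ (k : ℝ) + 1 := by
    have : (k' : ℝ) ≤ k := by exact_mod_cast hk'
    linarith
  have hV0 : 0 < V := lt_of_lt_of_le (by positivity) hV
  have hnn : 0 ≤ V / (C * (X : ℝ) ^ τ) + L := by positivity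
  have h2 : ρ / 2 * X ≤ ((k : ℝ) + 1) * (V / (C * (X : ℝ) ^ τ) + L) :=
    le_trans (le_trans h1 hmain) (mul_le_mul_of_nonneg_right hk'1 hnn)
  -- put y = V / X ^ τ
  have hXτ : (0 : ℝ) < X ^ τ := by positivity
  set y : ℝ := V / X ^ τ with hy
  have hy1 : C ≤ y := by
    rw [hy, le_div_iff₀ hXτ]
    calc C * (X : ℝ) ^ τ ≤ C * X ^ (τ + 1) :=
          mul_le_mul_of_nonneg_left (pow_le_pow_right₀ hX1 (by omega)) hC0.le
      _ ≤ V := hV
  have hy0 : 0 < y := lt_of_lt_of_le hC0 hy1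
  have h3 : V / (C * (X : ℝ) ^ τ) = y / C := by
    rw [hy]; field_simp
  have h4 : y / (2 * A) ≤ ρ / 2 * X := by
    have e1 : ρ / 2 * X = V / X ^ k / (2 * A) := by
      rw [hρ, pow_succ]; field_simp
    rw [e1]
    apply div_le_div_of_nonneg_right _ (by positivity)
    rw [hy]
    exact div_le_div_of_nonneg_left hV0.le (by positivity) (pow_le_pow_right₀ hX1 hk)
  have h5 : y / (2 * A) ≤ ((k : ℝ) + 1) * (y / C + L) := by
    rw [← h3]; exact le_trans h4 h2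
  have h6 : y / M ≤ y / C + L := by
    have : y / M = y / (2 * A) / ((k : ℝ) + 1) := by
      rw [hM]; field_simp
    rw [this, div_le_iff₀ (by positivity)]
    linarith
  have h7 : y / C ≤ y / (2 * M) := div_le_div_of_nonneg_left hy0.le (by positivity) hCM
  have h8 : y / M = y / (2 * M) + y / (2 * M) := by field_simp; ring
  have h9 : y / (2 * M) ≤ L := by linarith
  rw [div_le_iff₀ (by positivity)] at h9
  linarith

theorem pr_Crit (h1 : S_Init) (h2 : S_Desc) (h3 : S_Far) (h4 : S_Hom) (h5 : S_LenEv) :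
    S_Crit := by
  intro σ _ τ θ hτ
  obtain ⟨k, hk, F0, u0, hF0, hth⟩ := h1 σ τ θ hτ
  obtain ⟨c, hc, hdesc⟩ := h2 σ k θ
  have hfar := fun k' : ℕ => h3 σ (k' + 1) θ
  choose Bf hBf1 hBf using hfar
  set Bm : ℝ := ∑ k' ∈ Finset.range (k + 1), Bf k' with hBm
  have hBle : ∀ k' ≤ k, Bf k' ≤ Bm := fun k' hk' =>
    Finset.single_le_sum (f := Bf) (fun j _ => by linarith [hBf1 j])
      (Finset.mem_range.mpr (by omega))
  have hBm1 : 1 ≤ Bm := le_trans (hBf1 0) (hBle 0 (Nat.zero_le k))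
  have hS : 0 ≤ ∑ j, ‖θ j‖ := Finset.sum_nonneg fun j _ => norm_nonneg _
  set T : ℝ := 2 + ∑ j, ‖θ j‖ with hT
  have hT1 : 1 ≤ T := by linarith
  set A0 : ℝ := Real.log (len F0) + c * F0.totalDegree with hA0
  have hF0ne : F0 ≠ 0 := hF0.1.ne_zero
  have hlenF0 : 1 ≤ len F0 := h5.2.2.1 _ F0 hF0ne
  have hA0nn : 0 ≤ A0 := by
    have := Real.log_nonneg hlenF0
    positivity
  set A : ℝ := A0 + 1 with hA
  have hA1 : 1 ≤ A := by linarith
  set L : ℝ := Real.log (T * Bm) with hL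
  have hL0 : 0 ≤ L := Real.log_nonneg (by nlinarith)
  set C : ℝ := 2 * (2 * ((k : ℝ) + 1) * A) * (L + 1) + (4 * (k : ℝ) + 3) * A with hC
  have hk0 : (0 : ℝ) ≤ k := Nat.cast_nonneg k
  have hC1 : 1 ≤ C := by
    have e1 : 0 ≤ 2 * (2 * ((k : ℝ) + 1) * A) * (L + 1) := by positivity
    have e2 : 3 ≤ (4 * (k : ℝ) + 3) * A := by nlinarith
    linarith
  refine ⟨C, hC1, ?_⟩
  intro X V hX hV PP hPP
  by_contra hcon
  push Not at hcon
  have hX1 : (1 : ℝ) ≤ X := by exact_mod_cast hX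
  have hX0 : (0 : ℝ) < X := by linarith
  have hC0 : 0 < C := by linarith
  have hV0 : 0 < V := lt_of_lt_of_le (by positivity) hV
  set R1 : ℝ := Real.exp (-V / (C * (X : ℝ) ^ τ)) with hR1
  have hR10 : 0 < R1 := Real.exp_pos _
  have hR11 : R1 ≤ 1 := by
    rw [hR1, Real.exp_le_one_iff]
    exact div_nonpos_of_nonpos_of_nonneg (by linarith) (by positivity)
  -- descent
  set ρ : ℝ := V / (X ^ (k + 1) * A) with hρ
  have hXk : (0 : ℝ) < X ^ (k + 1) := by positivity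
  have hpow : (X : ℝ) ^ (k + 1) ≤ (X : ℝ) ^ (τ + 1) := pow_le_pow_right₀ hX1 (by omega)
  have hρ1 : 4 * (k : ℝ) + 3 ≤ ρ := by
    rw [hρ, le_div_iff₀ (by positivity)]
    calc (4 * (k : ℝ) + 3) * (X ^ (k + 1) * A) = ((4 * (k : ℝ) + 3) * A) * X ^ (k + 1) := by ring
      _ ≤ C * X ^ (k + 1) := by
          apply mul_le_mul_of_nonneg_right _ hXk.le
          have e1 : 0 ≤ 2 * (2 * ((k : ℝ) + 1) * A) * (L + 1) := by positivity
          linarith
      _ ≤ C * X ^ (τ + 1) := mul_le_mul_of_nonneg_left hpow hC0.le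
      _ ≤ V := hV
  have hρV : ρ * (X : ℝ) ^ (k + 1) * A0 ≤ V := by
    have e1 : ρ * (X : ℝ) ^ (k + 1) * A = V := by
      rw [hρ]; field_simp
    have e2 : ρ * (X : ℝ) ^ (k + 1) * A0 ≤ ρ * (X : ℝ) ^ (k + 1) * A := by
      apply mul_le_mul_of_nonneg_left (by linarith)
      apply mul_nonneg (by linarith) hXk.le
    linarith
  have hlen0 : lenC (th θ F0) = 0 := by
    rw [hth]; simp [lenC]
  obtain ⟨k', G, w, ζ', hG, hk', hζ', hlenG⟩ := hdesc F0 u0 (hat θ) hF0 X V ρ hX (by linarith)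
    hρV (by rw [hlen0]; exact (Real.exp_pos _).le) (hom X '' PP) (by
      rintro _ ⟨P, hP, rfl⟩
      obtain ⟨hd, hl, hv⟩ := hPP P hP
      obtain ⟨hh, hhl, hhe, -⟩ := h4 σ X P hd
      exact ⟨hh, le_trans hhl hl, by rw [hhe]; exact hv⟩)
  -- the degree of G is positive
  have hD : 1 ≤ G.totalDegree := by
    rw [Nat.one_le_iff_ne_zero]
    intro h0
    have h6 := totalDegree_eq_zero_iff_eq_C.mp h0
    have h7 : ev w G = 0 := (hG.2.2.2.1 G).mpr dvd_rfl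
    rw [h6] at h7
    simp only [ev, algHom_C] at h7
    have h8 : G.coeff 0 = 0 := by simpa using h7
    rw [h8, map_zero] at h6
    exact hG.1.ne_zero h6
  have hfarG := hBf k' G w ζ' hG (R1 / T) (by positivity) (by
    rw [div_le_one (by linarith)]; linarith) (by
      intro ξ _ hξ
      exact crit_far h4 θ X PP (fun P hP => (hPP P hP).1) R1 hR10 hR11
        (fun θ' hθ' => hcon θ' hθ') ζ' (fun P hP => hζ' _ ⟨P, hP, rfl⟩) ξ hξ)
  set D : ℕ := G.totalDegree with hDdef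
  have hBm0 : 0 < Bm := by linarith
  have hT0 : 0 < T := by linarith
  have hBf0 : 0 < Bf k' := by linarith [hBf1 k']
  have hle1 : R1 / T / Bm ≤ R1 / T / Bf k' :=
    div_le_div_of_nonneg_left (by positivity) hBf0 (hBle k' hk')
  have hle2 : (R1 / T / Bm) ^ ((k' + 1) * D) ≤
      Real.exp (-((ρ - 2 * k) * (X : ℝ) ^ (k' + 1) * D)) :=
    le_trans (le_trans (pow_le_pow_left₀ (by positivity) hle1 _) hfarG) hlenG
  have hlog := Real.log_le_log (by positivity) hle2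
  rw [Real.log_exp, Real.log_pow] at hlog
  have hlogR : Real.log (R1 / T / Bm) = -(V / (C * (X : ℝ) ^ τ) + L) := by
    rw [div_div, Real.log_div hR10.ne' (by positivity), hR1, Real.log_exp, hL]
    ring
  rw [hlogR] at hlog
  have hD0 : (0 : ℝ) < D := by exact_mod_cast hD
  have hmain : (ρ - 2 * k) * (X : ℝ) ^ (k' + 1) ≤
      ((k' : ℝ) + 1) * (V / (C * (X : ℝ) ^ τ) + L) := by
    have e1 : ((ρ - 2 * k) * (X : ℝ) ^ (k' + 1)) * D ≤
        (((k' : ℝ) + 1) * (V / (C * (X : ℝ) ^ τ) + L)) * D := by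
      push_cast at hlog
      nlinarith
    exact le_of_mul_le_mul_right e1 hD0
  exact crit_num hk hX hk' hA1 hL0 hC hV hmain

end Pool.Agent.Work.MP_327059_nt.GL

end

section

/-!
# C35: degree from growth
-/

set_option autoImplicit false

namespace Pool.Agent.Work.MP_327059_nt.GL

open MvPolynomial

theorem DegGrow_smul {σ : Type} (f : MvPolynomial σ ℂ) (n : ℕ) (h : f.IsHomogeneous n) (t : ℂ)
    (z : σ → ℂ) : eval (fun i => t * z i) f = t ^ n * eval z f := by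
  rw [eval_eq, eval_eq, Finset.mul_sum]
  refine Finset.sum_congr rfl fun m hm => ?_
  have h1 : n = ∑ i ∈ m.support, m i := h.degree_eq_sum_deg_support hm
  have h2 : ∏ i ∈ m.support, (t * z i) ^ m i = t ^ n * ∏ i ∈ m.support, z i ^ m i := by
    rw [h1, ← Finset.prod_pow_eq_pow_sum, ← Finset.prod_mul_distrib]
    exact Finset.prod_congr rfl fun i _ => mul_pow _ _ _
  rw [h2]
  ring

theorem DegGrow_arch (x K : ℝ) (hx : 0 < x) (hK : 0 ≤ K) (h : ∀ t : ℝ, 1 ≤ t → t * x ≤ K) :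
    False := by
  have h0 : 0 ≤ K / x := by positivity
  have h1 := h (K / x + 1) (by linarith)
  rw [add_mul, div_mul_cancel₀ _ hx.ne'] at h1
  linarith

theorem pr_DegGrow : S_DegGrow := by
  intro σ _ f E B hB
  by_contra hlt
  push Not at hlt
  set D := f.totalDegree with hD
  have hf0 : f ≠ 0 := by
    rintro rfl
    simp at hD
    omega
  have hc : homogeneousComponent D f ≠ 0 := by
    obtain ⟨m, hm, hmD⟩ := Finset.exists_mem_eq_sup f.support (support_nonempty.2 hf0)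
      (fun s => s.sum fun _ e => e)
    intro h0
    have h1 : coeff m (homogeneousComponent D f) = 0 := by rw [h0]; simp
    rw [coeff_homogeneousComponent, if_pos] at h1
    · exact (mem_support_iff.1 hm) h1
    · rw [hD]
      exact hmD.symm
  obtain ⟨z, hz⟩ : ∃ z : σ → ℂ, eval z (homogeneousComponent D f) ≠ 0 := by
    by_contra hn
    push Not at hn
    exact hc (MvPolynomial.funext fun z => by rw [hn z]; simp)
  set c : ℕ → ℂ := fun i => eval z (homogeneousComponent i f) with hcdef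
  have hB0 : 0 ≤ B := by
    have h1 := hB 1 (fun _ => 0) le_rfl (fun _ => by simp)
    rw [one_pow, mul_one] at h1
    exact (norm_nonneg _).trans h1
  obtain ⟨M, hM1, hM⟩ : ∃ M : ℝ, 1 ≤ M ∧ ∀ i, ‖z i‖ ≤ M := by
    refine ⟨1 + ∑ i, ‖z i‖, ?_, fun i => ?_⟩
    · have : 0 ≤ ∑ i, ‖z i‖ := Finset.sum_nonneg fun i _ => norm_nonneg _
      linarith
    · have : ‖z i‖ ≤ ∑ i, ‖z i‖ :=
        Finset.single_le_sum (f := fun i => ‖z i‖) (fun i _ => norm_nonneg _) (Finset.mem_univ i)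
      linarith
  have hev : ∀ t : ℂ, eval (fun i => t * z i) f = ∑ i ∈ Finset.range (D + 1), t ^ i * c i := by
    intro t
    conv_lhs => rw [← sum_homogeneousComponent f]
    rw [map_sum]
    exact Finset.sum_congr rfl fun i _ =>
      DegGrow_smul _ i (homogeneousComponent_isHomogeneous i f) t z
  obtain ⟨K, hK⟩ : ∃ K : ℝ, K = B * M ^ E + ∑ i ∈ Finset.range D, ‖c i‖ := ⟨_, rfl⟩
  have hmain : ∀ t : ℝ, 1 ≤ t → t * ‖c D‖ ≤ K := by
    intro t ht
    have ht0 : 0 < t := by linarith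
    have h1 := hev (t : ℂ)
    rw [Finset.sum_range_succ] at h1
    have h2 : ((t : ℂ)) ^ D * c D = eval (fun i => (t : ℂ) * z i) f -
        ∑ i ∈ Finset.range D, (t : ℂ) ^ i * c i := by
      rw [h1]; ring
    have h3 : ‖((t : ℂ)) ^ D * c D‖ = t ^ D * ‖c D‖ := by
      rw [norm_mul, norm_pow, Complex.norm_real, Real.norm_of_nonneg ht0.le]
    have h4 : ‖eval (fun i => (t : ℂ) * z i) f‖ ≤ B * M ^ E * t ^ (D - 1) := by
      have h5 := hB (t * M) (fun i => (t : ℂ) * z i) (by nlinarith) (fun i => by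
        rw [norm_mul, Complex.norm_real, Real.norm_of_nonneg ht0.le]
        exact mul_le_mul_of_nonneg_left (hM i) ht0.le)
      have h6 : t ^ E ≤ t ^ (D - 1) := pow_le_pow_right₀ ht (by omega)
      calc ‖eval (fun i => (t : ℂ) * z i) f‖ ≤ B * (t * M) ^ E := h5
        _ = B * M ^ E * t ^ E := by rw [mul_pow]; ring
        _ ≤ B * M ^ E * t ^ (D - 1) := mul_le_mul_of_nonneg_left h6 (by positivity)
    have h7 : ‖∑ i ∈ Finset.range D, (t : ℂ) ^ i * c i‖ ≤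
        (∑ i ∈ Finset.range D, ‖c i‖) * t ^ (D - 1) := by
      refine (norm_sum_le _ _).trans ?_
      rw [Finset.sum_mul]
      refine Finset.sum_le_sum fun i hi => ?_
      rw [Finset.mem_range] at hi
      rw [norm_mul, norm_pow, Complex.norm_real, Real.norm_of_nonneg ht0.le, mul_comm]
      exact mul_le_mul_of_nonneg_left (pow_le_pow_right₀ ht (by omega)) (norm_nonneg _)
    have h8 : t ^ D * ‖c D‖ ≤ K * t ^ (D - 1) := by
      rw [← h3, h2]
      refine (norm_sub_le _ _).trans ?_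
      rw [hK, add_mul]
      exact add_le_add h4 h7
    have h9 : t ^ D = t * t ^ (D - 1) := by
      rw [← pow_succ']
      congr 1
      omega
    have h10 : 0 < t ^ (D - 1) := by positivity
    rw [h9] at h8
    have h11 : (t * ‖c D‖) * t ^ (D - 1) ≤ K * t ^ (D - 1) := by linarith [h8]
    exact le_of_mul_le_mul_right h11 h10
  have hcD : 0 < ‖c D‖ := norm_pos_iff.2 hz
  have hK0 : 0 ≤ K := by
    have h1 : 0 ≤ ∑ i ∈ Finset.range D, ‖c i‖ := Finset.sum_nonneg fun i _ => norm_nonneg _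
    have h2 : 0 ≤ B * M ^ E := mul_nonneg hB0 (pow_nonneg (by linarith) _)
    rw [hK]
    exact add_nonneg h2 h1
  exact DegGrow_arch _ K hcD hK0 hmain

end Pool.Agent.Work.MP_327059_nt.GL

end

section

/-!
# Item DenseK
-/

set_option autoImplicit false

namespace Pool.Agent.Work.MP_327059_nt.GL

open MvPolynomial

lemma DenseK_step (K : IntermediateField ℚ ℂ) [Countable K] {α : Type} [Fintype α]
    (w : α → ℂ) (hw : AlgebraicIndependent K w) (z : ℂ) (ε : ℝ) (hε : 0 < ε) :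
    ∃ a : ℂ, AlgebraicIndependent K (fun o : Option α => o.elim a w) ∧ ‖a - z‖ < ε := by
  have hc : Cardinal.mk (Algebra.adjoin K (Set.range w)) ≤ Cardinal.aleph0 := by
    refine (Algebra.cardinalMk_adjoin_le K (Set.range w)).trans ?_
    refine sup_le (sup_le ?_ ?_) le_rfl
    · exact Cardinal.mk_le_aleph0_iff.2 inferInstance
    · exact Cardinal.mk_le_aleph0_iff.2 (Set.finite_range w).countable.to_subtype
  have hcount : Countable (Algebra.adjoin K (Set.range w)) := Cardinal.mk_le_aleph0_iff.1 hc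
  have hT := Algebraic.countable (Algebra.adjoin K (Set.range w)) ℂ
  have hd := hT.dense_compl ℝ
  obtain ⟨a, ha, haz⟩ := hd.exists_dist_lt z hε
  refine ⟨a, (hw.option_iff_transcendental a).2 ?_, ?_⟩
  · exact ha
  · rw [← dist_eq_norm, dist_comm]
    exact haz

lemma DenseK_main (K : IntermediateField ℚ ℂ) [Countable K] (n : Type) [Finite n] :
    ∀ (w : n → ℂ) (ε : ℝ), 0 < ε →
      ∃ w' : n → ℂ, AlgebraicIndependent K w' ∧ ∀ i, ‖w' i - w i‖ < ε := by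
  refine Finite.induction_empty_option (P := fun n => ∀ (w : n → ℂ) (ε : ℝ), 0 < ε →
      ∃ w' : n → ℂ, AlgebraicIndependent K w' ∧ ∀ i, ‖w' i - w i‖ < ε) ?_ ?_ ?_ n
  · intro α β e h w ε hε
    obtain ⟨w', h1, h2⟩ := h (w ∘ e) ε hε
    refine ⟨w' ∘ e.symm, ?_, ?_⟩
    · exact (algebraicIndependent_equiv e.symm).2 h1
    · intro i
      have := h2 (e.symm i)
      simpa using this
  · intro w ε hε
    refine ⟨w, ?_, fun i => i.elim⟩
    rw [algebraicIndependent_empty_type_iff]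
    exact (algebraMap K ℂ).injective
  · intro α _ h w ε hε
    obtain ⟨w', h1, h2⟩ := h (w ∘ some) ε hε
    obtain ⟨a, ha, haz⟩ := DenseK_step K w' h1 (w none) ε hε
    refine ⟨_, ha, ?_⟩
    rintro (_ | i)
    · exact haz
    · exact h2 i

theorem pr_DenseK : S_DenseK := by
  intro n _ S hS w ε hε
  have : Countable (IntermediateField.adjoin ℚ S) := by
    rw [← Cardinal.mk_le_aleph0_iff]
    refine (IntermediateField.cardinalMk_adjoin_le ℚ S).trans ?_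
    refine sup_le (sup_le ?_ ?_) le_rfl
    · exact Cardinal.mk_le_aleph0_iff.2 inferInstance
    · exact Cardinal.mk_le_aleph0_iff.2 hS.to_subtype
  exact DenseK_main _ n w ε hε

end Pool.Agent.Work.MP_327059_nt.GL

end

section

/-!
# PART C, item Desc: the descent
-/

set_option autoImplicit false

namespace Pool.Agent.Work.MP_327059_nt.GL

open MvPolynomial

/-- Comparison of the two exponents at the end of the descent. -/
lemma Desc_cmp {ρ κ Y l c D : ℝ} (hκ : 0 ≤ κ) (hρ : κ ≤ ρ) (hY : 0 ≤ Y) (hl : 0 ≤ l)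
    (hc : 1 ≤ c) (hD : 0 ≤ D) : (ρ - κ) * Y * D ≤ ρ * Y * (l + c * D) := by
  have h1 : (ρ - κ) * Y * D ≤ ρ * Y * D := by
    have : (ρ - κ) * (Y * D) ≤ ρ * (Y * D) :=
      mul_le_mul_of_nonneg_right (by linarith) (mul_nonneg hY hD)
    nlinarith [this]
  have h2 : ρ * Y * D ≤ ρ * Y * (l + c * D) := by
    refine mul_le_mul_of_nonneg_left ?_ (mul_nonneg (by linarith) hY)
    nlinarith
  linarith

theorem pr_Desc (h1 : S_CStep) (h2 : S_LenEv) : S_Desc := by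
  intro σ _ k θ
  have hlen : ∀ {m : ℕ} (F : MvPolynomial (Fin m × Option σ) ℤ), F ≠ 0 →
      0 ≤ Real.log (len F) := fun F hF => Real.log_nonneg (h2.2.2.1 _ F hF)
  induction k with
  | zero =>
    obtain ⟨c, hc, hs⟩ := h1 σ 0 θ 1 le_rfl
    refine ⟨c, hc, fun F u ζ hD X V ρ hX hρ hV hF PP hPP => ?_⟩
    have hF0 : F ≠ 0 := hD.1.ne_zero
    by_cases hall : ∀ P ∈ PP, aeval ζ P = 0
    · refine ⟨0, F, u, ζ, hD, le_rfl, hall, hF.trans (Real.exp_le_exp.mpr (neg_le_neg ?_))⟩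
      have hρ' : (3 : ℝ) ≤ ρ := by simpa using hρ
      exact Desc_cmp (by positivity) (by simpa using (by linarith : (0 : ℝ) ≤ ρ)) (by positivity)
        (hlen F hF0) hc (by positivity)
    · exfalso
      simp only [not_forall] at hall
      obtain ⟨P, hP, hne⟩ := hall
      have hρ' : (3 : ℝ) ≤ ρ := by simpa using hρ
      have := (hs F u ζ hD X V ρ hX hρ' hV hF P (hPP P hP).1 (hPP P hP).2.1 (hPP P hP).2.2
        hne).1
      omega
  | succ k ih =>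
    obtain ⟨c0, hc0, hi⟩ := ih
    obtain ⟨c, hc, hs⟩ := h1 σ (k + 1) θ c0 hc0
    refine ⟨c, hc, fun F u ζ hD X V ρ hX hρ hV hF PP hPP => ?_⟩
    have hF0 : F ≠ 0 := hD.1.ne_zero
    have hk : (0 : ℝ) ≤ k := Nat.cast_nonneg k
    push_cast at hρ
    have hρ3 : (3 : ℝ) ≤ ρ := by linarith
    by_cases hall : ∀ P ∈ PP, aeval ζ P = 0
    · refine ⟨k + 1, F, u, ζ, hD, le_rfl, hall, hF.trans (Real.exp_le_exp.mpr (neg_le_neg ?_))⟩
      exact Desc_cmp (by positivity) (by push_cast; linarith) (by positivity) (hlen F hF0) hc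
        (by positivity)
    · simp only [not_forall] at hall
      obtain ⟨P, hP, hne⟩ := hall
      obtain ⟨_, G, w, ζ', hG, hle, hlC⟩ := hs F u ζ hD X V ρ hX hρ3 hV hF P (hPP P hP).1
        (hPP P hP).2.1 (hPP P hP).2.2 hne
      have hA : 0 ≤ (X : ℝ) ^ (k + 1 + 1) * (Real.log (len F) + c * F.totalDegree) :=
        mul_nonneg (by positivity) (add_nonneg (hlen F hF0) (by positivity))
      have hV' : (ρ - 2) * (X : ℝ) ^ (k + 1) * (Real.log (len G) + c0 * G.totalDegree) ≤ V := by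
        have e1 : (ρ - 2) * ((X : ℝ) ^ (k + 1) * (Real.log (len G) + c0 * G.totalDegree)) ≤
            (ρ - 2) * ((X : ℝ) ^ (k + 1 + 1) * (Real.log (len F) + c * F.totalDegree)) :=
          mul_le_mul_of_nonneg_left hle (by linarith)
        have e2 : (ρ - 2) * ((X : ℝ) ^ (k + 1 + 1) * (Real.log (len F) + c * F.totalDegree)) ≤
            ρ * ((X : ℝ) ^ (k + 1 + 1) * (Real.log (len F) + c * F.totalDegree)) :=
          mul_le_mul_of_nonneg_right (by linarith) hA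
        rw [mul_assoc] at hV ⊢
        linarith
      obtain ⟨k', G', w', ζ'', hG', hk', hz, hfin⟩ := hi G w ζ' hG X V (ρ - 2) hX
        (by linarith) hV' hlC PP hPP
      refine ⟨k', G', w', ζ'', hG', by omega, hz, hfin.trans (le_of_eq ?_)⟩
      congr 1
      push_cast
      ring

end Pool.Agent.Work.MP_327059_nt.GL

end

section

/-!
# PART C, item C23 (DimDrop): the dimension drops under a proper specialisation
-/

set_option autoImplicit false

namespace Pool.Agent.Work.MP_327059_nt.GL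

open MvPolynomial

/-- A homogeneous polynomial at a multiple of a point. -/
theorem DimDrop_smul {ι : Type} {m : ℕ} {f : MvPolynomial ι ℤ} (hf : f.IsHomogeneous m) (c : ℂ)
    (x : ι → ℂ) : aeval (fun i => c * x i) f = c ^ m * aeval x f := by
  rw [aeval_def, aeval_def, eval₂_eq, eval₂_eq, Finset.mul_sum]
  refine Finset.sum_congr rfl fun d hd => ?_
  have h1 : ∑ i ∈ d.support, d i = m := by
    have := hf (mem_support_iff.mp hd)
    rw [Finsupp.weight_apply] at this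
    simpa [Finsupp.sum] using this
  rw [Finset.prod_congr rfl (fun i _ => mul_pow c (x i) (d i)), Finset.prod_mul_distrib,
    Finset.prod_pow_eq_pow_sum, h1]
  ring

/-- Homogenisation with respect to the variable `j0`. -/
theorem DimDrop_hom {ι : Type} (j0 : ι) (f : MvPolynomial ι ℤ) :
    ∃ (N : ℕ) (g : MvPolynomial ι ℤ), g.IsHomogeneous N ∧ ∀ z : ι → ℂ, z j0 ≠ 0 →
      aeval z g = z j0 ^ N * aeval (fun i => z i / z j0) f := by
  have hsum := sum_homogeneousComponent f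
  generalize f.totalDegree = N at hsum
  refine ⟨N, ∑ i ∈ Finset.range (N + 1),
    X j0 ^ (N - i) * homogeneousComponent i f, ?_, ?_⟩
  · refine IsHomogeneous.sum _ _ _ fun i hi => ?_
    have hi' : i ≤ N := Nat.lt_succ_iff.mp (Finset.mem_range.mp hi)
    have h1 := ((isHomogeneous_X ℤ j0).pow (N - i)).mul
      (homogeneousComponent_isHomogeneous i f)
    have h2 : 1 * (N - i) + i = N := by omega
    rwa [h2] at h1
  · intro z hz
    conv_rhs => rw [← hsum]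
    rw [map_sum, map_sum, Finset.mul_sum]
    refine Finset.sum_congr rfl fun i hi => ?_
    have hi' : i ≤ N := Nat.lt_succ_iff.mp (Finset.mem_range.mp hi)
    have h1 := DimDrop_smul (homogeneousComponent_isHomogeneous i f) (z j0)
      (fun i => z i / z j0)
    have h2 : (fun i => z j0 * (z i / z j0)) = z := by
      funext i; field_simp
    rw [h2] at h1
    rw [map_mul, map_pow, aeval_X, h1, ← mul_assoc, ← pow_add]
    congr 2; omega

theorem pr_DimDrop (h2 : S_AIZ) : S_DimDrop := by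
  classical
  intro ι _ k ζ ζ' δ P hζ hOn hP hPζ hPζ' j0 hj0 s hs
  have hj0' : ζ j0 ≠ 0 := by
    intro h
    apply hj0
    have := hOn 1 (X j0) (isHomogeneous_X ℤ j0) (by simpa using h)
    simpa using this
  set x : ι → ℂ := fun i => ζ i / ζ j0 with hx
  set x' : ι → ℂ := fun i => ζ' i / ζ' j0 with hx'
  -- (1) specialisation of arbitrary relations
  have key : ∀ f : MvPolynomial ι ℤ, aeval x f = 0 → aeval x' f = 0 := by
    intro f hf
    obtain ⟨N, g, hg, hg2⟩ := DimDrop_hom j0 f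
    have h1 : aeval ζ g = 0 := by rw [hg2 ζ hj0']; show _ * aeval x f = 0; rw [hf, mul_zero]
    have h3 := hOn N g hg h1
    rw [hg2 ζ' hj0] at h3
    exact (mul_eq_zero.mp h3).resolve_left (pow_ne_zero _ hj0)
  have hPx : aeval x P ≠ 0 := by
    intro h
    apply hPζ
    have h1 := DimDrop_smul hP (ζ j0) x
    have h3 : (fun i => ζ j0 * x i) = ζ := by
      funext i; rw [hx]; field_simp
    rw [h3, h, mul_zero] at h1
    exact h1
  have hPx' : aeval x' P = 0 := by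
    have h1 := DimDrop_smul hP (ζ' j0) x'
    have h3 : (fun i => ζ' j0 * x' i) = ζ' := by
      funext i; rw [hx']; field_simp
    rw [h3, hPζ'] at h1
    exact (mul_eq_zero.mp h1.symm).resolve_left (pow_ne_zero _ hj0)
  have hsZ := (h2 _ _).mp hs
  -- (2)
  have hs2 : AlgebraicIndependent ℚ (fun i => x (s i)) := by
    rw [h2]
    intro G hG
    apply hsZ
    have h1 : aeval x (rename s G) = 0 := by rw [aeval_rename]; exact hG
    have h3 := key _ h1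
    rwa [aeval_rename] at h3
  -- (3)
  have hnot : ∀ j, IsAlgebraic (Algebra.adjoin ℚ (Set.range fun i => x (s i))) (x j) := by
    intro j
    by_contra hj
    have h1 : AlgebraicIndependent ℚ (fun o : Option (Fin k) => o.elim (x j) fun i => x (s i)) :=
      (hs2.option_iff_transcendental (x j)).mpr hj
    apply hζ j0 hj0' (fun i => (finSuccEquiv k i).elim j s)
    have h3 := (algebraicIndependent_equiv (R := ℚ) (finSuccEquiv k)).mpr h1
    convert h3 using 1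
    funext i
    simp only [Function.comp_apply]
    cases finSuccEquiv k i <;> rfl
  have hyalg : ∀ Q : MvPolynomial ι ℤ,
      IsAlgebraic (Algebra.adjoin ℚ (Set.range fun i => x (s i))) (aeval x Q) := by
    intro Q
    induction Q using MvPolynomial.induction_on with
    | C a =>
      rw [aeval_C]
      have : (algebraMap ℤ ℂ a) =
          algebraMap (Algebra.adjoin ℚ (Set.range fun i => x (s i))) ℂ a := by
        simp
      rw [this]; exact isAlgebraic_algebraMap _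
    | add p q hp hq => rw [map_add]; exact hp.add hq
    | mul_X p i hp => rw [map_mul, aeval_X]; exact hp.mul (hnot i)
  -- (4)
  set y := aeval x P with hy
  have hcoeff : ∀ q : Polynomial (MvPolynomial (Fin k) ℤ),
      q.eval₂ (aeval (fun i => x (s i)) : MvPolynomial (Fin k) ℤ →ₐ[ℤ] ℂ).toRingHom y = 0 →
        q.coeff 0 = 0 := by
    intro q hq
    have h1 : aeval x (q.eval₂ (rename s : MvPolynomial (Fin k) ℤ →ₐ[ℤ] _).toRingHom P) = 0 := by
      rw [← hq]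
      have := Polynomial.hom_eval₂ q (rename s : MvPolynomial (Fin k) ℤ →ₐ[ℤ] _).toRingHom
        (aeval x : MvPolynomial ι ℤ →ₐ[ℤ] ℂ).toRingHom P
      refine this.trans ?_
      congr 1
      refine MvPolynomial.ringHom_ext (fun r => ?_) (fun i => ?_)
      · simp
      · simp
    have h3 := key _ h1
    apply hsZ
    rw [← h3]
    have := Polynomial.hom_eval₂ q (rename s : MvPolynomial (Fin k) ℤ →ₐ[ℤ] _).toRingHom
        (aeval x' : MvPolynomial ι ℤ →ₐ[ℤ] ℂ).toRingHom P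
    have h4 : (aeval x' : MvPolynomial ι ℤ →ₐ[ℤ] ℂ).toRingHom P = 0 := hPx'
    refine Eq.trans ?_ this.symm
    rw [h4, Polynomial.eval₂_at_zero]
    simp [aeval_rename, Function.comp_def, hx']
  have hall : ∀ (n : ℕ) (q : Polynomial (MvPolynomial (Fin k) ℤ)), q.natDegree ≤ n →
      q.eval₂ (aeval (fun i => x (s i)) : MvPolynomial (Fin k) ℤ →ₐ[ℤ] ℂ).toRingHom y = 0 →
        q = 0 := by
    intro n
    induction n with
    | zero =>
      intro q hq hq0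
      rw [Polynomial.eq_C_of_natDegree_le_zero hq, hcoeff q hq0, Polynomial.C_0]
    | succ n ih =>
      intro q hq hq0
      have h1 := hcoeff q hq0
      have h3 := Polynomial.divX_mul_X_add q
      rw [h1, Polynomial.C_0, add_zero] at h3
      have h4 : q.divX = 0 := by
        apply ih
        · rw [Polynomial.natDegree_divX_eq_natDegree_tsub_one]; omega
        · rw [← h3, Polynomial.eval₂_mul, Polynomial.eval₂_X] at hq0
          exact (mul_eq_zero.mp hq0).resolve_right hPx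
      rw [← h3, h4, zero_mul]
  have hfin : AlgebraicIndependent ℚ (fun o : Option (Fin k) => o.elim y fun i => x (s i)) := by
    rw [h2]
    intro G hG
    have h1 : (Polynomial.eval₂RingHom
        (aeval (fun i => x (s i)) : MvPolynomial (Fin k) ℤ →ₐ[ℤ] ℂ).toRingHom y).comp
        (optionEquivLeft ℤ (Fin k)).toRingEquiv.toRingHom =
        (aeval (fun o : Option (Fin k) => o.elim y fun i => x (s i)) :
          MvPolynomial (Option (Fin k)) ℤ →ₐ[ℤ] ℂ).toRingHom := by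
      refine MvPolynomial.ringHom_ext (fun r => ?_) (fun i => ?_)
      · simp
      · cases i <;> simp
    have h3 : (optionEquivLeft ℤ (Fin k)) G = 0 := by
      refine hall _ _ le_rfl ?_
      have := RingHom.congr_fun h1 G
      refine Eq.trans this ?_
      exact hG
    simpa using h3
  exact ((hs2.option_iff_transcendental y).mp hfin) (hyalg P)

end Pool.Agent.Work.MP_327059_nt.GL

end

section

/-!
# C07: the Chow form at the generic parameter is a product of linear forms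
-/

set_option autoImplicit false

namespace Pool.Agent.Work.MP_327059_nt.GL

open MvPolynomial

/-- Specialisation of the right block of variables. -/
noncomputable def FacN_sp {ι n : Type} (y : n → ℂ) : MvPolynomial (ι ⊕ n) ℤ →ₐ[ℤ] MvPolynomial ι ℂ :=
  aeval (Sum.elim (fun j => (X j : MvPolynomial ι ℂ)) (fun i => C (y i)))

lemma FacN_eval_sp {ι n : Type} (y : n → ℂ) (U : ι → ℂ) (G : MvPolynomial (ι ⊕ n) ℤ) :
    eval U (FacN_sp y G) = aeval (Sum.elim U y) G := by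
  induction G using MvPolynomial.induction_on with
  | C a => simp [FacN_sp]
  | add p q hp hq => simp [hp, hq]
  | mul_X p i hp =>
    rw [map_mul, map_mul, map_mul, hp]
    congr 1
    rcases i with i | i <;> simp [FacN_sp]

/-- The linear form attached to a vector. -/
noncomputable def FacN_ell {ι : Type} [Fintype ι] (ξ : ι → ℂ) : MvPolynomial ι ℂ :=
  ∑ j, C (ξ j) * X j

lemma FacN_eval_ell {ι : Type} [Fintype ι] (ξ U : ι → ℂ) :
    eval U (FacN_ell ξ) = ∑ j, U j * ξ j := by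
  simp [FacN_ell, mul_comm]

lemma FacN_prime {ι : Type} [Fintype ι] (ξ : ι → ℂ) (h : ∃ j, ξ j ≠ 0) : Prime (FacN_ell ξ) := by
  classical
  obtain ⟨j0, hj0⟩ := h
  have h1 : FacN_ell ξ = sumSMulX (Finsupp.equivFunOnFinite.symm ξ) := by
    rw [FacN_ell, sumSMulX, Finsupp.linearCombination_apply, Finsupp.sum_fintype _ _ (by simp)]
    refine Finset.sum_congr rfl fun j _ => ?_
    rw [smul_eq_C_mul]
    rfl
  rw [h1]
  refine (irreducible_sumSMulX _ ⟨j0, ?_⟩ ?_).prime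
  · simpa using hj0
  · intro r hr
    have h2 := hr j0
    rw [isUnit_iff_ne_zero]
    rintro rfl
    rw [zero_dvd_iff] at h2
    exact hj0 (by simpa using h2)

theorem pr_FacN (h1 : S_Orb) : S_FacN := by
  classical
  intro ι n _ _ F u0 ζ y hF hort hj0 halg
  obtain ⟨j0, hj0⟩ := hj0
  obtain ⟨O, hζO, hCj, hAlg, N, c, hc, hN⟩ := h1 ι n y ζ halg
  have hN0 : aeval (Sum.elim u0 y) N = 0 := by
    rw [hN u0, Finset.prod_eq_zero hζO hort, mul_zero]
  obtain ⟨Q, hQ⟩ := hF N hN0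
  have hpr : ∀ ξ ∈ O, Prime (FacN_ell ξ) := by
    intro ξ hξ
    apply FacN_prime
    refine ⟨j0, ?_⟩
    have h2 := (hCj ξ hξ (X (Sum.inl j0) - 1)).1 (by simp [hj0])
    have h3 : ξ j0 = 1 := by
      have : ξ j0 - 1 = 0 := by simpa using h2
      linear_combination this
    rw [h3]
    exact one_ne_zero
  have hprod : FacN_sp y F * FacN_sp y Q = C (aeval y c) * ∏ ξ ∈ O, FacN_ell ξ := by
    rw [← map_mul, ← hQ]
    apply MvPolynomial.funext
    intro U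
    rw [FacN_eval_sp, hN U, map_mul, map_prod, eval_C]
    congr 1
    exact Finset.prod_congr rfl fun ξ _ => (FacN_eval_ell ξ U).symm
  obtain ⟨T, T', b, b', hTT, -, hbb, hb, -⟩ := mul_eq_mul_prime_prod hpr hprod
  have hub : IsUnit b := by
    have : IsUnit (C (aeval y c) : MvPolynomial ι ℂ) := (isUnit_iff_ne_zero.2 hc).map C
    rw [hbb] at this
    exact isUnit_of_mul_isUnit_left this
  obtain ⟨a, ha, rfl⟩ := MvPolynomial.isUnit_iff_eq_C_of_isReduced.1 hub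
  have hsub : ∀ ξ ∈ T, ξ ∈ O := fun ξ hξ => hTT ▸ Finset.mem_union_left _ hξ
  refine ⟨T.card, a, fun t => (T.equivFin.symm t : ι → ℂ), ha.ne_zero,
    fun t => hCj _ (hsub _ (T.equivFin.symm t).2),
    fun t => hAlg _ (hsub _ (T.equivFin.symm t).2), ?_⟩
  intro U
  rw [← FacN_eval_sp, hb, map_mul, map_prod, eval_C]
  congr 1
  rw [← Finset.prod_coe_sort]
  rw [← Equiv.prod_comp T.equivFin.symm]
  exact Finset.prod_congr rfl fun ξ _ => FacN_eval_ell _ U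

end Pool.Agent.Work.MP_327059_nt.GL

end

section

/-!
# PART C, item C45: far points
-/

set_option autoImplicit false

namespace Pool.Agent.Work.MP_327059_nt.GL

open MvPolynomial

theorem Far_moveAll {σ : Type} [Fintype σ] {k : ℕ} (θ : σ → ℂ) (A : ℝ) (hA : 0 ≤ A)
    (F : MvPolynomial (Fin k × Option σ) ℤ)
    (hmove : ∀ (i0 : Fin k) (w : Fin k → Option σ → ℂ), (∀ o, ‖w i0 o‖ ≤ 1) →
      ∃ W : σ → ℂ, (∀ j, ‖W j‖ ≤ 1) ∧
        ‖ev w F‖ ≤ A * ‖ev (Function.update w i0 (perp θ W)) F‖)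
    (w0 : Fin k → Option σ → ℂ) (hw0 : ∀ i o, ‖w0 i o‖ ≤ 1) (T : Finset (Fin k)) :
    ∃ W : Fin k → σ → ℂ, (∀ i j, ‖W i j‖ ≤ 1) ∧
      ‖ev w0 F‖ ≤ A ^ T.card * ‖ev (fun i => if i ∈ T then perp θ (W i) else w0 i) F‖ := by
  classical
  induction T using Finset.induction_on with
  | empty =>
    refine ⟨0, ?_, ?_⟩
    · intro i j
      simp
    · simp
  | insert a T ha ih =>
    obtain ⟨W, hW, hF⟩ := ih
    obtain ⟨W', hW', hF'⟩ := hmove a (fun i => if i ∈ T then perp θ (W i) else w0 i) (by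
      intro o
      simp only [ha, if_false]
      exact hw0 a o)
    refine ⟨Function.update W a W', ?_, ?_⟩
    · intro i j
      by_cases hi : i = a
      · subst hi
        simp only [Function.update_self]
        exact hW' j
      · rw [Function.update_of_ne hi]
        exact hW i j
    · have heq : Function.update (fun i => if i ∈ T then perp θ (W i) else w0 i) a (perp θ W') =
          (fun i => if i ∈ insert a T then perp θ (Function.update W a W' i) else w0 i) := by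
        funext i
        by_cases hi : i = a
        · subst hi
          simp
        · rw [Function.update_of_ne hi, Function.update_of_ne hi]
          simp [hi]
      rw [heq] at hF'
      rw [Finset.card_insert_of_notMem ha, pow_succ, mul_assoc]
      exact hF.trans (mul_le_mul_of_nonneg_left hF' (pow_nonneg hA _))

theorem pr_Far (h1 : S_FarMove) (h2 : S_Sup) (h3 : S_LenEv) (h4 : S_ThEv) : S_Far := by
  intro σ _ k θ
  obtain ⟨B, hB1, hB⟩ := h1 σ k θ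
  refine ⟨2 ^ (Fintype.card σ + 1) * B, ?_, ?_⟩
  · have h2' : (1 : ℝ) ≤ 2 ^ (Fintype.card σ + 1) := one_le_pow₀ (by norm_num)
    calc (1 : ℝ) = 1 * 1 := by ring
      _ ≤ 2 ^ (Fintype.card σ + 1) * B := mul_le_mul h2' hB1 (by norm_num) (by positivity)
  intro F u ζ hD R hR0 hR1 hfar
  have hBpos : 0 < B := by linarith
  set D := F.totalDegree with hDdef
  have hmove := hB F u ζ hD R hR0 hR1 hfar
  obtain ⟨z, hz, hzF⟩ := h2 (Fin k × Option σ) (map (Int.castRingHom ℂ) F)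
  have hF0 : F ≠ 0 := hD.1.ne_zero
  have hlen : 1 ≤ len F := h3.2.2.1 _ F hF0
  rw [h3.2.2.2] at hzF
  have hev : eval z (map (Int.castRingHom ℂ) F) = ev (fun i o => z (i, o)) F := by
    unfold ev
    rw [eval_map, aeval_def]
    congr 1
  rw [hev] at hzF
  have hBR : 0 ≤ (B / R) ^ D := by positivity
  obtain ⟨W, hW, hWF⟩ := Far_moveAll θ ((B / R) ^ D) hBR F hmove (fun i o => z (i, o))
    (fun i o => hz (i, o)) Finset.univ
  simp only [Finset.mem_univ, if_true, Finset.card_univ, Fintype.card_fin] at hWF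
  rw [← (h4 σ k θ F).1 W] at hWF
  have hth := h3.1 (Fin k × σ) (th θ F) (fun p => W p.1 p.2) 1 le_rfl (fun p => hW p.1 p.2)
  rw [one_pow, mul_one] at hth
  have hdeg : (map (Int.castRingHom ℂ) F).totalDegree ≤ D := by
    exact Finset.sup_mono (support_map_subset ..)
  have hcard : Fintype.card (Fin k × Option σ) = k * (Fintype.card σ + 1) := by
    simp [Fintype.card_prod, Fintype.card_option]
  rw [hcard] at hzF
  have hL : (0 : ℝ) ≤ lenC (th θ F) := by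
    unfold lenC
    positivity
  have key : (1 : ℝ) ≤ 2 ^ (k * (Fintype.card σ + 1) * D) *
      (((B / R) ^ D) ^ k * lenC (th θ F)) := by
    calc (1 : ℝ) ≤ len F := hlen
      _ ≤ _ := hzF
      _ ≤ 2 ^ (k * (Fintype.card σ + 1) * D) * (((B / R) ^ D) ^ k * lenC (th θ F)) := by
        apply mul_le_mul
        · apply pow_le_pow_right₀ (by norm_num)
          exact Nat.mul_le_mul_left _ hdeg
        · exact hWF.trans (mul_le_mul_of_nonneg_left hth (pow_nonneg hBR _))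
        · positivity
        · positivity
  have hid : (2 : ℝ) ^ (k * (Fintype.card σ + 1) * D) * ((B / R) ^ D) ^ k =
      ((2 ^ (Fintype.card σ + 1) * B) / R) ^ (k * D) := by
    rw [← pow_mul, mul_comm D k, div_pow, div_pow, mul_pow, ← pow_mul,
      show (Fintype.card σ + 1) * (k * D) = k * (Fintype.card σ + 1) * D by ring]
    ring
  rw [← mul_assoc, hid] at key
  have hpos : (0 : ℝ) < ((2 ^ (Fintype.card σ + 1) * B) / R) ^ (k * D) := by positivity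
  have hinv : (R / (2 ^ (Fintype.card σ + 1) * B)) ^ (k * D) =
      (((2 ^ (Fintype.card σ + 1) * B) / R) ^ (k * D))⁻¹ := by
    rw [← inv_pow, inv_div]
  rw [hinv]
  rw [inv_le_iff_one_le_mul₀ hpos]
  linarith [mul_comm (lenC (th θ F)) (((2 ^ (Fintype.card σ + 1) * B) / R) ^ (k * D))]

end Pool.Agent.Work.MP_327059_nt.GL

end
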