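import Mathlib
import Pool.Agent.Work.MP_327059_nt.AA.Stmts

/-! Bundle of small proof modules (one section per former module). -/

section

/-!
# Cramer's rule with estimates
-/

set_option autoImplicit false

namespace Pool.Agent.Work.MP_327059_nt.AA

theorem pr_Cramer (h1 : S_DetRow) : S_Cramer := by
  intro n A v w R i hAv hR h1R
  have e1 : A.adjugate.mulVec w = A.det • v := by
    rw [← hAv, Matrix.mulVec_mulVec, Matrix.adjugate_mul, Matrix.smul_mulVec, Matrix.one_mulVec]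
  have e2 : A.det * v i = ∑ j, A.adjugate i j * w j := by
    have h2 := congrFun e1 i
    simp only [Matrix.mulVec, dotProduct, Pi.smul_apply, smul_eq_mul] at h2
    exact h2.symm
  have e3 : ∀ j, ‖A.adjugate i j‖ ≤ ∏ k, R k := by
    intro j
    rw [Matrix.adjugate_apply]
    refine (h1 n _).trans ?_
    apply Finset.prod_le_prod
    · intro k _
      exact Finset.sum_nonneg fun _ _ => norm_nonneg _
    · intro k _
      by_cases hk : k = j
      · subst hk
        simp only [Matrix.updateRow_self]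
        have h3 : ∑ l, ‖(Pi.single i (1 : ℂ) : Fin n → ℂ) l‖ = 1 := by
          rw [Finset.sum_eq_single i]
          · simp
          · intro l _ hl
            rw [Pi.single_eq_of_ne hl, norm_zero]
          · intro h
            exact absurd (Finset.mem_univ i) h
        rw [h3]
        exact h1R k
      · simp only [Matrix.updateRow_ne hk]
        exact hR k
  calc ‖A.det‖ * ‖v i‖ = ‖∑ j, A.adjugate i j * w j‖ := by rw [← norm_mul, e2]
    _ ≤ ∑ j, ‖A.adjugate i j * w j‖ := norm_sum_le _ _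
    _ ≤ ∑ j, ‖w j‖ * ∏ k, R k := by
        refine Finset.sum_le_sum fun j _ => ?_
        rw [norm_mul, mul_comm]
        exact mul_le_mul_of_nonneg_left (e3 j) (norm_nonneg _)
    _ = (∑ j, ‖w j‖) * ∏ k, R k := by rw [Finset.sum_mul]

end Pool.Agent.Work.MP_327059_nt.AA

end

section

/-!
# Row bound for determinants
-/

set_option autoImplicit false

namespace Pool.Agent.Work.MP_327059_nt.AA

theorem pr_DetRow : S_DetRow := by
  intro n A
  classical
  rw [← Matrix.det_transpose, Matrix.det_apply]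
  refine (norm_sum_le _ _).trans ?_
  have h1 : ∀ σ : Equiv.Perm (Fin n),
      ‖Equiv.Perm.sign σ • ∏ i, A.transpose (σ i) i‖ = ∏ i, ‖A i (σ i)‖ := by
    intro σ
    rw [Units.smul_def, zsmul_eq_mul, norm_mul, norm_prod]
    rcases Int.units_eq_one_or (Equiv.Perm.sign σ) with h | h <;> simp [h, Matrix.transpose_apply]
  rw [Finset.sum_congr rfl fun σ _ => h1 σ]
  have h2 : ∏ i, ∑ j, ‖A i j‖ = ∑ g : Fin n → Fin n, ∏ i, ‖A i (g i)‖ := by
    rw [Finset.prod_univ_sum]
    simp
  rw [h2]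
  let e : Equiv.Perm (Fin n) ↪ (Fin n → Fin n) := ⟨fun σ => σ, fun _ _ h => Equiv.coe_fn_injective h⟩
  have h3 : ∑ σ : Equiv.Perm (Fin n), ∏ i, ‖A i (σ i)‖ =
      ∑ g ∈ Finset.univ.map e, ∏ i, ‖A i (g i)‖ := by
    rw [Finset.sum_map]
    rfl
  rw [h3]
  exact Finset.sum_le_sum_of_subset_of_nonneg (Finset.subset_univ _)
    fun g _ _ => Finset.prod_nonneg fun i _ => norm_nonneg _

end Pool.Agent.Work.MP_327059_nt.AA

end

section

/-!
# Liouville's inequality
-/

set_option autoImplicit false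

namespace Pool.Agent.Work.MP_327059_nt.AA

open Polynomial

theorem pr_Liou (h : S_NL) : S_Liou := by
  intro r x hx
  obtain ⟨C, hC, h1⟩ := h r 1 x (fun i => (hx i).tower_top _)
  refine ⟨C, hC, fun D H ξ hH hξ hξ0 => ?_⟩
  obtain ⟨P, hP0, -, -, hP⟩ := h1 D H ξ hH hξ hξ0
  refine le_trans ?_ hP
  have h2 : aeval (1 : ℂ) P = ((P.eval 1 : ℤ) : ℂ) := by
    rw [aeval_def, eval₂_at_one]
    simp
  rw [h2] at hP0 ⊢
  have h3 : P.eval 1 ≠ 0 := by
    intro h4
    rw [h4] at hP0
    simp at hP0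
  rw [Complex.norm_intCast]
  exact_mod_cast Int.one_le_abs h3

end Pool.Agent.Work.MP_327059_nt.AA

end

section

/-!
# Norms: a small value gives a small value of a polynomial in `θ`
-/

set_option autoImplicit false

namespace Pool.Agent.Work.MP_327059_nt.AA

open Polynomial

/-! ### Lengths -/

theorem NL_len_nonneg (P : ℤ[X]) : 0 ≤ len P := Finset.sum_nonneg fun _ _ => abs_nonneg _

theorem NL_len_eq (P : ℤ[X]) (s : Finset ℕ) (h : P.support ⊆ s) :
    len P = ∑ i ∈ s, |(P.coeff i : ℝ)| := by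
  unfold len
  apply Finset.sum_subset h
  intro i _ hi
  rw [Polynomial.notMem_support_iff.1 hi]
  simp

theorem NL_len_zero : len 0 = 0 := by simp [len]

theorem NL_len_add (P Q : ℤ[X]) : len (P + Q) ≤ len P + len Q := by
  classical
  have h1 := NL_len_eq P (P.support ∪ Q.support) Finset.subset_union_left
  have h2 := NL_len_eq Q (P.support ∪ Q.support) Finset.subset_union_right
  have h3 := NL_len_eq (P + Q) (P.support ∪ Q.support) Polynomial.support_add
  rw [h1, h2, h3, ← Finset.sum_add_distrib]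
  apply Finset.sum_le_sum
  intro i _
  rw [coeff_add]
  push_cast
  exact abs_add_le _ _

theorem NL_len_sum {ι : Type*} (s : Finset ι) (f : ι → ℤ[X]) :
    len (∑ i ∈ s, f i) ≤ ∑ i ∈ s, len (f i) := by
  classical
  induction s using Finset.induction_on with
  | empty => simp [NL_len_zero]
  | insert a s ha ih =>
    rw [Finset.sum_insert ha, Finset.sum_insert ha]
    exact (NL_len_add _ _).trans (by linarith)

theorem NL_len_monomial (n : ℕ) (a : ℤ) : len (monomial n a) ≤ |(a : ℝ)| := by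
  rw [NL_len_eq _ {n} (Polynomial.support_monomial_subset n a)]
  simp

theorem NL_len_C (a : ℤ) : len (C a) ≤ |(a : ℝ)| := NL_len_monomial 0 a

theorem NL_len_one : len 1 ≤ 1 := by
  have := NL_len_C 1
  simpa using this

theorem NL_len_mul (P Q : ℤ[X]) : len (P * Q) ≤ len P * len Q := by
  rw [Polynomial.mul_eq_sum_sum]
  refine (NL_len_sum _ _).trans ?_
  unfold len
  rw [Finset.sum_mul]
  apply Finset.sum_le_sum
  intro i _
  rw [Polynomial.sum_def]
  refine (NL_len_sum _ _).trans ?_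
  rw [Finset.mul_sum]
  apply Finset.sum_le_sum
  intro j _
  refine (NL_len_monomial _ _).trans ?_
  push_cast
  rw [abs_mul]

theorem NL_len_prod {ι : Type*} (s : Finset ι) (f : ι → ℤ[X]) :
    len (∏ i ∈ s, f i) ≤ ∏ i ∈ s, len (f i) := by
  classical
  induction s using Finset.induction_on with
  | empty => simpa using NL_len_one
  | insert a s ha ih =>
    rw [Finset.prod_insert ha, Finset.prod_insert ha]
    exact (NL_len_mul _ _).trans (mul_le_mul_of_nonneg_left ih (NL_len_nonneg _))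

theorem NL_len_pow (P : ℤ[X]) (m : ℕ) : len (P ^ m) ≤ len P ^ m := by
  have := NL_len_prod (Finset.range m) (fun _ => P)
  simpa using this

theorem NL_len_neg (P : ℤ[X]) : len (-P) = len P := by
  unfold len
  rw [Polynomial.support_neg]
  apply Finset.sum_congr rfl
  intro i _
  rw [coeff_neg]
  push_cast
  rw [abs_neg]

theorem NL_aeval (θ : ℂ) (P : ℤ[X]) (m : ℕ) (h : P.natDegree ≤ m) :
    ‖aeval θ P‖ ≤ len P * (max 1 ‖θ‖) ^ m := by
  rw [Polynomial.aeval_eq_sum_range]
  rw [NL_len_eq P (Finset.range (P.natDegree + 1)) (by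
    intro i hi
    rw [Finset.mem_range]
    have := Polynomial.le_natDegree_of_mem_supp i hi
    omega)]
  rw [Finset.sum_mul]
  refine (norm_sum_le _ _).trans ?_
  apply Finset.sum_le_sum
  intro i hi
  rw [zsmul_eq_mul, norm_mul, Complex.norm_intCast, norm_pow]
  apply mul_le_mul_of_nonneg_left _ (abs_nonneg _)
  have hi' := Finset.mem_range.1 hi
  calc ‖θ‖ ^ i ≤ (max 1 ‖θ‖) ^ i := pow_le_pow_left₀ (norm_nonneg _) (le_max_right _ _) _
    _ ≤ (max 1 ‖θ‖) ^ m := pow_le_pow_right₀ (le_max_left _ _) (by omega)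

/-! ### Denominators -/

/-- elements of `ℚ(θ)` are quotients of values of integer polynomials -/
theorem NL_frac (θ : ℂ) (f : ℂ) (hf : f ∈ IntermediateField.adjoin ℚ {θ}) :
    ∃ A q : ℤ[X], aeval θ q ≠ 0 ∧ aeval θ q * f = aeval θ A := by
  obtain ⟨r, s, h⟩ := (IntermediateField.mem_adjoin_simple_iff ℚ f).1 hf
  by_cases hs : aeval θ s = 0
  · refine ⟨0, 1, by simp, ?_⟩
    rw [h, hs]; simp
  · obtain ⟨b, hb, hb2⟩ := IsLocalization.integerNormalization_spec (nonZeroDivisors ℤ) r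
    obtain ⟨c, hc, hc2⟩ := IsLocalization.integerNormalization_spec (nonZeroDivisors ℤ) s
    set r' := IsLocalization.integerNormalization (nonZeroDivisors ℤ) r
    set s' := IsLocalization.integerNormalization (nonZeroDivisors ℤ) s
    have hr1 : aeval θ r' = (b : ℂ) * aeval θ r := by
      have h1 : aeval θ r' = aeval θ (r'.map (algebraMap ℤ ℚ)) := by
        rw [Polynomial.aeval_map_algebraMap]
      rw [h1, hb2]
      simp
    have hs1 : aeval θ s' = (c : ℂ) * aeval θ s := by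
      have h1 : aeval θ s' = aeval θ (s'.map (algebraMap ℤ ℚ)) := by
        rw [Polynomial.aeval_map_algebraMap]
      rw [h1, hc2]
      simp
    have hb0 : b ≠ 0 := nonZeroDivisors.ne_zero hb
    have hc0 : c ≠ 0 := nonZeroDivisors.ne_zero hc
    have hCb : aeval θ (C b : ℤ[X]) = (b : ℂ) := by simp
    have hCc : aeval θ (C c : ℤ[X]) = (c : ℂ) := by simp
    refine ⟨C c * r', C b * s', ?_, ?_⟩
    · rw [map_mul, hs1, hCb]
      have h1 : (b : ℂ) ≠ 0 := by exact_mod_cast hb0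
      have h2 : (c : ℂ) ≠ 0 := by exact_mod_cast hc0
      exact mul_ne_zero h1 (mul_ne_zero h2 hs)
    · rw [map_mul, map_mul, hs1, hr1, h, hCb, hCc]
      field_simp

theorem NL_common {κ : Type} [Fintype κ] (θ : ℂ) (f : κ → ℂ)
    (hf : ∀ t, f t ∈ IntermediateField.adjoin ℚ {θ}) :
    ∃ q : ℤ[X], aeval θ q ≠ 0 ∧ ∀ t, ∃ A : ℤ[X], aeval θ q * f t = aeval θ A := by
  classical
  choose A q hq hA using fun t => NL_frac θ (f t) (hf t)
  refine ⟨∏ t, q t, ?_, ?_⟩
  · rw [map_prod]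
    exact Finset.prod_ne_zero_iff.2 fun t _ => hq t
  · intro t
    refine ⟨A t * ∏ u ∈ Finset.univ.erase t, q u, ?_⟩
    rw [map_mul, ← hA t, ← Finset.mul_prod_erase Finset.univ q (Finset.mem_univ t), map_mul]
    ring

/-! ### Determinants -/

theorem NL_det_natDegree {g : ℕ} (A : Matrix (Fin g) (Fin g) ℤ[X]) (m : ℕ)
    (h : ∀ i j, (A i j).natDegree ≤ m) : A.det.natDegree ≤ g * m := by
  rw [Matrix.det_apply]
  apply Polynomial.natDegree_sum_le_of_forall_le
  intro σ _
  refine (Polynomial.natDegree_smul_le _ _).trans ?_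
  refine (Polynomial.natDegree_prod_le _ _).trans ?_
  refine (Finset.sum_le_sum fun i _ => h (σ i) i).trans ?_
  simp

theorem NL_det_len {g : ℕ} (A : Matrix (Fin g) (Fin g) ℤ[X]) :
    len A.det ≤ ∏ i, ∑ j, len (A i j) := by
  classical
  rw [← Matrix.det_transpose, Matrix.det_apply, Finset.prod_univ_sum]
  refine (NL_len_sum _ _).trans ?_
  have h1 : ∀ σ : Equiv.Perm (Fin g), len (Equiv.Perm.sign σ • ∏ i, A.transpose (σ i) i) ≤
      ∏ i, len (A i (σ i)) := by
    intro σ
    have h2 : len (Equiv.Perm.sign σ • ∏ i, A.transpose (σ i) i) =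
        len (∏ i, A.transpose (σ i) i) := by
      rcases Int.units_eq_one_or (Equiv.Perm.sign σ) with hs | hs
      · rw [hs, one_smul]
      · rw [hs, Units.neg_smul, one_smul, NL_len_neg]
    rw [h2]
    exact NL_len_prod _ _
  refine (Finset.sum_le_sum fun σ _ => h1 σ).trans ?_
  have h3 : ∑ σ : Equiv.Perm (Fin g), ∏ i, len (A i (σ i)) =
      ∑ p ∈ (Finset.univ : Finset (Equiv.Perm (Fin g))).map
        ⟨fun (σ : Equiv.Perm (Fin g)) => (σ : Fin g → Fin g), Equiv.coe_fn_injective⟩,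
          ∏ i, len (A i (p i)) := by
    rw [Finset.sum_map]
    rfl
  rw [h3]
  apply Finset.sum_le_sum_of_subset_of_nonneg
  · intro p _
    simp
  · intro p _ _
    exact Finset.prod_nonneg fun i _ => NL_len_nonneg _

/-! ### The matrices -/

theorem NL_setup {r : ℕ} (θ : ℂ) (x : Fin r → ℂ) (hx : ∀ i, Alg θ (x i)) :
    ∃ (g : ℕ) (v : Fin g → ℂ) (K : Type) (_ : Field K) (ι : K →+* ℂ)
      (N : K →+* Matrix (Fin g) (Fin g) ℂ), 0 < g ∧ (∀ i, v i ≠ 0) ∧ (∀ i, ∃ y : K, ι y = x i) ∧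
      (∀ y i j, N y i j ∈ IntermediateField.adjoin ℚ {θ}) ∧
      ∀ y j, ∑ i, v i * N y i j = ι y * v j := by
  classical
  let F : IntermediateField ℚ ℂ := IntermediateField.adjoin ℚ {θ}
  let E : IntermediateField F ℂ := IntermediateField.adjoin F (Set.range x)
  haveI hfin : FiniteDimensional F E := by
    apply IntermediateField.finiteDimensional_adjoin
    rintro _ ⟨i, rfl⟩
    exact (hx i).isIntegral
  let b := Module.finBasis F E
  refine ⟨Module.finrank F E, fun i => (b i : ℂ), E, inferInstance, algebraMap E ℂ,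
    ((algebraMap F ℂ).mapMatrix).comp (Algebra.leftMulMatrix b).toRingHom,
    Module.finrank_pos, ?_, ?_, ?_, ?_⟩
  · intro i h
    apply b.ne_zero i
    exact Subtype.ext h
  · intro i
    exact ⟨⟨x i, IntermediateField.subset_adjoin _ _ ⟨i, rfl⟩⟩, rfl⟩
  · intro y i j
    exact ((Algebra.leftMulMatrix b y) i j).2
  · intro y j
    have h1 : y * b j = ∑ i, (Algebra.leftMulMatrix b y i j) • b i := by
      simp_rw [Algebra.leftMulMatrix_eq_repr_mul]
      exact (b.sum_repr (y * b j)).symm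
    have h2 := congrArg (algebraMap E ℂ) h1
    rw [map_mul, map_sum] at h2
    have h3 : algebraMap E ℂ (b j) = (b j : ℂ) := rfl
    rw [h3] at h2
    rw [h2]
    apply Finset.sum_congr rfl
    intro i _
    rw [Algebra.smul_def, map_mul, mul_comm]
    rfl

theorem NL_claim {r g : ℕ} (θ : ℂ) (x : Fin r → ℂ) (K : Type) [Field K] (ι : K →+* ℂ)
    (N : K →+* Matrix (Fin g) (Fin g) ℂ) (q : ℤ[X]) (a : ℕ) (c : ℝ) (hc : 1 ≤ c)
    (hq : len q ≤ c) (hqa : q.natDegree ≤ a)
    (hvar : ∀ i, ∃ y : K, ι y = x i ∧ ∃ A : Matrix (Fin g) (Fin g) ℤ[X],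
      (∀ j k, aeval θ q * N y j k = aeval θ (A j k)) ∧ (∀ j k, (A j k).natDegree ≤ a) ∧
      ∀ j, ∑ k, len (A j k) ≤ c) {D : ℕ} {H : ℝ} {ξ : ℂ} (h : IsVal x D H ξ) :
    0 ≤ H ∧ ∃ y : K, ι y = ξ ∧ ∃ A : Matrix (Fin g) (Fin g) ℤ[X],
      (∀ j k, aeval θ q ^ D * N y j k = aeval θ (A j k)) ∧
      (∀ j k, (A j k).natDegree ≤ a * D) ∧ ∀ j, ∑ k, len (A j k) ≤ H * c ^ D := by
  classical
  have hc0 : 0 ≤ c := by linarith
  induction h with
  | int n =>
    refine ⟨abs_nonneg _, (n : K), by simp, fun j k => if j = k then C n else 0, ?_, ?_, ?_⟩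
    · intro j k
      show _ = aeval θ (if j = k then C n else 0)
      rw [map_intCast, pow_zero, one_mul, Matrix.intCast_apply]
      by_cases hjk : j = k
      · rw [if_pos hjk, if_pos hjk]; simp
      · rw [if_neg hjk, if_neg hjk]; simp
    · intro j k
      show (if j = k then C n else (0 : ℤ[X])).natDegree ≤ _
      by_cases hjk : j = k
      · rw [if_pos hjk]; simp
      · rw [if_neg hjk]; simp
    · intro j
      show ∑ k, len (if j = k then C n else (0 : ℤ[X])) ≤ _
      rw [Finset.sum_eq_single j]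
      · simp only [if_true, pow_zero, mul_one]
        exact NL_len_C n
      · intro k _ hk
        rw [if_neg (Ne.symm hk), NL_len_zero]
      · intro h
        exact absurd (Finset.mem_univ _) h
  | var i =>
    obtain ⟨y, hy, A, hA1, hA2, hA3⟩ := hvar i
    refine ⟨zero_le_one, y, hy, A, ?_, ?_, ?_⟩
    · intro j k
      rw [pow_one, hA1]
    · intro j k
      rw [mul_one]
      exact hA2 j k
    · intro j
      rw [pow_one, one_mul]
      exact hA3 j
  | add _ _ ih1 ih2 =>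
    obtain ⟨hH1, y1, hy1, A1, h11, h12, h13⟩ := ih1
    obtain ⟨hH2, y2, hy2, A2, h21, h22, h23⟩ := ih2
    refine ⟨add_nonneg hH1 hH2, y1 + y2, by rw [map_add, hy1, hy2], A1 + A2, ?_, ?_, ?_⟩
    · intro j k
      rw [map_add, Matrix.add_apply, Matrix.add_apply, mul_add, h11, h21, map_add]
    · intro j k
      rw [Matrix.add_apply]
      exact (Polynomial.natDegree_add_le _ _).trans (max_le (h12 j k) (h22 j k))
    · intro j
      calc ∑ k, len ((A1 + A2) j k) ≤ ∑ k, (len (A1 j k) + len (A2 j k)) :=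
            Finset.sum_le_sum fun k _ => NL_len_add _ _
        _ = ∑ k, len (A1 j k) + ∑ k, len (A2 j k) := Finset.sum_add_distrib
        _ ≤ _ := by
            have := h13 j
            have := h23 j
            linarith
  | @mul D1 D2 H1 H2 ξ1 ξ2 _ _ ih1 ih2 =>
    obtain ⟨hH1, y1, hy1, A1, h11, h12, h13⟩ := ih1
    obtain ⟨hH2, y2, hy2, A2, h21, h22, h23⟩ := ih2
    refine ⟨mul_nonneg hH1 hH2, y1 * y2, by rw [map_mul, hy1, hy2], A1 * A2, ?_, ?_, ?_⟩
    · intro j k
      rw [map_mul, Matrix.mul_apply, Matrix.mul_apply, map_sum, Finset.mul_sum]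
      apply Finset.sum_congr rfl
      intro l _
      rw [map_mul, ← h11, ← h21, pow_add]
      ring
    · intro j k
      rw [Matrix.mul_apply]
      apply Polynomial.natDegree_sum_le_of_forall_le
      intro l _
      refine (Polynomial.natDegree_mul_le).trans ?_
      rw [mul_add]
      exact add_le_add (h12 j l) (h22 l k)
    · intro j
      have hcD : 0 ≤ H2 * c ^ D2 := mul_nonneg hH2 (pow_nonneg hc0 _)
      calc ∑ k, len ((A1 * A2) j k) ≤ ∑ k, ∑ l, len (A1 j l) * len (A2 l k) := by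
            apply Finset.sum_le_sum
            intro k _
            rw [Matrix.mul_apply]
            exact (NL_len_sum _ _).trans (Finset.sum_le_sum fun l _ => NL_len_mul _ _)
        _ = ∑ l, len (A1 j l) * ∑ k, len (A2 l k) := by
            rw [Finset.sum_comm]
            exact Finset.sum_congr rfl fun l _ => (Finset.mul_sum _ _ _).symm
        _ ≤ ∑ l, len (A1 j l) * (H2 * c ^ D2) :=
            Finset.sum_le_sum fun l _ => mul_le_mul_of_nonneg_left (h23 l) (NL_len_nonneg _)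
        _ = (∑ l, len (A1 j l)) * (H2 * c ^ D2) := (Finset.sum_mul _ _ _).symm
        _ ≤ (H1 * c ^ D1) * (H2 * c ^ D2) := mul_le_mul_of_nonneg_right (h13 j) hcD
        _ = _ := by rw [pow_add]; ring
  | @mono D1 D2 H1 H2 ξ1 hD hH _ ih =>
    obtain ⟨hH1, y, hy, A, h1, h2, h3⟩ := ih
    obtain ⟨m, rfl⟩ := Nat.exists_eq_add_of_le hD
    refine ⟨hH1.trans hH, y, hy, fun j k => q ^ m * A j k, ?_, ?_, ?_⟩
    · intro j k
      rw [map_mul, ← h1, map_pow, pow_add]
      ring
    · intro j k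
      refine (Polynomial.natDegree_mul_le).trans ?_
      have h4 : (q ^ m).natDegree ≤ a * m := by
        refine (Polynomial.natDegree_pow_le).trans ?_
        rw [mul_comm]
        exact Nat.mul_le_mul_right _ hqa
      have := h2 j k
      rw [mul_add]
      omega
    · intro j
      have h5 : len (q ^ m) ≤ c ^ m :=
        (NL_len_pow q m).trans (pow_le_pow_left₀ (NL_len_nonneg _) hq _)
      calc ∑ k, len (q ^ m * A j k) ≤ ∑ k, c ^ m * len (A j k) :=
            Finset.sum_le_sum fun k _ => (NL_len_mul _ _).trans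
              (mul_le_mul_of_nonneg_right h5 (NL_len_nonneg _))
        _ = c ^ m * ∑ k, len (A j k) := (Finset.mul_sum _ _ _).symm
        _ ≤ c ^ m * (H1 * c ^ D1) := mul_le_mul_of_nonneg_left (h3 j) (pow_nonneg hc0 _)
        _ ≤ c ^ m * (H2 * c ^ D1) := by
            apply mul_le_mul_of_nonneg_left _ (pow_nonneg hc0 _)
            exact mul_le_mul_of_nonneg_right hH (pow_nonneg hc0 _)
        _ = _ := by rw [pow_add]; ring

/-- Norms. -/
theorem pr_NL (h : S_Cramer) : S_NL := by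
  classical
  intro r θ x hx
  obtain ⟨g, v, K, _, ι, N, hg, hv, hι, hN, hmul⟩ := NL_setup θ x hx
  choose y hy using hι
  obtain ⟨q, hq, hA⟩ := NL_common θ (fun t : Fin r × Fin g × Fin g => N (y t.1) t.2.1 t.2.2)
    (fun t => hN _ _ _)
  choose A hA using hA
  -- constants
  obtain ⟨a, ha1, ha2⟩ : ∃ a : ℕ, q.natDegree ≤ a ∧ ∀ t, (A t).natDegree ≤ a := by
    refine ⟨q.natDegree + ∑ t, (A t).natDegree, by omega, fun t => ?_⟩
    have := Finset.single_le_sum (f := fun t => (A t).natDegree) (fun _ _ => Nat.zero_le _)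
      (Finset.mem_univ t)
    omega
  obtain ⟨c, hc1, hc2, hc3⟩ : ∃ c : ℝ, 1 ≤ c ∧ len q ≤ c ∧
      ∀ i j, ∑ k, len (A (i, j, k)) ≤ c := by
    have h0 : 0 ≤ ∑ i, ∑ j, ∑ k, len (A (i, j, k)) :=
      Finset.sum_nonneg fun _ _ => Finset.sum_nonneg fun _ _ => Finset.sum_nonneg fun _ _ =>
        NL_len_nonneg _
    have h1 := NL_len_nonneg q
    refine ⟨1 + len q + ∑ i, ∑ j, ∑ k, len (A (i, j, k)), by linarith, by linarith, ?_⟩
    intro i j
    have h2 : ∑ k, len (A (i, j, k)) ≤ ∑ j, ∑ k, len (A (i, j, k)) :=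
      Finset.single_le_sum (f := fun j => ∑ k, len (A (i, j, k)))
        (fun _ _ => Finset.sum_nonneg fun _ _ => NL_len_nonneg _) (Finset.mem_univ j)
    have h3 : ∑ j, ∑ k, len (A (i, j, k)) ≤ ∑ i, ∑ j, ∑ k, len (A (i, j, k)) :=
      Finset.single_le_sum (f := fun i => ∑ j, ∑ k, len (A (i, j, k)))
        (fun _ _ => Finset.sum_nonneg fun _ _ => Finset.sum_nonneg fun _ _ => NL_len_nonneg _)
        (Finset.mem_univ i)
    linarith
  have hvar : ∀ i, ∃ y : K, ι y = x i ∧ ∃ A : Matrix (Fin g) (Fin g) ℤ[X],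
      (∀ j k, aeval θ q * N y j k = aeval θ (A j k)) ∧ (∀ j k, (A j k).natDegree ≤ a) ∧
      ∀ j, ∑ k, len (A j k) ≤ c := by
    intro i
    exact ⟨y i, hy i, fun j k => A (i, j, k), fun j k => hA (i, j, k), fun j k => ha2 _,
      fun j => hc3 i j⟩
  set i₀ : Fin g := ⟨0, hg⟩ with hi₀
  have hv0 : 0 < ‖v i₀‖ := norm_pos_iff.2 (hv i₀)
  have hVs : ‖v i₀‖ ≤ ∑ j, ‖v j‖ :=
    Finset.single_le_sum (f := fun j => ‖v j‖) (fun _ _ => norm_nonneg _) (Finset.mem_univ i₀)
  have hg1 : (1 : ℝ) ≤ g := by exact_mod_cast hg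
  obtain ⟨LV, hLV0, hLV⟩ : ∃ L : ℝ, 0 ≤ L ∧ (∑ j, ‖v j‖) / ‖v i₀‖ = Real.exp L := by
    have h1 : 1 ≤ (∑ j, ‖v j‖) / ‖v i₀‖ := by rwa [le_div_iff₀ hv0, one_mul]
    exact ⟨Real.log _, Real.log_nonneg h1, (Real.exp_log (by linarith)).symm⟩
  obtain ⟨LQ, hLQ0, hLQ⟩ : ∃ L : ℝ, 0 ≤ L ∧ max 1 ‖aeval θ q‖ = Real.exp L :=
    ⟨Real.log _, Real.log_nonneg (le_max_left _ _),
      (Real.exp_log (lt_of_lt_of_le one_pos (le_max_left _ _))).symm⟩
  obtain ⟨LM, hLM0, hLM⟩ : ∃ L : ℝ, 0 ≤ L ∧ max 1 ‖θ‖ = Real.exp L :=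
    ⟨Real.log _, Real.log_nonneg (le_max_left _ _),
      (Real.exp_log (lt_of_lt_of_le one_pos (le_max_left _ _))).symm⟩
  obtain ⟨Lc, hLc0, hLc⟩ : ∃ L : ℝ, 0 ≤ L ∧ c = Real.exp L :=
    ⟨Real.log c, Real.log_nonneg hc1, (Real.exp_log (by linarith)).symm⟩
  obtain ⟨Lg, hLg0, hLg⟩ : ∃ L : ℝ, 0 ≤ L ∧ (g : ℝ) = Real.exp L :=
    ⟨Real.log g, Real.log_nonneg hg1, (Real.exp_log (by linarith)).symm⟩
  have hga0 : (0 : ℝ) ≤ g * a := by positivity
  have hgc0 : (0 : ℝ) ≤ g * Lc := by positivity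
  have hgg0 : (0 : ℝ) ≤ g * Lg := by positivity
  have hgm0 : (0 : ℝ) ≤ g * a * LM := by positivity
  refine ⟨1 + g * a + g * Lc + g + LV + LQ + g * Lg + g * a * LM, by linarith, ?_⟩
  intro D H ξ hH hval hξ
  obtain ⟨_, η, hη, B, hB1, hB2, hB3⟩ := NL_claim θ x K ι N q a c hc1 hc2 ha1 hvar hval
  obtain ⟨LH, hLH0, hLH⟩ : ∃ L : ℝ, 0 ≤ L ∧ H = Real.exp L :=
    ⟨Real.log H, Real.log_nonneg hH, (Real.exp_log (by linarith)).symm⟩
  have hlogH : Real.log H = LH := by rw [hLH, Real.log_exp]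
  have hD0 : (0 : ℝ) ≤ D := Nat.cast_nonneg D
  have hη0 : η ≠ 0 := by
    rintro rfl
    rw [map_zero] at hη
    exact hξ hη.symm
  have hdetN : (N η).det ≠ 0 := by
    intro h0
    have h1 : N η * N η⁻¹ = 1 := by rw [← map_mul, mul_inv_cancel₀ hη0, map_one]
    have h2 := congrArg Matrix.det h1
    rw [Matrix.det_mul, h0, zero_mul, Matrix.det_one] at h2
    exact zero_ne_one h2
  set Bθ : Matrix (Fin g) (Fin g) ℂ := (aeval θ : ℤ[X] →ₐ[ℤ] ℂ).mapMatrix B with hBθ
  have hBθ1 : Bθ = (aeval θ q ^ D) • N η := by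
    ext j k
    rw [Matrix.smul_apply, smul_eq_mul, hB1 j k]
    rfl
  have hP : aeval θ B.det = Bθ.det := AlgHom.map_det _ _
  have hc0 : 0 ≤ c := by linarith
  have hlen : len B.det ≤ (H * c ^ D) ^ g := by
    refine (NL_det_len B).trans ?_
    refine (Finset.prod_le_prod (fun i _ => Finset.sum_nonneg fun _ _ => NL_len_nonneg _)
      fun i _ => hB3 i).trans ?_
    simp
  have hT1 : (1 : ℝ) ≤ D + 1 + LH := by linarith
  have hTD : (D : ℝ) ≤ D + 1 + LH := by linarith
  have hTH : LH ≤ D + 1 + LH := by linarith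
  refine ⟨B.det, ?_, ?_, ?_, ?_⟩
  · rw [hP, hBθ1, Matrix.det_smul]
    exact mul_ne_zero (pow_ne_zero _ (pow_ne_zero _ hq)) hdetN
  · have h1 := NL_det_natDegree B (a * D) hB2
    have h2 : (B.det.natDegree : ℝ) ≤ g * (a * D) := by exact_mod_cast h1
    have h3 : (g : ℝ) * (a * D) ≤ (g * a) * (D + 1) := by nlinarith
    have h4 : (g * a : ℝ) * (D + 1) ≤
        (1 + g * a + g * Lc + g + LV + LQ + g * Lg + g * a * LM) * (D + 1) := by
      apply mul_le_mul_of_nonneg_right _ (by linarith)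
      linarith
    linarith
  · rw [hlogH]
    have h1 : Real.log (len B.det) ≤ g * (LH + D * Lc) := by
      have h2 : (H * c ^ D) ^ g = Real.exp (g * (LH + D * Lc)) := by
        rw [hLH, hLc, ← Real.exp_nat_mul, ← Real.exp_add, ← Real.exp_nat_mul]
      rcases (NL_len_nonneg B.det).eq_or_lt with h0 | h0
      · rw [← h0, Real.log_zero]
        positivity
      · rw [h2] at hlen
        calc Real.log (len B.det) ≤ Real.log (Real.exp (g * (LH + D * Lc))) :=
              Real.log_le_log h0 hlen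
          _ = _ := Real.log_exp _
    have h3 : g * (LH + D * Lc) ≤ g * (D + 1 + LH) + (g * Lc) * (D + 1 + LH) := by
      have e1 : (g : ℝ) * LH ≤ g * (D + 1 + LH) :=
        mul_le_mul_of_nonneg_left hTH (by linarith)
      have e2 : (g * Lc) * D ≤ (g * Lc) * (D + 1 + LH) := mul_le_mul_of_nonneg_left hTD hgc0
      nlinarith
    have h4 : g * (D + 1 + LH) + (g * Lc) * (D + 1 + LH) ≤
        (1 + g * a + g * Lc + g + LV + LQ + g * Lg + g * a * LM) * (D + 1 + LH) := by
      have e3 : (g + g * Lc) * (D + 1 + LH) ≤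
          (1 + g * a + g * Lc + g + LV + LQ + g * Lg + g * a * LM) * (D + 1 + LH) := by
        apply mul_le_mul_of_nonneg_right _ (by linarith)
        linarith
      linarith
    linarith
  · rw [hlogH]
    have hent : ∀ j k, ‖Bθ j k‖ ≤ H * c ^ D * (max 1 ‖θ‖) ^ (a * D) := by
      intro j k
      have h1 : Bθ j k = aeval θ (B j k) := rfl
      rw [h1]
      refine (NL_aeval θ (B j k) (a * D) (hB2 j k)).trans ?_
      apply mul_le_mul_of_nonneg_right _ (by positivity)
      exact (Finset.single_le_sum (f := fun k => len (B j k)) (fun _ _ => NL_len_nonneg _)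
        (Finset.mem_univ k)).trans (hB3 j)
    have hcr := h g Bθ.transpose v (fun k => aeval θ q ^ D * (ξ * v k))
      (fun _ => g * (H * c ^ D * (max 1 ‖θ‖) ^ (a * D))) i₀ (by
        funext k
        have h1 : Matrix.mulVec Bθ.transpose v k = ∑ j, Bθ j k * v j := rfl
        rw [h1]
        have h2 : ∀ j, Bθ j k * v j = aeval θ q ^ D * (v j * N η j k) := by
          intro j
          rw [hBθ1, Matrix.smul_apply, smul_eq_mul]
          ring
        rw [Finset.sum_congr rfl fun j _ => h2 j, ← Finset.mul_sum, hmul, hη])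
      (by
        intro k
        refine (Finset.sum_le_sum fun j _ => hent j k).trans ?_
        simp)
      (by
        intro k
        have e1 : (1 : ℝ) ≤ c ^ D := one_le_pow₀ hc1
        have e2 : (1 : ℝ) ≤ (max 1 ‖θ‖) ^ (a * D) := one_le_pow₀ (le_max_left _ _)
        have e3 : (1 : ℝ) ≤ H * c ^ D := one_le_mul_of_one_le_of_one_le hH e1
        have e4 : (1 : ℝ) ≤ H * c ^ D * (max 1 ‖θ‖) ^ (a * D) :=
          one_le_mul_of_one_le_of_one_le e3 e2
        exact one_le_mul_of_one_le_of_one_le hg1 e4)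
    rw [Matrix.det_transpose, ← hP] at hcr
    have hw : ∑ j, ‖aeval θ q ^ D * (ξ * v j)‖ = ‖aeval θ q‖ ^ D * (‖ξ‖ * ∑ j, ‖v j‖) := by
      rw [Finset.mul_sum, Finset.mul_sum]
      apply Finset.sum_congr rfl
      intro j _
      rw [norm_mul, norm_mul, norm_pow]
    rw [hw, Finset.prod_const, Finset.card_univ, Fintype.card_fin] at hcr
    have hqD : ‖aeval θ q‖ ^ D ≤ (max 1 ‖aeval θ q‖) ^ D :=
      pow_le_pow_left₀ (norm_nonneg _) (le_max_right _ _) _
    have h5 : ‖aeval θ B.det‖ * ‖v i₀‖ ≤ (max 1 ‖aeval θ q‖) ^ D * (‖ξ‖ * ∑ j, ‖v j‖) *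
        (g * (H * c ^ D * (max 1 ‖θ‖) ^ (a * D))) ^ g := by
      refine hcr.trans ?_
      apply mul_le_mul_of_nonneg_right _ (by positivity)
      exact mul_le_mul_of_nonneg_right hqD (by positivity)
    have h6 : ‖aeval θ B.det‖ ≤ ‖ξ‖ * (((∑ j, ‖v j‖) / ‖v i₀‖) * (max 1 ‖aeval θ q‖) ^ D *
        (g * (H * c ^ D * (max 1 ‖θ‖) ^ (a * D))) ^ g) := by
      rw [← le_div_iff₀ hv0] at h5
      refine h5.trans (le_of_eq ?_)
      ring
    refine h6.trans ?_
    apply mul_le_mul_of_nonneg_left _ (norm_nonneg _)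
    have h7 : ((∑ j, ‖v j‖) / ‖v i₀‖) * (max 1 ‖aeval θ q‖) ^ D *
        (g * (H * c ^ D * (max 1 ‖θ‖) ^ (a * D))) ^ g =
        Real.exp (LV + D * LQ + g * (Lg + (LH + D * Lc + (a * D : ℕ) * LM))) := by
      rw [hLV, hLQ, hLM, hLH, hLc]
      rw [show (g : ℝ) * (Real.exp LH * Real.exp Lc ^ D * Real.exp LM ^ (a * D)) =
        Real.exp Lg * (Real.exp LH * Real.exp Lc ^ D * Real.exp LM ^ (a * D)) by rw [← hLg]]
      rw [← Real.exp_nat_mul, ← Real.exp_nat_mul, ← Real.exp_nat_mul, ← Real.exp_add,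
        ← Real.exp_add, ← Real.exp_add, ← Real.exp_add, ← Real.exp_nat_mul, ← Real.exp_add]
    rw [h7]
    apply Real.exp_le_exp.2
    push_cast
    have f1 : LV ≤ LV * (D + 1 + LH) := by nlinarith
    have f2 : D * LQ ≤ LQ * (D + 1 + LH) := by nlinarith
    have f3 : g * Lg ≤ (g * Lg) * (D + 1 + LH) := by nlinarith
    have f4 : (g : ℝ) * LH ≤ g * (D + 1 + LH) := mul_le_mul_of_nonneg_left hTH (by linarith)
    have f5 : (g * Lc) * D ≤ (g * Lc) * (D + 1 + LH) := mul_le_mul_of_nonneg_left hTD hgc0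
    have f6 : (g * a * LM) * D ≤ (g * a * LM) * (D + 1 + LH) :=
      mul_le_mul_of_nonneg_left hTD hgm0
    have f7 : (0 : ℝ) ≤ (1 + g * a) * (D + 1 + LH) := by positivity
    nlinarith

end Pool.Agent.Work.MP_327059_nt.AA

end
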