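import Mathlib
import Pool.Agent.Work.MP_327059_nt.Bd.B01
import Pool.Agent.Work.MP_8da9ea_nt.Der

/-! Bundle of small proof modules (one section per former module). -/

section

/-!
# PART C, item FarMove: moving one group into theta-perp
-/

set_option autoImplicit false

namespace Pool.Agent.Work.MP_327059_nt.GL

open MvPolynomial

theorem pr_FarMove (h1 : S_SpecI) (h2 : S_LIN) : S_FarMove := by
  intro σ _ k θ
  refine ⟨4 ^ Fintype.card σ, one_le_pow₀ (by norm_num), ?_⟩
  intro F u ζ hD R hR hR1 hfar i0 w hw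
  obtain ⟨d, hd, hspec⟩ := h1 (Option σ) k F u ζ hD i0
  obtain ⟨a, ξ, hξ, hU⟩ := hspec w
  obtain ⟨W, hW, hle⟩ := h2 σ d a (fun t j => ξ t (some j) - θ j * ξ t none)
  refine ⟨W, hW, ?_⟩
  have e1 : ev w F = a * ∏ t, ∑ j, w i0 j * ξ t j := by
    have h := hU (w i0)
    rwa [Function.update_eq_self] at h
  have e2 : ev (Function.update w i0 (perp θ W)) F =
      a * ∏ t, ∑ j, W j * (ξ t (some j) - θ j * ξ t none) := by
    rw [hU]
    congr 1
    apply Finset.prod_congr rfl
    intro t _
    rw [Fintype.sum_option]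
    have h3 : perp θ W none = -∑ j, θ j * W j := rfl
    have h4 : ∀ j, perp θ W (some j) = W j := fun j => rfl
    rw [h3, neg_mul, Finset.sum_mul, neg_add_eq_sub, ← Finset.sum_sub_distrib]
    apply Finset.sum_congr rfl
    intro j _
    rw [h4]
    ring
  have hl : ∀ t, ‖∑ j, w i0 j * ξ t j‖ ≤
      (∑ j, ‖ξ t (some j) - θ j * ξ t none‖) / R := by
    intro t
    rw [le_div_iff₀ hR]
    calc ‖∑ j, w i0 j * ξ t j‖ * R ≤ (∑ o, ‖ξ t o‖) * R := by
          apply mul_le_mul_of_nonneg_right _ hR.le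
          refine (norm_sum_le _ _).trans (Finset.sum_le_sum fun o _ => ?_)
          rw [norm_mul]
          exact mul_le_of_le_one_left (norm_nonneg _) (hw o)
      _ = R * ∑ o, ‖ξ t o‖ := mul_comm _ _
      _ ≤ _ := hfar (ξ t) (hξ t).1 (hξ t).2
  have hN1 : (1 : ℝ) ≤ 4 ^ Fintype.card σ := one_le_pow₀ (by norm_num)
  have hB1 : (1 : ℝ) ≤ 4 ^ Fintype.card σ / R := by
    rw [le_div_iff₀ hR]
    linarith
  calc ‖ev w F‖ = ‖a‖ * ∏ t, ‖∑ j, w i0 j * ξ t j‖ := by
        rw [e1, norm_mul, norm_prod]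
    _ ≤ ‖a‖ * ∏ t, ((∑ j, ‖ξ t (some j) - θ j * ξ t none‖) / R) := by
        apply mul_le_mul_of_nonneg_left _ (norm_nonneg _)
        exact Finset.prod_le_prod (fun t _ => norm_nonneg _) (fun t _ => hl t)
    _ = (‖a‖ * ∏ t, ∑ j, ‖ξ t (some j) - θ j * ξ t none‖) / R ^ d := by
        rw [Finset.prod_div_distrib, Finset.prod_const, Finset.card_univ, Fintype.card_fin,
          mul_div_assoc]
    _ ≤ (4 ^ (Fintype.card σ * d) *
        ‖a * ∏ t, ∑ j, W j * (ξ t (some j) - θ j * ξ t none)‖) / R ^ d := by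
        apply div_le_div_of_nonneg_right hle (by positivity)
    _ = (4 ^ Fintype.card σ / R) ^ d * ‖ev (Function.update w i0 (perp θ W)) F‖ := by
        rw [e2, div_pow, ← pow_mul]
        ring
    _ ≤ (4 ^ Fintype.card σ / R) ^ F.totalDegree *
        ‖ev (Function.update w i0 (perp θ W)) F‖ := by
        apply mul_le_mul_of_nonneg_right _ (norm_nonneg _)
        exact pow_le_pow_right₀ hB1 hd

end Pool.Agent.Work.MP_327059_nt.GL

end

section

/-!
# C31: Gelfond inequality for lengths
-/

set_option autoImplicit false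

namespace Pool.Agent.Work.MP_327059_nt.GL

open MvPolynomial

theorem pr_Gelf (h1 : S_Sup) (h2 : S_GelfPt) (h3 : S_LenEv) : S_Gelf := by
  intro σ _ r f
  have hz : ∀ t : Fin r, ∃ z : σ → ℂ, (∀ i, ‖z i‖ ≤ 1) ∧
      lenC (f t) ≤ 2 ^ (Fintype.card σ * (f t).totalDegree) * ‖eval z (f t)‖ :=
    fun t => h1 σ (f t)
  choose z hz1 hz2 using hz
  obtain ⟨x, hx1, hx2⟩ := h2 σ r f z hz1
  have hnn : ∀ t : Fin r, 0 ≤ lenC (f t) := fun t =>
    Finset.sum_nonneg fun m _ => norm_nonneg _
  have e1 : ∏ t, lenC (f t) ≤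
      ∏ t, ((2 : ℝ) ^ (Fintype.card σ * (f t).totalDegree) * ‖eval (z t) (f t)‖) :=
    Finset.prod_le_prod (fun t _ => hnn t) (fun t _ => hz2 t)
  have e2 : ∏ t, ((2 : ℝ) ^ (Fintype.card σ * (f t).totalDegree) * ‖eval (z t) (f t)‖) =
      (2 : ℝ) ^ (Fintype.card σ * ∑ t, (f t).totalDegree) * ∏ t, ‖eval (z t) (f t)‖ := by
    rw [Finset.prod_mul_distrib, Finset.prod_pow_eq_pow_sum, Finset.mul_sum]
  have e3 : ∏ t, ‖eval x (f t)‖ = ‖eval x (∏ t, f t)‖ := by
    rw [map_prod, norm_prod]
  have e4 : ‖eval x (∏ t, f t)‖ ≤ lenC (∏ t, f t) := by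
    have := h3.1 σ (∏ t, f t) x 1 le_rfl hx1
    simpa using this
  calc ∏ t, lenC (f t)
      ≤ (2 : ℝ) ^ (Fintype.card σ * ∑ t, (f t).totalDegree) * ∏ t, ‖eval (z t) (f t)‖ :=
        e1.trans e2.le
    _ ≤ (2 : ℝ) ^ (Fintype.card σ * ∑ t, (f t).totalDegree) *
        (4 ^ (Fintype.card σ * ∑ t, (f t).totalDegree) * lenC (∏ t, f t)) := by
        apply mul_le_mul_of_nonneg_left _ (by positivity)
        refine hx2.trans ?_
        rw [e3]
        exact mul_le_mul_of_nonneg_left e4 (by positivity)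
    _ = 8 ^ (Fintype.card σ * ∑ t, (f t).totalDegree) * lenC (∏ t, f t) := by
        rw [← mul_assoc, ← mul_pow]
        norm_num

end Pool.Agent.Work.MP_327059_nt.GL

end

section

set_option autoImplicit false

namespace Pool.Agent.Work.MP_327059_nt.GL

open Polynomial

theorem Gelf1_eval_le (p : Polynomial ℂ) (z : ℂ) (hz : ‖z‖ ≤ 1) :
    ‖p.eval z‖ ≤ 2 ^ p.natDegree * p.mahlerMeasure := by
  rw [eval_eq_sum_range]
  calc ‖∑ i ∈ Finset.range (p.natDegree + 1), p.coeff i * z ^ i‖
      ≤ ∑ i ∈ Finset.range (p.natDegree + 1), ‖p.coeff i * z ^ i‖ := norm_sum_le _ _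
    _ ≤ ∑ i ∈ Finset.range (p.natDegree + 1), (p.natDegree.choose i : ℝ) * p.mahlerMeasure := by
        refine Finset.sum_le_sum fun i _ => ?_
        rw [norm_mul, norm_pow]
        calc ‖p.coeff i‖ * ‖z‖ ^ i ≤ ‖p.coeff i‖ * 1 :=
              mul_le_mul_of_nonneg_left (pow_le_one₀ (norm_nonneg _) hz) (norm_nonneg _)
          _ = ‖p.coeff i‖ := mul_one _
          _ ≤ _ := norm_coeff_le_choose_mul_mahlerMeasure i p
    _ = 2 ^ p.natDegree * p.mahlerMeasure := by
        rw [← Finset.sum_mul]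
        congr 1
        have := Nat.sum_range_choose p.natDegree
        exact_mod_cast this

theorem Gelf1_mahler_le (q : Polynomial ℂ) (B : ℝ) (hB : 0 ≤ B)
    (h : ∀ x : ℂ, ‖x‖ ≤ 1 → ‖q.eval x‖ ≤ B) : q.mahlerMeasure ≤ B := by
  refine (mahlerMeasure_le_sqrt_sum_sq_norm_coeff q).trans ?_
  rw [q.sum_sq_norm_coeff_eq_circleAverage]
  refine Real.sqrt_le_iff.mpr ⟨hB, ?_⟩
  apply Real.circleAverage_mono_on_of_le_circle
  · apply ContinuousOn.circleIntegrable'
    fun_prop
  · intro x hx
    have hx1 : ‖x‖ ≤ 1 := by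
      have := mem_sphere_zero_iff_norm.mp hx
      rw [this]; simp
    have := h x hx1
    gcongr

theorem pr_Gelf1 : S_Gelf1 := by
  classical
  intro r p z hz
  by_cases h0 : ∃ t, p t = 0
  · obtain ⟨t, ht⟩ := h0
    refine ⟨0, by simp, ?_⟩
    have : ∏ t, ‖(p t).eval (z t)‖ = 0 := by
      apply Finset.prod_eq_zero (Finset.mem_univ t)
      simp [ht]
    rw [this]
    positivity
  · push Not at h0
    let q : Polynomial ℂ := ∏ t, p t
    obtain ⟨x, hx, hmax⟩ := (isCompact_closedBall (0 : ℂ) 1).exists_isMaxOn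
      ⟨0, by simp⟩ (f := fun x => ‖q.eval x‖) (by fun_prop)
    have hx1 : ‖x‖ ≤ 1 := by simpa using hx
    refine ⟨x, hx1, ?_⟩
    have hq : q.mahlerMeasure = ∏ t, (p t).mahlerMeasure := by
      have key : ∀ s : Finset (Fin r), (∏ t ∈ s, p t).mahlerMeasure =
          ∏ t ∈ s, (p t).mahlerMeasure := by
        intro s
        induction s using Finset.induction_on with
        | empty => simp
        | insert a s ha ih => rw [Finset.prod_insert ha, Finset.prod_insert ha,
            mahlerMeasure_mul, ih]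
      exact key _
    have hM : q.mahlerMeasure ≤ ‖q.eval x‖ := by
      refine Gelf1_mahler_le q _ (norm_nonneg _) fun y hy => ?_
      exact hmax (by simpa using hy)
    have hqe : ‖q.eval x‖ = ∏ t, ‖(p t).eval x‖ := by
      simp only [q, eval_prod, norm_prod]
    calc ∏ t, ‖(p t).eval (z t)‖
        ≤ ∏ t, (2 ^ (p t).natDegree * (p t).mahlerMeasure) :=
          Finset.prod_le_prod (fun t _ => norm_nonneg _) fun t _ => Gelf1_eval_le _ _ (hz t)
      _ = 2 ^ (∑ t, (p t).natDegree) * q.mahlerMeasure := by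
          rw [Finset.prod_mul_distrib, Finset.prod_pow_eq_pow_sum, hq]
      _ ≤ 4 ^ (∑ t, (p t).natDegree) * ∏ t, ‖(p t).eval x‖ := by
          rw [← hqe]
          have : (2 : ℝ) ^ (∑ t, (p t).natDegree) ≤ 4 ^ (∑ t, (p t).natDegree) :=
            pow_le_pow_left₀ (by norm_num) (by norm_num) _
          exact mul_le_mul this hM (mahlerMeasure_nonneg _) (by positivity)

end Pool.Agent.Work.MP_327059_nt.GL

end

section

set_option autoImplicit false

namespace Pool.Agent.Work.MP_327059_nt.GL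

open MvPolynomial

/-- restriction of `f` to the line through `z` in the direction `i` -/
noncomputable def GelfPt_res {σ : Type} [DecidableEq σ] (z : σ → ℂ) (i : σ)
    (f : MvPolynomial σ ℂ) : Polynomial ℂ :=
  aeval (Function.update (fun j => (Polynomial.C (z j) : Polynomial ℂ)) i Polynomial.X) f

theorem GelfPt_res_eval {σ : Type} [DecidableEq σ] (z : σ → ℂ) (i : σ)
    (f : MvPolynomial σ ℂ) (x : ℂ) :
    (GelfPt_res z i f).eval x = eval (Function.update z i x) f := by
  unfold GelfPt_res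
  rw [← Polynomial.coe_evalRingHom, aeval_def, MvPolynomial.hom_eval₂]
  unfold eval eval₂Hom
  simp only [RingHom.coe_mk, MonoidHom.coe_mk, OneHom.coe_mk]
  congr 1
  · ext a; simp
  · funext j
    by_cases h : j = i
    · subst h; simp
    · simp [Function.update_of_ne h]

theorem GelfPt_res_deg {σ : Type} [DecidableEq σ] (z : σ → ℂ) (i : σ)
    (f : MvPolynomial σ ℂ) : (GelfPt_res z i f).natDegree ≤ f.totalDegree := by
  unfold GelfPt_res
  rw [aeval_def, eval₂_eq]
  refine Polynomial.natDegree_sum_le_of_forall_le _ _ ?_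
  intro m hm
  refine (Polynomial.natDegree_C_mul_le _ _).trans ?_
  refine (Polynomial.natDegree_prod_le _ _).trans ?_
  refine le_trans ?_ (le_totalDegree hm)
  unfold Finsupp.sum
  refine Finset.sum_le_sum ?_
  intro j _
  refine Polynomial.natDegree_pow_le.trans ?_
  have h1 : (Function.update (fun j => (Polynomial.C (z j) : Polynomial ℂ)) i Polynomial.X j).natDegree
      ≤ 1 := by
    by_cases h : j = i
    · subst h; simp
    · simp [Function.update_of_ne h]
  calc m j * _ ≤ m j * 1 := Nat.mul_le_mul_left _ h1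
    _ = m j := mul_one _

theorem pr_GelfPt (h1 : S_Gelf1) : S_GelfPt := by
  classical
  intro σ _ r f z hz
  have claim : ∀ T : Finset σ, ∃ (x : σ → ℂ) (y : Fin r → σ → ℂ), (∀ i, ‖x i‖ ≤ 1) ∧
      (∀ t i, ‖y t i‖ ≤ 1) ∧ (∀ t, ∀ i ∈ T, y t i = x i) ∧
      ∏ t, ‖eval (z t) (f t)‖ ≤
        4 ^ (T.card * ∑ t, (f t).totalDegree) * ∏ t, ‖eval (y t) (f t)‖ := by
    intro T
    induction T using Finset.induction_on with
    | empty =>
      exact ⟨0, z, by simp, hz, by simp, by simp⟩
    | insert i T hi ih =>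
      obtain ⟨x, y, hx, hy, hxy, hle⟩ := ih
      obtain ⟨c, hc, hc2⟩ := h1 r (fun t => GelfPt_res (y t) i (f t)) (fun t => y t i)
        (fun t => hy t i)
      refine ⟨Function.update x i c, fun t => Function.update (y t) i c, ?_, ?_, ?_, ?_⟩
      · intro j
        by_cases h : j = i
        · subst h; simpa using hc
        · rw [Function.update_of_ne h]; exact hx j
      · intro t j
        by_cases h : j = i
        · subst h; simpa using hc
        · show ‖Function.update (y t) i c j‖ ≤ 1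
          rw [Function.update_of_ne h]; exact hy t j
      · intro t j hj
        by_cases h : j = i
        · subst h; simp
        · show Function.update (y t) i c j = Function.update x i c j
          rw [Function.update_of_ne h, Function.update_of_ne h]
          exact hxy t j ((Finset.mem_insert.1 hj).resolve_left h)
      · simp only [GelfPt_res_eval, Function.update_eq_self] at hc2
        rw [Finset.card_insert_of_notMem hi, add_mul, one_mul, pow_add, mul_assoc]
        refine hle.trans (mul_le_mul_of_nonneg_left ?_ (by positivity))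
        refine hc2.trans (mul_le_mul_of_nonneg_right ?_ (by positivity))
        refine pow_le_pow_right₀ (by norm_num) ?_
        exact Finset.sum_le_sum (fun t _ => GelfPt_res_deg _ _ _)
  obtain ⟨x, y, hx, -, hxy, hle⟩ := claim Finset.univ
  refine ⟨x, hx, ?_⟩
  have e : ∀ t, y t = x := fun t => funext (fun i => hxy t i (Finset.mem_univ i))
  simp only [e] at hle
  exact hle

end Pool.Agent.Work.MP_327059_nt.GL

end

section

set_option autoImplicit false

namespace Pool.Agent.Work.MP_327059_nt.GL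

open MvPolynomial Cardinal

theorem GenZero_embed (K : Type) [Field K] [CharZero K] (hK : #K ≤ continuum) :
    Nonempty (K →+* ℂ) := by
  let F := FractionRing (MvPolynomial ℂ K)
  let M := AlgebraicClosure F
  have hcF : #F ≤ continuum := by
    have h1 : #F = #(MvPolynomial ℂ K) := IsFractionRing.cardinalMk (MvPolynomial ℂ K) F
    rw [h1]
    refine MvPolynomial.cardinalMk_le_max.trans ?_
    rw [Cardinal.mk_complex]
    exact max_le (max_le hK le_rfl) aleph0_le_continuum
  have hcM : #M ≤ continuum := by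
    have h1 : #M ≤ #F ⊔ ℵ₀ := Algebra.IsAlgebraic.cardinalMk_le_max F M
    exact h1.trans (max_le hcF aleph0_le_continuum)
  have hinj : Function.Injective (fun z : ℂ => algebraMap F M (algebraMap (MvPolynomial ℂ K) F
      (X z))) := by
    intro z w h
    have h1 := (algebraMap F M).injective h
    have h2 := IsFractionRing.injective (MvPolynomial ℂ K) F h1
    exact X_injective h2
  have hcM' : continuum ≤ #M := by
    rw [← Cardinal.mk_complex]
    exact Cardinal.mk_le_of_injective hinj
  have hM : #M = continuum := le_antisymm hcM hcM'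
  have hinjK : Function.Injective (((algebraMap F M).comp
      (algebraMap (MvPolynomial ℂ K) F)).comp (C : K →+* MvPolynomial ℂ K)) :=
    RingHom.injective _
  have : CharZero M := charZero_of_injective_ringHom hinjK
  have hE : Nonempty (M ≃ ℂ) := by
    rw [← Cardinal.eq, hM, Cardinal.mk_complex]
  obtain ⟨f⟩ := IsAlgClosed.ringEquiv_of_equiv_of_charZero (K := M) (L := ℂ)
    (by rw [hM]; exact aleph0_lt_continuum) hE
  exact ⟨(f : M →+* ℂ).comp (((algebraMap F M).comp
      (algebraMap (MvPolynomial ℂ K) F)).comp (C : K →+* MvPolynomial ℂ K))⟩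

theorem pr_GenZero : S_GenZero := by
  intro n _ G hG hdeg
  have hprime : Prime G := hG.prime
  have hI : (Ideal.span {G}).IsPrime := (Ideal.span_singleton_prime hprime.ne_zero).2 hprime
  let A := MvPolynomial n ℤ ⧸ Ideal.span {G}
  have : IsDomain A := Ideal.Quotient.isDomain _
  have hA0 : CharZero A := by
    refine charZero_of_injective_algebraMap (R := ℤ) ?_
    rw [injective_iff_map_eq_zero]
    intro c hc
    have h1 : (Ideal.Quotient.mk (Ideal.span {G})) (C c : MvPolynomial n ℤ) = 0 := hc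
    rw [Ideal.Quotient.eq_zero_iff_mem, Ideal.mem_span_singleton] at h1
    by_contra hne
    obtain ⟨Q, hQ⟩ := h1
    have hQ0 : Q ≠ 0 := by
      rintro rfl
      rw [mul_zero] at hQ
      exact hne (C_eq_zero.1 hQ)
    have h2 : (C c : MvPolynomial n ℤ).totalDegree = G.totalDegree + Q.totalDegree := by
      rw [hQ, totalDegree_mul_of_isDomain hprime.ne_zero hQ0]
    rw [totalDegree_C] at h2
    omega
  let K := FractionRing A
  have hK0 : CharZero K := charZero_of_injective_algebraMap (IsFractionRing.injective A K)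
  have hcK : #K ≤ continuum := by
    have h1 : #K = #A := IsFractionRing.cardinalMk A K
    rw [h1]
    have h2 : #A ≤ #(MvPolynomial n ℤ) := Cardinal.mk_le_of_surjective Ideal.Quotient.mk_surjective
    refine h2.trans (MvPolynomial.cardinalMk_le_max.trans ?_)
    refine max_le (max_le ?_ ?_) aleph0_le_continuum
    · exact (Cardinal.mk_le_aleph0).trans aleph0_le_continuum
    · exact (Cardinal.mk_le_aleph0).trans aleph0_le_continuum
  obtain ⟨φ⟩ := GenZero_embed K hcK
  let ψ : MvPolynomial n ℤ →+* ℂ := (φ.comp (algebraMap A K)).comp (Ideal.Quotient.mk _)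
  refine ⟨fun i => ψ (X i), fun Q => ?_⟩
  have hψ : aeval (fun i => ψ (X i)) Q = ψ Q := by
    have h1 : (aeval (fun i => ψ (X i)) : MvPolynomial n ℤ →ₐ[ℤ] ℂ).toRingHom = ψ := by
      refine MvPolynomial.ringHom_ext (fun r => ?_) (fun i => ?_)
      · simp
      · simp
    exact congrArg (fun g : MvPolynomial n ℤ →+* ℂ => g Q) h1
  rw [hψ]
  constructor
  · intro h
    have h1 : (Ideal.Quotient.mk (Ideal.span {G})) Q = 0 := by
      have h2 : Function.Injective (φ.comp (algebraMap A K)) :=
        φ.injective.comp (IsFractionRing.injective A K)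
      exact (injective_iff_map_eq_zero _).1 h2 _ h
    rwa [Ideal.Quotient.eq_zero_iff_mem, Ideal.mem_span_singleton] at h1
  · intro h
    have h1 : (Ideal.Quotient.mk (Ideal.span {G})) Q = 0 := by
      rwa [Ideal.Quotient.eq_zero_iff_mem, Ideal.mem_span_singleton]
    show (φ.comp (algebraMap A K)) ((Ideal.Quotient.mk (Ideal.span {G})) Q) = 0
    rw [h1, map_zero]

end Pool.Agent.Work.MP_327059_nt.GL

end

section

/-!
# Item Hom: homogenisation
-/

set_option autoImplicit false

namespace Pool.Agent.Work.MP_327059_nt.GL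

open MvPolynomial

theorem Hom_len_eq {σ : Type} (P : MvPolynomial σ ℤ) (s : Finset (σ →₀ ℕ)) (hs : P.support ⊆ s) :
    len P = ∑ m ∈ s, |((P.coeff m : ℤ) : ℝ)| := by
  unfold len
  refine Finset.sum_subset hs ?_
  intro m _ hm
  rw [notMem_support_iff.1 hm]
  simp

theorem Hom_len_add {σ : Type} (P Q : MvPolynomial σ ℤ) : len (P + Q) ≤ len P + len Q := by
  classical
  rw [Hom_len_eq (P + Q) (P.support ∪ Q.support) support_add,
    Hom_len_eq P (P.support ∪ Q.support) Finset.subset_union_left,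
    Hom_len_eq Q (P.support ∪ Q.support) Finset.subset_union_right, ← Finset.sum_add_distrib]
  refine Finset.sum_le_sum ?_
  intro m _
  rw [coeff_add]
  push_cast
  exact abs_add_le _ _

theorem Hom_len_sum {σ κ : Type} (s : Finset κ) (f : κ → MvPolynomial σ ℤ) :
    len (∑ i ∈ s, f i) ≤ ∑ i ∈ s, len (f i) := by
  classical
  induction s using Finset.induction_on with
  | empty => simp [len]
  | insert a s ha ih =>
    rw [Finset.sum_insert ha, Finset.sum_insert ha]
    exact (Hom_len_add _ _).trans (by linarith)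

theorem Hom_len_monomial {σ : Type} (m : σ →₀ ℕ) (c : ℤ) :
    len (monomial m c : MvPolynomial σ ℤ) ≤ |(c : ℝ)| := by
  classical
  rw [Hom_len_eq _ {m} support_monomial_subset]
  simp

theorem Hom_deg_le {σ : Type} {X : ℕ} {P : MvPolynomial σ ℤ} (hP : P.totalDegree ≤ X)
    {m : σ →₀ ℕ} (hm : m ∈ P.support) : (m.sum fun _ e => e) ≤ X :=
  (le_totalDegree hm).trans hP

/-- Value of the homogenised monomial. -/
theorem Hom_mono {σ : Type} (m : σ →₀ ℕ) (r : ℕ) (c : ℤ) (ξ : Option σ → ℂ) :
    aeval ξ (monomial (m.embDomain Function.Embedding.some + Finsupp.single none r) c :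
      MvPolynomial (Option σ) ℤ) = (c : ℂ) * ((m.prod fun j e => ξ (some j) ^ e) * ξ none ^ r) := by
  rw [aeval_monomial]
  rw [Finsupp.prod_add_index' (by intro a; exact pow_zero _) (by intro a b c; exact pow_add _ _ _),
    Finsupp.prod_embDomain, Finsupp.prod_single_index (by exact pow_zero _)]
  simp

theorem pr_Hom : S_Hom := by
  intro σ _ X P hP
  classical
  refine ⟨?_, ?_, ?_, ?_⟩
  · unfold hom
    refine IsHomogeneous.sum _ _ _ ?_
    intro m hm
    have hle := Hom_deg_le hP hm
    apply isHomogeneous_monomial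
    rw [map_add]
    rw [Finsupp.degree_single]
    have h1 : (m.embDomain (Function.Embedding.some : σ ↪ Option σ)).degree =
        m.sum fun _ e => e := by
      have h2 := Finsupp.sum_embDomain (f := (Function.Embedding.some : σ ↪ Option σ)) (v := m)
        (g := fun _ e => e)
      rw [← h2]
      rfl
    rw [h1]
    omega
  · unfold hom
    refine (Hom_len_sum _ _).trans ?_
    unfold len
    refine Finset.sum_le_sum ?_
    intro m _
    exact Hom_len_monomial _ _
  · intro θ
    unfold hom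
    rw [map_sum]
    conv_rhs => rw [aeval_def, eval₂_eq]
    refine Finset.sum_congr rfl ?_
    intro m _
    rw [Hom_mono]
    simp [hat, Finsupp.prod]
  · intro ξ hξ h0
    have hkey : aeval ξ (hom X P) = ξ none ^ X * aeval (fun j => ξ (some j) / ξ none) P := by
      unfold hom
      rw [map_sum]
      conv_rhs => rw [aeval_def, eval₂_eq, Finset.mul_sum]
      refine Finset.sum_congr rfl ?_
      intro m hm
      have hle := Hom_deg_le hP hm
      rw [Hom_mono]
      have h1 : (∏ i ∈ m.support, (ξ (some i) / ξ none) ^ m i) =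
          (m.prod fun j e => ξ (some j) ^ e) / ξ none ^ (m.sum fun _ e => e) := by
        unfold Finsupp.prod Finsupp.sum
        rw [← Finset.prod_pow_eq_pow_sum, ← Finset.prod_div_distrib]
        refine Finset.prod_congr rfl ?_
        intro i _
        rw [div_pow]
      rw [h1]
      have h2 : ξ none ^ X = ξ none ^ (X - m.sum fun _ e => e) * ξ none ^ (m.sum fun _ e => e) := by
        rw [← pow_add]
        congr 1
        omega
      rw [h2]
      have h3 : ξ none ^ (m.sum fun _ e => e) ≠ 0 := pow_ne_zero _ hξ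
      field_simp
      simp
      ring
    rw [hkey] at h0
    exact (mul_eq_zero.1 h0).resolve_left (pow_ne_zero _ hξ)

end Pool.Agent.Work.MP_327059_nt.GL

end

section

/-!
# PART C, item C27 (Init): initial Chow form, the closure of `theta`
-/

set_option autoImplicit false

namespace Pool.Agent.Work.MP_327059_nt.GL

open MvPolynomial

theorem Init_alg_iff {n : Type} (y : n → ℂ) (x : ℂ) :
    AlgOver y x ↔ x ∈ (AlgebraicIndependent.matroid ℚ ℂ).closure (Set.range y) := by
  rw [AlgebraicIndependent.matroid_closure_eq]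
  unfold AlgOver
  rw [IntermediateField.isAlgebraic_adjoin_iff]
  rfl

theorem Init_trans {n m : Type} (y : n → ℂ) (z : m → ℂ) (x : ℂ) (h : AlgOver y x)
    (h2 : ∀ i, AlgOver z (y i)) : AlgOver z x := by
  rw [Init_alg_iff] at h ⊢
  have h3 : Set.range y ⊆ (AlgebraicIndependent.matroid ℚ ℂ).closure (Set.range z) := by
    rintro _ ⟨i, rfl⟩
    exact (Init_alg_iff _ _).mp (h2 i)
  exact Matroid.closure_subset_closure_of_subset_closure h3 h

theorem Init_mem {n : Type} (y : n → ℂ) (i : n) : AlgOver y (y i) := by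
  unfold AlgOver
  exact isAlgebraic_algebraMap
    (⟨y i, IntermediateField.subset_adjoin ℚ _ ⟨i, rfl⟩⟩ :
      IntermediateField.adjoin ℚ (Set.range y))

theorem pr_Init (h1 : S_TrBasis) (h2 : S_TrCount) (h3 : S_InitDer) (h4 : S_DenseK)
    (h5 : S_Princ) : S_Init := by
  classical
  intro σ _ τ θ hθ
  obtain ⟨r, s, hs, halg⟩ := h1 σ θ
  have hr : r ≤ τ := by
    by_contra h
    push Not at h
    exact hθ (fun i => s (Fin.castLE h i)) (hs.comp (Fin.castLE h) (Fin.castLE_injective h))
  refine ⟨r, hr, ?_⟩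
  set K0 : IntermediateField ℚ ℂ := IntermediateField.adjoin ℚ (Set.range θ) with hK0
  obtain ⟨W, hW, -⟩ := h4 (Fin (r + 1) × σ) (Set.range θ) (Set.countable_range θ)
    (fun _ => 0) 1 one_pos
  set uu : Fin (r + 1) × Option σ → ℂ := fun p => perp θ (fun j => W (p.1, j)) p.2 with huu
  have hθuu : ∀ j, AlgOver uu (θ j) := by
    intro j
    have hW' : AlgebraicIndependent K0 (fun p : Fin r × σ => W (p.1.castSucc, p.2)) :=
      hW.comp (fun p : Fin r × σ => (p.1.castSucc, p.2)) (by
        rintro ⟨a, b⟩ ⟨c, d⟩ h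
        simpa using h)
    have := h3 σ θ r s hs halg _ hW' j
    refine Init_trans _ uu _ this ?_
    intro p
    exact Init_mem uu (p.1.castSucc, p.2)
  have hWuu : ∀ p, AlgOver uu (W p) := by
    intro p
    exact Init_mem uu (p.1, some p.2)
  -- the independent family
  set v : (Fin (r + 1) × σ) ⊕ Fin r → ℂ := Sum.elim W (fun i => θ (s i)) with hv
  have hvi : AlgebraicIndependent ℚ v := by
    refine hs.sumElim_of_tower (S := K0) ?_ hW
    rintro _ ⟨i, rfl⟩
    exact ⟨⟨θ (s i), IntermediateField.subset_adjoin ℚ _ ⟨s i, rfl⟩⟩, rfl⟩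
  have hvuu : ∀ i, AlgOver uu (v i) := by
    intro i
    cases i with
    | inl p => exact hWuu p
    | inr i => exact hθuu (s i)
  have hθv : ∀ j, AlgOver v (θ j) := by
    intro j
    exact Init_trans _ v _ (halg j) (fun i => Init_mem v (Sum.inr i))
  have huuv : ∀ p, AlgOver v (uu p) := by
    rintro ⟨i, o⟩
    cases o with
    | none =>
      show IsAlgebraic _ (-∑ j, θ j * W (i, j))
      refine IsAlgebraic.neg ?_
      refine Finset.sum_induction _ (fun x => IsAlgebraic (IntermediateField.adjoin ℚ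
        (Set.range v)) x) (fun a b ha hb => ha.add hb) isAlgebraic_zero ?_
      intro j _
      exact (hθv j).mul (Init_mem v (Sum.inl (i, j)))
    | some j => exact Init_mem v (Sum.inl (i, j))
  have hcard : Fintype.card ((Fin (r + 1) × σ) ⊕ Fin r) = (r + 1) * Fintype.card σ + r := by
    simp
  have hcardn : Fintype.card (Fin (r + 1) × Option σ) = (r + 1) * Fintype.card σ + r + 1 := by
    simp [Nat.mul_add]; ring
  obtain ⟨r', s', hs', halg'⟩ := h1 _ uu
  have c1 := h2 _ _ v (fun i => uu (s' i)) hvi (fun i => Init_trans uu _ _ (hvuu i) halg')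
  have c2 := h2 _ _ (fun i => uu (s' i)) v hs' (fun i => huuv _)
  rw [hcard, Fintype.card_fin] at c1 c2
  have hinj : Function.Injective s' := by
    intro a b hab
    exact hs'.injective (by simp only [hab])
  have hT : (Finset.univ.image s').card = r' := by
    rw [Finset.card_image_of_injective _ hinj, Finset.card_univ, Fintype.card_fin]
  have hTc : ((Finset.univ.image s')ᶜ).card = 1 := by
    rw [Finset.card_compl, hT, hcardn]; omega
  obtain ⟨x0, hx0⟩ := Finset.card_eq_one.mp hTc
  have hmem : ∀ i : {i // i ≠ x0}, ∃ j, s' j = i := by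
    rintro ⟨i, hi⟩
    by_contra h
    push Not at h
    have : i ∈ (Finset.univ.image s')ᶜ := by
      simpa using h
    rw [hx0, Finset.mem_singleton] at this
    exact hi this
  choose g hg using hmem
  have hind : AlgebraicIndependent ℚ (fun i : {i // i ≠ x0} => uu i) := by
    have := hs'.comp g (by
      intro a b hab
      apply Subtype.ext
      rw [← hg a, ← hg b, hab])
    convert this using 1
    funext i
    show uu i = uu (s' (g i))
    rw [hg]
  have hnot : ¬ AlgebraicIndependent ℚ uu := by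
    intro h
    have c3 := h2 _ _ uu v h huuv
    rw [hcard, hcardn] at c3
    omega
  obtain ⟨F, hFirr, hF⟩ := h5 _ uu x0 hind hnot
  have hFuu : aeval uu F = 0 := (hF F).mpr dvd_rfl
  refine ⟨F, fun i o => uu (i, o), ⟨hFirr, ?_, ?_, ?_, ?_⟩, ?_⟩
  · intro h
    have := congrFun h none
    exact one_ne_zero this
  · intro i
    rw [Fintype.sum_option]
    show (-∑ j, θ j * W (i, j)) * 1 + ∑ j, W (i, j) * θ j = 0
    rw [mul_one, neg_add_eq_zero]
    exact Finset.sum_congr rfl fun j _ => mul_comm _ _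
  · intro G
    exact hF G
  · intro j0 hj0 s'' hs''
    have hhat : ∀ o, AlgOver (fun i => θ (s i)) (hat θ o) := by
      intro o
      cases o with
      | none => exact isAlgebraic_one
      | some j => exact halg j
    have c4 := h2 _ _ _ (fun i => θ (s i)) hs'' (fun i => by
      rw [div_eq_mul_inv]
      exact (hhat _).mul (hhat _).inv)
    rw [Fintype.card_fin, Fintype.card_fin] at c4
    omega
  · -- th θ F = 0
    set t : σ → K0 := fun j => ⟨θ j, IntermediateField.subset_adjoin ℚ _ ⟨j, rfl⟩⟩ with ht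
    set th0 : MvPolynomial (Fin (r + 1) × σ) K0 := aeval (fun p : Fin (r + 1) × Option σ =>
      p.2.elim (-∑ j, C (t j) * X (p.1, j))
        (fun j => (X (p.1, j) : MvPolynomial (Fin (r + 1) × σ) K0))) F with hth0
    have e1 : map (algebraMap K0 ℂ) th0 = th θ F := by
      have : (map (algebraMap K0 ℂ) : MvPolynomial (Fin (r + 1) × σ) K0 →+* _).comp
          (aeval (fun p : Fin (r + 1) × Option σ =>
            p.2.elim (-∑ j, C (t j) * X (p.1, j))
            (fun j => (X (p.1, j) : MvPolynomial (Fin (r + 1) × σ) K0))) :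
              MvPolynomial (Fin (r + 1) × Option σ) ℤ →ₐ[ℤ] _).toRingHom =
          (aeval (fun p : Fin (r + 1) × Option σ =>
            p.2.elim (-∑ j, C (θ j) * X (p.1, j))
            (fun j => (X (p.1, j) : MvPolynomial (Fin (r + 1) × σ) ℂ))) :
              MvPolynomial (Fin (r + 1) × Option σ) ℤ →ₐ[ℤ] _).toRingHom := by
        refine MvPolynomial.ringHom_ext (fun n => ?_) (fun p => ?_)
        · simp
        · obtain ⟨i, o⟩ := p
          cases o with
          | none =>
            simp [ht, IntermediateField.algebraMap_apply]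
          | some j => simp
      exact RingHom.congr_fun this F
    have e2 : aeval W th0 = 0 := by
      have : (aeval W : MvPolynomial (Fin (r + 1) × σ) K0 →ₐ[K0] ℂ).toRingHom.comp
          (aeval (fun p : Fin (r + 1) × Option σ =>
            p.2.elim (-∑ j, C (t j) * X (p.1, j))
            (fun j => (X (p.1, j) : MvPolynomial (Fin (r + 1) × σ) K0))) :
              MvPolynomial (Fin (r + 1) × Option σ) ℤ →ₐ[ℤ] _).toRingHom =
          (aeval uu : MvPolynomial (Fin (r + 1) × Option σ) ℤ →ₐ[ℤ] ℂ).toRingHom := by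
        refine MvPolynomial.ringHom_ext (fun n => ?_) (fun p => ?_)
        · simp
        · obtain ⟨i, o⟩ := p
          cases o with
          | none =>
            simp [ht, huu, perp, IntermediateField.algebraMap_apply]
          | some j => simp [huu, perp]
      have := RingHom.congr_fun this F
      exact this.trans hFuu
    have e3 : th0 = 0 := algebraicIndependent_iff.mp hW th0 e2
    rw [← e1, e3, map_zero]

end Pool.Agent.Work.MP_327059_nt.GL

end

section

/-!
# C26: generic hyperplanes through a generic point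
-/

set_option autoImplicit false

namespace Pool.Agent.Work.MP_327059_nt.GL

open MvPolynomial

/-- A derivation vanishing on a set vanishes on the field it generates. -/
theorem initDer_zero_adjoin {K A M : Type*} [Field K] [Field A] [Algebra K A]
    [AddCommGroup M] [Module A M] [Module K M] (S : Set A) (X : Derivation K A M)
    (hX : ∀ s ∈ S, X s = 0) : ∀ x ∈ IntermediateField.adjoin K S, X x = 0 := by
  intro x hx
  induction hx using IntermediateField.adjoin_induction with
  | mem x hx => exact hX x hx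
  | algebraMap x => exact X.map_algebraMap x
  | add x y _ _ h1 h2 => rw [map_add, h1, h2, add_zero]
  | inv x _ h => rw [Derivation.leibniz_inv, h, smul_zero]
  | mul x y _ _ h1 h2 => rw [Derivation.leibniz, h1, h2, smul_zero, smul_zero, add_zero]

/-- A derivation vanishing on a subfield vanishes on everything algebraic over it. -/
theorem initDer_zero_alg {K A M : Type*} [Field K] [CharZero K] [Field A] [Algebra K A]
    [Field M] [Algebra A M] [Algebra K M] (L : IntermediateField K A)
    (X : Derivation K A M) (hX : ∀ s ∈ L, X s = 0) (x : A) (hx : IsAlgebraic L x) : X x = 0 := by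
  let Y : Derivation L A M := Derivation.mk'
    ({ toFun := fun a => X a
       map_add' := fun a b => map_add X a b
       map_smul' := fun a b => by
        rw [Algebra.smul_def, Derivation.leibniz]
        have h0 : X (algebraMap L A a) = 0 := hX _ a.2
        rw [h0, smul_zero, add_zero]; rfl } : A →ₗ[L] M) (fun a b => X.leibniz a b)
  have hY : ∀ a, Y a = X a := fun a => rfl
  have hint : IsIntegral L x := hx.isIntegral
  have hmin : Polynomial.aeval x (minpoly L x) = 0 := minpoly.aeval L x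
  have h1 : Y (Polynomial.aeval x (minpoly L x)) = 0 := by rw [hmin, map_zero]
  rw [Derivation.map_aeval] at h1
  have hsep : Polynomial.aeval x (Polynomial.derivative (minpoly L x)) ≠ 0 :=
    (minpoly.irreducible hint).separable.aeval_derivative_ne_zero hmin
  rcases smul_eq_zero.1 h1 with h | h
  · exact absurd h hsep
  · exact h

/-- C26 -/
theorem pr_InitDer : S_InitDer := by
  classical
  intro σ _ θ r s hs halg W hW
  set K0 : IntermediateField ℚ ℂ := IntermediateField.adjoin ℚ (Set.range θ) with hK0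
  -- the coordinates as elements of `K0`
  let t : σ → K0 := fun j => ⟨θ j, IntermediateField.subset_adjoin ℚ _ ⟨j, rfl⟩⟩
  have ht : ∀ j, algebraMap K0 ℂ (t j) = θ j := fun j => rfl
  have hinj : Function.Injective (IsScalarTower.toAlgHom ℚ K0 ℂ) := (algebraMap K0 ℂ).injective
  have hts : AlgebraicIndependent ℚ (fun l => t (s l)) :=
    (AlgHom.algebraicIndependent_iff (IsScalarTower.toAlgHom ℚ K0 ℂ) hinj).1 hs
  have htalg : ∀ j, IsAlgebraic (IntermediateField.adjoin ℚ (Set.range fun l => t (s l)))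
      (t j) := by
    intro j
    rw [IntermediateField.isAlgebraic_adjoin_iff]
    by_contra hj
    have h1 := (hts.option_iff_transcendental (t j)).2 hj
    have h2 := (AlgHom.algebraicIndependent_iff (IsScalarTower.toAlgHom ℚ K0 ℂ) hinj).2 h1
    have h3 : AlgebraicIndependent ℚ (fun o : Option (Fin r) => o.elim (θ j) (fun l => θ (s l))) := by
      convert h2 using 1
      funext o
      cases o <;> rfl
    have h4 := (hs.option_iff_transcendental (θ j)).1 h3
    exact h4 (IntermediateField.isAlgebraic_adjoin_iff.1 (halg j))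
  -- the derivations of `K0` dual to the transcendence basis
  have hD : ∀ l : Fin r, ∃ D : Derivation ℚ K0 K0, ∀ i, D (t (s i)) = if i = l then 1 else 0 :=
    fun l => Pool.Agent.ED.exists_derivation hts (fun i => if i = l then 1 else 0)
  choose D hD using hD
  have key : ∀ (X : Derivation ℚ ℂ ℂ) (j : σ),
      X (θ j) = ∑ l, X (θ (s l)) * algebraMap K0 ℂ (D l (t j)) := by
    intro X j
    let Y : Derivation ℚ K0 ℂ := X.compAlgebraMap K0 -
      ∑ l, X (θ (s l)) • (Algebra.linearMap K0 ℂ).compDer (D l)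
    have hY : ∀ x, Y x = X (algebraMap K0 ℂ x) -
        ∑ l, X (θ (s l)) * algebraMap K0 ℂ (D l x) := by
      intro x
      change (X.compAlgebraMap K0 - ∑ l, X (θ (s l)) • (Algebra.linearMap K0 ℂ).compDer (D l)) x = _
      rw [Derivation.sub_apply]
      congr 1
      have h1 : ∀ S : Finset (Fin r),
          (∑ l ∈ S, X (θ (s l)) • (Algebra.linearMap K0 ℂ).compDer (D l)) x =
            ∑ l ∈ S, X (θ (s l)) * algebraMap K0 ℂ (D l x) := by
        intro S
        induction S using Finset.induction_on with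
        | empty => simp
        | insert a S ha ih =>
          rw [Finset.sum_insert ha, Finset.sum_insert ha, Derivation.add_apply, ih]
          rfl
      exact h1 _
    have h0 : Y (t j) = 0 := by
      refine initDer_zero_alg (IntermediateField.adjoin ℚ (Set.range fun l => t (s l))) Y ?_ _
        (htalg j)
      refine initDer_zero_adjoin _ Y ?_
      rintro _ ⟨i, rfl⟩
      simp only [hY, hD, ht]
      rw [Finset.sum_eq_single i]
      · simp
      · intro b _ hb
        rw [if_neg (Ne.symm hb)]; simp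
      · simp
    rw [hY] at h0
    exact sub_eq_zero.1 h0
  -- the matrix
  obtain ⟨P, hPe⟩ : ∃ P : Matrix (Fin r) (Fin r) (MvPolynomial (Fin r × σ) K0),
      ∀ i l, P i l = ∑ j, C (D l (t j)) * X (i, j) := ⟨Matrix.of fun i l => _, fun _ _ => rfl⟩
  have hP : P.det ≠ 0 := by
    intro h0
    have h1 : (aeval (fun p : Fin r × σ => if p.2 = s p.1 then (1 : K0) else 0)) P.det = 0 := by
      rw [h0, map_zero]
    rw [AlgHom.map_det] at h1
    have h2 : (AlgHom.mapMatrix (aeval (fun p : Fin r × σ => if p.2 = s p.1 then (1 : K0) else 0)))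
        P = 1 := by
      ext i l
      simp only [AlgHom.mapMatrix_apply, Matrix.map_apply, hPe, map_sum, map_mul, aeval_X, aeval_C]
      rw [Finset.sum_eq_single (s i)]
      · simp only [if_true, mul_one, hD]
        rw [Matrix.one_apply]
        split_ifs <;> simp
      · intro b _ hb
        rw [if_neg hb]; simp
      · simp
    rw [h2, Matrix.det_one] at h1
    exact one_ne_zero h1
  have hM : (aeval W P.det : ℂ) ≠ 0 := by
    intro h0
    exact hP (algebraicIndependent_iff.1 hW _ h0)
  rw [AlgHom.map_det] at hM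
  intro j
  apply Pool.Agent.ED.isAlgebraic_of_derivation
  intro X hX
  have hX1 : ∀ i j, X (W (i, j)) = 0 := fun i j => hX _ ⟨(i, some j), rfl⟩
  have hX2 : ∀ i, ∑ j, W (i, j) * X (θ j) = 0 := by
    intro i
    have h1 := hX _ ⟨(i, none), rfl⟩
    change X (-∑ j, θ j * W (i, j)) = 0 at h1
    rw [map_neg, neg_eq_zero, map_sum] at h1
    rw [← h1]
    refine Finset.sum_congr rfl fun j _ => ?_
    rw [Derivation.leibniz, hX1, smul_zero, zero_add, smul_eq_mul]
  have hv : (fun l => X (θ (s l))) = 0 := by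
    refine Matrix.eq_zero_of_mulVec_eq_zero hM ?_
    funext i
    rw [Matrix.mulVec, dotProduct]
    simp only [AlgHom.mapMatrix_apply, Matrix.map_apply, hPe, map_sum, map_mul, aeval_X, aeval_C,
      Pi.zero_apply]
    rw [← hX2 i]
    simp only [Finset.sum_mul]
    rw [Finset.sum_comm]
    refine Finset.sum_congr rfl fun j _ => ?_
    rw [key X j, Finset.mul_sum]
    refine Finset.sum_congr rfl fun l _ => ?_
    ring
  rw [key X j]
  refine Finset.sum_eq_zero fun l _ => ?_
  rw [congrFun hv l]; simp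

end Pool.Agent.Work.MP_327059_nt.GL

end

section

/-!
# PART C, item LIN: product of linear forms on the polydisc
-/

set_option autoImplicit false

namespace Pool.Agent.Work.MP_327059_nt.GL

open MvPolynomial

lemma LIN_deg {ι : Type} [Fintype ι] (c : ι → ℂ) :
    (∑ j, C (c j) * X j : MvPolynomial ι ℂ).totalDegree ≤ 1 := by
  refine (totalDegree_finsetSum _ _).trans ?_
  refine Finset.sup_le fun j _ => ?_
  refine (totalDegree_mul _ _).trans ?_
  rw [totalDegree_C, totalDegree_X]

theorem pr_LIN (h1 : S_GelfPt) : S_LIN := by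
  intro ι _ d a ξ
  classical
  obtain ⟨U, hU, hle⟩ := h1 ι d (fun t => ∑ j, C (ξ t j) * X j)
    (fun t j => if ξ t j = 0 then 1 else (starRingEnd ℂ) (ξ t j) / (‖ξ t j‖ : ℂ)) (by
      intro t j
      by_cases h : ξ t j = 0
      · simp [h]
      · simp [h])
  refine ⟨U, hU, ?_⟩
  have e1 : ∀ t, ‖eval (fun j => if ξ t j = 0 then (1 : ℂ) else
      (starRingEnd ℂ) (ξ t j) / (‖ξ t j‖ : ℂ)) (∑ j, C (ξ t j) * X j)‖ = ∑ j, ‖ξ t j‖ := by
    intro t
    have : eval (fun j => if ξ t j = 0 then (1 : ℂ) else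
        (starRingEnd ℂ) (ξ t j) / (‖ξ t j‖ : ℂ)) (∑ j, C (ξ t j) * X j) =
        ((∑ j, ‖ξ t j‖ : ℝ) : ℂ) := by
      rw [map_sum]
      push_cast
      refine Finset.sum_congr rfl fun j _ => ?_
      rw [map_mul, eval_C, eval_X]
      by_cases h : ξ t j = 0
      · simp [h]
      · have hn : (‖ξ t j‖ : ℂ) ≠ 0 := by simpa using h
        rw [if_neg h, mul_div_assoc', Complex.mul_conj, Complex.normSq_eq_norm_sq]
        rw [div_eq_iff hn]
        push_cast
        ring
    rw [this, Complex.norm_real, Real.norm_of_nonneg (Finset.sum_nonneg fun _ _ => norm_nonneg _)]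
  have e2 : ∀ t, eval U (∑ j, C (ξ t j) * X j) = ∑ j, U j * ξ t j := by
    intro t
    rw [map_sum]
    refine Finset.sum_congr rfl fun j _ => ?_
    rw [map_mul, eval_C, eval_X, mul_comm]
  simp only [e1, e2] at hle
  rw [norm_mul, norm_prod]
  have hdeg : ∑ t : Fin d, (∑ j, C (ξ t j) * X j : MvPolynomial ι ℂ).totalDegree ≤ d := by
    refine (Finset.sum_le_sum fun t _ => LIN_deg (ξ t)).trans ?_
    simp
  have hpow : (4 : ℝ) ^ (Fintype.card ι *
      ∑ t : Fin d, (∑ j, C (ξ t j) * X j : MvPolynomial ι ℂ).totalDegree) ≤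
      4 ^ (Fintype.card ι * d) :=
    pow_le_pow_right₀ (by norm_num) (Nat.mul_le_mul_left _ hdeg)
  have hP : 0 ≤ ∏ t, ‖∑ j, U j * ξ t j‖ := Finset.prod_nonneg fun _ _ => norm_nonneg _
  have h3 := hle.trans (mul_le_mul_of_nonneg_right hpow hP)
  calc ‖a‖ * ∏ t, ∑ j, ‖ξ t j‖ ≤
      ‖a‖ * (4 ^ (Fintype.card ι * d) * ∏ t, ‖∑ j, U j * ξ t j‖) :=
        mul_le_mul_of_nonneg_left h3 (norm_nonneg a)
    _ = 4 ^ (Fintype.card ι * d) * (‖a‖ * ∏ t, ‖∑ j, U j * ξ t j‖) := by ring

end Pool.Agent.Work.MP_327059_nt.GL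

end

section

set_option autoImplicit false

namespace Pool.Agent.Work.MP_327059_nt.GL

open MvPolynomial

theorem LenEv_one (σ : Type) (f : MvPolynomial σ ℂ) (z : σ → ℂ) (R : ℝ) (hR : 1 ≤ R)
    (hz : ∀ i, ‖z i‖ ≤ R) : ‖eval z f‖ ≤ lenC f * R ^ f.totalDegree := by
  have hR0 : 0 ≤ R := le_trans zero_le_one hR
  rw [eval_eq, lenC, Finset.sum_mul]
  refine (norm_sum_le _ _).trans (Finset.sum_le_sum ?_)
  intro m hm
  rw [norm_mul, norm_prod]
  refine mul_le_mul_of_nonneg_left ?_ (norm_nonneg _)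
  calc ∏ i ∈ m.support, ‖z i ^ m i‖ ≤ ∏ i ∈ m.support, R ^ m i := by
        refine Finset.prod_le_prod (fun i _ => norm_nonneg _) (fun i _ => ?_)
        rw [norm_pow]
        exact pow_le_pow_left₀ (norm_nonneg _) (hz i) _
    _ = R ^ (∑ i ∈ m.support, m i) := Finset.prod_pow_eq_pow_sum _ _ _
    _ ≤ R ^ f.totalDegree := pow_le_pow_right₀ hR (le_totalDegree hm)

theorem LenEv_map (σ : Type) (P : MvPolynomial σ ℤ) :
    lenC (map (Int.castRingHom ℂ) P) = len P := by
  unfold lenC len
  rw [support_map_of_injective P (RingHom.injective_int (Int.castRingHom ℂ))]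
  refine Finset.sum_congr rfl ?_
  intro m _
  rw [coeff_map, eq_intCast]
  exact Complex.norm_intCast _

theorem pr_LenEv : S_LenEv := by
  refine ⟨LenEv_one, ?_, ?_, LenEv_map⟩
  · intro σ P z R hR hz
    have h := LenEv_one σ (map (Int.castRingHom ℂ) P) z R hR hz
    rw [LenEv_map] at h
    have e : aeval z P = eval z (map (Int.castRingHom ℂ) P) := by
      rw [eval_map, aeval_def]
      rfl
    rw [e]
    refine h.trans ?_
    have hl : 0 ≤ len P := Finset.sum_nonneg (fun _ _ => abs_nonneg _)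
    exact mul_le_mul_of_nonneg_left (pow_le_pow_right₀ hR (Finset.sup_mono (support_map_subset _ _))) hl
  · intro σ P hP
    obtain ⟨m, hm⟩ := Finset.nonempty_iff_ne_empty.2 (fun h => hP (support_eq_empty.1 h))
    have h1 : (1 : ℝ) ≤ |((P.coeff m : ℤ) : ℝ)| := by
      have h0 : P.coeff m ≠ 0 := mem_support_iff.1 hm
      have := Int.one_le_abs h0
      exact_mod_cast this
    refine h1.trans ?_
    unfold len
    exact Finset.single_le_sum (f := fun m => |((P.coeff m : ℤ) : ℝ)|) (fun _ _ => abs_nonneg _) hm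

end Pool.Agent.Work.MP_327059_nt.GL

end

section

/-!
# C37: degree and length of the resultant
-/

set_option autoImplicit false

namespace Pool.Agent.Work.MP_327059_nt.GL

open MvPolynomial

theorem MetH_len_nonneg {σ : Type} (P : MvPolynomial σ ℤ) : 0 ≤ len P :=
  Finset.sum_nonneg fun _ _ => abs_nonneg _

theorem MetH_eval {k : ℕ} {ι : Type} (H : MvPolynomial (Fin k × ι) ℤ) (z : Fin k × ι → ℂ) :
    eval z (map (Int.castRingHom ℂ) H) = ev (fun i j => z (i, j)) H := by
  rw [ev, aeval_def, algebraMap_int_eq, eval_map]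

theorem MetH_totalDegree {σ : Type} (H : MvPolynomial σ ℤ) :
    (map (Int.castRingHom ℂ) H).totalDegree = H.totalDegree := by
  have h : (map (Int.castRingHom ℂ) H).support = H.support := by
    ext m
    rw [mem_support_iff, mem_support_iff, coeff_map, Int.coe_castRingHom, Int.cast_ne_zero]
  rw [totalDegree, totalDegree, h]

theorem pr_MetH (h1 : S_MetPt) (h2 : S_DegGrow) (h3 : S_Sup) (h4 : S_LenEv) : S_MetH := by
  intro ι _ k
  refine ⟨2 ^ (Fintype.card (Fin k × ι)) * 4 ^ Fintype.card ι, ?_, ?_⟩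
  · exact one_le_mul_of_one_le_of_one_le (one_le_pow₀ (by norm_num)) (one_le_pow₀ (by norm_num))
  intro F H P δ d hRel hP hd
  set A : ℝ := 4 ^ (Fintype.card ι * δ * F.totalDegree) * len F ^ δ * len P ^ d with hA
  have hlP := MetH_len_nonneg P
  have hlF := MetH_len_nonneg F
  have hA0 : 0 ≤ A := by positivity
  have hpt : ∀ (R : ℝ) (z : Fin k × ι → ℂ), 1 ≤ R → (∀ i, ‖z i‖ ≤ R) →
      ‖eval z (map (Int.castRingHom ℂ) H)‖ ≤ A * R ^ (δ * F.totalDegree) := by
    intro R z hR hz
    rw [MetH_eval]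
    exact h1 ι k F H P δ d hRel hP hd R _ hR fun i j => hz (i, j)
  have hdeg : H.totalDegree ≤ δ * F.totalDegree := by
    rw [← MetH_totalDegree H]
    exact h2 _ _ _ _ hpt
  refine ⟨hdeg, ?_⟩
  obtain ⟨z, hz, hle⟩ := h3 _ (map (Int.castRingHom ℂ) H)
  rw [h4.2.2.2, MetH_totalDegree] at hle
  have h5 := hpt 1 z le_rfl hz
  rw [one_pow, mul_one] at h5
  calc len H ≤ 2 ^ (Fintype.card (Fin k × ι) * H.totalDegree) *
        ‖eval z (map (Int.castRingHom ℂ) H)‖ := hle
    _ ≤ 2 ^ (Fintype.card (Fin k × ι) * (δ * F.totalDegree)) * A :=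
        mul_le_mul (pow_le_pow_right₀ (by norm_num) (Nat.mul_le_mul_left _ hdeg)) h5
          (norm_nonneg _) (by positivity)
    _ = (2 ^ (Fintype.card (Fin k × ι)) * 4 ^ Fintype.card ι) ^ (δ * F.totalDegree) *
          len F ^ δ * len P ^ d := by
        rw [hA, mul_pow, ← pow_mul, ← pow_mul, mul_assoc (Fintype.card ι) δ F.totalDegree]
        ring

end Pool.Agent.Work.MP_327059_nt.GL

end

section

/-!
# C36: pointwise bound for the resultant
-/

set_option autoImplicit false

namespace Pool.Agent.Work.MP_327059_nt.GL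

open MvPolynomial

/-- Bound of a homogeneous polynomial of degree `δ` by `len P * s ^ δ`. -/
theorem MetPt_hom {ι : Type} (P : MvPolynomial ι ℤ) (δ : ℕ) (hP : P.IsHomogeneous δ)
    (ξ : ι → ℂ) (s : ℝ) (hs : ∀ j, ‖ξ j‖ ≤ s) : ‖aeval ξ P‖ ≤ len P * s ^ δ := by
  rw [aeval_def, eval₂_eq, len, Finset.sum_mul]
  refine (norm_sum_le _ _).trans (Finset.sum_le_sum fun m hm => ?_)
  have h1 : δ = ∑ i ∈ m.support, m i := hP.degree_eq_sum_deg_support hm
  rw [norm_mul]
  have h2 : ‖(algebraMap ℤ ℂ) (coeff m P)‖ = |((P.coeff m : ℤ) : ℝ)| := by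
    rw [algebraMap_int_eq, eq_intCast, Complex.norm_intCast]
  rw [h2]
  refine mul_le_mul_of_nonneg_left ?_ (abs_nonneg _)
  rw [norm_prod, h1, ← Finset.prod_pow_eq_pow_sum]
  refine Finset.prod_le_prod (fun i _ => norm_nonneg _) fun i _ => ?_
  rw [norm_pow]
  exact pow_le_pow_left₀ (norm_nonneg _) (hs i) _

theorem MetPt_len_nonneg {σ : Type} (P : MvPolynomial σ ℤ) : 0 ≤ len P :=
  Finset.sum_nonneg fun _ _ => abs_nonneg _

theorem pr_MetPt (h1 : S_LIN) (h2 : S_LenEv) : S_MetPt := by
  intro ι _ k F H P δ d hRel hP hd R w hR hw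
  obtain ⟨a, ξ, hF, hH⟩ := hRel w
  obtain ⟨U, hU, hLIN⟩ := h1 ι d a ξ
  rw [← hF U] at hLIN
  have hFle : ‖ev (Fin.cons U w : Fin (k + 1) → ι → ℂ) F‖ ≤ len F * R ^ F.totalDegree := by
    refine h2.2.1 _ F _ R hR ?_
    rintro ⟨i, j⟩
    refine Fin.cases ?_ (fun i' => ?_) i
    · simpa using (hU j).trans hR
    · simpa using hw i' j
  set S : Fin d → ℝ := fun t => ∑ j, ‖ξ t j‖ with hS
  have hS0 : ∀ t, 0 ≤ S t := fun t => Finset.sum_nonneg fun j _ => norm_nonneg _
  have hPt : ∀ t, ‖aeval (ξ t) P‖ ≤ len P * S t ^ δ := fun t =>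
    MetPt_hom P δ hP (ξ t) (S t) fun j =>
      Finset.single_le_sum (f := fun j => ‖ξ t j‖) (fun j _ => norm_nonneg _) (Finset.mem_univ j)
  have hlP := MetPt_len_nonneg P
  have hlF := MetPt_len_nonneg F
  have hprod : ∏ t, ‖aeval (ξ t) P‖ ≤ len P ^ d * (∏ t, S t) ^ δ := by
    calc ∏ t, ‖aeval (ξ t) P‖ ≤ ∏ t, (len P * S t ^ δ) :=
          Finset.prod_le_prod (fun t _ => norm_nonneg _) fun t _ => hPt t
      _ = len P ^ d * (∏ t, S t) ^ δ := by
          rw [Finset.prod_mul_distrib, Finset.prod_const, Finset.card_univ, Fintype.card_fin,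
            Finset.prod_pow]
  have hX : ‖a‖ * ∏ t, S t ≤ 4 ^ (Fintype.card ι * F.totalDegree) *
      (len F * R ^ F.totalDegree) := by
    refine hLIN.trans (mul_le_mul ?_ hFle (norm_nonneg _) (by positivity))
    exact pow_le_pow_right₀ (by norm_num) (Nat.mul_le_mul_left _ hd)
  have hX0 : 0 ≤ ‖a‖ * ∏ t, S t := mul_nonneg (norm_nonneg _) (Finset.prod_nonneg fun t _ => hS0 t)
  calc ‖ev w H‖ = ‖a‖ ^ δ * ∏ t, ‖aeval (ξ t) P‖ := by rw [hH, norm_mul, norm_pow, norm_prod]
    _ ≤ ‖a‖ ^ δ * (len P ^ d * (∏ t, S t) ^ δ) :=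
        mul_le_mul_of_nonneg_left hprod (by positivity)
    _ = len P ^ d * (‖a‖ * ∏ t, S t) ^ δ := by rw [mul_pow]; ring
    _ ≤ len P ^ d * (4 ^ (Fintype.card ι * F.totalDegree) * (len F * R ^ F.totalDegree)) ^ δ :=
        mul_le_mul_of_nonneg_left (pow_le_pow_left₀ hX0 hX _) (by positivity)
    _ = 4 ^ (Fintype.card ι * δ * F.totalDegree) * len F ^ δ * len P ^ d *
          R ^ (δ * F.totalDegree) := by
        rw [mul_pow, mul_pow, ← pow_mul, ← pow_mul, mul_comm F.totalDegree δ,
          show Fintype.card ι * F.totalDegree * δ = Fintype.card ι * δ * F.totalDegree by ring]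
        ring

end Pool.Agent.Work.MP_327059_nt.GL

end

section

/-!
# PART C, item C39 (MetTh): length of the resultant on `theta-perp`
-/

set_option autoImplicit false

namespace Pool.Agent.Work.MP_327059_nt.GL

open MvPolynomial

/-- Product of maxima. -/
theorem MetTh_prodmax {d : ℕ} (q B' : ℝ) (hq0 : 0 ≤ q) (hq1 : q ≤ 1) (hB : 1 ≤ B')
    (l e : Fin d → ℝ) (hl : ∀ t, 0 ≤ l t) (he : ∀ t, 0 ≤ e t) (hel : ∀ t, e t ≤ B' * l t) :
    ∏ t, max (q * l t) (e t) ≤ max (q * (B' ^ d * ∏ t, l t)) (∏ t, e t) := by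
  classical
  by_cases h : ∀ t, q * l t ≤ e t
  · exact le_max_of_le_right (le_of_eq (Finset.prod_congr rfl fun t _ => max_eq_right (h t)))
  · push Not at h
    obtain ⟨t0, ht0⟩ := h
    refine le_max_of_le_left ?_
    have h1 : ∏ t, max (q * l t) (e t) ≤
        ∏ t, ((if t = t0 then q else 1) * (B' * l t)) := by
      refine Finset.prod_le_prod (fun t _ => ?_) (fun t _ => ?_)
      · exact le_max_of_le_right (he t)
      · split_ifs with h
        · subst h
          rw [max_eq_left ht0.le]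
          have : l t ≤ B' * l t := le_mul_of_one_le_left (hl t) hB
          exact mul_le_mul_of_nonneg_left this hq0
        · rw [one_mul]
          refine max_le ?_ (hel t)
          calc q * l t ≤ 1 * l t := mul_le_mul_of_nonneg_right hq1 (hl t)
            _ ≤ B' * l t := mul_le_mul_of_nonneg_right hB (hl t)
    refine h1.trans (le_of_eq ?_)
    rw [Finset.prod_mul_distrib, Finset.prod_mul_distrib, Finset.prod_ite_eq' Finset.univ t0]
    simp

theorem pr_MetTh (h1 : S_LIN) (h2 : S_Sup) (h3 : S_LenEv) (h4 : S_ThEv) (h5 : S_PEst)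
    (h6 : S_MetH) : S_MetTh := by
  classical
  obtain ⟨hLE1, hLE2, hLE3, -⟩ := h3
  intro σ _ k θ
  obtain ⟨B5, hB5, h5⟩ := h5 σ θ
  obtain ⟨B6, hB6, h6⟩ := h6 (Option σ) k
  set N := Fintype.card σ with hN
  set R0 : ℝ := 1 + ∑ j, ‖θ j‖ with hR0
  have hS0 : 0 ≤ ∑ j, ‖θ j‖ := Finset.sum_nonneg fun j _ => norm_nonneg _
  have hR1 : 1 ≤ R0 := by rw [hR0]; linarith
  refine ⟨2 ^ (k * N) * (B5 * R0 * 4 ^ (N + 1) * R0), ?_, ?_⟩
  · have e1 : (1 : ℝ) ≤ 2 ^ (k * N) := one_le_pow₀ (by norm_num)
    have e2 : (1 : ℝ) ≤ 4 ^ (N + 1) := one_le_pow₀ (by norm_num)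
    have e3 : 1 ≤ B5 * R0 := one_le_mul_of_one_le_of_one_le hB5 hR1
    have e4 : 1 ≤ B5 * R0 * 4 ^ (N + 1) := one_le_mul_of_one_le_of_one_le e3 e2
    have e5 : 1 ≤ B5 * R0 * 4 ^ (N + 1) * R0 := one_le_mul_of_one_le_of_one_le e4 hR1
    exact one_le_mul_of_one_le_of_one_le e1 e5
  intro F H P δ d V hRel hP hd hδ hd1 hF hP0 hV hPV
  obtain ⟨hdegH, -⟩ := h6 F H P δ d hRel hP hd
  set D := F.totalDegree with hD
  have hlenF : 1 ≤ len F := hLE3 _ F hF
  have hlenP : 0 ≤ len P := by
    unfold len; exact Finset.sum_nonneg fun _ _ => abs_nonneg _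
  set T := lenC (th θ F) with hT
  have hT0 : 0 ≤ T := by
    rw [hT]; unfold lenC; exact Finset.sum_nonneg fun _ _ => norm_nonneg _
  have hq0 : 0 ≤ Real.exp (-V) := (Real.exp_pos _).le
  have hq1 : Real.exp (-V) ≤ 1 := Real.exp_le_one_iff.mpr (by linarith)
  -- the bound at a point
  have key : ∀ W : Fin k → σ → ℂ, (∀ i j, ‖W i j‖ ≤ 1) →
      ‖ev (fun i => perp θ (W i)) H‖ ≤ (B5 * R0 * 4 ^ (N + 1) * R0) ^ (δ * D) *
        len F ^ δ * len P ^ d * max (Real.exp (-V)) T := by
    intro W hW
    set w : Fin k → Option σ → ℂ := fun i => perp θ (W i) with hw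
    have hperp : ∀ W' : σ → ℂ, (∀ j, ‖W' j‖ ≤ 1) → ∀ o, ‖perp θ W' o‖ ≤ R0 := by
      intro W' hW' o
      cases o with
      | none =>
        show ‖-∑ j, θ j * W' j‖ ≤ R0
        rw [norm_neg]
        calc ‖∑ j, θ j * W' j‖ ≤ ∑ j, ‖θ j * W' j‖ := norm_sum_le _ _
          _ ≤ ∑ j, ‖θ j‖ := Finset.sum_le_sum fun j _ => by
              rw [norm_mul]; exact mul_le_of_le_one_right (norm_nonneg _) (hW' j)
          _ ≤ R0 := by rw [hR0]; linarith
      | some j => exact (hW' j).trans hR1
    obtain ⟨a, ξ, hξ, hH⟩ := hRel w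
    set l : Fin d → ℝ := fun t => ∑ o, ‖ξ t o‖ with hl
    set e : Fin d → ℝ := fun t => ∑ j, ‖ξ t (some j) - θ j * ξ t none‖ with he
    have hl0 : ∀ t, 0 ≤ l t := fun t => Finset.sum_nonneg fun _ _ => norm_nonneg _
    have he0 : ∀ t, 0 ≤ e t := fun t => Finset.sum_nonneg fun _ _ => norm_nonneg _
    have hel : ∀ t, e t ≤ R0 * l t := by
      intro t
      have h1 : e t ≤ ∑ j, (‖ξ t (some j)‖ + ‖θ j‖ * ‖ξ t none‖) := by
        refine Finset.sum_le_sum fun j _ => ?_
        rw [← norm_mul]; exact norm_sub_le _ _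
      have h2 : l t = ‖ξ t none‖ + ∑ j, ‖ξ t (some j)‖ := by
        simp only [hl]; exact Fintype.sum_option _
      rw [Finset.sum_add_distrib, ← Finset.sum_mul] at h1
      rw [h2, hR0]
      have h3 : 0 ≤ ∑ j, ‖ξ t (some j)‖ := Finset.sum_nonneg fun _ _ => norm_nonneg _
      have h4 := norm_nonneg (ξ t none)
      nlinarith [mul_nonneg hS0 h3]
    -- (i)
    have hi : ‖a‖ * ∏ t, l t ≤ 4 ^ ((N + 1) * d) * (len F * R0 ^ D) := by
      obtain ⟨U, hU, hU2⟩ := h1 (Option σ) d a ξ
      rw [← hξ U, Fintype.card_option] at hU2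
      refine hU2.trans (mul_le_mul_of_nonneg_left ?_ (by positivity))
      refine hLE2 _ F (fun p : Fin (k + 1) × Option σ => (Fin.cons U w : Fin (k + 1) → Option σ → ℂ)
        p.1 p.2) R0 hR1 ?_
      rintro ⟨i, o⟩
      refine Fin.cases ?_ (fun i => ?_) i
      · simpa using (hU o).trans hR1
      · simpa using hperp (W i) (hW i) o
    -- (ii)
    have hii : ‖a‖ * ∏ t, e t ≤ 4 ^ (N * d) * T := by
      obtain ⟨W', hW', hW2⟩ := h1 σ d a (fun t j => ξ t (some j) - θ j * ξ t none)
      refine hW2.trans (mul_le_mul_of_nonneg_left ?_ (by positivity))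
      have e1 : ∀ t, ∑ j, W' j * (ξ t (some j) - θ j * ξ t none) =
          ∑ o, perp θ W' o * ξ t o := by
        intro t
        rw [Fintype.sum_option]
        show _ = (-∑ j, θ j * W' j) * ξ t none + ∑ j, W' j * ξ t (some j)
        rw [neg_mul, Finset.sum_mul, ← Finset.sum_neg_distrib, ← Finset.sum_add_distrib]
        refine Finset.sum_congr rfl fun j _ => by ring
      simp_rw [e1]
      rw [← hξ (perp θ W')]
      have e2 : (Fin.cons (perp θ W') w : Fin (k + 1) → Option σ → ℂ) =
          fun i => perp θ ((Fin.cons W' W : Fin (k + 1) → σ → ℂ) i) := by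
        funext i
        refine Fin.cases ?_ (fun i => ?_) i
        · simp
        · simp [hw]
      rw [e2, ← (h4 σ (k + 1) θ F).1 (Fin.cons W' W)]
      have e3 := hLE1 _ (th θ F) (fun p : Fin (k + 1) × σ => (Fin.cons W' W : Fin (k + 1) → σ → ℂ)
        p.1 p.2) 1 le_rfl ?_
      · simpa using e3
      · rintro ⟨i, j⟩
        refine Fin.cases ?_ (fun i => ?_) i
        · simpa using hW' j
        · simpa using hW i j
    -- (iii)
    have hiii : ∀ t, ‖aeval (ξ t) P‖ ≤
        (B5 ^ δ * len P) * (l t ^ (δ - 1) * max (Real.exp (-V) * l t) (e t)) := by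
      intro t
      have := h5 δ P V (ξ t) hδ hP hPV
      refine this.trans (le_of_eq ?_)
      congr 1
      rw [mul_max_of_nonneg _ _ (pow_nonneg (hl0 t) _)]
      congr 1
      have : l t ^ δ = l t ^ (δ - 1) * l t := by
        rw [← pow_succ]; congr 1; omega
      show Real.exp (-V) * l t ^ δ = _
      rw [this]; ring
    have hA : ‖ev w H‖ ≤ ‖a‖ ^ δ * ((B5 ^ δ * len P) ^ d * ((∏ t, l t) ^ (δ - 1) *
        max (Real.exp (-V) * (R0 ^ d * ∏ t, l t)) (∏ t, e t))) := by
      rw [hH, norm_mul, norm_pow, norm_prod]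
      refine mul_le_mul_of_nonneg_left ?_ (by positivity)
      calc ∏ t, ‖aeval (ξ t) P‖ ≤ ∏ t, ((B5 ^ δ * len P) *
            (l t ^ (δ - 1) * max (Real.exp (-V) * l t) (e t))) :=
            Finset.prod_le_prod (fun _ _ => norm_nonneg _) (fun t _ => hiii t)
        _ = (B5 ^ δ * len P) ^ d * ((∏ t, l t) ^ (δ - 1) *
              ∏ t, max (Real.exp (-V) * l t) (e t)) := by
            rw [Finset.prod_mul_distrib, Finset.prod_const, Finset.card_univ, Fintype.card_fin,
              Finset.prod_mul_distrib, Finset.prod_pow]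
        _ ≤ _ := by
            refine mul_le_mul_of_nonneg_left ?_ (by positivity)
            refine mul_le_mul_of_nonneg_left ?_
              (pow_nonneg (Finset.prod_nonneg fun t _ => hl0 t) _)
            exact MetTh_prodmax _ _ hq0 hq1 hR1 l e hl0 he0 hel
    have hL0 : 0 ≤ ∏ t, l t := Finset.prod_nonneg fun t _ => hl0 t
    have hE0 : 0 ≤ ∏ t, e t := Finset.prod_nonneg fun t _ => he0 t
    set L := ∏ t, l t with hL
    set E := ∏ t, e t with hE
    set A : ℝ := 4 ^ ((N + 1) * d) * (len F * R0 ^ D) with hAdef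
    have hA1 : (4 : ℝ) ^ (N * d) ≤ A := by
      rw [hAdef]
      have e1 : (4 : ℝ) ^ (N * d) ≤ 4 ^ ((N + 1) * d) :=
        pow_le_pow_right₀ (by norm_num) (Nat.mul_le_mul_right _ (Nat.le_succ _))
      have e2 : 1 ≤ len F * R0 ^ D := one_le_mul_of_one_le_of_one_le hlenF (one_le_pow₀ hR1)
      calc (4 : ℝ) ^ (N * d) ≤ 4 ^ ((N + 1) * d) := e1
        _ ≤ _ := le_mul_of_one_le_right (by positivity) e2
    have hA0 : 0 ≤ A := by rw [hAdef]; positivity
    -- combine
    have hB : ‖ev w H‖ ≤ (B5 ^ δ * len P) ^ d * (R0 ^ d * A ^ δ * max (Real.exp (-V)) T) := by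
      refine hA.trans ?_
      have e1 : ‖a‖ ^ δ * ((B5 ^ δ * len P) ^ d * (L ^ (δ - 1) *
          max (Real.exp (-V) * (R0 ^ d * L)) E)) =
          (B5 ^ δ * len P) ^ d * ((‖a‖ * L) ^ (δ - 1) *
            max (Real.exp (-V) * R0 ^ d * (‖a‖ * L)) (‖a‖ * E)) := by
        have e2 : max (Real.exp (-V) * R0 ^ d * (‖a‖ * L)) (‖a‖ * E) =
            ‖a‖ * max (Real.exp (-V) * (R0 ^ d * L)) E := by
          rw [mul_max_of_nonneg _ _ (norm_nonneg a)]
          congr 1; ring
        have e3 : ‖a‖ ^ δ = ‖a‖ ^ (δ - 1) * ‖a‖ := by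
          rw [← pow_succ]; congr 1; omega
        rw [e2, e3, mul_pow]; ring
      rw [e1]
      refine mul_le_mul_of_nonneg_left ?_ (by positivity)
      have e4 : (‖a‖ * L) ^ (δ - 1) ≤ A ^ (δ - 1) :=
        pow_le_pow_left₀ (mul_nonneg (norm_nonneg _) hL0) hi _
      have e5 : max (Real.exp (-V) * R0 ^ d * (‖a‖ * L)) (‖a‖ * E) ≤
          R0 ^ d * A * max (Real.exp (-V)) T := by
        have hm0 : 0 ≤ max (Real.exp (-V)) T := le_max_of_le_left hq0
        have hRd : 1 ≤ R0 ^ d := one_le_pow₀ hR1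
        refine max_le ?_ ?_
        · calc Real.exp (-V) * R0 ^ d * (‖a‖ * L) ≤ Real.exp (-V) * R0 ^ d * A :=
                mul_le_mul_of_nonneg_left hi (by positivity)
            _ = R0 ^ d * A * Real.exp (-V) := by ring
            _ ≤ _ := mul_le_mul_of_nonneg_left (le_max_left _ _) (by positivity)
        · calc ‖a‖ * E ≤ 4 ^ (N * d) * T := hii
            _ ≤ A * T := mul_le_mul_of_nonneg_right hA1 hT0
            _ ≤ R0 ^ d * A * T := by
                refine mul_le_mul_of_nonneg_right ?_ hT0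
                exact le_mul_of_one_le_left hA0 hRd
            _ ≤ _ := mul_le_mul_of_nonneg_left (le_max_right _ _) (by positivity)
      calc (‖a‖ * L) ^ (δ - 1) * max (Real.exp (-V) * R0 ^ d * (‖a‖ * L)) (‖a‖ * E)
          ≤ A ^ (δ - 1) * (R0 ^ d * A * max (Real.exp (-V)) T) :=
            mul_le_mul e4 e5 (le_max_of_le_right (mul_nonneg (norm_nonneg _) hE0))
              (pow_nonneg hA0 _)
        _ = R0 ^ d * A ^ δ * max (Real.exp (-V)) T := by
            have : A ^ δ = A ^ (δ - 1) * A := by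
              rw [← pow_succ]; congr 1; omega
            rw [this]; ring
    refine hB.trans ?_
    have hm0 : 0 ≤ max (Real.exp (-V)) T := le_max_of_le_left hq0
    have e1 : (B5 ^ δ * len P) ^ d * (R0 ^ d * A ^ δ * max (Real.exp (-V)) T) =
        (B5 ^ (δ * d) * R0 ^ d * 4 ^ ((N + 1) * (d * δ)) * R0 ^ (D * δ)) *
          (len F ^ δ * len P ^ d * max (Real.exp (-V)) T) := by
      rw [hAdef, mul_pow, mul_pow, mul_pow, ← pow_mul, ← pow_mul, ← pow_mul]
      have : (N + 1) * d * δ = (N + 1) * (d * δ) := by ring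
      rw [this]; ring
    rw [e1]
    have e2 : (B5 * R0 * 4 ^ (N + 1) * R0) ^ (δ * D) * len F ^ δ * len P ^ d *
        max (Real.exp (-V)) T = (B5 ^ (δ * D) * R0 ^ (δ * D) * 4 ^ ((N + 1) * (δ * D)) *
          R0 ^ (δ * D)) * (len F ^ δ * len P ^ d * max (Real.exp (-V)) T) := by
      rw [mul_pow, mul_pow, mul_pow, ← pow_mul]; ring
    rw [e2]
    refine mul_le_mul_of_nonneg_right ?_ (by positivity)
    have hdD : δ * d ≤ δ * D := Nat.mul_le_mul_left _ hd
    have hdD' : d ≤ δ * D := hd.trans (Nat.le_mul_of_pos_left _ hδ)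
    have f1 : B5 ^ (δ * d) ≤ B5 ^ (δ * D) := pow_le_pow_right₀ hB5 hdD
    have f2 : R0 ^ d ≤ R0 ^ (δ * D) := pow_le_pow_right₀ hR1 hdD'
    have f3 : (4 : ℝ) ^ ((N + 1) * (d * δ)) ≤ 4 ^ ((N + 1) * (δ * D)) :=
      pow_le_pow_right₀ (by norm_num) (Nat.mul_le_mul_left _ (by rw [mul_comm]; exact hdD))
    have f4 : R0 ^ (D * δ) ≤ R0 ^ (δ * D) := by rw [mul_comm D δ]
    have g0 : 0 ≤ R0 := by linarith
    have g1 : 0 ≤ B5 := by linarith
    gcongr
  -- the supremum
  obtain ⟨z, hz, hz2⟩ := h2 (Fin k × σ) (th θ H)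
  have hk := key (fun i j => z (i, j)) (fun i j => hz (i, j))
  have hev : eval z (th θ H) = ev (fun i => perp θ ((fun i j => z (i, j)) i)) H := by
    rw [← (h4 σ k θ H).1 (fun i j => z (i, j))]
  rw [hev, Fintype.card_prod, Fintype.card_fin] at hz2
  have hdeg : (th θ H).totalDegree ≤ δ * D := ((h4 σ k θ H).2.1).trans hdegH
  calc lenC (th θ H) ≤ 2 ^ (k * N * (th θ H).totalDegree) *
        ‖ev (fun i => perp θ ((fun i j => z (i, j)) i)) H‖ := hz2
    _ ≤ 2 ^ (k * N * (δ * D)) * ((B5 * R0 * 4 ^ (N + 1) * R0) ^ (δ * D) *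
        len F ^ δ * len P ^ d * max (Real.exp (-V)) T) := by
        refine mul_le_mul (pow_le_pow_right₀ (by norm_num) (Nat.mul_le_mul_left _ hdeg)) hk
          (norm_nonneg _) (by positivity)
    _ = _ := by
        rw [mul_pow (2 ^ (k * N)), ← pow_mul]; ring

end Pool.Agent.Work.MP_327059_nt.GL

end

section

/-!
# C11: the norm lies in `ℚ(y)`
-/

set_option autoImplicit false

namespace Pool.Agent.Work.MP_327059_nt.GL

open MvPolynomial

namespace NormGal

/-- the product of linear forms as a polynomial -/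
noncomputable def prodP {ι : Type} [Fintype ι] {R : Type} [CommRing R] {d : ℕ} (a : R)
    (ξ : Fin d → ι → R) : MvPolynomial ι R :=
  C a * ∏ t, ∑ j, C (ξ t j) * X j

lemma eval_prodP {ι : Type} [Fintype ι] {R : Type} [CommRing R] {d : ℕ} (a : R)
    (ξ : Fin d → ι → R) (U : ι → R) :
    eval U (prodP a ξ) = a * ∏ t, ∑ j, U j * ξ t j := by
  simp [prodP, map_prod, map_sum, mul_comm]

lemma map_prodP {ι : Type} [Fintype ι] {R S : Type} [CommRing R] [CommRing S] (f : R →+* S)
    {d : ℕ} (a : R) (ξ : Fin d → ι → R) :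
    map f (prodP a ξ) = prodP (f a) (fun t j => f (ξ t j)) := by
  simp [prodP, map_prod, map_sum]

/-- the form `F(U, y)` over a commutative ring -/
noncomputable def FK {ι n : Type} {R : Type} [CommRing R] (F : MvPolynomial (ι ⊕ n) ℤ)
    (y : n → R) : MvPolynomial ι R :=
  aeval (Sum.elim (fun j => (X j : MvPolynomial ι R)) (fun i => C (y i))) F

lemma eval_FK {ι n : Type} {R : Type} [CommRing R] (F : MvPolynomial (ι ⊕ n) ℤ)
    (y : n → R) (U : ι → R) : eval U (FK F y) = aeval (Sum.elim U y) F := by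
  unfold FK
  have h : ((eval U : MvPolynomial ι R →+* R).comp
      ((aeval (Sum.elim (fun j => (X j : MvPolynomial ι R)) (fun i => C (y i))) :
        MvPolynomial (ι ⊕ n) ℤ →ₐ[ℤ] MvPolynomial ι R) : MvPolynomial (ι ⊕ n) ℤ →+* _)) =
      ((aeval (Sum.elim U y) : MvPolynomial (ι ⊕ n) ℤ →ₐ[ℤ] R) :
        MvPolynomial (ι ⊕ n) ℤ →+* R) := by
    apply MvPolynomial.ringHom_ext
    · intro r; simp
    · rintro (i | i) <;> simp
  exact congrArg (fun g => g F) h

lemma map_FK {ι n : Type} {R S : Type} [CommRing R] [CommRing S] (f : R →+* S)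
    (F : MvPolynomial (ι ⊕ n) ℤ) (y : n → R) :
    map f (FK F y) = FK F (fun i => f (y i)) := by
  unfold FK
  have h : ((map f : MvPolynomial ι R →+* MvPolynomial ι S).comp
      ((aeval (Sum.elim (fun j => (X j : MvPolynomial ι R)) (fun i => C (y i))) :
        MvPolynomial (ι ⊕ n) ℤ →ₐ[ℤ] MvPolynomial ι R) : MvPolynomial (ι ⊕ n) ℤ →+* _)) =
      ((aeval (Sum.elim (fun j => (X j : MvPolynomial ι S)) (fun i => C (f (y i)))) :
        MvPolynomial (ι ⊕ n) ℤ →ₐ[ℤ] MvPolynomial ι S) :
        MvPolynomial (ι ⊕ n) ℤ →+* MvPolynomial ι S) := by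
    apply MvPolynomial.ringHom_ext
    · intro r; simp
    · rintro (i | i) <;> simp
  exact congrArg (fun g => g F) h

lemma coe_aeval {ι : Type} {R S : Type} [CommRing R] [CommRing S] (f : R →+* S)
    (P : MvPolynomial ι ℤ) (v : ι → R) : f (aeval v P) = aeval (fun j => f (v j)) P := by
  have h : ((f : R →+* S).comp
      ((aeval v : MvPolynomial ι ℤ →ₐ[ℤ] R) : MvPolynomial ι ℤ →+* R)) =
      ((aeval (fun j => f (v j)) : MvPolynomial ι ℤ →ₐ[ℤ] S) : MvPolynomial ι ℤ →+* S) := by
    apply MvPolynomial.ringHom_ext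
    · intro r; simp
    · intro i; simp
  exact congrArg (fun g => g P) h

end NormGal

open NormGal in
theorem pr_NormGal (h1 : S_ResWD) : S_NormGal := by
  intro ι n _ _ F y d a ξ ha hξ halg hF δ P hP
  set K := IntermediateField.adjoin ℚ (Set.range y) with hK
  let L : IntermediateField K ℂ := algebraicClosure K ℂ
  have hL : ∀ x : ℂ, AlgOver y x → x ∈ L := by
    intro x hx
    exact (mem_algebraicClosure_iff).2 hx
  have yK : ∀ i, y i ∈ K := fun i => IntermediateField.subset_adjoin _ _ ⟨i, rfl⟩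
  let y' : n → K := fun i => ⟨y i, yK i⟩
  let ξ' : Fin d → ι → L := fun t j => ⟨ξ t j, hL _ (halg t j)⟩
  -- identity over ℂ
  have hC : FK F y = prodP a ξ := by
    apply MvPolynomial.funext
    intro U
    rw [eval_FK, eval_prodP, hF]
  have hQ : (∏ t, ∑ j, C (ξ t j) * X j : MvPolynomial ι ℂ) ≠ 0 := by
    rw [Finset.prod_ne_zero_iff]
    intro t _ h0
    obtain ⟨j, hj⟩ := Function.ne_iff.1 (hξ t)
    apply hj
    classical
    have := congrArg (eval (Pi.single j (1 : ℂ))) h0
    simpa [map_sum, Pi.single_apply] using this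
  -- a ∈ L
  have haL : a ∈ L := by
    obtain ⟨m, hm⟩ := MvPolynomial.ne_zero_iff.1 hQ
    have h2 : coeff m (FK F y) = a * coeff m (∏ t, ∑ j, C (ξ t j) * X j : MvPolynomial ι ℂ) := by
      rw [hC, prodP, coeff_C_mul]
    have h3 : coeff m (FK F y) ∈ L := by
      have : FK F y = map (algebraMap K ℂ) (FK F y') := by
        rw [map_FK]; rfl
      rw [this, coeff_map]
      exact L.algebraMap_mem _
    have h4 : coeff m (∏ t, ∑ j, C (ξ t j) * X j : MvPolynomial ι ℂ) ∈ L := by
      have : (∏ t, ∑ j, C (ξ t j) * X j : MvPolynomial ι ℂ) =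
          map (algebraMap L ℂ) (∏ t, ∑ j, C (ξ' t j) * X j) := by
        simp [map_prod, map_sum, ξ']
      rw [this, coeff_map]
      exact (coeff m (∏ t, ∑ j, C (ξ' t j) * X j : MvPolynomial ι L)).2
    have h5 : a = coeff m (FK F y) *
        (coeff m (∏ t, ∑ j, C (ξ t j) * X j : MvPolynomial ι ℂ))⁻¹ := by
      rw [h2]; field_simp
    rw [h5]
    exact L.mul_mem h3 (L.inv_mem h4)
  let a' : L := ⟨a, haL⟩
  -- identity over L
  have hLid : FK F (fun i => algebraMap K L (y' i)) = prodP a' ξ' := by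
    apply MvPolynomial.map_injective (algebraMap L ℂ) (algebraMap L ℂ).injective
    rw [map_FK, map_prodP]
    exact hC
  let z' : L := a' ^ δ * ∏ t, aeval (ξ' t) P
  have hz' : (z' : ℂ) = a ^ δ * ∏ t, aeval (ξ t) P := by
    have : (z' : ℂ) = algebraMap L ℂ z' := rfl
    rw [this]
    simp only [z', map_mul, map_pow, map_prod, coe_aeval]
    rfl
  have : IsGalois K L := IsAlgClosure.isGalois K L
  have hfix : ∀ σ : L ≃ₐ[K] L, σ z' = z' := by
    intro σ
    have hσ : prodP (σ a') (fun t j => σ (ξ' t j)) = prodP a' ξ' := by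
      have h6 := map_prodP ((σ : L →+* L)) a' ξ'
      rw [← hLid, map_FK] at h6
      rw [← hLid]
      rw [show (prodP (σ a') (fun t j => σ (ξ' t j)) : MvPolynomial ι L) =
        prodP ((σ : L →+* L) a') (fun t j => (σ : L →+* L) (ξ' t j)) from rfl, ← h6]
      congr 1
      funext i
      simp
    have hσC : ∀ U : ι → ℂ, (σ a' : ℂ) * ∏ t, ∑ j, U j * (σ (ξ' t j) : ℂ) =
        a * ∏ t, ∑ j, U j * ξ t j := by
      intro U
      have h7 := congrArg (map (algebraMap L ℂ)) hσ
      rw [map_prodP, map_prodP] at h7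
      have h8 := congrArg (eval U) h7
      rw [eval_prodP, eval_prodP] at h8
      exact h8
    have hne : ∀ t, (fun j => (σ (ξ' t j) : ℂ)) ≠ 0 := by
      intro t h0
      apply hξ t
      funext j
      have h9 := congrFun h0 j
      have h10 : σ (ξ' t j) = 0 := by
        apply Subtype.ext; simpa using h9
      have h11 : ξ' t j = 0 := by simpa using h10
      exact congrArg (fun x : L => (x : ℂ)) h11
    have h12 := h1 ι d (σ a' : ℂ) a (fun t j => (σ (ξ' t j) : ℂ)) ξ hne hξ hσC δ P hP
    apply Subtype.ext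
    rw [hz', ← h12]
    have : ((σ z' : L) : ℂ) = algebraMap L ℂ ((σ : L →+* L) z') := rfl
    rw [this]
    simp only [z', map_mul, map_pow, map_prod, coe_aeval]
    rfl
  have hbot := (InfiniteGalois.mem_bot_iff_fixed z').2 hfix
  obtain ⟨k, hk⟩ := IntermediateField.mem_bot.1 hbot
  rw [← hz', ← hk]
  exact k.2

end Pool.Agent.Work.MP_327059_nt.GL

end

section

/-!
# C10: the norm is integral over `ℤ[y]`
-/

set_option autoImplicit false

namespace Pool.Agent.Work.MP_327059_nt.GL

open MvPolynomial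

/-- the product of linear forms is the image of `F` -/
theorem NormInt_poly (ι n : Type) [Fintype ι] [Fintype n] (F : MvPolynomial (ι ⊕ n) ℤ)
    (y : n → ℂ) (d : ℕ) (a : ℂ) (ξ : Fin d → ι → ℂ)
    (h : ∀ U : ι → ℂ, aeval (Sum.elim U y) F = a * ∏ t, ∑ j, U j * ξ t j) :
    (C a * ∏ t, ∑ j, C (ξ t j) * X j : MvPolynomial ι ℂ) =
      aeval (Sum.elim (fun j => (X j : MvPolynomial ι ℂ)) (fun i => C (y i))) F := by
  apply MvPolynomial.funext
  intro U
  have h1 : eval U (aeval (Sum.elim (fun j => (X j : MvPolynomial ι ℂ)) (fun i => C (y i))) F) =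
      aeval (Sum.elim U y) F := by
    have h2 : ((eval U : MvPolynomial ι ℂ →+* ℂ).toIntAlgHom.comp
        (aeval (Sum.elim (fun j => (X j : MvPolynomial ι ℂ)) (fun i => C (y i))))) =
        aeval (Sum.elim U y) := by
      apply MvPolynomial.algHom_ext
      intro i
      rcases i with i | i
      · simp
      · simp
    exact congrArg (fun φ : MvPolynomial (ι ⊕ n) ℤ →ₐ[ℤ] ℂ => φ F) h2
  rw [h1, h U]
  simp only [map_mul, eval_C, map_prod, map_sum, eval_X]
  congr 1
  apply Finset.prod_congr rfl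
  intro t _
  apply Finset.sum_congr rfl
  intro j _
  ring

/-- coefficients of the image lie in every subring containing `y` -/
theorem NormInt_coeff (ι n : Type) (F : MvPolynomial (ι ⊕ n) ℤ) (y : n → ℂ) (V : Subring ℂ)
    (hV : ∀ i, y i ∈ V) (m : ι →₀ ℕ) :
    (aeval (Sum.elim (fun j => (X j : MvPolynomial ι ℂ)) (fun i => C (y i))) F).coeff m ∈ V := by
  have h1 : aeval (Sum.elim (fun j => (X j : MvPolynomial ι ℂ)) (fun i => C (y i))) F =
      map V.subtype (aeval (Sum.elim (fun j => (X j : MvPolynomial ι V))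
        (fun i => C (⟨y i, hV i⟩ : V))) F) := by
    have h2 : ((map V.subtype : MvPolynomial ι V →+* MvPolynomial ι ℂ).toIntAlgHom.comp
        (aeval (Sum.elim (fun j => (X j : MvPolynomial ι V))
        (fun i => C (⟨y i, hV i⟩ : V))))) =
        aeval (Sum.elim (fun j => (X j : MvPolynomial ι ℂ)) (fun i => C (y i))) := by
      apply MvPolynomial.algHom_ext
      intro i
      rcases i with i | i
      · simp
      · simp
    exact (congrArg (fun φ : MvPolynomial (ι ⊕ n) ℤ →ₐ[ℤ] MvPolynomial ι ℂ => φ F) h2).symm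
  rw [h1, coeff_map]
  exact ((aeval (Sum.elim (fun j => (X j : MvPolynomial ι V))
        (fun i => C (⟨y i, hV i⟩ : V))) F).coeff m).2

theorem pr_NormInt (h1 : S_ValG) : S_NormInt := by
  intro ι n _ _ F y d a ξ hξ hF δ P hP
  have hmem : a ^ δ * ∏ t, aeval (ξ t) P ∈
      (integralClosure (Subring.closure (Set.range y)) ℂ).toSubring := by
    rw [← iInf_valuationSubring_superset, Subring.mem_iInf]
    rintro ⟨V, hV⟩
    refine h1 ι V d a ξ hξ (fun m => ?_) δ P hP
    rw [NormInt_poly ι n F y d a ξ hF]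
    exact NormInt_coeff ι n F y V.toSubring (fun i => hV ⟨i, rfl⟩) m
  have hint : IsIntegral (Subring.closure (Set.range y)) (a ^ δ * ∏ t, aeval (ξ t) P) := hmem
  have hle : Subring.closure (Set.range y) ≤ (Algebra.adjoin ℤ (Set.range y)).toSubring := by
    rw [Subring.closure_le]
    exact Algebra.subset_adjoin
  exact hint.map_of_comp_eq (Subring.inclusion hle : _ →+* (Algebra.adjoin ℤ (Set.range y)))
    (RingHom.id ℂ) (by ext x; rfl)

end Pool.Agent.Work.MP_327059_nt.GL

end

section

set_option autoImplicit false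

namespace Pool.Agent.Work.MP_327059_nt.GL

open MvPolynomial

theorem NormN_aux {n : Type} (y : n → ℂ)
    (hinj : Function.Injective (aeval y : MvPolynomial n ℤ →ₐ[ℤ] ℂ)) (v : ℂ)
    (hv1 : IsIntegral (Algebra.adjoin ℤ (Set.range y)) v)
    (hv2 : v ∈ IntermediateField.adjoin ℚ (Set.range y)) :
    ∃ H : MvPolynomial n ℤ, aeval y H = v := by
  classical
  let f : MvPolynomial n ℤ →+* ℂ := (aeval y : MvPolynomial n ℤ →ₐ[ℤ] ℂ).toRingHom
  have hf : Function.Injective f := hinj
  let φ : FractionRing (MvPolynomial n ℤ) →+* ℂ := IsFractionRing.lift hf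
  have hφ : ∀ x, φ (algebraMap _ _ x) = f x := fun x => IsFractionRing.lift_algebraMap hf x
  have hmem : v ∈ φ.fieldRange := by
    have hle : (IntermediateField.adjoin ℚ (Set.range y)).toSubfield ≤ φ.fieldRange := by
      rw [IntermediateField.adjoin_toSubfield, Subfield.closure_le]
      rintro x (⟨r, rfl⟩ | ⟨i, rfl⟩)
      · refine ⟨(r : FractionRing (MvPolynomial n ℤ)), ?_⟩
        simp
      · refine ⟨algebraMap (MvPolynomial n ℤ) _ (X i), ?_⟩
        rw [hφ]
        simp [f]
    exact hle hv2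
  obtain ⟨q, rfl⟩ := hmem
  have hq : IsIntegral (MvPolynomial n ℤ) q := by
    obtain ⟨p, hp, hp0⟩ := hv1
    have hsurj : ∀ r : Algebra.adjoin ℤ (Set.range y), ∃ G : MvPolynomial n ℤ, f G = r := by
      intro r
      have h : (r : ℂ) ∈ (aeval y : MvPolynomial n ℤ →ₐ[ℤ] ℂ).range := by
        have h' := r.2
        have h'' := Algebra.adjoin_range_eq_range_aeval ℤ y
        exact h'' ▸ h'
      obtain ⟨G, hG⟩ := h
      exact ⟨G, hG⟩
    let e : MvPolynomial n ℤ →+* Algebra.adjoin ℤ (Set.range y) :=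
      f.codRestrict (Algebra.adjoin ℤ (Set.range y)) (by
        intro G
        rw [Algebra.adjoin_range_eq_range_aeval]
        exact ⟨G, rfl⟩)
    have he : Function.Surjective e := by
      intro r
      obtain ⟨G, hG⟩ := hsurj r
      exact ⟨G, Subtype.ext hG⟩
    have hcomp : (algebraMap (Algebra.adjoin ℤ (Set.range y)) ℂ).comp e = f := by
      ext x <;> rfl
    obtain ⟨P, hP, hdeg, hPm⟩ := Polynomial.lifts_and_natDegree_eq_and_monic
      (f := e) (p := p) (by
        rw [Polynomial.lifts_iff_coeff_lifts]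
        intro k
        exact he _) hp
    refine ⟨P, hPm, ?_⟩
    apply φ.injective
    rw [map_zero, Polynomial.hom_eval₂]
    have h2 : φ.comp (algebraMap (MvPolynomial n ℤ) (FractionRing (MvPolynomial n ℤ))) = f := by
      ext x
      · simp
      · simp [hφ]
    rw [h2, ← hcomp, ← Polynomial.eval₂_map, hP]
    exact hp0
  obtain ⟨H, hH⟩ := IsIntegrallyClosed.isIntegral_iff.1 hq
  refine ⟨H, ?_⟩
  rw [← hH, hφ]
  rfl

theorem pr_NormN (h1 : S_NormInt) (h2 : S_NormGal) (h3 : S_AIZ) : S_NormN := by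
  intro ι n _ _ F y hy d a ξ ha hξ hal hF δ P hP
  refine NormN_aux y ?_ _ (h1 ι n F y d a ξ hξ hF δ P hP) (h2 ι n F y d a ξ ha hξ hal hF δ P hP)
  rw [injective_iff_map_eq_zero]
  exact (h3 n y).1 hy

end Pool.Agent.Work.MP_327059_nt.GL

end
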