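import Mathlib
import Pool.Agent.Work.MP_327059_nt.Bd.B01

/-! Bundle of small proof modules (one section per former module). -/

section

set_option autoImplicit false

namespace Pool.Agent.Work.MP_327059_nt.GL

open MvPolynomial

/-- Every element of `ℚ(y)` is a quotient of integer polynomials in `y`. -/
theorem orb_frac {n : Type} (y : n → ℂ) (a : ℂ)
    (ha : a ∈ IntermediateField.adjoin ℚ (Set.range y)) :
    ∃ P Q : MvPolynomial n ℤ, aeval y Q ≠ 0 ∧ aeval y P = aeval y Q * a := by
  induction ha using IntermediateField.adjoin_induction with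
  | mem x hx =>
    obtain ⟨i, rfl⟩ := hx
    exact ⟨X i, 1, by simp, by simp⟩
  | algebraMap q =>
    refine ⟨C q.num, C (q.den : ℤ), ?_, ?_⟩
    · simp
    · have h : ((q.den : ℚ) * q) = q.num := by
        rw [mul_comm]; exact Rat.mul_den_eq_num q
      have h2 : (((q.den : ℚ) * q : ℚ) : ℂ) = ((q.num : ℚ) : ℂ) := by rw [h]
      push_cast at h2
      simp only [eq_intCast, map_intCast, map_natCast, eq_ratCast]
      exact h2.symm
  | add x z hx hz ihx ihz =>
    obtain ⟨P1, Q1, h1, e1⟩ := ihx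
    obtain ⟨P2, Q2, h2, e2⟩ := ihz
    refine ⟨P1 * Q2 + P2 * Q1, Q1 * Q2, ?_, ?_⟩
    · rw [map_mul]; exact mul_ne_zero h1 h2
    · rw [map_add, map_mul, map_mul, map_mul, e1, e2]; ring
  | inv x hx ihx =>
    obtain ⟨P1, Q1, h1, e1⟩ := ihx
    by_cases hx0 : x = 0
    · exact ⟨0, 1, by simp, by simp [hx0]⟩
    · refine ⟨Q1, P1, ?_, ?_⟩
      · rw [e1]; exact mul_ne_zero h1 hx0
      · rw [e1, mul_assoc, mul_inv_cancel₀ hx0, mul_one]
  | mul x z hx hz ihx ihz =>
    obtain ⟨P1, Q1, h1, e1⟩ := ihx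
    obtain ⟨P2, Q2, h2, e2⟩ := ihz
    refine ⟨P1 * P2, Q1 * Q2, ?_, ?_⟩
    · rw [map_mul]; exact mul_ne_zero h1 h2
    · rw [map_mul, map_mul, e1, e2]; ring

/-- Clearing denominators of a polynomial over `ℚ(y)`. -/
theorem orb_clear {ι n : Type} (y : n → ℂ)
    (N1 : MvPolynomial ι (IntermediateField.adjoin ℚ (Set.range y))) :
    ∃ (N : MvPolynomial (ι ⊕ n) ℤ) (c : MvPolynomial n ℤ), aeval y c ≠ 0 ∧
      ∀ U : ι → ℂ, aeval (Sum.elim U y) N = aeval y c * aeval U N1 := by
  induction N1 using MvPolynomial.induction_on with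
  | C a =>
    obtain ⟨P, Q, hQ, e⟩ := orb_frac y a a.2
    refine ⟨rename Sum.inr P, Q, hQ, fun U => ?_⟩
    rw [aeval_rename, Sum.elim_comp_inr, e, algHom_C]
    rfl
  | add p q ihp ihq =>
    obtain ⟨P1, Q1, h1, e1⟩ := ihp
    obtain ⟨P2, Q2, h2, e2⟩ := ihq
    refine ⟨P1 * rename Sum.inr Q2 + P2 * rename Sum.inr Q1, Q1 * Q2, ?_, fun U => ?_⟩
    · rw [map_mul]; exact mul_ne_zero h1 h2
    · rw [map_add, map_add, map_mul, map_mul, map_mul, e1, e2, aeval_rename, aeval_rename,
        Sum.elim_comp_inr]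
      ring
  | mul_X p j ihp =>
    obtain ⟨P1, Q1, h1, e1⟩ := ihp
    refine ⟨P1 * X (Sum.inl j), Q1, h1, fun U => ?_⟩
    rw [map_mul, map_mul, e1, aeval_X, aeval_X, Sum.elim_inl]
    ring

/-- Finite orbit. -/
theorem orb_finite {K L ι : Type} [Field K] [Field L] [Algebra K L] [Algebra.IsAlgebraic K L]
    [Fintype ι] (z : ι → L) :
    (Set.range (fun (s : L ≃ₐ[K] L) (j : ι) => s (z j))).Finite := by
  classical
  have hf : (Set.pi Set.univ (fun j => ((minpoly K (z j)).rootSet L))).Finite :=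
    Set.Finite.pi fun j => Polynomial.rootSet_finite _ _
  refine hf.subset ?_
  rintro _ ⟨s, rfl⟩ j _
  rw [Polynomial.mem_rootSet]
  have hi : IsIntegral K (z j) := (Algebra.IsAlgebraic.isAlgebraic (z j)).isIntegral
  refine ⟨minpoly.ne_zero hi, ?_⟩
  have := Polynomial.aeval_algHom_apply s.toAlgHom (z j) (minpoly K (z j))
  simp only [minpoly.aeval, map_zero] at this
  exact this

/-- The norm form of the orbit has coefficients in the base field. -/
theorem orb_norm {K L ι : Type} [Field K] [Field L] [Algebra K L] [IsGalois K L]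
    [Fintype ι] (O : Finset (ι → L)) (hO : ∀ (s : L ≃ₐ[K] L), ∀ ξ ∈ O, (fun j => s (ξ j)) ∈ O) :
    ∃ N1 : MvPolynomial ι K,
      map (algebraMap K L) N1 = ∏ ξ ∈ O, ∑ j, C (ξ j) * (X j : MvPolynomial ι L) := by
  classical
  set N0 : MvPolynomial ι L := ∏ ξ ∈ O, ∑ j, C (ξ j) * (X j : MvPolynomial ι L) with hN0
  have hinv : ∀ s : L ≃ₐ[K] L, map (s : L →+* L) N0 = N0 := by
    intro s
    rw [hN0, map_prod]
    refine Finset.prod_bij' (fun ξ _ => fun j => s (ξ j)) (fun ξ _ => fun j => s.symm (ξ j))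
      (fun ξ h => hO s ξ h) (fun ξ h => hO s.symm ξ h) ?_ ?_ ?_
    · intro ξ _; funext j; simp
    · intro ξ _; funext j; simp
    · intro ξ _
      rw [map_sum]
      refine Finset.sum_congr rfl fun j _ => ?_
      rw [map_mul, map_C, map_X]
      rfl
  have hco : ∀ m, N0.coeff m ∈ Set.range (algebraMap K L) := by
    intro m
    rw [InfiniteGalois.mem_range_algebraMap_iff_fixed]
    intro s
    have h := congrArg (fun p => MvPolynomial.coeff m p) (hinv s)
    simp only [coeff_map] at h
    exact h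
  have hmem : N0 ∈ Set.range (map (algebraMap K L) : MvPolynomial ι K →+* MvPolynomial ι L) := by
    rw [MvPolynomial.mem_range_map_iff_coeffs_subset]
    intro a ha
    rw [Finset.mem_coe, MvPolynomial.mem_coeffs_iff] at ha
    obtain ⟨m, _, rfl⟩ := ha
    exact hco m
  obtain ⟨N1, h1⟩ := hmem
  exact ⟨N1, h1⟩

theorem pr_Orb : S_Orb := by
  classical
  intro ι n _ _ y ζ hζ
  set K := IntermediateField.adjoin ℚ (Set.range y) with hK
  let L := algebraicClosure K ℂ
  have : IsAlgClosure K L := algebraicClosure.isAlgClosure K ℂ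
  have : Normal K L := IsAlgClosure.normal K L
  have : IsGalois K L := {}
  let z : ι → L := fun j => ⟨ζ j, mem_algebraicClosure_iff.mpr (hζ j)⟩
  let yK : n → K := fun i => ⟨y i, IntermediateField.subset_adjoin ℚ _ ⟨i, rfl⟩⟩
  let yL : n → L := fun i => algebraMap K L (yK i)
  have hfin := orb_finite (K := K) z
  let OL : Finset (ι → L) := hfin.toFinset
  have hOL : ∀ ξ, ξ ∈ OL ↔ ∃ s : L ≃ₐ[K] L, (fun j => s (z j)) = ξ := by
    intro ξ
    simp [OL]
  let emb : (ι → L) ↪ (ι → ℂ) := ⟨fun ξ j => (ξ j : ℂ), fun a b h => by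
    funext j
    exact Subtype.ext (congrFun h j)⟩
  have key : ∀ (ξ : ι → L) (f : MvPolynomial (ι ⊕ n) ℤ),
      aeval (Sum.elim (emb ξ) y) f = ((aeval (Sum.elim ξ yL) f : L) : ℂ) := by
    intro ξ f
    induction f using MvPolynomial.induction_on with
    | C a => simp
    | add p q hp hq => rw [map_add, map_add, hp, hq]; rfl
    | mul_X p i hp =>
      rw [map_mul, map_mul, hp, aeval_X, aeval_X]
      rcases i with i | i <;> rfl
  refine ⟨OL.map emb, ?_, ?_, ?_, ?_⟩
  · rw [Finset.mem_map]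
    exact ⟨z, (hOL z).mpr ⟨AlgEquiv.refl, rfl⟩, rfl⟩
  · intro ξ hξ
    rw [Finset.mem_map] at hξ
    obtain ⟨η, hη, rfl⟩ := hξ
    obtain ⟨s, rfl⟩ := (hOL η).mp hη
    intro f
    have h1 : aeval (Sum.elim ζ y) f = ((aeval (Sum.elim z yL) f : L) : ℂ) := key z f
    have h2 := key (fun j => s (z j)) f
    have h3 : aeval (Sum.elim (fun j => s (z j)) yL) f = s (aeval (Sum.elim z yL) f) := by
      generalize f = g
      induction g using MvPolynomial.induction_on with
      | C a => simp
      | add p q hp hq => rw [map_add, map_add, hp, hq, map_add]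
      | mul_X p i hp =>
        rw [map_mul, map_mul, hp, aeval_X, aeval_X, map_mul]
        rcases i with i | i
        · rfl
        · simp only [Sum.elim_inr, yL]
          rw [s.commutes]
    rw [h1, h2, h3]
    constructor
    · intro h
      have : aeval (Sum.elim z yL) f = 0 := Subtype.ext h
      rw [this, map_zero]; rfl
    · intro h
      have : s (aeval (Sum.elim z yL) f) = 0 := Subtype.ext h
      rw [map_eq_zero_iff _ s.injective] at this
      rw [this]; rfl
  · intro ξ hξ j
    rw [Finset.mem_map] at hξ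
    obtain ⟨η, hη, rfl⟩ := hξ
    exact mem_algebraicClosure_iff.mp (η j).2
  · obtain ⟨N1, hN1⟩ := orb_norm (K := K) OL (fun s ξ hξ => by
      obtain ⟨t, rfl⟩ := (hOL ξ).mp hξ
      exact (hOL _).mpr ⟨t.trans s, rfl⟩)
    obtain ⟨N, c, hc, hN⟩ := orb_clear y N1
    refine ⟨N, c, hc, fun U => ?_⟩
    rw [hN U]
    congr 1
    have h1 : aeval U N1 = eval₂ (algebraMap L ℂ) U (map (algebraMap K L) N1) := by
      rw [eval₂_map, aeval_def, ← IsScalarTower.algebraMap_eq]
    rw [h1, hN1, eval₂_prod, Finset.prod_map]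
    refine Finset.prod_congr rfl fun ξ _ => ?_
    rw [eval₂_sum]
    refine Finset.sum_congr rfl fun j _ => ?_
    rw [eval₂_mul, eval₂_C, eval₂_X, mul_comm]
    rfl

end Pool.Agent.Work.MP_327059_nt.GL

end

section

/-!
# PART C, item PEst: the value of a polynomial small at `θ` near `θ`
-/

set_option autoImplicit false

namespace Pool.Agent.Work.MP_327059_nt.GL

open MvPolynomial

lemma PEst_ms {ι : Type} (x y : ι → ℂ) (M e : ℝ) (hM : 0 ≤ M) (he : 0 ≤ e)
    (hx : ∀ o, ‖x o‖ ≤ M) (hy : ∀ o, ‖y o‖ ≤ M) (hxy : ∀ o, ‖x o - y o‖ ≤ e) (s : Multiset ι) :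
    ‖(s.map x).prod‖ ≤ M ^ s.card ∧
    ‖(s.map x).prod - (s.map y).prod‖ ≤ s.card * M ^ (s.card - 1) * e := by
  induction s using Multiset.induction_on with
  | empty => simp
  | cons a s ih =>
    obtain ⟨ih1, ih2⟩ := ih
    rw [Multiset.map_cons, Multiset.prod_cons, Multiset.map_cons, Multiset.prod_cons,
      Multiset.card_cons]
    refine ⟨?_, ?_⟩
    · rw [norm_mul, pow_succ, mul_comm (M ^ _)]
      exact mul_le_mul (hx a) ih1 (norm_nonneg _) hM
    · have h1 : x a * (s.map x).prod - y a * (s.map y).prod =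
          (x a - y a) * (s.map x).prod + y a * ((s.map x).prod - (s.map y).prod) := by ring
      rw [h1, Nat.add_sub_cancel]
      have h2 : ‖(x a - y a) * (s.map x).prod‖ ≤ e * M ^ s.card := by
        rw [norm_mul]
        exact mul_le_mul (hxy a) ih1 (norm_nonneg _) he
      have h3 : ‖y a * ((s.map x).prod - (s.map y).prod)‖ ≤
          M * (s.card * M ^ (s.card - 1) * e) := by
        rw [norm_mul]
        exact mul_le_mul (hy a) ih2 (norm_nonneg _) hM
      have h4 : M * (s.card * M ^ (s.card - 1) * e) = s.card * M ^ s.card * e := by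
        rcases Nat.eq_zero_or_pos s.card with h0 | h0
        · rw [h0]; simp
        · conv_rhs => rw [show s.card = s.card - 1 + 1 by omega, pow_succ]
          rw [show s.card - 1 + 1 = s.card by omega]
          ring
      refine le_trans (norm_add_le _ _) ?_
      push_cast
      rw [h4] at h3
      linarith

lemma PEst_toMs {ι : Type} (x : ι → ℂ) (m : ι →₀ ℕ) :
    (m.prod fun i k => x i ^ k) = ((Finsupp.toMultiset m).map x).prod := by
  rw [Finsupp.toMultiset_map, Finsupp.prod_toMultiset]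
  rw [Finsupp.prod_mapDomain_index (by intro b; simp) (by intro b m₁ m₂; exact pow_add _ _ _)]

lemma PEst_aeval {ι : Type} (x : ι → ℂ) (P : MvPolynomial ι ℤ) :
    aeval x P = ∑ m ∈ P.support, ((P.coeff m : ℤ) : ℂ) * ((Finsupp.toMultiset m).map x).prod := by
  rw [aeval_def, eval₂_eq]
  refine Finset.sum_congr rfl (fun m _ => ?_)
  rw [← PEst_toMs]
  rfl

lemma PEst_card {ι : Type} {δ : ℕ} {P : MvPolynomial ι ℤ} (hP : P.IsHomogeneous δ)
    {m : ι →₀ ℕ} (hm : m ∈ P.support) : (Finsupp.toMultiset m).card = δ := by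
  rw [Finsupp.card_toMultiset]
  have h := hP (mem_support_iff.1 hm)
  rw [Finsupp.weight_apply] at h
  have h2 : (m.sum fun i c => c) = δ := by simpa using h
  exact h2

lemma PEst_smul {ι : Type} {δ : ℕ} {P : MvPolynomial ι ℤ} (hP : P.IsHomogeneous δ) (c : ℂ)
    (x : ι → ℂ) : aeval (fun o => c * x o) P = c ^ δ * aeval x P := by
  rw [PEst_aeval, PEst_aeval, Finset.mul_sum]
  refine Finset.sum_congr rfl (fun m hm => ?_)
  rw [Multiset.prod_map_mul, Multiset.map_const', Multiset.prod_replicate, PEst_card hP hm]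
  ring

lemma PEst_len {ι : Type} {P : MvPolynomial ι ℤ} (hP : P ≠ 0) : 1 ≤ len P := by
  obtain ⟨m, hm⟩ : ∃ m, m ∈ P.support := by
    by_contra h
    push Not at h
    exact hP (support_eq_empty.1 (Finset.eq_empty_of_forall_notMem h))
  unfold len
  have h1 : (1 : ℝ) ≤ |((P.coeff m : ℤ) : ℝ)| := by
    have h2 : 1 ≤ |P.coeff m| := Int.one_le_abs (mem_support_iff.1 hm)
    rw [← Int.cast_abs]
    exact_mod_cast h2
  exact le_trans h1 (Finset.single_le_sum (f := fun m => |((P.coeff m : ℤ) : ℝ)|)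
    (fun _ _ => abs_nonneg _) hm)

theorem pr_PEst : S_PEst := by
  intro σ _ θ
  have hT : 0 ≤ ∑ j, ‖θ j‖ := Finset.sum_nonneg (fun _ _ => norm_nonneg _)
  set T : ℝ := ∑ j, ‖θ j‖ with hTdef
  refine ⟨2 * (1 + T), by linarith, ?_⟩
  intro δ P V ξ hδ hP hV
  by_cases hP0 : P = 0
  · subst hP0
    simp [len]
  have hlen := PEst_len hP0
  set l : ℝ := ∑ o, ‖ξ o‖ with hl
  have hl0 : 0 ≤ l := Finset.sum_nonneg (fun _ _ => norm_nonneg _)
  set e : ℝ := ∑ j, ‖ξ (some j) - θ j * ξ none‖ with he
  have he0 : 0 ≤ e := Finset.sum_nonneg (fun _ _ => norm_nonneg _)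
  have hxl : ∀ o, ‖ξ o‖ ≤ l := fun o =>
    Finset.single_le_sum (f := fun o => ‖ξ o‖) (fun _ _ => norm_nonneg _) (Finset.mem_univ o)
  have hhat : ∀ o, ‖hat θ o‖ ≤ 1 + T := by
    intro o
    cases o with
    | none => simp [hat]; exact hT
    | some j =>
      have h1 : ‖θ j‖ ≤ T := Finset.single_le_sum (f := fun j => ‖θ j‖)
        (fun _ _ => norm_nonneg _) (Finset.mem_univ j)
      show ‖θ j‖ ≤ 1 + T
      linarith
  set y : Option σ → ℂ := fun o => ξ none * hat θ o with hy
  have hM0 : 0 ≤ (1 + T) * l := by positivity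
  have hxM : ∀ o, ‖ξ o‖ ≤ (1 + T) * l := by
    intro o
    have := hxl o
    nlinarith
  have hyM : ∀ o, ‖y o‖ ≤ (1 + T) * l := by
    intro o
    rw [hy]
    simp only [norm_mul]
    rw [mul_comm]
    exact mul_le_mul (hhat o) (hxl none) (norm_nonneg _) (by linarith)
  have hxy : ∀ o, ‖ξ o - y o‖ ≤ e := by
    intro o
    cases o with
    | none => simp [hy, hat]; exact he0
    | some j =>
      have h1 : ‖ξ (some j) - θ j * ξ none‖ ≤ e := Finset.single_le_sum
        (f := fun j => ‖ξ (some j) - θ j * ξ none‖) (fun _ _ => norm_nonneg _) (Finset.mem_univ j)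
      have h2 : y (some j) = θ j * ξ none := by
        rw [hy]
        show ξ none * θ j = _
        ring
      rw [h2]
      exact h1
  have hdiff : ‖aeval ξ P - aeval y P‖ ≤ len P * (δ * ((1 + T) * l) ^ (δ - 1) * e) := by
    rw [PEst_aeval, PEst_aeval, ← Finset.sum_sub_distrib]
    refine le_trans (norm_sum_le _ _) ?_
    unfold len
    rw [Finset.sum_mul]
    refine Finset.sum_le_sum (fun m hm => ?_)
    rw [← mul_sub, norm_mul]
    have h1 := (PEst_ms ξ y _ e hM0 he0 hxM hyM hxy (Finsupp.toMultiset m)).2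
    rw [PEst_card hP hm] at h1
    refine mul_le_mul ?_ h1 (norm_nonneg _) (abs_nonneg _)
    simp
  have hyP : ‖aeval y P‖ ≤ l ^ δ * Real.exp (-V) := by
    rw [hy, PEst_smul hP, norm_mul, norm_pow]
    exact mul_le_mul (pow_le_pow_left₀ (norm_nonneg _) (hxl none) _) hV (norm_nonneg _)
      (by positivity)
  have hmain : ‖aeval ξ P‖ ≤ l ^ δ * Real.exp (-V) +
      len P * (δ * ((1 + T) * l) ^ (δ - 1) * e) := by
    have h1 : aeval ξ P = aeval y P + (aeval ξ P - aeval y P) := by ring
    rw [h1]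
    exact le_trans (norm_add_le _ _) (add_le_add hyP hdiff)
  set a : ℝ := Real.exp (-V) * l ^ δ with ha
  set b : ℝ := l ^ (δ - 1) * e with hb
  have ha0 : 0 ≤ a := by positivity
  have hb0 : 0 ≤ b := by positivity
  have hmax0 : 0 ≤ max a b := le_trans ha0 (le_max_left _ _)
  have h1 : l ^ δ * Real.exp (-V) + len P * (δ * ((1 + T) * l) ^ (δ - 1) * e) =
      a + len P * (δ * (1 + T) ^ (δ - 1)) * b := by
    rw [ha, hb, mul_pow]; ring
  have hT1 : (1 : ℝ) ≤ 1 + T := by linarith
  have h2 : (δ : ℝ) * (1 + T) ^ (δ - 1) + 1 ≤ (2 * (1 + T)) ^ δ := by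
    have h3 : (δ : ℝ) + 1 ≤ 2 ^ δ := by
      have : δ + 1 ≤ 2 ^ δ := Nat.lt_two_pow_self
      exact_mod_cast this
    have h4 : (1 + T) ^ (δ - 1) ≤ (1 + T) ^ δ := pow_le_pow_right₀ hT1 (by omega)
    have h5 : (1 : ℝ) ≤ (1 + T) ^ δ := one_le_pow₀ hT1
    rw [mul_pow]
    have h6 : (0 : ℝ) ≤ δ := Nat.cast_nonneg _
    calc (δ : ℝ) * (1 + T) ^ (δ - 1) + 1 ≤ δ * (1 + T) ^ δ + (1 + T) ^ δ := by
          have := mul_le_mul_of_nonneg_left h4 h6
          linarith
      _ = (δ + 1) * (1 + T) ^ δ := by ring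
      _ ≤ 2 ^ δ * (1 + T) ^ δ := by
          apply mul_le_mul_of_nonneg_right h3; linarith
  have hD : (0 : ℝ) ≤ δ * (1 + T) ^ (δ - 1) := by positivity
  rw [h1] at hmain
  refine le_trans hmain ?_
  have h7 : a ≤ len P * max a b := by
    have : a ≤ max a b := le_max_left _ _
    nlinarith
  have h8 : len P * (δ * (1 + T) ^ (δ - 1)) * b ≤ len P * (δ * (1 + T) ^ (δ - 1)) * max a b := by
    apply mul_le_mul_of_nonneg_left (le_max_right _ _)
    positivity
  have h9 : len P * (δ * (1 + T) ^ (δ - 1) + 1) * max a b ≤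
      (2 * (1 + T)) ^ δ * len P * max a b := by
    apply mul_le_mul_of_nonneg_right _ hmax0
    rw [mul_comm]
    exact mul_le_mul_of_nonneg_right h2 (by linarith)
  nlinarith

end Pool.Agent.Work.MP_327059_nt.GL

end

section

set_option autoImplicit false

namespace Pool.Agent.Work.MP_327059_nt.GL

open MvPolynomial

/-- the equivalence of the variables -/
def PermD_E {ι : Type} {k : ℕ} (e : Equiv.Perm (Fin k)) : Fin k × ι ≃ Fin k × ι :=
  Equiv.prodCongr e (Equiv.refl ι)

theorem PermD_ev {ι : Type} {k : ℕ} (u : Fin k → ι → ℂ) (e : Equiv.Perm (Fin k))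
    (G : MvPolynomial (Fin k × ι) ℤ) :
    ev (fun i => u (e.symm i)) (rename (fun p : Fin k × ι => (e p.1, p.2)) G) = ev u G := by
  unfold ev
  rw [aeval_rename]
  congr 2
  funext p
  simp [Function.comp]

theorem PermD_rename {ι : Type} {k : ℕ} (e : Equiv.Perm (Fin k))
    (G : MvPolynomial (Fin k × ι) ℤ) :
    rename (fun p : Fin k × ι => (e p.1, p.2)) G = renameEquiv ℤ (PermD_E (ι := ι) e) G := by
  rw [renameEquiv_apply]
  rfl

theorem pr_PermD : S_PermD := by
  intro ι _ k F u ζ e h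
  obtain ⟨hF, hζ, ho, hr, hp⟩ := h
  refine ⟨?_, hζ, fun i => ho (e.symm i), fun G => ?_, hp⟩
  · rw [PermD_rename]
    exact (MulEquiv.irreducible_iff (renameEquiv ℤ (PermD_E (ι := ι) e))).2 hF
  · obtain ⟨G', rfl⟩ := (renameEquiv ℤ (PermD_E (ι := ι) e)).surjective G
    rw [← PermD_rename, PermD_ev, hr, PermD_rename, PermD_rename, map_dvd_iff]

end Pool.Agent.Work.MP_327059_nt.GL

end

section

/-!
# PART C, item PermM: permutation of the groups (sizes)
-/

set_option autoImplicit false

namespace Pool.Agent.Work.MP_327059_nt.GL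

open MvPolynomial

lemma PermM_sum {σ τ R : Type} [CommSemiring R] (f : σ → τ) (hf : Function.Injective f)
    (P : MvPolynomial σ R) (N : R → ℝ) :
    ∑ m ∈ (rename f P).support, N ((rename f P).coeff m) = ∑ m ∈ P.support, N (P.coeff m) := by
  classical
  rw [support_rename_of_injective hf, Finset.sum_image]
  · exact Finset.sum_congr rfl fun m _ => by rw [coeff_rename_mapDomain f hf]
  · exact (Finsupp.mapDomain_injective hf).injOn

lemma PermM_inj {k : ℕ} {ι : Type} (e : Equiv.Perm (Fin k)) :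
    Function.Injective (fun p : Fin k × ι => (e p.1, p.2)) := by
  rintro ⟨a, b⟩ ⟨c, d⟩ h
  simp only [Prod.mk.injEq, EmbeddingLike.apply_eq_iff_eq] at h
  rw [h.1, h.2]

lemma PermM_th {σ : Type} [Fintype σ] {k : ℕ} (e : Equiv.Perm (Fin k)) (θ : σ → ℂ)
    (F : MvPolynomial (Fin k × Option σ) ℤ) :
    th θ (rename (fun p : Fin k × Option σ => (e p.1, p.2)) F) =
      rename (fun p : Fin k × σ => (e p.1, p.2)) (th θ F) := by
  unfold th
  rw [aeval_rename]
  have h : ((rename (fun p : Fin k × σ => (e p.1, p.2)) :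
      MvPolynomial (Fin k × σ) ℂ →ₐ[ℂ] MvPolynomial (Fin k × σ) ℂ).restrictScalars ℤ)
      (aeval (fun p : Fin k × Option σ =>
        p.2.elim (-∑ j, C (θ j) * X (p.1, j))
          (fun j => (X (p.1, j) : MvPolynomial (Fin k × σ) ℂ))) F) =
      aeval (((fun p : Fin k × Option σ =>
        p.2.elim (-∑ j, C (θ j) * X (p.1, j))
          (fun j => (X (p.1, j) : MvPolynomial (Fin k × σ) ℂ))) ∘
            fun p : Fin k × Option σ => (e p.1, p.2))) F := by
    rw [comp_aeval_apply]
    congr 2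
    funext p
    rcases p with ⟨i, o⟩
    cases o <;> simp
  exact h.symm

theorem pr_PermM : S_PermM := by
  intro σ _ k F e θ
  have hinj : Function.Injective (fun p : Fin k × Option σ => (e p.1, p.2)) := PermM_inj e
  refine ⟨?_, ?_, ?_, ?_⟩
  · exact PermM_sum _ hinj F (fun c => |((c : ℤ) : ℝ)|)
  · exact totalDegree_renameEquiv (Equiv.prodCongr e (Equiv.refl (Option σ))) F
  · rw [PermM_th]
    exact PermM_sum _ (PermM_inj e) (th θ F) (fun c => ‖c‖)
  · intro i j
    exact degreeOf_rename_of_injective hinj (i, j)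

end Pool.Agent.Work.MP_327059_nt.GL

end

section

/-!
# PART C, item Pick: choosing a good irreducible factor
-/

set_option autoImplicit false

namespace Pool.Agent.Work.MP_327059_nt.GL

open MvPolynomial

lemma Pick_degProd {n : Type} (L : List (MvPolynomial n ℤ)) (h : ∀ g ∈ L, g ≠ 0) :
    L.prod.totalDegree = (L.map totalDegree).sum := by
  induction L with
  | nil => simp
  | cons a L ih =>
    have ha : a ≠ 0 := h a (by simp)
    have hL : ∀ g ∈ L, g ≠ 0 := fun g hg => h g (by simp [hg])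
    have hp : L.prod ≠ 0 := List.prod_ne_zero (fun h0 => hL 0 h0 rfl)
    rw [List.prod_cons, totalDegree_mul_of_isDomain ha hp, ih hL]
    simp

lemma Pick_factors {n : Type} (H : MvPolynomial n ℤ) (hH : H ≠ 0) :
    ∃ (r : ℕ) (G : Fin r → MvPolynomial n ℤ), ∏ t, G t = H ∧ (∀ t, G t ≠ 0) ∧
      (∀ t, (G t).totalDegree ≠ 0 → Irreducible (G t)) ∧
      ∑ t, (G t).totalDegree = H.totalDegree := by
  obtain ⟨f, hf, u, hu⟩ := WfDvdMonoid.exists_factors H hH
  have hu0 : (u : MvPolynomial n ℤ).totalDegree = 0 := by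
    have h1 := totalDegree_mul_of_isDomain (f := (u : MvPolynomial n ℤ))
      (g := ((u⁻¹ : (MvPolynomial n ℤ)ˣ) : MvPolynomial n ℤ)) u.ne_zero (u⁻¹).ne_zero
    rw [Units.mul_inv, totalDegree_one] at h1
    omega
  let L : List (MvPolynomial n ℤ) := (u : MvPolynomial n ℤ) :: f.toList
  have hLp : L.prod = H := by
    rw [List.prod_cons, Multiset.prod_toList, mul_comm]; exact hu
  have hmem : ∀ g ∈ L, g = (u : MvPolynomial n ℤ) ∨ Irreducible g := by
    intro g hg
    rcases List.mem_cons.mp hg with h | h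
    · exact Or.inl h
    · exact Or.inr (hf g (Multiset.mem_toList.mp h))
  have hL0 : ∀ g ∈ L, g ≠ 0 := by
    intro g hg
    rcases hmem g hg with h | h
    · rw [h]; exact u.ne_zero
    · exact h.ne_zero
  refine ⟨L.length, fun t => L[(t : ℕ)], ?_, fun t => hL0 _ (List.getElem_mem _), fun t ht => ?_,
    ?_⟩
  · rw [Fin.prod_univ_getElem]; exact hLp
  · rcases hmem _ (List.getElem_mem t.isLt) with h | h
    · exact absurd (by show (L[(t : ℕ)]).totalDegree = 0; rw [h]; exact hu0) ht
    · exact h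
  · rw [← hLp, Pick_degProd L hL0]
    exact Fin.sum_univ_fun_getElem L totalDegree

lemma Pick_degMap {n : Type} (P : MvPolynomial n ℤ) :
    (map (Int.castRingHom ℂ) P).totalDegree ≤ P.totalDegree := by
  unfold totalDegree
  exact Finset.sup_mono (support_map_subset _ _)

theorem pr_Pick (h1 : S_Gelf) (h2 : S_LenEv) (h3 : S_ThEv) : S_Pick := by
  intro σ _ k
  have hl8 : 0 < Real.log 8 := Real.log_pos (by norm_num)
  refine ⟨1 + (Fintype.card (Fin k × Option σ) : ℝ) * Real.log 8 +
    (Fintype.card (Fin k × σ) : ℝ) * Real.log 8, ?_, ?_⟩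
  · have a1 : 0 ≤ (Fintype.card (Fin k × Option σ) : ℝ) * Real.log 8 := by positivity
    have a2 : 0 ≤ (Fintype.card (Fin k × σ) : ℝ) * Real.log 8 := by positivity
    linarith
  intro θ H c ρ hH hc hρ hlt hle
  set n1 : ℕ := Fintype.card (Fin k × Option σ) with hn1
  set n2 : ℕ := Fintype.card (Fin k × σ) with hn2
  set B : ℝ := 1 + (n1 : ℝ) * Real.log 8 + (n2 : ℝ) * Real.log 8 with hB
  obtain ⟨r, G, hprod, hne, hirr, hdeg⟩ := Pick_factors H hH
  have hlen1 : ∀ t, 1 ≤ len (G t) := fun t => h2.2.2.1 _ _ (hne t)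
  have hlen0 : ∀ t, 0 < len (G t) := fun t => lt_of_lt_of_le one_pos (hlen1 t)
  have hlog0 : ∀ t, 0 ≤ Real.log (len (G t)) := fun t => Real.log_nonneg (hlen1 t)
  set D : ℝ := (H.totalDegree : ℝ) with hD
  have hD0 : 0 ≤ D := Nat.cast_nonneg _
  have hdegR : ∑ t, ((G t).totalDegree : ℝ) = D := by
    rw [hD, ← hdeg]; push_cast; rfl
  have hHlen : 1 ≤ len H := h2.2.2.1 _ _ hH
  have hHlen0 : 0 < len H := lt_of_lt_of_le one_pos hHlen
  -- first inequality
  have I1 : ∏ t, len (G t) ≤ 8 ^ (n1 * H.totalDegree) * len H := by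
    have h := h1 (Fin k × Option σ) r (fun t => map (Int.castRingHom ℂ) (G t))
    have e1 : ∏ t, lenC (map (Int.castRingHom ℂ) (G t)) = ∏ t, len (G t) :=
      Finset.prod_congr rfl fun t _ => h2.2.2.2 _ _
    have e2 : lenC (∏ t, map (Int.castRingHom ℂ) (G t)) = len H := by
      rw [← map_prod, hprod]; exact h2.2.2.2 _ _
    rw [e1, e2] at h
    refine h.trans ?_
    refine mul_le_mul_of_nonneg_right ?_ hHlen0.le
    refine pow_le_pow_right₀ (by norm_num) ?_
    refine Nat.mul_le_mul_left _ ?_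
    rw [← hdeg]
    exact Finset.sum_le_sum fun t _ => Pick_degMap _
  have hthC : ∀ t, 0 ≤ lenC (th θ (G t)) := fun t => Finset.sum_nonneg fun _ _ => norm_nonneg _
  have hthH : 0 ≤ lenC (th θ H) := Finset.sum_nonneg fun _ _ => norm_nonneg _
  -- second inequality
  have I2 : ∏ t, lenC (th θ (G t)) ≤ 8 ^ (n2 * H.totalDegree) * lenC (th θ H) := by
    have h := h1 (Fin k × σ) r (fun t => th θ (G t))
    have e2 : ∏ t, th θ (G t) = th θ H := by
      unfold th
      rw [← map_prod, hprod]
    rw [e2] at h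
    refine h.trans ?_
    refine mul_le_mul_of_nonneg_right ?_ hthH
    refine pow_le_pow_right₀ (by norm_num) ?_
    refine Nat.mul_le_mul_left _ ?_
    rw [← hdeg]
    exact Finset.sum_le_sum fun t _ => (h3 σ k θ (G t)).2.1
  -- the weights
  have hom0 : ∀ t, 0 ≤ Real.log (len (G t)) + c * (G t).totalDegree := fun t =>
    add_nonneg (hlog0 t) (mul_nonneg hc (Nat.cast_nonneg _))
  have hsum : ∑ t, (Real.log (len (G t)) + c * (G t).totalDegree) ≤
      Real.log (len H) + (c + B) * D := by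
    rw [Finset.sum_add_distrib, ← Finset.mul_sum, hdegR,
      ← Real.log_prod (fun t _ => (hlen0 t).ne')]
    have hlog := Real.log_le_log (Finset.prod_pos fun t _ => hlen0 t) I1
    rw [Real.log_mul (by positivity) hHlen0.ne', Real.log_pow] at hlog
    push_cast at hlog
    have a2 : 0 ≤ (n2 : ℝ) * Real.log 8 * D := by positivity
    have : (c + B) * D = c * D + D + (n1 : ℝ) * Real.log 8 * D + (n2 : ℝ) * Real.log 8 * D := by
      rw [hB]; ring
    rw [this]
    rw [← hD] at hlog
    nlinarith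
  by_contra hcon
  have hall : ∀ t, (G t).totalDegree ≠ 0 →
      Real.exp (-(ρ * (Real.log (len (G t)) + c * (G t).totalDegree))) < lenC (th θ (G t)) := by
    intro t ht
    by_contra hlt'
    refine hcon ⟨G t, hirr t ht, ?_, ht, not_lt.mp hlt', ?_⟩
    · rw [← hprod]; exact Finset.dvd_prod_of_mem _ (Finset.mem_univ t)
    · exact (Finset.single_le_sum (fun i _ => hom0 i) (Finset.mem_univ t)).trans hsum
  have hall' : ∀ t, Real.exp (-(ρ * (Real.log (len (G t)) + c * (G t).totalDegree))) ≤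
      lenC (th θ (G t)) := by
    intro t
    by_cases ht : (G t).totalDegree = 0
    · refine le_trans ?_ ((h3 σ k θ (G t)).2.2 ht (hne t))
      rw [← Real.exp_zero]
      exact Real.exp_le_exp.mpr (by nlinarith [mul_nonneg hρ (hom0 t)])
    · exact (hall t ht).le
  by_cases hex : ∃ t, (G t).totalDegree ≠ 0
  · obtain ⟨t0, ht0⟩ := hex
    have hlt2 : ∏ t, Real.exp (-(ρ * (Real.log (len (G t)) + c * (G t).totalDegree))) <
        ∏ t, lenC (th θ (G t)) :=
      Finset.prod_lt_prod (fun t _ => Real.exp_pos _) (fun t _ => hall' t)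
        ⟨t0, Finset.mem_univ _, hall t0 ht0⟩
    rw [← Real.exp_sum, Finset.sum_neg_distrib, ← Finset.mul_sum] at hlt2
    have h8 : (8 : ℝ) ^ (n2 * H.totalDegree) = Real.exp ((n2 : ℝ) * Real.log 8 * D) := by
      rw [← Real.exp_log (show (0 : ℝ) < 8 ^ (n2 * H.totalDegree) by positivity), Real.log_pow]
      congr 1
      push_cast
      ring
    have hfin : 8 ^ (n2 * H.totalDegree) * lenC (th θ H) ≤
        Real.exp (-(ρ * (Real.log (len H) + (c + B) * D))) := by
      rw [h8]
      refine (mul_le_mul_of_nonneg_left hle (Real.exp_pos _).le).trans ?_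
      rw [← Real.exp_add]
      refine Real.exp_le_exp.mpr ?_
      have a1 : 0 ≤ (n1 : ℝ) * Real.log 8 * D := by positivity
      have e : B * D = D + (n1 : ℝ) * Real.log 8 * D + (n2 : ℝ) * Real.log 8 * D := by
        rw [hB]; ring
      linarith
    have hfin2 : Real.exp (-(ρ * (Real.log (len H) + (c + B) * D))) ≤
        Real.exp (-(ρ * ∑ t, (Real.log (len (G t)) + c * (G t).totalDegree))) :=
      Real.exp_le_exp.mpr (neg_le_neg (mul_le_mul_of_nonneg_left hsum hρ))
    exact absurd (hlt2.trans_le (I2.trans (hfin.trans hfin2))) (lt_irrefl _)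
  · simp only [not_exists, not_not] at hex
    have hz : H.totalDegree = 0 := by
      rw [← hdeg]; exact Finset.sum_eq_zero fun t _ => hex t
    exact absurd ((h3 σ k θ H).2.2 hz hH) (not_le.mpr hlt)

end Pool.Agent.Work.MP_327059_nt.GL

end

section

/-!
# Item Princ: a relation ideal of codimension one is principal
-/

set_option autoImplicit false

namespace Pool.Agent.Work.MP_327059_nt.GL

open MvPolynomial

theorem Princ_poly {R : Type} [CommRing R] [IsDomain R] [UniqueFactorizationMonoid R]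
    (φ : R →+* ℂ) (hφ : Function.Injective φ) (x : ℂ) (f : Polynomial R) (hf : f ≠ 0)
    (hfx : f.eval₂ φ x = 0) :
    ∃ F : Polynomial R, Irreducible F ∧ ∀ G : Polynomial R, G.eval₂ φ x = 0 ↔ F ∣ G := by
  classical
  obtain ⟨_⟩ : Nonempty (NormalizedGCDMonoid R) := inferInstance
  -- an irreducible factor which vanishes
  have hex : ∃ F : Polynomial R, Irreducible F ∧ F.eval₂ φ x = 0 := by
    obtain ⟨s, hs, a, ha⟩ := UniqueFactorizationMonoid.exists_prime_factors f hf
    have h1 : (s.prod).eval₂ φ x = 0 := by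
      have h2 : (s.prod * a).eval₂ φ x = 0 := by rw [ha]; exact hfx
      rw [Polynomial.eval₂_mul] at h2
      rcases mul_eq_zero.1 h2 with h | h
      · exact h
      · exfalso
        have h3 : ((a⁻¹ : (Polynomial R)ˣ) : Polynomial R).eval₂ φ x * 
            ((a : (Polynomial R)ˣ) : Polynomial R).eval₂ φ x = 1 := by
          rw [← Polynomial.eval₂_mul, Units.inv_mul, Polynomial.eval₂_one]
        rw [h, mul_zero] at h3
        exact zero_ne_one h3
    have h2 : (Polynomial.eval₂RingHom φ x) s.prod = 0 := h1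
    rw [map_multiset_prod, Multiset.prod_eq_zero_iff, Multiset.mem_map] at h2
    obtain ⟨F, hF, hF0⟩ := h2
    exact ⟨F, (hs F hF).irreducible, hF0⟩
  obtain ⟨F, hF, hF0⟩ := hex
  refine ⟨F, hF, fun G => ⟨fun hG => ?_, ?_⟩⟩
  swap
  · rintro ⟨H, rfl⟩
    rw [Polynomial.eval₂_mul, hF0, zero_mul]
  have hdeg : F.natDegree ≠ 0 := by
    intro h
    rw [Polynomial.natDegree_eq_zero] at h
    obtain ⟨r, rfl⟩ := h
    rw [Polynomial.eval₂_C] at hF0
    have : r = 0 := hφ (by rw [hF0, map_zero])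
    subst this
    exact hF.ne_zero (by simp)
  have hprim : F.IsPrimitive := hF.isPrimitive hdeg
  by_cases hG0 : G = 0
  · rw [hG0]; exact dvd_zero _
  -- fraction field
  let K := FractionRing R
  let ψ : K →+* ℂ := IsFractionRing.lift (A := R) (K := K) (g := φ) hφ
  have hψ : ∀ r : R, ψ (algebraMap R K r) = φ r := fun r => IsFractionRing.lift_algebraMap hφ r
  have hmap : ∀ P : Polynomial R, (P.map (algebraMap R K)).eval₂ ψ x = P.eval₂ φ x := by
    intro P
    rw [Polynomial.eval₂_map]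
    congr 1
    ext r
    exact hψ r
  have hFK : Irreducible (F.map (algebraMap R K)) :=
    (hprim.irreducible_iff_irreducible_map_fraction_map (K := K)).1 hF
  have hG1 : G.primPart.eval₂ φ x = 0 := by
    have h := G.eq_C_content_mul_primPart
    rw [h, Polynomial.eval₂_mul, Polynomial.eval₂_C] at hG
    rcases mul_eq_zero.1 hG with h1 | h1
    · exfalso
      have h2 : G.content = 0 := hφ (by rw [h1, map_zero])
      exact hG0 (Polynomial.content_eq_zero_iff.1 h2)
    · exact h1
  have hdvd : F.map (algebraMap R K) ∣ G.primPart.map (algebraMap R K) := by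
    by_contra hcon
    have hc := (hFK.coprime_iff_not_dvd (n := G.primPart.map (algebraMap R K))).2 hcon
    obtain ⟨a, b, hab⟩ := hc
    have := congrArg (fun P => Polynomial.eval₂ ψ x P) hab
    simp only [Polynomial.eval₂_add, Polynomial.eval₂_mul, hmap, hF0, hG1, mul_zero, add_zero,
      Polynomial.eval₂_one] at this
    exact zero_ne_one this
  have h1 : F ∣ G.primPart :=
    hprim.dvd_of_fraction_map_dvd_fraction_map hdvd
  exact (hprim.dvd_primPart_iff_dvd hG0).1 h1

theorem pr_Princ (h1 : S_AIZ) : S_Princ := by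
  intro n _ u x0 hB hu
  classical
  rw [h1] at hB hu
  simp only [not_forall] at hu
  obtain ⟨f, hf0, hf⟩ := hu
  let B := {i // i ≠ x0}
  let R := MvPolynomial B ℤ
  let φ : R →+* ℂ := (aeval (fun i : B => u i) : MvPolynomial B ℤ →ₐ[ℤ] ℂ).toRingHom
  have hφ : Function.Injective φ := by
    rw [injective_iff_map_eq_zero]
    intro G hG
    exact hB G hG
  let e : MvPolynomial n ℤ ≃ₐ[ℤ] Polynomial R :=
    (MvPolynomial.renameEquiv ℤ (Equiv.optionSubtypeNe x0).symm).trans
      (MvPolynomial.optionEquivLeft ℤ B)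
  have he : ∀ G : MvPolynomial n ℤ, (e G).eval₂ φ (u x0) = aeval u G := by
    intro G
    have : ((Polynomial.eval₂RingHom φ (u x0)).comp (e : MvPolynomial n ℤ →+* Polynomial R)) =
        (aeval u : MvPolynomial n ℤ →ₐ[ℤ] ℂ).toRingHom := by
      apply MvPolynomial.ringHom_ext
      · intro r; simp
      · intro i
        by_cases hi : i = x0
        · have h2 : (Equiv.optionSubtypeNe x0).symm i = none := by
            rw [Equiv.symm_apply_eq, hi]; rfl
          have h3 : e (X i) = Polynomial.X := by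
            have h4 : e (X i) = (MvPolynomial.optionEquivLeft ℤ B)
                (MvPolynomial.renameEquiv ℤ (Equiv.optionSubtypeNe x0).symm (X i)) := rfl
            rw [h4, MvPolynomial.renameEquiv_apply, MvPolynomial.rename_X, h2]
            exact MvPolynomial.optionEquivLeft_X_none _ _
          have h4 : Polynomial.eval₂ φ (u x0) (e (X i)) = u i := by
            rw [h3, Polynomial.eval₂_X, hi]
          simpa using h4
        · have h2 : (Equiv.optionSubtypeNe x0).symm i = some ⟨i, hi⟩ := by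
            rw [Equiv.symm_apply_eq]; rfl
          have h3 : e (X i) = Polynomial.C (X ⟨i, hi⟩) := by
            have h4 : e (X i) = (MvPolynomial.optionEquivLeft ℤ B)
                (MvPolynomial.renameEquiv ℤ (Equiv.optionSubtypeNe x0).symm (X i)) := rfl
            rw [h4, MvPolynomial.renameEquiv_apply, MvPolynomial.rename_X, h2]
            exact MvPolynomial.optionEquivLeft_X_some _ _ _
          have h4 : Polynomial.eval₂ φ (u x0) (e (X i)) = u i := by
            rw [h3, Polynomial.eval₂_C]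
            exact MvPolynomial.aeval_X _ _
          simpa using h4
    exact congrArg (fun g : MvPolynomial n ℤ →+* ℂ => g G) this
  have hef : e f ≠ 0 := by
    intro h
    exact hf ((map_eq_zero_iff e e.injective).1 h)
  obtain ⟨F, hF, hG⟩ := Princ_poly φ hφ (u x0) (e f) hef (by rw [he]; exact hf0)
  refine ⟨e.symm F, ?_, fun G => ?_⟩
  · exact (MulEquiv.irreducible_iff e.symm).2 hF
  · rw [← he, hG]
    constructor
    · intro h
      have := map_dvd e.symm h
      simpa using this
    · intro h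
      have := map_dvd e h
      simpa using this

end Pool.Agent.Work.MP_327059_nt.GL

end

section

set_option autoImplicit false

namespace Pool.Agent.Work.MP_327059_nt.GL

open MvPolynomial

theorem Re_bij {ι : Type} (k : ℕ) :
    Function.Bijective (re k : Fin (k + 1) × ι → ι ⊕ (Fin k × ι)) := by
  refine Function.bijective_iff_has_inverse.mpr
    ⟨Sum.elim (fun j => (0, j)) (fun p => (p.1.succ, p.2)), ?_, ?_⟩
  · rintro ⟨i, j⟩
    refine Fin.cases ?_ (fun i => ?_) i
    · rfl
    · rfl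
  · rintro (j | ⟨i, j⟩)
    · rfl
    · rfl

theorem pr_Re : S_Re := by
  intro ι k F
  have hb := Re_bij (ι := ι) k
  refine ⟨?_, hb, ?_, ?_, ?_⟩
  · intro U w
    unfold ev
    rw [aeval_rename]
    congr 2
    funext p
    obtain ⟨i, j⟩ := p
    refine Fin.cases ?_ (fun i => ?_) i
    · rfl
    · rfl
  · exact totalDegree_renameEquiv (Equiv.ofBijective _ hb) F
  · intro j
    exact degreeOf_rename_of_injective hb.1 (0, j)
  · intro G
    have h : ∀ P : MvPolynomial (Fin (k + 1) × ι) ℤ,
        rename (re k) P = renameEquiv ℤ (Equiv.ofBijective _ hb) P := fun P => rfl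
    rw [h, h]
    exact map_dvd_iff _

end Pool.Agent.Work.MP_327059_nt.GL

end

section

/-!
# PART C: the resultant does not depend on the factorisation
-/

set_option autoImplicit false

namespace Pool.Agent.Work.MP_327059_nt.GL

open MvPolynomial

/-- The linear form with coefficients `ξ`. -/
noncomputable def ResWD_L {ι : Type} [Fintype ι] (ξ : ι → ℂ) : MvPolynomial ι ℂ :=
  ∑ j, C (ξ j) * X j

theorem ResWD_eval {ι : Type} [Fintype ι] (ξ U : ι → ℂ) :
    eval U (ResWD_L ξ) = ∑ j, U j * ξ j := by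
  simp [ResWD_L, mul_comm]

theorem ResWD_inj {ι : Type} [Fintype ι] {ξ η : ι → ℂ} (h : ResWD_L ξ = ResWD_L η) : ξ = η := by
  classical
  funext j
  have h1 := congrArg (eval (Pi.single j 1 : ι → ℂ)) h
  rw [ResWD_eval, ResWD_eval] at h1
  simpa [Pi.single_apply] using h1

theorem ResWD_zero {ι : Type} [Fintype ι] : ResWD_L (0 : ι → ℂ) = 0 := by
  simp [ResWD_L]

theorem ResWD_ne {ι : Type} [Fintype ι] {ξ : ι → ℂ} (h : ξ ≠ 0) : ResWD_L ξ ≠ 0 := by
  intro h1
  apply h
  apply ResWD_inj
  rw [h1, ResWD_zero]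

theorem ResWD_hom {ι : Type} [Fintype ι] (ξ : ι → ℂ) : (ResWD_L ξ).IsHomogeneous 1 := by
  unfold ResWD_L
  apply IsHomogeneous.sum
  intro j _
  have := (isHomogeneous_C ι (ξ j)).mul (isHomogeneous_X ℂ j)
  simpa using this

theorem ResWD_deg {ι : Type} [Fintype ι] {ξ : ι → ℂ} (h : ξ ≠ 0) :
    (ResWD_L ξ).totalDegree = 1 :=
  (ResWD_hom ξ).totalDegree (ResWD_ne h)

theorem ResWD_prime {ι : Type} [Fintype ι] {ξ : ι → ℂ} (h : ξ ≠ 0) : Prime (ResWD_L ξ) := by
  have h1 : Irreducible (ResWD_L ξ) := by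
    apply irreducible_of_totalDegree_eq_one (ResWD_deg h)
    intro x hx
    by_contra hc
    have hx0 : x = 0 := by
      by_contra h2
      exact hc (IsUnit.mk0 x h2)
    apply ResWD_ne h
    ext m
    have h3 := hx m
    rw [hx0, zero_dvd_iff] at h3
    rw [h3, coeff_zero]
  exact h1.prime

theorem ResWD_smul {ι : Type} [Fintype ι] {δ : ℕ} {P : MvPolynomial ι ℤ}
    (hP : P.IsHomogeneous δ) (c : ℂ) (ξ : ι → ℂ) :
    aeval (c • ξ) P = c ^ δ * aeval ξ P := by
  rw [aeval_def, aeval_def, eval₂_eq', eval₂_eq', Finset.mul_sum]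
  apply Finset.sum_congr rfl
  intro m hm
  have h1 : (∑ i, m i) = δ := by
    have h2 := hP (mem_support_iff.mp hm)
    rw [← h2, Finsupp.weight_apply, Finsupp.sum_fintype]
    · simp
    · simp
  have h3 : ∏ i, (c • ξ) i ^ m i = c ^ δ * ∏ i, ξ i ^ m i := by
    rw [← h1, ← Finset.prod_pow_eq_pow_sum, ← Finset.prod_mul_distrib]
    apply Finset.prod_congr rfl
    intro i _
    rw [Pi.smul_apply, smul_eq_mul, mul_pow]
  rw [h3]
  ring

theorem ResWD_poly {ι : Type} [Fintype ι] {d : ℕ} {a b : ℂ} {ξ η : Fin d → ι → ℂ}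
    (h : ∀ U : ι → ℂ, a * ∏ t, ∑ j, U j * ξ t j = b * ∏ t, ∑ j, U j * η t j) :
    (C a * ∏ t, ResWD_L (ξ t) : MvPolynomial ι ℂ) = C b * ∏ t, ResWD_L (η t) := by
  apply MvPolynomial.funext
  intro U
  simp only [map_mul, map_prod, eval_C, ResWD_eval]
  exact h U

theorem ResWD_nz {ι : Type} [Fintype ι] {d : ℕ} {b : ℂ} {ξ η : Fin d → ι → ℂ}
    (hη : ∀ t, η t ≠ 0)
    (h : ∀ U : ι → ℂ, 0 * ∏ t, ∑ j, U j * ξ t j = b * ∏ t, ∑ j, U j * η t j) : b = 0 := by
  have h1 := ResWD_poly h
  rw [map_zero, zero_mul] at h1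
  rcases mul_eq_zero.mp h1.symm with h2 | h2
  · exact (C_eq_zero).mp h2
  · obtain ⟨t, _, ht⟩ := Finset.prod_eq_zero_iff.mp h2
    exact absurd ht (ResWD_ne (hη t))

theorem ResWD_main {ι : Type} [Fintype ι] (δ : ℕ) (φ : (ι → ℂ) → ℂ)
    (hφ : ∀ (c : ℂ) (ξ : ι → ℂ), φ (c • ξ) = c ^ δ * φ ξ) :
    ∀ (d : ℕ) (a b : ℂ) (ξ η : Fin d → ι → ℂ), (∀ t, ξ t ≠ 0) → (∀ t, η t ≠ 0) → a ≠ 0 → b ≠ 0 →
      (∀ U : ι → ℂ, a * ∏ t, ∑ j, U j * ξ t j = b * ∏ t, ∑ j, U j * η t j) →
      a ^ δ * ∏ t, φ (ξ t) = b ^ δ * ∏ t, φ (η t) := by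
  intro d
  induction d with
  | zero =>
    intro a b ξ η _ _ _ _ h
    have h1 := h 0
    simp only [Finset.univ_eq_empty, Finset.prod_empty, mul_one] at h1 ⊢
    rw [h1]
  | succ d ih =>
    intro a b ξ η hξ hη ha hb h
    have h1 := ResWD_poly h
    have hp := ResWD_prime (hξ 0)
    have h2 : ResWD_L (ξ 0) ∣ C b * ∏ t, ResWD_L (η t) := by
      rw [← h1, Fin.prod_univ_succ]
      exact ⟨C a * ∏ t, ResWD_L (ξ (Fin.succ t)), by ring⟩
    have hnu : ¬ ResWD_L (ξ 0) ∣ (C b : MvPolynomial ι ℂ) := by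
      intro h3
      apply hp.not_isUnit
      exact isUnit_of_dvd_unit h3 ((IsUnit.mk0 b hb).map C)
    have h3 : ResWD_L (ξ 0) ∣ ∏ t, ResWD_L (η t) := (hp.dvd_or_dvd h2).resolve_left hnu
    obtain ⟨s, _, hs⟩ := hp.exists_mem_finset_dvd h3
    obtain ⟨q, hq⟩ := hs
    have hq0 : q ≠ 0 := by
      rintro rfl
      rw [mul_zero] at hq
      exact ResWD_ne (hη s) hq
    have hdq : q.totalDegree = 0 := by
      have h4 := congrArg totalDegree hq
      rw [totalDegree_mul_of_isDomain (ResWD_ne (hξ 0)) hq0, ResWD_deg (hη s),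
        ResWD_deg (hξ 0)] at h4
      omega
    obtain ⟨c, hc⟩ : ∃ c, q = C c := ⟨_, totalDegree_eq_zero_iff_eq_C.mp hdq⟩
    have hc0 : c ≠ 0 := by
      rintro rfl
      apply hq0
      rw [hc, map_zero]
    have hηs : η s = c • ξ 0 := by
      apply ResWD_inj
      rw [hq, hc]
      unfold ResWD_L
      rw [Finset.sum_mul]
      apply Finset.sum_congr rfl
      intro j _
      simp only [Pi.smul_apply, smul_eq_mul, map_mul]
      ring
    have h5 : (C a * ∏ t, ResWD_L (ξ (Fin.succ t)) : MvPolynomial ι ℂ) =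
        C (b * c) * ∏ t, ResWD_L (η (s.succAbove t)) := by
      have h6 : ResWD_L (ξ 0) * (C a * ∏ t, ResWD_L (ξ (Fin.succ t))) =
          ResWD_L (ξ 0) * (C (b * c) * ∏ t, ResWD_L (η (s.succAbove t))) := by
        have h7 := h1
        rw [Fin.prod_univ_succ, Fin.prod_univ_succAbove _ s, hq, hc] at h7
        rw [map_mul]
        linear_combination h7
      exact mul_left_cancel₀ (ResWD_ne (hξ 0)) h6
    have h8 : ∀ U : ι → ℂ, a * ∏ t : Fin d, ∑ j, U j * ξ (Fin.succ t) j =
        (b * c) * ∏ t : Fin d, ∑ j, U j * η (s.succAbove t) j := by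
      intro U
      have h9 := congrArg (eval U) h5
      simpa only [map_mul, map_prod, eval_C, ResWD_eval] using h9
    have h10 := ih a (b * c) (fun t => ξ (Fin.succ t)) (fun t => η (s.succAbove t))
      (fun t => hξ _) (fun t => hη _) ha (mul_ne_zero hb hc0) h8
    rw [Fin.prod_univ_succ, Fin.prod_univ_succAbove (fun t => φ (η t)) s, hηs, hφ]
    rw [mul_pow] at h10
    linear_combination (φ (ξ 0)) * h10

theorem pr_ResWD : S_ResWD := by
  intro ι _ d a b ξ η hξ hη h δ P hP
  have hφ : ∀ (c : ℂ) (ξ : ι → ℂ), aeval (c • ξ) P = c ^ δ * aeval ξ P :=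
    fun c ξ => ResWD_smul hP c ξ
  by_cases ha : a = 0
  · subst ha
    have hb : b = 0 := ResWD_nz hη h
    subst hb
    rcases Nat.eq_zero_or_pos δ with rfl | hδ
    · have h1 : ∀ x : ι → ℂ, aeval x P = aeval (0 : ι → ℂ) P := by
        intro x
        have := hφ 0 x
        rw [zero_smul, pow_zero, one_mul] at this
        exact this.symm
      rw [Finset.prod_congr rfl (fun t _ => h1 (ξ t)), Finset.prod_congr rfl (fun t _ => h1 (η t))]
    · rw [zero_pow hδ.ne', zero_mul, zero_mul]
  · have hb : b ≠ 0 := by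
      rintro rfl
      exact ha (ResWD_nz hξ (fun U => (h U).symm))
    exact ResWD_main δ (fun x => aeval x P) hφ d a b ξ η hξ hη ha hb h

end Pool.Agent.Work.MP_327059_nt.GL

end

section

set_option autoImplicit false

namespace Pool.Agent.Work.MP_327059_nt.GL

open MvPolynomial

/-- Scaling of a homogeneous polynomial. -/
theorem Spec0_smul {ι : Type} (m : ℕ) (f : MvPolynomial ι ℤ) (hf : f.IsHomogeneous m) (c : ℂ)
    (x : ι → ℂ) : aeval (c • x) f = c ^ m * aeval x f := by
  classical
  rw [aeval_def, aeval_def, eval₂_eq, eval₂_eq, Finset.mul_sum]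
  refine Finset.sum_congr rfl fun d hd => ?_
  have hdeg : ∑ i ∈ d.support, d i = m := by
    have := hf (mem_support_iff.mp hd)
    simpa [Finsupp.weight_apply, Finsupp.sum] using this
  have h1 : ∏ i ∈ d.support, (c • x) i ^ d i = c ^ m * ∏ i ∈ d.support, x i ^ d i := by
    rw [← hdeg, ← Finset.prod_pow_eq_pow_sum, ← Finset.prod_mul_distrib]
    refine Finset.prod_congr rfl fun i _ => ?_
    simp [mul_pow]
  rw [h1]
  ring

theorem pr_Spec0 (h1 : S_SpecN) (h2 : S_Re) (h3 : S_AI) (h4 : S_CountAlg) : S_Spec0 := by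
  classical
  intro ι _ k F u ζ hD
  obtain ⟨hirr, hζ0, horth, hrel, _⟩ := id hD
  by_cases hI : Inv0 F
  · -- main case
    have hAI := h3 ι k F u ζ hD hI
    obtain ⟨j0, hj0⟩ := Function.ne_iff.mp hζ0
    have hj0 : ζ j0 ≠ 0 := hj0
    have hAlg := h4 ι k F u ζ hD hI j0 hj0
    set y : Fin k × ι → ℂ := fun p => u p.1.succ p.2 with hy
    set z : ι → ℂ := fun j => ζ j / ζ j0 with hz
    have hzs : z = (ζ j0)⁻¹ • ζ := by
      funext j
      simp [hz, div_eq_inv_mul]
    have hcons : (Fin.cons (u 0) (fun i => u i.succ) : Fin (k + 1) → ι → ℂ) = u := by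
      funext i
      refine Fin.cases ?_ (fun i => ?_) i <;> simp
    have hrelN : ∀ G : MvPolynomial (ι ⊕ (Fin k × ι)) ℤ,
        aeval (Sum.elim (u 0) y) G = 0 ↔ rename (re k) F ∣ G := by
      intro G
      obtain ⟨G0, rfl⟩ := rename_surjective (R := ℤ) (re k) (h2 ι k F).2.1.2 G
      rw [(h2 ι k F).2.2.2.2 G0, ← hrel G0]
      have := (h2 ι k G0).1 (u 0) (fun i => u i.succ)
      rw [hcons] at this
      rw [this]
    have horthz : ∀ i : Fin (k + 1), ∑ j, u i j * z j = 0 := by
      intro i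
      have : ∑ j, u i j * z j = (ζ j0)⁻¹ * ∑ j, u i j * ζ j := by
        rw [Finset.mul_sum]
        refine Finset.sum_congr rfl fun j _ => ?_
        simp only [hz, div_eq_inv_mul]
        ring
      rw [this, horth i, mul_zero]
    obtain ⟨d, hd1, hd2, hmain⟩ := h1 ι (Fin k × ι) (rename (re k) F) (u 0) z y hrelN hAI
      (horthz 0) ⟨j0, by simp [hz, hj0]⟩ hAlg
    refine ⟨d, ?_, ?_, ?_⟩
    · rw [← (h2 ι k F).2.2.1]
      exact hd1
    · intro hI'
      obtain ⟨j, hj⟩ := hI'
      exact hd2 ⟨j, by rwa [(h2 ι k F).2.2.2.1 j]⟩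
    · intro δ P hP
      obtain ⟨H, hH1, hH2⟩ := hmain δ P hP
      refine ⟨H, ?_, ?_⟩
      · intro hne
        apply hH1
        rw [hzs, Spec0_smul δ P hP]
        exact mul_ne_zero (pow_ne_zero _ (inv_ne_zero hj0)) hne
      · intro w
        obtain ⟨a, ξ, hξ, hfac, hHw⟩ := hH2 (fun p => w p.1 p.2)
        refine ⟨a, ξ, ?_, ?_, hHw⟩
        · intro t
          refine ⟨(hξ t).1, ?_, ?_⟩
          · intro m f hf hfz
            have hHL : HomL m (rename (Sum.inl : ι → ι ⊕ (Fin k × ι)) f) := by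
              intro c x w'
              rw [aeval_rename, aeval_rename, Sum.elim_comp_inl, Sum.elim_comp_inl]
              exact Spec0_smul m f hf c x
            have h0 : aeval (Sum.elim z y) (rename (Sum.inl : ι → ι ⊕ (Fin k × ι)) f) = 0 := by
              rw [aeval_rename, Sum.elim_comp_inl, hzs, Spec0_smul m f hf, hfz, mul_zero]
            have := (hξ t).2 m _ hHL h0
            rwa [aeval_rename, Sum.elim_comp_inl] at this
          · intro i
            have hHL : HomL 1 (∑ j, X (Sum.inl j) * X (Sum.inr (i, j)) :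
                MvPolynomial (ι ⊕ (Fin k × ι)) ℤ) := by
              intro c x w'
              simp only [map_sum, map_mul, aeval_X, Sum.elim_inl, Sum.elim_inr, Pi.smul_apply,
                smul_eq_mul, pow_one, Finset.mul_sum]
              refine Finset.sum_congr rfl fun j _ => ?_
              ring
            have h0 : aeval (Sum.elim z y) (∑ j, X (Sum.inl j) * X (Sum.inr (i, j)) :
                MvPolynomial (ι ⊕ (Fin k × ι)) ℤ) = 0 := by
              simp only [map_sum, map_mul, aeval_X, Sum.elim_inl, Sum.elim_inr]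
              rw [← horthz i.succ]
              refine Finset.sum_congr rfl fun j _ => ?_
              simp only [hy]
              ring
            have := (hξ t).2 1 _ hHL h0
            simp only [map_sum, map_mul, aeval_X, Sum.elim_inl, Sum.elim_inr] at this
            rw [← this]
            refine Finset.sum_congr rfl fun j _ => ?_
            ring
        · intro U
          rw [(h2 ι k F).1 U w]
          exact hfac U
  · -- the group `0` does not occur
    have hvars : (F.vars : Set (Fin (k + 1) × ι)) ⊆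
        Set.range (fun p : Fin k × ι => (p.1.succ, p.2)) := by
      rintro ⟨i, j⟩ hij
      have hij : (i, j) ∈ F.vars := hij
      rcases Fin.eq_zero_or_eq_succ i with rfl | ⟨i', rfl⟩
      · exfalso
        apply hI
        refine ⟨j, ?_⟩
        rw [degreeOf_eq_sup]
        intro h0
        obtain ⟨d, hd, hdj⟩ := (mem_vars_iff_mem_support _).mp hij
        have := Finset.le_sup (f := fun m : (Fin (k + 1) × ι) →₀ ℕ => m (0, j)) hd
        rw [h0] at this
        exact (Finsupp.mem_support_iff.mp hdj) (Nat.le_zero.mp this)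
      · exact ⟨(i', j), rfl⟩
    obtain ⟨F', hF'⟩ := exists_rename_eq_of_vars_subset_range F
      (fun p : Fin k × ι => (p.1.succ, p.2)) (by
        rintro ⟨a, b⟩ ⟨c, e⟩ h
        simp only [Prod.mk.injEq, Fin.succ_inj] at h
        simp [h.1, h.2]) hvars
    have hF'0 : F' ≠ 0 := by
      rintro rfl
      apply hirr.ne_zero
      rw [← hF', map_zero]
    refine ⟨0, Nat.zero_le _, fun h => absurd h hI, ?_⟩
    intro δ P hP
    refine ⟨F' ^ δ, fun _ => pow_ne_zero _ hF'0, ?_⟩
    intro w
    refine ⟨ev w F', fun t => t.elim0, fun t => t.elim0, ?_, ?_⟩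
    · intro U
      simp only [Finset.univ_eq_empty, Finset.prod_empty, mul_one]
      rw [← hF']
      unfold ev
      rw [aeval_rename]
      congr 1
    · simp [ev]

end Pool.Agent.Work.MP_327059_nt.GL

end

section

/-!
# Item SpecI: factorisation in any group
-/

set_option autoImplicit false

namespace Pool.Agent.Work.MP_327059_nt.GL

open MvPolynomial

theorem SpecI_fun {ι : Type} (k : ℕ) (w : Fin (k + 1) → ι → ℂ) (i0 : Fin (k + 1)) (U : ι → ℂ) :
    (fun p : Fin (k + 1) × ι => (Function.update w i0 U) p.1 p.2) =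
      (fun p : Fin (k + 1) × ι =>
        (Fin.cons U (fun i : Fin k => w (Equiv.swap 0 i0 i.succ)) : Fin (k + 1) → ι → ℂ) p.1 p.2) ∘
      (fun p : Fin (k + 1) × ι => (Equiv.swap 0 i0 p.1, p.2)) := by
  funext p
  obtain ⟨i, j⟩ := p
  simp only [Function.comp]
  by_cases hi : i = i0
  · subst hi
    rw [Equiv.swap_apply_right]
    simp
  · have hne : Equiv.swap 0 i0 i ≠ 0 := by
      intro h0
      apply hi
      have h1 := congrArg (Equiv.swap 0 i0) h0
      rw [Equiv.swap_apply_self, Equiv.swap_apply_left] at h1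
      exact h1
    obtain ⟨m, hm⟩ := Fin.exists_succ_eq.2 hne
    rw [Function.update_of_ne hi, ← hm]
    simp only [Fin.cons_succ]
    rw [hm, Equiv.swap_apply_self]

theorem pr_SpecI (h1 : S_Spec0) (h2 : S_PermD) : S_SpecI := by
  intro ι _ k F u ζ hD i0
  cases k with
  | zero => exact i0.elim0
  | succ k' =>
    have hD' := h2 ι (k' + 1) F u ζ (Equiv.swap 0 i0) hD
    obtain ⟨d, hd, _, h⟩ := h1 ι k' _ _ ζ hD'
    obtain ⟨H, _, hH⟩ := h 0 1 (isHomogeneous_one _ _)
    refine ⟨d, hd.trans (totalDegree_rename_le _ _), ?_⟩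
    intro w
    obtain ⟨a, ξ, hξ, hU, _⟩ := hH (fun i : Fin k' => w (Equiv.swap 0 i0 i.succ))
    refine ⟨a, ξ, fun t => ⟨(hξ t).1, (hξ t).2.1⟩, ?_⟩
    intro U
    rw [← hU U]
    unfold ev
    rw [aeval_rename, SpecI_fun k' w i0 U]

end Pool.Agent.Work.MP_327059_nt.GL

end

section

/-!
# PART C, item SpecN: the factorisation and the resultant at every parameter
-/

set_option autoImplicit false

namespace Pool.Agent.Work.MP_327059_nt.GL

open MvPolynomial

/-- The form with the second block specialised. -/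
noncomputable def specN_sp {ι n : Type} (w : n → ℂ) (F : MvPolynomial (ι ⊕ n) ℤ) :
    MvPolynomial ι ℂ :=
  aeval (Sum.elim (fun j => (X j : MvPolynomial ι ℂ)) (fun i => C (w i))) F

lemma specN_sp_eval {ι n : Type} (w : n → ℂ) (F : MvPolynomial (ι ⊕ n) ℤ) (U : ι → ℂ) :
    eval U (specN_sp w F) = aeval (Sum.elim U w) F := by
  unfold specN_sp
  induction F using MvPolynomial.induction_on with
  | C a => simp
  | add p q hp hq => simp only [map_add, hp, hq]
  | mul_X p i hp =>
    simp only [map_mul, hp, aeval_X]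
    rcases i with i | i <;> simp

lemma specN_funext {ι : Type} (p q : MvPolynomial ι ℂ)
    (h : ∀ U : ι → ℤ, eval (fun i => (U i : ℂ)) p = eval (fun i => (U i : ℂ)) q) : p = q := by
  refine funext_set (fun _ => Set.range (fun z : ℤ => (z : ℂ)))
    (fun _ => Set.infinite_range_of_injective Int.cast_injective) ?_
  intro x hx
  have : ∀ i, ∃ z : ℤ, (z : ℂ) = x i := fun i => hx i (Set.mem_univ i)
  choose U hU using this
  have hx' : (fun i => (U i : ℂ)) = x := by funext i; exact hU i
  rw [← hx']; exact h U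

lemma specN_mapdeg {σ : Type} (F : MvPolynomial σ ℤ) :
    (map (Int.castRingHom ℂ) F).totalDegree ≤ F.totalDegree := by
  rw [totalDegree, totalDegree]
  exact Finset.sup_mono (support_map_subset _ F)

lemma specN_prod {ι : Type} [Fintype ι] {d : ℕ} (j0 : ι) (ξ : Fin d → ι → ℂ)
    (h1 : ∀ t, ξ t j0 = 1) (s : ℂ) [DecidableEq ι] :
    ∏ t, ∑ j, (if j = j0 then s else 0) * ξ t j = s ^ d := by
  have : ∀ t, ∑ j, (if j = j0 then s else 0) * ξ t j = s := by
    intro t
    rw [Finset.sum_eq_single j0]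
    · simp [h1 t]
    · intro j _ hj; simp [hj]
    · intro h; exact absurd (Finset.mem_univ _) h
  rw [Finset.prod_congr rfl (fun t _ => this t)]
  simp

lemma specN_deg {ι n : Type} [Fintype ι] (F : MvPolynomial (ι ⊕ n) ℤ) (w : n → ℂ) (j0 : ι)
    (d : ℕ) (a : ℂ) (ha : a ≠ 0) (ξ : Fin d → ι → ℂ) (h1 : ∀ t, ξ t j0 = 1)
    (h : ∀ U : ι → ℂ, aeval (Sum.elim U w) F = a * ∏ t, ∑ j, U j * ξ t j) :
    d ≤ F.totalDegree := by
  classical
  set g : ι ⊕ n → Polynomial ℂ :=
    Sum.elim (fun j => if j = j0 then Polynomial.X else 0) (fun i => Polynomial.C (w i)) with hg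
  have hev0 : ∀ (F : MvPolynomial (ι ⊕ n) ℤ) (s : ℂ),
      (aeval g (map (Int.castRingHom ℂ) F)).eval s =
        aeval (Sum.elim (fun j => if j = j0 then s else 0) w) F := by
    intro F s
    induction F using MvPolynomial.induction_on with
    | C a => simp
    | add p q hp hq => simp only [map_add, Polynomial.eval_add, hp, hq]
    | mul_X p i hp =>
      simp only [map_mul, Polynomial.eval_mul, hp, map_X, aeval_X]
      rcases i with i | i
      · by_cases hi : i = j0 <;> simp [hg, hi]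
      · simp [hg]
  set q : Polynomial ℂ := aeval g (map (Int.castRingHom ℂ) F) with hq
  have hdeg : q.natDegree ≤ F.totalDegree * 1 := by
    refine aeval_natDegree_le _ (specN_mapdeg F) g ?_
    rintro (j | i)
    · simp only [hg, Sum.elim_inl]
      split_ifs
      · exact Polynomial.natDegree_X_le
      · simp
    · simp [hg]
  have hev : ∀ s : ℂ, q.eval s = aeval (Sum.elim (fun j => if j = j0 then s else 0) w) F :=
    fun s => hev0 F s
  have hqe : q = Polynomial.C a * Polynomial.X ^ d := by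
    refine Polynomial.funext fun s => ?_
    rw [hev s, h, specN_prod j0 ξ h1 s]
    simp
  rw [hqe, Polynomial.natDegree_C_mul_X_pow _ _ ha] at hdeg
  omega

lemma specN_pos {ι n : Type} (h5 : S_AIZ) (F : MvPolynomial (ι ⊕ n) ℤ)
    (y : n → ℂ) (hy : AlgebraicIndependent ℚ y) (a : ℂ)
    (h : ∀ U : ι → ℂ, aeval (Sum.elim U y) F = a) (j : ι) : F.degreeOf (Sum.inl j) = 0 := by
  classical
  have hAI := (h5 n y).1 hy
  set sub : (ι → ℤ) → MvPolynomial n ℤ := fun U =>
    bind₁ (Sum.elim (fun j => C (U j)) (fun i => (X i : MvPolynomial n ℤ))) F with hsub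
  have e1 : ∀ U : ι → ℤ, aeval y (sub U) = a := by
    intro U
    rw [hsub, ← h (fun j => (U j : ℂ))]
    simp only [aeval_bind₁]
    congr 1
    congr 1
    funext i
    rcases i with i | i <;> simp
  have e2 : ∀ U : ι → ℤ, sub U = sub 0 := by
    intro U
    have := hAI (sub U - sub 0) (by rw [map_sub, e1, e1, sub_self])
    exact sub_eq_zero.1 this
  have e3 : F = rename Sum.inr (sub 0) := by
    refine MvPolynomial.funext fun x => ?_
    rw [eval_rename, ← e2 (x ∘ Sum.inl), hsub]
    rw [← coe_aeval_eq_eval, ← coe_aeval_eq_eval]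
    simp only [aeval_bind₁, RingHom.coe_coe]
    congr 1
    congr 1
    funext i
    rcases i with i | i <;> simp
  by_contra hne
  rw [← ne_eq, ← mem_vars_iff_degreeOf_ne_zero, e3] at hne
  have := vars_rename Sum.inr (sub 0) hne
  simp at this

lemma specN_alg {ι n : Type} (F : MvPolynomial (ι ⊕ n) ℤ) (y : n → ℂ) (U : ι → ℤ) :
    AlgOver y (aeval (Sum.elim (fun j => (U j : ℂ)) y) F) := by
  set K := IntermediateField.adjoin ℚ (Set.range y) with hK
  set z : ι ⊕ n → K := Sum.elim (fun j => (U j : K))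
    (fun i => ⟨y i, IntermediateField.subset_adjoin ℚ _ ⟨i, rfl⟩⟩) with hz
  have : aeval (Sum.elim (fun j => (U j : ℂ)) y) F = algebraMap K ℂ (aeval z F) := by
    rw [← aeval_algebraMap_apply]
    congr 1
    congr 1
    funext i
    rcases i with i | i
    · simp [hz]
    · simp only [hz, Sum.elim_inr, Function.comp]
      rfl
  unfold AlgOver
  rw [this]
  exact isAlgebraic_algebraMap _

theorem pr_SpecN (h1 : S_FacN) (h2 : S_NormN) (h3 : S_Trans) (h4 : S_Clos) (h5 : S_AIZ) :
    S_SpecN := by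
  classical
  intro ι n _ _ F u0 ζ y hF hy horth hone halg
  obtain ⟨j0, hj0⟩ := hone
  obtain ⟨d, a, ξ, ha, hcj, hξalg, hfac⟩ :=
    h1 ι n F u0 ζ y (fun G hG => (hF G).1 hG) horth ⟨j0, hj0⟩ halg
  have hξ1 : ∀ t, ξ t j0 = 1 := by
    intro t
    have := (hcj t (X (Sum.inl j0) - 1)).1 (by simp [hj0])
    simpa [sub_eq_zero] using this
  have hξ0 : ∀ t, ξ t ≠ 0 := fun t h => by
    have := hξ1 t
    rw [h] at this
    simp at this
  refine ⟨d, specN_deg F y j0 d a ha ξ hξ1 hfac, ?_, ?_⟩
  · rintro ⟨j, hj⟩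
    by_contra hd
    have hd0 : d = 0 := by omega
    subst hd0
    exact hj (specN_pos h5 F y hy a (fun U => by rw [hfac U]; simp) j)
  intro δ P hP
  obtain ⟨H, hH⟩ := h2 ι n F y hy d a ξ ha hξ0 hξalg hfac δ P hP
  refine ⟨H, ?_, ?_⟩
  · intro hPζ hH0
    rw [hH0, map_zero] at hH
    have hne : ∀ t, aeval (ξ t) P ≠ 0 := by
      intro t ht
      apply hPζ
      have := (hcj t (rename Sum.inl P)).2 (by
        rw [aeval_rename]
        simpa [Function.comp_def] using ht)
      rw [aeval_rename] at this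
      simpa [Function.comp_def] using this
    have : a ^ δ * ∏ t, aeval (ξ t) P ≠ 0 :=
      mul_ne_zero (pow_ne_zero _ ha) (Finset.prod_ne_zero_iff.2 fun t _ => hne t)
    exact this hH.symm
  -- the generic case
  set GG : Set (MvPolynomial (ι ⊕ n) ℤ) :=
    {g | (∃ m, HomL m g) ∧ aeval (Sum.elim ζ y) g = 0} with hGG
  have hgen : ∀ w : n → ℂ, AlgebraicIndependent ℚ w → ∃ (a : ℂ) (ξ : Fin d → ι → ℂ),
      (∀ t, ξ t ≠ 0 ∧ ∀ g ∈ GG, aeval (Sum.elim (ξ t) w) g = 0) ∧
      (∀ U : ι → ℂ, aeval (Sum.elim U w) F = a * ∏ t, ∑ j, U j * ξ t j) ∧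
      aeval w H = a ^ δ * ∏ t, aeval (ξ t) P := by
    intro w hw
    set x : Option (Fin d × ι) → ℂ := fun o => o.elim a (fun p => ξ p.1 p.2) with hx
    have hxn : x none = a := rfl
    have hxs : ∀ t j, x (some (t, j)) = ξ t j := fun _ _ => rfl
    have haalg : AlgOver y a := by
      have h0 := specN_alg F y (fun j => if j = j0 then 1 else 0)
      have h00 : (fun j => (((if j = j0 then 1 else 0 : ℤ)) : ℂ)) =
          fun j => if j = j0 then (1 : ℂ) else 0 := by
        funext j; split_ifs <;> simp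
      rw [h00, hfac, specN_prod j0 ξ hξ1 1] at h0
      simpa using h0
    have hxalg : ∀ o, AlgOver y (x o) := by
      rintro (_ | ⟨t, j⟩)
      · exact haalg
      · exact hξalg t j
    obtain ⟨x', hx'⟩ := h3 n (Option (Fin d × ι)) y w hy hw x hxalg
    have hξ'1 : ∀ t, x' (some (t, j0)) = 1 := by
      intro t
      have := (hx' (X (Sum.inl (some (t, j0))) - 1)).1 (by simp [hxs, hξ1])
      simpa [sub_eq_zero] using this
    refine ⟨x' none, fun t j => x' (some (t, j)), ?_, ?_, ?_⟩
    · intro t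
      refine ⟨fun h => ?_, ?_⟩
      · have := congrFun h j0
        simp [hξ'1] at this
      · rintro g ⟨_, hg⟩
        have h6 : aeval (Sum.elim (ξ t) y) g = 0 := (hcj t g).1 hg
        have h7 := (hx' (rename (Sum.map (fun j => some (t, j)) id) g)).1 (by
          rw [aeval_rename, ← h6]
          congr 1
          congr 1
          funext i
          rcases i with i | i <;> simp [hxs])
        rw [aeval_rename] at h7
        rw [← h7]
        congr 1
        congr 1
        funext i
        rcases i with i | i <;> simp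
    · have hint : ∀ U : ι → ℤ, aeval (Sum.elim (fun j => (U j : ℂ)) w) F =
          x' none * ∏ t, ∑ j, (U j : ℂ) * x' (some (t, j)) := by
        intro U
        have h8 := (hx' (bind₁ (Sum.elim (fun j => C (U j)) (fun i => X (Sum.inr i))) F -
          X (Sum.inl none) * ∏ t : Fin d, ∑ j, C (U j) * X (Sum.inl (some (t, j))))).1 (by
            have h9 := hfac (fun j => (U j : ℂ))
            rw [map_sub, aeval_bind₁, sub_eq_zero]
            rw [show (fun i => aeval (Sum.elim x y) (Sum.elim (fun j => C (U j))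
              (fun i => (X (Sum.inr i) : MvPolynomial (Option (Fin d × ι) ⊕ n) ℤ)) i)) =
              Sum.elim (fun j => (U j : ℂ)) y by
                funext i
                rcases i with i | i <;> simp, h9]
            simp [map_prod, hxn, hxs])
        rw [map_sub, aeval_bind₁, sub_eq_zero] at h8
        rw [show (fun i => aeval (Sum.elim x' w) (Sum.elim (fun j => C (U j))
              (fun i => (X (Sum.inr i) : MvPolynomial (Option (Fin d × ι) ⊕ n) ℤ)) i)) =
              Sum.elim (fun j => (U j : ℂ)) w by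
                funext i
                rcases i with i | i <;> simp] at h8
        rw [h8]
        simp [map_prod]
      intro U
      have h10 : specN_sp w F =
          C (x' none) * ∏ t : Fin d, ∑ j, X j * C (x' (some (t, j))) := by
        refine specN_funext _ _ fun U => ?_
        rw [specN_sp_eval, hint U]
        simp [map_prod]
      rw [← specN_sp_eval, h10]
      simp [map_prod]
    · have h11 := (hx' (rename Sum.inr H - X (Sum.inl none) ^ δ *
        ∏ t : Fin d, rename (fun j => Sum.inl (some (t, j))) P)).1 (by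
          rw [map_sub, sub_eq_zero, aeval_rename, map_mul, map_pow, aeval_X, map_prod]
          simp only [aeval_rename, Sum.elim_inl, hxn]
          rw [show (Sum.elim x y ∘ Sum.inr) = y from rfl, hH]
          congr 1)
      rw [map_sub, sub_eq_zero, aeval_rename, map_mul, map_pow, aeval_X, map_prod] at h11
      simp only [aeval_rename, Sum.elim_inl] at h11
      rw [show (Sum.elim x' w ∘ Sum.inr) = w from rfl] at h11
      rw [h11]
      congr 1
  intro w
  obtain ⟨a', ξ', hA, hB, hC⟩ :=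
    h4 ι n F H P δ d GG hP (fun g hg => hg.1) hgen w
  exact ⟨a', ξ', fun t => ⟨(hA t).1, fun m g hm hg => (hA t).2 g ⟨⟨m, hm⟩, hg⟩⟩, hB, hC⟩

end Pool.Agent.Work.MP_327059_nt.GL

end

section

set_option autoImplicit false

namespace Pool.Agent.Work.MP_327059_nt.GL

open MvPolynomial

/-- separate the group `0` -/
noncomputable def StepAlg_psi (ι : Type) (k : ℕ) :
    MvPolynomial (Fin (k + 1) × ι) ℤ →ₐ[ℤ] MvPolynomial ι (MvPolynomial (Fin k × ι) ℤ) :=
  aeval (fun p : Fin (k + 1) × ι =>
    (Fin.cases (motive := fun _ => MvPolynomial ι (MvPolynomial (Fin k × ι) ℤ)) (X p.2)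
      (fun i => C (X (i, p.2))) p.1))

noncomputable def StepAlg_chi (ι : Type) (k : ℕ) :
    MvPolynomial ι (MvPolynomial (Fin k × ι) ℤ) →+* MvPolynomial (Fin (k + 1) × ι) ℤ :=
  eval₂Hom (rename (fun p : Fin k × ι => ((p.1.succ, p.2) : Fin (k + 1) × ι))).toRingHom
    (fun j => X (0, j))

theorem StepAlg_chi_psi {ι : Type} {k : ℕ} (F : MvPolynomial (Fin (k + 1) × ι) ℤ) :
    StepAlg_chi ι k (StepAlg_psi ι k F) = F := by
  have h : (StepAlg_chi ι k).comp (StepAlg_psi ι k).toRingHom = RingHom.id _ := by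
    apply MvPolynomial.ringHom_ext
    · intro r
      simp
    · rintro ⟨i, j⟩
      refine Fin.cases ?_ (fun i => ?_) i
      · simp [StepAlg_chi, StepAlg_psi]
      · simp [StepAlg_chi, StepAlg_psi]
  exact DFunLike.congr_fun h F

theorem StepAlg_ev {ι : Type} {k : ℕ} (F : MvPolynomial (Fin (k + 1) × ι) ℤ)
    (w : Fin k × ι → ℂ) (U : ι → ℂ) :
    eval U (map (aeval w : MvPolynomial (Fin k × ι) ℤ →ₐ[ℤ] ℂ).toRingHom (StepAlg_psi ι k F)) =
      ev (Fin.cons U (fun i j => w (i, j)) : Fin (k + 1) → ι → ℂ) F := by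
  have h : ((eval U).comp ((map (aeval w : MvPolynomial (Fin k × ι) ℤ →ₐ[ℤ] ℂ).toRingHom).comp
      (StepAlg_psi ι k).toRingHom)) =
      (aeval (fun p : Fin (k + 1) × ι =>
        (Fin.cons U (fun i j => w (i, j)) : Fin (k + 1) → ι → ℂ) p.1 p.2) :
        MvPolynomial (Fin (k + 1) × ι) ℤ →ₐ[ℤ] ℂ).toRingHom := by
    apply MvPolynomial.ringHom_ext
    · intro r
      simp
    · rintro ⟨i, j⟩
      refine Fin.cases ?_ (fun i => ?_) i
      · simp [StepAlg_psi]
      · simp [StepAlg_psi]
  exact DFunLike.congr_fun h F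

theorem StepAlg_dvd {ι : Type} {k : ℕ} (F : MvPolynomial (Fin (k + 1) × ι) ℤ)
    (G : MvPolynomial (Fin k × ι) ℤ) (w : Fin k × ι → ℂ)
    (hw : ∀ Q : MvPolynomial (Fin k × ι) ℤ, aeval w Q = 0 → G ∣ Q)
    (h : ∀ U : ι → ℂ, ev (Fin.cons U (fun i j => w (i, j)) : Fin (k + 1) → ι → ℂ) F = 0) :
    rename (fun p : Fin k × ι => ((p.1.succ, p.2) : Fin (k + 1) × ι)) G ∣ F := by
  have h0 : map (aeval w : MvPolynomial (Fin k × ι) ℤ →ₐ[ℤ] ℂ).toRingHom (StepAlg_psi ι k F) = 0 := by
    apply MvPolynomial.funext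
    intro U
    rw [StepAlg_ev, h, map_zero]
  have h1 : C G ∣ StepAlg_psi ι k F := by
    rw [MvPolynomial.C_dvd_iff_dvd_coeff]
    intro m
    apply hw
    have h2 := congrArg (fun p => coeff m p) h0
    simpa [coeff_map] using h2
  have h2 := map_dvd (StepAlg_chi ι k) h1
  rw [StepAlg_chi_psi] at h2
  have h3 : StepAlg_chi ι k (C G) =
      rename (fun p : Fin k × ι => ((p.1.succ, p.2) : Fin (k + 1) × ι)) G := by
    simp [StepAlg_chi]
  rwa [h3] at h2

theorem pr_StepAlg (h1 : S_GenZero) (h2 : S_DimDrop) : S_StepAlg := by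
  classical
  intro ι _ k F u ζ hD hI d δ P H hP hζP hH G hG hGH hGd
  obtain ⟨w₀, hw₀⟩ := h1 (Fin k × ι) G hG hGd
  set w : Fin k → ι → ℂ := fun i j => w₀ (i, j) with hw
  have hev : ∀ Q : MvPolynomial (Fin k × ι) ℤ, ev w Q = aeval w₀ Q := by
    intro Q
    rfl
  obtain ⟨a, ξ, hξ, hF, hHw⟩ := hH w
  have hinj : Function.Injective (fun p : Fin k × ι => ((p.1.succ, p.2) : Fin (k + 1) × ι)) := by
    rintro ⟨i, j⟩ ⟨i', j'⟩ hh
    simpa using hh
  have ha : a ≠ 0 := by
    rintro rfl
    have hd : rename (fun p : Fin k × ι => ((p.1.succ, p.2) : Fin (k + 1) × ι)) G ∣ F := by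
      apply StepAlg_dvd F G w₀ (fun Q hQ => (hw₀ Q).1 hQ)
      intro U
      rw [hF U, zero_mul]
    obtain ⟨Q, hQ⟩ := hd
    rcases hD.1.isUnit_or_isUnit hQ with h | h
    · apply hG.not_isUnit
      have := h.map (killCompl hinj)
      rwa [killCompl_rename_app] at this
    · obtain ⟨j, hj⟩ := hI
      obtain ⟨r, hr, hr'⟩ := (MvPolynomial.isUnit_iff_eq_C_of_isReduced).1 h
      apply hj
      have hle := degreeOf_mul_le ((0 : Fin (k + 1)), j)
        (rename (fun p : Fin k × ι => ((p.1.succ, p.2) : Fin (k + 1) × ι)) G) Q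
      rw [← hQ, hr', degreeOf_C, add_zero] at hle
      have h0 : degreeOf ((0 : Fin (k + 1)), j)
        (rename (fun p : Fin k × ι => ((p.1.succ, p.2) : Fin (k + 1) × ι)) G) = 0 := by
        by_contra hne
        have hmem : ((0 : Fin (k + 1)), j) ∈
            (rename (fun p : Fin k × ι => ((p.1.succ, p.2) : Fin (k + 1) × ι)) G).vars := by
          rw [vars_def]
          rw [degreeOf_def] at hne
          simpa [Multiset.count_eq_zero] using hne
        have := vars_rename _ _ hmem
        simp only [Finset.mem_image] at this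
        obtain ⟨p, _, hp⟩ := this
        have := congrArg Prod.fst hp
        exact Fin.succ_ne_zero _ this
      omega
  have hz : ev w H = 0 := by
    rw [hev]
    exact (hw₀ H).2 hGH
  rw [hHw] at hz
  have hz' := (mul_eq_zero.1 hz).resolve_left (pow_ne_zero _ ha)
  obtain ⟨t, -, ht⟩ := Finset.prod_eq_zero_iff.1 hz'
  refine ⟨w, ξ t, hG, (hξ t).1, (hξ t).2.2, fun Q => ?_, ?_⟩
  · rw [hev]
    exact hw₀ Q
  · exact h2 ι k ζ (ξ t) δ P hD.2.2.2.2 (hξ t).2.1 hP hζP ht

end Pool.Agent.Work.MP_327059_nt.GL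

end

section

set_option autoImplicit false

namespace Pool.Agent.Work.MP_327059_nt.GL

open MvPolynomial

/-- orthogonality of characters, one variable -/
theorem Sup_orth {N : ℕ} {ζ : ℂ} (hζ : IsPrimitiveRoot ζ N) (hN : N ≠ 0) {p q : ℕ} (hp : p < N)
    (hq : q < N) : ∑ b : Fin N, (ζ ^ (b : ℕ)) ^ p * ((ζ ^ (b : ℕ)) ^ q)⁻¹ =
      if p = q then (N : ℂ) else 0 := by
  have hz0 : ζ ≠ 0 := hζ.ne_zero hN
  by_cases h : p = q
  · subst h
    rw [if_pos rfl]
    have : ∀ b : Fin N, (ζ ^ (b : ℕ)) ^ p * ((ζ ^ (b : ℕ)) ^ p)⁻¹ = 1 := by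
      intro b
      exact mul_inv_cancel₀ (pow_ne_zero _ (pow_ne_zero _ hz0))
    simp [this]
  · rw [if_neg h]
    set ω : ℂ := ζ ^ p * (ζ ^ q)⁻¹ with hω
    have h1 : ∀ b : Fin N, (ζ ^ (b : ℕ)) ^ p * ((ζ ^ (b : ℕ)) ^ q)⁻¹ = ω ^ (b : ℕ) := by
      intro b
      rw [hω, mul_pow, inv_pow, ← pow_mul, ← pow_mul, ← pow_mul, ← pow_mul, mul_comm (b : ℕ) p,
        mul_comm (b : ℕ) q]
    simp_rw [h1]
    rw [Fin.sum_univ_eq_sum_range (fun b => ω ^ b) N]
    have hne : ω ≠ 1 := by
      intro hh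
      apply h
      have : ζ ^ p = ζ ^ q := by
        have h2 := congrArg (fun x => x * ζ ^ q) hh
        simp only [hω, one_mul, mul_assoc, inv_mul_cancel₀ (pow_ne_zero q hz0), mul_one] at h2
        exact h2
      exact hζ.pow_inj hp hq this
    have hN1 : ω ^ N = 1 := by
      rw [hω, mul_pow, inv_pow, ← pow_mul, ← pow_mul, mul_comm p, mul_comm q, pow_mul, pow_mul,
        hζ.pow_eq_one, one_pow, one_pow, inv_one, mul_one]
    rw [geom_sum_eq hne, hN1, sub_self, zero_div]

/-- the coefficient as an average over roots of unity -/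
theorem Sup_coeff {σ : Type} [Fintype σ] [DecidableEq σ] (f : MvPolynomial σ ℂ) {N : ℕ} {ζ : ℂ}
    (hζ : IsPrimitiveRoot ζ N) (hN : f.totalDegree < N) (m : σ →₀ ℕ) (hm : m ∈ f.support) :
    ∑ a : σ → Fin N, eval (fun i => ζ ^ (a i : ℕ)) f * ∏ i, ((ζ ^ (a i : ℕ)) ^ m i)⁻¹ =
      (N : ℂ) ^ (Fintype.card σ) * f.coeff m := by
  have hN0 : N ≠ 0 := by omega
  have hlt : ∀ m' ∈ f.support, ∀ i, m' i < N := by
    intro m' hm' i
    refine lt_of_le_of_lt ?_ hN
    refine le_trans ?_ (le_totalDegree hm')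
    by_cases h : i ∈ m'.support
    · exact Finset.single_le_sum (f := fun i => m' i) (fun _ _ => Nat.zero_le _) h
    · simp [Finsupp.notMem_support_iff.1 h]
  have h1 : ∀ a : σ → Fin N, eval (fun i => ζ ^ (a i : ℕ)) f * ∏ i, ((ζ ^ (a i : ℕ)) ^ m i)⁻¹ =
      ∑ m' ∈ f.support, f.coeff m' * ∏ i, ((ζ ^ (a i : ℕ)) ^ m' i * ((ζ ^ (a i : ℕ)) ^ m i)⁻¹) := by
    intro a
    rw [eval_eq', Finset.sum_mul]
    refine Finset.sum_congr rfl ?_
    intro m' _
    rw [mul_assoc, ← Finset.prod_mul_distrib]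
  simp_rw [h1]
  rw [Finset.sum_comm]
  have h2 : ∀ m' ∈ f.support, ∑ a : σ → Fin N, f.coeff m' *
      ∏ i, ((ζ ^ (a i : ℕ)) ^ m' i * ((ζ ^ (a i : ℕ)) ^ m i)⁻¹) =
      if m' = m then (N : ℂ) ^ (Fintype.card σ) * f.coeff m else 0 := by
    intro m' hm'
    rw [← Finset.mul_sum]
    have h3 : ∑ a : σ → Fin N, ∏ i, ((ζ ^ (a i : ℕ)) ^ m' i * ((ζ ^ (a i : ℕ)) ^ m i)⁻¹) =
        ∏ i, ∑ b : Fin N, ((ζ ^ (b : ℕ)) ^ m' i * ((ζ ^ (b : ℕ)) ^ m i)⁻¹) := by
      rw [Finset.prod_univ_sum, Fintype.piFinset_univ]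
    rw [h3, Finset.prod_congr rfl (fun i _ => Sup_orth hζ hN0 (hlt m' hm' i) (hlt m hm i))]
    by_cases h : m' = m
    · subst h
      simp [mul_comm]
    · rw [if_neg h]
      have : ∃ i, m' i ≠ m i := by
        by_contra hcon
        push Not at hcon
        exact h (Finsupp.ext hcon)
      obtain ⟨i, hi⟩ := this
      rw [Finset.prod_eq_zero (Finset.mem_univ i) (if_neg hi), mul_zero]
  rw [Finset.sum_congr rfl h2, Finset.sum_ite_eq' f.support m, if_pos hm]

theorem pr_Sup : S_Sup := by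
  classical
  intro σ _ f
  set N : ℕ := f.totalDegree + 1 with hNdef
  have hN0 : N ≠ 0 := by omega
  have : Nonempty (Fin N) := ⟨⟨0, by omega⟩⟩
  have hζ : IsPrimitiveRoot (Complex.exp (2 * Real.pi * Complex.I / N)) N :=
    Complex.isPrimitiveRoot_exp N hN0
  set ζ : ℂ := Complex.exp (2 * Real.pi * Complex.I / N) with hζdef
  have hnorm : ‖ζ‖ = 1 := hζ.norm'_eq_one hN0
  obtain ⟨a0, -, ha0⟩ := Finset.exists_max_image (Finset.univ : Finset (σ → Fin N))
    (fun a => ‖eval (fun i => ζ ^ (a i : ℕ)) f‖) Finset.univ_nonempty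
  refine ⟨fun i => ζ ^ (a0 i : ℕ), ?_, ?_⟩
  · intro i
    rw [norm_pow, hnorm, one_pow]
  · set M : ℝ := ‖eval (fun i => ζ ^ (a0 i : ℕ)) f‖ with hM
    have hM0 : 0 ≤ M := norm_nonneg _
    have hco : ∀ m ∈ f.support, ‖f.coeff m‖ ≤ M := by
      intro m hm
      have h1 := Sup_coeff f hζ (by omega) m hm
      have h2 : ‖∑ a : σ → Fin N, eval (fun i => ζ ^ (a i : ℕ)) f *
          ∏ i, ((ζ ^ (a i : ℕ)) ^ m i)⁻¹‖ ≤ ∑ a : σ → Fin N, M := by
        refine (norm_sum_le _ _).trans (Finset.sum_le_sum ?_)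
        intro a ha
        rw [norm_mul, norm_prod]
        have : ∏ i, ‖((ζ ^ (a i : ℕ)) ^ m i)⁻¹‖ = 1 := by
          refine Finset.prod_eq_one ?_
          intro i _
          rw [norm_inv, norm_pow, norm_pow, hnorm, one_pow, one_pow, inv_one]
        rw [this, mul_one]
        exact ha0 a ha
      rw [h1] at h2
      simp only [Finset.sum_const, Finset.card_univ, Fintype.card_fun, Fintype.card_fin,
        nsmul_eq_mul, Nat.cast_pow, norm_mul, norm_pow, Complex.norm_natCast] at h2
      have hpos : (0 : ℝ) < (N : ℝ) ^ (Fintype.card σ) := by positivity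
      exact le_of_mul_le_mul_left h2 hpos
    have hcard : f.support.card ≤ N ^ (Fintype.card σ) := by
      have : f.support.card ≤ (Finset.univ : Finset (σ → Fin N)).card := by
        refine Finset.card_le_card_of_injOn (fun m i => if h : m i < N then ⟨m i, h⟩ else
          ⟨0, by omega⟩) (fun _ _ => Finset.mem_coe.2 (Finset.mem_univ _)) ?_
        intro m hm m' hm' hmm
        ext i
        have hlt : ∀ m' ∈ f.support, m' i < N := by
          intro m' hm'
          refine lt_of_le_of_lt ?_ (Nat.lt_succ_self _)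
          refine le_trans ?_ (le_totalDegree hm')
          by_cases h : i ∈ m'.support
          · exact Finset.single_le_sum (f := fun i => m' i) (fun _ _ => Nat.zero_le _) h
          · simp [Finsupp.notMem_support_iff.1 h]
        have h3 := congrFun hmm i
        simp only [dif_pos (hlt m hm), dif_pos (hlt m' hm')] at h3
        exact congrArg Fin.val h3
      simpa using this
    have h4 : lenC f ≤ f.support.card * M := by
      unfold lenC
      calc ∑ m ∈ f.support, ‖f.coeff m‖ ≤ ∑ m ∈ f.support, M := Finset.sum_le_sum hco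
        _ = _ := by simp
    refine h4.trans (mul_le_mul_of_nonneg_right ?_ hM0)
    have h5 : N ≤ 2 ^ f.totalDegree := Nat.lt_two_pow_self
    have h6 : f.support.card ≤ 2 ^ (Fintype.card σ * f.totalDegree) := by
      refine hcard.trans ?_
      rw [mul_comm, pow_mul]
      exact Nat.pow_le_pow_left h5 _
    exact_mod_cast h6

end Pool.Agent.Work.MP_327059_nt.GL

end

section

/-!
# PART C, item ThEv: evaluation and degree of `th`
-/

set_option autoImplicit false

namespace Pool.Agent.Work.MP_327059_nt.GL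

open MvPolynomial

lemma ThEv_eval {σ : Type} [Fintype σ] {k : ℕ} (θ : σ → ℂ)
    (F : MvPolynomial (Fin k × Option σ) ℤ) (W : Fin k → σ → ℂ) :
    eval (fun p : Fin k × σ => W p.1 p.2) (th θ F) = ev (fun i => perp θ (W i)) F := by
  unfold th ev
  induction F using MvPolynomial.induction_on with
  | C a => simp
  | add p q hp hq => rw [map_add, map_add, hp, hq, map_add]
  | mul_X p i hp =>
    rw [map_mul, map_mul, hp, map_mul, aeval_X, aeval_X]
    congr 1
    obtain ⟨i, o⟩ := i
    cases o with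
    | none => simp [perp]
    | some j => simp [perp]

lemma ThEv_base {σ : Type} [Fintype σ] {k : ℕ} (θ : σ → ℂ) (p : Fin k × Option σ) :
    (p.2.elim (-∑ j, C (θ j) * X (p.1, j))
      (fun j => (X (p.1, j) : MvPolynomial (Fin k × σ) ℂ))).totalDegree ≤ 1 := by
  obtain ⟨i, o⟩ := p
  cases o with
  | none =>
    simp only [Option.elim_none, totalDegree_neg]
    refine (totalDegree_finsetSum _ _).trans ?_
    refine Finset.sup_le fun j _ => ?_
    refine (totalDegree_mul _ _).trans ?_
    rw [totalDegree_C, totalDegree_X]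
  | some j => simp

lemma ThEv_deg {σ : Type} [Fintype σ] {k : ℕ} (θ : σ → ℂ)
    (F : MvPolynomial (Fin k × Option σ) ℤ) : (th θ F).totalDegree ≤ F.totalDegree := by
  unfold th
  rw [aeval_def, eval₂_eq]
  refine (totalDegree_finsetSum _ _).trans ?_
  refine Finset.sup_le fun m hm => ?_
  refine (totalDegree_mul _ _).trans ?_
  have h0 : ((algebraMap ℤ (MvPolynomial (Fin k × σ) ℂ)) (coeff m F)).totalDegree = 0 := by
    have : (algebraMap ℤ (MvPolynomial (Fin k × σ) ℂ)) (coeff m F) =
        C (((coeff m F : ℤ)) : ℂ) := by simp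
    rw [this, totalDegree_C]
  rw [h0, zero_add]
  refine (totalDegree_finsetProd _ _).trans ?_
  refine le_trans ?_ (le_totalDegree hm)
  rw [Finsupp.sum]
  refine Finset.sum_le_sum fun p _ => ?_
  refine (totalDegree_pow _ _).trans ?_
  calc m p * _ ≤ m p * 1 := Nat.mul_le_mul_left _ (ThEv_base θ p)
    _ = m p := mul_one _

lemma ThEv_const {σ : Type} [Fintype σ] {k : ℕ} (θ : σ → ℂ)
    (F : MvPolynomial (Fin k × Option σ) ℤ) (h : F.totalDegree = 0) (hF : F ≠ 0) :
    1 ≤ lenC (th θ F) := by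
  classical
  rw [totalDegree_eq_zero_iff_eq_C] at h
  have hc : coeff 0 F ≠ 0 := by
    intro h0
    rw [h0, C_0] at h
    exact hF h
  have hth : th θ F = C (((coeff 0 F : ℤ)) : ℂ) := by
    unfold th
    conv_lhs => rw [h]
    simp
  have hc' : (((coeff 0 F : ℤ)) : ℂ) ≠ 0 := by exact_mod_cast hc
  rw [hth]
  unfold lenC
  rw [Finset.sum_eq_single_of_mem 0]
  · rw [coeff_zero_C, Complex.norm_intCast]
    have : (1 : ℤ) ≤ |coeff 0 F| := Int.one_le_abs hc
    exact_mod_cast this
  · rw [mem_support_iff, coeff_zero_C]; exact hc'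
  · intro b _ hb
    rw [coeff_C, if_neg (Ne.symm hb), norm_zero]

theorem pr_ThEv : S_ThEv := by
  intro σ _ k θ F
  exact ⟨ThEv_eval θ F, ThEv_deg θ F, ThEv_const θ F⟩

end Pool.Agent.Work.MP_327059_nt.GL

end

section

set_option autoImplicit false

namespace Pool.Agent.Work.MP_327059_nt.GL

open MvPolynomial

theorem pr_TrBasis : S_TrBasis := by
  classical
  intro α _ x
  -- a maximal subset on which `x` is algebraically independent
  have hne : ({T : Set α | AlgebraicIndepOn ℚ x T}).Nonempty :=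
    ⟨∅, by
      have : AlgebraicIndependent ℚ (fun i : (∅ : Set α) => x i) :=
        algebraicIndependent_empty_type
      exact this⟩
  obtain ⟨T, hT, hmax⟩ := (Set.toFinite {T : Set α | AlgebraicIndepOn ℚ x T}).exists_maximalFor
    id _ hne
  have hfin : Finite T := inferInstance
  let e : Fin (Nat.card T) ≃ T := (Finite.equivFin T).symm
  refine ⟨Nat.card T, fun i => (e i : α), ?_, ?_⟩
  · have h1 : AlgebraicIndependent ℚ (fun i : T => x i) := hT
    exact h1.comp e e.injective
  · intro j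
    have hrange : Set.range (fun i : Fin (Nat.card T) => x (e i)) = x '' T := by
      ext y
      constructor
      · rintro ⟨i, rfl⟩
        exact ⟨_, (e i).2, rfl⟩
      · rintro ⟨i, hi, rfl⟩
        refine ⟨e.symm ⟨i, hi⟩, ?_⟩
        show x ((e (e.symm ⟨i, hi⟩) : T) : α) = x i
        rw [Equiv.apply_symm_apply]
    unfold AlgOver
    rw [hrange]
    by_cases hj : j ∈ T
    · have hmem : x j ∈ IntermediateField.adjoin ℚ (x '' T) :=
        IntermediateField.subset_adjoin _ _ ⟨j, hj, rfl⟩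
      exact isAlgebraic_algebraMap (⟨x j, hmem⟩ : IntermediateField.adjoin ℚ (x '' T))
    · by_contra hcon
      have htr : Transcendental (Algebra.adjoin ℚ (x '' T)) (x j) := by
        intro hal
        exact hcon (IntermediateField.isAlgebraic_adjoin_iff.mpr hal)
      have hins : AlgebraicIndepOn ℚ x (insert j T) :=
        (AlgebraicIndepOn.insert_iff hj).mpr ⟨hT, htr⟩
      have hle := hmax (j := insert j T) hins (by simp)
      exact hj (by simpa using hle (Set.mem_insert j T))

end Pool.Agent.Work.MP_327059_nt.GL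

end

section

/-! Item C02: the number of independent elements algebraic over `b` elements is at most `b`. -/

set_option autoImplicit false

namespace Pool.Agent.Work.MP_327059_nt.GL

theorem TrCount_alg {n : Type} (y : n → ℂ) (x : ℂ) (h : AlgOver y x) :
    IsAlgebraic (Algebra.adjoin ℚ (Set.range y)) x := by
  unfold AlgOver at h
  exact IntermediateField.isAlgebraic_adjoin_iff.mp h

theorem pr_TrCount : S_TrCount := by
  intro α β _ _ x y hx hy
  let M := AlgebraicIndependent.matroid ℚ ℂ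
  have hI : M.Indep (Set.range x) := by
    rw [AlgebraicIndependent.matroid_indep_iff]
    exact hx.to_subtype_range
  have hsub : Set.range x ⊆ M.closure (Set.range y) := by
    rintro _ ⟨i, rfl⟩
    rw [AlgebraicIndependent.matroid_closure_eq]
    exact TrCount_alg y (x i) (hy i)
  have h1 := hI.encard_le_eRk_of_subset hsub
  rw [Matroid.eRk_closure_eq] at h1
  have h2 := h1.trans (M.eRk_le_encard (Set.range y))
  have h3 : (Set.range x).encard = (Fintype.card α : ℕ∞) := by
    rw [← Set.image_univ, hx.injective.encard_image, Set.encard_univ, ENat.card_eq_coe_fintype_card]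
  have h4 : (Set.range y).encard ≤ (Fintype.card β : ℕ∞) := by
    rw [← Set.image_univ]
    refine (Set.encard_image_le _ _).trans ?_
    rw [Set.encard_univ, ENat.card_eq_coe_fintype_card]
  rw [h3] at h2
  exact_mod_cast h2.trans h4

end Pool.Agent.Work.MP_327059_nt.GL

end
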