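import Mathlib
import Pool.Agent.Work.MP_327059_nt.Bd.B01
import Pool.Agent.Work.MP_8da9ea_nt.Der
import Pool.Agent.Work.MP_8da9ea_nt.Bd.B03
import Pool.Agent.Work.RW.Rank
import Pool.Agent.Work.MP_327059_nt.GL.StmtsT
import Pool.Agent.Work.MP_327059_nt.Bd.B03

/-! Bundle of small proof modules (one section per former module). -/

section

/-!
# Item C13 (`S_Trans`): transport of algebraic points along `y ↦ w`
-/

set_option autoImplicit false

namespace Pool.Agent.Work.MP_327059_nt.GL

open MvPolynomial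

theorem trans_lift {K L M : Type} [Field K] [Field L] [Field M] [Algebra K L]
    [Algebra.IsAlgebraic K L] [IsAlgClosed M] (f : K →+* M) :
    ∃ g : L →+* M, ∀ a, g (algebraMap K L a) = f a := by
  let := f.toAlgebra
  exact ⟨((IsAlgClosed.lift : L →ₐ[K] M) : L →+* M), fun a =>
    (IsAlgClosed.lift : L →ₐ[K] M).commutes a⟩

theorem trans_phi0 {F E n : Type} [Field F] [Field E] [Algebra F E] (y w : n → E)
    (hy : AlgebraicIndependent F y) (hw : AlgebraicIndependent F w) :
    ∃ f : IntermediateField.adjoin F (Set.range y) →+* E,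
      ∀ i (h : y i ∈ IntermediateField.adjoin F (Set.range y)), f ⟨y i, h⟩ = w i := by
  refine ⟨(algebraMap (IntermediateField.adjoin F (Set.range w)) E).comp
    ((hw.aevalEquivField.toRingEquiv.toRingHom).comp
      hy.aevalEquivField.symm.toRingEquiv.toRingHom), ?_⟩
  intro i h
  have h1 : hy.aevalEquivField (algebraMap _ _ (X i : MvPolynomial n F)) = ⟨y i, h⟩ := by
    apply Subtype.ext
    rw [hy.aevalEquivField_algebraMap_apply_coe]
    simp
  have h2 : hy.aevalEquivField.symm ⟨y i, h⟩ = algebraMap _ _ (X i : MvPolynomial n F) := by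
    rw [← h1, AlgEquiv.symm_apply_apply]
  have h3 : ((hw.aevalEquivField (hy.aevalEquivField.symm ⟨y i, h⟩) :
      IntermediateField.adjoin F (Set.range w)) : E) = w i := by
    rw [h2, hw.aevalEquivField_algebraMap_apply_coe]
    simp
  exact h3

theorem trans_map {A B : Type} [CommRing A] [CommRing B] {τ : Type} (g : A →+* B) (v : τ → A)
    (f : MvPolynomial τ ℤ) : aeval (fun i => g (v i)) f = g (aeval v f) := by
  exact (MvPolynomial.comp_aeval_apply v g.toIntAlgHom f).symm

theorem pr_Trans (_h1 : S_AIZ) : S_Trans := by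
  intro n m _ _ y w hy hw x hx
  classical
  obtain ⟨f0, hf0⟩ := trans_phi0 y w hy hw
  let K := IntermediateField.adjoin ℚ (Set.range y)
  let L := algebraicClosure K ℂ
  obtain ⟨g, hg⟩ := trans_lift (L := L) f0
  have hxL : ∀ i, x i ∈ L := fun i => by
    exact (mem_algebraicClosure_iff).2 (hx i)
  have hyK : ∀ i, y i ∈ K := fun i => IntermediateField.subset_adjoin ℚ _ ⟨i, rfl⟩
  let vL : m ⊕ n → L := Sum.elim (fun i => ⟨x i, hxL i⟩) (fun i => algebraMap K L ⟨y i, hyK i⟩)
  refine ⟨fun i => g ⟨x i, hxL i⟩, fun f => ?_⟩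
  have e1 : (Sum.elim x y : m ⊕ n → ℂ) = fun s => (algebraMap L ℂ) (vL s) := by
    funext s
    rcases s with i | i
    · rfl
    · rfl
  have e2 : (Sum.elim (fun i => g ⟨x i, hxL i⟩) w : m ⊕ n → ℂ) = fun s => g (vL s) := by
    funext s
    rcases s with i | i
    · rfl
    · show w i = g (algebraMap K L ⟨y i, hyK i⟩)
      rw [hg, hf0]
  rw [e1, e2, trans_map, trans_map]
  rw [map_eq_zero_iff _ (algebraMap L ℂ).injective, map_eq_zero_iff _ g.injective]

end Pool.Agent.Work.MP_327059_nt.GL

end

section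

/-!
# Item ValG: Gauss lemma in a valuation ring
-/

set_option autoImplicit false

namespace Pool.Agent.Work.MP_327059_nt.GL

open MvPolynomial

/-- A homogeneous polynomial at a multiple of a vector. -/
lemma ValG_hom {ι : Type} (δ : ℕ) (P : MvPolynomial ι ℤ) (hP : P.IsHomogeneous δ) (c : ℂ)
    (x : ι → ℂ) : aeval (fun j => c * x j) P = c ^ δ * aeval x P := by
  rw [aeval_def, aeval_def, eval₂_eq, eval₂_eq, Finset.mul_sum]
  apply Finset.sum_congr rfl
  intro m hm
  have hd : (m.sum fun _ e => e) = δ := by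
    have := hP (mem_support_iff.1 hm)
    rw [← this, Finsupp.weight_apply]
    simp
  have h1 : ∏ i ∈ m.support, (c * x i) ^ m i = c ^ δ * ∏ i ∈ m.support, x i ^ m i := by
    have : ∏ i ∈ m.support, (c * x i) ^ m i =
        (∏ i ∈ m.support, c ^ m i) * ∏ i ∈ m.support, x i ^ m i := by
      rw [← Finset.prod_mul_distrib]
      apply Finset.prod_congr rfl
      intro i _
      rw [mul_pow]
    rw [this, Finset.prod_pow_eq_pow_sum]
    congr 2
  rw [h1]
  ring

theorem pr_ValG : S_ValG := by
  intro ι _ V d a ξ hξ hV δ P hP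
  classical
  -- the coordinate of maximal valuation
  have hmax : ∀ t, ∃ j0, ξ t j0 ≠ 0 ∧ ∀ j, ξ t j / ξ t j0 ∈ V := by
    intro t
    obtain ⟨j1, hj1⟩ := Function.ne_iff.1 (hξ t)
    have hne : Nonempty ι := ⟨j1⟩
    obtain ⟨j0, hj0⟩ := Finite.exists_max (fun j => V.valuation (ξ t j))
    have h0 : ξ t j0 ≠ 0 := by
      intro h0
      have h1 := hj0 j1
      simp only [h0, map_zero, le_zero_iff, map_eq_zero] at h1
      exact hj1 h1
    refine ⟨j0, h0, fun j => ?_⟩
    rw [← ValuationSubring.valuation_le_one_iff, map_div₀]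
    exact div_le_one_of_le₀ (hj0 j) zero_le
  choose j0 hc hη using hmax
  let η : Fin d → ι → V := fun t j => ⟨ξ t j / ξ t (j0 t), hη t j⟩
  have hη' : ∀ t j, ((η t j : V) : ℂ) = ξ t j / ξ t (j0 t) := fun t j => rfl
  have hη0 : ∀ t, η t (j0 t) = 1 := by
    intro t
    apply Subtype.ext
    rw [hη', div_self (hc t)]
    rfl
  have hξη : ∀ t j, ξ t j = ξ t (j0 t) * algebraMap V ℂ (η t j) := by
    intro t j
    have : algebraMap V ℂ (η t j) = ξ t j / ξ t (j0 t) := rfl
    rw [this, mul_div_cancel₀ _ (hc t)]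
  set Q : MvPolynomial ι V := ∏ t, ∑ j, C (η t j) * X j with hQ
  set c : ℂ := ∏ t, ξ t (j0 t) with hcdef
  have hprod : (C a * ∏ t, ∑ j, C (ξ t j) * X j : MvPolynomial ι ℂ) =
      C (a * c) * map (algebraMap V ℂ) Q := by
    have h1 : ∀ t, (∑ j, C (ξ t j) * X j : MvPolynomial ι ℂ) =
        C (ξ t (j0 t)) * map (algebraMap V ℂ) (∑ j, C (η t j) * X j) := by
      intro t
      rw [map_sum, Finset.mul_sum]
      apply Finset.sum_congr rfl
      intro j _
      rw [map_mul, map_C, map_X, ← mul_assoc, ← C_mul, ← hξη]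
    rw [hQ, map_prod, C_mul, mul_assoc, hcdef, map_prod, ← Finset.prod_mul_distrib]
    congr 1
    apply Finset.prod_congr rfl
    intro t _
    exact h1 t
  -- a unit coefficient
  have hres : map (IsLocalRing.residue V) Q ≠ 0 := by
    rw [hQ, map_prod, Finset.prod_ne_zero_iff]
    intro t _ h0
    have h1 := congrArg (coeff (Finsupp.single (j0 t) 1)) h0
    rw [map_sum, coeff_sum, coeff_zero] at h1
    rw [Finset.sum_eq_single (j0 t)] at h1
    · rw [map_mul, map_C, map_X, hη0, map_one, C_1, one_mul, coeff_X, if_pos rfl] at h1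
      exact one_ne_zero h1
    · intro j _ hj
      rw [map_mul, map_C, map_X, coeff_C_mul, coeff_X, if_neg, mul_zero]
      intro h2
      exact hj (Finsupp.single_left_injective one_ne_zero h2)
    · intro h2
      exact absurd (Finset.mem_univ _) h2
  obtain ⟨m, hm⟩ := ne_zero_iff.1 hres
  rw [coeff_map] at hm
  have hunit : IsUnit (coeff m Q) := (IsLocalRing.residue_ne_zero_iff_isUnit _).1 hm
  have hac : a * c ∈ V := by
    have h1 := hV m
    rw [hprod, coeff_C_mul, coeff_map] at h1
    obtain ⟨u, hu⟩ := hunit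
    have h2 : algebraMap V ℂ (coeff m Q) * algebraMap V ℂ (↑u⁻¹ : V) = 1 := by
      rw [← map_mul, ← hu, Units.mul_inv, map_one]
    have h3 : a * c = (a * c * algebraMap V ℂ (coeff m Q)) * algebraMap V ℂ (↑u⁻¹ : V) := by
      rw [mul_assoc, h2, mul_one]
    rw [h3]
    exact V.mul_mem _ _ h1 (↑u⁻¹ : V).2
  have hval : ∀ t, aeval (ξ t) P = ξ t (j0 t) ^ δ * algebraMap V ℂ (aeval (η t) P) := by
    intro t
    have h1 : ξ t = fun j => ξ t (j0 t) * algebraMap V ℂ (η t j) := funext (hξη t)
    have h2 : aeval (fun j => algebraMap V ℂ (η t j)) P = algebraMap V ℂ (aeval (η t) P) := by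
      rw [← aeval_algebraMap_apply]
      rfl
    rw [← h2, ← ValG_hom δ P hP]
    exact congrArg (fun z => aeval z P) h1
  have hfin : a ^ δ * ∏ t, aeval (ξ t) P =
      (a * c) ^ δ * ∏ t, algebraMap V ℂ (aeval (η t) P) := by
    rw [Finset.prod_congr rfl (fun t _ => hval t), Finset.prod_mul_distrib,
      Finset.prod_pow, mul_pow]
    ring
  rw [hfin]
  apply V.mul_mem _ _ (pow_mem hac δ)
  rw [← map_prod]
  exact (∏ t, aeval (η t) P : V).2

end Pool.Agent.Work.MP_327059_nt.GL

end

section

/-!
# G10: the complex annihilator is defined over `ℚ`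
-/

set_option autoImplicit false

namespace Pool.Agent.Work.MP_327059_nt.GL

theorem pr_AnnExt : S_AnnExt := by
  classical
  intro n m G
  apply le_antisymm
  · intro b hb
    let e := Module.Basis.ofVectorSpace ℚ ℂ
    let T : Finset _ := Finset.univ.biUnion (fun i : Fin n => Finset.univ.biUnion
      (fun j : Fin m => (e.repr (b i j)).support))
    have hexp : b = ∑ k ∈ T, (e k) • (fun (i : Fin n) (j : Fin m) => ((e.coord k (b i j) : ℚ) : ℂ)) := by
      funext i j
      have h1 : b i j = ∑ k ∈ T, (e.repr (b i j) k) • e k := by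
        have h2 := e.linearCombination_repr (b i j)
        rw [Finsupp.linearCombination_apply, Finsupp.sum] at h2
        conv_lhs => rw [← h2]
        apply Finset.sum_subset
        · intro k hk
          simp only [T, Finset.mem_biUnion, Finset.mem_univ, true_and]
          exact ⟨i, j, hk⟩
        · intro k _ hk
          rw [Finsupp.notMem_support_iff.mp hk, zero_smul]
      rw [Finset.sum_apply, Finset.sum_apply]
      conv_lhs => rw [h1]
      refine Finset.sum_congr rfl fun k _ => ?_
      simp only [Pi.smul_apply, smul_eq_mul, Module.Basis.coord_apply]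
      rw [Rat.smul_def, mul_comm]
    rw [hexp]
    refine Submodule.sum_mem _ fun k _ => Submodule.smul_mem _ _ (Submodule.subset_span ?_)
    refine ⟨fun i j => e.coord k (b i j), ?_, rfl⟩
    intro ξ hξ
    have h1 : ∑ i, ∑ j, (ξ i j : ℂ) * b i j = 0 := hb ξ hξ
    have h2 := congrArg (e.coord k) h1
    rw [map_zero, map_sum] at h2
    rw [← h2]
    refine Finset.sum_congr rfl fun i _ => ?_
    rw [map_sum]
    refine Finset.sum_congr rfl fun j _ => ?_
    have h3 : (ξ i j : ℂ) * b i j = (ξ i j : ℚ) • b i j := by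
      rw [Rat.smul_def]
      simp
    rw [h3, map_smul, smul_eq_mul]
  · rw [Submodule.span_le]
    rintro b ⟨b0, hb0, rfl⟩
    intro ξ hξ
    have h1 : ∑ i, ∑ j, (ξ i j : ℚ) * b0 i j = 0 := hb0 ξ hξ
    have h2 := congrArg (fun q : ℚ => (q : ℂ)) h1
    simp only [Rat.cast_sum, Rat.cast_mul, Rat.cast_intCast, Rat.cast_zero] at h2
    exact h2

end Pool.Agent.Work.MP_327059_nt.GL

end

section

/-!
# Item AxImg
-/

set_option autoImplicit false

namespace Pool.Agent.Work.MP_327059_nt.GL

open Pool.Agent.ED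

/-- a subfield containing every complex number algebraic over it is algebraically closed -/
lemma AxImg_closed (E : IntermediateField ℚ ℂ) (h : ∀ x : ℂ, IsAlgebraic E x → x ∈ E) :
    IsAlgClosed E := by
  refine IsAlgClosed.of_exists_root E fun p hm hi => ?_
  obtain ⟨z, hz⟩ := IsAlgClosed.exists_aeval_eq_zero ℂ p hi.degree_pos.ne'
  have hzE : z ∈ E := h z ⟨p, hi.ne_zero, hz⟩
  refine ⟨⟨z, hzE⟩, ?_⟩
  have e1 : Polynomial.aeval (algebraMap E ℂ ⟨z, hzE⟩) p =
      algebraMap E ℂ (Polynomial.eval ⟨z, hzE⟩ p) := Polynomial.aeval_algebraMap_apply_eq_algebraMap_eval _ _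
  have e2 : algebraMap E ℂ (Polynomial.eval ⟨z, hzE⟩ p) = 0 := by
    rw [← e1]
    exact hz
  exact (map_eq_zero_iff _ (algebraMap E ℂ).injective).1 e2

/-- derivations killing `E` -/
def AxImg_KE (E : IntermediateField ℚ ℂ) : Submodule ℂ (Derivation ℚ ℂ ℂ) where
  carrier := {δ | ∀ e ∈ E, δ e = 0}
  add_mem' {a b} ha hb e he := by
    rw [Derivation.add_apply, ha e he, hb e he, add_zero]
  zero_mem' e _ := by simp
  smul_mem' c a ha e he := by
    rw [Derivation.smul_apply, ha e he, smul_zero]

/-- closedness of the logarithmic forms -/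
lemma AxImg_comm {n m : ℕ} (x : Fin n → ℂ) (y : Fin n → Fin m → ℂ) (v : Fin n → ℂ)
    (hy : ∀ i j, y i j ≠ 0) (D δ : Derivation ℚ ℂ ℂ) (hD : ∀ i, D (v i) = 0)
    (hδ : ∀ i, δ (v i) = 0) (j : Fin m) :
    D (om x y v δ (some j)) = om x y v ⁅D, δ⁆ (some j) + δ (om x y v D (some j)) := by
  change D (∑ i, v i * (δ (y i j) / y i j)) =
    ∑ i, v i * ((⁅D, δ⁆ : Derivation ℚ ℂ ℂ) (y i j) / y i j) +
      δ (∑ i, v i * (D (y i j) / y i j))
  rw [map_sum, map_sum, ← Finset.sum_add_distrib]
  refine Finset.sum_congr rfl fun i _ => ?_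
  rw [Derivation.leibniz, Derivation.leibniz, Derivation.leibniz_div, Derivation.leibniz_div,
    hD i, hδ i, Derivation.commutator_apply]
  simp only [smul_eq_mul, mul_zero, add_zero]
  have := hy i j
  field_simp
  ring

theorem pr_AxImg (h1 : S_Stab) (h2 : S_AxKey) : S_AxImg := by
  intro n m x y v E hy hE b hb
  have hv : ∀ i, v i ∈ E := fun i => (hE (v i)).2 fun δ hδ _ => hδ i
  have hcl : IsAlgClosed E := by
    refine AxImg_closed E fun z hz => (hE z).2 fun δ hδ ho => ?_
    exact der_zero_alg E δ (fun s hs => (hE s).1 hs δ hδ ho) z hz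
  set DS : Set (Derivation ℚ ℂ ℂ) := {D | D ∈ TT v ∧ om x y v D = 0} with hDS
  have hEDS : ∀ c : ℂ, (∀ D ∈ DS, D c = 0) → c ∈ E := fun c hc =>
    (hE c).2 fun δ hδ ho => hc δ ⟨hδ, ho⟩
  have hDSE : ∀ D ∈ DS, ∀ e ∈ E, D e = 0 := fun D hD e he => (hE e).1 he D hD.1 hD.2
  -- the projected map
  let L : Derivation ℚ ℂ ℂ →ₗ[ℂ] (Fin m → ℂ) :=
    (LinearMap.funLeft ℂ ℂ (some : Fin m → Option (Fin m))).comp (om x y v)
  have hL : ∀ δ j, L δ j = om x y v δ (some j) := fun δ j => rfl
  let I : Submodule ℂ (Fin m → ℂ) := (AxImg_KE E).map L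
  let W : Submodule ℂ (Fin m → ℂ) :=
    { carrier := {a | ∀ u ∈ I, ∑ j, a j * u j = 0}
      add_mem' := by
        intro a a' ha ha' u hu
        have e1 := ha u hu
        have e2 := ha' u hu
        simp only [Pi.add_apply, add_mul, Finset.sum_add_distrib, e1, e2, add_zero]
      zero_mem' := by
        intro u _
        simp
      smul_mem' := by
        intro c a ha u hu
        have e1 := ha u hu
        have e2 : ∑ j, (c • a) j * u j = c * ∑ j, a j * u j := by
          rw [Finset.mul_sum]
          refine Finset.sum_congr rfl fun j _ => ?_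
          simp only [Pi.smul_apply, smul_eq_mul]
          ring
        rw [e2, e1, mul_zero] }
  have hW : ∀ a, a ∈ W ↔ ∀ u ∈ I, ∑ j, a j * u j = 0 := fun a => Iff.rfl
  have hstab : ∀ D ∈ DS, ∀ a ∈ W, (fun j => D (a j)) ∈ W := by
    intro D hD a ha
    rw [hW]
    rintro u ⟨δ, hδ, rfl⟩
    have hcomm : ⁅D, δ⁆ ∈ AxImg_KE E := by
      intro e he
      rw [Derivation.commutator_apply, hδ e he, hDSE D hD e he, map_zero, map_zero, sub_zero]
    have e1 : ∑ j, a j * L δ j = 0 := ha _ ⟨δ, hδ, rfl⟩
    have e2 : ∑ j, a j * L ⁅D, δ⁆ j = 0 := ha _ ⟨⁅D, δ⁆, hcomm, rfl⟩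
    have e3 : ∀ j, D (L δ j) = L ⁅D, δ⁆ j := by
      intro j
      rw [hL, hL, AxImg_comm x y v hy D δ (fun i => hD.1 i) (fun i => hδ _ (hv i)) j]
      have : om x y v D (some j) = 0 := by
        rw [hD.2]
        rfl
      rw [this, map_zero, add_zero]
    have e4 := congrArg D e1
    rw [map_sum, map_zero] at e4
    have e5 : ∑ j, D (a j * L δ j) = ∑ j, D (a j) * L δ j + ∑ j, a j * L ⁅D, δ⁆ j := by
      rw [← Finset.sum_add_distrib]
      refine Finset.sum_congr rfl fun j _ => ?_
      rw [Derivation.leibniz, e3 j]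
      simp only [smul_eq_mul]
      ring
    rw [e5, e2, add_zero] at e4
    exact e4
  have hspan := h1 m W DS hstab
  -- vectors of `W` are orthogonal to `mv v b`
  have horth : ∀ a ∈ W, ∑ j, a j * mv v b j = 0 := by
    intro a ha
    have hmem := hspan a ha
    let f : (Fin m → ℂ) →ₗ[ℂ] ℂ :=
      { toFun := fun a => ∑ j, a j * mv v b j
        map_add' := by
          intro a a'
          simp only [Pi.add_apply, add_mul, Finset.sum_add_distrib]
        map_smul' := by
          intro c a
          simp only [Pi.smul_apply, smul_eq_mul, RingHom.id_apply]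
          rw [Finset.mul_sum]
          exact Finset.sum_congr rfl fun j _ => by ring }
    have hle : Submodule.span ℂ {e : Fin m → ℂ | e ∈ W ∧ ∀ j, ∀ D ∈ DS, D (e j) = 0} ≤
        LinearMap.ker f := by
      rw [Submodule.span_le]
      rintro e ⟨heW, heD⟩
      have heE : ∀ j, e j ∈ E := fun j => hEDS _ (heD j)
      refine h2 n m y v E hcl hv hy e heE ?_ b hb
      intro δ hδ
      exact heW _ ⟨δ, hδ, rfl⟩
    exact hle hmem
  -- double orthogonal
  have hI : mv v b ∈ I := by
    by_contra hnot
    obtain ⟨f, hf1, hf2⟩ := Submodule.exists_le_ker_of_notMem hnot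
    apply hf1
    have hfe : ∀ u : Fin m → ℂ, f u = ∑ j, f (fun j' => if j = j' then 1 else 0) * u j := by
      intro u
      rw [LinearMap.pi_apply_eq_sum_univ f u]
      exact Finset.sum_congr rfl fun j _ => by rw [smul_eq_mul, mul_comm]
    rw [hfe]
    refine horth (fun j => f (fun j' => if j = j' then 1 else 0)) ?_
    rw [hW]
    intro u hu
    rw [← hfe]
    exact hf2 hu
  obtain ⟨δ, hδ, hδL⟩ := hI
  refine ⟨δ, hδ, ?_⟩
  funext o
  cases o with
  | none =>
    change ∑ i, v i * δ (x i) = 0
    have hs : ∑ i, v i * x i ∈ E := by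
      refine hEDS _ fun D hD => ?_
      rw [map_sum]
      have e1 : om x y v D none = 0 := by
        rw [hD.2]
        rfl
      change ∑ i, v i * D (x i) = 0 at e1
      rw [← e1]
      refine Finset.sum_congr rfl fun i _ => ?_
      rw [Derivation.leibniz, hD.1 i, smul_zero, add_zero, smul_eq_mul]
    have e2 := hδ _ hs
    rw [map_sum] at e2
    rw [← e2]
    refine Finset.sum_congr rfl fun i _ => ?_
    rw [Derivation.leibniz, hδ _ (hv i), smul_zero, add_zero, smul_eq_mul]
  | some j =>
    rw [← hL, hδL]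
    rfl

end Pool.Agent.Work.MP_327059_nt.GL

end

section

/-!
# PART G, item AxKey (helper31): residue lemma for the forms `dlog y_ij`
-/

set_option autoImplicit false

namespace Pool.Agent.Work.MP_327059_nt.GL

open Pool.Agent.ED

theorem axKey_mon {n m : ℕ} (y : Fin n → Fin m → ℂ) (ξ : Fin n × Fin m → ℤ) :
    mon y (fun i j => ξ (i, j)) = ∏ l : Fin n × Fin m, y l.1 l.2 ^ ξ l := by
  rw [Fintype.prod_prod_type]
  rfl

theorem pr_AxKey : S_AxKey := by
  classical
  intro n m y v E hE hv hy a ha H b hb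
  obtain ⟨h, ε, q, hε, hq⟩ := Pool.Agent.Work.MP_8da9ea_nt.int_basis
    (fun l : Fin n × Fin m => (⟨a l.2 * v l.1, E.mul_mem (ha l.2) (hv l.1)⟩ : E))
  have hq' : ∀ l : Fin n × Fin m, a l.2 * v l.1 = ∑ k, (q l k : ℂ) * (ε k : ℂ) := by
    intro l
    have h1 := congrArg (algebraMap E ℂ) (hq l)
    rw [map_sum] at h1
    simp only [map_mul, map_intCast] at h1
    exact h1
  have hyl : ∀ l : Fin n × Fin m, y l.1 l.2 ≠ 0 := fun l => hy l.1 l.2
  have hg0 : ∀ k, (∏ l : Fin n × Fin m, y l.1 l.2 ^ q l k) ≠ 0 := fun k =>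
    Finset.prod_ne_zero_iff.2 fun l _ => zpow_ne_zero _ (hyl l)
  -- swapping sums
  have swap : ∀ F : Fin n × Fin m → ℂ, ∑ j, a j * ∑ i, v i * F (i, j)
      = ∑ k, (ε k : ℂ) * ∑ l, (q l k : ℂ) * F l := by
    intro F
    have h1 : ∑ j, a j * ∑ i, v i * F (i, j) = ∑ l : Fin n × Fin m, a l.2 * v l.1 * F l := by
      rw [Fintype.sum_prod_type_right]
      refine Finset.sum_congr rfl fun j _ => ?_
      rw [Finset.mul_sum]
      refine Finset.sum_congr rfl fun i _ => ?_
      ring
    rw [h1]
    simp_rw [hq', Finset.sum_mul, Finset.mul_sum]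
    rw [Finset.sum_comm]
    refine Finset.sum_congr rfl fun k _ => Finset.sum_congr rfl fun l _ => ?_
    ring
  have hmem := tor_res_closed (C := E) (M := ℂ) ε hε
    (fun k => ∏ l : Fin n × Fin m, y l.1 l.2 ^ q l k) hg0 0 (by
      intro X
      rw [map_zero]
      have h1 : ∀ e ∈ E, (X.restrictScalars ℚ) e = 0 := fun e he => by
        have h2 : X (algebraMap E ℂ ⟨e, he⟩) = 0 := X.map_algebraMap _
        exact h2
      have h2 := H (X.restrictScalars ℚ) h1
      have h3 := swap (fun l => X (y l.1 l.2) / y l.1 l.2)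
      have h4 : ∑ j, a j * ∑ i, v i * (X (y i j) / y i j) = 0 := h2
      rw [h4] at h3
      rw [h3]
      refine Finset.sum_congr rfl fun k _ => ?_
      rw [Pool.Agent.Work.MP_8da9ea_nt.der_prod_zpow Finset.univ
        (fun l : Fin n × Fin m => y l.1 l.2) hyl (fun l => q l k) X]
      rfl)
  have hfin : ∀ k, ∑ l : Fin n × Fin m, (q l k : ℂ) * b l.1 l.2 = 0 := by
    intro k
    obtain ⟨c, hc⟩ := hmem k
    have h1 : mon y (fun i j => q (i, j) k) ∈ E := by
      rw [axKey_mon y (fun l => q l k), ← hc]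
      exact c.2
    have h2 := hb _ h1
    rw [Fintype.sum_prod_type]
    exact h2
  have h5 := swap (fun l => b l.1 l.2)
  have h6 : ∑ j, a j * ∑ i, v i * b i j = ∑ k, (ε k : ℂ) * ∑ l, (q l k : ℂ) * b l.1 l.2 := h5
  rw [h6]
  refine Finset.sum_eq_zero fun k _ => ?_
  rw [hfin k, mul_zero]

end Pool.Agent.Work.MP_327059_nt.GL

end

section

/-!
# Item AxOut
-/

set_option autoImplicit false

namespace Pool.Agent.Work.MP_327059_nt.GL

open Pool.Agent.ED

/-- the constants -/
noncomputable def AxOut_E {n m : ℕ} (x : Fin n → ℂ) (y : Fin n → Fin m → ℂ) (v : Fin n → ℂ) :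
    IntermediateField ℚ ℂ where
  carrier := {c | ∀ δ ∈ TT v, om x y v δ = 0 → δ c = 0}
  mul_mem' := by
    intro a b ha hb δ hδ ho
    rw [Derivation.leibniz, ha δ hδ ho, hb δ hδ ho, smul_zero, smul_zero, add_zero]
  one_mem' := by
    intro δ _ _
    exact δ.map_one_eq_zero
  add_mem' := by
    intro a b ha hb δ hδ ho
    rw [map_add, ha δ hδ ho, hb δ hδ ho, add_zero]
  zero_mem' := by
    intro δ _ _
    exact map_zero δ
  algebraMap_mem' := by
    intro r δ _ _
    exact δ.map_algebraMap r
  inv_mem' := by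
    intro a ha δ hδ ho
    rw [Derivation.leibniz_inv, ha δ hδ ho, smul_zero]

lemma AxOut_mem {n m : ℕ} (x : Fin n → ℂ) (y : Fin n → Fin m → ℂ) (v : Fin n → ℂ) (c : ℂ) :
    c ∈ AxOut_E x y v ↔ ∀ δ ∈ TT v, om x y v δ = 0 → δ c = 0 := Iff.rfl

lemma AxOut_mon_add {n m : ℕ} (y : Fin n → Fin m → ℂ) (hy : ∀ i j, y i j ≠ 0)
    (ξ ξ' : Fin n → Fin m → ℤ) : mon y (ξ + ξ') = mon y ξ * mon y ξ' := by
  unfold mon
  simp only [Pi.add_apply, zpow_add₀ (hy _ _), Finset.prod_mul_distrib]

lemma AxOut_mon_neg {n m : ℕ} (y : Fin n → Fin m → ℂ) (ξ : Fin n → Fin m → ℤ) :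
    mon y (-ξ) = (mon y ξ)⁻¹ := by
  unfold mon
  simp only [Pi.neg_apply, zpow_neg, Finset.prod_inv_distrib]

lemma AxOut_mon_zero {n m : ℕ} (y : Fin n → Fin m → ℂ) : mon y 0 = 1 := by
  simp [mon]

/-- exponents of the constant monomials -/
def AxOut_G {n m : ℕ} (x : Fin n → ℂ) (y : Fin n → Fin m → ℂ) (v : Fin n → ℂ)
    (hy : ∀ i j, y i j ≠ 0) : AddSubgroup (Fin n → Fin m → ℤ) where
  carrier := {ξ | mon y ξ ∈ AxOut_E x y v}
  add_mem' := by
    intro ξ ξ' h h'
    simp only [Set.mem_ofPred_eq] at h h' ⊢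
    rw [AxOut_mon_add y hy]
    exact mul_mem h h'
  zero_mem' := by
    simp only [Set.mem_ofPred_eq, AxOut_mon_zero]
    exact one_mem _
  neg_mem' := by
    intro ξ h
    simp only [Set.mem_ofPred_eq] at h ⊢
    rw [AxOut_mon_neg]
    exact inv_mem h

lemma AxOut_sum_mem {n m : ℕ} (x : Fin n → ℂ) (y : Fin n → Fin m → ℂ) (v : Fin n → ℂ) :
    ∑ i, v i * x i ∈ AxOut_E x y v := by
  intro δ hδ ho
  rw [map_sum]
  have e1 : om x y v δ none = 0 := by
    rw [ho]
    rfl
  change ∑ i, v i * δ (x i) = 0 at e1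
  rw [← e1]
  refine Finset.sum_congr rfl fun i _ => ?_
  rw [Derivation.leibniz, hδ i, smul_zero, add_zero, smul_eq_mul]

theorem pr_AxOut (h1 : S_AxImg) : S_AxOut := by
  intro n m x y v hy
  refine ⟨AxOut_G x y v hy, ?_⟩
  intro k f hf hind
  classical
  have hfE : ∀ t, f t ∈ AxOut_E x y v := by
    intro t
    rcases hf t with h | ⟨ξ, hξ, h⟩
    · rw [h]
      exact AxOut_sum_mem x y v
    · rw [h]
      exact hξ
  -- derivations dual to `f`
  have hX : ∀ s : Fin k, ∃ δ : Derivation ℚ ℂ ℂ, δ ∈ TT v ∧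
      ∀ t, δ (f t) = if t = s then 1 else 0 := by
    intro s
    obtain ⟨X, hX⟩ := exists_derivation hind (fun t => if t = s then (1 : ℂ) else 0)
    refine ⟨X.restrictScalars ℚ, ?_, hX⟩
    intro i
    have hmem : v i ∈ IntermediateField.adjoin ℚ (Set.range v) :=
      IntermediateField.subset_adjoin _ _ ⟨i, rfl⟩
    exact X.map_algebraMap (⟨v i, hmem⟩ : IntermediateField.adjoin ℚ (Set.range v))
  choose δ hδT hδf using hX
  -- the second family
  let S : Submodule ℂ (Fin m → ℂ) := (annC (AxOut_G x y v hy)).map (mv v)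
  let B := Module.finBasis ℂ S
  have hB : ∀ c : Fin (Module.finrank ℂ S), ∃ δ' : Derivation ℚ ℂ ℂ,
      (∀ e ∈ AxOut_E x y v, δ' e = 0) ∧
        om x y v δ' = fun o => o.elim 0 (B c : Fin m → ℂ) := by
    intro c
    obtain ⟨b, hb, hbc⟩ := (B c).2
    obtain ⟨δ', h2, h3⟩ := h1 n m x y v (AxOut_E x y v) hy (AxOut_mem x y v) b
      (fun ξ hξ => hb ξ hξ)
    refine ⟨δ', h2, ?_⟩
    rw [h3, hbc]
  choose δ' hδ'E hδ'o using hB
  have hvE : ∀ i, v i ∈ AxOut_E x y v := fun i D hD _ => hD i
  have hδ'T : ∀ c, δ' c ∈ TT v := fun c i => hδ'E c _ (hvE i)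
  let g : Fin k ⊕ Fin (Module.finrank ℂ S) → Derivation ℚ ℂ ℂ := Sum.elim δ δ'
  have hgT : ∀ s, g s ∈ TT v := by
    rintro (s | c)
    · exact hδT s
    · exact hδ'T c
  have hli : LinearIndependent ℂ (fun s => om x y v (g s)) := by
    rw [Fintype.linearIndependent_iff]
    intro c hc
    have hD0 : om x y v (∑ s, c s • g s) = 0 := by
      rw [map_sum]
      simp only [map_smul]
      exact hc
    have hDT : (∑ s, c s • g s) ∈ TT v :=
      Submodule.sum_mem _ fun s _ => Submodule.smul_mem _ _ (hgT s)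
    have hinl : ∀ t : Fin k, c (Sum.inl t) = 0 := by
      intro t
      have e1 : (∑ s, c s • g s) (f t) = 0 := hfE t _ hDT hD0
      have e2 : (∑ s, c s • g s) (f t) = ∑ s, c s * (g s) (f t) := by
        rw [← Derivation.coeFnAddMonoidHom_apply, map_sum, Finset.sum_apply]
        rfl
      rw [e2, Fintype.sum_sum_type] at e1
      have e3 : ∑ s : Fin (Module.finrank ℂ S), c (Sum.inr s) * (g (Sum.inr s)) (f t) = 0 := by
        refine Finset.sum_eq_zero fun s _ => ?_
        have : g (Sum.inr s) (f t) = 0 := hδ'E s _ (hfE t)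
        rw [this, mul_zero]
      have e4 : ∑ s : Fin k, c (Sum.inl s) * (g (Sum.inl s)) (f t) = c (Sum.inl t) := by
        rw [Finset.sum_eq_single t]
        · have : g (Sum.inl t) (f t) = 1 := by
            change δ t (f t) = 1
            rw [hδf, if_pos rfl]
          rw [this, mul_one]
        · intro s _ hs
          have : g (Sum.inl s) (f t) = 0 := by
            change δ s (f t) = 0
            rw [hδf, if_neg (Ne.symm hs)]
          rw [this, mul_zero]
        · intro h
          exact absurd (Finset.mem_univ t) h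
      rw [e3, e4, add_zero] at e1
      exact e1
    have hinr : ∀ s : Fin (Module.finrank ℂ S), c (Sum.inr s) = 0 := by
      have e1 : ∑ s : Fin (Module.finrank ℂ S), c (Sum.inr s) • B s = 0 := by
        apply Subtype.ext
        rw [Submodule.coe_sum]
        funext j
        have e2 := congrFun hc (some j)
        rw [Fintype.sum_sum_type, Pi.add_apply, Finset.sum_apply, Finset.sum_apply] at e2
        have e3 : ∑ s : Fin k, (c (Sum.inl s) • om x y v (g (Sum.inl s))) (some j) = 0 :=
          Finset.sum_eq_zero fun s _ => by rw [hinl s, zero_smul]; rfl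
        rw [e3, zero_add] at e2
        rw [Finset.sum_apply]
        refine Eq.trans ?_ e2
        refine Finset.sum_congr rfl fun s _ => ?_
        have : om x y v (g (Sum.inr s)) = fun o => o.elim 0 (B s : Fin m → ℂ) := hδ'o s
        rw [this]
        rfl
      have e5 := Fintype.linearIndependent_iff.1 B.linearIndependent (fun s => c (Sum.inr s)) e1
      exact e5
    rintro (t | s)
    · exact hinl t
    · exact hinr s
  have hli' : LinearIndependent ℂ (fun s => (⟨om x y v (g s), ⟨g s, hgT s, rfl⟩⟩ :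
      (TT v).map (om x y v))) :=
    LinearIndependent.of_comp (Submodule.subtype _) hli
  have hcard := hli'.fintype_card_le_finrank
  rw [Fintype.card_sum, Fintype.card_fin, Fintype.card_fin] at hcard
  exact hcard

end Pool.Agent.Work.MP_327059_nt.GL

end

section

/-!
# G11: double annihilator
-/

set_option autoImplicit false

namespace Pool.Agent.Work.MP_327059_nt.GL

theorem pr_DoubleAnn : S_DoubleAnn := by
  classical
  intro n m G z hz
  let L : Submodule ℚ (Fin n → Fin m → ℚ) :=
    Submodule.span ℚ {w | ∃ ξ ∈ G, w = fun i j => ((ξ i j : ℤ) : ℚ)}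
  have hzL : z ∈ L := by
    by_contra hcon
    obtain ⟨f, hfz, hfL⟩ := Submodule.exists_le_ker_of_notMem hcon
    have hf : ∀ w : Fin n → Fin m → ℚ,
        f w = ∑ i, ∑ j, w i j * f (Pi.single i (Pi.single j 1)) := by
      intro w
      have hw : w = ∑ i, ∑ j, w i j • (Pi.single i (Pi.single j 1) : Fin n → Fin m → ℚ) := by
        funext i j
        rw [Finset.sum_apply, Finset.sum_apply]
        rw [Finset.sum_eq_single i]
        · rw [Finset.sum_apply, Finset.sum_apply, Finset.sum_eq_single j]
          · simp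
          · intro j' _ hj'
            simp [Ne.symm hj']
          · simp
        · intro i' _ hi'
          rw [Finset.sum_apply, Finset.sum_apply]
          refine Finset.sum_eq_zero fun j' _ => ?_
          simp [Ne.symm hi']
        · simp
      conv_lhs => rw [hw]
      rw [map_sum]
      refine Finset.sum_congr rfl fun i _ => ?_
      rw [map_sum]
      refine Finset.sum_congr rfl fun j _ => ?_
      rw [map_smul, smul_eq_mul]
    apply hfz
    rw [hf z]
    apply hz
    intro ξ hξ
    have h1 : (fun i j => ((ξ i j : ℤ) : ℚ)) ∈ L := Submodule.subset_span ⟨ξ, hξ, rfl⟩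
    have h2 := hfL h1
    rw [LinearMap.mem_ker, hf] at h2
    exact h2
  refine Submodule.span_induction (p := fun z _ => ∃ N : ℕ, N ≠ 0 ∧ ∃ ξ ∈ G, ∀ i j,
    (ξ i j : ℚ) = N * z i j) ?_ ?_ ?_ ?_ hzL
  · rintro w ⟨ξ, hξ, rfl⟩
    exact ⟨1, one_ne_zero, ξ, hξ, fun i j => by simp⟩
  · exact ⟨1, one_ne_zero, 0, G.zero_mem, fun i j => by simp⟩
  · rintro w1 w2 _ _ ⟨N1, hN1, ξ1, hξ1, h1⟩ ⟨N2, hN2, ξ2, hξ2, h2⟩
    refine ⟨N1 * N2, Nat.mul_ne_zero hN1 hN2, N2 • ξ1 + N1 • ξ2,
      G.add_mem (G.nsmul_mem hξ1 _) (G.nsmul_mem hξ2 _), fun i j => ?_⟩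
    have e1 : (N2 • ξ1 + N1 • ξ2) i j = (N2 : ℤ) * ξ1 i j + (N1 : ℤ) * ξ2 i j := by
      rw [Pi.add_apply, Pi.add_apply, Pi.smul_apply, Pi.smul_apply, Pi.smul_apply, Pi.smul_apply,
        nsmul_eq_mul, nsmul_eq_mul]
    rw [e1]
    push_cast
    rw [h1 i j, h2 i j, Pi.add_apply, Pi.add_apply]
    ring
  · rintro q w _ ⟨N, hN, ξ, hξ, h⟩
    refine ⟨N * q.den, Nat.mul_ne_zero hN q.den_nz, q.num • ξ, G.zsmul_mem hξ _, fun i j => ?_⟩
    have e1 : (q.num • ξ) i j = q.num * ξ i j := by
      rw [Pi.smul_apply, Pi.smul_apply, smul_eq_mul]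
    rw [e1, Pi.smul_apply, Pi.smul_apply, smul_eq_mul]
    push_cast
    rw [h i j]
    have hq : (q.num : ℚ) = q * q.den := (Rat.mul_den_eq_num q).symm
    rw [hq]
    ring

end Pool.Agent.Work.MP_327059_nt.GL

end

section

/-!
# G13: maximal rank for logarithms
-/

set_option autoImplicit false

namespace Pool.Agent.Work.MP_327059_nt.GL

/-- Algebraic independence over a subfield. -/
theorem gCore_mono {n : Type} {K L : IntermediateField ℚ ℂ} (h : K ≤ L) (v : n → ℂ)
    (hv : AlgebraicIndependent L v) : AlgebraicIndependent K v := by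
  let _ : Algebra K L := (IntermediateField.inclusion h).toRingHom.toAlgebra
  have _ : IsScalarTower K L ℂ := IsScalarTower.of_algebraMap_eq fun x => rfl
  exact hv.restrictScalars (IntermediateField.inclusion h).toRingHom.injective

theorem gCore_prod {K : Type*} [Field K] [Algebra K ℂ] {α : Type*} (s : Finset α) (f : α → ℂ)
    (h : ∀ a ∈ s, IsAlgebraic K (f a)) : IsAlgebraic K (∏ a ∈ s, f a) := by
  classical
  induction s using Finset.induction_on with
  | empty => rw [Finset.prod_empty]; exact isAlgebraic_one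
  | insert a s ha ih =>
    rw [Finset.prod_insert ha]
    exact (h a (Finset.mem_insert_self _ _)).mul (ih fun b hb => h b (Finset.mem_insert_of_mem hb))

theorem gCore_sum {K : Type*} [Field K] [Algebra K ℂ] {α : Type*} (s : Finset α) (f : α → ℂ)
    (h : ∀ a ∈ s, IsAlgebraic K (f a)) : IsAlgebraic K (∑ a ∈ s, f a) := by
  classical
  induction s using Finset.induction_on with
  | empty => rw [Finset.sum_empty]; exact isAlgebraic_zero
  | insert a s ha ih =>
    rw [Finset.sum_insert ha]
    exact (h a (Finset.mem_insert_self _ _)).add (ih fun b hb => h b (Finset.mem_insert_of_mem hb))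

theorem gCore_zpow {K : Type*} [Field K] [Algebra K ℂ] (z : ℂ) (h : IsAlgebraic K z) (k : ℤ) :
    IsAlgebraic K (z ^ k) := by
  cases k with
  | ofNat k => rw [Int.ofNat_eq_natCast, zpow_natCast]; exact h.pow k
  | negSucc k => rw [zpow_negSucc]; exact (h.pow _).inv

/-- Exponentials of rational combinations of logarithms are algebraic. -/
theorem gCore_exp {n : ℕ} (l : Fin n → ℂ) (h : ∀ i, IsAlgebraic ℚ (Complex.exp (l i)))
    (w : Fin n → ℚ) : IsAlgebraic ℚ (Complex.exp (∑ i, (w i : ℂ) * l i)) := by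
  rw [Complex.exp_sum]
  refine gCore_prod _ _ fun i _ => ?_
  apply IsAlgebraic.of_pow (n := (w i).den) (w i).den_pos
  rw [← Complex.exp_nat_mul]
  have h1 : ((w i).den : ℂ) * ((w i : ℂ) * l i) = ((w i).num : ℂ) * l i := by
    have h2 : ((w i).den : ℂ) * (w i : ℂ) = ((w i).num : ℂ) := by
      have := Rat.den_mul_eq_num (w i)
      exact_mod_cast this
    rw [← mul_assoc, h2]
  rw [h1, Complex.exp_int_mul]
  exact gCore_zpow _ (h i) _

/-- Independence of the numbers `1, ∑ c_j β^(j+1)`. -/
theorem gCore_bind {d k : ℕ} (hd : 2 ≤ d) (β : ℂ) (hβ : (minpoly ℚ β).natDegree = d)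
    (c : Fin k → Fin (d - 1) → ℚ) (hc : LinearIndependent ℚ c) :
    LinearIndependent ℚ (Fin.cons 1 (fun t => ∑ j, (c t j : ℂ) * β ^ ((j : ℕ) + 1)) :
      Fin (k + 1) → ℂ) := by
  classical
  have hp0 : LinearIndependent ℚ (fun i : Fin (minpoly ℚ β).natDegree => β ^ (i : ℕ)) :=
    linearIndependent_pow β
  have hp : ∀ (a0 : ℚ) (a : Fin (d - 1) → ℚ),
      (a0 : ℂ) + ∑ j, (a j : ℂ) * β ^ ((j : ℕ) + 1) = 0 → a0 = 0 ∧ ∀ j, a j = 0 := by
    obtain ⟨e, rfl⟩ : ∃ e, d = e + 1 := ⟨d - 1, by omega⟩
    rw [hβ] at hp0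
    intro a0 a h
    have h1 := Fintype.linearIndependent_iff.1 hp0 (Fin.cons a0 a) (by
      rw [Fin.sum_univ_succ]
      simp only [Fin.cons_zero, Fin.cons_succ, Fin.val_zero, pow_zero, Fin.val_succ,
        Algebra.smul_def, eq_ratCast, mul_one]
      exact h)
    exact ⟨by simpa using h1 0, fun j => by simpa using h1 j.succ⟩
  rw [Fintype.linearIndependent_iff]
  intro g hg
  rw [Fin.sum_univ_succ] at hg
  simp only [Fin.cons_zero, Fin.cons_succ, Algebra.smul_def, eq_ratCast, mul_one] at hg
  have h1 : ∑ t : Fin k, (g t.succ : ℂ) * ∑ j, (c t j : ℂ) * β ^ ((j : ℕ) + 1) =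
      ∑ j : Fin (d - 1), ((∑ t : Fin k, g t.succ * c t j : ℚ) : ℂ) * β ^ ((j : ℕ) + 1) := by
    simp only [Finset.mul_sum]
    rw [Finset.sum_comm]
    refine Finset.sum_congr rfl fun j _ => ?_
    push_cast
    rw [Finset.sum_mul]
    exact Finset.sum_congr rfl fun t _ => by ring
  rw [h1] at hg
  obtain ⟨h2, h3⟩ := hp _ _ hg
  have h4 := Fintype.linearIndependent_iff.1 hc (fun t => g t.succ) (by
    funext j
    rw [Finset.sum_apply]
    simp only [Pi.smul_apply, smul_eq_mul, Pi.zero_apply]
    exact h3 j)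
  intro i
  refine Fin.cases h2 (fun t => h4 t) i

/-- Independence of rational combinations. -/
theorem gCore_lind {n n' : ℕ} (l : Fin n → ℂ) (hl : LinearIndependent ℚ l)
    (w : Fin n' → Fin n → ℚ) (hw : LinearIndependent ℚ w) :
    LinearIndependent ℚ (fun s => ∑ i, (w s i : ℂ) * l i) := by
  classical
  rw [Fintype.linearIndependent_iff]
  intro g hg
  have h1 : ∑ s, g s • ∑ i, (w s i : ℂ) * l i = ∑ i, (∑ s, g s * w s i : ℚ) • l i := by
    simp only [Algebra.smul_def, eq_ratCast, Finset.mul_sum]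
    rw [Finset.sum_comm]
    refine Finset.sum_congr rfl fun j _ => ?_
    push_cast
    rw [Finset.sum_mul]
    exact Finset.sum_congr rfl fun t _ => by ring
  rw [h1] at hg
  have h2 := Fintype.linearIndependent_iff.1 hl _ hg
  exact Fintype.linearIndependent_iff.1 hw g (by
    funext i
    rw [Finset.sum_apply]
    simp only [Pi.smul_apply, smul_eq_mul, Pi.zero_apply]
    exact h2 i)

/-- A power of an exponential as a Laurent monomial. -/
theorem gCore_mon {n d : ℕ} (β : ℂ) (l : Fin n → ℂ) (w : Fin n → ℚ) (c : Fin (d - 1) → ℚ) (N : ℕ)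
    (ξ : Fin n → Fin (d - 1) → ℤ) (h : ∀ i j, (ξ i j : ℚ) = N * (w i * c j)) :
    Complex.exp ((∑ j, (c j : ℂ) * β ^ ((j : ℕ) + 1)) * ∑ i, (w i : ℂ) * l i) ^ N =
      mon (fun i (j : Fin (d - 1)) => Complex.exp (β ^ ((j : ℕ) + 1) * l i)) ξ := by
  rw [mon, ← Complex.exp_nat_mul]
  simp only [← Complex.exp_int_mul, ← Complex.exp_sum]
  congr 1
  rw [Finset.sum_mul_sum, Finset.sum_comm]
  simp only [Finset.mul_sum]
  refine Finset.sum_congr rfl fun i _ => Finset.sum_congr rfl fun j _ => ?_
  have h1 : ((ξ i j : ℤ) : ℂ) = (N : ℂ) * ((w i : ℂ) * (c j : ℂ)) := by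
    have := congrArg (fun q : ℚ => (q : ℂ)) (h i j)
    push_cast at this
    exact this
  rw [h1]
  ring

/-- G13 -/
theorem pr_GCore (h1 : S_TI) (h2 : S_AxOut) (h3 : S_Cases) (h4 : S_LinAlg) (h5 : S_DenseK) :
    S_GCore := by
  classical
  intro d hd
  choose M hM using h1
  refine ⟨d * d + (Finset.range (d + 1)).sup M, ?_⟩
  intro β hβ hdeg n hn l hl hexp
  set y : Fin n → Fin (d - 1) → ℂ := fun i j => Complex.exp (β ^ ((j : ℕ) + 1) * l i) with hy
  have hy0 : ∀ i j, y i j ≠ 0 := fun i j => Complex.exp_ne_zero _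
  -- the generic point
  set S1 : Set ℂ := Set.range l ∪ Set.range (fun p : Fin n × Fin (d - 1) => y p.1 p.2) with hS1
  have hS1c : S1.Countable := (Set.countable_range _).union (Set.countable_range _)
  obtain ⟨v, hv, -⟩ := h5 (Fin n) S1 hS1c (fun _ => 0) 1 one_pos
  refine ⟨v, ?_⟩
  have hle : rk l y v ≤ d := by
    have := Submodule.finrank_le ((TT v).map (om l y v))
    have h6 : Module.finrank ℂ (Option (Fin (d - 1)) → ℂ) = d := by
      rw [Module.finrank_fintype_fun_eq_card, Fintype.card_option, Fintype.card_fin]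
      omega
    rw [h6] at this
    exact this
  by_contra hne
  have hlt : rk l y v < d := lt_of_le_of_ne hle hne
  obtain ⟨G, hG⟩ := h2 n (d - 1) l y v hy0
  have hu : ug G v ≤ rk l y v := by
    have := hG 0 Fin.elim0 (fun t => t.elim0) (by
      rw [algebraicIndependent_empty_type_iff]
      exact (algebraMap (IntermediateField.adjoin ℚ (Set.range v)) ℂ).injective)
    omega
  set Y : Set ℂ := {z | ∃ ξ ∈ G, z = mon y ξ} with hY
  have hK : IntermediateField.adjoin ℚ (Set.range l ∪ Y) ≤ IntermediateField.adjoin ℚ S1 := by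
    rw [IntermediateField.adjoin_le_iff]
    rintro z (⟨i, rfl⟩ | ⟨ξ, -, rfl⟩)
    · exact IntermediateField.subset_adjoin ℚ _ (Or.inl ⟨i, rfl⟩)
    · refine prod_mem fun i _ => prod_mem fun j _ => zpow_mem ?_ _
      exact IntermediateField.subset_adjoin ℚ _ (Or.inr ⟨(i, j), rfl⟩)
  have hv1 : AlgebraicIndependent (IntermediateField.adjoin ℚ (Set.range l ∪ Y)) v :=
    gCore_mono hK v hv
  have hvQ : AlgebraicIndependent ℚ v :=
    hv.restrictScalars (K := IntermediateField.adjoin ℚ S1) (algebraMap ℚ _).injective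
  have hcases := h3 n l Y v (rk l y v - ug G v) hv1 (by
    intro k f hf hfi
    have := hG k f hf hfi
    omega)
  obtain ⟨Cs, Vs, hCs, hVs, hCV⟩ := h4 n (d - 1) G v hvQ
  -- the numbers
  obtain ⟨k, hk⟩ : ∃ k, d = ug G v + k + 1 := ⟨d - 1 - ug G v, by omega⟩
  have hkC : k ≤ Module.finrank ℚ Cs := by omega
  obtain ⟨c, hc⟩ := exists_linearIndependent_of_le_finrank hkC
  have hc' : LinearIndependent ℚ (fun t => (c t : Fin (d - 1) → ℚ)) :=
    hc.map' Cs.subtype (Submodule.ker_subtype _)
  obtain ⟨w, hw⟩ := exists_linearIndependent_of_le_finrank (le_refl (Module.finrank ℚ Vs))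
  have hw' : LinearIndependent ℚ (fun t => (w t : Fin n → ℚ)) :=
    hw.map' Vs.subtype (Submodule.ker_subtype _)
  set b' : Fin (k + 1) → ℂ :=
    Fin.cons 1 (fun t => ∑ j, ((c t : Fin (d - 1) → ℚ) j : ℂ) * β ^ ((j : ℕ) + 1)) with hb'
  set l' : Fin (Module.finrank ℚ Vs) → ℂ := fun s => ∑ i, ((w s : Fin n → ℚ) i : ℂ) * l i with hl'
  have hb'ind : LinearIndependent ℚ b' := gCore_bind hd β hdeg _ hc'
  have hl'ind : LinearIndependent ℚ l' := gCore_lind l hl _ hw'
  have hb'alg : ∀ j, IsAlgebraic ℚ (b' j) := by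
    intro j
    refine Fin.cases ?_ (fun t => ?_) j
    · exact isAlgebraic_one
    · change IsAlgebraic ℚ (∑ j, ((c t : Fin (d - 1) → ℚ) j : ℂ) * β ^ ((j : ℕ) + 1))
      refine gCore_sum _ _ fun j _ => ?_
      exact (isAlgebraic_algebraMap (R := ℚ) (A := ℂ) _).mul (hβ.pow _)
  have hl'alg : ∀ s, IsAlgebraic ℚ (Complex.exp (l' s)) := fun s => gCore_exp l hexp _
  have hn' : M (k + 1) ≤ Module.finrank ℚ Vs := by
    have h6 : M (k + 1) ≤ (Finset.range (d + 1)).sup M :=
      Finset.le_sup (Finset.mem_range.2 (by omega))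
    have h7 : (d - 1) * (d - 1) ≤ d * d := Nat.mul_le_mul (Nat.sub_le _ _) (Nat.sub_le _ _)
    omega
  obtain ⟨⟨s1, hs1⟩, ⟨s2, hs2⟩⟩ := hM (k + 1) b' hb'alg hb'ind _ hn' l' hl'ind hl'alg
  -- algebraicity over `ℚ(Y)`
  have hYalg : ∀ s j, IsAlgebraic (IntermediateField.adjoin ℚ Y) (Complex.exp (b' j * l' s)) := by
    intro s j
    refine Fin.cases ?_ (fun t => ?_) j
    · rw [hb', Fin.cons_zero, one_mul]
      exact (hl'alg s).tower_top _
    · obtain ⟨N, hN, ξ, hξ, hξe⟩ := hCV (c t) (c t).2 (w s) (w s).2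
      apply IsAlgebraic.of_pow (Nat.pos_of_ne_zero hN)
      have h6 : Complex.exp (b' t.succ * l' s) ^ N = mon y ξ := gCore_mon β l _ _ N ξ hξe
      rw [h6]
      exact isAlgebraic_algebraMap (R := IntermediateField.adjoin ℚ Y) (A := ℂ)
        ⟨mon y ξ, IntermediateField.subset_adjoin ℚ _ ⟨ξ, hξ, rfl⟩⟩
  rcases hcases with hA | hB
  · have := hA (k + 1 - 1) _ (fun t => hYalg _ _) hs2
    omega
  · have := hB (k + 1) _ (fun t => ?_) hs1
    · omega
    · cases h : s1 t with
      | inl s =>
        have h6 : cd b' l' (Sum.inl s) = l' s := rfl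
        rw [h6]
        have h7 : l' s ∈ IntermediateField.adjoin ℚ (Set.range l ∪ Y) := by
          refine sum_mem fun i _ => mul_mem ?_ ?_
          · exact (IntermediateField.adjoin ℚ (Set.range l ∪ Y)).algebraMap_mem _
          · exact IntermediateField.subset_adjoin ℚ _ (Or.inl ⟨i, rfl⟩)
        exact isAlgebraic_algebraMap (R := IntermediateField.adjoin ℚ (Set.range l ∪ Y)) (A := ℂ)
          ⟨_, h7⟩
      | inr p =>
        have h6 : cd b' l' (Sum.inr p) = Complex.exp (b' p.2 * l' p.1) := rfl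
        rw [h6]
        have hle2 : IntermediateField.adjoin ℚ Y ≤ IntermediateField.adjoin ℚ (Set.range l ∪ Y) :=
          IntermediateField.adjoin.mono _ _ _ Set.subset_union_right
        let _ : Algebra (IntermediateField.adjoin ℚ Y)
          (IntermediateField.adjoin ℚ (Set.range l ∪ Y)) :=
          (IntermediateField.inclusion hle2).toRingHom.toAlgebra
        have _ : IsScalarTower (IntermediateField.adjoin ℚ Y)
          (IntermediateField.adjoin ℚ (Set.range l ∪ Y)) ℂ :=
          IsScalarTower.of_algebraMap_eq fun x => rfl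
        exact (hYalg p.1 p.2).tower_top _

end Pool.Agent.Work.MP_327059_nt.GL

end

section

/-!
# PART G, item GP
-/

set_option autoImplicit false

namespace Pool.Agent.Work.MP_327059_nt.GL

open Pool.Agent.ED

theorem GP_der_prod_zpow {κ' : Type} (s : Finset κ') (E : κ' → ℂ) (hE : ∀ l, E l ≠ 0) (m : κ' → ℤ)
    (X : Derivation ℚ ℂ ℂ) :
    X (∏ l ∈ s, E l ^ m l) / (∏ l ∈ s, E l ^ m l) = ∑ l ∈ s, (m l : ℂ) * (X (E l) / E l) := by
  classical
  induction s using Finset.induction_on with
  | empty => simp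
  | insert a s ha ih =>
    have h1 : (∏ l ∈ s, E l ^ m l) ≠ 0 := Finset.prod_ne_zero_iff.2 fun l _ => zpow_ne_zero _ (hE l)
    have h2 : E a ^ m a ≠ 0 := zpow_ne_zero _ (hE a)
    rw [Finset.prod_insert ha, Finset.sum_insert ha, ← ih, Derivation.leibniz,
      Derivation.leibniz_zpow]
    simp only [smul_eq_mul, zsmul_eq_mul]
    rw [zpow_sub_one₀ (hE a)]
    have h3 := hE a
    field_simp
    ring

/-- logarithmic derivative of an exponential of a rational combination -/
theorem GP_dlog {n : ℕ} (x : Fin n → ℂ) (b : ℂ) (w : Fin n → ℚ) (X : Derivation ℚ ℂ ℂ) :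
    X (Complex.exp (b * ∑ i, (w i : ℂ) * x i)) / Complex.exp (b * ∑ i, (w i : ℂ) * x i) =
      ∑ i, (w i : ℂ) * (X (Complex.exp (b * x i)) / Complex.exp (b * x i)) := by
  classical
  set N : ℕ := ∏ i, (w i).den with hN
  have hN0 : N ≠ 0 := Finset.prod_ne_zero_iff.2 fun i _ => (w i).den_nz
  have hint : ∀ i, ∃ k : ℤ, (k : ℚ) = N * w i := by
    intro i
    obtain ⟨d, hd⟩ : (w i).den ∣ N := Finset.dvd_prod_of_mem _ (Finset.mem_univ i)
    refine ⟨d * (w i).num, ?_⟩
    have h1 : ((w i).den : ℚ) * w i = (w i).num := Rat.den_mul_eq_num _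
    rw [hd]
    push_cast
    linear_combination (-(d : ℚ)) * h1
  choose k hk using hint
  have hkC : ∀ i, ((k i : ℤ) : ℂ) = N * (w i : ℂ) := by
    intro i
    have := congrArg (fun q : ℚ => (q : ℂ)) (hk i)
    push_cast at this
    exact this
  set z := Complex.exp (b * ∑ i, (w i : ℂ) * x i) with hz
  have hz0 : z ≠ 0 := Complex.exp_ne_zero _
  have hpow : z ^ (N : ℤ) = ∏ i, Complex.exp (b * x i) ^ k i := by
    rw [hz, ← Complex.exp_int_mul]
    have h1 : ∀ i, Complex.exp (b * x i) ^ k i = Complex.exp ((k i : ℂ) * (b * x i)) := by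
      intro i
      rw [Complex.exp_int_mul]
    simp only [h1]
    rw [← Complex.exp_sum]
    congr 1
    rw [Finset.mul_sum, Finset.mul_sum]
    refine Finset.sum_congr rfl fun i _ => ?_
    rw [hkC]
    push_cast
    ring
  have h2 := GP_der_prod_zpow Finset.univ (fun i => Complex.exp (b * x i))
    (fun i => Complex.exp_ne_zero _) k X
  rw [← hpow] at h2
  have h3 := GP_der_prod_zpow (Finset.univ : Finset Unit) (fun _ => z) (fun _ => hz0)
    (fun _ => (N : ℤ)) X
  simp only [Finset.univ_unique, Finset.prod_singleton, Finset.sum_singleton] at h3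
  rw [h3] at h2
  have hNC : (N : ℂ) ≠ 0 := by exact_mod_cast hN0
  have h4 : ((N : ℤ) : ℂ) * (X z / z) =
      (N : ℂ) * ∑ i, (w i : ℂ) * (X (Complex.exp (b * x i)) / Complex.exp (b * x i)) := by
    rw [h2, Finset.mul_sum]
    refine Finset.sum_congr rfl fun i _ => ?_
    rw [hkC]
    ring
  push_cast at h4
  exact mul_left_cancel₀ hNC h4

/-- jacobian criterion by derivations -/
theorem GP_jac {σ : Type} [Fintype σ] [DecidableEq σ] (z : σ → ℂ) (δ : σ → Derivation ℚ ℂ ℂ)
    (h : (Matrix.of fun o o' => δ o (z o')).det ≠ 0) : AlgebraicIndependent ℚ z := by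
  obtain ⟨s, hs, hcard⟩ := exists_finset_rank (K := ℚ) z
  have hli : LinearIndependent ℂ (fun o : σ => fun o' => δ o (z o')) := by
    have h1 : IsUnit (Matrix.of fun o o' => δ o (z o')) :=
      (Matrix.isUnit_iff_isUnit_det _).2 (isUnit_iff_ne_zero.2 h)
    exact Matrix.linearIndependent_rows_iff_isUnit.2 h1
  have hle : Fintype.card σ ≤ s.card := by
    rw [← hcard]
    have h2 : LinearIndependent ℂ (fun o : σ => (⟨fun o' => δ o (z o'),
        Submodule.subset_span ⟨δ o, rfl⟩⟩ : Submodule.span ℂ
        (Set.range fun X : Derivation ℚ ℂ ℂ => fun i => X (z i)))) := by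
      apply LinearIndependent.of_comp (Submodule.subtype _)
      exact hli
    exact h2.fintype_card_le_finrank
  have hsu : s = Finset.univ := by
    apply Finset.eq_univ_of_card
    exact le_antisymm (Finset.card_le_univ s) hle
  subst hsu
  exact hs.comp (fun o => (⟨o, Finset.mem_univ o⟩ : (Finset.univ : Finset σ)))
    (fun a b hab => congrArg Subtype.val hab)

theorem GP_detHom {σ : Type} [Fintype σ] [DecidableEq σ] {n : ℕ}
    (A : Matrix σ σ (MvPolynomial (Fin n) ℂ)) (hA : ∀ i j, (A i j).IsHomogeneous 1) :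
    A.det.IsHomogeneous (Fintype.card σ) := by
  rw [Matrix.det_apply']
  apply MvPolynomial.IsHomogeneous.sum
  intro τ _
  have h1 : (∏ i, A (τ i) i).IsHomogeneous (∑ _i : σ, 1) :=
    MvPolynomial.IsHomogeneous.prod _ _ _ (fun i _ => hA _ _)
  have h2 : ((Equiv.Perm.sign τ : ℤ) : MvPolynomial (Fin n) ℂ) =
      MvPolynomial.C ((Equiv.Perm.sign τ : ℤ) : ℂ) := by
    rw [map_intCast]
  rw [h2]
  have h3 := (MvPolynomial.isHomogeneous_C (Fin n) ((Equiv.Perm.sign τ : ℤ) : ℂ)).mul h1
  simpa using h3

theorem pr_GP : S_GP := by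
  classical
  intro n m x b v hrk
  have htop : (TT v).map (om x (fun i j => Complex.exp (b j * x i)) v) = ⊤ := by
    apply Submodule.eq_top_of_finrank_eq
    rw [Module.finrank_fintype_fun_eq_card, Fintype.card_option, Fintype.card_fin]
    exact hrk
  have hex : ∀ o : Option (Fin m), ∃ δ ∈ TT v,
      om x (fun i j => Complex.exp (b j * x i)) v δ = Pi.single o 1 := by
    intro o
    have : (Pi.single o 1 : Option (Fin m) → ℂ) ∈
        (TT v).map (om x (fun i j => Complex.exp (b j * x i)) v) := by rw [htop]; trivial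
    obtain ⟨δ, h1, h2⟩ := Submodule.mem_map.1 this
    exact ⟨δ, h1, h2⟩
  choose δ hδT hδ using hex
  let p : Option (Fin m) → Option (Fin m) → MvPolynomial (Fin n) ℂ := fun o o' =>
    o'.elim (∑ i, MvPolynomial.C (δ o (x i)) * MvPolynomial.X i)
      (fun j => ∑ i, MvPolynomial.C (δ o (Complex.exp (b j * x i)) / Complex.exp (b j * x i)) *
        MvPolynomial.X i)
  have hev : ∀ (u : Fin n → ℂ) o o', MvPolynomial.eval u (p o o') =
      om x (fun i j => Complex.exp (b j * x i)) u (δ o) o' := by
    intro u o o'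
    cases o' with
    | none =>
      change MvPolynomial.eval u (∑ i, MvPolynomial.C (δ o (x i)) * MvPolynomial.X i) =
        ∑ i, u i * δ o (x i)
      rw [map_sum]
      refine Finset.sum_congr rfl fun i _ => ?_
      simp only [map_mul, MvPolynomial.eval_C, MvPolynomial.eval_X]
      ring
    | some j =>
      change MvPolynomial.eval u (∑ i, MvPolynomial.C
          (δ o (Complex.exp (b j * x i)) / Complex.exp (b j * x i)) * MvPolynomial.X i) =
        ∑ i, u i * (δ o (Complex.exp (b j * x i)) / Complex.exp (b j * x i))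
      rw [map_sum]
      refine Finset.sum_congr rfl fun i _ => ?_
      simp only [map_mul, MvPolynomial.eval_C, MvPolynomial.eval_X]
      ring
  let P : MvPolynomial (Fin n) ℂ := (Matrix.of p).det
  have hPev : ∀ u : Fin n → ℂ, MvPolynomial.eval u P =
      (Matrix.of fun o o' => om x (fun i j => Complex.exp (b j * x i)) u (δ o) o').det := by
    intro u
    change MvPolynomial.eval u (Matrix.of p).det = _
    rw [RingHom.map_det]
    congr 1
    ext o o'
    exact hev u o o'
  refine ⟨P, ?_, ?_, ?_⟩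
  · intro h0
    have h1 := hPev v
    rw [h0, map_zero] at h1
    have h2 : (Matrix.of fun o o' => om x (fun i j => Complex.exp (b j * x i)) v (δ o) o') =
        (1 : Matrix (Option (Fin m)) (Option (Fin m)) ℂ) := by
      ext o o'
      rw [Matrix.of_apply, hδ o, Matrix.one_apply, Pi.single_apply]
      by_cases h : o = o'
      · simp [h]
      · rw [if_neg h, if_neg (fun h' => h h'.symm)]
    rw [h2, Matrix.det_one] at h1
    exact zero_ne_one h1
  · have h1 := GP_detHom (Matrix.of p) (fun o o' => by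
      cases o' with
      | none =>
        change (∑ i, MvPolynomial.C (δ o (x i)) * MvPolynomial.X i :
          MvPolynomial (Fin n) ℂ).IsHomogeneous 1
        exact MvPolynomial.IsHomogeneous.sum _ _ _ fun i _ =>
          MvPolynomial.isHomogeneous_C_mul_X _ _
      | some j =>
        change (∑ i, MvPolynomial.C
          (δ o (Complex.exp (b j * x i)) / Complex.exp (b j * x i)) * MvPolynomial.X i :
          MvPolynomial (Fin n) ℂ).IsHomogeneous 1
        exact MvPolynomial.IsHomogeneous.sum _ _ _ fun i _ =>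
          MvPolynomial.isHomogeneous_C_mul_X _ _)
    rw [Fintype.card_option, Fintype.card_fin] at h1
    exact h1
  · intro w hw
    rw [hPev] at hw
    let z : Option (Fin m) → ℂ := fun o =>
      o.elim (∑ i, (w i : ℂ) * x i) (fun j => Complex.exp (b j * ∑ i, (w i : ℂ) * x i))
    let c : Option (Fin m) → ℂ := fun o =>
      o.elim 1 (fun j => Complex.exp (b j * ∑ i, (w i : ℂ) * x i))
    have hc : ∀ o, c o ≠ 0 := by
      intro o
      cases o with
      | none => exact one_ne_zero
      | some j => exact Complex.exp_ne_zero _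
    have hz : ∀ o o', δ o (z o') =
        om x (fun i j => Complex.exp (b j * x i)) (fun i => (w i : ℂ)) (δ o) o' * c o' := by
      intro o o'
      cases o' with
      | none =>
        change δ o (∑ i, (w i : ℂ) * x i) = (∑ i, (w i : ℂ) * δ o (x i)) * 1
        rw [map_sum, mul_one]
        refine Finset.sum_congr rfl fun i _ => ?_
        rw [Derivation.leibniz]
        have h5 : δ o ((w i : ℚ) : ℂ) = 0 := by
          have := (δ o).map_algebraMap (w i)
          simpa using this
        rw [h5, smul_zero, add_zero, smul_eq_mul]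
      | some j =>
        change δ o (Complex.exp (b j * ∑ i, (w i : ℂ) * x i)) =
          (∑ i, (w i : ℂ) * (δ o (Complex.exp (b j * x i)) / Complex.exp (b j * x i))) *
            Complex.exp (b j * ∑ i, (w i : ℂ) * x i)
        rw [← GP_dlog x (b j) w (δ o)]
        rw [div_mul_cancel₀ _ (Complex.exp_ne_zero _)]
    have hdet : (Matrix.of fun o o' => δ o (z o')).det ≠ 0 := by
      have h6 : (Matrix.of fun o o' => δ o (z o')) =
          (Matrix.of fun o o' => om x (fun i j => Complex.exp (b j * x i))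
            (fun i => (w i : ℂ)) (δ o) o') * Matrix.diagonal c := by
        ext o o'
        rw [Matrix.mul_diagonal]
        exact hz o o'
      rw [h6, Matrix.det_mul, Matrix.det_diagonal]
      exact mul_ne_zero hw (Finset.prod_ne_zero_iff.2 fun o _ => hc o)
    exact GP_jac z δ hdet

end Pool.Agent.Work.MP_327059_nt.GL

end

section

set_option autoImplicit false

namespace Pool.Agent.Work.MP_327059_nt.GL

open MvPolynomial

/-- specialisation of a relation between a generic combination and its coefficients -/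
theorem GenComb_spec {n : ℕ} (x : Fin n → ℂ) (v : Fin n → ℂ) (L K : IntermediateField ℚ ℂ)
    (hLK : L ≤ K) (hx : ∀ i, x i ∈ K) (hv : AlgebraicIndependent K v)
    (P : MvPolynomial (Option (Fin n)) L)
    (hP : aeval (fun o : Option (Fin n) => o.elim (∑ i, v i * x i) v) P = 0) (w : Fin n → ℂ) :
    aeval (fun o : Option (Fin n) => o.elim (∑ i, w i * x i) w) P = 0 := by
  let ι : L →+* K := (IntermediateField.inclusion hLK).toRingHom
  let ψ : MvPolynomial (Option (Fin n)) L →+* MvPolynomial (Fin n) K :=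
    eval₂Hom ((C : K →+* MvPolynomial (Fin n) K).comp ι)
      (fun o : Option (Fin n) => o.elim (∑ i, X i * C (⟨x i, hx i⟩ : K)) X)
  have key : ∀ w : Fin n → ℂ, ∀ P : MvPolynomial (Option (Fin n)) L, aeval w (ψ P) =
      aeval (fun o : Option (Fin n) => o.elim (∑ i, w i * x i) w) P := by
    intro w P
    have : (aeval w : MvPolynomial (Fin n) K →ₐ[K] ℂ).toRingHom.comp ψ =
        (aeval (fun o : Option (Fin n) => o.elim (∑ i, w i * x i) w) :
          MvPolynomial (Option (Fin n)) L →ₐ[L] ℂ).toRingHom := by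
      refine ringHom_ext ?_ ?_
      · intro a
        simp only [AlgHom.toRingHom_eq_coe, RingHom.coe_comp, RingHom.coe_coe, Function.comp_apply,
          ψ, coe_eval₂Hom, eval₂_C, aeval_C]
        rfl
      · intro o
        cases o with
        | none =>
          simp only [AlgHom.toRingHom_eq_coe, RingHom.coe_comp, RingHom.coe_coe,
            Function.comp_apply, ψ, coe_eval₂Hom, eval₂_X, aeval_X, Option.elim, map_sum, map_mul,
            aeval_C]
          rfl
        | some i =>
          simp only [AlgHom.toRingHom_eq_coe, RingHom.coe_comp, RingHom.coe_coe,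
            Function.comp_apply, ψ, coe_eval₂Hom, eval₂_X, aeval_X, Option.elim]
    exact congrArg (fun f => f P) this
  have h0 : aeval v (ψ P) = 0 := by rw [key, hP]
  have h1 : ψ P = 0 := by
    have := hv.eq_zero_of_aeval_eq_zero _ h0
    exact this
  rw [← key, h1, map_zero]

/-- there is a nonzero relation -/
theorem GenComb_rel {n : ℕ} (Y : Set ℂ) (v : Fin n → ℂ) (s : ℂ)
    (_hv : AlgebraicIndependent (IntermediateField.adjoin ℚ Y) v)
    (hs : IsAlgebraic (IntermediateField.adjoin ℚ (Set.range v ∪ Y)) s) :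
    ∃ P : MvPolynomial (Option (Fin n)) (IntermediateField.adjoin ℚ Y), P ≠ 0 ∧
      aeval (fun o : Option (Fin n) => o.elim s v) P = 0 := by
  by_contra hcon
  push Not at hcon
  have hind : AlgebraicIndependent (IntermediateField.adjoin ℚ Y)
      (fun o : Option (Fin n) => o.elim s v) := by
    rw [algebraicIndependent_iff]
    intro p hp
    by_contra hp0
    exact hcon p hp0 hp
  have h1 := (AlgebraicIndependent.option_iff.1 hind).2
  have h2 : Transcendental (IntermediateField.adjoin (IntermediateField.adjoin ℚ Y) (Set.range v)) s :=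
    IntermediateField.transcendental_adjoin_iff.2 h1
  apply h2
  rw [Set.union_comm, ← IntermediateField.adjoin_adjoin_left] at hs
  exact hs

/-- two good points at distance one in a given direction -/
theorem GenComb_pts {σ L : Type} [Fintype σ] [DecidableEq σ] [Field L] [Infinite L] (P : MvPolynomial σ L)
    (hP : P ≠ 0) (e : σ → L) : ∃ y : σ → L, eval y P ≠ 0 ∧ eval (y + e) P ≠ 0 := by
  by_contra hcon
  push Not at hcon
  let Q : MvPolynomial σ L := bind₁ (fun o => X o + C (e o)) P
  have hQ : ∀ y, eval y Q = eval (y + e) P := by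
    intro y
    have : ∀ R : MvPolynomial σ L, eval y (bind₁ (fun o => X o + C (e o)) R) = eval (y + e) R := by
      intro R
      induction R using MvPolynomial.induction_on with
      | C a => simp
      | add p q hp hq => simp only [map_add, hp, hq]
      | mul_X p i hp => simp only [map_mul, hp, bind₁_X_right, map_add, eval_X, eval_C, Pi.add_apply]
    exact this P
  have h1 : P * Q = 0 := by
    refine MvPolynomial.funext ?_
    intro y
    rw [map_mul, map_zero, hQ]
    by_cases h : eval y P = 0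
    · rw [h, zero_mul]
    · rw [hcon y h, mul_zero]
  have h2 : Q = 0 := (mul_eq_zero.1 h1).resolve_left hP
  apply hP
  refine MvPolynomial.funext ?_
  intro y
  have h3 := hQ (y - e)
  rw [h2, map_zero, sub_add_cancel] at h3
  rw [← h3, map_zero]

theorem pr_GenComb : S_GenComb := by
  classical
  intro n x Y v hv hs i
  set L := IntermediateField.adjoin ℚ Y with hL
  set K := IntermediateField.adjoin ℚ (Set.range x ∪ Y) with hK
  have hLK : L ≤ K := IntermediateField.adjoin.mono ℚ _ _ Set.subset_union_right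
  have hxK : ∀ i, x i ∈ K := fun i => IntermediateField.subset_adjoin ℚ _ (Or.inl ⟨i, rfl⟩)
  have hvL : AlgebraicIndependent L v := by
    letI : Algebra L K := (IntermediateField.inclusion hLK).toRingHom.toAlgebra
    have : IsScalarTower L K ℂ := IsScalarTower.of_algebraMap_eq (fun x => rfl)
    exact hv.restrictScalars (IntermediateField.inclusion hLK).toRingHom.injective
  obtain ⟨P, hP0, hP⟩ := GenComb_rel Y v _ hvL hs
  have hspec := GenComb_spec x v L K hLK hxK hv P hP
  obtain ⟨y, hy1, hy2⟩ := GenComb_pts P hP0 (fun o => if o = some i then (1 : L) else 0)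
  have halg : ∀ u : Option (Fin n) → L, eval u P ≠ 0 →
      IsAlgebraic L (∑ j, (u (some j) : ℂ) * x j) := by
    intro u hu
    let q : Polynomial L := aeval (fun o : Option (Fin n) =>
      o.elim Polynomial.X (fun j => Polynomial.C (u (some j)))) P
    have hq : ∀ t : L, q.eval t = eval (fun o : Option (Fin n) => o.elim t (fun j => u (some j))) P := by
      intro t
      have : ∀ R : MvPolynomial (Option (Fin n)) L, (aeval (fun o : Option (Fin n) =>
          o.elim Polynomial.X (fun j => Polynomial.C (u (some j)))) R : Polynomial L).eval t =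
          eval (fun o : Option (Fin n) => o.elim t (fun j => u (some j))) R := by
        intro R
        induction R using MvPolynomial.induction_on with
        | C a => simp
        | add p q hp hq => simp only [map_add, Polynomial.eval_add, hp, hq]
        | mul_X p o hp =>
          simp only [map_mul, Polynomial.eval_mul, hp, aeval_X, eval_X]
          cases o <;> simp
      exact this P
    refine ⟨q, ?_, ?_⟩
    · intro h0
      apply hu
      have h1 := hq (u none)
      rw [h0, Polynomial.eval_zero] at h1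
      rw [h1]
      congr 2
      funext o
      cases o <;> rfl
    · have h2 : ∀ R : MvPolynomial (Option (Fin n)) L,
          Polynomial.aeval (∑ j, (u (some j) : ℂ) * x j) (aeval (fun o : Option (Fin n) =>
          o.elim Polynomial.X (fun j => Polynomial.C (u (some j)))) R : Polynomial L) =
          aeval (fun o : Option (Fin n) => o.elim (∑ j, (u (some j) : ℂ) * x j)
            (fun j => (u (some j) : ℂ))) R := by
        intro R
        induction R using MvPolynomial.induction_on with
        | C a => simp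
        | add p q hp hq => simp only [map_add, hp, hq]
        | mul_X p o hp =>
          simp only [map_mul, hp, aeval_X]
          cases o with
          | none => simp
          | some j =>
            simp only [Option.elim, Polynomial.aeval_C]
            rfl
      rw [h2]
      exact hspec (fun j => (u (some j) : ℂ))
  have h1 := halg y hy1
  have h2 := halg _ hy2
  have h3 : x i = (∑ j, ((y + fun o => if o = some i then (1 : L) else 0) (some j) : ℂ) * x j) -
      ∑ j, (y (some j) : ℂ) * x j := by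
    rw [← Finset.sum_sub_distrib, Finset.sum_eq_single i]
    · simp only [Pi.add_apply, if_true]
      push_cast
      ring
    · intro j _ hj
      have hne : ¬ (some j = some i) := fun h => hj (Option.some_injective _ h)
      simp only [Pi.add_apply, if_neg hne, add_zero, sub_self]
    · intro h
      exact absurd (Finset.mem_univ i) h
  rw [h3]
  exact h2.sub h1

end Pool.Agent.Work.MP_327059_nt.GL

end

section

/-!
# G08: the generic rank is attained at rational points
-/

set_option autoImplicit false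

namespace Pool.Agent.Work.MP_327059_nt.GL

open MvPolynomial

/-- the generic matrix -/
noncomputable def GenRankM {n m N : ℕ} (bb : Fin N → Fin n → Fin m → ℚ) :
    Matrix (Fin N) (Fin m) (MvPolynomial (Fin n) ℚ) :=
  Matrix.of fun t j => ∑ i, C (bb t i j) * X i

/-- the specialised matrix -/
noncomputable def GenRankK (K : Type) [Field K] [Algebra ℚ K] {n m N : ℕ}
    (bb : Fin N → Fin n → Fin m → ℚ) (w : Fin n → K) : Matrix (Fin N) (Fin m) K :=
  Matrix.of fun t j => ∑ i, w i * algebraMap ℚ K (bb t i j)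

theorem GenRank_det (K : Type) [Field K] [Algebra ℚ K] {n m N p : ℕ}
    (bb : Fin N → Fin n → Fin m → ℚ) (w : Fin n → K) (e : Fin p → Fin N) (f : Fin p → Fin m) :
    ((GenRankK K bb w).submatrix e f).det = aeval w ((GenRankM bb).submatrix e f).det := by
  rw [AlgHom.map_det]
  congr 1
  ext i j
  simp only [GenRankK, GenRankM, Matrix.submatrix_apply, Matrix.of_apply, AlgHom.mapMatrix_apply,
    Matrix.map_apply, map_sum, map_mul, aeval_X, algHom_C]
  exact Finset.sum_congr rfl fun _ _ => mul_comm _ _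

theorem GenRank_span (K : Type) [Field K] {n m N : ℕ}
    (cc : Fin N → Fin n → Fin m → K) (w : Fin n → K) (A : Matrix (Fin N) (Fin m) K)
    (hA : ∀ t j, A t j = ∑ i, w i * cc t i j) :
    Module.finrank K ((Submodule.span K (Set.range cc)).map (mv w)) = A.rank := by
  have h : (Submodule.span K (Set.range cc)).map (mv w) = Submodule.span K (Set.range A.row) := by
    rw [Submodule.map_span, ← Set.range_comp]
    congr 2
    funext t
    funext j
    exact (hA t j).symm
  rw [h, ← Matrix.rank_eq_finrank_span_row]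

theorem pr_GenRank : S_GenRank := by
  intro n m B v hv u hu
  classical
  let bs := Module.finBasis ℚ B
  let bb : Fin (Module.finrank ℚ B) → Fin n → Fin m → ℚ := fun t => (bs t : Fin n → Fin m → ℚ)
  have hB : B = Submodule.span ℚ (Set.range bb) := by
    have h1 : Submodule.span ℚ (Set.range bb) = (Submodule.span ℚ (Set.range bs)).map B.subtype := by
      rw [Submodule.map_span, ← Set.range_comp]
      rfl
    rw [h1, bs.span_eq, Submodule.map_top, Submodule.range_subtype]
  have hQ : ∀ w : Fin n → ℚ, Module.finrank ℚ (B.map (mv w)) = (GenRankK ℚ bb w).rank := by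
    intro w
    have h1 := GenRank_span ℚ bb w (GenRankK ℚ bb w) (fun t j => rfl)
    rw [← hB] at h1
    exact h1
  have hC : u = (GenRankK ℂ bb v).rank := by
    have h1 := GenRank_span ℂ (fun t i j => (bb t i j : ℂ)) v (GenRankK ℂ bb v) (fun t j => rfl)
    have hs : Submodule.span ℂ {b : Fin n → Fin m → ℂ | ∃ b0 ∈ B, b = fun i j => (b0 i j : ℂ)} =
        Submodule.span ℂ (Set.range fun t i j => (bb t i j : ℂ)) := by
      apply le_antisymm
      · apply Submodule.span_le.2
        rintro b ⟨b0, hb0, rfl⟩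
        let c : (Fin n → Fin m → ℚ) →ₗ[ℚ] (Fin n → Fin m → ℂ) :=
          { toFun := fun b i j => (b i j : ℂ)
            map_add' := fun a b => by
              funext i j
              simp
            map_smul' := fun r a => by
              funext i j
              simp [Rat.smul_def] }
        have h2 : B ≤ ((Submodule.span ℂ (Set.range fun t i j => (bb t i j : ℂ))).restrictScalars
            ℚ).comap c := by
          refine hB.le.trans (Submodule.span_le.2 ?_)
          rintro _ ⟨t, rfl⟩
          exact Submodule.subset_span ⟨t, rfl⟩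
        exact h2 hb0
      · apply Submodule.span_le.2
        rintro _ ⟨t, rfl⟩
        exact Submodule.subset_span ⟨bb t, (bs t).2, rfl⟩
    rw [← h1, ← hu, hs]
  have hle : ∀ w : Fin n → ℚ, Module.finrank ℚ (B.map (mv w)) ≤ u := by
    intro w
    rw [hQ, hC]
    obtain ⟨e, f, hef⟩ := Pool.Agent.RW.exists_minor (GenRankK ℚ bb w) rfl
    apply Pool.Agent.RW.le_rank_of_minor (e := e) (f := f)
    rw [GenRank_det] at hef ⊢
    intro h0
    apply hef
    have h3 : ((GenRankM bb).submatrix e f).det = 0 := by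
      apply (injective_iff_map_eq_zero (aeval v : MvPolynomial (Fin n) ℚ →ₐ[ℚ] ℂ)).1 hv
      exact h0
    rw [h3, map_zero]
  refine ⟨?_, hle⟩
  obtain ⟨e, f, hef⟩ := Pool.Agent.RW.exists_minor (GenRankK ℂ bb v) hC.symm
  rw [GenRank_det] at hef
  have h4 : ((GenRankM bb).submatrix e f).det ≠ 0 := by
    intro h0
    rw [h0, map_zero] at hef
    exact hef rfl
  have h5 : ∃ v0 : Fin n → ℚ, eval v0 ((GenRankM bb).submatrix e f).det ≠ 0 := by
    by_contra hcon
    apply h4
    apply MvPolynomial.funext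
    intro x
    rw [map_zero]
    by_contra hx
    exact hcon ⟨x, hx⟩
  obtain ⟨v0, hv0⟩ := h5
  refine ⟨v0, le_antisymm (hle v0) ?_⟩
  rw [hQ]
  apply Pool.Agent.RW.le_rank_of_minor (e := e) (f := f)
  rw [GenRank_det]
  exact hv0

end Pool.Agent.Work.MP_327059_nt.GL

end

section

/-!
# PART G, item LinAlg
-/

set_option autoImplicit false

namespace Pool.Agent.Work.MP_327059_nt.GL

/-- pairing of the columns with a subspace -/
noncomputable def LinAlg_pair {m : ℕ} (U : Submodule ℚ (Fin m → ℚ)) :
    (Fin m → ℚ) →ₗ[ℚ] (Module.Dual ℚ U) :=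
  LinearMap.mk₂ ℚ (fun (c : Fin m → ℚ) (x : U) => ∑ j, c j * (x : Fin m → ℚ) j)
    (fun a b x => by simp only [Pi.add_apply, add_mul, Finset.sum_add_distrib])
    (fun r a x => by
      simp only [Pi.smul_apply, smul_eq_mul]
      rw [Finset.mul_sum]
      exact Finset.sum_congr rfl fun j _ => by ring)
    (fun a x y => by
      simp only [Submodule.coe_add, Pi.add_apply, mul_add, Finset.sum_add_distrib])
    (fun r a x => by
      simp only [Submodule.coe_smul, Pi.smul_apply, smul_eq_mul]
      rw [Finset.mul_sum]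
      exact Finset.sum_congr rfl fun j _ => by ring)

theorem LinAlg_pair_apply {m : ℕ} (U : Submodule ℚ (Fin m → ℚ)) (c : Fin m → ℚ) (x : U) :
    LinAlg_pair U c x = ∑ j, c j * (x : Fin m → ℚ) j := rfl

/-- `w ↦ mv w b`. -/
noncomputable def LinAlg_ev {n m : ℕ} (b : Fin n → Fin m → ℚ) : (Fin n → ℚ) →ₗ[ℚ] (Fin m → ℚ) where
  toFun w := mv w b
  map_add' x y := by
    funext j
    change ∑ i, (x + y) i * b i j = ∑ i, x i * b i j + ∑ i, y i * b i j
    simp only [Pi.add_apply, add_mul, Finset.sum_add_distrib]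
  map_smul' c x := by
    funext j
    change ∑ i, (c • x) i * b i j = c * ∑ i, x i * b i j
    rw [Finset.mul_sum]
    exact Finset.sum_congr rfl fun i _ => by simp only [Pi.smul_apply, smul_eq_mul]; ring

theorem LinAlg_ev_apply {n m : ℕ} (b : Fin n → Fin m → ℚ) (w : Fin n → ℚ) :
    LinAlg_ev b w = mv w b := rfl

theorem pr_LinAlg (h1 : S_GenRank) (h2 : S_RankInc) (h3 : S_AnnExt) (h4 : S_DoubleAnn) :
    S_LinAlg := by
  intro n m G v hv
  obtain ⟨⟨v0, hv0⟩, hle⟩ := h1 n m (annQ G) v hv (ug G v) (by rw [← h3 n m G]; rfl)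
  set U : Submodule ℚ (Fin m → ℚ) := (annQ G).map (mv v0) with hU
  have hR := h2 n m (annQ G) v0 (fun w => by rw [← hU, hv0]; exact hle w)
  -- the space Cs
  let Cs : Submodule ℚ (Fin m → ℚ) := LinearMap.ker (LinAlg_pair U)
  have hCs : m ≤ Module.finrank ℚ Cs + ug G v := by
    have h5 := LinearMap.finrank_range_add_finrank_ker (LinAlg_pair U)
    have h6 : Module.finrank ℚ (LinearMap.range (LinAlg_pair U)) ≤ Module.finrank ℚ (Module.Dual ℚ U) :=
      Submodule.finrank_le _
    rw [Subspace.dual_finrank_eq, hv0] at h6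
    rw [Module.finrank_fin_fun] at h5
    change _ ≤ Module.finrank ℚ (LinearMap.ker (LinAlg_pair U)) + _
    omega
  -- basis vectors
  let bs := Module.finBasis ℚ U
  have hb : ∀ k, ∃ b ∈ annQ G, mv v0 b = ((bs k : U) : Fin m → ℚ) := by
    intro k
    have h7 : ((bs k : U) : Fin m → ℚ) ∈ (annQ G).map (mv v0) := (bs k).2
    obtain ⟨b, hbB, hbe⟩ := Submodule.mem_map.1 h7
    exact ⟨b, hbB, hbe⟩
  choose b hbB hbe using hb
  let Φ : (Fin n → ℚ) →ₗ[ℚ] (Fin (Module.finrank ℚ U) → ((Fin m → ℚ) ⧸ U)) :=
    LinearMap.pi (fun k => U.mkQ.comp (LinAlg_ev (b k)))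
  have hΦ : ∀ w k, Φ w k = U.mkQ (mv w (b k)) := fun w k => rfl
  let Vs : Submodule ℚ (Fin n → ℚ) := LinearMap.ker Φ
  have hum : Module.finrank ℚ U ≤ m := by
    have := Submodule.finrank_le U
    rwa [Module.finrank_fin_fun] at this
  have hVs : n ≤ Module.finrank ℚ Vs + m * m := by
    have h5 := LinearMap.finrank_range_add_finrank_ker Φ
    have h6 : Module.finrank ℚ (LinearMap.range Φ) ≤
        Module.finrank ℚ (Fin (Module.finrank ℚ U) → ((Fin m → ℚ) ⧸ U)) :=
      Submodule.finrank_le _
    rw [Module.finrank_pi_fintype] at h6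
    simp only [Finset.sum_const, Finset.card_univ, Fintype.card_fin, smul_eq_mul] at h6
    have h7 : Module.finrank ℚ ((Fin m → ℚ) ⧸ U) ≤ m := by
      have := Submodule.finrank_quotient_add_finrank U
      rw [Module.finrank_fin_fun] at this
      omega
    have h8 := Nat.mul_le_mul hum h7
    rw [Module.finrank_fin_fun] at h5
    change _ ≤ Module.finrank ℚ (LinearMap.ker Φ) + _
    omega
  have hVmem : ∀ w ∈ Vs, ∀ β ∈ annQ G, mv w β ∈ U := by
    intro w hw β hβ
    have hw' : ∀ k, mv w (b k) ∈ U := by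
      intro k
      have h9 : Φ w = 0 := hw
      have h10 : U.mkQ (mv w (b k)) = 0 := by rw [← hΦ, h9]; rfl
      rwa [Submodule.mkQ_apply, Submodule.Quotient.mk_eq_zero] at h10
    have hmem : mv v0 β ∈ U := Submodule.mem_map_of_mem hβ
    let c := bs.repr ⟨mv v0 β, hmem⟩
    have hsum : (∑ k, c k • ((bs k : U) : Fin m → ℚ)) = mv v0 β := by
      have h11 := bs.sum_repr ⟨mv v0 β, hmem⟩
      have h12 : U.subtype (∑ k, c k • bs k) = mv v0 β := by
        rw [show (∑ k, c k • bs k) = ⟨mv v0 β, hmem⟩ from h11]; rfl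
      rw [map_sum] at h12
      rw [← h12]
      exact Finset.sum_congr rfl fun k _ => by rw [map_smul]; rfl
    let β' : Fin n → Fin m → ℚ := β - ∑ k, c k • b k
    have hβ'B : β' ∈ annQ G :=
      (annQ G).sub_mem hβ (Submodule.sum_mem _ fun k _ => (annQ G).smul_mem _ (hbB k))
    have hβ'0 : mv v0 β' = 0 := by
      change mv v0 (β - ∑ k, c k • b k) = 0
      rw [map_sub, map_sum, ← hsum]
      simp only [map_smul, hbe, sub_self]
    have h13 := hR β' hβ'B hβ'0 w
    have h14 : mv w β = mv w β' + ∑ k, c k • mv w (b k) := by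
      change _ = mv w (β - ∑ k, c k • b k) + _
      rw [map_sub, map_sum]
      simp only [map_smul, sub_add_cancel]
    rw [h14]
    exact U.add_mem h13 (Submodule.sum_mem _ fun k _ => U.smul_mem _ (hw' k))
  refine ⟨Cs, Vs, hCs, hVs, fun c hc w hw => ?_⟩
  obtain ⟨N, hN, ξ, hξ, he⟩ := h4 n m G (fun i j => w i * c j) (fun β hβ => by
    have h15 := hVmem w hw β hβ
    have h16 : LinAlg_pair U c = 0 := hc
    have h17 : ∑ j, c j * (mv w β) j = 0 := by
      have := LinAlg_pair_apply U c ⟨mv w β, h15⟩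
      rw [h16] at this
      simpa using this.symm
    rw [Finset.sum_comm]
    rw [← h17]
    refine Finset.sum_congr rfl fun j _ => ?_
    change _ = c j * ∑ i, w i * β i j
    rw [Finset.mul_sum]
    exact Finset.sum_congr rfl fun i _ => by ring)
  exact ⟨N, hN, ξ, hξ, he⟩

end Pool.Agent.Work.MP_327059_nt.GL

end

section

/-!
# PART G: Theorem G
-/

set_option autoImplicit false

namespace Pool.Agent.Work.MP_327059_nt.GL

/-- The reindexing `0 ↦ none`, `j + 1 ↦ some j`. -/
def main_e (d : ℕ) (j : Fin d) : Option (Fin (d - 1)) :=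
  if h : (j : ℕ) = 0 then none else some ⟨(j : ℕ) - 1, by have := j.isLt; omega⟩

theorem main_e_inj (d : ℕ) : Function.Injective (main_e d) := by
  intro a b hab
  unfold main_e at hab
  by_cases ha : (a : ℕ) = 0
  · by_cases hb : (b : ℕ) = 0
    · exact Fin.ext (by omega)
    · rw [dif_pos ha, dif_neg hb] at hab
      exact absurd hab (by simp)
  · by_cases hb : (b : ℕ) = 0
    · rw [dif_neg ha, dif_pos hb] at hab
      exact absurd hab (by simp)
    · rw [dif_neg ha, dif_neg hb, Option.some.injEq, Fin.mk.injEq] at hab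
      exact Fin.ext (by omega)

theorem pr_Main (h1 : S_GCore) (h2 : S_GP) : S_Main := by
  intro d hd
  obtain ⟨n₀, hn₀⟩ := h1 d hd
  refine ⟨n₀, fun β hβ hβd n hn l hl hlog => ?_⟩
  obtain ⟨v, hv⟩ := hn₀ β hβ hβd n hn l hl hlog
  obtain ⟨P, hP0, hPh, hP⟩ := h2 n (d - 1) l (fun j => β ^ ((j : ℕ) + 1)) v (by
    rw [hv]; omega)
  have hdd : d - 1 + 1 = d := by omega
  rw [hdd] at hPh
  refine ⟨P, hP0, hPh, fun w hw => ?_⟩
  have h := (hP w hw).comp (main_e d) (main_e_inj d)
  convert h using 1
  funext j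
  simp only [Function.comp_apply]
  by_cases hj : (j : ℕ) = 0
  · have : main_e d j = none := by unfold main_e; rw [dif_pos hj]
    rw [this, if_pos hj]
    rfl
  · have : main_e d j = some ⟨(j : ℕ) - 1, by have := j.isLt; omega⟩ := by
      unfold main_e; rw [dif_neg hj]
    rw [this, if_neg hj]
    simp only [Option.elim]
    have hj' : (j : ℕ) - 1 + 1 = j := by omega
    rw [hj']

end Pool.Agent.Work.MP_327059_nt.GL

end

section

set_option autoImplicit false

namespace Pool.Agent.Work.MP_327059_nt.GL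

theorem pr_RankInc : S_RankInc := by
  classical
  intro n m B v0 hmax b hb hb0 w
  by_contra hw
  set U : Submodule ℚ (Fin m → ℚ) := B.map (mv v0) with hU
  set u := Module.finrank ℚ U with hu
  let e := Module.finBasis ℚ U
  have hpre : ∀ k : Fin u, ∃ c ∈ B, mv v0 c = (e k : Fin m → ℚ) := by
    intro k
    obtain ⟨c, hc1, hc2⟩ := Submodule.mem_map.mp
      (show ((e k : U) : Fin m → ℚ) ∈ B.map (mv v0) from (e k).2)
    exact ⟨c, hc1, hc2⟩
  choose c hcB hc using hpre
  -- the independent family at the point `v0`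
  let F0 : Option (Fin u) → (Fin m → ℚ) := fun o => o.elim (mv w b) (fun k => (e k : Fin m → ℚ))
  have hF0 : LinearIndependent ℚ F0 := by
    have he : LinearIndependent ℚ (fun k : Fin u => (e k : Fin m → ℚ)) := by
      have h1 := e.linearIndependent
      exact h1.map' U.subtype (Submodule.ker_subtype U)
    have hspan : Submodule.span ℚ (Set.range (fun k : Fin u => (e k : Fin m → ℚ))) = U := by
      have h1 : Set.range (fun k : Fin u => (e k : Fin m → ℚ)) = U.subtype '' (Set.range e) := by
        rw [← Set.range_comp]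
        rfl
      rw [h1, Submodule.span_image, e.span_eq, Submodule.map_top, Submodule.range_subtype]
    have h2 := linearIndependent_option (K := ℚ) (v := F0)
    rw [h2]
    refine ⟨he, ?_⟩
    show mv w b ∉ Submodule.span ℚ (Set.range (fun k : Fin u => (e k : Fin m → ℚ)))
    rw [hspan]
    exact hw
  obtain ⟨L, hL⟩ := LinearMap.exists_leftInverse_of_injective (Fintype.linearCombination ℚ F0)
    (by
      rw [LinearMap.ker_eq_bot]
      exact hF0.fintypeLinearCombination_injective)
  have hLF : ∀ o, L (F0 o) = Pi.single o 1 := by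
    intro o
    have h1 : Fintype.linearCombination ℚ F0 (Pi.single o 1) = F0 o := by
      simp
    rw [← h1]
    exact LinearMap.congr_fun hL (Pi.single o 1)
  -- the matrix
  let N : Matrix (Option (Fin u)) (Option (Fin u)) ℚ :=
    Matrix.of fun o => o.elim 0 (fun k => L (mv w (c k)))
  have hpoly : ((-N).charpoly * Polynomial.X) ≠ 0 :=
    mul_ne_zero (Matrix.charpoly_monic _).ne_zero Polynomial.X_ne_zero
  obtain ⟨s, hs⟩ := Polynomial.exists_eval_ne_zero_of_natDegree_lt_card _ hpoly (by
    rw [Cardinal.mk_eq_aleph0 ℚ]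
    exact Cardinal.natCast_lt_aleph0)
  rw [Polynomial.eval_mul, Polynomial.eval_X] at hs
  have hs0 : s ≠ 0 := right_ne_zero_of_mul hs
  have hdet : (s • (1 : Matrix (Option (Fin u)) (Option (Fin u)) ℚ) + N).det ≠ 0 := by
    have h1 := left_ne_zero_of_mul hs
    rw [Matrix.eval_charpoly] at h1
    have h2 : (Matrix.scalar (Option (Fin u))) s - -N =
        s • (1 : Matrix (Option (Fin u)) (Option (Fin u)) ℚ) + N := by
      rw [sub_neg_eq_add, Matrix.smul_one_eq_diagonal, Matrix.scalar_apply]
    rwa [h2] at h1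
  set v1 : Fin n → ℚ := s • v0 + w with hv1
  have hmv : ∀ a : Fin n → Fin m → ℚ, mv v1 a = s • mv v0 a + mv w a := by
    intro a
    funext j
    simp only [mv, LinearMap.coe_mk, AddHom.coe_mk, hv1, Pi.add_apply, Pi.smul_apply, smul_eq_mul,
      Finset.mul_sum]
    rw [← Finset.sum_add_distrib]
    exact Finset.sum_congr rfl fun i _ => by ring
  let G : Option (Fin u) → (B.map (mv v1)) := fun o => o.elim
    ⟨mv v1 (s • b), Submodule.mem_map_of_mem (B.smul_mem s hb)⟩
    (fun k => ⟨mv v1 (c k), Submodule.mem_map_of_mem (hcB k)⟩)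
  have hG : LinearIndependent ℚ G := by
    have h1 : LinearIndependent ℚ (fun o => L ((G o : B.map (mv v1)) : Fin m → ℚ)) := by
      have h2 : LinearIndependent ℚ (fun o : Option (Fin u) =>
          (s • (1 : Matrix (Option (Fin u)) (Option (Fin u)) ℚ) + N) o) :=
        Matrix.linearIndependent_rows_of_det_ne_zero hdet
      have h4 : (fun o => L ((G o : B.map (mv v1)) : Fin m → ℚ)) = (fun o : Option (Fin u) =>
          (s • (1 : Matrix (Option (Fin u)) (Option (Fin u)) ℚ) + N) o) := ?_
      · rw [h4]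
        exact h2
      funext o
      cases o with
      | none =>
        have h3 : ((G none : B.map (mv v1)) : Fin m → ℚ) = s • F0 none := by
          show mv v1 (s • b) = s • mv w b
          rw [map_smul, hmv, hb0, smul_zero, zero_add]
        rw [h3, map_smul, hLF]
        funext o'
        simp [N, Matrix.one_apply, Pi.single_apply, eq_comm]
      | some k =>
        have h3 : ((G (some k) : B.map (mv v1)) : Fin m → ℚ) = s • F0 (some k) + mv w (c k) := by
          show mv v1 (c k) = s • (e k : Fin m → ℚ) + mv w (c k)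
          rw [hmv, hc k]
        rw [h3, map_add, map_smul, hLF]
        funext o'
        simp [N, Matrix.one_apply, Pi.single_apply, eq_comm]
    exact LinearIndependent.of_comp (L.comp (B.map (mv v1)).subtype) h1
  have hcard := hG.fintype_card_le_finrank
  rw [Fintype.card_option, Fintype.card_fin] at hcard
  have := hmax v1
  omega

end Pool.Agent.Work.MP_327059_nt.GL

end

section

/-!
# PART G, item Stab (helper31): spaces stable under derivations are spanned by constant vectors
-/

set_option autoImplicit false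

namespace Pool.Agent.Work.MP_327059_nt.GL

theorem pr_Stab : S_Stab := by
  classical
  intro m U DS hU
  let supp : (Fin m → ℂ) → Finset (Fin m) := fun u => Finset.univ.filter (fun i => u i ≠ 0)
  have hsupp : ∀ u i, i ∈ supp u ↔ u i ≠ 0 := fun u i => by simp [supp]
  -- a nonzero vector of minimal support is constant up to a factor
  have key : ∀ n : ℕ, ∀ u ∈ U, u ≠ 0 → (supp u).card ≤ n →
      ∃ v ∈ U, v ≠ 0 ∧ supp v ⊆ supp u ∧ ∀ j, ∀ D ∈ DS, D (v j) = 0 := by
    intro n
    induction n with
    | zero =>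
      intro u _ hne hc
      exfalso
      apply hne
      funext i
      by_contra hi
      have : i ∈ supp u := (hsupp u i).2 hi
      have h0 : (supp u).card = 0 := by omega
      rw [Finset.card_eq_zero] at h0
      rw [h0] at this
      simp at this
    | succ n ih =>
      intro u hu hne hc
      obtain ⟨i0, hi0⟩ : ∃ i, u i ≠ 0 := by
        by_contra h
        push Not at h
        exact hne (funext h)
      let w : Fin m → ℂ := (u i0)⁻¹ • u
      have hwU : w ∈ U := U.smul_mem _ hu
      have hw0 : w i0 = 1 := by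
        change (u i0)⁻¹ * u i0 = 1
        exact inv_mul_cancel₀ hi0
      have hws : ∀ i, u i = 0 → w i = 0 := fun i hi => by
        change (u i0)⁻¹ * u i = 0
        rw [hi, mul_zero]
      have hwsub : supp w ⊆ supp u := by
        intro i hi
        rw [hsupp] at hi ⊢
        exact fun h => hi (hws i h)
      by_cases hDw : ∀ D ∈ DS, (fun i => D (w i)) = 0
      · refine ⟨w, hwU, ?_, hwsub, fun j D hD => congrFun (hDw D hD) j⟩
        intro h
        rw [h] at hw0
        exact zero_ne_one hw0
      · push Not at hDw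
        obtain ⟨D, hD, hDw⟩ := hDw
        have hsub : supp (fun i => D (w i)) ⊆ (supp u).erase i0 := by
          intro i hi
          rw [hsupp] at hi
          rw [Finset.mem_erase]
          refine ⟨?_, ?_⟩
          · rintro rfl
            apply hi
            simp only [hw0]
            exact D.map_one_eq_zero
          · rw [hsupp]
            intro h
            apply hi
            simp only [hws i h, map_zero]
        have hcard : (supp (fun i => D (w i))).card ≤ n := by
          have h1 := Finset.card_le_card hsub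
          rw [Finset.card_erase_of_mem ((hsupp u i0).2 hi0)] at h1
          omega
        obtain ⟨v, hv, hv0, hvs, hvc⟩ := ih _ (hU D hD w hwU) hDw hcard
        exact ⟨v, hv, hv0, (hvs.trans hsub).trans (Finset.erase_subset _ _), hvc⟩
  have main : ∀ n : ℕ, ∀ u ∈ U, (supp u).card ≤ n →
      u ∈ Submodule.span ℂ {e : Fin m → ℂ | e ∈ U ∧ ∀ j, ∀ D ∈ DS, D (e j) = 0} := by
    intro n
    induction n with
    | zero =>
      intro u _ hc
      have : u = 0 := by
        funext i
        by_contra hi
        have hm : i ∈ supp u := (hsupp u i).2 hi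
        have h0 : (supp u).card = 0 := by omega
        rw [Finset.card_eq_zero] at h0
        rw [h0] at hm
        simp at hm
      rw [this]
      exact Submodule.zero_mem _
    | succ n ih =>
      intro u hu hc
      by_cases hne : u = 0
      · rw [hne]; exact Submodule.zero_mem _
      obtain ⟨v, hv, hv0, hvs, hvc⟩ := key _ u hu hne le_rfl
      obtain ⟨i1, hi1⟩ : ∃ i, v i ≠ 0 := by
        by_contra h
        push Not at h
        exact hv0 (funext h)
      have hvspan : v ∈ Submodule.span ℂ
          {e : Fin m → ℂ | e ∈ U ∧ ∀ j, ∀ D ∈ DS, D (e j) = 0} :=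
        Submodule.subset_span ⟨hv, hvc⟩
      let u' : Fin m → ℂ := u - (u i1 * (v i1)⁻¹) • v
      have hu'U : u' ∈ U := U.sub_mem hu (U.smul_mem _ hv)
      have hi1u : i1 ∈ supp u := hvs ((hsupp v i1).2 hi1)
      have hsub : supp u' ⊆ (supp u).erase i1 := by
        intro i hi
        rw [hsupp] at hi
        rw [Finset.mem_erase]
        refine ⟨?_, ?_⟩
        · rintro rfl
          apply hi
          change u i - (u i * (v i)⁻¹) * v i = 0
          rw [mul_assoc, inv_mul_cancel₀ hi1, mul_one, sub_self]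
        · by_contra h
          have h1 : u i = 0 := by
            by_contra h2
            exact h ((hsupp u i).2 h2)
          have h2 : v i = 0 := by
            by_contra h3
            exact h (hvs ((hsupp v i).2 h3))
          apply hi
          change u i - (u i1 * (v i1)⁻¹) * v i = 0
          rw [h1, h2, mul_zero, sub_zero]
      have hcard : (supp u').card ≤ n := by
        have h1 := Finset.card_le_card hsub
        rw [Finset.card_erase_of_mem hi1u] at h1
        have h2 : 0 < (supp u).card := Finset.card_pos.2 ⟨i1, hi1u⟩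
        omega
      have h3 := ih u' hu'U hcard
      have h4 : u = u' + (u i1 * (v i1)⁻¹) • v := by
        change u = u - (u i1 * (v i1)⁻¹) • v + (u i1 * (v i1)⁻¹) • v
        rw [sub_add_cancel]
      rw [h4]
      exact Submodule.add_mem _ h3 (Submodule.smul_mem _ _ hvspan)
  intro a ha
  exact main _ a ha le_rfl

end Pool.Agent.Work.MP_327059_nt.GL

end

section

/-!
# Item T09 (`S_LiB`): Liouville bound for linear forms in algebraic numbers
-/

set_option autoImplicit false

namespace Pool.Agent.Work.MP_327059_nt.GL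

theorem LiB_isVal {m : ℕ} (b : Fin m → ℂ) (w : Fin m → ℤ) (s : Finset (Fin m)) :
    AA.IsVal b 1 (∑ j ∈ s, |(w j : ℝ)|) (∑ j ∈ s, (w j : ℂ) * b j) := by
  classical
  induction s using Finset.induction_on with
  | empty =>
    have h := AA.IsVal.int (x := b) 0
    have h' := AA.IsVal.mono (D' := 1) (H' := 0) (Nat.zero_le 1) (by simp) h
    simpa using h'
  | insert a s ha ih =>
    rw [Finset.sum_insert ha, Finset.sum_insert ha]
    refine AA.IsVal.add ?_ ih
    have h := AA.IsVal.mul (AA.IsVal.int (x := b) (w a)) (AA.IsVal.var (x := b) a)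
    simpa using h

theorem pr_LiB : S_LiB := by
  intro m b hb hli
  obtain ⟨C, hC, hL⟩ := AA.pr_Liou (AA.pr_NL (AA.pr_Cramer AA.pr_DetRow)) m b hb
  obtain ⟨c, hc⟩ := exists_nat_ge (C * (2 + Real.log (m + 1)) / Real.log 2 + C)
  refine ⟨c, fun w hw W hW hwW => ?_⟩
  have hW0 : (0 : ℝ) < W := by linarith
  have hm1 : (1 : ℝ) ≤ (m : ℝ) + 1 := by
    have : (0 : ℝ) ≤ m := Nat.cast_nonneg m
    linarith
  have hξ : ∑ j, (w j : ℂ) * b j ≠ 0 := by
    intro h0
    have h1 : ∑ j, ((w j : ℚ)) • b j = 0 := by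
      rw [← h0]
      refine Finset.sum_congr rfl (fun j _ => ?_)
      rw [Algebra.smul_def]
      simp
    have h2 := Fintype.linearIndependent_iff.1 hli (fun j => (w j : ℚ)) h1
    apply hw
    funext j
    have := h2 j
    exact_mod_cast this
  have hH : (1 : ℝ) ≤ ((m : ℝ) + 1) * W := by nlinarith
  have hsum : (∑ j, |(w j : ℝ)|) ≤ ((m : ℝ) + 1) * W := by
    calc (∑ j, |(w j : ℝ)|) ≤ ∑ _j : Fin m, W := Finset.sum_le_sum (fun j _ => hwW j)
      _ = (m : ℝ) * W := by simp
      _ ≤ ((m : ℝ) + 1) * W := by nlinarith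
  have h1 := hL 1 (((m : ℝ) + 1) * W) _ hH
    (AA.IsVal.mono le_rfl hsum (LiB_isVal b w Finset.univ)) hξ
  have hlog : Real.log (((m : ℝ) + 1) * W) = Real.log (m + 1) + Real.log W :=
    Real.log_mul (by positivity) (by positivity)
  have hlog2 : 0 < Real.log 2 := Real.log_pos (by norm_num)
  have hlogW : Real.log 2 ≤ Real.log W := Real.log_le_log (by norm_num) hW
  have hlogm : 0 ≤ Real.log ((m : ℝ) + 1) := Real.log_nonneg hm1
  have hA : 0 ≤ C * (2 + Real.log (m + 1)) := by positivity
  have h2 : C * (((1 : ℕ) : ℝ) + 1 + Real.log (((m : ℝ) + 1) * W)) ≤ c * Real.log W := by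
    rw [hlog]
    have h3 : C * (2 + Real.log (m + 1)) ≤ C * (2 + Real.log (m + 1)) / Real.log 2 * Real.log W := by
      rw [div_mul_eq_mul_div, le_div_iff₀ hlog2]
      exact mul_le_mul_of_nonneg_left hlogW hA
    have h4 : (C * (2 + Real.log (m + 1)) / Real.log 2 + C) * Real.log W ≤ c * Real.log W :=
      mul_le_mul_of_nonneg_right hc (by linarith)
    push_cast
    nlinarith
  have h5 : Real.exp (C * (((1 : ℕ) : ℝ) + 1 + Real.log (((m : ℝ) + 1) * W))) ≤ W ^ c := by
    calc _ ≤ Real.exp (c * Real.log W) := Real.exp_le_exp.2 h2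
      _ = W ^ c := by
        rw [← Real.log_pow, Real.exp_log (by positivity)]
  have h6 : 1 ≤ ‖∑ j, (w j : ℂ) * b j‖ * W ^ c :=
    h1.trans (mul_le_mul_of_nonneg_left h5 (norm_nonneg _))
  rw [inv_le_iff_one_le_mul₀ (by positivity)]
  linarith

end Pool.Agent.Work.MP_327059_nt.GL

end
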