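import Mathlib
import Pool.Agent.Work.MP_327059_nt.GL.StmtsT
import Pool.Agent.Work.MP_327059_nt.Bd.B03

/-! Bundle of small proof modules (one section per former module). -/

section

set_option autoImplicit false

namespace Pool.Agent.Work.MP_327059_nt.GL

theorem LiL_zpow {r : ℕ} {x : Fin r → ℂ} {a b : ℂ} (ha : AA.IsVal x 1 1 a) (hb : AA.IsVal x 1 1 b)
    (hab : b = a⁻¹) (s : ℤ) : AA.IsVal x s.natAbs 1 (a ^ s) := by
  have key : ∀ (c : ℂ), AA.IsVal x 1 1 c → ∀ k : ℕ, AA.IsVal x k 1 (c ^ k) := by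
    intro c hc k
    induction k with
    | zero => simpa using AA.IsVal.int (x := x) 1
    | succ k ih =>
      have := AA.IsVal.mul ih hc
      rw [pow_succ]
      simpa using this
  rcases Int.natAbs_eq s with h | h
  · have h1 := key a ha s.natAbs
    have h2 : a ^ s = a ^ s.natAbs := by
      conv_lhs => rw [h]
      rw [zpow_natCast]
    rw [h2]; exact h1
  · have h1 := key b hb s.natAbs
    have h2 : a ^ s = b ^ s.natAbs := by
      conv_lhs => rw [h]
      rw [zpow_neg, zpow_natCast, hab, inv_pow]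
    rw [h2]; exact h1

theorem LiL_prod {r n : ℕ} {x : Fin r → ℂ} {a b : Fin n → ℂ} (ha : ∀ i, AA.IsVal x 1 1 (a i))
    (hb : ∀ i, AA.IsVal x 1 1 (b i)) (hab : ∀ i, b i = (a i)⁻¹) (s : Fin n → ℤ)
    (t : Finset (Fin n)) : AA.IsVal x (∑ i ∈ t, (s i).natAbs) 1 (∏ i ∈ t, a i ^ s i) := by
  classical
  induction t using Finset.induction_on with
  | empty => simpa using AA.IsVal.int (x := x) 1
  | insert i t hi ih =>
    rw [Finset.sum_insert hi, Finset.prod_insert hi]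
    have := AA.IsVal.mul (LiL_zpow (ha i) (hb i) (hab i) (s i)) ih
    simpa using this

theorem pr_LiL : S_LiL := by
  classical
  intro n l hl halg
  let x : Fin (n + n) → ℂ := Fin.append (fun i => Complex.exp (l i)) (fun i => Complex.exp (-(l i)))
  have hx : ∀ i, IsAlgebraic ℚ (x i) := by
    intro i
    refine Fin.addCases (fun j => ?_) (fun j => ?_) i
    · simp only [x, Fin.append_left]; exact halg j
    · simp only [x, Fin.append_right]
      rw [Complex.exp_neg]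
      exact (halg j).inv
  obtain ⟨C, hC, hL⟩ := AA.pr_Liou (AA.pr_NL (AA.pr_Cramer AA.pr_DetRow)) (n + n) x hx
  refine ⟨C * (n + 2) + 1, ?_, ?_⟩
  · have : 0 ≤ C * (n + 2) := by positivity
    linarith
  intro s hs S hS
  set z : ℂ := ∑ i, (s i : ℂ) * l i with hz
  obtain ⟨i0, hi0⟩ : ∃ i, s i ≠ 0 := by
    by_contra h
    push Not at h
    exact hs (funext h)
  have hS1 : 1 ≤ S := by
    have h1 : (1 : ℤ) ≤ |s i0| := Int.one_le_abs hi0
    have h2 : (1 : ℝ) ≤ |(s i0 : ℝ)| := by exact_mod_cast h1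
    exact h2.trans (hS i0)
  have hB0 : 0 ≤ (C * (n + 2) + 1) * S := by positivity
  rcases le_or_gt ‖z‖ 1 with hz1 | hz1
  swap
  · refine le_trans ?_ hz1.le
    rw [Real.exp_le_one_iff]
    linarith
  have hz0 : z ≠ 0 := by
    intro h0
    have h1 := Fintype.linearIndependent_iff.1 hl (fun i => (s i : ℚ)) (by
      rw [← h0, hz]
      refine Finset.sum_congr rfl fun i _ => ?_
      rw [Algebra.smul_def]
      simp)
    have := h1 i0
    simp at this
    exact hi0 this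
  have hv0 : Complex.exp z - 1 ≠ 0 := by
    intro h0
    have h1 : Complex.exp z = 1 := sub_eq_zero.1 h0
    obtain ⟨k, hk⟩ := Complex.exp_eq_one_iff.1 h1
    have hk0 : k ≠ 0 := by
      intro h; rw [h] at hk; simp at hk; exact hz0 hk
    have h2 : ‖z‖ = |(k : ℝ)| * (2 * Real.pi) := by
      rw [hk, norm_mul, norm_mul, norm_mul, Complex.norm_I, Complex.norm_intCast]
      simp [abs_of_pos Real.pi_pos]
    have h3 : (1 : ℝ) ≤ |(k : ℝ)| := by exact_mod_cast Int.one_le_abs hk0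
    have h4 := Real.pi_gt_three
    nlinarith [mul_le_mul_of_nonneg_right h3 (by positivity : (0 : ℝ) ≤ 2 * Real.pi)]
  have hexp : Complex.exp z = ∏ i, Complex.exp (l i) ^ s i := by
    rw [hz, Complex.exp_sum]
    refine Finset.prod_congr rfl fun i _ => ?_
    rw [← Complex.exp_int_mul]
  have hval : AA.IsVal x (∑ i, (s i).natAbs) (1 + 1) (Complex.exp z - 1) := by
    have h1 := LiL_prod (x := x) (a := fun i => Complex.exp (l i))
      (b := fun i => Complex.exp (-(l i)))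
      (fun i => by simpa [x] using AA.IsVal.var (x := x) (Fin.castAdd n i))
      (fun i => by
        have h2 := AA.IsVal.var (x := x) (Fin.natAdd n i)
        have h3 : x (Fin.natAdd n i) = Complex.exp (-(l i)) := Fin.append_right _ _ _
        rwa [h3] at h2)
      (fun i => Complex.exp_neg _) s Finset.univ
    rw [← hexp] at h1
    have h2 : AA.IsVal x (∑ i, (s i).natAbs) 1 (-1) := by
      have := AA.IsVal.int (x := x) (-1)
      refine AA.IsVal.mono (Nat.zero_le _) ?_ (by simpa using this)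
      simp
    have := AA.IsVal.add h1 h2
    simpa [sub_eq_add_neg] using this
  have h5 := hL _ _ _ (by norm_num) hval hv0
  have hD : ((∑ i, (s i).natAbs : ℕ) : ℝ) ≤ n * S := by
    push_cast
    calc ∑ i, (((s i).natAbs : ℕ) : ℝ) ≤ ∑ _i : Fin n, S := by
          refine Finset.sum_le_sum fun i _ => ?_
          rw [Nat.cast_natAbs]
          push_cast
          exact hS i
      _ = n * S := by simp
  have hlog : Real.log (1 + 1) ≤ 1 := by
    have := Real.log_two_lt_d9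
    norm_num
    linarith
  have h6 : ‖Complex.exp z - 1‖ ≤ 2 * ‖z‖ := Complex.norm_exp_sub_one_le hz1
  have h7 : (1 : ℝ) ≤ 2 * ‖z‖ * Real.exp (C * (n * S + 2)) := by
    refine h5.trans ?_
    refine mul_le_mul h6 ?_ (Real.exp_pos _).le (by positivity)
    refine Real.exp_le_exp.2 (mul_le_mul_of_nonneg_left ?_ (by linarith))
    linarith
  have h8 : 2 * Real.exp (C * (n * S + 2)) ≤ Real.exp ((C * (n + 2) + 1) * S) := by
    have h9 : (2 : ℝ) ≤ Real.exp 1 := by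
      have := Real.add_one_le_exp (1 : ℝ); linarith
    calc 2 * Real.exp (C * (n * S + 2)) ≤ Real.exp 1 * Real.exp (C * (n * S + 2)) := by
          exact mul_le_mul_of_nonneg_right h9 (Real.exp_pos _).le
      _ = Real.exp (1 + C * (n * S + 2)) := by rw [Real.exp_add]
      _ ≤ Real.exp ((C * (n + 2) + 1) * S) := by
          refine Real.exp_le_exp.2 ?_
          have h10 : C * 2 ≤ C * (2 * S) := mul_le_mul_of_nonneg_left (by linarith) (by linarith)
          nlinarith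
  rw [Real.exp_neg]
  rw [inv_le_iff_one_le_mul₀ (Real.exp_pos _)]
  calc (1 : ℝ) ≤ 2 * ‖z‖ * Real.exp (C * (n * S + 2)) := h7
    _ = ‖z‖ * (2 * Real.exp (C * (n * S + 2))) := by ring
    _ ≤ ‖z‖ * Real.exp ((C * (n + 2) + 1) * S) := mul_le_mul_of_nonneg_left h8 (norm_nonneg _)

end Pool.Agent.Work.MP_327059_nt.GL

end

section

set_option autoImplicit false

namespace Pool.Agent.Work.MP_327059_nt.GL

open MvPolynomial

theorem pr_ManyInd (h1 : S_RankBox) : S_ManyInd := by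
  classical
  intro n S r Λ hΛ
  set A : Set (Fin n → ℤ) := {s : Fin n → ℤ | (∀ i, |s i| ≤ (S : ℤ)) ∧ s ∈ Λ} with hA
  let φ : (Fin n → ℤ) → (Fin n → ℚ) := fun s i => (s i : ℚ)
  let V : Submodule ℚ (Fin n → ℚ) := Submodule.span ℚ (φ '' A)
  have hfin : {s : Fin n → ℤ | (∀ i, |s i| ≤ (S : ℤ)) ∧ (fun i => (s i : ℚ)) ∈ V}.Finite := by
    refine Set.Finite.subset (Set.Finite.pi (fun _ : Fin n => Set.finite_Icc (-(S : ℤ)) (S : ℤ))) ?_
    intro s hs
    rw [Set.mem_univ_pi]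
    intro i
    exact abs_le.1 (hs.1 i)
  have hr : r + 1 ≤ Module.finrank ℚ V := by
    by_contra hcon
    have h2 := h1 n S r V (by omega)
    have h3 : A.ncard ≤ Set.ncard {s : Fin n → ℤ | (∀ i, |s i| ≤ (S : ℤ)) ∧
        (fun i => (s i : ℚ)) ∈ V} := by
      apply Set.ncard_le_ncard _ hfin
      intro s hs
      exact ⟨hs.1, Submodule.subset_span ⟨s, hs, rfl⟩⟩
    omega
  obtain ⟨f, hf, -, hli⟩ := Submodule.exists_fun_fin_finrank_span_eq ℚ (φ '' A)
  have hf' : ∀ i, ∃ s, s ∈ A ∧ φ s = f i := fun i => hf i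
  choose g hg hgf using hf'
  refine ⟨fun k => g (Fin.castLE hr k), fun k => (hg _).2, fun k i => (hg _).1 i, ?_⟩
  have h4 := hli.comp (Fin.castLE hr) (Fin.castLE_injective hr)
  have h5 : (fun k => (fun i => (g (Fin.castLE hr k) i : ℚ) : Fin n → ℚ)) =
      f ∘ (Fin.castLE hr) := by
    funext k
    exact hgf _
  rw [h5]
  exact h4

end Pool.Agent.Work.MP_327059_nt.GL

end

section

/-!
# T12: near 1 the logarithm is near `2 pi i Z`
-/

set_option autoImplicit false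

namespace Pool.Agent.Work.MP_327059_nt.GL

open MvPolynomial

theorem pr_NearLog : S_NearLog := by
  intro z hz
  have h0 : Complex.exp z ≠ 0 := Complex.exp_ne_zero z
  have h1 : Complex.exp (Complex.log (1 + (Complex.exp z - 1))) = Complex.exp z := by
    have : 1 + (Complex.exp z - 1) = Complex.exp z := by ring
    rw [this, Complex.exp_log h0]
  obtain ⟨n, hn⟩ := Complex.exp_eq_exp_iff_exists_int.1 h1
  refine ⟨-n, ?_⟩
  have h2 := Complex.norm_log_one_add_half_le_self hz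
  have h3 : z - 2 * Real.pi * Complex.I * ((-n : ℤ) : ℂ) =
      Complex.log (1 + (Complex.exp z - 1)) := by
    rw [hn]; push_cast; ring
  rw [h3]
  have h4 : 0 ≤ ‖Complex.exp z - 1‖ := norm_nonneg _
  linarith

end Pool.Agent.Work.MP_327059_nt.GL

end

section

/-!
# T14: additive relations close to the true point are impossible
-/

set_option autoImplicit false

namespace Pool.Agent.Work.MP_327059_nt.GL

open MvPolynomial

theorem NoRelL_pow (q c n T : ℕ) (hn : q * c + 1 ≤ n) (hT : 2 ^ c ≤ T) :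
    (2 * T ^ q) ^ c < (T + 1) ^ n := by
  have h1 : (2 * T ^ q) ^ c = 2 ^ c * T ^ (q * c) := by
    rw [mul_pow, ← pow_mul]
  rw [h1]
  calc 2 ^ c * T ^ (q * c) ≤ T * (T + 1) ^ (q * c) :=
        Nat.mul_le_mul hT (Nat.pow_le_pow_left (Nat.le_succ T) _)
    _ < (T + 1) * (T + 1) ^ (q * c) :=
        Nat.mul_lt_mul_of_pos_right (Nat.lt_succ_self T) (Nat.pos_of_ne_zero (by positivity))
    _ = (T + 1) ^ (q * c + 1) := by rw [pow_succ]; ring
    _ ≤ (T + 1) ^ n := Nat.pow_le_pow_right (Nat.succ_pos T) hn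

theorem NoRelL_exists {n : ℕ} (T : ℕ) (l : Fin n → ℂ) (h : 1 < cntL T l) :
    ∃ s : Fin n → ℤ, s ≠ 0 ∧ (∀ i, |s i| ≤ (T : ℤ)) ∧ ∑ i, (s i : ℂ) * l i = 0 := by
  unfold cntL at h
  have hfin : ({s : Fin n → ℤ | (∀ i, |s i| ≤ (T : ℤ)) ∧ ∑ i, (s i : ℂ) * l i = 0}).Finite := by
    by_contra hinf
    rw [Set.Infinite.ncard hinf] at h
    omega
  obtain ⟨a, ha, b, hb, hab⟩ := (Set.one_lt_ncard hfin).1 h
  by_cases h0 : a = 0
  · refine ⟨b, ?_, hb.1, hb.2⟩
    intro hb0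
    exact hab (h0.trans hb0.symm)
  · exact ⟨a, h0, ha.1, ha.2⟩

theorem pr_NoRelL (h1 : S_LiL) : S_NoRelL := by
  intro q c
  refine ⟨q * c + 1, ?_⟩
  intro n hn l hl halg
  obtain ⟨B, hB, hS⟩ := h1 n l hl halg
  refine ⟨2 ^ c + n + ⌈B⌉₊ + 2, ?_⟩
  intro T hT l' hl'
  by_contra hcon
  rw [not_lt] at hcon
  obtain ⟨u, hu⟩ : ∃ u : ℕ, u = 2 ^ c := ⟨_, rfl⟩
  obtain ⟨f, hf⟩ : ∃ f : ℕ, f = ⌈B⌉₊ := ⟨_, rfl⟩
  rw [← hu, ← hf] at hT
  have hT1 : 2 ^ c ≤ T := by rw [← hu]; omega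
  have hTn : n ≤ T := by omega
  have hT2 : 2 ≤ T := by omega
  have hTB : B + 1 ≤ T := by
    have e1 : B ≤ (⌈B⌉₊ : ℝ) := Nat.le_ceil B
    have e2 : ⌈B⌉₊ + 1 ≤ T := by rw [← hf]; omega
    have e3 : ((⌈B⌉₊ + 1 : ℕ) : ℝ) ≤ (T : ℝ) := by exact_mod_cast e2
    push_cast at e3
    linarith
  have hpow := NoRelL_pow q c n T hn hT1
  have hcnt : 1 < cntL T l' := by
    by_contra hle
    rw [not_lt] at hle
    have : (2 * T ^ q) ^ c * cntL T l' ≤ (2 * T ^ q) ^ c * 1 := Nat.mul_le_mul_left _ hle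
    rw [mul_one] at this
    omega
  obtain ⟨s, hs0, hsT, hs⟩ := NoRelL_exists T l' hcnt
  have hlow := hS s hs0 (T : ℝ) (fun i => by
    have := hsT i
    have e : ((|s i| : ℤ) : ℝ) ≤ ((T : ℤ) : ℝ) := by exact_mod_cast this
    rw [Int.cast_abs] at e
    simpa using e)
  have hup : ‖∑ i, (s i : ℂ) * l i‖ ≤ n * (T * Real.exp (-(T : ℝ) ^ 3)) := by
    have e0 : ∑ i, (s i : ℂ) * l i = ∑ i, (s i : ℂ) * (l i - l' i) := by
      have : ∑ i, (s i : ℂ) * (l i - l' i) = ∑ i, (s i : ℂ) * l i - ∑ i, (s i : ℂ) * l' i := by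
        rw [← Finset.sum_sub_distrib]
        exact Finset.sum_congr rfl (fun i _ => by ring)
      rw [this, hs, sub_zero]
    rw [e0]
    calc ‖∑ i, (s i : ℂ) * (l i - l' i)‖ ≤ ∑ i, ‖(s i : ℂ) * (l i - l' i)‖ := norm_sum_le _ _
      _ ≤ ∑ _i : Fin n, ((T : ℝ) * Real.exp (-(T : ℝ) ^ 3)) := by
          refine Finset.sum_le_sum (fun i _ => ?_)
          rw [norm_mul]
          refine mul_le_mul ?_ ?_ (norm_nonneg _) (Nat.cast_nonneg _)
          · rw [Complex.norm_intCast]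
            have e : ((|s i| : ℤ) : ℝ) ≤ ((T : ℤ) : ℝ) := by exact_mod_cast hsT i
            rw [Int.cast_abs] at e
            simpa using e
          · rw [norm_sub_rev]; exact hl' i
      _ = n * (T * Real.exp (-(T : ℝ) ^ 3)) := by simp
  have hTr : (2 : ℝ) ≤ T := by exact_mod_cast hT2
  have hnr : (n : ℝ) ≤ T := by exact_mod_cast hTn
  have key : (n : ℝ) * (T * Real.exp (-(T : ℝ) ^ 3)) < Real.exp (-(B * T)) := by
    have e1 : (n : ℝ) * T ≤ (T : ℝ) ^ 2 := by nlinarith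
    have e2 : (T : ℝ) ^ 2 < Real.exp ((T : ℝ) ^ 2) := by
      have := Real.add_one_le_exp ((T : ℝ) ^ 2)
      linarith
    have e3 : (T : ℝ) ^ 2 ≤ (T : ℝ) ^ 3 - B * T := by
      have h1 : B * T ≤ (T - 1) * T := by
        apply mul_le_mul_of_nonneg_right _ (by linarith)
        linarith
      nlinarith [mul_nonneg (by linarith : (0 : ℝ) ≤ (T : ℝ) - 2) (sq_nonneg (T : ℝ))]
    have e4 : (n : ℝ) * T < Real.exp ((T : ℝ) ^ 3 - B * T) :=
      lt_of_le_of_lt e1 (lt_of_lt_of_le e2 (Real.exp_le_exp.2 e3))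
    have e5 : Real.exp (-(B * T)) =
        Real.exp ((T : ℝ) ^ 3 - B * T) * Real.exp (-(T : ℝ) ^ 3) := by
      rw [← Real.exp_add]; congr 1; ring
    rw [e5, ← mul_assoc]
    exact mul_lt_mul_of_pos_right e4 (Real.exp_pos _)
  linarith

end Pool.Agent.Work.MP_327059_nt.GL

end

section

/-!
# T13: multiplicative relations close to the true point are impossible
-/

set_option autoImplicit false

namespace Pool.Agent.Work.MP_327059_nt.GL

open MvPolynomial

theorem NoRelY_W (q c T : ℕ) : (2 * T ^ q) ^ c = 2 ^ c * T ^ (q * c) := by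
  rw [mul_pow, ← pow_mul]

theorem NoRelY_pow1 (q c n T : ℕ) (hn : 2 * (q * c) + 4 ≤ n) (hT : 2 ^ (c + (q * c + 3)) ≤ T) :
    (2 * T ^ q) ^ c * (2 * T + 1) ^ (q * c + 3) < (T + 1) ^ n := by
  rw [NoRelY_W]
  calc 2 ^ c * T ^ (q * c) * (2 * T + 1) ^ (q * c + 3)
      ≤ 2 ^ c * (T + 1) ^ (q * c) * (2 * (T + 1)) ^ (q * c + 3) := by
        apply Nat.mul_le_mul
        · exact Nat.mul_le_mul le_rfl (Nat.pow_le_pow_left (by omega) _)
        · exact Nat.pow_le_pow_left (by omega) _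
    _ = 2 ^ (c + (q * c + 3)) * (T + 1) ^ (2 * (q * c) + 3) := by
        rw [mul_pow]; ring
    _ < (T + 1) * (T + 1) ^ (2 * (q * c) + 3) :=
        Nat.mul_lt_mul_of_pos_right (by omega) (Nat.pos_of_ne_zero (by positivity))
    _ = (T + 1) ^ (2 * (q * c) + 4) := by ring
    _ ≤ (T + 1) ^ n := Nat.pow_le_pow_right (Nat.succ_pos T) hn

theorem NoRelY_pow2 (q c T K : ℕ) (hT : 2 * (q * c + 4) * K * 2 ^ c + 1 ≤ T) :
    2 * (q * c + 4) * T * (T * (2 * T ^ q) ^ c * K) + 1 < (T + 1) ^ (q * c + 4) := by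
  rw [NoRelY_W]
  have h1 : 1 ≤ T := by omega
  have h2 : T ^ (q * c + 2) ≤ (T + 1) ^ (q * c + 2) := Nat.pow_le_pow_left (by omega) _
  have h3 : 1 ≤ (T + 1) ^ (q * c + 2) := Nat.one_le_pow _ _ (by omega)
  calc 2 * (q * c + 4) * T * (T * (2 ^ c * T ^ (q * c)) * K) + 1
      = (2 * (q * c + 4) * K * 2 ^ c) * T ^ (q * c + 2) + 1 := by ring
    _ ≤ (2 * (q * c + 4) * K * 2 ^ c) * (T + 1) ^ (q * c + 2) + (T + 1) ^ (q * c + 2) := by
        apply Nat.add_le_add _ h3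
        exact Nat.mul_le_mul le_rfl h2
    _ = (2 * (q * c + 4) * K * 2 ^ c + 1) * (T + 1) ^ (q * c + 2) := by ring
    _ < (T + 1) * (T + 1) ^ (q * c + 2) :=
        Nat.mul_lt_mul_of_pos_right (by omega) (Nat.pos_of_ne_zero (by positivity))
    _ = (T + 1) ^ (q * c + 3) := by ring
    _ ≤ (T + 1) ^ (q * c + 4) := Nat.pow_le_pow_right (Nat.succ_pos T) (by omega)

theorem NoRelY_norm {n : ℕ} (u : Fin n → ℂ) (s : Fin n → ℤ) (S : ℝ)
    (hs : ∀ i, |(s i : ℝ)| ≤ S) : ‖∑ i, (s i : ℂ) * u i‖ ≤ S * ∑ i, ‖u i‖ := by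
  calc ‖∑ i, (s i : ℂ) * u i‖ ≤ ∑ i, ‖(s i : ℂ) * u i‖ := norm_sum_le _ _
    _ ≤ ∑ i, S * ‖u i‖ := by
        refine Finset.sum_le_sum (fun i _ => ?_)
        rw [norm_mul, Complex.norm_intCast]
        exact mul_le_mul_of_nonneg_right (hs i) (norm_nonneg _)
    _ = S * ∑ i, ‖u i‖ := by rw [Finset.mul_sum]

theorem NoRelY_exp {n m : ℕ} (b : Fin m → ℂ) (l : Fin n → ℂ) (w : Fin m → ℤ) (t : Fin n → ℤ) :
    ∏ p : Fin n × Fin m, Complex.exp (b p.2 * l p.1) ^ (t p.1 * w p.2) =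
      Complex.exp ((∑ j, (w j : ℂ) * b j) * (∑ i, (t i : ℂ) * l i)) := by
  have h1 : (∑ j, (w j : ℂ) * b j) * (∑ i, (t i : ℂ) * l i) =
      ∑ p : Fin n × Fin m, ((t p.1 * w p.2 : ℤ) : ℂ) * (b p.2 * l p.1) := by
    rw [Fintype.sum_prod_type, Finset.sum_mul_sum, Finset.sum_comm]
    refine Finset.sum_congr rfl (fun i _ => Finset.sum_congr rfl (fun j _ => ?_))
    push_cast
    ring
  rw [h1, Complex.exp_sum]
  refine Finset.prod_congr rfl (fun p _ => ?_)
  rw [Complex.exp_int_mul]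

theorem NoRelY_near {n m : ℕ} (b : Fin m → ℂ) (l : Fin n → ℂ) (B : ℝ) (hB1 : 1 ≤ B)
    (hB : ∀ (ε : ℝ) (E : ℕ) (a' : Fin n × Fin m → ℂ) (e : Fin n × Fin m → ℤ), 0 ≤ ε →
      (∀ i, ‖a' i - Complex.exp (b i.2 * l i.1)‖ ≤ ε) →
      (∀ i, |e i| ≤ (E : ℤ)) → B * E * ε ≤ 1 → B * ε ≤ 1 → ∏ i, a' i ^ e i = 1 →
      ‖∏ i : Fin n × Fin m, Complex.exp (b i.2 * l i.1) ^ e i - 1‖ ≤ B * E * ε)
    (h6 : S_NearLog) (T W : ℕ) (hT : 1 ≤ T) (hW : 1 ≤ W) (ε : ℝ) (hε : 0 ≤ ε)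
    (hs : 2 * (B * ((T * W : ℕ) : ℝ) * ε) ≤ 1) (y' : Fin n → Fin m → ℂ)
    (hy : ∀ i j, ‖y' i j - Complex.exp (b j * l i)‖ ≤ ε) (w : Fin m → ℤ)
    (hw : ∀ j, |w j| ≤ (W : ℤ)) (t : Fin n → ℤ) (ht : ∀ i, |t i| ≤ (T : ℤ))
    (h1 : ∏ i, ∏ j, y' i j ^ (t i * w j) = 1) :
    ∃ k : ℤ, ‖(∑ j, (w j : ℂ) * b j) * (∑ i, (t i : ℂ) * l i) - 2 * Real.pi * Complex.I * k‖ ≤
      2 * (B * ((T * W : ℕ) : ℝ) * ε) := by
  have hTW : (1 : ℝ) ≤ ((T * W : ℕ) : ℝ) := by
    exact_mod_cast Nat.mul_pos hT hW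
  have h2 := hB ε (T * W) (fun p => y' p.1 p.2) (fun p => t p.1 * w p.2) hε
    (fun p => hy p.1 p.2)
    (fun p => by
      rw [abs_mul]
      push_cast
      exact mul_le_mul (ht p.1) (hw p.2) (abs_nonneg _) (by positivity))
    (by
      have : 0 ≤ B * ((T * W : ℕ) : ℝ) * ε := by positivity
      linarith)
    (by
      have h3 : B * ε ≤ B * ((T * W : ℕ) : ℝ) * ε := by
        have : B * ε * 1 ≤ B * ε * ((T * W : ℕ) : ℝ) :=
          mul_le_mul_of_nonneg_left hTW (by positivity)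
        nlinarith
      have : 0 ≤ B * ((T * W : ℕ) : ℝ) * ε := by positivity
      linarith)
    (by rw [Fintype.prod_prod_type]; exact h1)
  have h4 : ‖Complex.exp ((∑ j, (w j : ℂ) * b j) * (∑ i, (t i : ℂ) * l i)) - 1‖ ≤
      B * ((T * W : ℕ) : ℝ) * ε := by
    rw [← NoRelY_exp]
    exact h2
  obtain ⟨k, hk⟩ := h6 ((∑ j, (w j : ℂ) * b j) * (∑ i, (t i : ℂ) * l i)) (by linarith)
  exact ⟨k, by linarith⟩

theorem NoRelY_kbd (z : ℂ) (k : ℤ) (Z : ℝ) (hz : ‖z‖ ≤ Z)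
    (h : ‖z - 2 * Real.pi * Complex.I * k‖ ≤ 1) : |(k : ℝ)| ≤ Z + 1 := by
  have h1 : ‖(2 * Real.pi * Complex.I * k : ℂ)‖ ≤ Z + 1 := by
    have e : (2 * Real.pi * Complex.I * k : ℂ) = z - (z - 2 * Real.pi * Complex.I * k) := by ring
    rw [e]
    calc ‖z - (z - 2 * Real.pi * Complex.I * k)‖ ≤ ‖z‖ + ‖z - 2 * Real.pi * Complex.I * k‖ :=
          norm_sub_le _ _
      _ ≤ Z + 1 := add_le_add hz h
  have h2 : ‖(2 * Real.pi * Complex.I * k : ℂ)‖ = 2 * Real.pi * |(k : ℝ)| := by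
    rw [norm_mul, norm_mul, norm_mul, Complex.norm_I, Complex.norm_intCast, Complex.norm_real,
      Real.norm_of_nonneg Real.pi_pos.le]
    norm_num
  rw [h2] at h1
  have h3 : 1 ≤ 2 * Real.pi := by nlinarith [Real.pi_gt_three]
  have h4 : 1 * |(k : ℝ)| ≤ 2 * Real.pi * |(k : ℝ)| :=
    mul_le_mul_of_nonneg_right h3 (abs_nonneg _)
  linarith

theorem NoRelY_powexp (T N : ℕ) : (T : ℝ) ^ N ≤ Real.exp (N * T) := by
  rw [Real.exp_nat_mul]
  exact pow_le_pow_left₀ (Nat.cast_nonneg T) (by linarith [Real.add_one_le_exp (T : ℝ)]) N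

theorem NoRelY_2W (q c T : ℕ) (h : 2 ^ (c + 1) ≤ T) :
    2 * (((2 * T ^ q) ^ c : ℕ) : ℝ) ≤ (T : ℝ) ^ (q * c + 1) := by
  have h1 : 2 * (2 * T ^ q) ^ c ≤ T ^ (q * c + 1) := by
    rw [NoRelY_W]
    calc 2 * (2 ^ c * T ^ (q * c)) = 2 ^ (c + 1) * T ^ (q * c) := by ring
      _ ≤ T * T ^ (q * c) := Nat.mul_le_mul h le_rfl
      _ = T ^ (q * c + 1) := by ring
  exact_mod_cast h1

theorem NoRelY_num1 (q c T : ℕ) (B : ℝ) (hB : 1 ≤ B) (hBT : B ≤ T) (h : 2 ^ (c + 1) ≤ T)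
    (h' : q * c + 3 ≤ T) :
    2 * (B * ((T * (2 * T ^ q) ^ c : ℕ) : ℝ) * Real.exp (-(T : ℝ) ^ 3)) ≤ 1 := by
  have hT : (1 : ℝ) ≤ T := hB.trans hBT
  have h1 := NoRelY_2W q c T h
  have h2 := NoRelY_powexp T (q * c + 3)
  have h3 : ((q * c + 3 : ℕ) : ℝ) ≤ T := by exact_mod_cast h'
  have h4 : Real.exp (((q * c + 3 : ℕ) : ℝ) * T) * Real.exp (-(T : ℝ) ^ 3) ≤ 1 := by
    rw [← Real.exp_add]
    rw [Real.exp_le_one_iff]
    nlinarith [mul_le_mul_of_nonneg_right h3 (by linarith : (0 : ℝ) ≤ T),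
      mul_nonneg (by linarith : (0 : ℝ) ≤ (T : ℝ) - 1) (sq_nonneg (T : ℝ))]
  calc 2 * (B * ((T * (2 * T ^ q) ^ c : ℕ) : ℝ) * Real.exp (-(T : ℝ) ^ 3))
      = (B * T) * (2 * (((2 * T ^ q) ^ c : ℕ) : ℝ)) * Real.exp (-(T : ℝ) ^ 3) := by
        push_cast; ring
    _ ≤ (T * T) * (T : ℝ) ^ (q * c + 1) * Real.exp (-(T : ℝ) ^ 3) := by
        apply mul_le_mul_of_nonneg_right _ (Real.exp_pos _).le
        apply mul_le_mul _ h1 (by positivity) (by positivity)
        exact mul_le_mul_of_nonneg_right hBT (by positivity)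
    _ = (T : ℝ) ^ (q * c + 3) * Real.exp (-(T : ℝ) ^ 3) := by ring
    _ ≤ Real.exp (((q * c + 3 : ℕ) : ℝ) * T) * Real.exp (-(T : ℝ) ^ 3) :=
        mul_le_mul_of_nonneg_right h2 (Real.exp_pos _).le
    _ ≤ 1 := h4

theorem NoRelY_num2 (q c T cb ρ : ℕ) (B BL : ℝ) (hB : 1 ≤ B) (hBT : B ≤ T)
    (h : 2 ^ (c + 1) ≤ T) (hρ : ρ ≤ T) (hN : (q * c + 1) * (cb + 1) + 4 < T)
    (hBL : BL * ρ + 1 ≤ T) :
    (2 * (((2 * T ^ q) ^ c : ℕ) : ℝ)) ^ cb *
      (((ρ : ℝ) * T) * (2 * (B * ((T * (2 * T ^ q) ^ c : ℕ) : ℝ) * Real.exp (-(T : ℝ) ^ 3)))) <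
      Real.exp (-(BL * ((ρ : ℝ) * (T : ℝ) ^ 2))) := by
  have hT : (1 : ℝ) ≤ T := hB.trans hBT
  have h1 := NoRelY_2W q c T h
  obtain ⟨U, hU⟩ : ∃ U : ℝ, U = 2 * (((2 * T ^ q) ^ c : ℕ) : ℝ) := ⟨_, rfl⟩
  have hU0 : 0 ≤ U := by rw [hU]; positivity
  have h2 := NoRelY_powexp T ((q * c + 1) * (cb + 1) + 4)
  have hρ' : (ρ : ℝ) ≤ T := by exact_mod_cast hρ
  have hN' : (((q * c + 1) * (cb + 1) + 4 : ℕ) : ℝ) + 1 ≤ T := by exact_mod_cast hN
  obtain ⟨N, hNN⟩ : ∃ N : ℕ, N = (q * c + 1) * (cb + 1) + 4 := ⟨_, rfl⟩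
  rw [← hNN] at h2 hN'
  have h4 : (N : ℝ) * T + -(T : ℝ) ^ 3 < -(BL * ((ρ : ℝ) * (T : ℝ) ^ 2)) := by
    have e1 : (BL * ρ + 1) * (T : ℝ) ^ 2 ≤ T * (T : ℝ) ^ 2 :=
      mul_le_mul_of_nonneg_right hBL (sq_nonneg _)
    have e2 : ((N : ℝ) + 1) * T ≤ T * T := mul_le_mul_of_nonneg_right hN' (by linarith)
    nlinarith
  calc (2 * (((2 * T ^ q) ^ c : ℕ) : ℝ)) ^ cb *
      (((ρ : ℝ) * T) * (2 * (B * ((T * (2 * T ^ q) ^ c : ℕ) : ℝ) * Real.exp (-(T : ℝ) ^ 3))))
      = U ^ (cb + 1) * (ρ * T * B * T) * Real.exp (-(T : ℝ) ^ 3) := by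
        rw [hU]; push_cast; ring
    _ ≤ ((T : ℝ) ^ (q * c + 1)) ^ (cb + 1) * (T * T * T * T) * Real.exp (-(T : ℝ) ^ 3) := by
        apply mul_le_mul_of_nonneg_right _ (Real.exp_pos _).le
        apply mul_le_mul _ _ (by positivity) (by positivity)
        · exact pow_le_pow_left₀ hU0 (by rw [hU]; exact h1) _
        · apply mul_le_mul_of_nonneg_right _ (by linarith)
          apply mul_le_mul _ hBT (by linarith) (by positivity)
          exact mul_le_mul_of_nonneg_right hρ' (by linarith)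
    _ = (T : ℝ) ^ N * Real.exp (-(T : ℝ) ^ 3) := by
        rw [hNN, ← pow_mul, pow_add]; ring
    _ ≤ Real.exp ((N : ℝ) * T) * Real.exp (-(T : ℝ) ^ 3) :=
        mul_le_mul_of_nonneg_right h2 (Real.exp_pos _).le
    _ = Real.exp ((N : ℝ) * T + -(T : ℝ) ^ 3) := by rw [← Real.exp_add]
    _ < Real.exp (-(BL * ((ρ : ℝ) * (T : ℝ) ^ 2))) := Real.exp_lt_exp.2 h4

theorem NoRelY_comb {n ρ : ℕ} (l : Fin n → ℂ) (bb : ℂ) (t : Fin ρ → Fin n → ℤ) (k : Fin ρ → ℤ)
    (c : Fin ρ → ℤ) (hck : ∑ i, c i * k i = 0) :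
    bb * ∑ i, ((∑ r, c r * t r i : ℤ) : ℂ) * l i =
      ∑ r, (c r : ℂ) * (bb * (∑ i, (t r i : ℂ) * l i) - 2 * Real.pi * Complex.I * k r) := by
  have h1 : ∑ r, (c r : ℂ) * (bb * (∑ i, (t r i : ℂ) * l i) - 2 * Real.pi * Complex.I * k r) =
      ∑ r, (c r : ℂ) * (bb * (∑ i, (t r i : ℂ) * l i)) -
        2 * Real.pi * Complex.I * ((∑ r, c r * k r : ℤ) : ℂ) := by
    push_cast
    rw [Finset.mul_sum, ← Finset.sum_sub_distrib]
    exact Finset.sum_congr rfl (fun r _ => by ring)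
  rw [h1, hck, Int.cast_zero, mul_zero, sub_zero]
  have h2 : ∀ r, (c r : ℂ) * (bb * (∑ i, (t r i : ℂ) * l i)) =
      ∑ i, bb * ((c r : ℂ) * (t r i : ℂ) * l i) := by
    intro r
    rw [Finset.mul_sum, Finset.mul_sum]
    exact Finset.sum_congr rfl (fun i _ => by ring)
  rw [Finset.sum_congr rfl (fun r _ => h2 r), Finset.sum_comm, Finset.mul_sum]
  refine Finset.sum_congr rfl (fun i _ => ?_)
  push_cast
  rw [Finset.sum_mul, Finset.mul_sum]

theorem NoRelY_ne {n ρ : ℕ} (t : Fin ρ → Fin n → ℤ)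
    (ht : LinearIndependent ℚ (fun k => (fun i => (t k i : ℚ) : Fin n → ℚ)))
    (c : Fin ρ → ℤ) (hc : c ≠ 0) : (fun i => ∑ r, c r * t r i) ≠ 0 := by
  intro h0
  apply hc
  have h1 := Fintype.linearIndependent_iff.1 ht (fun r => (c r : ℚ)) (by
    funext i
    have h2 := congrFun h0 i
    simp only [Pi.zero_apply] at h2
    have h3 : ((∑ r, c r * t r i : ℤ) : ℚ) = 0 := by rw [h2]; simp
    push_cast at h3
    simpa [Finset.sum_apply] using h3)
  funext r
  have h4 := h1 r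
  simpa using h4

theorem NoRelY_sbd {n ρ T : ℕ} (t : Fin ρ → Fin n → ℤ) (ht : ∀ k i, |t k i| ≤ (T : ℤ))
    (c : Fin ρ → ℤ) (hc : ∀ i, |c i| ≤ (T : ℤ)) (i : Fin n) :
    |((∑ r, c r * t r i : ℤ) : ℝ)| ≤ (ρ : ℝ) * (T : ℝ) ^ 2 := by
  have h1 : |∑ r, c r * t r i| ≤ (ρ : ℤ) * (T : ℤ) ^ 2 := by
    calc |∑ r, c r * t r i| ≤ ∑ r, |c r * t r i| := Finset.abs_sum_le_sum_abs _ _
      _ ≤ ∑ _r : Fin ρ, (T : ℤ) ^ 2 := by
          refine Finset.sum_le_sum (fun r _ => ?_)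
          rw [abs_mul, sq]
          exact mul_le_mul (hc r) (ht r i) (abs_nonneg _) (by positivity)
      _ = (ρ : ℤ) * (T : ℤ) ^ 2 := by simp
  have h2 : ((|∑ r, c r * t r i| : ℤ) : ℝ) ≤ (((ρ : ℤ) * (T : ℤ) ^ 2 : ℤ) : ℝ) := by
    exact_mod_cast h1
  rw [Int.cast_abs] at h2
  push_cast at h2 ⊢
  exact h2

theorem NoRelY_split (a b c d e f g T : ℕ) (h : a + b + c + d + e + f + g ≤ T) :
    a ≤ T ∧ b ≤ T ∧ c ≤ T ∧ d ≤ T ∧ e ≤ T ∧ f ≤ T ∧ g ≤ T := by omega

theorem pr_NoRelY (h1 : S_ManyInd) (h2 : S_LiL) (h3 : S_LiB) (h4 : S_Sieg) (h5 : S_Pert)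
    (h6 : S_NearLog) : S_NoRelY := by
  intro m q c
  refine ⟨2 * (q * c) + 4, ?_⟩
  intro b hb hbl n hn l hl halg
  obtain ⟨BL, hBL1, hBL⟩ := h2 n l hl halg
  obtain ⟨cb, hcb⟩ := h3 m b hb hbl
  obtain ⟨B, hB1, hB⟩ := h5 (Fin n × Fin m) (fun p => Complex.exp (b p.2 * l p.1))
    (fun p => Complex.exp_ne_zero _)
  obtain ⟨β, hβ⟩ : ∃ β : ℝ, β = ∑ j, ‖b j‖ := ⟨_, rfl⟩
  obtain ⟨lam, hlam⟩ : ∃ lam : ℝ, lam = ∑ i, ‖l i‖ := ⟨_, rfl⟩
  have hβ0 : 0 ≤ β := by rw [hβ]; exact Finset.sum_nonneg (fun _ _ => norm_nonneg _)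
  have hlam0 : 0 ≤ lam := by rw [hlam]; exact Finset.sum_nonneg (fun _ _ => norm_nonneg _)
  obtain ⟨K, hK⟩ : ∃ K : ℕ, β * lam + 1 ≤ K := ⟨_, Nat.le_ceil _⟩
  obtain ⟨Bc, hBc⟩ : ∃ Bc : ℕ, B ≤ Bc := ⟨_, Nat.le_ceil _⟩
  obtain ⟨Lc, hLc⟩ : ∃ Lc : ℕ, BL * ((q * c + 4 : ℕ) : ℝ) + 1 ≤ Lc := ⟨_, Nat.le_ceil _⟩
  refine ⟨2 ^ (c + (q * c + 3)) + (2 * (q * c + 4) * K * 2 ^ c + 1) + 2 ^ (c + 1) +
    (q * c + 4) + ((q * c + 1) * (cb + 1) + 5) + Bc + Lc, ?_⟩
  intro T hT y' hy w hw0 hw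
  by_contra hcon
  rw [not_lt] at hcon
  obtain ⟨hT1, hT2, hT3, hT4, hT5, hT6, hT7⟩ := NoRelY_split _ _ _ _ _ _ _ _ hT
  have hBT : B ≤ T := hBc.trans (by exact_mod_cast hT6)
  have hLT : BL * ((q * c + 4 : ℕ) : ℝ) + 1 ≤ T := hLc.trans (by exact_mod_cast hT7)
  have hTpos : 1 ≤ T := by omega
  obtain ⟨W, hW⟩ : ∃ W : ℕ, W = (2 * T ^ q) ^ c := ⟨_, rfl⟩
  have hWpos : 1 ≤ W := by
    rw [hW]
    exact Nat.one_le_pow _ _ (by have := Nat.one_le_pow q T hTpos; omega)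
  -- many independent relations
  have hcnt : (2 * T + 1) ^ (q * c + 3) < cntY T y' w := by
    by_contra hle
    rw [not_lt] at hle
    have h7 := NoRelY_pow1 q c n T hn hT1
    have h8 : (2 * T ^ q) ^ c * cntY T y' w ≤ (2 * T ^ q) ^ c * (2 * T + 1) ^ (q * c + 3) :=
      Nat.mul_le_mul_left _ hle
    omega
  obtain ⟨t, htL, htb, hti⟩ := h1 n T (q * c + 3)
    {s : Fin n → ℤ | ∏ i, ∏ j, y' i j ^ (s i * w j) = 1} hcnt
  have hnum1 := NoRelY_num1 q c T B hB1 hBT hT3 (by omega)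
  have hk : ∀ r, ∃ k : ℤ, ‖(∑ j, (w j : ℂ) * b j) * (∑ i, (t r i : ℂ) * l i) -
      2 * Real.pi * Complex.I * k‖ ≤
      2 * (B * ((T * (2 * T ^ q) ^ c : ℕ) : ℝ) * Real.exp (-(T : ℝ) ^ 3)) := fun r =>
    NoRelY_near b l B hB1 hB h6 T ((2 * T ^ q) ^ c) hTpos (by rw [← hW]; exact hWpos)
      (Real.exp (-(T : ℝ) ^ 3)) (Real.exp_pos _).le hnum1 y' hy w (by exact_mod_cast hw) (t r)
      (htb r) (htL r)
  choose k hk using hk
  have hwr : ∀ j, |(w j : ℝ)| ≤ (W : ℝ) := by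
    intro j
    have e : ((|w j| : ℤ) : ℝ) ≤ ((((2 * T ^ q) ^ c : ℕ) : ℤ) : ℝ) := by exact_mod_cast hw j
    rw [Int.cast_abs] at e
    rw [hW]
    exact_mod_cast e
  have htr : ∀ r i, |(t r i : ℝ)| ≤ (T : ℝ) := by
    intro r i
    have e : ((|t r i| : ℤ) : ℝ) ≤ ((T : ℤ) : ℝ) := by exact_mod_cast htb r i
    rw [Int.cast_abs] at e
    exact_mod_cast e
  have hkb : ∀ r, |k r| ≤ ((T * W * K : ℕ) : ℤ) := by
    intro r
    have e1 : ‖(∑ j, (w j : ℂ) * b j) * (∑ i, (t r i : ℂ) * l i)‖ ≤ (W * β) * (T * lam) := by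
      rw [norm_mul, hβ, hlam]
      apply mul_le_mul (NoRelY_norm b w W hwr) (NoRelY_norm l (t r) T (htr r)) (norm_nonneg _)
      positivity
    have e2 := NoRelY_kbd _ (k r) _ e1 ((hk r).trans hnum1)
    have e3 : (W * β) * (T * lam) + 1 ≤ ((T * W * K : ℕ) : ℝ) := by
      have f1 : (1 : ℝ) ≤ (T : ℝ) * W := by exact_mod_cast Nat.mul_pos hTpos hWpos
      have f2 : (T : ℝ) * W * (β * lam + 1) ≤ (T : ℝ) * W * K :=
        mul_le_mul_of_nonneg_left hK (by positivity)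
      push_cast
      nlinarith
    have e4 : ((|k r| : ℤ) : ℝ) ≤ (((T * W * K : ℕ) : ℤ) : ℝ) := by
      rw [Int.cast_abs]
      exact_mod_cast e2.trans e3
    exact_mod_cast e4
  have hpow2 := NoRelY_pow2 q c T K hT2
  obtain ⟨cc, hcc0, hccT, hcck⟩ := h4 (q * c + 3 + 1) (T * W * K) T k hkb (by
    rw [hW]; exact hpow2)
  have hsne := NoRelY_ne t hti cc hcc0
  have hsbd := NoRelY_sbd t htb cc hccT
  have hlow := hBL _ hsne _ hsbd
  have hlowb := hcb w hw0 (2 * (W : ℝ)) (by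
    have : (1 : ℝ) ≤ W := by exact_mod_cast hWpos
    linarith) (fun j => (hwr j).trans (by
      have : (0 : ℝ) ≤ W := Nat.cast_nonneg W
      linarith))
  have hcomb := NoRelY_comb l (∑ j, (w j : ℂ) * b j) t k cc hcck
  have hup : ‖(∑ j, (w j : ℂ) * b j) * ∑ i, ((∑ r, cc r * t r i : ℤ) : ℂ) * l i‖ ≤
      (((q * c + 3 + 1 : ℕ) : ℝ) * T) *
        (2 * (B * ((T * (2 * T ^ q) ^ c : ℕ) : ℝ) * Real.exp (-(T : ℝ) ^ 3))) := by
    rw [hcomb]
    refine (norm_sum_le _ _).trans ?_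
    calc ∑ r, ‖(cc r : ℂ) * ((∑ j, (w j : ℂ) * b j) * (∑ i, (t r i : ℂ) * l i) -
          2 * Real.pi * Complex.I * k r)‖
        ≤ ∑ _r : Fin (q * c + 3 + 1), (T : ℝ) *
          (2 * (B * ((T * (2 * T ^ q) ^ c : ℕ) : ℝ) * Real.exp (-(T : ℝ) ^ 3))) := by
          refine Finset.sum_le_sum (fun r _ => ?_)
          rw [norm_mul, Complex.norm_intCast]
          have e : ((|cc r| : ℤ) : ℝ) ≤ ((T : ℤ) : ℝ) := by exact_mod_cast hccT r
          rw [Int.cast_abs] at e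
          exact mul_le_mul (by exact_mod_cast e) (hk r) (norm_nonneg _) (by positivity)
      _ = _ := by
          rw [Finset.sum_const, Finset.card_univ, Fintype.card_fin, nsmul_eq_mul]
          ring
  have hnum2 := NoRelY_num2 q c T cb (q * c + 3 + 1) B BL hB1 hBT hT3 hT4 hT5 hLT
  have hW0 : 0 < (2 * (W : ℝ)) ^ cb := by
    have : (1 : ℝ) ≤ W := by exact_mod_cast hWpos
    positivity
  have hfin : Real.exp (-(BL * (((q * c + 3 + 1 : ℕ) : ℝ) * (T : ℝ) ^ 2))) ≤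
      (2 * (W : ℝ)) ^ cb * ((((q * c + 3 + 1 : ℕ) : ℝ) * T) *
        (2 * (B * ((T * (2 * T ^ q) ^ c : ℕ) : ℝ) * Real.exp (-(T : ℝ) ^ 3)))) := by
    calc Real.exp (-(BL * (((q * c + 3 + 1 : ℕ) : ℝ) * (T : ℝ) ^ 2)))
        ≤ ‖∑ i, ((∑ r, cc r * t r i : ℤ) : ℂ) * l i‖ := hlow
      _ = (2 * (W : ℝ)) ^ cb * (((2 * (W : ℝ)) ^ cb)⁻¹ *
            ‖∑ i, ((∑ r, cc r * t r i : ℤ) : ℂ) * l i‖) := by
          rw [← mul_assoc, mul_inv_cancel₀ hW0.ne', one_mul]
      _ ≤ (2 * (W : ℝ)) ^ cb * (‖∑ j, (w j : ℂ) * b j‖ *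
            ‖∑ i, ((∑ r, cc r * t r i : ℤ) : ℂ) * l i‖) := by
          apply mul_le_mul_of_nonneg_left _ hW0.le
          exact mul_le_mul_of_nonneg_right hlowb (norm_nonneg _)
      _ ≤ _ := by
          apply mul_le_mul_of_nonneg_left _ hW0.le
          rw [← norm_mul]
          exact hup
  rw [hW] at hfin
  exact absurd hnum2 (not_lt.2 hfin)

end Pool.Agent.Work.MP_327059_nt.GL

end

section

/-!
# Item NoZero
-/

set_option autoImplicit false

namespace Pool.Agent.Work.MP_327059_nt.GL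

open MvPolynomial Filter Topology

lemma NoZero_nonzero (n m : ℕ) (b : Fin m → ℂ) (l : Fin n → ℂ) :
    ∃ T₀ : ℕ, ∀ T : ℕ, T₀ ≤ T → ∀ i j, Real.exp (-(T : ℝ) ^ 3) < ‖Complex.exp (b j * l i)‖ := by
  have h1 : Tendsto (fun T : ℕ => Real.exp (-(T : ℝ) ^ 3)) atTop (𝓝 0) := by
    refine Real.tendsto_exp_atBot.comp ?_
    refine tendsto_neg_atTop_atBot.comp ?_
    exact (tendsto_pow_atTop three_ne_zero).comp tendsto_natCast_atTop_atTop
  have h2 : ∀ᶠ T : ℕ in atTop, ∀ i j, Real.exp (-(T : ℝ) ^ 3) < ‖Complex.exp (b j * l i)‖ := by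
    rw [eventually_all]
    intro i
    rw [eventually_all]
    intro j
    exact h1.eventually_lt_const (norm_pos_iff.2 (Complex.exp_ne_zero _))
  obtain ⟨T₀, hT₀⟩ := eventually_atTop.1 h2
  exact ⟨T₀, hT₀⟩

theorem pr_NoZero (h1 : S_ZE) (h2 : S_NoRelY) (h3 : S_NoRelL) : S_NoZero := by
  intro m q
  obtain ⟨c, hc⟩ := h1 m
  obtain ⟨nY, hY⟩ := h2 m q c
  obtain ⟨nL, hL⟩ := h3 q c
  refine ⟨max nY nL, ?_⟩
  intro b hb hbi n hn l hl hla
  obtain ⟨TY, hTY⟩ := hY b hb hbi n ((le_max_left _ _).trans hn) l hl hla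
  obtain ⟨TL, hTL⟩ := hL n ((le_max_right _ _).trans hn) l hl hla
  obtain ⟨TN, hTN⟩ := NoZero_nonzero n m b l
  refine ⟨max (max TY TL) (max TN 1), ?_⟩
  intro T hT l' y' hl' hy' P hP hzero
  have t1 : TY ≤ T := ((le_max_left _ _).trans (le_max_left _ _)).trans hT
  have t2 : TL ≤ T := ((le_max_right _ _).trans (le_max_left _ _)).trans hT
  have t3 : TN ≤ T := ((le_max_left _ _).trans (le_max_right _ _)).trans hT
  have t4 : 1 ≤ T := ((le_max_right _ _).trans (le_max_right _ _)).trans hT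
  have hne : ∀ i j, y' i j ≠ 0 := by
    intro i j h0
    have e1 := hy' i j
    rw [h0, zero_sub, norm_neg] at e1
    exact absurd (hTN T t3 i j) (not_lt.2 e1)
  by_contra hP0
  rcases hc n T (T ^ q) l' y' P hne hP0 (Nat.one_le_pow _ _ t4) hP hzero with
    ⟨w, hw0, hw, hcnt⟩ | hcnt
  · exact absurd (hTY T t1 y' hy' w hw0 hw) (not_lt.2 hcnt)
  · exact absurd (hTL T t2 l' hl') (not_lt.2 hcnt)

end Pool.Agent.Work.MP_327059_nt.GL

end

section

/-!
# T16 (PLm): pigeonhole principle for products of one variable functions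
-/

set_option autoImplicit false

namespace Pool.Agent.Work.MP_327059_nt.GL

open Finset

theorem PLm_prod {ι : Type} (s : Finset ι) (a b : ι → ℂ) (B ε : ℝ) (hB : 0 ≤ B) (hε : 0 ≤ ε)
    (ha : ∀ i, ‖a i‖ ≤ B) (hb : ∀ i, ‖b i‖ ≤ B) (hab : ∀ i, ‖a i - b i‖ ≤ ε) :
    ‖∏ i ∈ s, a i - ∏ i ∈ s, b i‖ * B ≤ s.card * B ^ s.card * ε := by
  classical
  induction s using Finset.induction_on with
  | empty => simp
  | insert i s hi ih =>
    rw [Finset.prod_insert hi, Finset.prod_insert hi, Finset.card_insert_of_notMem hi]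
    have h1 : a i * ∏ j ∈ s, a j - b i * ∏ j ∈ s, b j
        = (a i - b i) * ∏ j ∈ s, a j + b i * (∏ j ∈ s, a j - ∏ j ∈ s, b j) := by ring
    have h2 : ‖∏ j ∈ s, a j‖ ≤ B ^ s.card := by
      rw [norm_prod]
      calc ∏ j ∈ s, ‖a j‖ ≤ ∏ _j ∈ s, B := Finset.prod_le_prod (fun _ _ => norm_nonneg _)
            (fun j _ => ha j)
        _ = B ^ s.card := by rw [Finset.prod_const]
    have h3 : ‖a i * ∏ j ∈ s, a j - b i * ∏ j ∈ s, b j‖
        ≤ ε * B ^ s.card + B * ‖∏ j ∈ s, a j - ∏ j ∈ s, b j‖ := by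
      rw [h1]
      refine (norm_add_le _ _).trans ?_
      rw [norm_mul, norm_mul]
      exact add_le_add (mul_le_mul (hab i) h2 (norm_nonneg _) hε)
        (mul_le_mul_of_nonneg_right (hb i) (norm_nonneg _))
    calc ‖a i * ∏ j ∈ s, a j - b i * ∏ j ∈ s, b j‖ * B
        ≤ (ε * B ^ s.card + B * ‖∏ j ∈ s, a j - ∏ j ∈ s, b j‖) * B :=
          mul_le_mul_of_nonneg_right h3 hB
      _ = ε * B ^ s.card * B + B * (‖∏ j ∈ s, a j - ∏ j ∈ s, b j‖ * B) := by ring
      _ ≤ ε * B ^ s.card * B + B * (s.card * B ^ s.card * ε) := by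
          have := mul_le_mul_of_nonneg_left ih hB
          linarith
      _ = ((s.card + 1 : ℕ) : ℝ) * B ^ (s.card + 1) * ε := by
          push_cast; ring

/-- one variable estimates -/
theorem PLm_one (c : ℕ → ℂ) (R A : ℝ) (hA : 0 ≤ A) (K : ℕ)
    (hc : ∀ k, ‖c k‖ * R ^ k ≤ A / 2 ^ k) (z : ℂ) (hz : ‖z‖ ≤ R) :
    ‖∑' k, c k * z ^ k‖ ≤ 2 * A ∧ ‖∑ k ∈ range K, c k * z ^ k‖ ≤ 2 * A ∧
      ‖∑' k, c k * z ^ k - ∑ k ∈ range K, c k * z ^ k‖ ≤ 2 * A / 2 ^ K := by
  have ht : ∀ k, ‖c k * z ^ k‖ ≤ A * (1 / 2) ^ k := by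
    intro k
    rw [norm_mul, norm_pow]
    calc ‖c k‖ * ‖z‖ ^ k ≤ ‖c k‖ * R ^ k :=
          mul_le_mul_of_nonneg_left (pow_le_pow_left₀ (norm_nonneg _) hz k) (norm_nonneg _)
      _ ≤ A / 2 ^ k := hc k
      _ = A * (1 / 2) ^ k := by rw [one_div, inv_pow]; rfl
  have hg : HasSum (fun k : ℕ => A * (1 / 2 : ℝ) ^ k) (A * 2) := by
    have := hasSum_geometric_two.mul_left A
    simpa using this
  have hs : Summable (fun k => c k * z ^ k) :=
    Summable.of_norm_bounded hg.summable ht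
  refine ⟨?_, ?_, ?_⟩
  · have := tsum_of_norm_bounded hg ht
    linarith
  · refine (norm_sum_le _ _).trans ?_
    refine (Finset.sum_le_sum (fun k _ => ht k)).trans ?_
    have := hg.summable.sum_le_tsum (range K) (fun k _ => by positivity)
    rw [hg.tsum_eq] at this
    linarith
  · have h1 : ∑' k, c k * z ^ k - ∑ k ∈ range K, c k * z ^ k = ∑' k, c (k + K) * z ^ (k + K) := by
      rw [← hs.sum_add_tsum_nat_add K]; ring
    rw [h1]
    have hg2 : HasSum (fun k : ℕ => A * (1 / 2 : ℝ) ^ (k + K)) (2 * A / 2 ^ K) := by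
      have h2 := hg.mul_left ((1 / 2 : ℝ) ^ K)
      have e1 : (fun k : ℕ => A * (1 / 2 : ℝ) ^ (k + K))
          = fun k : ℕ => (1 / 2 : ℝ) ^ K * (A * (1 / 2 : ℝ) ^ k) := by
        funext k; rw [pow_add]; ring
      have e2 : 2 * A / 2 ^ K = (1 / 2 : ℝ) ^ K * (A * 2) := by
        rw [one_div, inv_pow]; field_simp
      rw [e1, e2]
      exact h2
    exact tsum_of_norm_bounded hg2 (fun k => ht (k + K))

/-- cell of a real number in `[-Q,Q]` -/
noncomputable def PLm_cell (Q : ℝ) (M : ℕ) (r : ℝ) : ℕ := ⌊(r + Q) * M / (2 * Q)⌋₊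

theorem PLm_cell_le (Q : ℝ) (hQ : 0 < Q) (M : ℕ) (r : ℝ) (hr : |r| ≤ Q) :
    PLm_cell Q M r < M + 1 := by
  unfold PLm_cell
  rw [Nat.lt_succ_iff]
  have h1 : (r + Q) * M / (2 * Q) ≤ M := by
    rw [div_le_iff₀ (by positivity)]
    have := (abs_le.1 hr).2
    have hM : (0 : ℝ) ≤ M := Nat.cast_nonneg M
    nlinarith
  exact Nat.floor_le_of_le h1

theorem PLm_cell_eq (Q : ℝ) (hQ : 0 < Q) (M : ℕ) (hM : 0 < M) (r s : ℝ) (hr : |r| ≤ Q)
    (hs : |s| ≤ Q) (h : PLm_cell Q M r = PLm_cell Q M s) : |r - s| ≤ 2 * Q / M := by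
  unfold PLm_cell at h
  have hM' : (0 : ℝ) < M := by exact_mod_cast hM
  have hr0 : 0 ≤ (r + Q) * M / (2 * Q) := by
    have := (abs_le.1 hr).1
    have : 0 ≤ r + Q := by linarith
    positivity
  have hs0 : 0 ≤ (s + Q) * M / (2 * Q) := by
    have := (abs_le.1 hs).1
    have : 0 ≤ s + Q := by linarith
    positivity
  have a1 := Nat.floor_le hr0
  have a2 := Nat.lt_floor_add_one ((r + Q) * M / (2 * Q))
  have b1 := Nat.floor_le hs0
  have b2 := Nat.lt_floor_add_one ((s + Q) * M / (2 * Q))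
  rw [h] at a1 a2
  have e : (r + Q) * M / (2 * Q) - (s + Q) * M / (2 * Q) = (r - s) * (M / (2 * Q)) := by
    field_simp; ring
  have h3 : |(r - s) * (M / (2 * Q))| ≤ 1 := by
    rw [← e, abs_le]
    constructor <;> linarith
  rw [abs_mul, abs_of_pos (by positivity : (0:ℝ) < M / (2 * Q))] at h3
  rw [le_div_iff₀ hM']
  have h4 : |r - s| * (M / (2 * Q)) * (2 * Q) ≤ 1 * (2 * Q) :=
    mul_le_mul_of_nonneg_right h3 (by positivity)
  have h5 : |r - s| * (M / (2 * Q)) * (2 * Q) = |r - s| * M := by field_simp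
  linarith

theorem pr_PLm : S_PLm := by
  classical
  intro N _ G K h c R A hR hA hK hG hc hcount
  set D := Fintype.card N with hD
  have hD1 : 1 ≤ D ^ G := by
    rcases Nat.eq_zero_or_pos (D ^ G) with h0 | h0
    · rw [h0, mul_zero] at hcount
      have : 0 < 4 * K ^ (G + 1) := by positivity
      omega
    · exact h0
  have hA0 : (0 : ℝ) ≤ A := by linarith
  have hD1' : (1 : ℝ) ≤ (D : ℝ) ^ G := by exact_mod_cast hD1
  set Q : ℝ := (D : ℝ) ^ G * 2 ^ h * A ^ G with hQ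
  have hQ1 : 1 ≤ Q := by
    have h1 : (1 : ℝ) ≤ 2 ^ h := one_le_pow₀ (by norm_num)
    have h2 : (1 : ℝ) ≤ A ^ G := one_le_pow₀ hA
    rw [hQ]
    have h3 : (1 : ℝ) ≤ (D : ℝ) ^ G * 2 ^ h := by nlinarith
    nlinarith
  have hQ0 : 0 < Q := by linarith
  -- the coefficients
  let E : ((Fin G → N) → ℤ) → (Fin G → Fin K) → ℂ := fun p κ =>
    ∑ x : Fin G → N, (p x : ℂ) * ∏ i, (c (x i) (κ i) * (R : ℂ) ^ (κ i : ℕ))
  have hterm : ∀ (x : Fin G → N) (κ : Fin G → Fin K),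
      ‖∏ i, (c (x i) (κ i) * (R : ℂ) ^ (κ i : ℕ))‖ ≤ A ^ G := by
    intro x κ
    rw [norm_prod]
    calc ∏ i, ‖c (x i) (κ i) * (R : ℂ) ^ (κ i : ℕ)‖ ≤ ∏ _i : Fin G, A := by
          refine Finset.prod_le_prod (fun _ _ => norm_nonneg _) (fun i _ => ?_)
          rw [norm_mul, norm_pow, Complex.norm_real, Real.norm_eq_abs, abs_of_nonneg hR]
          refine (hc (x i) (κ i)).trans ?_
          exact div_le_self hA0 (one_le_pow₀ (by norm_num))
      _ = A ^ G := by rw [Finset.prod_const, Finset.card_univ, Fintype.card_fin]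
  have hcardF : Fintype.card (Fin G → N) = D ^ G := by
    rw [Fintype.card_fun, Fintype.card_fin]
  have hE : ∀ (p : (Fin G → N) → ℤ), (∀ x, |p x| ≤ (2 : ℤ) ^ h) → ∀ κ, ‖E p κ‖ ≤ Q := by
    intro p hp κ
    refine (norm_sum_le _ _).trans ?_
    calc ∑ x : Fin G → N, ‖(p x : ℂ) * ∏ i, (c (x i) (κ i) * (R : ℂ) ^ (κ i : ℕ))‖
        ≤ ∑ _x : Fin G → N, (2 : ℝ) ^ h * A ^ G := by
          refine Finset.sum_le_sum (fun x _ => ?_)
          rw [norm_mul]
          refine mul_le_mul ?_ (hterm x κ) (norm_nonneg _) (by positivity)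
          rw [Complex.norm_intCast]
          have := hp x
          exact_mod_cast this
      _ = Q := by
          rw [Finset.sum_const, Finset.card_univ, hcardF, nsmul_eq_mul, hQ]
          push_cast; ring
  -- the pigeonhole principle
  let P : Type := (Fin G → N) → Fin (2 ^ h + 1)
  let toI : P → ((Fin G → N) → ℤ) := fun q x => ((q x : ℕ) : ℤ)
  have htoI : ∀ (q : P) x, |toI q x| ≤ (2 : ℤ) ^ h := by
    intro q x
    have h1 : ((q x : ℕ) : ℤ) ≤ 2 ^ h := by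
      have := (q x).2
      have h2 : (q x : ℕ) ≤ 2 ^ h := by omega
      exact_mod_cast h2
    rw [abs_of_nonneg (by positivity : (0:ℤ) ≤ ((q x : ℕ) : ℤ))]
    exact h1
  let pat : P → ((Fin G → Fin K) → Fin (2 ^ K + 1) × Fin (2 ^ K + 1)) := fun q κ =>
    (⟨PLm_cell Q (2 ^ K) (E (toI q) κ).re,
        PLm_cell_le Q hQ0 _ _ ((Complex.abs_re_le_norm _).trans (hE _ (htoI q) κ))⟩,
      ⟨PLm_cell Q (2 ^ K) (E (toI q) κ).im,
        PLm_cell_le Q hQ0 _ _ ((Complex.abs_im_le_norm _).trans (hE _ (htoI q) κ))⟩)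
  have hcard : Fintype.card ((Fin G → Fin K) → Fin (2 ^ K + 1) × Fin (2 ^ K + 1))
      < Fintype.card P := by
    have e1 : Fintype.card ((Fin G → Fin K) → Fin (2 ^ K + 1) × Fin (2 ^ K + 1))
        = ((2 ^ K + 1) * (2 ^ K + 1)) ^ (K ^ G) := by
      rw [Fintype.card_fun, Fintype.card_prod, Fintype.card_fin, Fintype.card_fun,
        Fintype.card_fin, Fintype.card_fin]
    have e2 : Fintype.card P = (2 ^ h + 1) ^ (D ^ G) := by
      show Fintype.card ((Fin G → N) → Fin (2 ^ h + 1)) = _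
      rw [Fintype.card_fun, hcardF, Fintype.card_fin]
    rw [e1, e2]
    have h2K : 2 ^ K + 1 ≤ 2 ^ (2 * K) := by
      have h1 : 2 ≤ 2 ^ K := by
        calc 2 = 2 ^ 1 := by norm_num
          _ ≤ 2 ^ K := Nat.pow_le_pow_right (by norm_num) hK
      have h2 : 2 ^ (2 * K) = 2 ^ K * 2 ^ K := by rw [two_mul, pow_add]
      rw [h2]; nlinarith
    calc ((2 ^ K + 1) * (2 ^ K + 1)) ^ (K ^ G)
        ≤ (2 ^ (2 * K) * 2 ^ (2 * K)) ^ (K ^ G) :=
          Nat.pow_le_pow_left (Nat.mul_le_mul h2K h2K) _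
      _ = 2 ^ (4 * K ^ (G + 1)) := by
          rw [← pow_add, ← pow_mul]
          congr 1; rw [pow_succ]; ring
      _ ≤ 2 ^ (h * D ^ G) := Nat.pow_le_pow_right (by norm_num) hcount
      _ = (2 ^ h) ^ (D ^ G) := by rw [pow_mul]
      _ < (2 ^ h + 1) ^ (D ^ G) := Nat.pow_lt_pow_left (by omega) (by omega)
  obtain ⟨q, q', hne, hpat⟩ := Fintype.exists_ne_map_eq_of_card_lt pat hcard
  let p : (Fin G → N) → ℤ := fun x => toI q x - toI q' x
  have hEp : ∀ κ, ‖E p κ‖ ≤ 4 * Q / 2 ^ K := by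
    intro κ
    have h1 : E p κ = E (toI q) κ - E (toI q') κ := by
      show ∑ x : Fin G → N, ((toI q x - toI q' x : ℤ) : ℂ) * _ = _
      rw [← Finset.sum_sub_distrib]
      refine Finset.sum_congr rfl (fun x _ => ?_)
      push_cast; ring
    have h2 := congrFun hpat κ
    have h3 : PLm_cell Q (2 ^ K) (E (toI q) κ).re = PLm_cell Q (2 ^ K) (E (toI q') κ).re :=
      congrArg (fun t : Fin (2 ^ K + 1) × Fin (2 ^ K + 1) => (t.1 : ℕ)) h2
    have h4 : PLm_cell Q (2 ^ K) (E (toI q) κ).im = PLm_cell Q (2 ^ K) (E (toI q') κ).im :=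
      congrArg (fun t : Fin (2 ^ K + 1) × Fin (2 ^ K + 1) => (t.2 : ℕ)) h2
    have h5 := PLm_cell_eq Q hQ0 (2 ^ K) (by positivity) _ _
      ((Complex.abs_re_le_norm _).trans (hE _ (htoI q) κ))
      ((Complex.abs_re_le_norm _).trans (hE _ (htoI q') κ)) h3
    have h6 := PLm_cell_eq Q hQ0 (2 ^ K) (by positivity) _ _
      ((Complex.abs_im_le_norm _).trans (hE _ (htoI q) κ))
      ((Complex.abs_im_le_norm _).trans (hE _ (htoI q') κ)) h4
    rw [h1]
    refine (Complex.norm_le_abs_re_add_abs_im _).trans ?_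
    rw [Complex.sub_re, Complex.sub_im]
    push_cast at h5 h6
    have : 4 * Q / 2 ^ K = 2 * Q / 2 ^ K + 2 * Q / 2 ^ K := by ring
    linarith
  refine ⟨p, ?_, ?_, ?_⟩
  · intro h0
    apply hne
    funext x
    have h1 := congrFun h0 x
    have h2 : ((q x : ℕ) : ℤ) - ((q' x : ℕ) : ℤ) = 0 := h1
    apply Fin.ext
    omega
  · intro x
    have h1 : ((q x : ℕ) : ℤ) ≤ 2 ^ h := by
      have := (q x).2
      have h2 : (q x : ℕ) ≤ 2 ^ h := by omega
      exact_mod_cast h2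
    have h2 : ((q' x : ℕ) : ℤ) ≤ 2 ^ h := by
      have := (q' x).2
      have h2 : (q' x : ℕ) ≤ 2 ^ h := by omega
      exact_mod_cast h2
    show |((q x : ℕ) : ℤ) - ((q' x : ℕ) : ℤ)| ≤ 2 ^ h
    rw [abs_le]
    constructor <;> linarith [Int.natCast_nonneg (q x : ℕ), Int.natCast_nonneg (q' x : ℕ)]
  · intro z hz
    have hp : ∀ x, |p x| ≤ (2 : ℤ) ^ h := by
      intro x
      have h1 : ((q x : ℕ) : ℤ) ≤ 2 ^ h := by
        have := (q x).2
        have h2 : (q x : ℕ) ≤ 2 ^ h := by omega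
        exact_mod_cast h2
      have h2 : ((q' x : ℕ) : ℤ) ≤ 2 ^ h := by
        have := (q' x).2
        have h2 : (q' x : ℕ) ≤ 2 ^ h := by omega
        exact_mod_cast h2
      show |((q x : ℕ) : ℤ) - ((q' x : ℕ) : ℤ)| ≤ 2 ^ h
      rw [abs_le]
      constructor <;> linarith [Int.natCast_nonneg (q x : ℕ), Int.natCast_nonneg (q' x : ℕ)]
    -- truncation
    have hone := fun (x : Fin G → N) (i : Fin G) =>
      PLm_one (c (x i)) R A hA0 K (hc (x i)) (z i) (hz i)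
    have htr : ∀ x : Fin G → N,
        ‖∏ i, ∑' k, c (x i) k * z i ^ k - ∏ i, ∑ k ∈ range K, c (x i) k * z i ^ k‖
          ≤ G * 2 ^ G * A ^ G / 2 ^ K := by
      intro x
      have h1 := PLm_prod (Finset.univ : Finset (Fin G)) (fun i => ∑' k, c (x i) k * z i ^ k)
        (fun i => ∑ k ∈ range K, c (x i) k * z i ^ k) (2 * A) (2 * A / 2 ^ K)
        (by positivity) (by positivity) (fun i => (hone x i).1) (fun i => (hone x i).2.1)
        (fun i => (hone x i).2.2)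
      rw [Finset.card_univ, Fintype.card_fin] at h1
      have h2 : (0 : ℝ) < 2 * A := by linarith
      have h3 : (G : ℝ) * (2 * A) ^ G * (2 * A / 2 ^ K)
          = (G * 2 ^ G * A ^ G / 2 ^ K) * (2 * A) := by
        rw [mul_pow]; ring
      rw [h3] at h1
      exact le_of_mul_le_mul_right h1 h2
    have hsplit : ∑ x : Fin G → N, (p x : ℂ) * ∏ i, ∑' k, c (x i) k * z i ^ k
        = ∑ x : Fin G → N, (p x : ℂ) * (∏ i, ∑' k, c (x i) k * z i ^ k
            - ∏ i, ∑ k ∈ range K, c (x i) k * z i ^ k)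
          + ∑ x : Fin G → N, (p x : ℂ) * ∏ i, ∑ k ∈ range K, c (x i) k * z i ^ k := by
      rw [← Finset.sum_add_distrib]
      refine Finset.sum_congr rfl (fun x _ => ?_)
      ring
    have hA1 : ‖∑ x : Fin G → N, (p x : ℂ) * (∏ i, ∑' k, c (x i) k * z i ^ k
            - ∏ i, ∑ k ∈ range K, c (x i) k * z i ^ k)‖ ≤ G * 2 ^ G * Q / 2 ^ K := by
      refine (norm_sum_le _ _).trans ?_
      calc ∑ x : Fin G → N, ‖(p x : ℂ) * (∏ i, ∑' k, c (x i) k * z i ^ k
            - ∏ i, ∑ k ∈ range K, c (x i) k * z i ^ k)‖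
          ≤ ∑ _x : Fin G → N, (2 : ℝ) ^ h * (G * 2 ^ G * A ^ G / 2 ^ K) := by
            refine Finset.sum_le_sum (fun x _ => ?_)
            rw [norm_mul]
            refine mul_le_mul ?_ (htr x) (norm_nonneg _) (by positivity)
            rw [Complex.norm_intCast]
            have := hp x
            exact_mod_cast this
        _ = G * 2 ^ G * Q / 2 ^ K := by
            rw [Finset.sum_const, Finset.card_univ, hcardF, nsmul_eq_mul, hQ]
            push_cast; ring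
    have hexp : ∑ x : Fin G → N, (p x : ℂ) * ∏ i, ∑ k ∈ range K, c (x i) k * z i ^ k
        = ∑ κ : Fin G → Fin K, (∑ x : Fin G → N, (p x : ℂ) * ∏ i, c (x i) (κ i))
            * ∏ i, z i ^ (κ i : ℕ) := by
      have h1 : ∀ x : Fin G → N, ∏ i, ∑ k ∈ range K, c (x i) k * z i ^ k
          = ∑ κ : Fin G → Fin K, ∏ i, (c (x i) (κ i) * z i ^ (κ i : ℕ)) := by
        intro x
        have h2 : ∀ i, ∑ k ∈ range K, c (x i) k * z i ^ k
            = ∑ k : Fin K, c (x i) k * z i ^ (k : ℕ) := by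
          intro i
          rw [Finset.sum_range]
        simp only [h2]
        rw [Finset.prod_univ_sum]
        simp
      simp only [h1, Finset.mul_sum]
      rw [Finset.sum_comm]
      refine Finset.sum_congr rfl (fun κ _ => ?_)
      rw [Finset.sum_mul]
      refine Finset.sum_congr rfl (fun x _ => ?_)
      rw [Finset.prod_mul_distrib]; ring
    have hA2 : ‖∑ x : Fin G → N, (p x : ℂ) * ∏ i, ∑ k ∈ range K, c (x i) k * z i ^ k‖
        ≤ K ^ G * (4 * Q / 2 ^ K) := by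
      rw [hexp]
      refine (norm_sum_le _ _).trans ?_
      calc ∑ κ : Fin G → Fin K, ‖(∑ x : Fin G → N, (p x : ℂ) * ∏ i, c (x i) (κ i))
            * ∏ i, z i ^ (κ i : ℕ)‖
          ≤ ∑ _κ : Fin G → Fin K, 4 * Q / 2 ^ K := by
            refine Finset.sum_le_sum (fun κ _ => ?_)
            refine le_trans ?_ (hEp κ)
            have e1 : E p κ = (∑ x : Fin G → N, (p x : ℂ) * ∏ i, c (x i) (κ i))
                * ∏ i, (R : ℂ) ^ (κ i : ℕ) := by
              show ∑ x : Fin G → N, (p x : ℂ) * ∏ i, (c (x i) (κ i) * (R : ℂ) ^ (κ i : ℕ)) = _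
              rw [Finset.sum_mul]
              refine Finset.sum_congr rfl (fun x _ => ?_)
              rw [Finset.prod_mul_distrib]; ring
            rw [e1, norm_mul, norm_mul]
            refine mul_le_mul_of_nonneg_left ?_ (norm_nonneg _)
            rw [norm_prod, norm_prod]
            refine Finset.prod_le_prod (fun _ _ => norm_nonneg _) (fun i _ => ?_)
            rw [norm_pow, norm_pow, Complex.norm_real, Real.norm_eq_abs, abs_of_nonneg hR]
            exact pow_le_pow_left₀ (norm_nonneg _) (hz i) _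
        _ = K ^ G * (4 * Q / 2 ^ K) := by
            rw [Finset.sum_const, Finset.card_univ, Fintype.card_fun, Fintype.card_fin,
              Fintype.card_fin, nsmul_eq_mul]
            push_cast; ring
    rw [hsplit]
    refine (norm_add_le _ _).trans ?_
    refine (add_le_add hA1 hA2).trans ?_
    have h24 : (2 : ℝ) ^ G ≤ 4 ^ G := pow_le_pow_left₀ (by norm_num) (by norm_num) G
    have hG0 : (0 : ℝ) ≤ G := Nat.cast_nonneg G
    have e1 : (G : ℝ) * 2 ^ G * Q / 2 ^ K + K ^ G * (4 * Q / 2 ^ K)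
        = (4 * (K : ℝ) ^ G + G * 2 ^ G) * Q / 2 ^ K := by ring
    rw [e1]
    refine div_le_div_of_nonneg_right ?_ (by positivity)
    refine mul_le_mul_of_nonneg_right ?_ hQ0.le
    have := mul_le_mul_of_nonneg_left h24 hG0
    linarith

end Pool.Agent.Work.MP_327059_nt.GL

end

section

/-!
# Item Pert
-/

set_option autoImplicit false

namespace Pool.Agent.Work.MP_327059_nt.GL

theorem pr_Pert : S_Pert := by
  intro ι _ a ha
  set A0 : ℝ := ∑ i, ‖a i‖⁻¹ with hA0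
  have hA0n : 0 ≤ A0 := Finset.sum_nonneg fun i _ => by positivity
  have hA0i : ∀ i, ‖a i‖⁻¹ ≤ A0 := fun i =>
    Finset.single_le_sum (f := fun i => ‖a i‖⁻¹) (fun j _ => by positivity) (Finset.mem_univ i)
  set N : ℝ := (Fintype.card ι : ℝ) with hN
  have hNn : 0 ≤ N := Nat.cast_nonneg _
  refine ⟨4 * N * A0 + 2 * A0 + 1, ?_, ?_⟩
  · have : 0 ≤ N * A0 := mul_nonneg hNn hA0n
    linarith
  intro ε E a' e hε hclose hE h1 h2 hprod
  have hEn : (0 : ℝ) ≤ E := Nat.cast_nonneg E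
  have hNA : 0 ≤ N * A0 := mul_nonneg hNn hA0n
  have hAε : 2 * (A0 * ε) ≤ 1 := by
    have : 0 ≤ N * A0 * ε := mul_nonneg hNA hε
    nlinarith
  -- the relative errors
  have hη : ∀ i, ∃ u : ℂ, a' i = a i * Complex.exp u ∧ ‖u‖ ≤ 3 / 2 * (A0 * ε) := by
    intro i
    have hpos : 0 < ‖a i‖ := norm_pos_iff.2 (ha i)
    have e1 : ‖(a' i - a i) / a i‖ ≤ A0 * ε := by
      rw [norm_div, div_eq_inv_mul]
      exact mul_le_mul (hA0i i) (hclose i) (norm_nonneg _) hA0n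
    have e2 : ‖(a' i - a i) / a i‖ ≤ 1 / 2 := by linarith
    have e3 : 1 + (a' i - a i) / a i ≠ 0 := by
      intro h
      have : (a' i - a i) / a i = -1 := by linear_combination h
      rw [this, norm_neg, norm_one] at e2
      norm_num at e2
    refine ⟨Complex.log (1 + (a' i - a i) / a i), ?_, ?_⟩
    · rw [Complex.exp_log e3]
      have := ha i
      field_simp
      ring
    · refine (Complex.norm_log_one_add_half_le_self e2).trans ?_
      linarith
  choose u hu1 hu2 using hη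
  have hfac : ∏ i, a' i ^ e i = (∏ i, a i ^ e i) * Complex.exp (∑ i, (e i : ℂ) * u i) := by
    rw [Complex.exp_sum, ← Finset.prod_mul_distrib]
    refine Finset.prod_congr rfl fun i _ => ?_
    rw [hu1 i, mul_zpow, ← Complex.exp_int_mul]
  have hmain : ∏ i, a i ^ e i = Complex.exp (-∑ i, (e i : ℂ) * u i) := by
    rw [hfac] at hprod
    rw [Complex.exp_neg]
    exact eq_inv_of_mul_eq_one_left hprod
  have hU : ‖-∑ i, (e i : ℂ) * u i‖ ≤ N * (E * (3 / 2 * (A0 * ε))) := by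
    rw [norm_neg]
    refine (norm_sum_le _ _).trans ?_
    have : ∀ i ∈ (Finset.univ : Finset ι), ‖(e i : ℂ) * u i‖ ≤ E * (3 / 2 * (A0 * ε)) := by
      intro i _
      rw [norm_mul]
      refine mul_le_mul ?_ (hu2 i) (norm_nonneg _) hEn
      rw [Complex.norm_intCast]
      exact_mod_cast hE i
    refine (Finset.sum_le_sum this).trans ?_
    rw [Finset.sum_const, nsmul_eq_mul, Finset.card_univ]
  have hEε : 0 ≤ E * ε := mul_nonneg hEn hε
  have hU1 : ‖-∑ i, (e i : ℂ) * u i‖ ≤ 1 := by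
    refine hU.trans ?_
    have e1 : 0 ≤ N * A0 * (E * ε) := mul_nonneg hNA hEε
    have e2 : 0 ≤ A0 * (E * ε) := mul_nonneg hA0n hEε
    have e3 : (4 * N * A0 + 2 * A0 + 1) * E * ε =
      4 * (N * A0 * (E * ε)) + 2 * (A0 * (E * ε)) + E * ε := by ring
    rw [e3] at h1
    have e4 : N * (E * (3 / 2 * (A0 * ε))) = 3 / 2 * (N * A0 * (E * ε)) := by ring
    rw [e4]
    linarith
  rw [hmain]
  refine (Complex.norm_exp_sub_one_le hU1).trans ?_
  have e1 : 0 ≤ N * A0 * (E * ε) := mul_nonneg hNA hEε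
  have e2 : 0 ≤ A0 * (E * ε) := mul_nonneg hA0n hEε
  have e3 : (4 * N * A0 + 2 * A0 + 1) * E * ε =
    4 * (N * A0 * (E * ε)) + 2 * (A0 * (E * ε)) + E * ε := by ring
  rw [e3]
  have e4 : N * (E * (3 / 2 * (A0 * ε))) = 3 / 2 * (N * A0 * (E * ε)) := by ring
  rw [e4] at hU
  linarith

end Pool.Agent.Work.MP_327059_nt.GL

end

section

/-!
# Item Psi: the auxiliary function
-/

set_option autoImplicit false

namespace Pool.Agent.Work.MP_327059_nt.GL

theorem Psi_pow_le (t : ℝ) (ht : 0 ≤ t) (n : ℕ) : t ^ n ≤ Real.exp (n * t) := by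
  have h1 : t ≤ Real.exp t := by linarith [Real.add_one_le_exp t]
  calc t ^ n ≤ Real.exp t ^ n := pow_le_pow_left₀ ht h1 n
    _ = Real.exp (n * t) := (Real.exp_nat_mul t n).symm

theorem Psi_two_le (n : ℕ) : (2 : ℝ) ^ n ≤ Real.exp n := by
  have h2 : (2 : ℝ) ≤ Real.exp 1 := by linarith [Real.add_one_le_exp (1 : ℝ)]
  calc (2 : ℝ) ^ n ≤ Real.exp 1 ^ n := pow_le_pow_left₀ (by norm_num) h2 n
    _ = Real.exp (n * 1) := (Real.exp_nat_mul 1 n).symm
    _ = Real.exp n := by rw [mul_one]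

theorem Psi_le_two (n : ℕ) : Real.exp ((n : ℝ) / 2) ≤ (2 : ℝ) ^ n := by
  have h0 : Real.exp (1 / 2 : ℝ) ≤ 2 := by
    have h1 : Real.exp (1 / 2 : ℝ) * Real.exp (1 / 2 : ℝ) = Real.exp 1 := by
      rw [← Real.exp_add]; norm_num
    have h2 := Real.exp_one_lt_d9
    have h3 := Real.exp_pos (1 / 2 : ℝ)
    by_contra hc
    push_neg at hc
    nlinarith
  calc Real.exp ((n : ℝ) / 2) = Real.exp (n * (1 / 2 : ℝ)) := by ring_nf
    _ = Real.exp (1 / 2 : ℝ) ^ n := Real.exp_nat_mul _ n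
    _ ≤ 2 ^ n := pow_le_pow_left₀ (Real.exp_pos _).le h0 n

theorem Psi_est (G u q m e : ℕ) (R0 β : ℝ) (hR0 : 1 ≤ R0) (hβ : 0 ≤ β) (he : e ≤ 1)
    (hu : q + 2 ≤ u) (T : ℕ) (hT1 : 1 ≤ T)
    (hTC : 4 * ((4 + (G : ℝ) * 4 ^ G) + u * G + (q * e + q * m : ℕ) * G + 1 +
      (2 * R0 + 2 * R0 * β) * G) ≤ T) :
    (4 * ((T ^ u : ℕ) : ℝ) ^ G + G * 4 ^ G) *
      (((T ^ (q * e) * (T ^ q) ^ m : ℕ) : ℝ) ^ G * 2 ^ (T ^ (q + 1)) *
        ((2 * (R0 * T)) ^ (T ^ (q * e)) *
          Real.exp (2 * (R0 * T) * (((T ^ q : ℕ) : ℝ) * β))) ^ G) / 2 ^ (T ^ u) ≤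
      Real.exp (-((T : ℝ) ^ u / 4)) := by
  set t : ℝ := (T : ℝ) with ht
  have ht1 : (1 : ℝ) ≤ t := by rw [ht]; exact_mod_cast hT1
  have ht0 : (0 : ℝ) ≤ t := by linarith
  set X : ℝ := t ^ (q + 1) with hX
  have hX1 : 1 ≤ X := one_le_pow₀ ht1
  have htX : t ≤ X := le_self_pow₀ ht1 (by omega)
  have hG0 : (0 : ℝ) ≤ G := Nat.cast_nonneg G
  set C1 : ℝ := 4 + (G : ℝ) * 4 ^ G with hC1
  have hC10 : 0 ≤ C1 := by positivity
  -- (b)
  have hb : 4 * ((T ^ u : ℕ) : ℝ) ^ G + G * 4 ^ G ≤ Real.exp (C1 * X + u * G * X) := by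
    have e1 : ((T ^ u : ℕ) : ℝ) ^ G ≤ Real.exp (u * G * X) := by
      push_cast
      rw [← pow_mul]
      refine (Psi_pow_le t ht0 (u * G)).trans (Real.exp_le_exp.2 ?_)
      push_cast
      exact mul_le_mul_of_nonneg_left htX (by positivity)
    have e2 : (1 : ℝ) ≤ Real.exp (u * G * X) := Real.one_le_exp (by positivity)
    have e3 : C1 ≤ Real.exp (C1 * X) := by
      have : C1 ≤ C1 * X := le_mul_of_one_le_right hC10 hX1
      linarith [Real.add_one_le_exp (C1 * X)]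
    calc 4 * ((T ^ u : ℕ) : ℝ) ^ G + G * 4 ^ G
        ≤ 4 * Real.exp (u * G * X) + (G * 4 ^ G) * Real.exp (u * G * X) := by
          have e4 : (G : ℝ) * 4 ^ G ≤ (G * 4 ^ G) * Real.exp (u * G * X) :=
            le_mul_of_one_le_right (by positivity) e2
          linarith
      _ = C1 * Real.exp (u * G * X) := by rw [hC1]; ring
      _ ≤ Real.exp (C1 * X) * Real.exp (u * G * X) :=
          mul_le_mul_of_nonneg_right e3 (Real.exp_pos _).le
      _ = Real.exp (C1 * X + u * G * X) := (Real.exp_add _ _).symm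
  -- (c)
  have hc : ((T ^ (q * e) * (T ^ q) ^ m : ℕ) : ℝ) ^ G ≤
      Real.exp (((q * e + q * m : ℕ) : ℝ) * G * X) := by
    have e1 : ((T ^ (q * e) * (T ^ q) ^ m : ℕ) : ℝ) ^ G = t ^ ((q * e + q * m) * G) := by
      push_cast
      rw [← pow_mul, ← pow_add, ← pow_mul]
    rw [e1]
    refine (Psi_pow_le t ht0 _).trans (Real.exp_le_exp.2 ?_)
    rw [Nat.cast_mul]
    exact mul_le_mul_of_nonneg_left htX (by positivity)
  -- (d)
  have hd : (2 : ℝ) ^ (T ^ (q + 1)) ≤ Real.exp X := by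
    refine (Psi_two_le _).trans (Real.exp_le_exp.2 ?_)
    push_cast
    exact le_refl _
  -- (e)
  have hee : (2 * (R0 * t)) ^ (T ^ (q * e)) ≤ Real.exp (2 * R0 * X) := by
    refine (Psi_pow_le (2 * (R0 * t)) (by positivity) _).trans (Real.exp_le_exp.2 ?_)
    have e1 : ((T ^ (q * e) : ℕ) : ℝ) ≤ t ^ q := by
      push_cast
      exact pow_le_pow_right₀ ht1 (by nlinarith)
    calc ((T ^ (q * e) : ℕ) : ℝ) * (2 * (R0 * t)) ≤ t ^ q * (2 * (R0 * t)) :=
          mul_le_mul_of_nonneg_right e1 (by positivity)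
      _ = 2 * R0 * X := by rw [hX]; ring
  have hf : Real.exp (2 * (R0 * t) * (((T ^ q : ℕ) : ℝ) * β)) = Real.exp (2 * R0 * β * X) := by
    congr 1
    push_cast
    rw [hX]
    ring
  have hg : ((2 * (R0 * t)) ^ (T ^ (q * e)) *
      Real.exp (2 * (R0 * t) * (((T ^ q : ℕ) : ℝ) * β))) ^ G ≤
      Real.exp ((2 * R0 + 2 * R0 * β) * G * X) := by
    rw [hf]
    have e1 : (2 * (R0 * t)) ^ (T ^ (q * e)) * Real.exp (2 * R0 * β * X) ≤
        Real.exp (2 * R0 * X + 2 * R0 * β * X) := by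
      rw [Real.exp_add]
      exact mul_le_mul_of_nonneg_right hee (Real.exp_pos _).le
    have e0 : 0 ≤ (2 * (R0 * t)) ^ (T ^ (q * e)) * Real.exp (2 * R0 * β * X) := by
      have : 0 ≤ 2 * (R0 * t) := by positivity
      positivity
    calc ((2 * (R0 * t)) ^ (T ^ (q * e)) * Real.exp (2 * R0 * β * X)) ^ G
        ≤ Real.exp (2 * R0 * X + 2 * R0 * β * X) ^ G := pow_le_pow_left₀ e0 e1 G
      _ = Real.exp (G * (2 * R0 * X + 2 * R0 * β * X)) := (Real.exp_nat_mul _ G).symm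
      _ = Real.exp ((2 * R0 + 2 * R0 * β) * G * X) := by congr 1; ring
  have hh := Psi_le_two (T ^ u)
  have hhp : (0 : ℝ) < 2 ^ (T ^ u) := by positivity
  rw [div_le_iff₀ hhp]
  have n1 : 0 ≤ ((T ^ (q * e) * (T ^ q) ^ m : ℕ) : ℝ) ^ G := by positivity
  have n2 : (0 : ℝ) ≤ 2 ^ (T ^ (q + 1)) := by positivity
  have n3 : 0 ≤ ((2 * (R0 * t)) ^ (T ^ (q * e)) *
      Real.exp (2 * (R0 * t) * (((T ^ q : ℕ) : ℝ) * β))) ^ G := by
    have : 0 ≤ 2 * (R0 * t) := by positivity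
    positivity
  calc (4 * ((T ^ u : ℕ) : ℝ) ^ G + G * 4 ^ G) *
      (((T ^ (q * e) * (T ^ q) ^ m : ℕ) : ℝ) ^ G * 2 ^ (T ^ (q + 1)) *
        ((2 * (R0 * t)) ^ (T ^ (q * e)) *
          Real.exp (2 * (R0 * t) * (((T ^ q : ℕ) : ℝ) * β))) ^ G)
      ≤ Real.exp (C1 * X + u * G * X) *
        (Real.exp (((q * e + q * m : ℕ) : ℝ) * G * X) * Real.exp X *
          Real.exp ((2 * R0 + 2 * R0 * β) * G * X)) := by
        refine mul_le_mul hb ?_ ?_ (Real.exp_pos _).le
        · refine mul_le_mul ?_ hg n3 ?_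
          · exact mul_le_mul hc hd n2 (Real.exp_pos _).le
          · positivity
        · exact mul_nonneg (mul_nonneg n1 n2) n3
    _ = Real.exp ((C1 + u * G + (q * e + q * m : ℕ) * G + 1 + (2 * R0 + 2 * R0 * β) * G) * X) := by
        rw [← Real.exp_add, ← Real.exp_add, ← Real.exp_add]
        congr 1
        ring
    _ ≤ Real.exp (t ^ u / 4) := by
        refine Real.exp_le_exp.2 ?_
        have e1 : t * X ≤ t ^ u := by
          calc t * X = t ^ (q + 2) := by rw [hX]; ring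
            _ ≤ t ^ u := pow_le_pow_right₀ ht1 hu
        have e2 := mul_le_mul_of_nonneg_right hTC (by linarith : (0 : ℝ) ≤ X)
        linarith
    _ = Real.exp (-(t ^ u / 4)) * Real.exp (t ^ u / 2) := by
        rw [← Real.exp_add]
        congr 1
        ring
    _ ≤ Real.exp (-(t ^ u / 4)) * 2 ^ (T ^ u) := by
        refine mul_le_mul_of_nonneg_left ?_ (Real.exp_pos _).le
        refine le_trans (le_of_eq ?_) hh
        push_cast
        rfl

theorem Psi_arith (M T : ℕ) (hM : 2 ≤ M) (hT : 4 ≤ T) :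
    4 * (T ^ (((M + 2) ^ 2 + 1) * (M - 1) + 2)) ^ (M + 1 + 1) ≤
      T ^ ((M + 2) ^ 2 + 1) * (T ^ ((M + 2) ^ 2 * M)) ^ (M + 1) := by
  obtain ⟨k, rfl⟩ : ∃ k, M = k + 2 := ⟨M - 2, by omega⟩
  have h1 : k + 2 - 1 = k + 1 := by omega
  rw [h1, ← pow_mul, ← pow_mul, ← pow_add]
  calc 4 * T ^ ((((k + 2 + 2) ^ 2 + 1) * (k + 1) + 2) * (k + 2 + 1 + 1))
      ≤ T * T ^ ((((k + 2 + 2) ^ 2 + 1) * (k + 1) + 2) * (k + 2 + 1 + 1)) :=
        Nat.mul_le_mul_right _ hT
    _ = T ^ ((((k + 2 + 2) ^ 2 + 1) * (k + 1) + 2) * (k + 2 + 1 + 1) + 1) := by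
        rw [pow_succ]; ring
    _ ≤ T ^ ((k + 2 + 2) ^ 2 + 1 + (k + 2 + 2) ^ 2 * (k + 2) * (k + 2 + 1)) := by
        refine Nat.pow_le_pow_right (by omega) ?_
        nlinarith [Nat.zero_le k, Nat.zero_le (k ^ 2), Nat.zero_le (k ^ 3)]

theorem pr_Psi (h1 : S_PLm) (h2 : S_Tay) : S_Psi := by
  intro m e he hM b R0 hR0
  have hβ0 : 0 ≤ ∑ j, ‖b j‖ := Finset.sum_nonneg fun j _ => norm_nonneg _
  obtain ⟨T₀, hT₀⟩ := exists_nat_ge
    (4 * ((4 + ((m + e + 1 : ℕ) : ℝ) * 4 ^ (m + e + 1)) +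
      ((((m + e + 2) ^ 2 + 1) * (m + e - 1) + 2 : ℕ) : ℝ) * ((m + e + 1 : ℕ) : ℝ) +
      (((m + e + 2) ^ 2 * e + (m + e + 2) ^ 2 * m : ℕ) : ℝ) * ((m + e + 1 : ℕ) : ℝ) + 1 +
      (2 * R0 + 2 * R0 * ∑ j, ‖b j‖) * ((m + e + 1 : ℕ) : ℝ)))
  refine ⟨T₀ + 4, fun T hT => ?_⟩
  have hT4 : 4 ≤ T := by omega
  have hT1 : 1 ≤ T := by omega
  have hTr : (1 : ℝ) ≤ T := by exact_mod_cast hT1
  have hTT : (T₀ : ℝ) ≤ T := by exact_mod_cast (by omega : T₀ ≤ T)
  have hR1 : 1 ≤ R0 * T := one_le_mul_of_one_le_of_one_le hR0 hTr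
  have hbw : ∀ x : Ix m (T ^ ((m + e + 2) ^ 2 * e)) (T ^ ((m + e + 2) ^ 2)),
      ‖bw b x‖ ≤ ((T ^ ((m + e + 2) ^ 2) : ℕ) : ℝ) * ∑ j, ‖b j‖ := by
    intro x
    unfold bw
    rw [Finset.mul_sum]
    refine (norm_sum_le _ _).trans (Finset.sum_le_sum fun j _ => ?_)
    rw [norm_mul, Complex.norm_natCast]
    refine mul_le_mul_of_nonneg_right ?_ (norm_nonneg _)
    exact_mod_cast (x.2 j).2.le
  choose c hc1 hc2 using fun x : Ix m (T ^ ((m + e + 2) ^ 2 * e)) (T ^ ((m + e + 2) ^ 2)) =>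
    h2 (x.1 : ℕ) (T ^ ((m + e + 2) ^ 2 * e)) (bw b x) (R0 * T)
      (((T ^ ((m + e + 2) ^ 2) : ℕ) : ℝ) * ∑ j, ‖b j‖) hR1 x.1.2.le (hbw x)
  have hcard : Fintype.card (Ix m (T ^ ((m + e + 2) ^ 2 * e)) (T ^ ((m + e + 2) ^ 2))) =
      T ^ ((m + e + 2) ^ 2 * e) * (T ^ ((m + e + 2) ^ 2)) ^ m := by
    simp [Ix, Fintype.card_prod, Fintype.card_fin]
  have hA1 : (1 : ℝ) ≤ (2 * (R0 * T)) ^ (T ^ ((m + e + 2) ^ 2 * e)) *
      Real.exp (2 * (R0 * T) * (((T ^ ((m + e + 2) ^ 2) : ℕ) : ℝ) * ∑ j, ‖b j‖)) := by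
    refine one_le_mul_of_one_le_of_one_le (one_le_pow₀ (by linarith)) (Real.one_le_exp ?_)
    have : 0 ≤ R0 * T := by linarith
    positivity
  have hK1 : 1 ≤ T ^ (((m + e + 2) ^ 2 + 1) * (m + e - 1) + 2) := Nat.one_le_pow _ _ hT1
  obtain ⟨p, hp0, hp, hz⟩ := h1 (Ix m (T ^ ((m + e + 2) ^ 2 * e)) (T ^ ((m + e + 2) ^ 2)))
    (m + e + 1) (T ^ (((m + e + 2) ^ 2 + 1) * (m + e - 1) + 2)) (T ^ ((m + e + 2) ^ 2 + 1))
    c (R0 * T) _ (by linarith) hA1 hK1 (by omega) hc2 (by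
      rw [hcard]
      have h3 : T ^ ((m + e + 2) ^ 2 * e) * (T ^ ((m + e + 2) ^ 2)) ^ m =
          T ^ ((m + e + 2) ^ 2 * (m + e)) := by
        rw [← pow_mul, ← pow_add]
        congr 1
        ring
      rw [h3]
      exact Psi_arith (m + e) T hM hT4)
  refine ⟨p, hp0, hp, fun z hz' => ?_⟩
  have h3 := hz z hz'
  have h4 : ∀ x : Fin (m + e + 1) → Ix m (T ^ ((m + e + 2) ^ 2 * e)) (T ^ ((m + e + 2) ^ 2)),
      ∀ i, ∑' k, c (x i) k * z i ^ k =
        z i ^ ((x i).1 : ℕ) * Complex.exp (bw b (x i) * z i) := fun x i =>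
    (hc1 (x i) (z i)).tsum_eq
  simp only [h4] at h3
  refine h3.trans ?_
  rw [hcard]
  refine Psi_est (m + e + 1) _ ((m + e + 2) ^ 2) m e R0 (∑ j, ‖b j‖) hR0 hβ0 he ?_ T hT1
    (hT₀.trans hTT)
  obtain ⟨k, hk⟩ : ∃ k, m + e = k + 2 := ⟨m + e - 2, by omega⟩
  rw [hk]
  have h5 : k + 2 - 1 = k + 1 := by omega
  rw [h5]
  nlinarith [Nat.zero_le k, Nat.zero_le (k ^ 2)]

end Pool.Agent.Work.MP_327059_nt.GL

end

section

/-!
# PART T: integer points of a box in a rational subspace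
-/

set_option autoImplicit false

namespace Pool.Agent.Work.MP_327059_nt.GL

open Finset

theorem RankBox_coords (n : ℕ) (V : Submodule ℚ (Fin n → ℚ)) :
    ∃ (m : ℕ) (I : Fin m → Fin n), m ≤ Module.finrank ℚ V ∧
      ∀ v ∈ V, (∀ k, v (I k) = 0) → v = 0 := by
  let φ : Fin n → Module.Dual ℚ V := fun i => (LinearMap.proj i : (Fin n → ℚ) →ₗ[ℚ] ℚ).comp V.subtype
  obtain ⟨f, hf1, hf2, _⟩ := Submodule.exists_fun_fin_finrank_span_eq ℚ (Set.range φ)
  choose I hI using hf1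
  refine ⟨_, I, ?_, ?_⟩
  · calc Module.finrank ℚ (Submodule.span ℚ (Set.range φ)) ≤ Module.finrank ℚ (Module.Dual ℚ V) :=
        Submodule.finrank_le _
      _ = Module.finrank ℚ V := Subspace.dual_finrank_eq
  · intro v hv h
    have h1 : ∀ g ∈ Submodule.span ℚ (Set.range f), g ⟨v, hv⟩ = 0 := by
      intro g hg
      induction hg using Submodule.span_induction with
      | mem x hx =>
        obtain ⟨k, rfl⟩ := hx
        rw [← hI k]
        exact h k
      | zero => rfl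
      | add x y _ _ hx hy => rw [LinearMap.add_apply, hx, hy, add_zero]
      | smul a x _ hx => rw [LinearMap.smul_apply, hx, smul_zero]
    funext i
    exact h1 (φ i) (by rw [hf2]; exact Submodule.subset_span ⟨i, rfl⟩)

theorem pr_RankBox : S_RankBox := by
  intro n S r V hr
  obtain ⟨m, I, hm, hI⟩ := RankBox_coords n V
  have hfin : (Fintype.piFinset (fun _ : Fin m => Finset.Icc (-(S : ℤ)) S)).card =
      (2 * S + 1) ^ m := by
    rw [Fintype.card_piFinset_const, Int.card_Icc]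
    congr 1
    omega
  calc Set.ncard {s : Fin n → ℤ | (∀ i, |s i| ≤ (S : ℤ)) ∧ (fun i => (s i : ℚ)) ∈ V}
      ≤ Set.ncard (↑(Fintype.piFinset (fun _ : Fin m => Finset.Icc (-(S : ℤ)) S)) :
          Set (Fin m → ℤ)) := by
        apply Set.ncard_le_ncard_of_injOn (fun s k => s (I k))
        · rintro s ⟨hs, _⟩
          simp only [Finset.mem_coe, Fintype.mem_piFinset, Finset.mem_Icc]
          intro k
          exact abs_le.mp (hs (I k))
        · rintro s ⟨_, hs⟩ s' ⟨_, hs'⟩ h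
          have h2 : (fun i => (s i : ℚ)) - (fun i => (s' i : ℚ)) = 0 := by
            apply hI _ (V.sub_mem hs hs')
            intro k
            have h3 : s (I k) = s' (I k) := congrFun h k
            simp [h3]
          funext i
          have h4 := congrFun h2 i
          simp only [Pi.sub_apply, Pi.zero_apply] at h4
          exact_mod_cast sub_eq_zero.mp h4
    _ = (2 * S + 1) ^ m := by rw [Set.ncard_coe_finset, hfin]
    _ ≤ (2 * S + 1) ^ r := Nat.pow_le_pow_right (by omega) (hm.trans hr)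

end Pool.Agent.Work.MP_327059_nt.GL

end

section

set_option autoImplicit false

namespace Pool.Agent.Work.MP_327059_nt.GL

theorem pr_Sieg : S_Sieg := by
  classical
  intro ρ K T k hk hlt
  let F : Finset (Fin ρ → ℤ) := Fintype.piFinset (fun _ => Finset.Icc (0 : ℤ) T)
  let G : Finset ℤ := Finset.Icc (-((ρ * T * K : ℕ) : ℤ)) ((ρ * T * K : ℕ) : ℤ)
  have hF : F.card = (T + 1) ^ ρ := by
    simp [F, Fintype.card_piFinset, Int.card_Icc]
  have hG : G.card = 2 * ρ * T * K + 1 := by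
    simp only [G, Int.card_Icc]
    have : ((ρ * T * K : ℕ) : ℤ) + 1 - -((ρ * T * K : ℕ) : ℤ) = ((2 * ρ * T * K + 1 : ℕ) : ℤ) := by
      push_cast; ring
    rw [this, Int.toNat_natCast]
  have hmap : ∀ c ∈ F, ∑ i, c i * k i ∈ G := by
    intro c hc
    have hc' : ∀ i, 0 ≤ c i ∧ c i ≤ T := by
      intro i
      have := (Fintype.mem_piFinset.1 hc) i
      simpa using this
    have hb : |∑ i, c i * k i| ≤ ((ρ * T * K : ℕ) : ℤ) := by
      calc |∑ i, c i * k i| ≤ ∑ i, |c i * k i| := Finset.abs_sum_le_sum_abs _ _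
        _ ≤ ∑ _i : Fin ρ, (T : ℤ) * K := by
            apply Finset.sum_le_sum
            intro i _
            rw [abs_mul]
            exact mul_le_mul (by rw [abs_of_nonneg (hc' i).1]; exact (hc' i).2) (hk i)
              (abs_nonneg _) (by positivity)
        _ = ((ρ * T * K : ℕ) : ℤ) := by
            rw [Finset.sum_const, Finset.card_univ, Fintype.card_fin, nsmul_eq_mul]
            push_cast; ring
    exact Finset.mem_Icc.2 (abs_le.1 hb)
  obtain ⟨c, hc, c', hc', hne, heq⟩ := Finset.exists_ne_map_eq_of_card_lt_of_maps_to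
    (by rw [hF, hG]; exact hlt) hmap
  refine ⟨c - c', sub_ne_zero.2 hne, ?_, ?_⟩
  · intro i
    have h1 := (Fintype.mem_piFinset.1 hc) i
    have h2 := (Fintype.mem_piFinset.1 hc') i
    rw [Finset.mem_Icc] at h1 h2
    rw [Pi.sub_apply, abs_le]
    constructor <;> linarith [h1.1, h1.2, h2.1, h2.2]
  · simp only [Pi.sub_apply, sub_mul, Finset.sum_sub_distrib]
    rw [heq, sub_self]

end Pool.Agent.Work.MP_327059_nt.GL

end

section

/-!
# Item TI: the transcendence input from large transcendence degree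
-/

set_option autoImplicit false

namespace Pool.Agent.Work.MP_327059_nt.GL

open MvPolynomial

theorem TI_empty {k : ℕ} (hk : k = 0) (f : Fin k → ℂ) : AlgebraicIndependent ℚ f := by
  subst hk
  exact algebraicIndependent_empty_type_iff.2 (algebraMap ℚ ℂ).injective

theorem TI_cast {σ : Type} {k τ : ℕ} (hk : k = τ + 1) (θ : σ → ℂ) (h : ¬ TrLe τ θ) :
    ∃ s : Fin k → σ, AlgebraicIndependent ℚ (fun i => θ (s i)) := by
  subst hk
  unfold TrLe at h
  push Not at h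
  exact h

theorem pr_TI (h1 : S_TIe) : S_TI := by
  intro m
  rcases Nat.lt_or_ge m 1 with hm | hm
  · refine ⟨0, fun b _ _ n _ l _ _ => ⟨?_, ?_⟩⟩
    · have hm0 : m = 0 := by omega
      subst hm0
      exact ⟨Fin.elim0, TI_empty rfl _⟩
    · have hm0 : m = 0 := by omega
      subst hm0
      exact ⟨Fin.elim0, TI_empty rfl _⟩
  · obtain ⟨n1, hn1⟩ := h1 m 1 le_rfl (by omega)
    rcases Nat.lt_or_ge m 2 with hm2 | hm2
    · refine ⟨n1, fun b hb hbi n hn l hl hle => ⟨?_, ?_⟩⟩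
      · exact TI_cast (by omega) _ ((hn1 b hb hbi n hn l hl hle).1 rfl)
      · have hm0 : m = 1 := by omega
        subst hm0
        exact ⟨Fin.elim0, TI_empty rfl _⟩
    · obtain ⟨n2, hn2⟩ := h1 m 0 (by omega) (by omega)
      refine ⟨max n1 n2, fun b hb hbi n hn l hl hle => ⟨?_, ?_⟩⟩
      · exact TI_cast (by omega) _
          ((hn1 b hb hbi n (le_trans (le_max_left _ _) hn) l hl hle).1 rfl)
      · exact TI_cast (σ := Fin n × Fin m) (by omega)
          (fun q : Fin n × Fin m => Complex.exp (b q.2 * l q.1))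
          ((hn2 b hb hbi n (le_trans (le_max_right _ _) hn) l hl hle).2 rfl)

end Pool.Agent.Work.MP_327059_nt.GL

end

section

/-!
# T17: Taylor coefficients of `z^a e^{βz}`
-/

set_option autoImplicit false

namespace Pool.Agent.Work.MP_327059_nt.GL

open MvPolynomial

theorem pr_Tay : S_Tay := by
  intro a A0 β R β0 hR ha hβ
  refine ⟨fun k => if a ≤ k then β ^ (k - a) / ((k - a).factorial : ℂ) else 0, ?_, ?_⟩
  · intro z
    have h1 : HasSum (fun n : ℕ => (β * z) ^ n / (n.factorial : ℂ)) (Complex.exp (β * z)) := by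
      rw [Complex.exp_eq_exp_ℂ]
      exact NormedSpace.expSeries_div_hasSum_exp (β * z)
    have h2 := h1.mul_left (z ^ a)
    rw [← hasSum_nat_add_iff' a]
    have h3 : ∑ i ∈ Finset.range a, (if a ≤ i then β ^ (i - a) / ((i - a).factorial : ℂ) else 0) *
        z ^ i = 0 := by
      apply Finset.sum_eq_zero
      intro i hi
      rw [Finset.mem_range] at hi
      rw [if_neg (by omega), zero_mul]
    rw [h3, sub_zero]
    have h4 : (fun n : ℕ => (if a ≤ n + a then β ^ (n + a - a) / ((n + a - a).factorial : ℂ)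
        else 0) * z ^ (n + a)) = fun n : ℕ => z ^ a * ((β * z) ^ n / (n.factorial : ℂ)) := by
      funext n
      rw [if_pos (by omega), Nat.add_sub_cancel, mul_pow, pow_add]
      ring
    exact h4 ▸ h2
  · intro k
    have hR0 : 0 ≤ R := by linarith
    have hβ00 : 0 ≤ β0 := (norm_nonneg β).trans hβ
    by_cases hk : a ≤ k
    · obtain ⟨j, rfl⟩ := Nat.exists_eq_add_of_le hk
      simp only [hk, if_true, Nat.add_sub_cancel_left]
      rw [norm_div, norm_pow, Complex.norm_natCast]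
      rw [le_div_iff₀ (by positivity)]
      have e1 : ‖β‖ ^ j / (j.factorial : ℝ) * R ^ (a + j) * 2 ^ (a + j) =
          (2 * R) ^ a * ((2 * R * ‖β‖) ^ j / (j.factorial : ℝ)) := by
        rw [mul_pow, mul_pow, mul_pow, pow_add, pow_add]
        ring
      rw [e1]
      have e2 : (2 * R) ^ a ≤ (2 * R) ^ A0 := pow_le_pow_right₀ (by linarith) ha
      have e3 : (2 * R * ‖β‖) ^ j / (j.factorial : ℝ) ≤ Real.exp (2 * R * β0) := by
        refine (Real.pow_div_factorial_le_exp (2 * R * ‖β‖) (by positivity) j).trans ?_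
        apply Real.exp_le_exp.mpr
        exact mul_le_mul_of_nonneg_left hβ (by positivity)
      exact mul_le_mul e2 e3 (by positivity) (by positivity)
    · simp only [hk, if_false, norm_zero, zero_mul]
      positivity

end Pool.Agent.Work.MP_327059_nt.GL

end

section

/-!
# T20: one factor at a time
-/

set_option autoImplicit false

namespace Pool.Agent.Work.MP_327059_nt.GL

lemma Tensor_split {N κ : Type} [Fintype N] (G : ℕ) (f : N → κ → ℂ)
    (p : (Fin (G + 1) → N) → ℂ) (x : Fin (G + 1) → κ) :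
    ∑ a : Fin (G + 1) → N, p a * ∏ i, f (a i) (x i) =
      ∑ b : N, (∑ a : Fin G → N, p (Fin.cons b a) * ∏ i, f (a i) (x i.succ)) * f b (x 0) := by
  rw [← (Fin.consEquiv (fun _ : Fin (G + 1) => N)).sum_comp, Fintype.sum_prod_type]
  refine Finset.sum_congr rfl fun b _ => ?_
  rw [Finset.sum_mul]
  refine Finset.sum_congr rfl fun a _ => ?_
  have h : (Fin.consEquiv (fun _ : Fin (G + 1) => N)) (b, a) = (Fin.cons b a : Fin (G + 1) → N) :=
    rfl
  rw [h, Fin.prod_univ_succ]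
  simp only [Fin.cons_zero, Fin.cons_succ]
  ring

theorem pr_Tensor : S_Tensor := by
  intro N κ _ G f
  induction G with
  | zero =>
    intro p hp h
    exfalso
    apply hp
    funext a
    have h1 := h (fun i => Fin.elim0 i)
    rw [Fintype.sum_unique] at h1
    have h2 : a = default := Subsingleton.elim _ _
    rw [h2]
    simpa using h1
  | succ G ih =>
    intro p hp h
    by_cases hex : ∃ xs : Fin G → κ,
        (fun b : N => ∑ a : Fin G → N, p (Fin.cons b a) * ∏ i, f (a i) (xs i)) ≠ 0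
    · obtain ⟨xs, hxs⟩ := hex
      refine ⟨_, hxs, fun x => ?_⟩
      have h1 := h (Fin.cons x xs)
      rw [Tensor_split] at h1
      simpa only [Fin.cons_zero, Fin.cons_succ] using h1
    · have hall : ∀ (xs : Fin G → κ) (b : N),
          ∑ a : Fin G → N, p (Fin.cons b a) * ∏ i, f (a i) (xs i) = 0 := by
        intro xs b
        by_contra hne
        exact hex ⟨xs, fun h0 => hne (congrFun h0 b)⟩
      have hex2 : ∃ c, p c ≠ 0 := by
        by_contra hcon
        apply hp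
        funext c
        by_contra hc
        exact hcon ⟨c, hc⟩
      obtain ⟨c, hc⟩ := hex2
      refine ih (fun a => p (Fin.cons (c 0) a)) ?_ (fun xs => hall xs (c 0))
      intro h0
      apply hc
      have h1 := congrFun h0 (Fin.tail c)
      simpa [Fin.cons_self_tail] using h1

end Pool.Agent.Work.MP_327059_nt.GL

end

section

/-!
# T02: the translation operator
-/

set_option autoImplicit false

namespace Pool.Agent.Work.MP_327059_nt.GL

open MvPolynomial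

theorem Tr_X {m : ℕ} (c : Fin m → ℂ) (t : ℂ) (j : Fin m) :
    tr c t (X j.castSucc) = C (c j) * X j.castSucc := by
  simp [tr, Fin.snoc_castSucc]

theorem Tr_last {m : ℕ} (c : Fin m → ℂ) (t : ℂ) :
    tr c t (X (Fin.last m)) = X (Fin.last m) + C t := by
  simp [tr, Fin.snoc_last]

theorem Tr_C {m : ℕ} (c : Fin m → ℂ) (t : ℂ) (a : ℂ) : tr c t (C a) = C a := by
  unfold tr
  exact algHom_C _ _

theorem Tr_eval {m : ℕ} (c : Fin m → ℂ) (t : ℂ) (z : Fin m → ℂ) (z0 : ℂ)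
    (P : MvPolynomial (Fin (m + 1)) ℂ) :
    eval (Fin.snoc (α := fun _ => ℂ) z z0) (tr c t P) =
      eval (Fin.snoc (α := fun _ => ℂ) (fun j => c j * z j) (z0 + t)) P := by
  have h : (aeval (Fin.snoc (α := fun _ => ℂ) z z0) : MvPolynomial (Fin (m + 1)) ℂ →ₐ[ℂ] ℂ).comp
      (tr c t) = aeval (Fin.snoc (α := fun _ => ℂ) (fun j => c j * z j) (z0 + t)) := by
    apply MvPolynomial.algHom_ext
    intro i
    refine Fin.lastCases ?_ (fun j => ?_) i
    · rw [AlgHom.comp_apply, Tr_last, map_add, aeval_X, aeval_C, aeval_X, Fin.snoc_last,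
        Fin.snoc_last]
      rfl
    · rw [AlgHom.comp_apply, Tr_X, map_mul, aeval_X, aeval_C, aeval_X, Fin.snoc_castSucc,
        Fin.snoc_castSucc]
      rfl
  exact congrArg (fun φ : MvPolynomial (Fin (m + 1)) ℂ →ₐ[ℂ] ℂ => φ P) h

theorem Tr_comp {m : ℕ} (c : Fin m → ℂ) (t : ℂ) (c' : Fin m → ℂ) (t' : ℂ)
    (P : MvPolynomial (Fin (m + 1)) ℂ) :
    tr c t (tr c' t' P) = tr (fun j => c j * c' j) (t + t') P := by
  have h : (tr c t).comp (tr c' t') = tr (fun j => c j * c' j) (t + t') := by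
    apply MvPolynomial.algHom_ext
    intro i
    refine Fin.lastCases ?_ (fun j => ?_) i
    · rw [AlgHom.comp_apply, Tr_last, map_add, Tr_last, Tr_C, Tr_last, C_add]
      ring
    · rw [AlgHom.comp_apply, Tr_X, map_mul, Tr_X, Tr_C, Tr_X, C_mul]
      ring
  exact congrArg (fun φ : MvPolynomial (Fin (m + 1)) ℂ →ₐ[ℂ] MvPolynomial (Fin (m + 1)) ℂ => φ P) h

theorem Tr_one {m : ℕ} (c : Fin m → ℂ) (t : ℂ) (hc : ∀ j, c j = 1) (ht : t = 0)
    (P : MvPolynomial (Fin (m + 1)) ℂ) : tr c t P = P := by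
  have h : tr c t = AlgHom.id ℂ _ := by
    apply MvPolynomial.algHom_ext
    intro i
    refine Fin.lastCases ?_ (fun j => ?_) i
    · rw [Tr_last, ht, C_0, add_zero]
      rfl
    · rw [Tr_X, hc, C_1, one_mul]
      rfl
  rw [h]
  rfl

theorem Tr_inv1 {m : ℕ} (c : Fin m → ℂ) (t : ℂ) (hc : ∀ j, c j ≠ 0)
    (P : MvPolynomial (Fin (m + 1)) ℂ) : tr (fun j => (c j)⁻¹) (-t) (tr c t P) = P := by
  rw [Tr_comp]
  exact Tr_one _ _ (fun j => inv_mul_cancel₀ (hc j)) (by ring) P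

theorem Tr_inv2 {m : ℕ} (c : Fin m → ℂ) (t : ℂ) (hc : ∀ j, c j ≠ 0)
    (P : MvPolynomial (Fin (m + 1)) ℂ) : tr c t (tr (fun j => (c j)⁻¹) (-t) P) = P := by
  rw [Tr_comp]
  exact Tr_one _ _ (fun j => mul_inv_cancel₀ (hc j)) (by ring) P

theorem Tr_monomial {m : ℕ} (c : Fin m → ℂ) (t : ℂ) (d : Fin (m + 1) →₀ ℕ) (r : ℂ) :
    tr c t (monomial d r) = monomial (d.erase (Fin.last m)) (r * ∏ j, c j ^ d j.castSucc) *
      (X (Fin.last m) + C t) ^ (d (Fin.last m)) := by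
  have h1 : tr c t (monomial d r) = C r * ∏ i, (tr c t (X i)) ^ d i := by
    rw [monomial_eq, map_mul, Tr_C, Finsupp.prod_fintype _ _ (fun i => pow_zero _), map_prod]
    simp only [map_pow]
  have h2 : (monomial (d.erase (Fin.last m)) (r * ∏ j, c j ^ d j.castSucc) :
      MvPolynomial (Fin (m + 1)) ℂ) =
      C (r * ∏ j, c j ^ d j.castSucc) * ∏ j : Fin m, X j.castSucc ^ d j.castSucc := by
    rw [monomial_eq, Finsupp.prod_fintype _ _ (fun i => pow_zero _), Fin.prod_univ_castSucc,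
      Finsupp.erase_same, pow_zero, mul_one]
    congr 1
    apply Finset.prod_congr rfl
    intro j _
    rw [Finsupp.erase_ne (Fin.castSucc_lt_last j).ne]
  rw [h1, h2, Fin.prod_univ_castSucc, Tr_last]
  simp only [Tr_X, mul_pow, Finset.prod_mul_distrib, C_mul, map_prod, C_pow]
  ring

theorem Tr_coeff_pow {m : ℕ} (t : ℂ) (e : ℕ) (ν : Fin (m + 1) →₀ ℕ) :
    coeff ν ((X (Fin.last m) + C t : MvPolynomial (Fin (m + 1)) ℂ) ^ e) =
      ∑ k ∈ Finset.range (e + 1),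
        if Finsupp.single (Fin.last m) k = ν then t ^ (e - k) * (e.choose k : ℂ) else 0 := by
  rw [add_pow, coeff_sum]
  apply Finset.sum_congr rfl
  intro k _
  have h : (X (Fin.last m) ^ k * C t ^ (e - k) * ((e.choose k : ℕ) : MvPolynomial (Fin (m + 1)) ℂ))
      = monomial (Finsupp.single (Fin.last m) k) (t ^ (e - k) * (e.choose k : ℂ)) := by
    have hp : (Finsupp.single (Fin.last m) k).prod (fun n e => (X n : MvPolynomial (Fin (m + 1)) ℂ) ^ e) =
        X (Fin.last m) ^ k := Finsupp.prod_single_index (pow_zero _)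
    rw [monomial_eq, hp, C_mul, C_pow]
    have : (C ((e.choose k : ℕ) : ℂ) : MvPolynomial (Fin (m + 1)) ℂ) = ((e.choose k : ℕ) : _) :=
      map_natCast C _
    rw [this]
    ring
  rw [h, coeff_monomial]

theorem Tr_coeff {m : ℕ} (c : Fin m → ℂ) (t : ℂ) (P : MvPolynomial (Fin (m + 1)) ℂ)
    (d : Fin (m + 1) →₀ ℕ)
    (hmax : ∀ d' ∈ P.support, (∀ j : Fin m, d' j.castSucc = d j.castSucc) →
      d' (Fin.last m) ≤ d (Fin.last m)) :
    coeff d (tr c t P) = (∏ j, c j ^ d j.castSucc) * coeff d P := by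
  have h1 : tr c t P = ∑ d' ∈ P.support, tr c t (monomial d' (coeff d' P)) := by
    conv_lhs => rw [P.as_sum]
    rw [map_sum]
  have hz : ∀ d' ∈ P.support, d' ≠ d → coeff d (tr c t (monomial d' (coeff d' P))) = 0 := by
    intro d' hd' hne
    rw [Tr_monomial, coeff_monomial_mul']
    split_ifs with hle
    · rw [Tr_coeff_pow]
      rw [Finset.sum_eq_zero, mul_zero]
      intro k hk
      rw [if_neg]
      intro hk2
      apply hne
      have hX : ∀ j : Fin m, d' j.castSucc = d j.castSucc := by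
        intro j
        have h3 := DFunLike.congr_fun hk2 j.castSucc
        rw [Finsupp.single_apply, if_neg (Fin.castSucc_lt_last j).ne', Finsupp.tsub_apply,
          Finsupp.erase_ne (Fin.castSucc_lt_last j).ne] at h3
        have h4 := hle j.castSucc
        rw [Finsupp.erase_ne (Fin.castSucc_lt_last j).ne] at h4
        omega
      have hL : d (Fin.last m) = k := by
        have h3 := DFunLike.congr_fun hk2 (Fin.last m)
        rw [Finsupp.single_eq_same, Finsupp.tsub_apply, Finsupp.erase_same, Nat.sub_zero] at h3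
        exact h3.symm
      have hm := hmax d' hd' hX
      have hk' := Finset.mem_range.1 hk
      ext i
      refine Fin.lastCases ?_ (fun j => hX j) i
      omega
    · rfl
  have hd : coeff d (tr c t (monomial d (coeff d P))) =
      (∏ j, c j ^ d j.castSucc) * coeff d P := by
    rw [Tr_monomial, coeff_monomial_mul', if_pos, Tr_coeff_pow]
    · rw [Finset.sum_eq_single (d (Fin.last m))]
      · rw [if_pos]
        · rw [Nat.sub_self, pow_zero, Nat.choose_self, Nat.cast_one]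
          ring
        · ext i
          refine Fin.lastCases ?_ (fun j => ?_) i
          · rw [Finsupp.single_eq_same, Finsupp.tsub_apply, Finsupp.erase_same, Nat.sub_zero]
          · rw [Finsupp.single_apply, if_neg (Fin.castSucc_lt_last j).ne', Finsupp.tsub_apply,
              Finsupp.erase_ne (Fin.castSucc_lt_last j).ne, Nat.sub_self]
      · intro k _ hk
        rw [if_neg]
        intro hk2
        apply hk
        have h3 := DFunLike.congr_fun hk2 (Fin.last m)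
        rw [Finsupp.single_eq_same, Finsupp.tsub_apply, Finsupp.erase_same, Nat.sub_zero] at h3
        exact h3
      · intro h
        exact absurd (Finset.self_mem_range_succ _) h
    · intro i
      refine Fin.lastCases ?_ (fun j => ?_) i
      · rw [Finsupp.erase_same]
        exact Nat.zero_le _
      · rw [Finsupp.erase_ne (Fin.castSucc_lt_last j).ne]
  rw [h1, coeff_sum]
  by_cases hs : d ∈ P.support
  · rw [Finset.sum_eq_single_of_mem d hs (fun d' hd' hne => hz d' hd' hne), hd]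
  · rw [Finset.sum_eq_zero (fun d' hd' => hz d' hd' (fun h => hs (h ▸ hd'))),
      notMem_support_iff.1 hs, mul_zero]

theorem Tr_scal {m : ℕ} (c : Fin m → ℂ) (t : ℂ) (P : MvPolynomial (Fin (m + 1)) ℂ) (a : ℂ)
    (h : tr c t P = C a * P) (d : Fin (m + 1) →₀ ℕ) (hd : d ∈ P.support) :
    ∏ j : Fin m, c j ^ (d j.castSucc) = a := by
  classical
  obtain ⟨e, he, hmax⟩ := Finset.exists_max_image
    (P.support.filter fun d' => ∀ j : Fin m, d' j.castSucc = d j.castSucc)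
    (fun d' => d' (Fin.last m)) ⟨d, Finset.mem_filter.2 ⟨hd, fun _ => rfl⟩⟩
  rw [Finset.mem_filter] at he
  have h1 := Tr_coeff c t P e (fun d' hd' hX => hmax d' (Finset.mem_filter.2
    ⟨hd', fun j => (hX j).trans (he.2 j)⟩))
  rw [h, coeff_C_mul] at h1
  have h2 := mul_right_cancel₀ (mem_support_iff.1 he.1) h1
  rw [h2]
  exact Finset.prod_congr rfl fun j _ => by rw [he.2 j]

theorem Tr_deg_le {m : ℕ} (c : Fin m → ℂ) (t : ℂ) (P : MvPolynomial (Fin (m + 1)) ℂ)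
    (i : Fin (m + 1)) : (tr c t P).degreeOf i ≤ P.degreeOf i := by
  classical
  have h1 : tr c t P = ∑ d' ∈ P.support, tr c t (monomial d' (coeff d' P)) := by
    conv_lhs => rw [P.as_sum]
    rw [map_sum]
  rw [h1]
  refine (degreeOf_sum_le _ _ _).trans (Finset.sup_le fun d hd => ?_)
  rw [Tr_monomial]
  refine (degreeOf_mul_le _ _ _).trans ?_
  have h2 : degreeOf i (monomial (d.erase (Fin.last m)) (coeff d P * ∏ j, c j ^ d j.castSucc) :
      MvPolynomial (Fin (m + 1)) ℂ) ≤ (d.erase (Fin.last m)) i := by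
    by_cases h0 : coeff d P * ∏ j, c j ^ d j.castSucc = 0
    · rw [h0, monomial_zero, degreeOf_zero]
      exact Nat.zero_le _
    · rw [degreeOf_monomial_eq _ _ h0]
  have h3 : degreeOf i ((X (Fin.last m) + C t : MvPolynomial (Fin (m + 1)) ℂ) ^
      d (Fin.last m)) ≤ d (Fin.last m) * (if i = Fin.last m then 1 else 0) := by
    refine (degreeOf_pow_le _ _ _).trans (Nat.mul_le_mul_left _ ?_)
    refine (degreeOf_add_le _ _ _).trans ?_
    rw [degreeOf_C, degreeOf_X]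
    simp
  have h4 : d i ≤ P.degreeOf i := by
    rw [degreeOf_eq_sup]
    exact Finset.le_sup (f := fun m => m i) hd
  refine le_trans (add_le_add h2 h3) (le_trans ?_ h4)
  by_cases hi : i = Fin.last m
  · subst hi
    rw [Finsupp.erase_same, if_pos rfl]
    omega
  · rw [Finsupp.erase_ne hi, if_neg hi]
    omega

theorem pr_Tr : S_Tr := by
  intro m c t hc
  refine ⟨Tr_eval c t, ?_, Tr_comp c t, ?_, ?_⟩
  · intro P i
    apply le_antisymm (Tr_deg_le c t P i)
    conv_lhs => rw [← Tr_inv1 c t hc P]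
    exact Tr_deg_le _ _ _ i
  · intro P
    let e : MvPolynomial (Fin (m + 1)) ℂ ≃ₐ[ℂ] MvPolynomial (Fin (m + 1)) ℂ :=
      AlgEquiv.ofAlgHom (tr c t) (tr (fun j => (c j)⁻¹) (-t))
        (AlgHom.ext fun x => Tr_inv2 c t hc x) (AlgHom.ext fun x => Tr_inv1 c t hc x)
    exact MulEquiv.irreducible_iff e
  · intro P a h d hd d' hd'
    rw [Tr_scal c t P a h d hd, Tr_scal c t P a h d' hd']

end Pool.Agent.Work.MP_327059_nt.GL

end

section

/-!
# Item Val: values and sizes of the polynomials `P_s`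
-/

set_option autoImplicit false

namespace Pool.Agent.Work.MP_327059_nt.GL

open MvPolynomial

theorem Val_len_eq {σ : Type} (P : MvPolynomial σ ℤ) (s : Finset (σ →₀ ℕ)) (hs : P.support ⊆ s) :
    len P = ∑ m ∈ s, |((P.coeff m : ℤ) : ℝ)| := by
  unfold len
  refine Finset.sum_subset hs ?_
  intro m _ hm
  rw [notMem_support_iff.1 hm]
  simp

theorem Val_len_nonneg {σ : Type} (P : MvPolynomial σ ℤ) : 0 ≤ len P :=
  Finset.sum_nonneg fun _ _ => abs_nonneg _

theorem Val_len_add {σ : Type} (P Q : MvPolynomial σ ℤ) : len (P + Q) ≤ len P + len Q := by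
  classical
  rw [Val_len_eq (P + Q) (P.support ∪ Q.support) support_add,
    Val_len_eq P (P.support ∪ Q.support) Finset.subset_union_left,
    Val_len_eq Q (P.support ∪ Q.support) Finset.subset_union_right, ← Finset.sum_add_distrib]
  refine Finset.sum_le_sum ?_
  intro m _
  rw [coeff_add]
  push_cast
  exact abs_add_le _ _

theorem Val_len_sum {σ κ : Type} (s : Finset κ) (f : κ → MvPolynomial σ ℤ) :
    len (∑ i ∈ s, f i) ≤ ∑ i ∈ s, len (f i) := by
  classical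
  induction s using Finset.induction_on with
  | empty => simp [len]
  | insert a s ha ih =>
    rw [Finset.sum_insert ha, Finset.sum_insert ha]
    exact (Val_len_add _ _).trans (by linarith)

theorem Val_len_monomial {σ : Type} (m : σ →₀ ℕ) (c : ℤ) :
    len (monomial m c : MvPolynomial σ ℤ) ≤ |(c : ℝ)| := by
  classical
  rw [Val_len_eq _ {m} support_monomial_subset]
  simp

theorem Val_len_C {σ : Type} (c : ℤ) : len (C c : MvPolynomial σ ℤ) ≤ |(c : ℝ)| :=
  Val_len_monomial 0 c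

theorem Val_len_one {σ : Type} : len (1 : MvPolynomial σ ℤ) ≤ 1 := by
  have h := Val_len_C (σ := σ) 1
  simpa using h

theorem Val_len_X {σ : Type} (i : σ) : len (X i : MvPolynomial σ ℤ) ≤ 1 := by
  have h := Val_len_monomial (Finsupp.single i 1) 1
  have h2 : |((1 : ℤ) : ℝ)| = 1 := by simp
  rw [h2] at h
  exact h

theorem Val_len_mul {σ : Type} (P Q : MvPolynomial σ ℤ) : len (P * Q) ≤ len P * len Q := by
  have h : P * Q = ∑ m ∈ P.support, ∑ m' ∈ Q.support,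
      monomial (m + m') (P.coeff m * Q.coeff m') := by
    conv_lhs => rw [P.as_sum, Q.as_sum, Finset.sum_mul_sum]
    simp only [monomial_mul]
  rw [h]
  refine (Val_len_sum _ _).trans ?_
  unfold len
  rw [Finset.sum_mul_sum]
  refine Finset.sum_le_sum ?_
  intro m _
  refine (Val_len_sum _ _).trans ?_
  refine Finset.sum_le_sum ?_
  intro m' _
  refine (Val_len_monomial _ _).trans ?_
  push_cast
  rw [abs_mul]

theorem Val_len_prod {σ κ : Type} (s : Finset κ) (f : κ → MvPolynomial σ ℤ) :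
    len (∏ i ∈ s, f i) ≤ ∏ i ∈ s, len (f i) := by
  classical
  induction s using Finset.induction_on with
  | empty => simpa using Val_len_one
  | insert a s ha ih =>
    rw [Finset.prod_insert ha, Finset.prod_insert ha]
    exact (Val_len_mul _ _).trans (mul_le_mul_of_nonneg_left ih (Val_len_nonneg _))

theorem Val_len_pow {σ : Type} (P : MvPolynomial σ ℤ) (k : ℕ) : len (P ^ k) ≤ len P ^ k := by
  have h := Val_len_prod (Finset.range k) (fun _ => P)
  simpa using h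

theorem Val_aev {n m A W G : ℕ} (p : (Fin G → Ix m A W) → ℤ) (s : Fin G → Fin n → ℕ)
    (l' : Fin n → ℂ) (y' : Fin n → Fin m → ℂ) :
    aeval (Sum.elim l' (fun q : Fin n × Fin m => y' q.1 q.2)) (PS p s) =
      ∑ x, (p x : ℂ) * ∏ r, ((∑ i, (s r i : ℂ) * l' i) ^ ((x r).1 : ℕ) *
        ∏ i, ∏ j, y' i j ^ (((x r).2 j : ℕ) * s r i)) := by
  unfold PS
  rw [map_sum]
  refine Finset.sum_congr rfl ?_
  intro x _
  rw [map_mul, map_prod]
  congr 1
  · simp
  · refine Finset.prod_congr rfl ?_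
    intro r _
    rw [map_mul, map_pow, map_sum, map_prod]
    congr 1
    · congr 1
      refine Finset.sum_congr rfl ?_
      intro i _
      simp
    · refine Finset.prod_congr rfl ?_
      intro i _
      rw [map_prod]
      refine Finset.prod_congr rfl ?_
      intro j _
      simp

theorem Val_deg {n m A W G : ℕ} (p : (Fin G → Ix m A W) → ℤ) (s : Fin G → Fin n → ℕ)
    (S : ℕ) (hS : ∀ r i, s r i ≤ S) :
    (PS p s).totalDegree ≤ G * (A + W * S * n * m) := by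
  unfold PS
  refine totalDegree_finsetSum_le ?_
  intro x _
  refine (totalDegree_mul _ _).trans ?_
  rw [totalDegree_C, zero_add]
  refine (totalDegree_finsetProd _ _).trans ?_
  have hr : ∀ r ∈ (Finset.univ : Finset (Fin G)),
      ((∑ i, C ((s r i : ℕ) : ℤ) * X (Sum.inl i) : MvPolynomial (Fin n ⊕ Fin n × Fin m) ℤ) ^
        ((x r).1 : ℕ) * ∏ i, ∏ j, X (Sum.inr (i, j)) ^ (((x r).2 j : ℕ) * s r i)).totalDegree ≤
        A + W * S * n * m := by
    intro r _
    refine (totalDegree_mul _ _).trans ?_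
    refine add_le_add ?_ ?_
    · refine (totalDegree_pow _ _).trans ?_
      have h1 : (∑ i, C ((s r i : ℕ) : ℤ) * X (Sum.inl i) :
          MvPolynomial (Fin n ⊕ Fin n × Fin m) ℤ).totalDegree ≤ 1 := by
        refine totalDegree_finsetSum_le ?_
        intro i _
        refine (totalDegree_mul _ _).trans ?_
        rw [totalDegree_C, zero_add, totalDegree_X]
      calc ((x r).1 : ℕ) * _ ≤ ((x r).1 : ℕ) * 1 := Nat.mul_le_mul_left _ h1
        _ ≤ A := by
          rw [mul_one]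
          exact (x r).1.2.le
    · refine (totalDegree_finsetProd _ _).trans ?_
      have h2 : ∀ i ∈ (Finset.univ : Finset (Fin n)),
          (∏ j, X (Sum.inr (i, j)) ^ (((x r).2 j : ℕ) * s r i) :
            MvPolynomial (Fin n ⊕ Fin n × Fin m) ℤ).totalDegree ≤ W * S * m := by
        intro i _
        refine (totalDegree_finsetProd _ _).trans ?_
        have h3 : ∀ j ∈ (Finset.univ : Finset (Fin m)),
            (X (Sum.inr (i, j)) ^ (((x r).2 j : ℕ) * s r i) :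
              MvPolynomial (Fin n ⊕ Fin n × Fin m) ℤ).totalDegree ≤ W * S := by
          intro j _
          refine (totalDegree_pow _ _).trans ?_
          rw [totalDegree_X, mul_one]
          exact Nat.mul_le_mul ((x r).2 j).2.le (hS r i)
        refine (Finset.sum_le_card_nsmul _ _ _ h3).trans ?_
        rw [Finset.card_univ, Fintype.card_fin, smul_eq_mul, mul_comm]
      refine (Finset.sum_le_card_nsmul _ _ _ h2).trans ?_
      rw [Finset.card_univ, Fintype.card_fin, smul_eq_mul]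
      apply le_of_eq
      ring
  refine (Finset.sum_le_card_nsmul _ _ _ hr).trans ?_
  rw [Finset.card_univ, Fintype.card_fin, smul_eq_mul]

theorem Val_len {n m A W G : ℕ} (p : (Fin G → Ix m A W) → ℤ) (s : Fin G → Fin n → ℕ)
    (S : ℕ) (H : ℝ) (hS1 : 1 ≤ S) (hn : 1 ≤ n) (hS : ∀ r i, s r i ≤ S)
    (hp : ∀ x, |(p x : ℝ)| ≤ H) :
    len (PS p s) ≤ ((A : ℝ) * W ^ m) ^ G * H * ((n : ℝ) * S) ^ (A * G) := by
  have hnS : (1 : ℝ) ≤ (n : ℝ) * S := by
    have h1 : (1 : ℝ) ≤ n := by exact_mod_cast hn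
    have h2 : (1 : ℝ) ≤ S := by exact_mod_cast hS1
    nlinarith
  unfold PS
  refine (Val_len_sum _ _).trans ?_
  have hx : ∀ x ∈ (Finset.univ : Finset (Fin G → Ix m A W)),
      len (C (p x) * ∏ r : Fin G,
        ((∑ i, C ((s r i : ℕ) : ℤ) * X (Sum.inl i)) ^ ((x r).1 : ℕ) *
          ∏ i, ∏ j, X (Sum.inr (i, j)) ^ (((x r).2 j : ℕ) * s r i)) :
            MvPolynomial (Fin n ⊕ Fin n × Fin m) ℤ) ≤ H * ((n : ℝ) * S) ^ (A * G) := by
    intro x _
    have hH : 0 ≤ H := (abs_nonneg _).trans (hp x)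
    refine (Val_len_mul _ _).trans ?_
    refine mul_le_mul ((Val_len_C _).trans (hp x)) ?_ (Val_len_nonneg _) hH
    refine (Val_len_prod _ _).trans ?_
    have hr : ∀ r ∈ (Finset.univ : Finset (Fin G)),
        len ((∑ i, C ((s r i : ℕ) : ℤ) * X (Sum.inl i)) ^ ((x r).1 : ℕ) *
          ∏ i, ∏ j, X (Sum.inr (i, j)) ^ (((x r).2 j : ℕ) * s r i) :
            MvPolynomial (Fin n ⊕ Fin n × Fin m) ℤ) ≤ ((n : ℝ) * S) ^ A := by
      intro r _
      refine (Val_len_mul _ _).trans ?_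
      have h1 : len ((∑ i, C ((s r i : ℕ) : ℤ) * X (Sum.inl i)) ^ ((x r).1 : ℕ) :
          MvPolynomial (Fin n ⊕ Fin n × Fin m) ℤ) ≤ ((n : ℝ) * S) ^ A := by
        refine (Val_len_pow _ _).trans ?_
        have h2 : len (∑ i, C ((s r i : ℕ) : ℤ) * X (Sum.inl i) :
            MvPolynomial (Fin n ⊕ Fin n × Fin m) ℤ) ≤ (n : ℝ) * S := by
          refine (Val_len_sum _ _).trans ?_
          have h3 : ∀ i ∈ (Finset.univ : Finset (Fin n)),
              len (C ((s r i : ℕ) : ℤ) * X (Sum.inl i) :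
                MvPolynomial (Fin n ⊕ Fin n × Fin m) ℤ) ≤ (S : ℝ) := by
            intro i _
            refine (Val_len_mul _ _).trans ?_
            have h4 : len (C ((s r i : ℕ) : ℤ) : MvPolynomial (Fin n ⊕ Fin n × Fin m) ℤ) ≤
                (S : ℝ) := by
              refine (Val_len_C _).trans ?_
              have h5 : ((s r i : ℕ) : ℝ) ≤ (S : ℝ) := by exact_mod_cast hS r i
              rw [abs_of_nonneg (by positivity)]
              push_cast
              exact h5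
            calc _ ≤ (S : ℝ) * 1 := mul_le_mul h4 (Val_len_X _) (Val_len_nonneg _) (by positivity)
              _ = S := mul_one _
          refine (Finset.sum_le_card_nsmul _ _ _ h3).trans ?_
          rw [Finset.card_univ, Fintype.card_fin, nsmul_eq_mul]
        refine (pow_le_pow_left₀ (Val_len_nonneg _) h2 _).trans ?_
        exact pow_le_pow_right₀ hnS (x r).1.2.le
      have h6 : len (∏ i, ∏ j, X (Sum.inr (i, j)) ^ (((x r).2 j : ℕ) * s r i) :
          MvPolynomial (Fin n ⊕ Fin n × Fin m) ℤ) ≤ 1 := by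
        refine (Val_len_prod _ _).trans ?_
        refine Finset.prod_le_one (fun _ _ => Val_len_nonneg _) ?_
        intro i _
        refine (Val_len_prod _ _).trans ?_
        refine Finset.prod_le_one (fun _ _ => Val_len_nonneg _) ?_
        intro j _
        refine (Val_len_pow _ _).trans ?_
        exact pow_le_one₀ (Val_len_nonneg _) (Val_len_X _)
      calc _ ≤ ((n : ℝ) * S) ^ A * 1 :=
            mul_le_mul h1 h6 (Val_len_nonneg _) (by positivity)
        _ = _ := mul_one _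
    calc _ ≤ ∏ _r : Fin G, ((n : ℝ) * S) ^ A :=
          Finset.prod_le_prod (fun _ _ => Val_len_nonneg _) hr
      _ = ((n : ℝ) * S) ^ (A * G) := by
        rw [Finset.prod_const, Finset.card_univ, Fintype.card_fin, ← pow_mul]
  refine (Finset.sum_le_card_nsmul _ _ _ hx).trans ?_
  rw [Finset.card_univ, nsmul_eq_mul]
  apply le_of_eq
  have hc : (Fintype.card (Fin G → Ix m A W) : ℝ) = ((A : ℝ) * W ^ m) ^ G := by
    simp [Fintype.card_prod]
  rw [hc]
  ring

theorem pr_Val : S_Val := by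
  intro n m A W G p s
  refine ⟨?_, ?_, ?_, ?_⟩
  · intro l' y'
    rw [Val_aev]
    refine Finset.sum_congr rfl ?_
    intro x _
    congr 1
    refine Finset.prod_congr rfl ?_
    intro r _
    unfold pt
    rw [Fin.snoc_last]
    congr 1
    rw [Finset.prod_comm]
    refine Finset.prod_congr rfl ?_
    intro j _
    rw [Fin.snoc_castSucc, ← Finset.prod_pow]
    refine Finset.prod_congr rfl ?_
    intro i _
    rw [← pow_mul, mul_comm]
  · intro b l
    have h := Val_aev p s l (fun i j => Complex.exp (b j * l i))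
    have hcd : cd b l = Sum.elim l (fun q : Fin n × Fin m => Complex.exp (b q.2 * l q.1)) := rfl
    rw [hcd, h]
    refine Finset.sum_congr rfl ?_
    intro x _
    congr 1
    refine Finset.prod_congr rfl ?_
    intro r _
    congr 1
    have h1 : ∀ i ∈ (Finset.univ : Finset (Fin n)), ∏ j, Complex.exp (b j * l i) ^
        (((x r).2 j : ℕ) * s r i) = Complex.exp (∑ j, ((((x r).2 j : ℕ) : ℂ) * (s r i : ℂ)) *
          (b j * l i)) := by
      intro i _
      rw [Complex.exp_sum]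
      refine Finset.prod_congr rfl ?_
      intro j _
      rw [← Complex.exp_nat_mul]
      push_cast
      ring_nf
    rw [Finset.prod_congr rfl h1, ← Complex.exp_sum]
    congr 1
    unfold bw
    rw [Finset.sum_mul_sum, Finset.sum_comm]
    refine Finset.sum_congr rfl ?_
    intro j _
    refine Finset.sum_congr rfl ?_
    intro i _
    ring
  · intro S hS
    exact Val_deg p s S hS
  · intro S H hS1 hn hS hp
    exact Val_len p s S H hS1 hn hS hp

end Pool.Agent.Work.MP_327059_nt.GL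

end
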