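import Mathlib
import Pool.Agent.Work.MP_327059_nt.GL.StmtsT
import Pool.Agent.Work.MP_327059_nt.Bd.B01
import Pool.Agent.Work.MP_327059_nt.Bd.B09
import Pool.Agent.Work.MP_327059_nt.Bd.B10

/-! Bundle of small proof modules (one section per former module). -/

section

/-!
# Item ZE: the zero estimate
-/

set_option autoImplicit false

namespace Pool.Agent.Work.MP_327059_nt.GL

open MvPolynomial

theorem ZE_cnt {n m : ℕ} (S : ℕ) (y : Fin n → Fin (m + 1) → ℂ) (w : Fin m → ℤ) :
    cntY S y (Fin.cons 0 w : Fin (m + 1) → ℤ) = cntY S (fun i j => y i j.succ) w := by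
  unfold cntY
  congr 1
  ext s
  simp only [Set.mem_ofPred_eq]
  have h : ∀ i, ∏ j, y i j ^ (s i * (Fin.cons 0 w : Fin (m + 1) → ℤ) j) =
      ∏ j : Fin m, y i j.succ ^ (s i * w j) := by
    intro i
    rw [Fin.prod_univ_succ]
    simp
  simp only [h]

theorem pr_ZE (h1 : S_ZE0) (h2 : S_ZStep) : S_ZE := by
  intro m
  induction m with
  | zero =>
    refine ⟨1, ?_⟩
    intro n S B l y P hy hP hB hdeg hz
    right
    have h3 := h1 n S B l y P hP (hdeg 0) (fun s hs => hz s (fun i => by simpa using hs i))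
    refine h3.trans ?_
    rw [pow_one]
    exact Nat.mul_le_mul_right _ (by omega)
  | succ m ih =>
    obtain ⟨c, hc⟩ := ih
    refine ⟨2 * c + 2, ?_⟩
    intro n S B l y P hy hP hB hdeg hz
    have hS : S + 2 ^ m * S ≤ 2 ^ (m + 1) * S := by
      have e1 : 1 ≤ 2 ^ m := Nat.one_le_two_pow
      have e2 : 1 * S ≤ 2 ^ m * S := Nat.mul_le_mul_right _ e1
      have e3 : 2 ^ (m + 1) * S = 2 * (2 ^ m * S) := by ring
      rw [e3]
      omega
    have hBB : B * B ≤ (2 * B) ^ (2 * c + 2) := by
      calc B * B ≤ (2 * B) * (2 * B) := Nat.mul_le_mul (by omega) (by omega)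
        _ = (2 * B) ^ 2 := (sq _).symm
        _ ≤ (2 * B) ^ (2 * c + 2) := Nat.pow_le_pow_right (by omega) (by omega)
    have hB1 : B ≤ (2 * B) ^ (2 * c + 2) := le_trans (Nat.le_mul_self B) hBB
    have hpow : (2 * (2 * B * B)) ^ c ≤ (2 * B) ^ (2 * c + 2) := by
      have e1 : 2 * (2 * B * B) = (2 * B) ^ 2 := by ring
      rw [e1, ← pow_mul]
      exact Nat.pow_le_pow_right (by omega) (by omega)
    rcases h2 m n S (2 ^ m * S) B l y P hy hP hB hdeg
      (fun s hs => hz s (fun i => (hs i).trans hS)) with ⟨w, hw, hwB, hcnt⟩ | ⟨R, hR, hRdeg, hRz⟩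
    · left
      refine ⟨w, hw, fun j => (hwB j).trans ?_, hcnt.trans (Nat.mul_le_mul_right _ hBB)⟩
      exact_mod_cast hB1
    · have hB' : 1 ≤ 2 * B * B := by nlinarith
      rcases hc n S (2 * B * B) l (fun i j => y i j.succ) R (fun i j => hy i j.succ) hR hB' hRdeg
        hRz with ⟨w, hw, hwB, hcnt⟩ | hcnt
      · left
        refine ⟨Fin.cons 0 w, ?_, ?_, ?_⟩
        · intro h
          refine hw (funext fun j => ?_)
          have := congrFun h j.succ
          simpa using this
        · intro j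
          refine Fin.cases ?_ (fun j => ?_) j
          · simp
          · rw [Fin.cons_succ]
            refine (hwB j).trans ?_
            exact_mod_cast hpow
        · rw [ZE_cnt]
          exact hcnt.trans (Nat.mul_le_mul_right _ hpow)
      · right
        exact hcnt.trans (Nat.mul_le_mul_right _ hpow)

end Pool.Agent.Work.MP_327059_nt.GL

end

section

set_option autoImplicit false

namespace Pool.Agent.Work.MP_327059_nt.GL

open MvPolynomial

theorem ze0_box_finite (n S : ℕ) : {s : Fin n → ℤ | ∀ i, |s i| ≤ (S : ℤ)}.Finite := by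
  refine (Set.Finite.pi (fun _ : Fin n => Set.finite_Icc (-(S : ℤ)) (S : ℤ))).subset ?_
  intro s hs i _
  exact abs_le.mp (hs i)

theorem pr_ZE0 : S_ZE0 := by
  classical
  intro n S B l y P hP hdeg hz
  set ev0 : MvPolynomial (Fin 0) ℂ →+* ℂ := eval (Fin.elim0 : Fin 0 → ℂ) with hev0
  have hinj : Function.Injective ev0 := by
    intro p q h
    rw [MvPolynomial.eq_C_of_isEmpty p, MvPolynomial.eq_C_of_isEmpty q] at h ⊢
    simp only [hev0, eval_C] at h
    rw [h]
  set Q : Polynomial ℂ := Polynomial.map ev0 (finSuccEquiv ℂ 0 P) with hQ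
  have hQ0 : Q ≠ 0 := by
    intro h
    rw [hQ, Polynomial.map_eq_zero_iff hinj] at h
    exact hP ((map_eq_zero_iff _ (finSuccEquiv ℂ 0).injective).mp h)
  have hQd : Q.natDegree ≤ B := by
    refine (Polynomial.natDegree_map_le).trans ?_
    rw [natDegree_finSuccEquiv]
    exact hdeg
  have hpt : ∀ s : Fin n → ℕ, pt l y s
      = (Fin.cons (∑ i, (s i : ℂ) * l i) (Fin.elim0 : Fin 0 → ℂ) : Fin 1 → ℂ) := by
    intro s
    funext j
    refine Fin.cases ?_ (fun i => i.elim0) j
    rfl
  have hroot : ∀ s : Fin n → ℕ, (∀ i, s i ≤ S) → Q.IsRoot (∑ i, (s i : ℂ) * l i) := by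
    intro s hs
    have h := hz s hs
    rw [hpt s, eval_eq_eval_mv_eval'] at h
    exact h
  set box : Finset (Fin n → ℕ) := Fintype.piFinset (fun _ => Finset.range (S + 1)) with hbox
  have hmem : ∀ s ∈ box, ∀ i, s i ≤ S := by
    intro s hs i
    rw [hbox, Fintype.mem_piFinset] at hs
    exact Nat.lt_succ_iff.mp (Finset.mem_range.mp (hs i))
  have hcard : box.card = (S + 1) ^ n := by
    rw [hbox, Fintype.card_piFinset]
    simp
  set f : (Fin n → ℕ) → ℂ := fun s => ∑ i, (s i : ℂ) * l i with hf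
  have himg : (box.image f).card ≤ B := by
    have hsub : box.image f ⊆ Q.roots.toFinset := by
      intro z hz'
      obtain ⟨s, hs, rfl⟩ := Finset.mem_image.mp hz'
      rw [Multiset.mem_toFinset, Polynomial.mem_roots hQ0]
      exact hroot s (hmem s hs)
    calc (box.image f).card ≤ Q.roots.toFinset.card := Finset.card_le_card hsub
      _ ≤ Multiset.card Q.roots := Multiset.toFinset_card_le _
      _ ≤ Q.natDegree := Polynomial.card_roots' Q
      _ ≤ B := hQd
  have hfib : ∀ z ∈ box.image f, (box.filter (fun s => f s = z)).card ≤ cntL S l := by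
    intro z hz'
    obtain ⟨s0, hs0, rfl⟩ := Finset.mem_image.mp hz'
    set g : (Fin n → ℕ) → (Fin n → ℤ) := fun s i => (s i : ℤ) - (s0 i : ℤ) with hg
    have hginj : Function.Injective g := by
      intro s s' h
      funext i
      have := congrFun h i
      simp only [hg, sub_left_inj, Nat.cast_inj] at this
      exact this
    have hfin : {s : Fin n → ℤ | (∀ i, |s i| ≤ (S : ℤ)) ∧ ∑ i, (s i : ℂ) * l i = 0}.Finite :=
      (ze0_box_finite n S).subset (fun s hs => hs.1)
    rw [← Set.ncard_coe_finset, ← Set.ncard_image_of_injective _ hginj]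
    refine Set.ncard_le_ncard ?_ hfin
    rintro _ ⟨s, hs, rfl⟩
    rw [Finset.mem_coe, Finset.mem_filter] at hs
    refine ⟨fun i => ?_, ?_⟩
    · have h1 := hmem s hs.1 i
      have h2 := hmem s0 hs0 i
      simp only [hg]
      rw [abs_le]
      constructor <;> omega
    · have h3 : f s = f s0 := hs.2
      simp only [hf] at h3
      simp only [hg]
      push_cast
      simp only [sub_mul, Finset.sum_sub_distrib, h3, sub_self]
  have := Finset.card_le_mul_card_image box (cntL S l) hfib
  rw [hcard] at this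
  calc (S + 1) ^ n ≤ cntL S l * (box.image f).card := this
    _ ≤ cntL S l * B := Nat.mul_le_mul_left _ himg
    _ = B * cntL S l := Nat.mul_comm _ _

end Pool.Agent.Work.MP_327059_nt.GL

end

section

/-!
# T01: elimination of the first variable
-/

set_option autoImplicit false

namespace Pool.Agent.Work.MP_327059_nt.GL

open MvPolynomial

/-- Degree of a determinant. -/
theorem ZRes_det {N k B : ℕ} (i : Fin N) (M : Matrix (Fin k) (Fin k) (MvPolynomial (Fin N) ℂ))
    (hM : ∀ a b, (M a b).degreeOf i ≤ B) : M.det.degreeOf i ≤ k * B := by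
  rw [Matrix.det_apply]
  refine (degreeOf_sum_le i _ _).trans ?_
  refine Finset.sup_le fun σ _ => ?_
  have h : (∏ x, M (σ x) x).degreeOf i ≤ k * B := by
    refine (degreeOf_prod_le i _ _).trans ?_
    calc ∑ x : Fin k, (M (σ x) x).degreeOf i ≤ ∑ _x : Fin k, B :=
          Finset.sum_le_sum fun x _ => hM _ _
      _ = k * B := by simp
  rcases Int.units_eq_one_or (Equiv.Perm.sign σ) with h1 | h1
  · rw [h1, one_smul]; exact h
  · rw [h1, Units.neg_smul, one_smul, degreeOf_neg]; exact h

/-- Degree of the resultant. -/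
theorem ZRes_res {N B : ℕ} (i : Fin N) (p q : Polynomial (MvPolynomial (Fin N) ℂ))
    (hp : ∀ j, (p.coeff j).degreeOf i ≤ B) (hq : ∀ j, (q.coeff j).degreeOf i ≤ B)
    (m n : ℕ) : (Polynomial.resultant p q m n).degreeOf i ≤ (m + n) * B := by
  unfold Polynomial.resultant
  refine ZRes_det i _ fun a b => ?_
  unfold Polynomial.sylvester
  rw [Matrix.of_apply]
  induction b using Fin.addCases with
  | left b =>
    rw [Fin.addCases_left]
    split_ifs
    · exact hq _
    · simp
  | right b =>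
    rw [Fin.addCases_right]
    split_ifs
    · exact hp _
    · simp

/-- The common factor. -/
theorem ZRes_gcd {D : Type} [CommRing D] [IsDomain D] [UniqueFactorizationMonoid D]
    (p q : Polynomial D) (hp : p ≠ 0) (h : Polynomial.resultant p q = 0) :
    ∃ f : Polynomial D, Irreducible f ∧ f ∣ p ∧ f ∣ q ∧ f.natDegree ≠ 0 := by
  classical
  let K := FractionRing D
  have hinj : Function.Injective (algebraMap D K) := IsFractionRing.injective D K
  let _ : NormalizedGCDMonoid D := Classical.choice inferInstance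
  set p' := p.map (algebraMap D K) with hp'
  set q' := q.map (algebraMap D K) with hq'
  have hp0 : p' ≠ 0 := by
    rw [hp']; exact (Polynomial.map_ne_zero_iff hinj).2 hp
  have hres : Polynomial.resultant p' q' = 0 := by
    have h1 := Polynomial.resultant_map_map p q p.natDegree q.natDegree (algebraMap D K)
    rw [h, map_zero] at h1
    rw [hp', hq', Polynomial.natDegree_map_eq_of_injective hinj,
      Polynomial.natDegree_map_eq_of_injective hinj]
    exact h1
  have hnc := (Polynomial.resultant_eq_zero_iff.1 hres).2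
  have hg : ¬ IsUnit (EuclideanDomain.gcd p' q') := fun hu =>
    hnc (EuclideanDomain.gcd_isUnit_iff.1 hu)
  have hg0 : EuclideanDomain.gcd p' q' ≠ 0 := fun h0 =>
    hp0 (EuclideanDomain.gcd_eq_zero_iff.1 h0).1
  obtain ⟨t, ht, htd⟩ := WfDvdMonoid.exists_irreducible_factor hg hg0
  have htp : t ∣ p' := htd.trans (EuclideanDomain.gcd_dvd_left _ _)
  have htq : t ∣ q' := htd.trans (EuclideanDomain.gcd_dvd_right _ _)
  obtain ⟨c, c0, hc⟩ := IsLocalization.integerNormalization_spec (nonZeroDivisors D) t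
  set s := IsLocalization.integerNormalization (nonZeroDivisors D) t with hs
  have hsp := s.eq_C_content_mul_primPart
  have hc0 : algebraMap D K c ≠ 0 := by
    intro h0
    exact nonZeroDivisors.ne_zero c0 ((injective_iff_map_eq_zero (algebraMap D K)).1 hinj _ h0)
  have hs0 : s ≠ 0 := by
    intro h0
    rw [h0, Polynomial.map_zero, Algebra.smul_def, Polynomial.algebraMap_apply] at hc
    have := mul_eq_zero.1 hc.symm
    rcases this with h1 | h1
    · exact hc0 (Polynomial.C_eq_zero.1 h1)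
    · exact ht.ne_zero h1
  have hcont : algebraMap D K s.content ≠ 0 := by
    intro h0
    have h1 := (injective_iff_map_eq_zero (algebraMap D K)).1 hinj _ h0
    exact hs0 (Polynomial.content_eq_zero_iff.1 h1)
  have hassoc : Associated (s.primPart.map (algebraMap D K)) t := by
    have e1 : Associated (s.primPart.map (algebraMap D K)) (s.map (algebraMap D K)) := by
      have e2 : s.map (algebraMap D K) = Polynomial.C (algebraMap D K s.content) *
          s.primPart.map (algebraMap D K) := by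
        conv_lhs => rw [hsp]
        rw [Polynomial.map_mul, Polynomial.map_C]
      rw [e2]
      exact (associated_unit_mul_left _ _
        (Polynomial.isUnit_C.2 (isUnit_iff_ne_zero.2 hcont))).symm
    have e3 : Associated (s.map (algebraMap D K)) t := by
      rw [hc, Algebra.smul_def, Polynomial.algebraMap_apply]
      exact associated_unit_mul_left _ _
        (Polynomial.isUnit_C.2 (isUnit_iff_ne_zero.2 hc0))
    exact e1.trans e3
  have hprim := s.isPrimitive_primPart
  refine ⟨s.primPart, ?_, ?_, ?_, ?_⟩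
  · exact hprim.irreducible_of_irreducible_map_of_injective hinj (hassoc.irreducible_iff.2 ht)
  · exact hprim.dvd_of_fraction_map_dvd_fraction_map (K := K) (hassoc.dvd.trans htp)
  · exact hprim.dvd_of_fraction_map_dvd_fraction_map (K := K) (hassoc.dvd.trans htq)
  · rw [← Polynomial.natDegree_map_eq_of_injective hinj]
    exact (hassoc.irreducible_iff.2 ht).natDegree_pos.ne'

theorem ZRes_ren {N : ℕ} (R : MvPolynomial (Fin N) ℂ) :
    finSuccEquiv ℂ N (rename Fin.succ R) = Polynomial.C R := by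
  induction R using MvPolynomial.induction_on with
  | C a =>
    rw [rename_C]
    have h1 := congrArg (fun φ => φ a) (finSuccEquiv_comp_C_eq_C (R := ℂ) N)
    have h2 : (finSuccEquiv ℂ N).symm (Polynomial.C (C a)) = C a := h1
    rw [← h2, AlgEquiv.apply_symm_apply]
  | add p q hp hq => rw [map_add, map_add, hp, hq, map_add]
  | mul_X p i hp => rw [map_mul, map_mul, hp, rename_X, finSuccEquiv_X_succ, map_mul]

theorem pr_ZRes : S_ZRes := by
  intro N B P Q hP hQ hPB hQB
  set p := finSuccEquiv ℂ N P with hp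
  set q := finSuccEquiv ℂ N Q with hq
  have hp0 : p ≠ 0 := by rw [hp]; exact (map_ne_zero_iff _ (finSuccEquiv ℂ N).injective).2 hP
  have hpc : ∀ (i : Fin N) (j : ℕ), (p.coeff j).degreeOf i ≤ B := fun i j =>
    (degreeOf_coeff_finSuccEquiv P i j).trans (hPB _)
  have hqc : ∀ (i : Fin N) (j : ℕ), (q.coeff j).degreeOf i ≤ B := fun i j =>
    (degreeOf_coeff_finSuccEquiv Q i j).trans (hQB _)
  have hpd : p.natDegree ≤ B := by rw [hp, natDegree_finSuccEquiv]; exact hPB _
  have hqd : q.natDegree ≤ B := by rw [hq, natDegree_finSuccEquiv]; exact hQB _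
  by_cases hR : Polynomial.resultant p q = 0
  · left
    obtain ⟨f, hf, hfp, hfq, hfd⟩ := ZRes_gcd p q hp0 hR
    refine ⟨(finSuccEquiv ℂ N).symm f, ?_, ?_, ?_, ?_⟩
    · exact (MulEquiv.irreducible_iff (finSuccEquiv ℂ N).symm).2 hf
    · have := map_dvd (finSuccEquiv ℂ N).symm hfp
      rwa [hp, AlgEquiv.symm_apply_apply] at this
    · have := map_dvd (finSuccEquiv ℂ N).symm hfq
      rwa [hq, AlgEquiv.symm_apply_apply] at this
    · rw [← natDegree_finSuccEquiv, AlgEquiv.apply_symm_apply]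
      exact hfd
  · right
    by_cases hmn : p.natDegree ≠ 0 ∨ q.natDegree ≠ 0
    · refine ⟨Polynomial.resultant p q, hR, fun i => ?_, ?_⟩
      · refine (ZRes_res i p q (hpc i) (hqc i) _ _).trans ?_
        exact Nat.mul_le_mul_right _ (by omega)
      · obtain ⟨a, b, -, -, hab⟩ :=
          Polynomial.exists_mul_add_mul_eq_C_resultant p q le_rfl le_rfl hmn
        refine ⟨(finSuccEquiv ℂ N).symm a, (finSuccEquiv ℂ N).symm b, ?_⟩
        apply (finSuccEquiv ℂ N).injective
        rw [ZRes_ren, map_add, map_mul, map_mul, AlgEquiv.apply_symm_apply,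
          AlgEquiv.apply_symm_apply, ← hp, ← hq, ← hab]
        ring
    · push Not at hmn
      have hpC : p = Polynomial.C (p.coeff 0) := Polynomial.eq_C_of_natDegree_eq_zero hmn.1
      refine ⟨p.coeff 0, ?_, fun i => ?_, 1, 0, ?_⟩
      · intro h0
        rw [h0, map_zero] at hpC
        exact hp0 hpC
      · refine (hpc i 0).trans ?_
        rcases Nat.eq_zero_or_pos B with h0 | h0
        · rw [h0]
        · nlinarith
      · apply (finSuccEquiv ℂ N).injective
        rw [ZRes_ren, one_mul, zero_mul, add_zero, ← hp]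
        exact hpC.symm

end Pool.Agent.Work.MP_327059_nt.GL

end

section

set_option autoImplicit false

namespace Pool.Agent.Work.MP_327059_nt.GL

open MvPolynomial

theorem ZStep_tr_one {m : ℕ} (P : MvPolynomial (Fin (m + 1)) ℂ) :
    tr (fun _ : Fin m => (1 : ℂ)) 0 P = P := by
  have h : tr (fun _ : Fin m => (1 : ℂ)) 0 = AlgHom.id ℂ (MvPolynomial (Fin (m + 1)) ℂ) := by
    refine MvPolynomial.algHom_ext fun i => ?_
    unfold tr
    rw [aeval_X, AlgHom.id_apply]
    refine Fin.lastCases ?_ (fun j => ?_) i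
    · simp
    · simp
  rw [h, AlgHom.id_apply]

theorem ZStep_degreeOf_dvd {σ : Type} [DecidableEq σ] {P Q : MvPolynomial σ ℂ} (hP : P ≠ 0)
    (h : Q ∣ P) (i : σ) : Q.degreeOf i ≤ P.degreeOf i := by
  obtain ⟨R, rfl⟩ := h
  rw [degreeOf_mul_eq (left_ne_zero_of_mul hP) (right_ne_zero_of_mul hP)]
  exact Nat.le_add_right _ _

theorem ZStep_degreeOf_assoc {σ : Type} {P Q : MvPolynomial σ ℂ} (h : Associated P Q) (i : σ) :
    P.degreeOf i = Q.degreeOf i := by
  classical
  by_cases hP : P = 0
  · have : Q = 0 := by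
      rw [hP] at h
      exact (associated_zero_iff_eq_zero Q).mp h.symm
    rw [hP, this]
  · have hQ : Q ≠ 0 := fun hQ => hP ((associated_zero_iff_eq_zero P).mp (hQ ▸ h))
    exact le_antisymm (ZStep_degreeOf_dvd hQ h.dvd i) (ZStep_degreeOf_dvd hP h.symm.dvd i)

/-- The number of factors involving a given variable. -/
theorem ZStep_card {σ : Type} (i : σ) (s : Multiset (MvPolynomial σ ℂ)) (h0 : (0 : MvPolynomial σ ℂ) ∉ s) :
    Multiset.card (s.filter (fun p => p.degreeOf i ≠ 0)) ≤ s.prod.degreeOf i := by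
  classical
  induction s using Multiset.induction_on with
  | empty => simp
  | cons a s ih =>
    have ha : a ≠ 0 := fun h => h0 (by simp [h])
    have hs : (0 : MvPolynomial σ ℂ) ∉ s := fun h => h0 (Multiset.mem_cons_of_mem h)
    have hsp : s.prod ≠ 0 := Multiset.prod_ne_zero hs
    rw [Multiset.prod_cons, degreeOf_mul_eq ha hsp]
    have := ih hs
    by_cases hd : a.degreeOf i ≠ 0
    · rw [Multiset.filter_cons_of_pos (p := fun p : MvPolynomial σ ℂ => p.degreeOf i ≠ 0) s hd,
        Multiset.card_cons]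
      omega
    · rw [Multiset.filter_cons_of_neg (p := fun p : MvPolynomial σ ℂ => p.degreeOf i ≠ 0) s hd]
      omega

/-- Two monomials of different exponent of `X_0`. -/
theorem ZStep_monomials {m : ℕ} (P : MvPolynomial (Fin (m + 1)) ℂ) (h0 : P.degreeOf 0 ≠ 0)
    (hX : ¬ X 0 ∣ P) : ∃ d ∈ P.support, ∃ d' ∈ P.support, d 0 ≠ d' 0 := by
  classical
  by_contra hcon
  push Not at hcon
  apply hX
  have hex : ∃ d ∈ P.support, d 0 ≠ 0 := by
    by_contra hc
    push Not at hc
    apply h0
    rw [degreeOf_eq_sup]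
    exact Nat.le_zero.mp (Finset.sup_le fun d hd => (hc d hd).le)
  obtain ⟨d, hd, hd0⟩ := hex
  rw [P.as_sum]
  refine Finset.dvd_sum fun d' hd' => ?_
  rw [X_dvd_monomial]
  right
  rw [← hcon d hd d' hd']
  exact hd0

theorem ZStep_pt_succ {m n : ℕ} (l : Fin n → ℂ) (y : Fin n → Fin (m + 1) → ℂ) (s : Fin n → ℕ) :
    (pt l y s) ∘ Fin.succ = pt l (fun i j => y i j.succ) s := by
  funext j
  unfold pt
  refine Fin.lastCases ?_ (fun j => ?_) j
  · rw [Function.comp_apply, Fin.succ_last, Fin.snoc_last, Fin.snoc_last]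
  · rw [Function.comp_apply, Fin.succ_castSucc, Fin.snoc_castSucc, Fin.snoc_castSucc]

theorem pr_ZStep (h1 : S_ZRes) (h2 : S_Tr) : S_ZStep := by
  classical
  intro m n S S' B l y P hy hP hB hdeg hvan
  -- remove the factor `X_0`
  obtain ⟨e, P1, hXP1, hPe⟩ := WfDvdMonoid.max_power_factor hP
    (MvPolynomial.X_prime (R := ℂ) (i := (0 : Fin (m + 2)))).irreducible
  have hP1 : P1 ≠ 0 := by
    rintro rfl
    exact hP (by rw [hPe, mul_zero])
  have hdvd1 : P1 ∣ P := ⟨X 0 ^ e, by rw [hPe]; ring⟩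
  have hdeg1 : ∀ i, P1.degreeOf i ≤ B := fun i => (ZStep_degreeOf_dvd hP hdvd1 i).trans (hdeg i)
  have hvan1 : ∀ s : Fin n → ℕ, (∀ i, s i ≤ S + S') → eval (pt l y s) P1 = 0 := by
    intro s hs
    have h := hvan s hs
    rw [hPe, map_mul, map_pow, eval_X] at h
    have h0 : pt l y s 0 ≠ 0 := by
      unfold pt
      have : (0 : Fin (m + 2)) = Fin.castSucc (0 : Fin (m + 1)) := rfl
      rw [this, Fin.snoc_castSucc]
      exact Finset.prod_ne_zero_iff.mpr fun i _ => pow_ne_zero _ (hy i 0)
    exact (mul_eq_zero.mp h).resolve_left (pow_ne_zero _ h0)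
  -- translates
  let cc : (Fin n → ℕ) → Fin (m + 1) → ℂ := fun s j => ∏ i, y i j ^ s i
  let tt : (Fin n → ℕ) → ℂ := fun s => ∑ i, (s i : ℂ) * l i
  have hcc : ∀ s j, cc s j ≠ 0 := fun s j =>
    Finset.prod_ne_zero_iff.mpr fun i _ => pow_ne_zero _ (hy i j)
  have htrev : ∀ s s' : Fin n → ℕ, ∀ Q : MvPolynomial (Fin (m + 2)) ℂ,
      eval (pt l y s') (tr (cc s) (tt s) Q) = eval (pt l y (s + s')) Q := by
    intro s s' Q
    have := (h2 (m + 1) (cc s) (tt s) (hcc s)).1 (fun j => ∏ i, y i j ^ s' i)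
      (∑ i, (s' i : ℂ) * l i) Q
    unfold pt
    rw [this]
    congr 2
    congr 1
    · funext j
      simp only [cc, Pi.add_apply, pow_add, Finset.prod_mul_distrib]
    · simp only [tt, Pi.add_apply, Nat.cast_add, add_mul, Finset.sum_add_distrib]
      ring
  have htrdeg : ∀ s i (Q : MvPolynomial (Fin (m + 2)) ℂ),
      (tr (cc s) (tt s) Q).degreeOf i = Q.degreeOf i := fun s i Q =>
    (h2 (m + 1) (cc s) (tt s) (hcc s)).2.1 Q i
  -- inverse translates
  have hinv : ∀ s (Q : MvPolynomial (Fin (m + 2)) ℂ),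
      tr (fun j => (cc s j)⁻¹) (-(tt s)) (tr (cc s) (tt s) Q) = Q := by
    intro s Q
    rw [(h2 (m + 1) (fun j => (cc s j)⁻¹) (-(tt s)) (fun j => inv_ne_zero (hcc s j))).2.2.1]
    have h3 : (fun j => (cc s j)⁻¹ * cc s j) = fun _ : Fin (m + 1) => (1 : ℂ) := by
      funext j
      exact inv_mul_cancel₀ (hcc s j)
    rw [h3, neg_add_cancel, ZStep_tr_one]
  have hinv' : ∀ s (Q : MvPolynomial (Fin (m + 2)) ℂ),
      tr (cc s) (tt s) (tr (fun j => (cc s j)⁻¹) (-(tt s)) Q) = Q := by
    intro s Q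
    rw [(h2 (m + 1) (cc s) (tt s) (hcc s)).2.2.1]
    have h3 : (fun j => cc s j * (cc s j)⁻¹) = fun _ : Fin (m + 1) => (1 : ℂ) := by
      funext j
      exact mul_inv_cancel₀ (hcc s j)
    rw [h3, add_neg_cancel, ZStep_tr_one]
  have htr0 : ∀ s, tr (cc s) (tt s) P1 ≠ 0 := by
    intro s h
    apply hP1
    rw [← hinv s P1, h, map_zero]
  by_cases hR : ∃ s : Fin n → ℕ, (∀ i, s i ≤ S) ∧
      ∃ R : MvPolynomial (Fin (m + 1)) ℂ, R ≠ 0 ∧ (∀ i, R.degreeOf i ≤ 2 * B * B) ∧
      ∃ a b : MvPolynomial (Fin (m + 2)) ℂ,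
        rename Fin.succ R = a * P1 + b * tr (cc s) (tt s) P1
  · right
    obtain ⟨s, hs, R, hR0, hRdeg, a, b, hab⟩ := hR
    refine ⟨R, hR0, hRdeg, fun s' hs' => ?_⟩
    rw [← ZStep_pt_succ, ← eval_rename, hab, map_add, map_mul, map_mul, htrev,
      hvan1 s' (fun i => (hs' i).trans (Nat.le_add_left _ _)),
      hvan1 (s + s') (fun i => Nat.add_le_add (hs i) (hs' i))]
    simp
  · left
    push Not at hR
    -- representatives of the irreducible factors involving `X_0`
    let Fs : Finset (MvPolynomial (Fin (m + 2)) ℂ) :=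
      ((UniqueFactorizationMonoid.factors P1).filter (fun p => p.degreeOf 0 ≠ 0)).toFinset
    have hFs : Fs.card ≤ B := by
      refine (Multiset.toFinset_card_le _).trans ?_
      refine (ZStep_card 0 _ ?_).trans ?_
      · intro h
        exact (UniqueFactorizationMonoid.irreducible_of_factor _ h).ne_zero rfl
      · rw [ZStep_degreeOf_assoc (UniqueFactorizationMonoid.factors_prod hP1) 0]
        exact hdeg1 0
    have hFsmem : ∀ f ∈ Fs, Irreducible f ∧ f ∣ P1 ∧ f.degreeOf 0 ≠ 0 := by
      intro f hf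
      have hf' := Multiset.mem_filter.mp (Multiset.mem_toFinset.mp hf)
      exact ⟨UniqueFactorizationMonoid.irreducible_of_factor _ hf'.1,
        UniqueFactorizationMonoid.dvd_of_mem_factors hf'.1, hf'.2⟩
    have hrep : ∀ f : MvPolynomial (Fin (m + 2)) ℂ, Irreducible f → f ∣ P1 → f.degreeOf 0 ≠ 0 →
        ∃ g ∈ Fs, Associated f g := by
      intro f hf hfd hf0
      obtain ⟨g, hg, hfg⟩ := UniqueFactorizationMonoid.exists_mem_factors_of_dvd hP1 hf hfd
      refine ⟨g, ?_, hfg⟩
      refine Multiset.mem_toFinset.mpr (Multiset.mem_filter.mpr ⟨hg, ?_⟩)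
      rwa [← ZStep_degreeOf_assoc hfg 0]
    have hpair : ∀ s : Fin n → ℕ, (∀ i, s i ≤ S) →
        ∃ q ∈ Fs ×ˢ Fs, Associated (tr (cc s) (tt s) q.1) q.2 := by
      intro s hs
      rcases h1 (m + 1) B P1 (tr (cc s) (tt s) P1) hP1 (htr0 s) hdeg1
        (fun i => by rw [htrdeg]; exact hdeg1 i) with ⟨f, hf, hfP, hfQ, hf0⟩ | ⟨R, hR0, hRd, a, b, hab⟩
      · obtain ⟨g2, hg2, hfg2⟩ := hrep f hf hfP hf0
        have hi := (h2 (m + 1) (fun j => (cc s j)⁻¹) (-(tt s))
          (fun j => inv_ne_zero (hcc s j)))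
        obtain ⟨g1, hg1, hfg1⟩ := hrep (tr (fun j => (cc s j)⁻¹) (-(tt s)) f)
          ((hi.2.2.2.1 f).mpr hf)
          (by
            have := map_dvd (tr (fun j => (cc s j)⁻¹) (-(tt s))) hfQ
            rwa [hinv] at this)
          (by rw [hi.2.1]; exact hf0)
        refine ⟨(g1, g2), Finset.mem_product.mpr ⟨hg1, hg2⟩, ?_⟩
        have h3 := hfg1.symm.map (tr (cc s) (tt s))
        rw [hinv'] at h3
        exact h3.trans hfg2
      · exact absurd hab (hR s hs R hR0 hRd a b)
    -- pigeonhole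
    let Bx : Finset (Fin n → ℕ) := Fintype.piFinset (fun _ => Finset.range (S + 1))
    have hBx : Bx.card = (S + 1) ^ n := by
      simp [Bx]
    have hBxm : ∀ s, s ∈ Bx ↔ ∀ i, s i ≤ S := by
      intro s
      simp [Bx]
    let φ : (Fin n → ℕ) → MvPolynomial (Fin (m + 2)) ℂ × MvPolynomial (Fin (m + 2)) ℂ :=
      fun s => if h : ∀ i, s i ≤ S then (hpair s h).choose else (0, 0)
    have hφ : ∀ s ∈ Bx, φ s ∈ Fs ×ˢ Fs ∧ Associated (tr (cc s) (tt s) (φ s).1) (φ s).2 := by
      intro s hs
      have hs' := (hBxm s).mp hs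
      simp only [φ, dif_pos hs']
      exact (hpair s hs').choose_spec
    have hBxne : (0 : Fin n → ℕ) ∈ Bx := (hBxm 0).mpr fun i => Nat.zero_le _
    have hFFne : (Fs ×ˢ Fs).Nonempty := ⟨_, (hφ 0 hBxne).1⟩
    obtain ⟨q, hq, hqmax⟩ := Finset.exists_max_image (Fs ×ˢ Fs)
      (fun q => (Bx.filter (fun s => φ s = q)).card) hFFne
    have hcount : (S + 1) ^ n ≤ B * B * (Bx.filter (fun s => φ s = q)).card := by
      rw [← hBx, Finset.card_eq_sum_card_fiberwise (fun s hs => (hφ s hs).1)]
      refine (Finset.sum_le_card_nsmul _ _ _ hqmax).trans ?_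
      rw [smul_eq_mul, Finset.card_product]
      exact Nat.mul_le_mul_right _ (Nat.mul_le_mul hFs hFs)
    set F := Bx.filter (fun s => φ s = q) with hF
    have hFne : F.Nonempty := by
      rw [← Finset.card_pos]
      by_contra h
      have h0 : F.card = 0 := by omega
      rw [h0, mul_zero] at hcount
      exact absurd hcount (not_le.mpr (pow_pos (Nat.succ_pos _) _))
    obtain ⟨s0, hs0⟩ := hFne
    have hFassoc : ∀ s ∈ F, (∀ i, s i ≤ S) ∧ Associated (tr (cc s) (tt s) q.1) q.2 := by
      intro s hs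
      obtain ⟨hs1, hs2⟩ := Finset.mem_filter.mp hs
      have := (hφ s hs1).2
      rw [hs2] at this
      exact ⟨(hBxm s).mp hs1, this⟩
    have hq1 : q.1 ∈ Fs := (Finset.mem_product.mp hq).1
    obtain ⟨hqirr, hqdvd, hq0⟩ := hFsmem q.1 hq1
    obtain ⟨d, hd, d', hd', hdd'⟩ := ZStep_monomials q.1 hq0 (fun h => hXP1 (h.trans hqdvd))
    refine ⟨fun j => (d j.castSucc : ℤ) - d' j.castSucc, ?_, ?_, ?_⟩
    · intro h
      have := congrFun h 0
      simp only [Pi.zero_apply] at this
      apply hdd'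
      have h3 : (Fin.castSucc (0 : Fin (m + 1))) = (0 : Fin (m + 2)) := rfl
      rw [h3] at this
      omega
    · intro j
      have h3 := (monomial_le_degreeOf j.castSucc hd).trans
        ((ZStep_degreeOf_dvd hP1 hqdvd j.castSucc).trans (hdeg1 _))
      have h4 := (monomial_le_degreeOf j.castSucc hd').trans
        ((ZStep_degreeOf_dvd hP1 hqdvd j.castSucc).trans (hdeg1 _))
      show |(d j.castSucc : ℤ) - d' j.castSucc| ≤ (B : ℤ)
      rw [abs_le]
      constructor <;> omega
    · refine hcount.trans (Nat.mul_le_mul_left _ ?_)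
      -- injection
      have hkey : ∀ s ∈ F, ∏ i, ∏ j : Fin (m + 1),
          y i j ^ (((s i : ℤ) - s0 i) * ((d j.castSucc : ℤ) - d' j.castSucc)) = 1 := by
        intro s hs
        have h3 : Associated (tr (cc s) (tt s) q.1) (tr (cc s0) (tt s0) q.1) :=
          (hFassoc s hs).2.trans (hFassoc s0 hs0).2.symm
        obtain ⟨u, hu⟩ := h3.symm
        obtain ⟨a, -, hau⟩ := isUnit_iff_eq_C_of_isReduced.mp u.isUnit
        rw [hau] at hu
        -- translate back
        have h4 := congrArg (tr (fun j => (cc s0 j)⁻¹) (-(tt s0))) hu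
        rw [map_mul, hinv, (h2 (m + 1) (fun j => (cc s0 j)⁻¹) (-(tt s0))
          (fun j => inv_ne_zero (hcc s0 j))).2.2.1, ← MvPolynomial.algebraMap_eq,
          AlgHom.commutes, MvPolynomial.algebraMap_eq] at h4
        have h5 := (h2 (m + 1) (fun j => (cc s0 j)⁻¹ * cc s j) (-(tt s0) + tt s)
          (fun j => mul_ne_zero (inv_ne_zero (hcc s0 j)) (hcc s j))).2.2.2.2 q.1 a
          (by rw [← h4]; ring) d hd d' hd'
        have h6 : ∀ j : Fin (m + 1), (cc s0 j)⁻¹ * cc s j = ∏ i, y i j ^ ((s i : ℤ) - s0 i) := by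
          intro j
          simp only [cc]
          rw [← Finset.prod_inv_distrib, ← Finset.prod_mul_distrib]
          refine Finset.prod_congr rfl fun i _ => ?_
          rw [zpow_sub₀ (hy i j), zpow_natCast, zpow_natCast, div_eq_mul_inv, mul_comm]
        rw [Finset.prod_comm]
        have h7 : ∀ j : Fin (m + 1), ∏ i, y i j ^ (((s i : ℤ) - s0 i) *
            ((d j.castSucc : ℤ) - d' j.castSucc)) =
            ((cc s0 j)⁻¹ * cc s j) ^ d j.castSucc / ((cc s0 j)⁻¹ * cc s j) ^ d' j.castSucc := by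
          intro j
          have h8 : (cc s0 j)⁻¹ * cc s j ≠ 0 := mul_ne_zero (inv_ne_zero (hcc s0 j)) (hcc s j)
          rw [← zpow_natCast, ← zpow_natCast, ← zpow_sub₀ h8, h6 j, ← Finset.prod_zpow]
          refine Finset.prod_congr rfl fun i _ => ?_
          rw [zpow_mul]
        rw [Finset.prod_congr rfl fun j _ => h7 j, Finset.prod_div_distrib, h5, div_self]
        refine Finset.prod_ne_zero_iff.mpr fun j _ => pow_ne_zero _ ?_
        exact mul_ne_zero (inv_ne_zero (hcc s0 j)) (hcc s j)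
      unfold cntY
      have hfin : ({s : Fin n → ℤ | (∀ i, |s i| ≤ (S : ℤ)) ∧ ∏ i, ∏ j : Fin (m + 1),
          y i j ^ (s i * ((d j.castSucc : ℤ) - d' j.castSucc)) = 1}).Finite := by
        refine Set.Finite.subset (Set.Finite.pi' (t := fun _ => Set.Icc (-(S : ℤ)) S)
          (fun _ => Set.finite_Icc _ _)) ?_
        intro s hs i
        have := hs.1 i
        rw [abs_le] at this
        exact this
      rw [← Set.ncard_coe_finset F]
      refine Set.ncard_le_ncard_of_injOn (fun s => fun i => (s i : ℤ) - s0 i) ?_ ?_ hfin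
      · intro s hs
        have hs : s ∈ F := hs
        refine ⟨fun i => ?_, hkey s hs⟩
        have h3 := (hFassoc s hs).1 i
        have h4 := (hFassoc s0 hs0).1 i
        show |(s i : ℤ) - s0 i| ≤ (S : ℤ)
        rw [abs_le]
        constructor <;> omega
      · intro s _ s' _ hss'
        funext i
        have := congrFun hss' i
        simp only at this
        omega

end Pool.Agent.Work.MP_327059_nt.GL

end

section

set_option autoImplicit false

namespace Pool.Agent.Work.MP_327059_nt.GL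

/-- transitivity of algebraicity -/
theorem Cases_trans (S T : Set ℂ) (h : ∀ s ∈ S, IsAlgebraic (IntermediateField.adjoin ℚ T) s)
    (f : ℂ) (hf : IsAlgebraic (IntermediateField.adjoin ℚ S) f) :
    IsAlgebraic (IntermediateField.adjoin ℚ T) f := by
  let M := AlgebraicIndependent.matroid ℚ ℂ
  have hcl : ∀ (U : Set ℂ) (a : ℂ), a ∈ M.closure U ↔
      IsAlgebraic (IntermediateField.adjoin ℚ U) a := by
    intro U a
    rw [AlgebraicIndependent.matroid_closure_eq, IntermediateField.isAlgebraic_adjoin_iff]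
    rfl
  have h1 : S ⊆ M.closure T := fun s hs => (hcl T s).2 (h s hs)
  have h2 : M.closure S ⊆ M.closure T := M.closure_subset_closure_of_subset_closure h1
  exact (hcl T f).1 (h2 ((hcl S f).2 hf))

/-- independence is inherited by smaller fields -/
theorem Cases_mono {ι : Type} (L K : IntermediateField ℚ ℂ) (hLK : L ≤ K) (v : ι → ℂ)
    (hv : AlgebraicIndependent K v) : AlgebraicIndependent L v := by
  let _ : Algebra L K := (IntermediateField.inclusion hLK).toRingHom.toAlgebra
  have : IsScalarTower L K ℂ := IsScalarTower.of_algebraMap_eq (fun x => rfl)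
  exact hv.restrictScalars (IntermediateField.inclusion hLK).toRingHom.injective

/-- exchanging the roles of two families -/
theorem Cases_swap {n k : ℕ} (v : Fin n → ℂ) (f : Fin k → ℂ) (hf : AlgebraicIndependent ℚ f)
    (hv : AlgebraicIndependent (IntermediateField.adjoin ℚ (Set.range f)) v) :
    AlgebraicIndependent (IntermediateField.adjoin ℚ (Set.range v)) f := by
  have h1 : AlgebraicIndependent ℚ (Sum.elim v f) :=
    AlgebraicIndependent.sumElim_iff.2 ⟨hf, IntermediateField.algebraicIndependent_adjoin_iff.1 hv⟩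
  have h2 : AlgebraicIndependent ℚ (Sum.elim f v) := by
    have h3 := h1.comp (Sum.swap : Fin k ⊕ Fin n → Fin n ⊕ Fin k)
      (Function.LeftInverse.injective Sum.swap_leftInverse)
    have e : (Sum.elim v f) ∘ (Sum.swap : Fin k ⊕ Fin n → Fin n ⊕ Fin k) = Sum.elim f v := by
      funext a
      rcases a with a | a <;> rfl
    rwa [e] at h3
  exact IntermediateField.algebraicIndependent_adjoin_iff.2 (AlgebraicIndependent.sumElim_iff.1 h2).2

/-- adding one transcendental element -/
theorem Cases_add {k : ℕ} (K : IntermediateField ℚ ℂ) (f : Fin k → ℂ) (s : ℂ)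
    (hf : AlgebraicIndependent K f)
    (hs : ¬ IsAlgebraic (IntermediateField.adjoin K (Set.range f)) s) :
    AlgebraicIndependent K ((fun o : Option (Fin k) => o.elim s f) ∘ (finSuccEquiv k)) := by
  have h1 : Transcendental (Algebra.adjoin K (Set.range f)) s :=
    IntermediateField.transcendental_adjoin_iff.1 hs
  exact (AlgebraicIndependent.option_iff.2 ⟨hf, h1⟩).comp _ (finSuccEquiv k).injective

theorem pr_Cases (h1 : S_GenComb) : S_Cases := by
  classical
  intro n x Y v N hv hN
  have hA : ∀ (k : ℕ) (f : Fin k → ℂ), (∀ t, f t ∈ Y) → AlgebraicIndependent ℚ f →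
      AlgebraicIndependent (IntermediateField.adjoin ℚ (Set.range v)) f := by
    intro k f hfY hf
    refine Cases_swap v f hf (Cases_mono _ _ ?_ v hv)
    refine IntermediateField.adjoin.mono ℚ _ _ ?_
    rintro _ ⟨t, rfl⟩
    exact Or.inr (hfY t)
  let Pr : ℕ → Prop := fun k => ∃ B : Fin k → ℂ, (∀ t, B t ∈ Y) ∧ AlgebraicIndependent ℚ B
  have hPr : ∀ k, Pr k → k ≤ N := by
    rintro k ⟨B, hB1, hB2⟩
    exact hN k B (fun t => Or.inr (hB1 t)) (hA k B hB1 hB2)
  have hPr0 : Pr 0 := by
    refine ⟨Fin.elim0, fun t => t.elim0, ?_⟩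
    rw [algebraicIndependent_empty_type_iff]
    exact (algebraMap ℚ ℂ).injective
  set k0 := Nat.findGreatest Pr N with hk0
  have hPk0 : Pr k0 := Nat.findGreatest_spec (Nat.zero_le N) hPr0
  have hmax : ∀ k, Pr k → k ≤ k0 := fun k hk => Nat.le_findGreatest (hPr k hk) hk
  obtain ⟨B, hB1, hB2⟩ := hPk0
  have hBY : Set.range B ⊆ Y := by
    rintro _ ⟨t, rfl⟩
    exact hB1 t
  have hC : ∀ y ∈ Y, IsAlgebraic (IntermediateField.adjoin ℚ (Set.range B)) y := by
    intro y hy
    by_contra hcon
    have h2 : Transcendental (Algebra.adjoin ℚ (Set.range B)) y :=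
      IntermediateField.transcendental_adjoin_iff.1 hcon
    have h3 := (AlgebraicIndependent.option_iff.2 ⟨hB2, h2⟩).comp _ (finSuccEquiv k0).injective
    have h4 : Pr (k0 + 1) := by
      refine ⟨_, ?_, h3⟩
      intro t
      simp only [Function.comp_apply]
      cases finSuccEquiv k0 t with
      | none => exact hy
      | some j => exact hB1 j
    have := hmax _ h4
    omega
  have hcount : ∀ (k : ℕ) (f : Fin k → ℂ),
      (∀ t, IsAlgebraic (IntermediateField.adjoin ℚ (Set.range B)) (f t)) →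
      AlgebraicIndependent ℚ f → k ≤ k0 := by
    intro k f hf1 hf2
    simpa using pr_TrCount (Fin k) (Fin k0) f B hf2 hf1
  by_cases hs : IsAlgebraic (IntermediateField.adjoin ℚ (Set.range v ∪ Set.range B)) (∑ i, v i * x i)
  · right
    have hvB : AlgebraicIndependent (IntermediateField.adjoin ℚ (Set.range x ∪ Set.range B)) v :=
      Cases_mono _ _ (IntermediateField.adjoin.mono ℚ _ _ (Set.union_subset_union_right _ hBY)) v hv
    have hxB := h1 n x (Set.range B) v hvB hs
    intro k f hf1 hf2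
    refine (hcount k f ?_ hf2).trans (hPr _ ⟨B, hB1, hB2⟩)
    intro t
    refine Cases_trans _ _ ?_ _ (hf1 t)
    rintro _ (⟨i, rfl⟩ | hy)
    · exact hxB i
    · exact hC _ hy
  · left
    have hs' : ¬ IsAlgebraic (IntermediateField.adjoin
        (IntermediateField.adjoin ℚ (Set.range v)) (Set.range B)) (∑ i, v i * x i) := by
      intro h
      apply hs
      rw [← IntermediateField.adjoin_adjoin_left]
      exact h
    have h3 := Cases_add _ B _ (hA k0 B hB1 hB2) hs'
    have h4 : k0 + 1 ≤ N := by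
      refine hN (k0 + 1) _ ?_ h3
      intro t
      simp only [Function.comp_apply]
      cases finSuccEquiv k0 t with
      | none => exact Or.inl rfl
      | some j => exact Or.inr (hB1 j)
    intro k f hf1 hf2
    have h5 : k ≤ k0 := by
      refine hcount k f ?_ hf2
      intro t
      exact Cases_trans _ _ hC _ (hf1 t)
    omega

end Pool.Agent.Work.MP_327059_nt.GL

end

section

/-!
# Maximal rank for logarithms and arbitrary algebraic multipliers
-/

set_option autoImplicit false

namespace Pool.Agent.Work.MP_327059_nt.GL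

/-- maximal rank, arbitrary algebraic multipliers -/
def S_GCoreB : Prop := ∀ m : ℕ, ∃ n₀ : ℕ, ∀ b : Fin m → ℂ, (∀ j, IsAlgebraic ℚ (b j)) →
  LinearIndependent ℚ (Fin.cons 1 b : Fin (m + 1) → ℂ) → ∀ n : ℕ, n₀ ≤ n → ∀ l : Fin n → ℂ,
    LinearIndependent ℚ l → (∀ i, IsAlgebraic ℚ (Complex.exp (l i))) →
      ∃ v : Fin n → ℂ, rk l (fun i j => Complex.exp (b j * l i)) v = m + 1

/-- Independence of the numbers `1, ∑ c_j b_j`. -/
theorem gCoreB_bind {m k : ℕ} (b : Fin m → ℂ)
    (hb : LinearIndependent ℚ (Fin.cons 1 b : Fin (m + 1) → ℂ))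
    (c : Fin k → Fin m → ℚ) (hc : LinearIndependent ℚ c) :
    LinearIndependent ℚ (Fin.cons 1 (fun t => ∑ j, (c t j : ℂ) * b j) : Fin (k + 1) → ℂ) := by
  classical
  have hp : ∀ (a0 : ℚ) (a : Fin m → ℚ),
      (a0 : ℂ) + ∑ j, (a j : ℂ) * b j = 0 → a0 = 0 ∧ ∀ j, a j = 0 := by
    intro a0 a h
    have h1 := Fintype.linearIndependent_iff.1 hb (Fin.cons a0 a) (by
      rw [Fin.sum_univ_succ]
      simp only [Fin.cons_zero, Fin.cons_succ, Algebra.smul_def, eq_ratCast, mul_one]
      exact h)
    exact ⟨by simpa using h1 0, fun j => by simpa using h1 j.succ⟩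
  rw [Fintype.linearIndependent_iff]
  intro g hg
  rw [Fin.sum_univ_succ] at hg
  simp only [Fin.cons_zero, Fin.cons_succ, Algebra.smul_def, eq_ratCast, mul_one] at hg
  have h1 : ∑ t : Fin k, (g t.succ : ℂ) * ∑ j, (c t j : ℂ) * b j =
      ∑ j : Fin m, ((∑ t : Fin k, g t.succ * c t j : ℚ) : ℂ) * b j := by
    simp only [Finset.mul_sum]
    rw [Finset.sum_comm]
    refine Finset.sum_congr rfl fun j _ => ?_
    push_cast
    rw [Finset.sum_mul]
    exact Finset.sum_congr rfl fun t _ => by ring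
  rw [h1] at hg
  obtain ⟨h2, h3⟩ := hp _ _ hg
  have h4 := Fintype.linearIndependent_iff.1 hc (fun t => g t.succ) (by
    funext j
    rw [Finset.sum_apply]
    simp only [Pi.smul_apply, smul_eq_mul, Pi.zero_apply]
    exact h3 j)
  intro i
  refine Fin.cases h2 (fun t => h4 t) i

/-- A power of an exponential as a Laurent monomial. -/
theorem gCoreB_mon {n m : ℕ} (b : Fin m → ℂ) (l : Fin n → ℂ) (w : Fin n → ℚ) (c : Fin m → ℚ)
    (N : ℕ) (ξ : Fin n → Fin m → ℤ) (h : ∀ i j, (ξ i j : ℚ) = N * (w i * c j)) :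
    Complex.exp ((∑ j, (c j : ℂ) * b j) * ∑ i, (w i : ℂ) * l i) ^ N =
      mon (fun i j => Complex.exp (b j * l i)) ξ := by
  rw [mon, ← Complex.exp_nat_mul]
  simp only [← Complex.exp_int_mul, ← Complex.exp_sum]
  congr 1
  rw [Finset.sum_mul_sum, Finset.sum_comm]
  simp only [Finset.mul_sum]
  refine Finset.sum_congr rfl fun i _ => Finset.sum_congr rfl fun j _ => ?_
  have h1 : ((ξ i j : ℤ) : ℂ) = (N : ℂ) * ((w i : ℂ) * (c j : ℂ)) := by
    have := congrArg (fun q : ℚ => (q : ℂ)) (h i j)
    push_cast at this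
    exact this
  rw [h1]
  ring

theorem pr_GCoreB (h1 : S_TI) (h2 : S_AxOut) (h3 : S_Cases) (h4 : S_LinAlg) (h5 : S_DenseK) :
    S_GCoreB := by
  classical
  intro m
  choose M hM using h1
  refine ⟨m * m + (Finset.range (m + 2)).sup M, ?_⟩
  intro b hb hbind n hn l hl hexp
  set y : Fin n → Fin m → ℂ := fun i j => Complex.exp (b j * l i) with hy
  have hy0 : ∀ i j, y i j ≠ 0 := fun i j => Complex.exp_ne_zero _
  -- the generic point
  set S1 : Set ℂ := Set.range l ∪ Set.range (fun p : Fin n × Fin m => y p.1 p.2) with hS1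
  have hS1c : S1.Countable := (Set.countable_range _).union (Set.countable_range _)
  obtain ⟨v, hv, -⟩ := h5 (Fin n) S1 hS1c (fun _ => 0) 1 one_pos
  refine ⟨v, ?_⟩
  have hle : rk l y v ≤ m + 1 := by
    have := Submodule.finrank_le ((TT v).map (om l y v))
    have h6 : Module.finrank ℂ (Option (Fin m) → ℂ) = m + 1 := by
      rw [Module.finrank_fintype_fun_eq_card, Fintype.card_option, Fintype.card_fin]
    rw [h6] at this
    exact this
  by_contra hne
  have hlt : rk l y v < m + 1 := lt_of_le_of_ne hle hne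
  obtain ⟨G, hG⟩ := h2 n m l y v hy0
  have hu : ug G v ≤ rk l y v := by
    have := hG 0 Fin.elim0 (fun t => t.elim0) (by
      rw [algebraicIndependent_empty_type_iff]
      exact (algebraMap (IntermediateField.adjoin ℚ (Set.range v)) ℂ).injective)
    omega
  set Y : Set ℂ := {z | ∃ ξ ∈ G, z = mon y ξ} with hY
  have hK : IntermediateField.adjoin ℚ (Set.range l ∪ Y) ≤ IntermediateField.adjoin ℚ S1 := by
    rw [IntermediateField.adjoin_le_iff]
    rintro z (⟨i, rfl⟩ | ⟨ξ, -, rfl⟩)
    · exact IntermediateField.subset_adjoin ℚ _ (Or.inl ⟨i, rfl⟩)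
    · refine prod_mem fun i _ => prod_mem fun j _ => zpow_mem ?_ _
      exact IntermediateField.subset_adjoin ℚ _ (Or.inr ⟨(i, j), rfl⟩)
  have hv1 : AlgebraicIndependent (IntermediateField.adjoin ℚ (Set.range l ∪ Y)) v :=
    gCore_mono hK v hv
  have hvQ : AlgebraicIndependent ℚ v :=
    hv.restrictScalars (K := IntermediateField.adjoin ℚ S1) (algebraMap ℚ _).injective
  have hcases := h3 n l Y v (rk l y v - ug G v) hv1 (by
    intro k f hf hfi
    have := hG k f hf hfi
    omega)
  obtain ⟨Cs, Vs, hCs, hVs, hCV⟩ := h4 n m G v hvQ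
  -- the numbers
  obtain ⟨k, hk⟩ : ∃ k, m = ug G v + k := ⟨m - ug G v, by omega⟩
  have hkC : k ≤ Module.finrank ℚ Cs := by omega
  obtain ⟨c, hc⟩ := exists_linearIndependent_of_le_finrank hkC
  have hc' : LinearIndependent ℚ (fun t => (c t : Fin m → ℚ)) :=
    hc.map' Cs.subtype (Submodule.ker_subtype _)
  obtain ⟨w, hw⟩ := exists_linearIndependent_of_le_finrank (le_refl (Module.finrank ℚ Vs))
  have hw' : LinearIndependent ℚ (fun t => (w t : Fin n → ℚ)) :=
    hw.map' Vs.subtype (Submodule.ker_subtype _)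
  set b' : Fin (k + 1) → ℂ :=
    Fin.cons 1 (fun t => ∑ j, ((c t : Fin m → ℚ) j : ℂ) * b j) with hb'
  set l' : Fin (Module.finrank ℚ Vs) → ℂ := fun s => ∑ i, ((w s : Fin n → ℚ) i : ℂ) * l i with hl'
  have hb'ind : LinearIndependent ℚ b' := gCoreB_bind b hbind _ hc'
  have hl'ind : LinearIndependent ℚ l' := gCore_lind l hl _ hw'
  have hb'alg : ∀ j, IsAlgebraic ℚ (b' j) := by
    intro j
    refine Fin.cases ?_ (fun t => ?_) j
    · exact isAlgebraic_one
    · change IsAlgebraic ℚ (∑ j, ((c t : Fin m → ℚ) j : ℂ) * b j)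
      refine gCore_sum _ _ fun j _ => ?_
      exact (isAlgebraic_algebraMap (R := ℚ) (A := ℂ) _).mul (hb _)
  have hl'alg : ∀ s, IsAlgebraic ℚ (Complex.exp (l' s)) := fun s => gCore_exp l hexp _
  have hn' : M (k + 1) ≤ Module.finrank ℚ Vs := by
    have h6 : M (k + 1) ≤ (Finset.range (m + 2)).sup M :=
      Finset.le_sup (Finset.mem_range.2 (by omega))
    omega
  obtain ⟨⟨s1, hs1⟩, ⟨s2, hs2⟩⟩ := hM (k + 1) b' hb'alg hb'ind _ hn' l' hl'ind hl'alg
  -- algebraicity over `ℚ(Y)`
  have hYalg : ∀ s j, IsAlgebraic (IntermediateField.adjoin ℚ Y) (Complex.exp (b' j * l' s)) := by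
    intro s j
    refine Fin.cases ?_ (fun t => ?_) j
    · rw [hb', Fin.cons_zero, one_mul]
      exact (hl'alg s).tower_top _
    · obtain ⟨N, hN, ξ, hξ, hξe⟩ := hCV (c t) (c t).2 (w s) (w s).2
      apply IsAlgebraic.of_pow (Nat.pos_of_ne_zero hN)
      have h6 : Complex.exp (b' t.succ * l' s) ^ N = mon y ξ := gCoreB_mon b l _ _ N ξ hξe
      rw [h6]
      exact isAlgebraic_algebraMap (R := IntermediateField.adjoin ℚ Y) (A := ℂ)
        ⟨mon y ξ, IntermediateField.subset_adjoin ℚ _ ⟨ξ, hξ, rfl⟩⟩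
  rcases hcases with hA | hB
  · have := hA (k + 1 - 1) _ (fun t => hYalg _ _) hs2
    omega
  · have := hB (k + 1) _ (fun t => ?_) hs1
    · omega
    · cases h : s1 t with
      | inl s =>
        have h6 : cd b' l' (Sum.inl s) = l' s := rfl
        rw [h6]
        have h7 : l' s ∈ IntermediateField.adjoin ℚ (Set.range l ∪ Y) := by
          refine sum_mem fun i _ => mul_mem ?_ ?_
          · exact (IntermediateField.adjoin ℚ (Set.range l ∪ Y)).algebraMap_mem _
          · exact IntermediateField.subset_adjoin ℚ _ (Or.inl ⟨i, rfl⟩)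
        exact isAlgebraic_algebraMap (R := IntermediateField.adjoin ℚ (Set.range l ∪ Y)) (A := ℂ)
          ⟨_, h7⟩
      | inr p =>
        have h6 : cd b' l' (Sum.inr p) = Complex.exp (b' p.2 * l' p.1) := rfl
        rw [h6]
        have hle2 : IntermediateField.adjoin ℚ Y ≤ IntermediateField.adjoin ℚ (Set.range l ∪ Y) :=
          IntermediateField.adjoin.mono _ _ _ Set.subset_union_right
        let _ : Algebra (IntermediateField.adjoin ℚ Y)
          (IntermediateField.adjoin ℚ (Set.range l ∪ Y)) :=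
          (IntermediateField.inclusion hle2).toRingHom.toAlgebra
        have _ : IsScalarTower (IntermediateField.adjoin ℚ Y)
          (IntermediateField.adjoin ℚ (Set.range l ∪ Y)) ℂ :=
          IsScalarTower.of_algebraMap_eq fun x => rfl
        exact (hYalg p.1 p.2).tower_top _

/-- **Theorem G, general form.** -/
def S_MainB : Prop := ∀ m : ℕ, ∃ n₀ : ℕ, ∀ b : Fin m → ℂ, (∀ j, IsAlgebraic ℚ (b j)) →
  LinearIndependent ℚ (Fin.cons 1 b : Fin (m + 1) → ℂ) → ∀ n : ℕ, n₀ ≤ n → ∀ l : Fin n → ℂ,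
    LinearIndependent ℚ l → (∀ i, IsAlgebraic ℚ (Complex.exp (l i))) →
      ∃ P : MvPolynomial (Fin n) ℂ, P ≠ 0 ∧ P.IsHomogeneous (m + 1) ∧
        ∀ w : Fin n → ℚ, MvPolynomial.eval (fun i => (w i : ℂ)) P ≠ 0 →
          AlgebraicIndependent ℚ (fun o : Option (Fin m) =>
            o.elim (∑ i, (w i : ℂ) * l i) (fun j => Complex.exp (b j * ∑ i, (w i : ℂ) * l i)))

theorem pr_MainB (h1 : S_GCoreB) (h2 : S_GP) : S_MainB := by
  intro m
  obtain ⟨n₀, h⟩ := h1 m
  refine ⟨n₀, fun b hb hbi n hn l hl he => ?_⟩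
  obtain ⟨v, hv⟩ := h b hb hbi n hn l hl he
  exact h2 n m l b v hv

end Pool.Agent.Work.MP_327059_nt.GL

end
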